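import Mathlib

set_option autoImplicit false

/-!
# Geometry in the orbit space: definitions

Coordinates `X 0, …, X 4` of `E5`: `X 0` radial, `X 1, X 2, X 3` the other directions of the cone,
`X 4` the central direction.  `h` is the thickness of the tube, `p = 2 - δ`, `q = 1 / (1 - δ)`.
-/

namespace OD16

open MeasureTheory Metric

noncomputable section

abbrev EE := EuclideanSpace ℝ (Fin 5)

/-- `ρ = |y|`, `y = (1 + h X 0, h X 1, h X 2, h X 3)`. -/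
def rhoR (h : ℝ) (X : EE) : ℝ :=
  Real.sqrt ((1 + h * X 0) ^ 2 + (h * X 1) ^ 2 + (h * X 2) ^ 2 + (h * X 3) ^ 2)

/-- The weight `W = ρ^(-δ/2) (1 - (h X 1)² / (ρ + 1 + h X 0)²)`. -/
def WR (h δ : ℝ) (X : EE) : ℝ :=
  rhoR h X ^ (-(δ / 2)) * (1 - (h * X 1) ^ 2 / (rhoR h X + (1 + h * X 0)) ^ 2)

/-- `k = h² / (2 ρ (ρ + y1))`. -/
def kR (h : ℝ) (X : EE) : ℝ := h ^ 2 / (2 * rhoR h X * (rhoR h X + (1 + h * X 0)))

/-- `𝒯(X) v = |X_⊥|² v_⊥ - (X_⊥ · v_⊥) X_⊥`, with `⊥` the coordinates `1, 2, 3`. -/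
def TR (X v : EE) : EE :=
  WithLp.toLp 2 ![0,
    (X 1 ^ 2 + X 2 ^ 2 + X 3 ^ 2) * v 1 - (X 1 * v 1 + X 2 * v 2 + X 3 * v 3) * X 1,
    (X 1 ^ 2 + X 2 ^ 2 + X 3 ^ 2) * v 2 - (X 1 * v 1 + X 2 * v 2 + X 3 * v 3) * X 2,
    (X 1 ^ 2 + X 2 ^ 2 + X 3 ^ 2) * v 3 - (X 1 * v 1 + X 2 * v 2 + X 3 * v 3) * X 3,
    0]

/-- The inverse metric `G(X) v = v - k(X) 𝒯(X) v`. -/
def GR (h : ℝ) (X v : EE) : EE := v - kR h X • TR X v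

/-- `|v|_g² = ⟨v, G(X) v⟩`. -/
def gsq (h : ℝ) (X v : EE) : ℝ := inner ℝ v (GR h X v)

/-- Rotation by the angle `a` in the `(X 2, X 3)`-plane. -/
def rot23 (a : ℝ) (X : EE) : EE :=
  WithLp.toLp 2 ![X 0, X 1, Real.cos a * X 2 - Real.sin a * X 3,
    Real.sin a * X 2 + Real.cos a * X 3, X 4]

/-- A solution of the reduced overdetermined problem, with everything that is needed to build the
counterexample in the group. -/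
structure Reduced (h δ : ℝ) where
  /-- the domain -/
  dom : Set EE
  /-- the function -/
  F : EE → ℝ
  /-- its gradient -/
  gF : EE → EE
  /-- the boundary constant -/
  c : ℝ
  h_pos : 0 < h
  h_le : h ≤ 1 / 100
  δ_pos : 0 < δ
  δ_lt : δ < 1 / 10
  isOpen_dom : IsOpen dom
  zero_mem : (0 : EE) ∈ dom
  star : ∀ X ∈ dom, ∀ s ∈ Set.Icc (0 : ℝ) 1, s • X ∈ dom
  dom_sub : closure dom ⊆ ball (0 : EE) 2
  hasFDeriv : ∀ X ∈ dom, HasFDerivAt F (innerSL ℝ (gF X)) X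
  cont_gF : ContinuousOn gF dom
  weak : ∀ ψ : EE → ℝ, ContDiff ℝ 1 ψ → HasCompactSupport ψ → tsupport ψ ⊆ dom →
    ∫ X in dom, (WR h δ X * Real.sqrt (gsq h X (gF X)) ^ (-δ) *
      fderiv ℝ ψ X (GR h X (gF X)) - 5 * WR h δ X * ψ X) = 0
  bdry : ∀ ε > 0, ∃ K : Set EE, IsCompact K ∧ K ⊆ dom ∧ ∀ X ∈ dom \ K,
    |F X| < ε ∧ |Real.sqrt (gsq h X (gF X)) - c| < ε
  smooth : ∀ X₀ ∈ frontier dom, ∃ U ∈ nhds X₀, ∃ ρ : EE → ℝ, ContDiff ℝ ((⊤ : ℕ∞) : WithTop ℕ∞) ρ ∧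
    fderiv ℝ ρ X₀ ≠ 0 ∧ dom ∩ U = {X | ρ X < 0} ∩ U
  c_pos : 0 < c
  rot_dom : ∀ a : ℝ, ∀ X ∈ dom, rot23 a X ∈ dom
  rot_F : ∀ a : ℝ, ∀ X ∈ dom, F (rot23 a X) = F X
  grad_zero : gF 0 = 0
  fail : 10 * (1 + 1 / (1 - δ)) * F 0 ≠ (10 - δ) * c ^ (2 - δ)

end

end OD16
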