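import Pool.Agent.LibOD16.Alg0
import Pool.Agent.LibOD16.Geo0

set_option autoImplicit false

/-!
# The data produced by the analysis part

`AData h δ`: a solution of the pulled-back problem, as elements of the algebra `WA`.
-/

namespace OD16

open MvPolynomial MeasureTheory Metric
open scoped BoundedContinuousFunction

noncomputable section

/-- Constant extension to the right of a function on `(-∞, 0]`. -/
def xt {V : Type*} (f : Tm → V) (t : ℝ) : V := f ⟨min t 0, Set.mem_Iic.mpr (min_le_right t 0)⟩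

/-- The cutoff `χ`: `0` for `t ≤ -1`, `1` for `t ≥ -1/2`. -/
def chi (t : ℝ) : ℝ := Real.smoothTransition (2 * (t + 1))

/-- Its derivative. -/
def chid (t : ℝ) : ℝ := deriv chi t

/-- Values of all unknowns at one point (section 2 of the notes). -/
structure Pt where
  h : ℝ
  δ : ℝ
  /-- `r = e^t` -/
  r : ℝ
  /-- `χ(t)` -/
  χ : ℝ
  /-- `χ'(t)` -/
  χd : ℝ
  j0 : ℝ
  j1 : ℝ
  /-- the point `θ` of the sphere -/
  θ : EE
  /-- the tangential gradient `J` -/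
  J : EE

namespace Pt

/-- `q = 1 / (1 - δ)`. -/
def q (P : Pt) : ℝ := 1 / (1 - P.δ)
/-- `U = (1 + q) j0 + j1`. -/
def U (P : Pt) : ℝ := (1 + P.q) * P.j0 + P.j1
def eta (P : Pt) : ℝ := P.χ * P.j0
def etad (P : Pt) : ℝ := P.χd * P.j0 + P.χ * P.j1
def m (P : Pt) : ℝ := 1 + P.eta + P.etad
def be (P : Pt) : ℝ := -1 + (1 - P.χ) * P.U - P.χd * P.j0
def al (P : Pt) : ℝ := P.be / P.m
def ze (P : Pt) : ℝ := ((1 - P.χ) - P.χ * P.be / P.m) / (1 + P.eta)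
/-- The point `(1 + η) r θ`. -/
def xi (P : Pt) : EE := ((1 + P.eta) * P.r) • P.θ
def W (P : Pt) : ℝ := WR P.h P.δ P.xi
/-- `𝒥 = G J`. -/
def cJ (P : Pt) : EE := GR P.h P.xi P.J
def JJ (P : Pt) : ℝ := inner ℝ P.J P.cJ
def s (P : Pt) : ℝ := P.al ^ 2 + P.ze ^ 2 * P.JJ - 1
def Pi (P : Pt) : ℝ := P.W * (1 + P.s) ^ (-(P.δ / 2))
def b (P : Pt) : ℝ :=
  (1 + P.eta) ^ 4 * (P.Pi * P.al + 1 + P.eta) - (1 + P.eta) ^ 3 * P.χ * P.Pi * P.ze * P.JJ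
def Q (P : Pt) : EE := ((1 + P.eta) ^ 3 * P.m * P.Pi * P.ze) • P.cJ
def R (P : Pt) : ℝ := 5 * (1 + P.eta) ^ 4 * P.m * (P.W - 1)

end Pt

/-- The values at the point `(t, θ)`. -/
def mkPt (h δ : ℝ) (j0 j1 : WA) (J : Fin 5 → WA) (t : Tm) (θ : EE) : Pt where
  h := h
  δ := δ
  r := Real.exp t
  χ := chi t
  χd := chid t
  j0 := j0.ev t θ
  j1 := j1.ev t θ
  θ := θ
  J := WithLp.toLp 2 (fun i => (J i).ev t θ)

/-- `0` as an element of `Tm`. -/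
def t0 : Tm := ⟨0, Set.mem_Iic.mpr le_rfl⟩

/-- The output of the analysis part. -/
structure AData (h δ : ℝ) where
  ν : ℝ
  j0 : WA
  j1 : WA
  J : Fin 5 → WA
  b : WA
  Q : Fin 5 → WA
  R : WA
  h_pos : 0 < h
  h_le : h ≤ 1 / 100
  δ_pos : 0 < δ
  δ_lt : δ < 1 / 10
  ν_small : |ν| ≤ 1 / 100
  j0_small : ‖j0‖ ≤ 1 / 100
  j1_small : ‖j1‖ ≤ 1 / 100
  J_small : ∀ i, ‖J i‖ ≤ 1 / 100
  m_ge : ∀ (t : Tm) (θ : S4), 1 / 2 ≤ (mkPt h δ j0 j1 J t θ.1).m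
  s_le : ∀ (t : Tm) (θ : S4), |(mkPt h δ j0 j1 J t θ.1).s| ≤ 1 / 2
  /-- `j1` is the `t`-derivative of `j0`. -/
  dj : ∀ (l : ℕ) (t : ℝ), t < 0 → HasDerivAt (xt (j0.c l)) (xt (j1.c l) t) t
  /-- `J` is the tangential gradient of `j0`. -/
  J_zero : ∀ (i : Fin 5) (t : Tm), (J i).c 0 t = (4 : ℝ) • dn i 0 (j0.c 1 t)
  J_succ : ∀ (i : Fin 5) (l : ℕ) (t : Tm), (J i).c (l + 1) t =
    ((l : ℝ) + 5) • dn i (l + 1) (j0.c (l + 2) t) - (l : ℝ) • up i l (j0.c l t)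
  /-- The equation `b' + 5 b + div_S Q + R = 0`, degree by degree. -/
  pde_zero : ∀ t : ℝ, t < 0 → HasDerivAt (xt (b.c 0)) (-((5 : ℝ) • xt (b.c 0) t) - xt (R.c 0) t) t
  pde_succ : ∀ (l : ℕ) (t : ℝ), t < 0 → HasDerivAt (xt (b.c (l + 1)))
    (-((5 : ℝ) • xt (b.c (l + 1)) t) - (((l : ℝ) + 1) • ∑ i, dn i (l + 1) (xt ((Q i).c (l + 2)) t)
      - ((l : ℝ) + 4) • ∑ i, up i l (xt ((Q i).c l) t)) - xt (R.c (l + 1)) t) t
  b_ev : ∀ (t : Tm) (θ : S4), b.ev t θ.1 = (mkPt h δ j0 j1 J t θ.1).b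
  Q_ev : ∀ (t : Tm) (θ : S4) (i : Fin 5), (Q i).ev t θ.1 = (mkPt h δ j0 j1 J t θ.1).Q i
  R_ev : ∀ (t : Tm) (θ : S4), R.ev t θ.1 = (mkPt h δ j0 j1 J t θ.1).R
  /-- The boundary condition `|∇F|_g = c`. -/
  bc : ∀ θ : S4, 1 + j0.ev t0 θ.1 + j1.ev t0 θ.1 =
    (1 + ν) * Real.sqrt (1 + (mkPt h δ j0 j1 J t0 θ.1).JJ / (1 + j0.ev t0 θ.1) ^ 2)
  rot : ∀ (a : ℝ) (t : Tm) (θ : S4), j0.ev t (rot23 a θ.1) = j0.ev t θ.1
  fail : (1 + ν) ^ (2 - δ) ≠ 1 - δ / 10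

/-- `t = log |x|` (truncated at `0`). -/
def tm (x : EE) : Tm := ⟨min (Real.log ‖x‖) 0, Set.mem_Iic.mpr (min_le_right _ _)⟩

/-- The direction of `x`. -/
def dir (x : EE) : EE := ‖x‖⁻¹ • x

/-- An element of `WA` as a function on `EE`. -/
def WA.fn (F : WA) (x : EE) : ℝ := F.ev (tm x) (dir x)

namespace AData

variable {h δ : ℝ} (D : AData h δ)

/-- `q = 1 / (1 - δ)`. -/
def q (_ : AData h δ) : ℝ := 1 / (1 - δ)

/-- The values at `x`, `0 < |x| ≤ 1`. -/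
def P (x : EE) : Pt := mkPt h δ D.j0 D.j1 D.J (tm x) (dir x)

/-- The diffeomorphism `Φ`. -/
def Ph (x : EE) : EE := (1 + (D.P x).eta) • x

/-- The pulled-back function. -/
def fh (x : EE) : ℝ :=
  (1 - ‖x‖ ^ (1 + D.q)) / (1 + D.q) + (1 - (D.P x).χ) * ‖x‖ ^ (1 + D.q) * (D.P x).j0

/-- The gradient of `F` at `Φ(x)`. -/
def gh (x : EE) : EE := ‖x‖ ^ D.q • ((D.P x).al • (D.P x).θ + (D.P x).ze • (D.P x).J)

/-- The domain. -/
def dom : Set EE := D.Ph '' ball (0 : EE) 1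

/-- The inverse of `Φ`. -/
def Ps (X : EE) : EE := Function.invFunOn D.Ph (ball (0 : EE) 1) X

/-- The solution. -/
def F (X : EE) : ℝ := D.fh (D.Ps X)

/-- Its gradient. -/
def gF (X : EE) : EE := D.gh (D.Ps X)

end AData

end

end OD16
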