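import Pool.Agent.LibOD16.HarmPrj

set_option autoImplicit false
namespace OD16
open MvPolynomial MeasureTheory Metric
noncomputable section

private lemma norm_evC_le {l : ℕ} (P : V l) : ‖evC P‖ ≤ ‖P‖ := by
  rw [ContinuousMap.norm_le _ (norm_nonneg _)]
  intro θ
  exact P.abs_ev_le θ

/-- TASK H15.  Uniqueness of expansions in harmonics (apply `prj k`, `prj_evC_self`, `prj_evC_ne`, uniform
convergence). -/
lemma expansion_unique (c : (l : ℕ) → V l) (hc : Summable fun l => ‖c l‖)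
    (h : ∀ θ : S4, ∑' l, (c l).ev θ.1 = 0) : ∀ l, c l = 0 := by
  have hs : Summable (fun l => evC (c l)) :=
    Summable.of_norm_bounded hc (fun l => norm_evC_le (c l))
  obtain ⟨F, hF⟩ := hs
  have hF0 : F = 0 := by
    ext θ
    have h1 := ContinuousMap.hasSum_apply hF θ
    rw [← h1.tsum_eq]
    exact h θ
  rw [hF0] at hF
  intro k
  let L : C(S4, ℝ) →L[ℝ] V k :=
    { toFun := prj k
      map_add' := prj_add k
      map_smul' := prj_smul k
      cont := continuous_prj k }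
  have h1 : HasSum (fun l => prj k (evC (c l))) (L 0) := L.hasSum hF
  have h2 : HasSum (fun l => prj k (evC (c l))) (prj k (evC (c k))) :=
    hasSum_single k (fun l hl => prj_evC_ne (Ne.symm hl) (c l))
  have h3 := h2.unique h1
  rw [prj_evC_self, map_zero] at h3
  exact h3

/-- The constant `1`. -/
def c0 : V 0 := V.mk 1 (by
  refine ⟨isHomogeneous_one _ _, ?_⟩
  show lap 1 = 0
  simp [lap])

/-- The coordinate `x_i`. -/
def tv (i : Fin 5) : V 1 := V.mk (X i) (by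
  refine ⟨isHomogeneous_X _ _, ?_⟩
  show lap (X i) = 0
  have h1 : lap (X i) = ∑ j, pderiv j (pderiv j (X i)) := by
    simp [lap]
  rw [h1]
  apply Finset.sum_eq_zero
  intro j _
  rw [pderiv_X]
  by_cases hij : i = j
  · subst hij
    simp
  · simp [Pi.single_eq_of_ne hij])

@[simp] lemma c0_ev (x : E5) : c0.ev x = 1 := by
  show pev 1 x = 1
  simp [pev]

@[simp] lemma tv_ev (i : Fin 5) (x : E5) : (tv i).ev x = x i := by
  show pev (X i) x = x i
  simp [pev]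

private lemma hom_zero_eq {P : Pol} (hP : P.IsHomogeneous 0) : P = C (coeff 0 P) :=
  totalDegree_eq_zero_iff_eq_C.mp (Nat.le_zero.mp hP.totalDegree_le)

/-- Elements of `V 0` are constant, elements of `V 1` are linear. -/
lemma V0_eq (P : V 0) : P = (P.ev 0) • c0 := by
  apply V.ext
  have h1 := hom_zero_eq P.hom
  have h2 : P.ev 0 = coeff 0 P.pol := by
    unfold V.ev pev
    conv_lhs => rw [h1]
    simp
  rw [h2, V.pol_smul]
  show P.pol = coeff 0 P.pol • (1 : Pol)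
  conv_lhs => rw [h1]
  rw [smul_eq_C_mul, mul_one]

lemma V1_eq (P : V 1) : P = ∑ i, (P.ev (EuclideanSpace.single i 1)) • tv i := by
  have h1 := P.hom.sum_X_mul_pderiv
  rw [one_smul] at h1
  have h2 : ∀ i, pderiv i P.pol = C (coeff 0 (pderiv i P.pol)) := fun i =>
    hom_zero_eq (pderiv_hom P.hom i)
  set a : Fin 5 → ℝ := fun i => coeff 0 (pderiv i P.pol) with ha
  have h3 : P.pol = ∑ i, X i * C (a i) := by
    conv_lhs => rw [← h1]
    exact Finset.sum_congr rfl (fun i _ => by rw [h2 i])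
  have h4 : ∀ x : E5, P.ev x = ∑ i, x i * a i := by
    intro x
    unfold V.ev pev
    rw [h3]
    simp
  have h5 : ∀ i, P.ev (EuclideanSpace.single i 1) = a i := by
    intro i
    rw [h4]
    simp
  have h6 : (∑ i, (P.ev (EuclideanSpace.single i 1)) • tv i).pol
      = ∑ i, (P.ev (EuclideanSpace.single i 1)) • (tv i).pol := by
    show V.polL 1 (∑ i, (P.ev (EuclideanSpace.single i 1)) • tv i) = _
    rw [map_sum]
    rfl
  apply V.ext
  rw [h6, h3]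
  apply Finset.sum_congr rfl
  intro i _
  rw [h5]
  show X i * C (a i) = a i • (X i : Pol)
  rw [smul_eq_C_mul, mul_comm]

/-- The harmonic components of `θ_1²` and `θ_0 θ_1²`: there are `Y2 : V 2`, `Y3 : V 3` with
`θ_1² = 1/5 + Y2`, `θ_0 θ_1² = θ_0 / 7 + Y3`. -/
lemma exists_Y2 : ∃ Y2 : V 2, ∀ θ : S4, θ.1 1 ^ 2 = 1 / 5 + Y2.ev θ.1 := by
  refine ⟨up 1 1 (tv 1), fun θ => ?_⟩
  have h1 := ev_mul_coord 1 0 (tv 1) θ
  rw [tv_ev] at h1
  have h2 : (dn 1 0 (tv 1)).ev θ.1 = 1 / 5 := by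
    show pev (dn 1 0 (tv 1)).pol θ.1 = 1 / 5
    rw [dn_pol]
    show pev ((2 * ((0 : ℕ) : ℝ) + 5)⁻¹ • pderiv 1 (X 1)) θ.1 = 1 / 5
    rw [pev_smul, pderiv_X_self]
    simp [pev]
  rw [h2] at h1
  have h3 : (up 1 (0 + 1) (tv 1)).ev θ.1 = (up 1 1 (tv 1)).ev θ.1 := rfl
  rw [h3] at h1
  linarith [sq (θ.1 1)]

lemma exists_Y3 : ∃ Y3 : V 3, ∀ θ : S4, θ.1 0 * θ.1 1 ^ 2 = θ.1 0 / 7 + Y3.ev θ.1 := by
  refine ⟨up 0 2 (up 1 1 (tv 1)), fun θ => ?_⟩
  have h1 := ev_mul_coord 1 0 (tv 1) θ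
  rw [tv_ev] at h1
  have h2 : (dn 1 0 (tv 1)).ev θ.1 = 1 / 5 := by
    show pev (dn 1 0 (tv 1)).pol θ.1 = 1 / 5
    rw [dn_pol]
    show pev ((2 * ((0 : ℕ) : ℝ) + 5)⁻¹ • pderiv 1 (X 1)) θ.1 = 1 / 5
    rw [pev_smul, pderiv_X_self]
    simp [pev]
  rw [h2] at h1
  have h3 : (up 1 (0 + 1) (tv 1)).ev θ.1 = (up 1 1 (tv 1)).ev θ.1 := rfl
  rw [h3] at h1
  have h4 := ev_mul_coord 0 1 (up 1 1 (tv 1)) θ
  have h5 : (up 0 (1 + 1) (up 1 1 (tv 1))).ev θ.1 = (up 0 2 (up 1 1 (tv 1))).ev θ.1 := rfl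
  rw [h5] at h4
  have h6 : (dn 0 1 (up 1 1 (tv 1))).ev θ.1 = -(2 / 35) * θ.1 0 := by
    show pev (dn 0 1 (up 1 1 (tv 1))).pol θ.1 = _
    rw [dn_pol, up_pol, pev_smul]
    show (2 * ((1 : ℕ) : ℝ) + 5)⁻¹ * pev (pderiv 0 (upPol 1 1 (X 1))) θ.1 = _
    have h7 : pderiv 0 (upPol 1 1 (X 1)) = -((2 * ((1 : ℕ) : ℝ) + 3)⁻¹ • ((2 : Pol) * X 0)) := by
      unfold upPol nsq
      simp only [map_sub, Derivation.leibniz, Derivation.map_smul, map_sum, pderiv_X_self, mul_one]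
      simp [pderiv_X, Pi.single_apply]
    rw [h7]
    simp only [pev, map_neg, smul_eval, map_mul, eval_X]
    push_cast
    norm_num
    ring
  rw [h6] at h4
  have h8 : θ.1 1 ^ 2 = 1 / 5 + (up 1 1 (tv 1)).ev θ.1 := by linarith [sq (θ.1 1)]
  rw [h8, mul_add, h4]
  ring

end
end OD16
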