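import Pool.Agent.LibOD16.HarmMul
import Pool.Agent.LibOD16.HarmUniq

set_option autoImplicit false

/-!
# The algebra `WA` of `ℓ¹`-sums of spherical harmonics with coefficients in `C_b((-∞, 0])`
-/

namespace OD16

open MvPolynomial MeasureTheory Metric
open scoped BoundedContinuousFunction ENNReal

noncomputable section

/-- The half line of the variable `t = log r`. -/
abbrev Tm := Set.Iic (0 : ℝ)

/-- `ℓ¹`-sums of harmonics with coefficients bounded continuous on `(-∞, 0]`. -/
def WA : Type := lp (fun l : ℕ => Tm →ᵇ V l) 1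

instance : NormedAddCommGroup WA :=
  inferInstanceAs (NormedAddCommGroup (lp (fun l : ℕ => Tm →ᵇ V l) 1))

instance : NormedSpace ℝ WA :=
  inferInstanceAs (NormedSpace ℝ (lp (fun l : ℕ => Tm →ᵇ V l) 1))

instance : CompleteSpace WA :=
  inferInstanceAs (CompleteSpace (lp (fun l : ℕ => Tm →ᵇ V l) 1))

namespace WA

/-- The component of degree `l`. -/
def c (F : WA) (l : ℕ) : Tm →ᵇ V l := (show lp (fun l : ℕ => Tm →ᵇ V l) 1 from F) l

@[simp] lemma c_add (F G : WA) (l : ℕ) : (F + G).c l = F.c l + G.c l := rfl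
@[simp] lemma c_sub (F G : WA) (l : ℕ) : (F - G).c l = F.c l - G.c l := rfl
@[simp] lemma c_neg (F : WA) (l : ℕ) : (-F).c l = -F.c l := rfl
@[simp] lemma c_zero (l : ℕ) : (0 : WA).c l = 0 := rfl
@[simp] lemma c_smul (a : ℝ) (F : WA) (l : ℕ) : (a • F).c l = a • F.c l := rfl

@[ext] lemma ext {F G : WA} (h : ∀ l, F.c l = G.c l) : F = G := by
  apply lp.ext
  funext l
  exact h l

lemma summable_norm (F : WA) : Summable fun l => ‖F.c l‖ := by
  have h := lp.memℓp (show lp (fun l : ℕ => Tm →ᵇ V l) 1 from F)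
  have h1 := h.summable (by norm_num)
  simp only [ENNReal.toReal_one, Real.rpow_one] at h1
  exact h1

lemma norm_def (F : WA) : ‖F‖ = ∑' l, ‖F.c l‖ := by
  have h := lp.norm_eq_tsum_rpow (p := 1) (by norm_num) (show lp (fun l : ℕ => Tm →ᵇ V l) 1 from F)
  simp only [ENNReal.toReal_one, Real.rpow_one, ne_eq, one_ne_zero, not_false_eq_true, div_self] at h
  exact h

/-- Constructor from a family with summable norms. -/
def mk (f : (l : ℕ) → Tm →ᵇ V l) (hf : Summable fun l => ‖f l‖) : WA :=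
  (⟨f, by
    apply memℓp_gen
    simpa using hf⟩ : lp (fun l : ℕ => Tm →ᵇ V l) 1)

@[simp] lemma c_mk (f : (l : ℕ) → Tm →ᵇ V l) (hf : Summable fun l => ‖f l‖) (l : ℕ) :
    (mk f hf).c l = f l := rfl

lemma norm_c_le (F : WA) (l : ℕ) : ‖F.c l‖ ≤ ‖F‖ := by
  rw [norm_def]
  exact F.summable_norm.le_tsum l (fun j _ => norm_nonneg _)

/-- The value of an element at `(t, x)`. -/
def ev (F : WA) (t : Tm) (x : E5) : ℝ := ∑' l, (F.c l t).ev x

lemma summable_ev (F : WA) (t : Tm) (θ : S4) : Summable fun l => ‖(F.c l t).ev θ.1‖ := by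
  apply Summable.of_nonneg_of_le (fun l => norm_nonneg _) _ F.summable_norm
  intro l
  rw [Real.norm_eq_abs]
  exact ((F.c l t).abs_ev_le θ).trans ((F.c l).norm_coe_le_norm t)

lemma abs_ev_le (F : WA) (t : Tm) (θ : S4) : |F.ev t θ.1| ≤ ‖F‖ := by
  rw [norm_def]
  have h := norm_tsum_le_tsum_norm (F.summable_ev t θ)
  rw [Real.norm_eq_abs] at h
  refine h.trans ?_
  apply Summable.tsum_le_tsum _ (F.summable_ev t θ) F.summable_norm
  intro l
  rw [Real.norm_eq_abs]
  exact ((F.c l t).abs_ev_le θ).trans ((F.c l).norm_coe_le_norm t)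

lemma ev_add (F G : WA) (t : Tm) (θ : S4) : (F + G).ev t θ.1 = F.ev t θ.1 + G.ev t θ.1 := by
  unfold ev
  rw [← Summable.tsum_add (F.summable_ev t θ).of_norm (G.summable_ev t θ).of_norm]
  congr 1
  ext l
  exact V.ev_add _ _ _

lemma ev_smul (a : ℝ) (F : WA) (t : Tm) (θ : S4) : (a • F).ev t θ.1 = a * F.ev t θ.1 := by
  unfold ev
  rw [← tsum_mul_left]
  congr 1
  ext l
  exact V.ev_smul _ _ _

lemma ev_zero (t : Tm) (x : E5) : (0 : WA).ev t x = 0 := by
  unfold ev
  simp [V.ev_zero]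

lemma ev_sub (F G : WA) (t : Tm) (θ : S4) : (F - G).ev t θ.1 = F.ev t θ.1 - G.ev t θ.1 := by
  have : F - G = F + (-1 : ℝ) • G := by simp [sub_eq_add_neg]
  rw [this, ev_add, ev_smul]
  ring

/-- Evaluation determines the element. -/
lemma ext_ev {F G : WA} (h : ∀ (t : Tm) (θ : S4), F.ev t θ.1 = G.ev t θ.1) : F = G := by
  apply WA.ext
  intro l
  apply BoundedContinuousFunction.ext
  intro t
  have h1 : ∀ l, (F - G).c l t = 0 := by
    apply expansion_unique (fun l => (F - G).c l t)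
    · apply Summable.of_nonneg_of_le (fun l => norm_nonneg _) _ (F - G).summable_norm
      intro l
      exact ((F - G).c l).norm_coe_le_norm t
    · intro θ
      have := ev_sub F G t θ
      rw [h t θ, sub_self] at this
      exact this
  have h2 := h1 l
  simpa [sub_eq_zero] using h2

end WA

end

end OD16
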