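import Pool.Agent.LibOD16.AlgMul

set_option autoImplicit false
namespace OD16
open MvPolynomial MeasureTheory Metric
open scoped BoundedContinuousFunction ENNReal
noncomputable section

namespace WA

/-- The element with the single component `f` in degree `l`. -/
def single (l : ℕ) (f : Tm →ᵇ V l) : WA :=
  mk (Pi.single l f) (by
    apply summable_of_ne_finset_zero (s := {l})
    intro k hk
    rw [Finset.notMem_singleton] at hk
    rw [Pi.single_eq_of_ne hk, norm_zero])

/-- TASK Alg1.  Elementary properties. -/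
lemma c_single_same (l : ℕ) (f : Tm →ᵇ V l) : (single l f).c l = f := by
  unfold single
  rw [c_mk, Pi.single_eq_same]

lemma c_single_ne {l k : ℕ} (h : k ≠ l) (f : Tm →ᵇ V l) : (single l f).c k = 0 := by
  unfold single
  rw [c_mk, Pi.single_eq_of_ne h]

lemma ev_single (l : ℕ) (f : Tm →ᵇ V l) (t : Tm) (x : E5) : (single l f).ev t x = (f t).ev x := by
  unfold ev
  rw [tsum_eq_single l]
  · rw [c_single_same]
  · intro k hk
    rw [c_single_ne hk]
    exact V.ev_zero x

lemma norm_single (l : ℕ) (f : Tm →ᵇ V l) : ‖single l f‖ = ‖f‖ := by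
  rw [norm_def, tsum_eq_single l]
  · rw [c_single_same]
  · intro k hk
    rw [c_single_ne hk, norm_zero]

/-- `t ↦ f(t) · 1`, radial functions. -/
def rad (f : Tm →ᵇ ℝ) : WA := single 0 (f • BoundedContinuousFunction.const Tm c0)

lemma rad_c_zero (f : Tm →ᵇ ℝ) (t : Tm) : (rad f).c 0 t = f t • c0 := by
  unfold rad
  rw [c_single_same]
  rfl

lemma ev_rad (f : Tm →ᵇ ℝ) (t : Tm) (x : E5) : (rad f).ev t x = f t := by
  have h : (rad f).ev t x = ((f • BoundedContinuousFunction.const Tm c0) t).ev x := by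
    unfold rad
    exact ev_single _ _ _ _
  have h1 : (f • BoundedContinuousFunction.const Tm c0) t = f t • c0 := rfl
  rw [h, h1, V.ev_smul, c0_ev, mul_one]

lemma rad_c_succ (f : Tm →ᵇ ℝ) (l : ℕ) : (rad f).c (l + 1) = 0 := by
  unfold rad
  exact c_single_ne (Nat.succ_ne_zero l) _

/-- `‖rad f‖ ≤ 48 √(8π²/3) sup |f| ≤ 300 sup |f|`; `8π²/3` is the area of `S⁴`. -/
lemma exists_norm_rad_le : ∃ C : ℝ, 0 < C ∧ ∀ f : Tm →ᵇ ℝ, ‖rad f‖ ≤ C * ‖f‖ := by
  refine ⟨‖c0‖ + 1, by positivity, fun f => ?_⟩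
  unfold rad
  rw [norm_single]
  calc ‖f • BoundedContinuousFunction.const Tm c0‖
      ≤ ‖f‖ * ‖BoundedContinuousFunction.const Tm c0‖ := norm_smul_le _ _
    _ ≤ ‖f‖ * ‖c0‖ :=
        mul_le_mul_of_nonneg_left (BoundedContinuousFunction.norm_const_le _) (norm_nonneg _)
    _ ≤ (‖c0‖ + 1) * ‖f‖ := by nlinarith [norm_nonneg f, norm_nonneg c0]

lemma Alg1_ext_c0 {F G : WA} (h0 : ∀ t, F.c 0 t = G.c 0 t) (h1 : ∀ l, F.c (l + 1) = G.c (l + 1)) :
    F = G := by
  apply WA.ext
  intro l
  cases l with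
  | zero => exact BoundedContinuousFunction.ext h0
  | succ l => exact h1 l

lemma rad_add (f g : Tm →ᵇ ℝ) : rad (f + g) = rad f + rad g := by
  apply Alg1_ext_c0
  · intro t
    rw [c_add, BoundedContinuousFunction.add_apply, rad_c_zero, rad_c_zero, rad_c_zero,
      BoundedContinuousFunction.add_apply, add_smul]
  · intro l
    rw [c_add, rad_c_succ, rad_c_succ, rad_c_succ, add_zero]

lemma rad_smul (a : ℝ) (f : Tm →ᵇ ℝ) : rad (a • f) = a • rad f := by
  apply Alg1_ext_c0
  · intro t
    rw [c_smul, BoundedContinuousFunction.smul_apply, rad_c_zero, rad_c_zero,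
      BoundedContinuousFunction.smul_apply, smul_assoc]
  · intro l
    rw [c_smul, rad_c_succ, rad_c_succ, smul_zero]

/-- The coordinate functions `θ_i`. -/
def th (i : Fin 5) : WA := single 1 (BoundedContinuousFunction.const Tm (tv i))

lemma ev_th (i : Fin 5) (t : Tm) (x : E5) : (th i).ev t x = x i := by
  have h : (th i).ev t x = ((BoundedContinuousFunction.const Tm (tv i)) t).ev x := by
    unfold th
    exact ev_single _ _ _ _
  rw [h, BoundedContinuousFunction.const_apply, tv_ev]

/-- Multiplication by a radial function, componentwise. -/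
def smulF (f : Tm →ᵇ ℝ) (F : WA) : WA :=
  mk (fun l => f • F.c l) (by
    refine Summable.of_nonneg_of_le (fun l => norm_nonneg _) (fun l => norm_smul_le f (F.c l)) ?_
    exact F.summable_norm.mul_left ‖f‖)

lemma c_smulF (f : Tm →ᵇ ℝ) (F : WA) (l : ℕ) (t : Tm) : (smulF f F).c l t = f t • F.c l t := by
  unfold smulF
  rw [c_mk]
  rfl

lemma ev_smulF (f : Tm →ᵇ ℝ) (F : WA) (t : Tm) (x : E5) : (smulF f F).ev t x = f t * F.ev t x := by
  unfold ev
  rw [← tsum_mul_left]
  congr 1
  ext l
  rw [c_smulF, V.ev_smul]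

/-! The product. -/

instance : Mul WA := ⟨fun F G => Classical.choose (exists_mul F G)⟩

instance : One WA := ⟨rad 1⟩

lemma ev_mul (F G : WA) (t : Tm) (θ : S4) : (F * G).ev t θ.1 = F.ev t θ.1 * G.ev t θ.1 :=
  (Classical.choose_spec (exists_mul F G)).1 t θ

lemma norm_mul_le' (F G : WA) : ‖F * G‖ ≤ ‖F‖ * ‖G‖ :=
  (Classical.choose_spec (exists_mul F G)).2

lemma one_def : (1 : WA) = rad 1 := rfl

lemma ev_one (t : Tm) (x : E5) : (1 : WA).ev t x = 1 := by
  rw [one_def, ev_rad]
  rfl

lemma rad_mul_eq (f : Tm →ᵇ ℝ) (F : WA) : rad f * F = smulF f F := by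
  apply ext_ev
  intro t θ
  rw [ev_mul, ev_rad, ev_smulF]

lemma c_rad_mul (f : Tm →ᵇ ℝ) (F : WA) (l : ℕ) (t : Tm) :
    (rad f * F).c l t = f t • F.c l t := by
  rw [rad_mul_eq, c_smulF]

instance : CommRing WA :=
  { (inferInstance : AddCommGroup WA) with
    mul := (· * ·)
    one := 1
    mul_assoc := fun F G H => ext_ev fun t θ => by simp only [ev_mul, mul_assoc]
    one_mul := fun F => ext_ev fun t θ => by simp only [ev_mul, ev_one, one_mul]
    mul_one := fun F => ext_ev fun t θ => by simp only [ev_mul, ev_one, mul_one]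
    left_distrib := fun F G H => ext_ev fun t θ => by simp only [ev_mul, ev_add, mul_add]
    right_distrib := fun F G H => ext_ev fun t θ => by simp only [ev_mul, ev_add, add_mul]
    zero_mul := fun F => ext_ev fun t θ => by
      rw [ev_mul, ev_zero, zero_mul]
    mul_zero := fun F => ext_ev fun t θ => by
      rw [ev_mul, ev_zero, mul_zero]
    mul_comm := fun F G => ext_ev fun t θ => by simp only [ev_mul, mul_comm] }

instance : NormedCommRing WA :=
  { (inferInstance : NormedAddCommGroup WA), (inferInstance : CommRing WA) with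
    norm_mul_le := norm_mul_le' }

instance : NormedAlgebra ℝ WA :=
  { Algebra.ofModule (R := ℝ) (A := WA)
      (fun r F G => ext_ev fun t θ => by simp only [ev_mul, ev_smul, mul_assoc])
      (fun r F G => ext_ev fun t θ => by simp only [ev_mul, ev_smul]; ring) with
    norm_smul_le := fun r F => by
      exact norm_smul_le r F }

/-- Evaluation as a ring homomorphism. -/
def evR (t : Tm) (θ : S4) : WA →+* ℝ where
  toFun F := F.ev t θ.1
  map_one' := ev_one t θ.1
  map_mul' F G := ev_mul F G t θ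
  map_zero' := ev_zero t θ.1
  map_add' F G := ev_add F G t θ

lemma evR_apply (t : Tm) (θ : S4) (F : WA) : evR t θ F = F.ev t θ.1 := rfl

lemma continuous_evR (t : Tm) (θ : S4) : Continuous (evR t θ) := by
  have : LipschitzWith 1 (evR t θ) := by
    apply LipschitzWith.of_dist_le_mul
    intro F G
    rw [NNReal.coe_one, one_mul, dist_eq_norm, dist_eq_norm, Real.norm_eq_abs, evR_apply, evR_apply,
      ← ev_sub]
    exact abs_ev_le _ _ _
  exact this.continuous

end WA

example (F G : WA) : F * G + F = F * (G + 1) := by ring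
example (F G : WA) : ‖F + G‖ ≤ ‖F‖ + ‖G‖ := norm_add_le F G
example (F G : WA) : ‖F * G‖ ≤ ‖F‖ * ‖G‖ := norm_mul_le F G

end
end OD16
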