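import Pool.Agent.LibOD16.Alg0

set_option autoImplicit false
namespace OD16
open MvPolynomial MeasureTheory Metric
open scoped BoundedContinuousFunction ENNReal
noncomputable section

lemma am_add_right (l m k : ℕ) (Y : V l) (Z Z' : V m) :
    mulV l m k Y (Z + Z') = mulV l m k Y Z + mulV l m k Y Z' := by
  rw [mulV_comm, mulV_add_left, mulV_comm m l k Z, mulV_comm m l k Z']

lemma am_smul_right (l m k : ℕ) (c : ℝ) (Y : V l) (Z : V m) :
    mulV l m k Y (c • Z) = c • mulV l m k Y Z := by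
  rw [mulV_comm, mulV_smul_left, mulV_comm m l k Z]

/-- The product as a continuous bilinear map. -/
def amB (l m k : ℕ) : V l →L[ℝ] V m →L[ℝ] V k :=
  LinearMap.mkContinuous₂ (LinearMap.mk₂ ℝ (mulV l m k) (mulV_add_left l m k)
    (mulV_smul_left l m k) (am_add_right l m k) (fun c Y Z => am_smul_right l m k c Y Z))
    (Mc l m k) (fun Y Z => norm_mulV_le l m k Y Z)

lemma amB_apply (l m k : ℕ) (Y : V l) (Z : V m) : amB l m k Y Z = mulV l m k Y Z := rfl

/-- TASK AlgMul.  Product of bounded continuous components (`norm_mulV_le`, bilinearity, `Mc_nonneg`). -/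
lemma exists_mulB (l m k : ℕ) (f : Tm →ᵇ V l) (g : Tm →ᵇ V m) :
    ∃ H : Tm →ᵇ V k, (∀ t, H t = mulV l m k (f t) (g t)) ∧ ‖H‖ ≤ Mc l m k * ‖f‖ * ‖g‖ := by
  have hc : Continuous (fun t => mulV l m k (f t) (g t)) := by
    have h1 : Continuous (fun t => amB l m k (f t) (g t)) :=
      ((amB l m k).continuous.comp f.continuous).clm_apply g.continuous
    exact h1
  have hb : ∀ t, ‖mulV l m k (f t) (g t)‖ ≤ Mc l m k * ‖f‖ * ‖g‖ := fun t => by
    refine (norm_mulV_le l m k (f t) (g t)).trans ?_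
    have h1 := f.norm_coe_le_norm t
    have h2 := g.norm_coe_le_norm t
    have h3 := Mc_nonneg l m k
    gcongr
  refine ⟨BoundedContinuousFunction.ofNormedAddCommGroup _ hc _ hb, fun t => rfl, ?_⟩
  apply BoundedContinuousFunction.norm_ofNormedAddCommGroup_le
  have := Mc_nonneg l m k
  positivity

lemma am_Mc_le (l m k : ℕ) : Mc l m k ≤ 1 := by
  by_cases h : k ∈ Finset.range (l + m + 1)
  · exact (Finset.single_le_sum (fun j _ => Mc_nonneg l m j) h).trans (sum_Mc_le l m)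
  · rw [Finset.mem_range, not_lt] at h
    unfold Mc
    rw [if_neg (by omega)]
    norm_num

lemma am_Mc_zero {l m k : ℕ} (h : k ∉ Finset.range (l + m + 1)) : Mc l m k = 0 := by
  rw [Finset.mem_range, not_lt] at h
  unfold Mc
  rw [if_neg (by omega)]

/-- The pointwise product of two elements of `WA` is in `WA`:
`H.c k = ∑' (l, m), mulB l m k (F.c l) (G.c m)`; sum of the norms `≤ ∑_{k,l,m} Mc l m k ‖F_l‖ ‖G_m‖
≤ ‖F‖ ‖G‖` (`sum_Mc_le`; `Mc l m k = 0` for `k > l + m`); evaluation: `mul_ev`, exchange of sums. -/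
theorem WA.exists_mul (F G : WA) : ∃ H : WA,
    (∀ (t : Tm) (θ : S4), H.ev t θ.1 = F.ev t θ.1 * G.ev t θ.1) ∧ ‖H‖ ≤ ‖F‖ * ‖G‖ := by
  choose B hB1 hB2 using fun (p : ℕ × ℕ) (k : ℕ) => exists_mulB p.1 p.2 k (F.c p.1) (G.c p.2)
  obtain ⟨S, hS⟩ : ∃ S : ℕ × ℕ → ℕ → ℝ,
      S = fun p k => Mc p.1 p.2 k * ‖F.c p.1‖ * ‖G.c p.2‖ := ⟨_, rfl⟩
  have hBS : ∀ p k, ‖B p k‖ ≤ S p k := fun p k => by rw [hS]; exact hB2 p k
  have hS0 : ∀ p k, 0 ≤ S p k := fun p k => (norm_nonneg _).trans (hBS p k)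
  have hfin : ∀ p : ℕ × ℕ, ∀ k ∉ Finset.range (p.1 + p.2 + 1), S p k = 0 := fun p k hk => by
    rw [hS]
    show Mc p.1 p.2 k * ‖F.c p.1‖ * ‖G.c p.2‖ = 0
    rw [am_Mc_zero hk]
    ring
  have hle : ∀ p : ℕ × ℕ, ∑' k, S p k ≤ ‖F.c p.1‖ * ‖G.c p.2‖ := fun p => by
    rw [tsum_eq_sum (hfin p)]
    have h1 : ∑ k ∈ Finset.range (p.1 + p.2 + 1), S p k =
        (∑ k ∈ Finset.range (p.1 + p.2 + 1), Mc p.1 p.2 k) * (‖F.c p.1‖ * ‖G.c p.2‖) := by
      rw [hS, Finset.sum_mul]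
      exact Finset.sum_congr rfl fun k _ => mul_assoc _ _ _
    rw [h1]
    exact mul_le_of_le_one_left (by positivity) (sum_Mc_le _ _)
  have hab : Summable fun p : ℕ × ℕ => ‖F.c p.1‖ * ‖G.c p.2‖ :=
    F.summable_norm.mul_of_nonneg G.summable_norm (fun _ => norm_nonneg _) (fun _ => norm_nonneg _)
  have hsum : Summable (fun q : (ℕ × ℕ) × ℕ => S q.1 q.2) := by
    rw [summable_prod_of_nonneg (fun q => hS0 q.1 q.2)]
    refine ⟨fun p => summable_of_ne_finset_zero (hfin p), ?_⟩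
    exact hab.of_nonneg_of_le (fun p => tsum_nonneg fun k => hS0 p k) hle
  have hsum' : Summable (fun q : ℕ × (ℕ × ℕ) => S q.2 q.1) :=
    hsum.comp_injective (i := fun q : ℕ × (ℕ × ℕ) => (q.2, q.1)) (fun a b h => by
      rw [Prod.mk.injEq] at h
      exact Prod.ext h.2 h.1)
  have hSp : ∀ k, Summable fun p => S p k := fun k => hsum'.prod_factor k
  have hBp : ∀ k, Summable fun p => ‖B p k‖ := fun k =>
    (hSp k).of_nonneg_of_le (fun p => norm_nonneg _) fun p => hBS p k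
  have hnorm : ∀ k, ‖∑' p, B p k‖ ≤ ∑' p, S p k := fun k =>
    (norm_tsum_le_tsum_norm (hBp k)).trans ((hBp k).tsum_le_tsum (fun p => hBS p k) (hSp k))
  have hk : Summable fun k => ∑' p, S p k := hsum'.prod
  have hHs : Summable fun k => ‖∑' p, B p k‖ :=
    hk.of_nonneg_of_le (fun k => norm_nonneg _) hnorm
  refine ⟨WA.mk (fun k => ∑' p, B p k) hHs, ?_, ?_⟩
  · intro t θ
    obtain ⟨u, hu⟩ : ∃ u : ℕ × ℕ → ℕ → ℝ,
      u = fun p k => (mulV p.1 p.2 k (F.c p.1 t) (G.c p.2 t)).ev θ.1 := ⟨_, rfl⟩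
    have hu1 : ∀ p k, ‖u p k‖ ≤ S p k := fun p k => by
      rw [hu, Real.norm_eq_abs]
      refine (V.abs_ev_le _ θ).trans ?_
      rw [← hB1 p k t]
      exact ((B p k).norm_coe_le_norm t).trans (hBS p k)
    have hus : Summable (fun q : (ℕ × ℕ) × ℕ => u q.1 q.2) :=
      Summable.of_norm_bounded hsum fun q => hu1 q.1 q.2
    have hev : ∀ k, ((∑' p, B p k) t).ev θ.1 = ∑' p, u p k := fun k => by
      have h1 : ((∑' p, B p k) t).ev θ.1 =
          ((LinearMap.toContinuousLinearMap (V.evL k θ.1)).comp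
            (BoundedContinuousFunction.evalCLM ℝ t)) (∑' p, B p k) := rfl
      rw [h1, ContinuousLinearMap.map_tsum _ (hBp k).of_norm]
      refine tsum_congr fun p => ?_
      show (B p k t).ev θ.1 = u p k
      rw [hB1, hu]
    have h2 : (WA.mk (fun k => ∑' p, B p k) hHs).ev t θ.1 = ∑' k, ∑' p, u p k := by
      show ∑' k, (((WA.mk (fun k => ∑' p, B p k) hHs).c k) t).ev θ.1 = _
      exact tsum_congr fun k => by rw [WA.c_mk]; exact hev k
    rw [h2, Summable.tsum_comm hus]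
    have h3 : ∀ p : ℕ × ℕ, ∑' k, u p k = (F.c p.1 t).ev θ.1 * (G.c p.2 t).ev θ.1 := fun p => by
      rw [tsum_eq_sum (s := Finset.range (p.1 + p.2 + 1)), mul_ev, hu]
      intro k hk
      have := hu1 p k
      rw [hfin p k hk] at this
      exact norm_le_zero_iff.1 this
    rw [tsum_congr h3]
    unfold WA.ev
    exact (tsum_mul_tsum_of_summable_norm (F.summable_ev t θ) (G.summable_ev t θ)).symm
  · rw [WA.norm_def, WA.norm_def F, WA.norm_def G]
    have h1 : ∑' k, ‖(WA.mk (fun k => ∑' p, B p k) hHs).c k‖ ≤ ∑' k, ∑' p, S p k :=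
      hHs.tsum_le_tsum hnorm hk
    rw [Summable.tsum_comm hsum] at h1
    refine h1.trans ?_
    have h2 : ∑' p : ℕ × ℕ, ∑' k, S p k ≤ ∑' p : ℕ × ℕ, ‖F.c p.1‖ * ‖G.c p.2‖ :=
      hsum.prod.tsum_le_tsum hle hab
    refine h2.trans (le_of_eq ?_)
    exact (F.summable_norm.tsum_mul_tsum G.summable_norm hab).symm

end
end OD16
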