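import Pool.Agent.LibOD16.Harm1

set_option autoImplicit false
namespace OD16
open MvPolynomial MeasureTheory Metric
noncomputable section

lemma hasFDerivAt_pev2 (P : Pol) (x : E5) :
    HasFDerivAt (pev P) (∑ i : Fin 5, pev (pderiv i P) x • (EuclideanSpace.proj i : E5 →L[ℝ] ℝ)) x := by
  induction P using MvPolynomial.induction_on with
  | C a =>
    have : pev (C a : Pol) = fun _ => a := by
      funext y
      simp [pev]
    rw [this]
    simp only [pderiv_C, pev_zero, zero_smul, Finset.sum_const_zero]
    exact hasFDerivAt_const a x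
  | add p q hp hq =>
    have : pev (p + q) = pev p + pev q := by
      funext y
      simp [pev_add]
    rw [this]
    refine (hp.add hq).congr_fderiv ?_
    rw [← Finset.sum_add_distrib]
    apply Finset.sum_congr rfl
    intro i _
    rw [map_add, pev_add, add_smul]
  | mul_X p n hp =>
    have h1 : pev (p * X n) = fun y => pev p y * y n := by
      funext y
      simp [pev]
    rw [h1]
    have h2 : HasFDerivAt (fun y : E5 => y n) (EuclideanSpace.proj n : E5 →L[ℝ] ℝ) x :=
      (EuclideanSpace.proj n : E5 →L[ℝ] ℝ).hasFDerivAt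
    refine (hp.mul h2).congr_fderiv ?_
    ext v
    have hpr : ∀ i : Fin 5, (EuclideanSpace.proj i : E5 →L[ℝ] ℝ) v = v i := fun _ => rfl
    simp only [ContinuousLinearMap.add_apply, ContinuousLinearMap.smul_apply,
      ContinuousLinearMap.sum_apply, smul_eq_mul, hpr, Derivation.leibniz,
      pev_add, pev_mul]
    have h3 : ∀ i : Fin 5, (pev p x * pev (pderiv i (X n : Pol)) x +
        pev (X n : Pol) x * pev (pderiv i p) x) * v i =
        (if i = n then pev p x * v n else 0) + x n * (pev (pderiv i p) x * v i) := by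
      intro i
      have e1 : pev (X n : Pol) x = x n := by simp [pev]
      rw [e1]
      by_cases hin : i = n
      · subst hin
        simp only [pderiv_X_self, if_true]
        have : pev (1 : Pol) x = 1 := by simp [pev]
        rw [this]
        ring
      · rw [pderiv_X_of_ne (Ne.symm hin), if_neg hin, pev_zero]
        ring
    rw [Finset.sum_congr rfl fun i _ => h3 i, Finset.sum_add_distrib, Finset.mul_sum]
    simp

lemma contDiff_pev2 (P : Pol) : ContDiff ℝ ((⊤ : ℕ∞) : WithTop ℕ∞) (pev P) := by
  induction P using MvPolynomial.induction_on with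
  | C a =>
    have : pev (C a : Pol) = fun _ => a := by
      funext y
      simp [pev]
    rw [this]
    exact contDiff_const
  | add p q hp hq =>
    have : pev (p + q) = fun y => pev p y + pev q y := by
      funext y
      simp [pev_add]
    rw [this]
    exact hp.add hq
  | mul_X p n hp =>
    have h1 : pev (p * X n) = fun y => pev p y * y n := by
      funext y
      simp [pev]
    rw [h1]
    exact hp.mul (EuclideanSpace.proj n : E5 →L[ℝ] ℝ).contDiff

/-- TASK H02.  Elementary facts about the functions `P.ev`. -/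
lemma V.ev_smul_arg {l : ℕ} (P : V l) (c : ℝ) (x : E5) : P.ev (c • x) = c ^ l * P.ev x :=
  pev_hom P.hom c x

lemma V.contDiff_ev {l : ℕ} (P : V l) : ContDiff ℝ ((⊤ : ℕ∞) : WithTop ℕ∞) P.ev :=
  contDiff_pev2 P.pol

lemma V.hasFDerivAt_ev {l : ℕ} (P : V l) (x : E5) :
    HasFDerivAt P.ev (∑ i : Fin 5, pev (pderiv i P.pol) x • (EuclideanSpace.proj i : E5 →L[ℝ] ℝ)) x :=
  hasFDerivAt_pev2 P.pol x

/-- `∂_i P = (2 l + 3) dn_i P` on `V l` (`dn' i 0 = 0`). -/
lemma pev_pderiv {l : ℕ} (P : V l) (i : Fin 5) (x : E5) :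
    pev (pderiv i P.pol) x = (2 * (l : ℝ) + 3) * (dn' i l P).ev x := by
  cases l with
  | zero =>
    rw [pderiv_hom_zero P.hom, pev_zero]
    have : dn' i 0 P = 0 := rfl
    rw [this, V.ev_zero, mul_zero]
  | succ l =>
    show pev (pderiv i P.pol) x =
      (2 * ((l + 1 : ℕ) : ℝ) + 3) * pev ((2 * (l : ℝ) + 5)⁻¹ • pderiv i P.pol) x
    rw [pev_smul, ← mul_assoc]
    have h : (2 * ((l + 1 : ℕ) : ℝ) + 3) * (2 * (l : ℝ) + 5)⁻¹ = 1 := by
      push_cast
      have : 2 * (l : ℝ) + 5 ≠ 0 := by positivity
      field_simp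
      ring
    rw [h, one_mul]

/-- Euler. -/
lemma V.euler {l : ℕ} (P : V l) (x : E5) : ∑ i : Fin 5, x i * pev (pderiv i P.pol) x = l * P.ev x := by
  have h := P.hom.sum_X_mul_pderiv
  have h1 := congrArg (fun Q => pev Q x) h
  simp only [nsmul_eq_mul] at h1
  unfold V.ev
  have h2 : pev ((l : Pol) * P.pol) x = l * pev P.pol x := by
    rw [pev_mul]
    congr 1
    simp [pev]
  rw [← h2, ← h1]
  simp [pev]

/-- `θ_i P = up_i P + dn'_i P` on the sphere. -/
lemma ev_mul_coord' (i : Fin 5) {l : ℕ} (P : V l) (θ : S4) :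
    θ.1 i * P.ev θ = (up i l P).ev θ + (dn' i l P).ev θ := by
  cases l with
  | zero =>
    have : dn' i 0 P = 0 := rfl
    rw [this, V.ev_zero, add_zero]
    exact ev_mul_coord_zero i P θ
  | succ l => exact ev_mul_coord i l P θ

/-- Joint continuity. -/
lemma continuous_evV (l : ℕ) : Continuous (fun p : V l × E5 => p.1.ev p.2) := by
  let b := Module.finBasis ℝ (V l)
  have h1 : (fun p : V l × E5 => p.1.ev p.2) =
      fun p : V l × E5 => ∑ k, b.repr p.1 k * (b k).ev p.2 := by
    funext p
    have h2 : p.1.ev p.2 = V.evL l p.2 p.1 := rfl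
    rw [h2]
    conv_lhs => rw [← b.sum_repr p.1]
    rw [map_sum]
    apply Finset.sum_congr rfl
    intro k _
    rw [map_smul, smul_eq_mul]
    rfl
  rw [h1]
  apply continuous_finset_sum
  intro k _
  have h3 : Continuous (fun P : V l => b.repr P k) :=
    (b.coord k).continuous_of_finiteDimensional
  exact (h3.comp continuous_fst).mul ((b k).contDiff_ev.continuous.comp continuous_snd)

end
end OD16
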