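import Pool.Agent.LibOD16.HarmSkew
import Pool.Agent.LibOD16.Harm2

set_option autoImplicit false
namespace OD16
open MvPolynomial MeasureTheory Metric
noncomputable section

lemma integrable_of_cont_S4 {f : S4 → ℝ} (hf : Continuous f) : Integrable f μS :=
  hf.integrable_of_hasCompactSupport (HasCompactSupport.of_compactSpace _)

lemma fderiv_coord_mul (G : E5 → ℝ) (hG : Differentiable ℝ G) (j : Fin 5) (x v : E5) :
    fderiv ℝ (fun y : E5 => y j * G y) x v = v j * G x + x j * fderiv ℝ G x v := by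
  have h2 : HasFDerivAt (fun y : E5 => y j) (EuclideanSpace.proj j : E5 →L[ℝ] ℝ) x :=
    (EuclideanSpace.proj j : E5 →L[ℝ] ℝ).hasFDerivAt
  have h3 := h2.mul (hG x).hasFDerivAt
  have h4 : fderiv ℝ (fun y : E5 => y j * G y) x = _ := h3.fderiv
  rw [h4]
  have hpr : (EuclideanSpace.proj j : E5 →L[ℝ] ℝ) v = v j := rfl
  simp only [ContinuousLinearMap.add_apply, ContinuousLinearMap.smul_apply, smul_eq_mul, hpr]
  ring

lemma sum_coord_fderiv (L : E5 →L[ℝ] ℝ) (x : E5) :
    ∑ j, x j * L (EuclideanSpace.single j 1) = L x := by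
  have hx : x = ∑ j, x j • (EuclideanSpace.single j (1 : ℝ) : E5) := by
    ext k
    simp [Pi.single_apply]
  conv_rhs => rw [hx]
  rw [map_sum]
  apply Finset.sum_congr rfl
  intro j _
  rw [map_smul, smul_eq_mul]

/-- TASK H05.  Integration by parts on the sphere. `(∇_S)_i G = ∑_j θ_j L_ji G`, and
`∑_j L_ji θ_j = -4 θ_i`. -/
lemma integral_tangential (G : E5 → ℝ) (hG : ContDiff ℝ 1 G) (i : Fin 5) :
    ∫ θ : S4, (fderiv ℝ G θ.1 (EuclideanSpace.single i 1) - θ.1 i * fderiv ℝ G θ.1 θ.1) ∂μS =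
      4 * ∫ θ : S4, θ.1 i * G θ.1 ∂μS := by
  have hGc : Continuous G := hG.continuous
  have hdc : Continuous (fderiv ℝ G) := hG.continuous_fderiv one_ne_zero
  have hGd : Differentiable ℝ G := hG.differentiable (by norm_num)
  have hH : ∀ j : Fin 5, ContDiff ℝ 1 (fun y : E5 => y j * G y) := fun j =>
    (EuclideanSpace.proj j : E5 →L[ℝ] ℝ).contDiff.mul hG
  have h0 : ∀ j : Fin 5, ∫ θ : S4,
      (θ.1 j * fderiv ℝ (fun y : E5 => y j * G y) θ.1 (EuclideanSpace.single i 1) -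
      θ.1 i * fderiv ℝ (fun y : E5 => y j * G y) θ.1 (EuclideanSpace.single j 1)) ∂μS = 0 :=
    fun j => integral_rot_deriv _ (hH j) j i
  have hint : ∀ j : Fin 5, Integrable (fun θ : S4 =>
      (θ.1 j * fderiv ℝ (fun y : E5 => y j * G y) θ.1 (EuclideanSpace.single i 1) -
      θ.1 i * fderiv ℝ (fun y : E5 => y j * G y) θ.1 (EuclideanSpace.single j 1))) μS := by
    intro j
    apply integrable_of_cont_S4
    have hdj : Continuous (fderiv ℝ (fun y : E5 => y j * G y)) :=
      (hH j).continuous_fderiv one_ne_zero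
    fun_prop
  have h1 := integral_finset_sum Finset.univ (fun j _ => hint j)
  rw [Finset.sum_eq_zero (fun j _ => h0 j)] at h1
  have h2 : ∀ θ : S4, ∑ j : Fin 5,
      (θ.1 j * fderiv ℝ (fun y : E5 => y j * G y) θ.1 (EuclideanSpace.single i 1) -
      θ.1 i * fderiv ℝ (fun y : E5 => y j * G y) θ.1 (EuclideanSpace.single j 1)) =
      (fderiv ℝ G θ.1 (EuclideanSpace.single i 1) - θ.1 i * fderiv ℝ G θ.1 θ.1) -
        4 * (θ.1 i * G θ.1) := by
    intro θ
    have e1 : ∀ j : Fin 5, (θ.1 j * fderiv ℝ (fun y : E5 => y j * G y) θ.1 (EuclideanSpace.single i 1) -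
      θ.1 i * fderiv ℝ (fun y : E5 => y j * G y) θ.1 (EuclideanSpace.single j 1)) =
      (if j = i then θ.1 i * G θ.1 else 0) +
      (θ.1 j) ^ 2 * fderiv ℝ G θ.1 (EuclideanSpace.single i 1) - θ.1 i * G θ.1 -
        θ.1 i * (θ.1 j * fderiv ℝ G θ.1 (EuclideanSpace.single j 1)) := by
      intro j
      rw [fderiv_coord_mul G hGd, fderiv_coord_mul G hGd]
      have e2 : (EuclideanSpace.single j (1 : ℝ) : E5) j = 1 := by simp
      have e3 : (EuclideanSpace.single i (1 : ℝ) : E5) j = if j = i then 1 else 0 := by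
        simp [Pi.single_apply]
      rw [e2, e3]
      by_cases hji : j = i
      · subst hji
        simp only [if_true]
        ring
      · simp only [if_neg hji]
        ring
    rw [Finset.sum_congr rfl fun j _ => e1 j]
    rw [Finset.sum_sub_distrib, Finset.sum_sub_distrib, Finset.sum_add_distrib]
    have e6 : ∑ j : Fin 5, θ.1 i * (θ.1 j * fderiv ℝ G θ.1 (EuclideanSpace.single j 1)) =
        θ.1 i * fderiv ℝ G θ.1 θ.1 := by
      rw [← Finset.mul_sum, sum_coord_fderiv]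
    rw [← Finset.sum_mul, e6]
    have e4 : ∑ j : Fin 5, (θ.1 j) ^ 2 = 1 := by
      have := EuclideanSpace.norm_sq_eq θ.1
      have h1 : ‖θ.1‖ = 1 := by simp
      rw [h1] at this
      simpa using this.symm
    rw [e4]
    simp only [Finset.sum_ite_eq', Finset.mem_univ, if_true, Finset.sum_const, Finset.card_univ,
      Fintype.card_fin, nsmul_eq_mul]
    push_cast
    ring
  rw [integral_congr_ae (Filter.Eventually.of_forall h2)] at h1
  have hi1 : Integrable (fun θ : S4 =>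
      (fderiv ℝ G θ.1 (EuclideanSpace.single i 1) - θ.1 i * fderiv ℝ G θ.1 θ.1)) μS := by
    apply integrable_of_cont_S4
    fun_prop
  have hi2 : Integrable (fun θ : S4 => 4 * (θ.1 i * G θ.1)) μS := by
    apply integrable_of_cont_S4
    fun_prop
  rw [integral_sub hi1 hi2, integral_const_mul] at h1
  linarith

/-- Apply `integral_tangential` to `P φ`; `∂_i P - θ_i l P = (l+3) dn'_i P - l up_i P`,
`θ_i P = up_i P + dn'_i P`. -/
lemma ibp_sphere {l : ℕ} (P : V l) (φ : E5 → ℝ) (hφ : ContDiff ℝ 1 φ) (i : Fin 5) :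
    ∫ θ : S4, P.ev θ * (fderiv ℝ φ θ.1 (EuclideanSpace.single i 1) -
        θ.1 i * fderiv ℝ φ θ.1 θ.1) ∂μS =
      ∫ θ : S4, (((l : ℝ) + 4) * (up i l P).ev θ - ((l : ℝ) - 1) * (dn' i l P).ev θ) * φ θ.1 ∂μS := by
  have hPc : Continuous P.ev := P.contDiff_ev.continuous
  have hPd : Differentiable ℝ P.ev := P.contDiff_ev.differentiable (by simp)
  have hP1 : ContDiff ℝ 1 P.ev := P.contDiff_ev.of_le (by exact_mod_cast le_top)
  have hφc : Continuous φ := hφ.continuous
  have hφd : Differentiable ℝ φ := hφ.differentiable (by norm_num)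
  have hdφ : Continuous (fderiv ℝ φ) := hφ.continuous_fderiv one_ne_zero
  have h1 := integral_tangential (fun y => P.ev y * φ y) (hP1.mul hφ) i
  have hfd : ∀ x v : E5, fderiv ℝ (fun y => P.ev y * φ y) x v =
      P.ev x * fderiv ℝ φ x v + φ x * ∑ k : Fin 5, pev (pderiv k P.pol) x * v k := by
    intro x v
    have h3 := (P.hasFDerivAt_ev x).mul (hφd x).hasFDerivAt
    have h4 : fderiv ℝ (fun y => P.ev y * φ y) x = _ := h3.fderiv
    rw [h4]
    have hpr : ∀ k : Fin 5, (EuclideanSpace.proj k : E5 →L[ℝ] ℝ) v = v k := fun _ => rfl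
    simp only [ContinuousLinearMap.add_apply, ContinuousLinearMap.smul_apply,
      ContinuousLinearMap.sum_apply, smul_eq_mul, hpr]
  have e1 : ∀ θ : S4, (fderiv ℝ (fun y => P.ev y * φ y) θ.1 (EuclideanSpace.single i 1) -
      θ.1 i * fderiv ℝ (fun y => P.ev y * φ y) θ.1 θ.1) =
      P.ev θ * (fderiv ℝ φ θ.1 (EuclideanSpace.single i 1) - θ.1 i * fderiv ℝ φ θ.1 θ.1) +
      (((l : ℝ) + 3) * (dn' i l P).ev θ - l * (up i l P).ev θ) * φ θ.1 := by
    intro θ
    rw [hfd, hfd]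
    have e2 : ∑ k : Fin 5, pev (pderiv k P.pol) θ.1 * (EuclideanSpace.single i (1 : ℝ) : E5) k =
        pev (pderiv i P.pol) θ.1 := by
      simp [Pi.single_apply]
    have e3 : ∑ k : Fin 5, pev (pderiv k P.pol) θ.1 * θ.1 k = l * P.ev θ.1 := by
      rw [← P.euler θ.1]
      apply Finset.sum_congr rfl
      intro k _
      ring
    rw [e2, e3, pev_pderiv]
    have e4 := ev_mul_coord' i P θ
    have e5 : θ.1 i * (P.ev θ.1 * fderiv ℝ φ θ.1 θ.1 + φ θ.1 * (l * P.ev θ.1)) =
        P.ev θ.1 * (θ.1 i * fderiv ℝ φ θ.1 θ.1) + l * φ θ.1 * (θ.1 i * P.ev θ.1) := by ring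
    rw [e5, e4]
    ring
  rw [integral_congr_ae (Filter.Eventually.of_forall e1)] at h1
  have huc : Continuous (up i l P).ev := (up i l P).contDiff_ev.continuous
  have hdc : Continuous (dn' i l P).ev := (dn' i l P).contDiff_ev.continuous
  have hi1 : Integrable (fun θ : S4 => P.ev θ * (fderiv ℝ φ θ.1 (EuclideanSpace.single i 1) -
      θ.1 i * fderiv ℝ φ θ.1 θ.1)) μS := by
    apply integrable_of_cont_S4
    fun_prop
  have hi2 : Integrable (fun θ : S4 =>
      (((l : ℝ) + 3) * (dn' i l P).ev θ - l * (up i l P).ev θ) * φ θ.1) μS := by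
    apply integrable_of_cont_S4
    fun_prop
  rw [integral_add hi1 hi2] at h1
  have h5 : 4 * ∫ θ : S4, θ.1 i * (P.ev θ * φ θ.1) ∂μS =
      ∫ θ : S4, 4 * (((up i l P).ev θ + (dn' i l P).ev θ) * φ θ.1) ∂μS := by
    rw [← integral_const_mul]
    apply integral_congr_ae
    apply Filter.Eventually.of_forall
    intro θ
    have e4 := ev_mul_coord' i P θ
    show 4 * (θ.1 i * (P.ev θ * φ θ.1)) = 4 * (((up i l P).ev θ + (dn' i l P).ev θ) * φ θ.1)
    rw [← e4]
    ring
  have h6 : ∫ θ : S4, P.ev θ * (fderiv ℝ φ θ.1 (EuclideanSpace.single i 1) -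
        θ.1 i * fderiv ℝ φ θ.1 θ.1) ∂μS =
      ∫ θ : S4, 4 * (((up i l P).ev θ + (dn' i l P).ev θ) * φ θ.1) ∂μS -
      ∫ θ : S4, (((l : ℝ) + 3) * (dn' i l P).ev θ - l * (up i l P).ev θ) * φ θ.1 ∂μS := by
    have : (fun θ : S4 => θ.1 i * (P.ev θ * φ θ.1)) = fun θ : S4 =>
      θ.1 i * (fun y => P.ev y * φ y) θ.1 := rfl
    rw [this] at h5
    rw [h5] at h1
    linarith
  have hi3 : Integrable (fun θ : S4 => 4 * (((up i l P).ev θ + (dn' i l P).ev θ) * φ θ.1)) μS := by
    apply integrable_of_cont_S4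
    fun_prop
  rw [h6, ← integral_sub hi3 hi2]
  apply integral_congr_ae
  apply Filter.Eventually.of_forall
  intro θ
  show 4 * (((up i l P).ev θ + (dn' i l P).ev θ) * φ θ.1) -
    (((l : ℝ) + 3) * (dn' i l P).ev θ - l * (up i l P).ev θ) * φ θ.1 =
    (((l : ℝ) + 4) * (up i l P).ev θ - ((l : ℝ) - 1) * (dn' i l P).ev θ) * φ θ.1
  ring

end
end OD16
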