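import Pool.Agent.LibOD16.BDer2
import Pool.Agent.LibOD16.HarmIBP

set_option autoImplicit false
namespace OD16
open MvPolynomial MeasureTheory Metric
open scoped BoundedContinuousFunction
noncomputable section

/-- `log r` in `Tm`. -/
def tr (r : ℝ) : Tm := ⟨min (Real.log r) 0, Set.mem_Iic.mpr (min_le_right _ _)⟩

/-- The components `D_l(Q)` of the divergence of `Q`. -/
def dQl (Q : Fin 5 → WA) : (l : ℕ) → Tm → V l
  | 0, _ => 0
  | (l + 1), t => ((l : ℝ) + 1) • ∑ i, dn i (l + 1) ((Q i).c (l + 2) t)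
      - ((l : ℝ) + 4) • ∑ i, up i l ((Q i).c l t)

/-- The divergence of `Q`. -/
def dQ (Q : Fin 5 → WA) (t : Tm) (θ : EE) : ℝ := ∑' l, (dQl Q l t).ev θ

private lemma bb_norm (θ : S4) : ‖(θ.1 : EE)‖ = 1 := by
  have := θ.2
  rwa [mem_sphere_zero_iff_norm] at this

private lemma bb_ev_sum {l : ℕ} (f : Fin 5 → V l) (x : EE) :
    (∑ i, f i).ev x = ∑ i, (f i).ev x :=
  map_sum (V.evL l x) f Finset.univ

private lemma bb_ev_sub {l : ℕ} (P Q : V l) (x : EE) : (P - Q).ev x = P.ev x - Q.ev x :=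
  map_sub (V.evL l x) P Q

private lemma bb_abs_ev {l : ℕ} (P : V l) (θ : S4) : |P.ev θ.1| ≤ (1 / 2) ^ l * ‖P‖ := by
  have h := P.abs_ev_le' θ.1
  rwa [bb_norm] at h

private lemma bb_pow1 (l : ℕ) : ((l : ℝ) + 1) * (1 / 2) ^ (l + 1) ≤ 1 := by
  have h : ((l : ℝ) + 1) ≤ 2 ^ (l + 1) := by
    exact_mod_cast (Nat.lt_two_pow_self (n := l + 1)).le
  have h2 : (0 : ℝ) < (1 / 2) ^ (l + 1) := by positivity
  calc ((l : ℝ) + 1) * (1 / 2) ^ (l + 1) ≤ 2 ^ (l + 1) * (1 / 2) ^ (l + 1) :=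
        mul_le_mul_of_nonneg_right h h2.le
    _ = 1 := by rw [← mul_pow]; norm_num

private lemma bb_pow2 (l : ℕ) : ((l : ℝ) + 4) * (1 / 2) ^ (l + 1) ≤ 4 := by
  have h := bb_pow1 l
  have h2 : (0 : ℝ) < (1 / 2) ^ (l + 1) := by positivity
  have h3 : ((1 : ℝ) / 2) ^ (l + 1) ≤ 1 := pow_le_one₀ (by norm_num) (by norm_num)
  nlinarith

/-- TASK BB0.  Bounds: `|P(θ)| ≤ 2^(-l) ‖P‖` absorbs the factors `l`. -/
lemma abs_dQl_le (Q : Fin 5 → WA) (l : ℕ) (t : Tm) (θ : S4) :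
    |(dQl Q l t).ev θ.1| ≤ 200 * ∑ i, (‖(Q i).c (l + 1)‖ + ‖(Q i).c (l - 1)‖) := by
  cases l with
  | zero =>
    have h0 : (dQl Q 0 t).ev θ.1 = 0 := V.ev_zero _
    rw [h0, abs_zero]
    positivity
  | succ l =>
    have h1 : (dQl Q (l + 1) t).ev θ.1 =
        ((l : ℝ) + 1) * ∑ i, (dn i (l + 1) ((Q i).c (l + 2) t)).ev θ.1 -
        ((l : ℝ) + 4) * ∑ i, (up i l ((Q i).c l t)).ev θ.1 := by
      change (((l : ℝ) + 1) • ∑ i, dn i (l + 1) ((Q i).c (l + 2) t)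
        - ((l : ℝ) + 4) • ∑ i, up i l ((Q i).c l t)).ev θ.1 = _
      rw [bb_ev_sub, V.ev_smul, V.ev_smul, bb_ev_sum, bb_ev_sum]
    rw [h1]
    have h2 : ∀ i, |(dn i (l + 1) ((Q i).c (l + 2) t)).ev θ.1| ≤
        (1 / 2) ^ (l + 1) * ‖(Q i).c (l + 2)‖ := by
      intro i
      refine (bb_abs_ev _ θ).trans (mul_le_mul_of_nonneg_left ?_ (by positivity))
      exact (norm_dn_le i _).trans (((Q i).c (l + 2)).norm_coe_le_norm t)
    have h3 : ∀ i, |(up i l ((Q i).c l t)).ev θ.1| ≤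
        (1 / 2) ^ (l + 1) * (16 * ‖(Q i).c l‖) := by
      intro i
      refine (bb_abs_ev _ θ).trans (mul_le_mul_of_nonneg_left ?_ (by positivity))
      exact (norm_up_le i _).trans (mul_le_mul_of_nonneg_left
        (((Q i).c l).norm_coe_le_norm t) (by norm_num))
    have h4 : |∑ i, (dn i (l + 1) ((Q i).c (l + 2) t)).ev θ.1| ≤
        (1 / 2) ^ (l + 1) * ∑ i, ‖(Q i).c (l + 2)‖ := by
      rw [Finset.mul_sum]
      exact (Finset.abs_sum_le_sum_abs _ _).trans (Finset.sum_le_sum fun i _ => h2 i)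
    have h5 : |∑ i, (up i l ((Q i).c l t)).ev θ.1| ≤
        (1 / 2) ^ (l + 1) * (16 * ∑ i, ‖(Q i).c l‖) := by
      rw [Finset.mul_sum, Finset.mul_sum]
      exact (Finset.abs_sum_le_sum_abs _ _).trans (Finset.sum_le_sum fun i _ => h3 i)
    have hA : 0 ≤ ∑ i, ‖(Q i).c (l + 2)‖ := by positivity
    have hB : 0 ≤ ∑ i, ‖(Q i).c l‖ := by positivity
    have e1 : l + 1 - 1 = l := by omega
    rw [Finset.sum_add_distrib, e1]
    change _ ≤ 200 * (∑ i, ‖(Q i).c (l + 2)‖ + ∑ i, ‖(Q i).c l‖)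
    calc |((l : ℝ) + 1) * ∑ i, (dn i (l + 1) ((Q i).c (l + 2) t)).ev θ.1 -
        ((l : ℝ) + 4) * ∑ i, (up i l ((Q i).c l t)).ev θ.1|
        ≤ |((l : ℝ) + 1) * ∑ i, (dn i (l + 1) ((Q i).c (l + 2) t)).ev θ.1| +
          |((l : ℝ) + 4) * ∑ i, (up i l ((Q i).c l t)).ev θ.1| := abs_sub _ _
      _ ≤ ((l : ℝ) + 1) * ((1 / 2) ^ (l + 1) * ∑ i, ‖(Q i).c (l + 2)‖) +
          ((l : ℝ) + 4) * ((1 / 2) ^ (l + 1) * (16 * ∑ i, ‖(Q i).c l‖)) := by
          rw [abs_mul, abs_mul, abs_of_nonneg (by positivity : (0 : ℝ) ≤ (l : ℝ) + 1),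
            abs_of_nonneg (by positivity : (0 : ℝ) ≤ (l : ℝ) + 4)]
          exact add_le_add (mul_le_mul_of_nonneg_left h4 (by positivity))
            (mul_le_mul_of_nonneg_left h5 (by positivity))
      _ = (((l : ℝ) + 1) * (1 / 2) ^ (l + 1)) * ∑ i, ‖(Q i).c (l + 2)‖ +
          (((l : ℝ) + 4) * (1 / 2) ^ (l + 1)) * (16 * ∑ i, ‖(Q i).c l‖) := by ring
      _ ≤ 1 * ∑ i, ‖(Q i).c (l + 2)‖ + 4 * (16 * ∑ i, ‖(Q i).c l‖) :=
          add_le_add (mul_le_mul_of_nonneg_right (bb_pow1 l) hA)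
            (mul_le_mul_of_nonneg_right (bb_pow2 l) (by positivity))
      _ ≤ _ := by linarith

private lemma bb_summable1 (F : WA) : Summable fun l => ‖F.c (l + 1)‖ :=
  (summable_nat_add_iff (f := fun l => ‖F.c l‖) 1).2 F.summable_norm

private lemma bb_summable2 (F : WA) : Summable fun l => ‖F.c (l - 1)‖ :=
  (summable_nat_add_iff (f := fun l => ‖F.c (l - 1)‖) 1).1 (by simpa using F.summable_norm)

private lemma bb_summable (Q : Fin 5 → WA) :
    Summable fun l => 200 * ∑ i, (‖(Q i).c (l + 1)‖ + ‖(Q i).c (l - 1)‖) :=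
  (summable_sum fun i _ => (bb_summable1 (Q i)).add (bb_summable2 (Q i))).mul_left 200

lemma summable_dQl (Q : Fin 5 → WA) (t : Tm) (θ : S4) : Summable fun l => ‖(dQl Q l t).ev θ.1‖ :=
  Summable.of_nonneg_of_le (fun l => norm_nonneg _) (fun l => by
    rw [Real.norm_eq_abs]
    exact abs_dQl_le Q l t θ) (bb_summable Q)

lemma abs_dQ_le (Q : Fin 5 → WA) (t : Tm) (θ : S4) : |dQ Q t θ.1| ≤ 1000 * ∑ i, ‖Q i‖ := by
  have h1 : |dQ Q t θ.1| ≤ ∑' l, 200 * ∑ i, (‖(Q i).c (l + 1)‖ + ‖(Q i).c (l - 1)‖) := by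
    rw [← Real.norm_eq_abs]
    refine (norm_tsum_le_tsum_norm (summable_dQl Q t θ)).trans ?_
    refine Summable.tsum_le_tsum (fun l => ?_) (summable_dQl Q t θ) (bb_summable Q)
    rw [Real.norm_eq_abs]
    exact abs_dQl_le Q l t θ
  refine h1.trans ?_
  have hs : ∀ i, Summable fun l => ‖(Q i).c (l + 1)‖ + ‖(Q i).c (l - 1)‖ :=
    fun i => (bb_summable1 (Q i)).add (bb_summable2 (Q i))
  have h3 : ∀ i, ∑' l, (‖(Q i).c (l + 1)‖ + ‖(Q i).c (l - 1)‖) ≤ 3 * ‖Q i‖ := by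
    intro i
    rw [(bb_summable1 (Q i)).tsum_add (bb_summable2 (Q i))]
    have h4 : ∑' l, ‖(Q i).c (l + 1)‖ ≤ ‖Q i‖ := by
      rw [(Q i).norm_def, (Q i).summable_norm.tsum_eq_zero_add]
      have := norm_nonneg ((Q i).c 0)
      linarith
    have h5 : ∑' l, ‖(Q i).c (l - 1)‖ ≤ 2 * ‖Q i‖ := by
      rw [(bb_summable2 (Q i)).tsum_eq_zero_add]
      have h6 : ∑' l, ‖(Q i).c (l + 1 - 1)‖ = ‖Q i‖ := by
        rw [(Q i).norm_def]
        rfl
      rw [h6]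
      have h7 : ‖(Q i).c (0 - 1)‖ ≤ ‖Q i‖ := (Q i).norm_c_le 0
      linarith
    linarith
  rw [tsum_mul_left, Summable.tsum_finsetSum (fun i _ => hs i)]
  calc 200 * ∑ i, ∑' l, (‖(Q i).c (l + 1)‖ + ‖(Q i).c (l - 1)‖) ≤ 200 * ∑ i, 3 * ‖Q i‖ :=
        mul_le_mul_of_nonneg_left (Finset.sum_le_sum fun i _ => h3 i) (by norm_num)
    _ = 600 * ∑ i, ‖Q i‖ := by rw [← Finset.mul_sum]; ring
    _ ≤ 1000 * ∑ i, ‖Q i‖ := by
      have : 0 ≤ ∑ i, ‖Q i‖ := by positivity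
      linarith

private lemma bb_continuous_dQl (Q : Fin 5 → WA) (l : ℕ) : Continuous (dQl Q l) := by
  cases l with
  | zero => exact continuous_const
  | succ l =>
    have h1 : ∀ i, Continuous fun t : Tm => dn i (l + 1) ((Q i).c (l + 2) t) := fun i =>
      (LinearMap.continuous_of_finiteDimensional (dn i (l + 1))).comp ((Q i).c (l + 2)).continuous
    have h2 : ∀ i, Continuous fun t : Tm => up i l ((Q i).c l t) := fun i =>
      (LinearMap.continuous_of_finiteDimensional (up i l)).comp ((Q i).c l).continuous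
    change Continuous fun t => ((l : ℝ) + 1) • ∑ i, dn i (l + 1) ((Q i).c (l + 2) t)
      - ((l : ℝ) + 4) • ∑ i, up i l ((Q i).c l t)
    have h3 : Continuous fun t : Tm => ∑ i, dn i (l + 1) ((Q i).c (l + 2) t) :=
      continuous_finsetSum _ fun i _ => h1 i
    have h4 : Continuous fun t : Tm => ∑ i, up i l ((Q i).c l t) :=
      continuous_finsetSum _ fun i _ => h2 i
    exact (h3.const_smul ((l : ℝ) + 1)).sub (h4.const_smul ((l : ℝ) + 4))

lemma continuous_dQ (Q : Fin 5 → WA) : Continuous (fun p : Tm × S4 => dQ Q p.1 p.2.1) := by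
  unfold dQ
  refine continuous_tsum (fun l => ?_) (bb_summable Q) (fun l p => ?_)
  · exact (continuous_evV l).comp (((bb_continuous_dQl Q l).comp continuous_fst).prodMk
      (continuous_subtype_val.comp continuous_snd))
  · rw [Real.norm_eq_abs]
    exact abs_dQl_le Q l p.1 p.2

end
end OD16
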