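import Pool.Agent.LibOD16.BB0

set_option autoImplicit false
namespace OD16
open MvPolynomial MeasureTheory Metric
open scoped BoundedContinuousFunction
noncomputable section

/-- evaluation at a point of the sphere as a continuous linear functional -/
private def BB2_evL (l : ℕ) (θ : S4) : V l →L[ℝ] ℝ :=
  LinearMap.mkContinuous
    { toFun := fun P => P.ev θ.1
      map_add' := fun P Q => V.ev_add P Q θ.1
      map_smul' := fun a P => by
        rw [RingHom.id_apply, smul_eq_mul]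
        exact V.ev_smul a P θ.1 } 1
    (fun P => by
      rw [one_mul, Real.norm_eq_abs]
      exact P.abs_ev_le θ)

private lemma BB2_evL_apply {l : ℕ} (θ : S4) (P : V l) : BB2_evL l θ P = P.ev θ.1 := rfl

private lemma BB2_summable_pred {f : ℕ → ℝ} (hf : Summable f) :
    Summable fun l => f (l - 1) := by
  rw [← summable_nat_add_iff 1]
  exact hf

namespace AData

variable {h δ : ℝ} (D : AData h δ)

/-- the terms of the derivative -/
private def BB2_g (θ : S4) (l : ℕ) (t : ℝ) : ℝ :=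
  -5 * (xt (D.b.c l) t).ev θ.1 - (xt (dQl D.Q l) t).ev θ.1 - (xt (D.R.c l) t).ev θ.1

private lemma BB2_hasDerivAt_term (θ : S4) (l : ℕ) (t : ℝ) (ht : t < 0) :
    HasDerivAt (fun s => (xt (D.b.c l) s).ev θ.1) (D.BB2_g θ l t) t := by
  cases l with
  | zero =>
    have h1 := (BB2_evL 0 θ).hasFDerivAt.comp_hasDerivAt t (D.pde_zero t ht)
    have e : BB2_evL 0 θ (-((5 : ℝ) • xt (D.b.c 0) t) - xt (D.R.c 0) t) = D.BB2_g θ 0 t := by
      rw [map_sub, map_neg, map_smul, BB2_evL_apply, BB2_evL_apply, smul_eq_mul]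
      have e0 : (xt (dQl D.Q 0) t).ev θ.1 = 0 := V.ev_zero θ.1
      unfold BB2_g
      rw [e0]
      ring
    rw [e] at h1
    exact h1
  | succ l =>
    have h1 := (BB2_evL (l + 1) θ).hasFDerivAt.comp_hasDerivAt t (D.pde_succ l t ht)
    have e : BB2_evL (l + 1) θ (-((5 : ℝ) • xt (D.b.c (l + 1)) t) -
        (((l : ℝ) + 1) • ∑ i, dn i (l + 1) (xt ((D.Q i).c (l + 2)) t)
          - ((l : ℝ) + 4) • ∑ i, up i l (xt ((D.Q i).c l) t)) - xt (D.R.c (l + 1)) t) =
        D.BB2_g θ (l + 1) t := by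
      rw [map_sub, map_sub, map_neg, map_smul]
      rw [BB2_evL_apply, BB2_evL_apply, BB2_evL_apply, smul_eq_mul]
      have e1 : (xt (dQl D.Q (l + 1)) t) =
          (((l : ℝ) + 1) • ∑ i, dn i (l + 1) (xt ((D.Q i).c (l + 2)) t)
          - ((l : ℝ) + 4) • ∑ i, up i l (xt ((D.Q i).c l) t)) := rfl
      unfold BB2_g
      rw [e1]
      ring
    rw [e] at h1
    exact h1

private lemma BB2_summable_u :
    Summable fun l => 5 * ‖D.b.c l‖ +
      200 * ∑ i, (‖(D.Q i).c (l + 1)‖ + ‖(D.Q i).c (l - 1)‖) + ‖D.R.c l‖ := by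
  refine ((D.b.summable_norm.mul_left 5).add ?_).add D.R.summable_norm
  refine Summable.mul_left 200 ?_
  refine summable_sum fun i _ => ?_
  exact ((summable_nat_add_iff 1).mpr (D.Q i).summable_norm).add
    (BB2_summable_pred (D.Q i).summable_norm)

private lemma BB2_bound (θ : S4) (l : ℕ) (t : ℝ) : ‖D.BB2_g θ l t‖ ≤ 5 * ‖D.b.c l‖ +
      200 * ∑ i, (‖(D.Q i).c (l + 1)‖ + ‖(D.Q i).c (l - 1)‖) + ‖D.R.c l‖ := by
  have hb : |(xt (D.b.c l) t).ev θ.1| ≤ ‖D.b.c l‖ :=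
    (V.abs_ev_le _ θ).trans ((D.b.c l).norm_coe_le_norm _)
  have hR : |(xt (D.R.c l) t).ev θ.1| ≤ ‖D.R.c l‖ :=
    (V.abs_ev_le _ θ).trans ((D.R.c l).norm_coe_le_norm _)
  have hQ : |(xt (dQl D.Q l) t).ev θ.1| ≤
      200 * ∑ i, (‖(D.Q i).c (l + 1)‖ + ‖(D.Q i).c (l - 1)‖) := abs_dQl_le D.Q l _ θ
  rw [Real.norm_eq_abs]
  unfold BB2_g
  rw [abs_le] at hb hR hQ ⊢
  constructor
  · linarith [hb.1, hb.2, hR.1, hR.2, hQ.1, hQ.2]
  · linarith [hb.1, hb.2, hR.1, hR.2, hQ.1, hQ.2]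

/-- TASK BB2.  Differentiate the series of `b` term by term in `t` (`pde_zero`, `pde_succ`;
`hasDerivAt_tsum_of_isPreconnected`; bounds `V.abs_ev_le`, `abs_dQl_le`). -/
lemma hasDerivAt_b_ev (θ : S4) {t : ℝ} (ht : t < 0) :
    HasDerivAt (xt fun s : Tm => D.b.ev s θ.1)
      (-5 * xt (fun s : Tm => D.b.ev s θ.1) t - xt (fun s : Tm => dQ D.Q s θ.1) t
        - xt (fun s : Tm => D.R.ev s θ.1) t) t := by
  have hs : ∀ (F : WA) (s : ℝ), Summable fun l => (xt (F.c l) s).ev θ.1 :=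
    fun F s => (F.summable_ev _ θ).of_norm
  have hsQ : Summable fun l => (xt (dQl D.Q l) t).ev θ.1 := (summable_dQl D.Q _ θ).of_norm
  have h1 := hasDerivAt_tsum_of_isPreconnected (t := Set.Iio (0 : ℝ))
    (g := fun l s => (xt (D.b.c l) s).ev θ.1) (g' := fun l s => D.BB2_g θ l s)
    D.BB2_summable_u isOpen_Iio isPreconnected_Iio
    (fun l s hs => D.BB2_hasDerivAt_term θ l s hs)
    (fun l s _ => D.BB2_bound θ l s) (Set.mem_Iio.mpr ht) (hs D.b t) (Set.mem_Iio.mpr ht)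
  have h2 : ∑' l, D.BB2_g θ l t =
      -5 * xt (fun s : Tm => D.b.ev s θ.1) t - xt (fun s : Tm => dQ D.Q s θ.1) t
        - xt (fun s : Tm => D.R.ev s θ.1) t := by
    have a1 := Summable.tsum_sub (((hs D.b t).mul_left (-5)).sub hsQ) (hs D.R t)
    have a2 := Summable.tsum_sub ((hs D.b t).mul_left (-5)) hsQ
    rw [a2, tsum_mul_left] at a1
    exact a1
  rw [h2] at h1
  exact h1

/-- The same in the variable `r = e^t`. -/
lemma hasDerivAt_b_r (θ : S4) {r : ℝ} (h0 : 0 < r) (h1 : r < 1) :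
    HasDerivAt (fun r : ℝ => D.b.ev (tr r) θ.1)
      (r⁻¹ * (-5 * D.b.ev (tr r) θ.1 - dQ D.Q (tr r) θ.1 - D.R.ev (tr r) θ.1)) r := by
  have h2 := (D.hasDerivAt_b_ev θ (Real.log_neg h0 h1)).comp r (Real.hasDerivAt_log h0.ne')
  rw [mul_comm] at h2
  exact h2

end AData

end
end OD16
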