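import Pool.Agent.LibOD16.BB0

set_option autoImplicit false
namespace OD16
open MvPolynomial MeasureTheory Metric
open scoped BoundedContinuousFunction
noncomputable section

/-- The operator of `ibp_sphere`. -/
private def gl (i : Fin 5) (l : ℕ) (P : V l) (x : EE) : ℝ :=
  ((l : ℝ) + 4) * (up i l P).ev x - ((l : ℝ) - 1) * (dn' i l P).ev x

private lemma abs_up_ev_le3 (i : Fin 5) (l : ℕ) (P : V l) (θ : S4) :
    |((l : ℝ) + 4) * (up i l P).ev θ.1| ≤ 32 * ‖P‖ := by
  have h1 := (up i l P).abs_ev_le' θ.1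
  have hθ : ‖θ.1‖ = 1 := by simp
  rw [hθ] at h1
  have h2 := norm_up_le i P
  have h3 : ((l : ℝ) + 4) ≤ 4 * 2 ^ l := by
    have : (l : ℝ) + 1 ≤ 2 ^ l := by exact_mod_cast Nat.lt_two_pow_self (n := l)
    linarith
  rw [abs_mul, abs_of_nonneg (by positivity)]
  have h4 : |(up i l P).ev θ.1| ≤ (1 / 2) ^ (l + 1) * (16 * ‖P‖) :=
    h1.trans (mul_le_mul_of_nonneg_left h2 (by positivity))
  have h5 : ((l : ℝ) + 4) * |(up i l P).ev θ.1| ≤ (4 * 2 ^ l) * ((1 / 2) ^ (l + 1) * (16 * ‖P‖)) :=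
    mul_le_mul h3 h4 (abs_nonneg _) (by positivity)
  refine h5.trans (le_of_eq ?_)
  rw [pow_succ, one_div, inv_pow]
  field_simp
  ring

private lemma abs_dn'_ev_le3 (i : Fin 5) (l : ℕ) (P : V l) (θ : S4) :
    |((l : ℝ) - 1) * (dn' i l P).ev θ.1| ≤ ‖P‖ := by
  cases l with
  | zero =>
    have : (dn' i 0 P) = 0 := rfl
    rw [this, V.ev_zero]
    simp
  | succ l =>
    have h1 := (dn i l P).abs_ev_le' θ.1
    have hθ : ‖θ.1‖ = 1 := by simp
    rw [hθ] at h1
    have h2 := norm_dn_le i P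
    have h3 : (l : ℝ) ≤ 2 ^ l := by exact_mod_cast (Nat.lt_two_pow_self (n := l)).le
    have h4 : |(dn i l P).ev θ.1| ≤ (1 / 2) ^ l * ‖P‖ :=
      h1.trans (mul_le_mul_of_nonneg_left h2 (by positivity))
    show |((l + 1 : ℕ) - 1 : ℝ) * (dn i l P).ev θ.1| ≤ ‖P‖
    push_cast
    rw [add_sub_cancel_right, abs_mul, abs_of_nonneg (by positivity)]
    have h5 : (l : ℝ) * |(dn i l P).ev θ.1| ≤ (2 ^ l) * ((1 / 2) ^ l * ‖P‖) :=
      mul_le_mul h3 h4 (abs_nonneg _) (by positivity)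
    refine h5.trans (le_of_eq ?_)
    rw [one_div, inv_pow]
    field_simp

private lemma continuous_V_ev {l : ℕ} (P : V l) : Continuous P.ev := continuous_pev P.pol

private lemma abs_gl_le (i : Fin 5) (l : ℕ) (P : V l) (θ : S4) : |gl i l P θ.1| ≤ 33 * ‖P‖ := by
  unfold gl
  refine (abs_sub _ _).trans ?_
  have := abs_up_ev_le3 i l P θ
  have := abs_dn'_ev_le3 i l P θ
  linarith

private lemma continuous_gl (i : Fin 5) (l : ℕ) (P : V l) : Continuous (gl i l P) := by
  unfold gl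
  have h1 := continuous_V_ev (up i l P)
  have h2 := continuous_V_ev (dn' i l P)
  fun_prop

private lemma tsum_gl (Q : Fin 5 → WA) (t : Tm) (θ : S4) :
    ∑' l, ∑ i, gl i l ((Q i).c l t) θ.1 = - dQ Q t θ.1 := by
  have hsQ : Summable fun l => ∑ i, ‖(Q i).c l‖ :=
    summable_sum fun i _ => (Q i).summable_norm
  have hcoe : ∀ i l, ‖(Q i).c l t‖ ≤ ‖(Q i).c l‖ := fun i l => ((Q i).c l).norm_coe_le_norm t
  -- the two series
  set A : ℕ → ℝ := fun l => ∑ i, ((l : ℝ) + 4) * (up i l ((Q i).c l t)).ev θ.1 with hA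
  set B : ℕ → ℝ := fun l => ∑ i, ((l : ℝ) - 1) * (dn' i l ((Q i).c l t)).ev θ.1 with hB
  have hAs : Summable A := by
    apply Summable.of_norm_bounded (g := fun l => 32 * ∑ i, ‖(Q i).c l‖) (hsQ.mul_left 32)
    intro l
    rw [hA, Real.norm_eq_abs, Finset.mul_sum]
    refine (Finset.abs_sum_le_sum_abs _ _).trans (Finset.sum_le_sum fun i _ => ?_)
    exact (abs_up_ev_le3 i l _ θ).trans (mul_le_mul_of_nonneg_left (hcoe i l) (by norm_num))
  have hBs : Summable B := by
    apply Summable.of_norm_bounded (g := fun l => ∑ i, ‖(Q i).c l‖) hsQ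
    intro l
    rw [hB, Real.norm_eq_abs]
    refine (Finset.abs_sum_le_sum_abs _ _).trans (Finset.sum_le_sum fun i _ => ?_)
    exact (abs_dn'_ev_le3 i l _ θ).trans (hcoe i l)
  have h1 : ∀ l, ∑ i, gl i l ((Q i).c l t) θ.1 = A l - B l := by
    intro l
    simp only [gl, hA, hB, Finset.sum_sub_distrib]
  have hB0 : B 0 = 0 := by
    simp only [hB]
    apply Finset.sum_eq_zero
    intro i _
    have : (dn' i 0 ((Q i).c 0 t)) = 0 := rfl
    rw [this, V.ev_zero, mul_zero]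
  have hB1 : B 1 = 0 := by
    simp only [hB]
    apply Finset.sum_eq_zero
    intro i _
    simp
  have hBt : ∑' l, B l = ∑' l, B (l + 2) := by
    have := hBs.sum_add_tsum_nat_add 2
    rw [← this]
    simp [Finset.sum_range_succ, hB0, hB1]
  have hBs2 : Summable fun l => B (l + 2) := (summable_nat_add_iff 2).mpr hBs
  -- the divergence
  have hd : ∀ l, (dQl Q (l + 1) t).ev θ.1 = B (l + 2) - A l := by
    intro l
    have e1 : dQl Q (l + 1) t = ((l : ℝ) + 1) • ∑ i, dn i (l + 1) ((Q i).c (l + 2) t)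
      - ((l : ℝ) + 4) • ∑ i, up i l ((Q i).c l t) := rfl
    rw [e1]
    have e2 : ∀ (P R : V (l + 1)), (P - R).ev θ.1 = P.ev θ.1 - R.ev θ.1 := by
      intro P R
      exact map_sub (V.evL (l + 1) θ.1) P R
    have e3 : ∀ f : Fin 5 → V (l + 1), (∑ i, f i).ev θ.1 = ∑ i, (f i).ev θ.1 := by
      intro f
      exact map_sum (V.evL (l + 1) θ.1) f Finset.univ
    rw [e2, V.ev_smul, V.ev_smul, e3, e3, Finset.mul_sum, Finset.mul_sum]
    simp only [hA, hB]
    congr 1
    apply Finset.sum_congr rfl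
    intro i _
    show _ = ((l + 2 : ℕ) - 1 : ℝ) * (dn i (l + 1) ((Q i).c (l + 2) t)).ev θ.1
    push_cast
    ring
  have hsd := (summable_dQl Q t θ).of_norm
  have hdq : dQ Q t θ.1 = ∑' l, (B (l + 2) - A l) := by
    unfold dQ
    rw [hsd.tsum_eq_zero_add]
    have : dQl Q 0 t = 0 := rfl
    rw [this, V.ev_zero, zero_add]
    congr 1
    ext l
    exact hd l
  rw [hdq, hBs2.tsum_sub hAs, ← hBt]
  simp only [h1]
  rw [hAs.tsum_sub hBs]
  ring

/-- TASK BB3.  Integration by parts on the sphere for the series: sum `ibp_sphere` over the degrees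
`m` and the components `i`, exchange sum and integral, reindex. -/
lemma ibp_dQ (Q : Fin 5 → WA) (t : Tm) (φ : EE → ℝ) (hφ : ContDiff ℝ 1 φ) :
    ∫ θ : S4, (∑ i, (Q i).ev t θ.1 * (fderiv ℝ φ θ.1 (EuclideanSpace.single i 1) -
        θ.1 i * fderiv ℝ φ θ.1 θ.1)) ∂μS =
      -∫ θ : S4, dQ Q t θ.1 * φ θ.1 ∂μS := by
  have hcoe : ∀ i l, ‖(Q i).c l t‖ ≤ ‖(Q i).c l‖ := fun i l => ((Q i).c l).norm_coe_le_norm t
  set g : Fin 5 → S4 → ℝ := fun i θ => fderiv ℝ φ θ.1 (EuclideanSpace.single i 1) -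
        θ.1 i * fderiv ℝ φ θ.1 θ.1 with hg
  have hfd : Continuous (fderiv ℝ φ) := hφ.continuous_fderiv (by norm_num)
  have hgc : ∀ i, Continuous (g i) := by
    intro i
    simp only [hg]
    have h1 : Continuous fun θ : S4 => fderiv ℝ φ θ.1 := hfd.comp continuous_subtype_val
    have h2 : Continuous fun θ : S4 => fderiv ℝ φ θ.1 (EuclideanSpace.single i 1) :=
      h1.clm_apply continuous_const
    have h3 : Continuous fun θ : S4 => fderiv ℝ φ θ.1 θ.1 :=
      h1.clm_apply continuous_subtype_val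
    have h4 : Continuous fun θ : S4 => θ.1 i := by fun_prop
    exact h2.sub (h4.mul h3)
  have hφc : Continuous (fun θ : S4 => φ θ.1) := hφ.continuous.comp continuous_subtype_val
  -- bounds
  obtain ⟨M, hM⟩ : ∃ M : ℝ, ∀ (i : Fin 5) (θ : S4), |g i θ| ≤ M := by
    have : ∀ i, ∃ M : ℝ, ∀ θ : S4, |g i θ| ≤ M := by
      intro i
      obtain ⟨M, hM⟩ := (isCompact_univ (X := S4)).exists_bound_of_continuousOn (hgc i).continuousOn
      exact ⟨M, fun θ => by simpa using hM θ (Set.mem_univ _)⟩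
    choose M hM using this
    refine ⟨∑ i, |M i|, fun i θ => (hM i θ).trans ((le_abs_self _).trans ?_)⟩
    exact Finset.single_le_sum (f := fun i => |M i|) (fun j _ => abs_nonneg _) (Finset.mem_univ i)
  obtain ⟨N, hN⟩ : ∃ N : ℝ, ∀ θ : S4, |φ θ.1| ≤ N := by
    obtain ⟨N, hN⟩ := (isCompact_univ (X := S4)).exists_bound_of_continuousOn hφc.continuousOn
    exact ⟨N, fun θ => by simpa using hN θ (Set.mem_univ _)⟩
  have hM0 : 0 ≤ M := by
    have hne : Nonempty S4 := ⟨⟨EuclideanSpace.single 0 (1:ℝ), by simp⟩⟩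
    exact (abs_nonneg _).trans (hM 0 hne.some)
  have hN0 : 0 ≤ N := by
    have hne : Nonempty S4 := ⟨⟨EuclideanSpace.single 0 (1:ℝ), by simp⟩⟩
    exact (abs_nonneg _).trans (hN hne.some)
  have hint : ∀ f : S4 → ℝ, Continuous f → Integrable f μS := fun f hf =>
    hf.integrable_of_hasCompactSupport (HasCompactSupport.of_compactSpace _)
  have hsQ : Summable fun l => ∑ i, ‖(Q i).c l‖ :=
    summable_sum fun i _ => (Q i).summable_norm
  -- left side
  set F : ℕ → S4 → ℝ := fun l θ => ∑ i, ((Q i).c l t).ev θ.1 * g i θ with hF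
  set G : ℕ → S4 → ℝ := fun l θ => (∑ i, gl i l ((Q i).c l t) θ.1) * φ θ.1 with hG
  have hFc : ∀ l, Continuous (F l) := by
    intro l
    simp only [hF]
    apply continuous_finsetSum
    intro i _
    exact ((continuous_V_ev _).comp continuous_subtype_val).mul (hgc i)
  have hGc : ∀ l, Continuous (G l) := by
    intro l
    simp only [hG]
    apply Continuous.mul _ hφc
    apply continuous_finsetSum
    intro i _
    exact (continuous_gl i l _).comp continuous_subtype_val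
  have hFb : ∀ l θ, ‖F l θ‖ ≤ M * ∑ i, ‖(Q i).c l‖ := by
    intro l θ
    simp only [hF]
    rw [Real.norm_eq_abs, Finset.mul_sum]
    refine (Finset.abs_sum_le_sum_abs _ _).trans (Finset.sum_le_sum fun i _ => ?_)
    rw [abs_mul, mul_comm M]
    exact mul_le_mul (((V.abs_ev_le _ θ)).trans (hcoe i l)) (hM i θ) (abs_nonneg _) (norm_nonneg _)
  have hGb : ∀ l θ, ‖G l θ‖ ≤ (33 * N) * ∑ i, ‖(Q i).c l‖ := by
    intro l θ
    simp only [hG]
    rw [Real.norm_eq_abs, abs_mul]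
    have h1 : |∑ i, gl i l ((Q i).c l t) θ.1| ≤ 33 * ∑ i, ‖(Q i).c l‖ := by
      rw [Finset.mul_sum]
      refine (Finset.abs_sum_le_sum_abs _ _).trans (Finset.sum_le_sum fun i _ => ?_)
      exact (abs_gl_le i l _ θ).trans (mul_le_mul_of_nonneg_left (hcoe i l) (by norm_num))
    calc _ ≤ (33 * ∑ i, ‖(Q i).c l‖) * N :=
          mul_le_mul h1 (hN θ) (abs_nonneg _) (by positivity)
      _ = _ := by ring
  have hsI : ∀ (H : ℕ → S4 → ℝ) (C : ℝ), 0 ≤ C → (∀ l, Continuous (H l)) →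
      (∀ l θ, ‖H l θ‖ ≤ C * ∑ i, ‖(Q i).c l‖) →
      HasSum (fun l => ∫ θ, H l θ ∂μS) (∫ θ, ∑' l, H l θ ∂μS) := by
    intro H C hC hc hb
    apply hasSum_integral_of_summable_integral_norm (fun l => hint _ (hc l))
    apply Summable.of_nonneg_of_le (fun l => integral_nonneg fun θ => norm_nonneg _) _
      ((hsQ.mul_left C).mul_left (μS.real Set.univ))
    intro l
    have h1 : ∫ θ, ‖H l θ‖ ∂μS ≤ ∫ _θ : S4, (C * ∑ i, ‖(Q i).c l‖) ∂μS := by
      apply integral_mono (hint _ (hc l).norm) (integrable_const _)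
      intro θ
      exact hb l θ
    rw [integral_const, smul_eq_mul] at h1
    exact h1
  have hFI := hsI F M hM0 hFc hFb
  have hGI := hsI G (33 * N) (by positivity) hGc hGb
  -- the integrals of the terms agree
  have hFG : ∀ l, ∫ θ, F l θ ∂μS = ∫ θ, G l θ ∂μS := by
    intro l
    simp only [hF, hG]
    have e1 : ∫ θ : S4, ∑ i, ((Q i).c l t).ev θ.1 * g i θ ∂μS
        = ∑ i, ∫ θ : S4, ((Q i).c l t).ev θ.1 * g i θ ∂μS := by
      apply integral_finsetSum
      intro i _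
      exact hint _ (((continuous_V_ev _).comp continuous_subtype_val).mul (hgc i))
    have e2 : ∫ θ : S4, (∑ i, gl i l ((Q i).c l t) θ.1) * φ θ.1 ∂μS
        = ∑ i, ∫ θ : S4, gl i l ((Q i).c l t) θ.1 * φ θ.1 ∂μS := by
      simp only [Finset.sum_mul]
      apply integral_finsetSum
      intro i _
      exact hint _ (((continuous_gl i l _).comp continuous_subtype_val).mul hφc)
    rw [e1, e2]
    apply Finset.sum_congr rfl
    intro i _
    exact ibp_sphere ((Q i).c l t) φ hφ i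
  have hsum : ∫ θ, ∑' l, F l θ ∂μS = ∫ θ, ∑' l, G l θ ∂μS := by
    rw [← hFI.tsum_eq, ← hGI.tsum_eq]
    simp only [hFG]
  -- pointwise identities
  have e3 : ∀ θ : S4, ∑ i, (Q i).ev t θ.1 * g i θ = ∑' l, F l θ := by
    intro θ
    simp only [hF]
    rw [Summable.tsum_finsetSum]
    · apply Finset.sum_congr rfl
      intro i _
      unfold WA.ev
      rw [tsum_mul_right]
    · intro i _
      exact ((Q i).summable_ev t θ).of_norm.mul_right _
  have e4 : ∀ θ : S4, ∑' l, G l θ = -(dQ Q t θ.1 * φ θ.1) := by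
    intro θ
    simp only [hG]
    rw [tsum_mul_right, tsum_gl]
    ring
  calc ∫ θ : S4, (∑ i, (Q i).ev t θ.1 * g i θ) ∂μS = ∫ θ, ∑' l, F l θ ∂μS := by
        congr 1
        ext θ
        exact e3 θ
    _ = ∫ θ, ∑' l, G l θ ∂μS := hsum
    _ = ∫ θ : S4, -(dQ Q t θ.1 * φ θ.1) ∂μS := by
        congr 1
        ext θ
        exact e4 θ
    _ = _ := integral_neg _

end
end OD16
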