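import Pool.Agent.LibOD16.AD0
import Pool.Agent.LibOD16.Harm2

set_option autoImplicit false
namespace OD16
open MvPolynomial MeasureTheory Metric
open scoped BoundedContinuousFunction
noncomputable section

/-- TASK BEv.  Joint continuity of `(t, θ) ↦ F(t, θ)` (uniformly convergent series of continuous
functions, `continuous_evV`, `V.abs_ev_le`, `WA.summable_norm`). -/
lemma WA.continuous_ev (F : WA) : Continuous (fun p : Tm × S4 => F.ev p.1 p.2.1) := by
  unfold WA.ev
  refine continuous_tsum (u := fun l => ‖F.c l‖) (fun l => ?_) F.summable_norm (fun l p => ?_)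
  · have h1 : Continuous (fun p : Tm × S4 => ((F.c l p.1, p.2.1) : V l × E5)) :=
      ((F.c l).continuous.comp continuous_fst).prodMk (continuous_subtype_val.comp continuous_snd)
    have h2 := (continuous_evV l).comp h1
    exact h2
  · rw [Real.norm_eq_abs]
    exact ((F.c l p.1).abs_ev_le p.2).trans ((F.c l).norm_coe_le_norm p.1)

lemma norm_dir {x : EE} (hx : x ≠ 0) : ‖dir x‖ = 1 := by
  unfold dir
  rw [norm_smul, norm_inv, norm_norm, inv_mul_cancel₀ (norm_ne_zero_iff.2 hx)]

lemma dir_mem {x : EE} (hx : x ≠ 0) : dir x ∈ sphere (0 : EE) 1 := by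
  rw [mem_sphere_zero_iff_norm]
  exact norm_dir hx

lemma smul_dir (x : EE) : ‖x‖ • dir x = x := by
  by_cases hx : x = 0
  · rw [hx]
    simp [dir]
  · unfold dir
    rw [smul_smul, mul_inv_cancel₀ (norm_ne_zero_iff.2 hx), one_smul]

lemma dir_smul {c : ℝ} (hc : 0 < c) (x : EE) : dir (c • x) = dir x := by
  unfold dir
  rw [norm_smul, Real.norm_eq_abs, abs_of_pos hc, smul_smul, mul_inv, mul_comm c⁻¹, mul_assoc,
    inv_mul_cancel₀ hc.ne', mul_one]

lemma continuousOn_dir : ContinuousOn dir {0}ᶜ := by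
  unfold dir
  exact (continuous_norm.continuousOn.inv₀ fun x hx => norm_ne_zero_iff.2 hx).smul continuousOn_id

lemma continuousOn_tm : ContinuousOn tm {0}ᶜ := by
  rw [continuousOn_iff_continuous_domRestrict]
  have h : Continuous (fun x : (({0}ᶜ : Set EE)) => min (Real.log ‖x.1‖) 0) :=
    ((continuous_norm.comp continuous_subtype_val).log fun x => norm_ne_zero_iff.2 x.2).min
      continuous_const
  exact h.subtype_mk _

lemma WA.continuousOn_fn (F : WA) : ContinuousOn F.fn {0}ᶜ := by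
  rw [continuousOn_iff_continuous_domRestrict]
  have h1 : Continuous (fun x : (({0}ᶜ : Set EE)) => tm x.1) :=
    continuousOn_iff_continuous_domRestrict.1 continuousOn_tm
  have h2 : Continuous (fun x : (({0}ᶜ : Set EE)) => (⟨dir x.1, dir_mem x.2⟩ : S4)) :=
    (continuousOn_iff_continuous_domRestrict.1 continuousOn_dir).subtype_mk _
  have h3 := F.continuous_ev.comp (h1.prodMk h2)
  exact h3

lemma WA.abs_fn_le (F : WA) {x : EE} (hx : x ≠ 0) : |F.fn x| ≤ ‖F‖ :=
  F.abs_ev_le (tm x) ⟨dir x, dir_mem hx⟩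

lemma tm_val {x : EE} (hx : x ≠ 0) (h1 : ‖x‖ ≤ 1) : ((tm x : Tm) : ℝ) = Real.log ‖x‖ := by
  show min (Real.log ‖x‖) 0 = Real.log ‖x‖
  exact min_eq_left (Real.log_nonpos (norm_nonneg x) h1)

lemma exp_tm {x : EE} (hx : x ≠ 0) (h1 : ‖x‖ ≤ 1) : Real.exp (tm x) = ‖x‖ := by
  rw [tm_val hx h1, Real.exp_log (norm_pos_iff.2 hx)]

end
end OD16
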