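import Pool.Agent.LibOD16.AD0

set_option autoImplicit false
namespace OD16
open MvPolynomial MeasureTheory Metric
noncomputable section

lemma BTR_inner (v w : EE) : inner ℝ v w =
    v 0 * w 0 + v 1 * w 1 + v 2 * w 2 + v 3 * w 3 + v 4 * w 4 := by
  rw [PiLp.inner_apply, Fin.sum_univ_five]
  simp only [RCLike.inner_apply, conj_trivial]
  ring

lemma BTR_T0 (X v : EE) : TR X v 0 = 0 := rfl

lemma BTR_T1 (X v : EE) : TR X v 1 =
    (X 1 ^ 2 + X 2 ^ 2 + X 3 ^ 2) * v 1 - (X 1 * v 1 + X 2 * v 2 + X 3 * v 3) * X 1 := rfl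

lemma BTR_T2 (X v : EE) : TR X v 2 =
    (X 1 ^ 2 + X 2 ^ 2 + X 3 ^ 2) * v 2 - (X 1 * v 1 + X 2 * v 2 + X 3 * v 3) * X 2 := rfl

lemma BTR_T3 (X v : EE) : TR X v 3 =
    (X 1 ^ 2 + X 2 ^ 2 + X 3 ^ 2) * v 3 - (X 1 * v 1 + X 2 * v 2 + X 3 * v 3) * X 3 := rfl

lemma BTR_T4 (X v : EE) : TR X v 4 = 0 := rfl

lemma BTR_ext {v w : EE} (h0 : v 0 = w 0) (h1 : v 1 = w 1) (h2 : v 2 = w 2) (h3 : v 3 = w 3)
    (h4 : v 4 = w 4) : v = w := by
  ext i
  fin_cases i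
  · exact h0
  · exact h1
  · exact h2
  · exact h3
  · exact h4

/-- TASK BTR.  Linear algebra of the metric. -/
lemma TR_smul_left (c : ℝ) (X v : EE) : TR (c • X) v = c ^ 2 • TR X v := by
  apply BTR_ext <;>
  simp only [PiLp.smul_apply, smul_eq_mul, BTR_T0, BTR_T1, BTR_T2, BTR_T3, BTR_T4] <;> ring

lemma TR_add_right (X v w : EE) : TR X (v + w) = TR X v + TR X w := by
  apply BTR_ext <;>
  simp only [PiLp.add_apply, BTR_T0, BTR_T1, BTR_T2, BTR_T3, BTR_T4] <;> ring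

lemma TR_smul_right (c : ℝ) (X v : EE) : TR X (c • v) = c • TR X v := by
  apply BTR_ext <;>
  simp only [PiLp.smul_apply, smul_eq_mul, BTR_T0, BTR_T1, BTR_T2, BTR_T3, BTR_T4] <;> ring

lemma TR_self (X : EE) : TR X X = 0 := by
  apply BTR_ext <;>
  simp only [PiLp.zero_apply, BTR_T0, BTR_T1, BTR_T2, BTR_T3, BTR_T4] <;> ring

lemma inner_TR_comm (X v w : EE) : inner ℝ v (TR X w) = inner ℝ (TR X v) w := by
  simp only [BTR_inner, BTR_T0, BTR_T1, BTR_T2, BTR_T3, BTR_T4]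
  ring

lemma inner_self_TR (X v : EE) : inner ℝ X (TR X v) = 0 := by
  rw [inner_TR_comm, TR_self, inner_zero_left]

lemma GR_add (h : ℝ) (X v w : EE) : GR h X (v + w) = GR h X v + GR h X w := by
  unfold GR
  rw [TR_add_right, smul_add]
  abel

lemma GR_smul (h : ℝ) (c : ℝ) (X v : EE) : GR h X (c • v) = c • GR h X v := by
  unfold GR
  rw [TR_smul_right, smul_sub, smul_comm]

lemma GR_self (h : ℝ) (X : EE) : GR h X X = X := by
  unfold GR
  rw [TR_self, smul_zero, sub_zero]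

lemma inner_GR_comm (h : ℝ) (X v w : EE) : inner ℝ v (GR h X w) = inner ℝ (GR h X v) w := by
  unfold GR
  rw [inner_sub_right, inner_sub_left, inner_smul_right, inner_smul_left, inner_TR_comm]
  simp

lemma inner_self_GR (h : ℝ) (X v : EE) : inner ℝ X (GR h X v) = inner ℝ X v := by
  rw [inner_GR_comm, GR_self]

/-- `GR h (c • θ) θ = θ`, `⟨θ, GR h (c • θ) J⟩ = ⟨θ, J⟩`. -/
lemma GR_dir (h c : ℝ) (θ : EE) : GR h (c • θ) θ = θ := by
  unfold GR
  rw [TR_smul_left, TR_self, smul_zero, smul_zero, sub_zero]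

lemma inner_GR_dir (h c : ℝ) (θ J : EE) : inner ℝ θ (GR h (c • θ) J) = inner ℝ θ J := by
  rw [inner_GR_comm, GR_dir]

lemma BTR_normsq (v : EE) : ‖v‖ ^ 2 = v 0 ^ 2 + v 1 ^ 2 + v 2 ^ 2 + v 3 ^ 2 + v 4 ^ 2 := by
  rw [← real_inner_self_eq_norm_sq, BTR_inner]
  ring

lemma BTR_ball {X : EE} (hX : X ∈ ball (0 : EE) 2) :
    X 0 ^ 2 + X 1 ^ 2 + X 2 ^ 2 + X 3 ^ 2 + X 4 ^ 2 < 4 := by
  rw [mem_ball_zero_iff] at hX
  rw [← BTR_normsq]
  nlinarith [norm_nonneg X]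

lemma BTR_y {h : ℝ} (hh : 0 < h) (hh1 : h ≤ 1 / 100) {X : EE} (hX : X ∈ ball (0 : EE) 2) :
    98 / 100 ≤ 1 + h * X 0 := by
  have h1 := BTR_ball hX
  have h2 : -2 < X 0 := by
    nlinarith [sq_nonneg (X 1), sq_nonneg (X 2), sq_nonneg (X 3), sq_nonneg (X 4)]
  nlinarith

lemma BTR_rho {h : ℝ} (hh : 0 < h) (hh1 : h ≤ 1 / 100) {X : EE} (hX : X ∈ ball (0 : EE) 2) :
    98 / 100 ≤ rhoR h X := by
  have h1 := BTR_y hh hh1 hX
  unfold rhoR
  apply Real.le_sqrt_of_sq_le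
  nlinarith [sq_nonneg (h * X 1), sq_nonneg (h * X 2), sq_nonneg (h * X 3)]

lemma BTR_k {h : ℝ} (hh : 0 < h) (hh1 : h ≤ 1 / 100) {X : EE} (hX : X ∈ ball (0 : EE) 2) :
    0 ≤ kR h X ∧ kR h X ≤ 1 / 1000 := by
  have h1 := BTR_y hh hh1 hX
  have h2 := BTR_rho hh hh1 hX
  have h3 : 1 ≤ 2 * rhoR h X * (rhoR h X + (1 + h * X 0)) := by nlinarith
  unfold kR
  constructor
  · positivity
  · rw [div_le_iff₀ (by linarith)]
    nlinarith

/-- The metric is positive: `|v|² / 2 ≤ |v|_g² ≤ |v|²` on the ball of radius 2. -/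
lemma gsq_bounds {h : ℝ} (hh : 0 < h) (hh1 : h ≤ 1 / 100) {X : EE} (hX : X ∈ ball (0 : EE) 2)
    (v : EE) : ‖v‖ ^ 2 / 2 ≤ gsq h X v ∧ gsq h X v ≤ ‖v‖ ^ 2 := by
  obtain ⟨hk0, hk1⟩ := BTR_k hh hh1 hX
  have hb := BTR_ball hX
  have h1 : gsq h X v = ‖v‖ ^ 2 - kR h X * inner ℝ v (TR X v) := by
    unfold gsq GR
    rw [inner_sub_right, inner_smul_right, real_inner_self_eq_norm_sq]
  have h2 : inner ℝ v (TR X v) = (X 1 ^ 2 + X 2 ^ 2 + X 3 ^ 2) * (v 1 ^ 2 + v 2 ^ 2 + v 3 ^ 2)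
      - (X 1 * v 1 + X 2 * v 2 + X 3 * v 3) ^ 2 := by
    simp only [BTR_inner, BTR_T0, BTR_T1, BTR_T2, BTR_T3, BTR_T4]
    ring
  have h3 : 0 ≤ inner ℝ v (TR X v) := by
    rw [h2]
    nlinarith [sq_nonneg (X 1 * v 2 - X 2 * v 1), sq_nonneg (X 1 * v 3 - X 3 * v 1),
      sq_nonneg (X 2 * v 3 - X 3 * v 2)]
  have h4 : inner ℝ v (TR X v) ≤ 4 * ‖v‖ ^ 2 := by
    have h5 : (X 1 ^ 2 + X 2 ^ 2 + X 3 ^ 2) * (v 1 ^ 2 + v 2 ^ 2 + v 3 ^ 2) ≤ 4 * ‖v‖ ^ 2 := by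
      apply mul_le_mul
      · nlinarith [sq_nonneg (X 0), sq_nonneg (X 4)]
      · rw [BTR_normsq]
        nlinarith [sq_nonneg (v 0), sq_nonneg (v 4)]
      · positivity
      · norm_num
    rw [h2]
    nlinarith [sq_nonneg (X 1 * v 1 + X 2 * v 2 + X 3 * v 3)]
  have h6 : 0 ≤ kR h X * inner ℝ v (TR X v) := mul_nonneg hk0 h3
  have h7 : kR h X * inner ℝ v (TR X v) ≤ 1 / 1000 * (4 * ‖v‖ ^ 2) :=
    mul_le_mul hk1 h4 h3 (by norm_num)
  rw [h1]
  constructor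
  · nlinarith [sq_nonneg ‖v‖]
  · linarith

lemma BTR_contCoord (i : Fin 5) : Continuous (fun X : EE => X i) := by
  fun_prop

lemma BTR_contRho (h : ℝ) : Continuous (rhoR h) := by
  unfold rhoR
  have := BTR_contCoord
  fun_prop

/-- Continuity. -/
lemma continuousOn_WR {h δ : ℝ} (hh : 0 < h) (hh1 : h ≤ 1 / 100) :
    ContinuousOn (WR h δ) (ball (0 : EE) 2) := by
  unfold WR
  refine ContinuousOn.mul ?_ (ContinuousOn.sub continuousOn_const (ContinuousOn.div ?_ ?_ ?_))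
  · refine ContinuousOn.rpow_const (BTR_contRho h).continuousOn fun X hX => Or.inl ?_
    have := BTR_rho hh hh1 hX
    linarith
  · exact ((continuous_const.mul (BTR_contCoord 1)).pow 2).continuousOn
  · exact (((BTR_contRho h).add (continuous_const.add
      (continuous_const.mul (BTR_contCoord 0)))).pow 2).continuousOn
  · intro X hX
    have h1 := BTR_rho hh hh1 hX
    have h2 := BTR_y hh hh1 hX
    have h3 : 0 < rhoR h X + (1 + h * X 0) := by linarith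
    positivity

lemma BTR_contK {h : ℝ} (hh : 0 < h) (hh1 : h ≤ 1 / 100) :
    ContinuousOn (kR h) (ball (0 : EE) 2) := by
  unfold kR
  refine ContinuousOn.div continuousOn_const ?_ ?_
  · exact ((continuous_const.mul (BTR_contRho h)).mul ((BTR_contRho h).add (continuous_const.add
      (continuous_const.mul (BTR_contCoord 0))))).continuousOn
  · intro X hX
    have h1 := BTR_rho hh hh1 hX
    have h2 := BTR_y hh hh1 hX
    have h3 : 0 < rhoR h X + (1 + h * X 0) := by linarith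
    have h4 : 0 < rhoR h X := by linarith
    positivity

lemma BTR_contT : Continuous (fun p : EE × EE => TR p.1 p.2) := by
  unfold TR
  apply (PiLp.continuous_toLp 2 _).comp
  apply continuous_pi
  intro i
  have h1 : ∀ j : Fin 5, Continuous (fun p : EE × EE => p.1 j) := fun j =>
    (BTR_contCoord j).comp continuous_fst
  have h2 : ∀ j : Fin 5, Continuous (fun p : EE × EE => p.2 j) := fun j =>
    (BTR_contCoord j).comp continuous_snd
  fin_cases i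
  · exact continuous_const
  · show Continuous fun p : EE × EE => (p.1 1 ^ 2 + p.1 2 ^ 2 + p.1 3 ^ 2) * p.2 1
      - (p.1 1 * p.2 1 + p.1 2 * p.2 2 + p.1 3 * p.2 3) * p.1 1
    fun_prop
  · show Continuous fun p : EE × EE => (p.1 1 ^ 2 + p.1 2 ^ 2 + p.1 3 ^ 2) * p.2 2
      - (p.1 1 * p.2 1 + p.1 2 * p.2 2 + p.1 3 * p.2 3) * p.1 2
    fun_prop
  · show Continuous fun p : EE × EE => (p.1 1 ^ 2 + p.1 2 ^ 2 + p.1 3 ^ 2) * p.2 3
      - (p.1 1 * p.2 1 + p.1 2 * p.2 2 + p.1 3 * p.2 3) * p.1 3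
    fun_prop
  · exact continuous_const

lemma continuousOn_GR {h : ℝ} (hh : 0 < h) (hh1 : h ≤ 1 / 100) :
    ContinuousOn (fun p : EE × EE => GR h p.1 p.2) (ball (0 : EE) 2 ×ˢ Set.univ) := by
  unfold GR
  have h1 : ContinuousOn (fun p : EE × EE => kR h p.1) (ball (0 : EE) 2 ×ˢ Set.univ) :=
    (BTR_contK hh hh1).comp continuous_fst.continuousOn fun p hp => hp.1
  exact ContinuousOn.sub continuous_snd.continuousOn (h1.smul BTR_contT.continuousOn)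

lemma WR_pos {h δ : ℝ} (hh : 0 < h) (hh1 : h ≤ 1 / 100) {X : EE} (hX : X ∈ ball (0 : EE) 2) :
    0 < WR h δ X := by
  have h1 := BTR_rho hh hh1 hX
  have h2 := BTR_y hh hh1 hX
  have hb := BTR_ball hX
  have h3 : 1 ≤ rhoR h X + (1 + h * X 0) := by linarith
  have h4 : (h * X 1) ^ 2 < 1 := by
    rw [mul_pow]
    have h5 : X 1 ^ 2 < 4 := by
      nlinarith [sq_nonneg (X 0), sq_nonneg (X 2), sq_nonneg (X 3), sq_nonneg (X 4)]
    have h6 : h ^ 2 ≤ 1 / 10000 := by nlinarith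
    nlinarith [sq_nonneg (X 1), sq_nonneg h]
  unfold WR
  refine mul_pos (Real.rpow_pos_of_pos (by linarith) _) ?_
  rw [sub_pos, div_lt_one (by positivity)]
  calc (h * X 1) ^ 2 < 1 := h4
    _ ≤ (rhoR h X + (1 + h * X 0)) ^ 2 := by nlinarith

end
end OD16
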