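import Pool.Agent.LibOD16.BB2
import Pool.Agent.LibOD16.BB3
import Pool.Agent.LibOD16.BTR
import Pool.Agent.LibOD16.BEv

set_option autoImplicit false
namespace OD16
open MvPolynomial MeasureTheory Metric
open scoped BoundedContinuousFunction
noncomputable section

namespace AData

variable {h δ : ℝ} (D : AData h δ)

/-- `Q` is tangential (`Q_ev`, `inner_GR_dir`, `J_tangent`). -/
lemma Q_tangent (t : Tm) (θ : S4) : ∑ i, θ.1 i * (D.Q i).ev t θ.1 = 0 := by
  have h1 : ∑ i, θ.1 i * (D.Q i).ev t θ.1 = inner ℝ θ.1 (mkPt h δ D.j0 D.j1 D.J t θ.1).Q := by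
    rw [PiLp.inner_apply]
    apply Finset.sum_congr rfl
    intro i _
    rw [D.Q_ev]
    simp [mul_comm]
  rw [h1]
  unfold Pt.Q Pt.cJ Pt.xi
  rw [inner_smul_right]
  have h2 : (mkPt h δ D.j0 D.j1 D.J t θ.1).θ = θ.1 := rfl
  rw [h2, inner_GR_dir, J_tangent, mul_zero]

/-- The flux through the sphere of radius `r` against `φ`. -/
def HH (φ : EE → ℝ) (r : ℝ) : ℝ := r ^ 5 * ∫ θ : S4, D.b.ev (tr r) θ.1 * φ (r • θ.1) ∂μS

/-- The integrand of the weak form in polar coordinates. -/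
def IG (φ : EE → ℝ) (r : ℝ) (θ : EE) : ℝ :=
  D.b.ev (tr r) θ * (r * fderiv ℝ φ (r • θ) θ) +
    (∑ i, (D.Q i).ev (tr r) θ * (r * fderiv ℝ φ (r • θ) (EuclideanSpace.single i 1))) -
      D.R.ev (tr r) θ * φ (r • θ)

private lemma cont_WA_ev (F : WA) (t : Tm) : Continuous fun θ : S4 => F.ev t θ.1 := by
  have h1 : Continuous (fun θ : S4 => ((t, θ) : Tm × S4)) := Continuous.prodMk_right t
  have h2 := (WA.continuous_ev F).comp h1
  simpa only [Function.comp_def] using h2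

private lemma cont_dQ_ev (Q : Fin 5 → WA) (t : Tm) : Continuous fun θ : S4 => dQ Q t θ.1 := by
  have h1 : Continuous (fun θ : S4 => ((t, θ) : Tm × S4)) := Continuous.prodMk_right t
  have h2 := (continuous_dQ Q).comp h1
  simpa only [Function.comp_def] using h2

private lemma int_cont (f : S4 → ℝ) (hf : Continuous f) : Integrable f μS :=
  hf.integrable_of_hasCompactSupport (HasCompactSupport.of_compactSpace _)

/-- TASK BB4.  Differentiate under the integral sign; `hasDerivAt_b_r`; then `ibp_dQ` applied to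
`y ↦ φ (r • y)` and `Q_tangent`. -/
lemma hasDerivAt_HH (φ : EE → ℝ) (hφ : ContDiff ℝ 1 φ) {r : ℝ} (h0 : 0 < r) (h1 : r < 1) :
    HasDerivAt (D.HH φ) (r ^ 4 * ∫ θ : S4, D.IG φ r θ.1 ∂μS) r := by
  have hfd : Continuous (fderiv ℝ φ) := hφ.continuous_fderiv (by norm_num)
  -- bounds of `φ`, `Dφ` on the closed unit ball
  obtain ⟨N, hN⟩ := (isCompact_closedBall (0 : EE) 1).exists_bound_of_continuousOn
    hφ.continuous.continuousOn
  obtain ⟨M, hM⟩ := (isCompact_closedBall (0 : EE) 1).exists_bound_of_continuousOn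
    hfd.continuousOn
  have hN0 : 0 ≤ N := (norm_nonneg _).trans (hN 0 (by simp))
  have hM0 : 0 ≤ M := (norm_nonneg _).trans (hM 0 (by simp))
  have hmem : ∀ (s : ℝ), s ∈ Set.Ioo (r / 2) 1 → ∀ θ : S4, s • θ.1 ∈ closedBall (0 : EE) 1 := by
    intro s hs θ
    rw [mem_closedBall_zero_iff, norm_smul]
    have : ‖θ.1‖ = 1 := by simp
    rw [this, mul_one, Real.norm_eq_abs, abs_le]
    constructor <;> linarith [hs.1, hs.2]
  have hnhds : Set.Ioo (r / 2) 1 ∈ nhds r := Ioo_mem_nhds (by linarith) h1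
  -- the derivative of the integrand
  set F : ℝ → S4 → ℝ := fun s θ => D.b.ev (tr s) θ.1 * φ (s • θ.1) with hF
  set F' : ℝ → S4 → ℝ := fun s θ =>
    s⁻¹ * (-5 * D.b.ev (tr s) θ.1 - dQ D.Q (tr s) θ.1 - D.R.ev (tr s) θ.1) * φ (s • θ.1) +
      D.b.ev (tr s) θ.1 * fderiv ℝ φ (s • θ.1) θ.1 with hF'
  have hcφ : ∀ s : ℝ, Continuous fun θ : S4 => φ (s • θ.1) := fun s =>
    hφ.continuous.comp (continuous_subtype_val.const_smul s)
  have hcD : ∀ (s : ℝ) , Continuous fun θ : S4 => fderiv ℝ φ (s • θ.1) := fun s =>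
    hfd.comp (continuous_subtype_val.const_smul s)
  have hcD' : ∀ (s : ℝ) , Continuous fun θ : S4 => fderiv ℝ φ (s • θ.1) θ.1 := fun s =>
    (hcD s).clm_apply continuous_subtype_val
  have hFc : ∀ s, Continuous (F s) := fun s => (cont_WA_ev _ _).mul (hcφ s)
  have hF'c : ∀ s, Continuous (F' s) := by
    intro s
    have a1 := cont_WA_ev D.b (tr s)
    have a2 := cont_dQ_ev D.Q (tr s)
    have a3 := cont_WA_ev D.R (tr s)
    exact (((((a1.const_mul (-5)).sub a2).sub a3).const_mul s⁻¹).mul (hcφ s)).add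
      (a1.mul (hcD' s))
  have hderiv : ∀ s ∈ Set.Ioo (r / 2) 1, ∀ θ : S4, HasDerivAt (fun s => F s θ) (F' s θ) s := by
    intro s hs θ
    have a1 := D.hasDerivAt_b_r θ (r := s) (by linarith [hs.1]) hs.2
    have a2 : HasDerivAt (fun s : ℝ => φ (s • θ.1)) (fderiv ℝ φ (s • θ.1) θ.1) s := by
      have b1 : HasFDerivAt φ (fderiv ℝ φ (s • θ.1)) (s • θ.1) :=
        (hφ.differentiable (by norm_num) _).hasFDerivAt
      have b2 : HasDerivAt (fun s : ℝ => s • θ.1) ((1 : ℝ) • θ.1) s :=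
        (hasDerivAt_id s).smul_const θ.1
      rw [one_smul] at b2
      exact b1.comp_hasDerivAt s b2
    exact a1.mul a2
  set C : ℝ := (r / 2)⁻¹ * (5 * ‖D.b‖ + 1000 * ∑ i, ‖D.Q i‖ + ‖D.R‖) * N + ‖D.b‖ * M with hC
  have hbound : ∀ θ : S4, ∀ s ∈ Set.Ioo (r / 2) 1, ‖F' s θ‖ ≤ C := by
    intro θ s hs
    have hs0 : 0 < s := by linarith [hs.1]
    have c1 := D.b.abs_ev_le (tr s) θ
    have c2 := abs_dQ_le D.Q (tr s) θ
    have c3 := D.R.abs_ev_le (tr s) θ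
    have c4 := hN _ (hmem s hs θ)
    have c5 := hM _ (hmem s hs θ)
    have c6 : |fderiv ℝ φ (s • θ.1) θ.1| ≤ M := by
      have := (fderiv ℝ φ (s • θ.1)).le_opNorm θ.1
      have hθ : ‖θ.1‖ = 1 := by simp
      rw [hθ, mul_one] at this
      exact this.trans c5
    have c7 : s⁻¹ ≤ (r / 2)⁻¹ := inv_anti₀ (by linarith) hs.1.le
    have c8 : |-5 * D.b.ev (tr s) θ.1 - dQ D.Q (tr s) θ.1 - D.R.ev (tr s) θ.1| ≤
        5 * ‖D.b‖ + 1000 * ∑ i, ‖D.Q i‖ + ‖D.R‖ := by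
      rw [abs_le] at c1 c2 c3 ⊢
      constructor <;> linarith [c1.1, c1.2, c2.1, c2.2, c3.1, c3.2]
    rw [Real.norm_eq_abs] at c4 ⊢
    have hQ0 : 0 ≤ ∑ i, ‖D.Q i‖ := Finset.sum_nonneg fun i _ => norm_nonneg _
    have hb0 : 0 ≤ ‖D.b‖ := norm_nonneg _
    have hR0 : 0 ≤ ‖D.R‖ := norm_nonneg _
    have hS0 : 0 ≤ 5 * ‖D.b‖ + 1000 * ∑ i, ‖D.Q i‖ + ‖D.R‖ := by linarith
    have hr2 : 0 ≤ (r / 2)⁻¹ := inv_nonneg.mpr (by linarith)
    calc |F' s θ| ≤ |s⁻¹ * (-5 * D.b.ev (tr s) θ.1 - dQ D.Q (tr s) θ.1 - D.R.ev (tr s) θ.1) *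
            φ (s • θ.1)| + |D.b.ev (tr s) θ.1 * fderiv ℝ φ (s • θ.1) θ.1| := abs_add_le _ _
      _ ≤ C := by
        rw [abs_mul, abs_mul, abs_mul, abs_of_pos (inv_pos.mpr hs0), hC]
        apply add_le_add
        · apply mul_le_mul _ c4 (abs_nonneg _) (mul_nonneg hr2 hS0)
          exact mul_le_mul c7 c8 (abs_nonneg _) hr2
        · exact mul_le_mul c1 c6 (abs_nonneg _) (norm_nonneg _)
  have key := (hasDerivAt_integral_of_dominated_loc_of_deriv_le (μ := μS) (bound := fun _ => C)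
    hnhds (Filter.Eventually.of_forall fun s => (hFc s).aestronglyMeasurable)
    (int_cont _ (hFc r)) (hF'c r).aestronglyMeasurable
    (Filter.Eventually.of_forall hbound) (integrable_const _)
    (Filter.Eventually.of_forall fun θ s hs => hderiv s hs θ)).2
  have key2 : HasDerivAt (D.HH φ) (5 * r ^ 4 * (∫ θ, F r θ ∂μS) + r ^ 5 * ∫ θ, F' r θ ∂μS) r := by
    have e := (hasDerivAt_pow 5 r).mul key
    have e' : ((fun x : ℝ => x ^ 5) * fun n => ∫ (a : S4), F n a ∂μS) = D.HH φ := rfl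
    rw [e'] at e
    simpa using e
  -- integration by parts
  have hψ : ContDiff ℝ 1 (fun y : EE => φ (r • y)) := hφ.comp (contDiff_const_smul r)
  have hψd : ∀ y v : EE, fderiv ℝ (fun y : EE => φ (r • y)) y v = r * fderiv ℝ φ (r • y) v := by
    intro y v
    have b1 : HasFDerivAt φ (fderiv ℝ φ (r • y)) (r • y) :=
      (hφ.differentiable (by norm_num) _).hasFDerivAt
    have b2 : HasFDerivAt (fun y : EE => r • y) (r • ContinuousLinearMap.id ℝ EE) y :=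
      (hasFDerivAt_id y).const_smul r
    have b3 := b1.comp y b2
    have b4 : fderiv ℝ (fun y : EE => φ (r • y)) y =
        (fderiv ℝ φ (r • y)).comp (r • ContinuousLinearMap.id ℝ EE) := b3.fderiv
    rw [b4]
    simp
  have hibp := ibp_dQ D.Q (tr r) (fun y : EE => φ (r • y)) hψ
  have hibp2 : ∫ θ : S4, (∑ i, (D.Q i).ev (tr r) θ.1 *
      (r * fderiv ℝ φ (r • θ.1) (EuclideanSpace.single i 1))) ∂μS =
      -∫ θ : S4, dQ D.Q (tr r) θ.1 * φ (r • θ.1) ∂μS := by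
    rw [← hibp]
    congr 1
    ext θ
    simp only [hψd]
    have e1 : ∑ i, (D.Q i).ev (tr r) θ.1 * (r * fderiv ℝ φ (r • θ.1) (EuclideanSpace.single i 1) -
        θ.1 i * (r * fderiv ℝ φ (r • θ.1) θ.1)) =
        ∑ i, (D.Q i).ev (tr r) θ.1 * (r * fderiv ℝ φ (r • θ.1) (EuclideanSpace.single i 1)) -
        (∑ i, θ.1 i * (D.Q i).ev (tr r) θ.1) * (r * fderiv ℝ φ (r • θ.1) θ.1) := by
      rw [Finset.sum_mul, ← Finset.sum_sub_distrib]
      apply Finset.sum_congr rfl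
      intro i _
      ring
    rw [e1, D.Q_tangent, zero_mul, sub_zero]
  -- conclusion
  have e5 : 5 * r ^ 4 * (∫ θ, F r θ ∂μS) + r ^ 5 * ∫ θ, F' r θ ∂μS =
      r ^ 4 * ∫ θ : S4, D.IG φ r θ.1 ∂μS := by
    have i1 := int_cont _ (hFc r)
    have i2 : Integrable (fun θ : S4 => dQ D.Q (tr r) θ.1 * φ (r • θ.1)) μS :=
      int_cont _ ((cont_dQ_ev D.Q (tr r)).mul (hcφ r))
    have i3 : Integrable (fun θ : S4 => D.R.ev (tr r) θ.1 * φ (r • θ.1)) μS :=
      int_cont _ ((cont_WA_ev D.R (tr r)).mul (hcφ r))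
    have i4 : Integrable (fun θ : S4 => D.b.ev (tr r) θ.1 * fderiv ℝ φ (r • θ.1) θ.1) μS :=
      int_cont _ ((cont_WA_ev D.b (tr r)).mul (hcD' r))
    have i5 : Integrable (fun θ : S4 => ∑ i, (D.Q i).ev (tr r) θ.1 *
      (r * fderiv ℝ φ (r • θ.1) (EuclideanSpace.single i 1))) μS := by
      apply int_cont
      apply continuous_finsetSum
      intro i _
      exact (cont_WA_ev _ _).mul (((hcD r).clm_apply continuous_const).const_mul r)
    have f1 : ∫ θ, F' r θ ∂μS = r⁻¹ * (-5 * (∫ θ, F r θ ∂μS) -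
        (∫ θ : S4, dQ D.Q (tr r) θ.1 * φ (r • θ.1) ∂μS) -
        ∫ θ : S4, D.R.ev (tr r) θ.1 * φ (r • θ.1) ∂μS) +
        ∫ θ : S4, D.b.ev (tr r) θ.1 * fderiv ℝ φ (r • θ.1) θ.1 ∂μS := by
      have j1 : Integrable (fun θ : S4 => -5 * F r θ) μS := i1.const_mul _
      have j2 : Integrable (fun θ : S4 => -5 * F r θ - dQ D.Q (tr r) θ.1 * φ (r • θ.1)) μS :=
        j1.sub i2
      have j3 : Integrable (fun θ : S4 => -5 * F r θ - dQ D.Q (tr r) θ.1 * φ (r • θ.1) -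
        D.R.ev (tr r) θ.1 * φ (r • θ.1)) μS := j2.sub i3
      have j4 : Integrable (fun θ : S4 => r⁻¹ * (-5 * F r θ - dQ D.Q (tr r) θ.1 * φ (r • θ.1) -
        D.R.ev (tr r) θ.1 * φ (r • θ.1))) μS := j3.const_mul _
      have j5 : ∫ θ, F' r θ ∂μS = ∫ θ : S4, (r⁻¹ * (-5 * F r θ -
          dQ D.Q (tr r) θ.1 * φ (r • θ.1) - D.R.ev (tr r) θ.1 * φ (r • θ.1)) +
          D.b.ev (tr r) θ.1 * fderiv ℝ φ (r • θ.1) θ.1) ∂μS := by
        congr 1
        ext θ
        simp only [hF, hF']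
        ring
      rw [j5, integral_add j4 i4, integral_const_mul, integral_sub j2 i3, integral_sub j1 i2,
        integral_const_mul]
    have f2 : ∫ θ : S4, D.IG φ r θ.1 ∂μS =
        r * (∫ θ : S4, D.b.ev (tr r) θ.1 * fderiv ℝ φ (r • θ.1) θ.1 ∂μS) +
        (∫ θ : S4, (∑ i, (D.Q i).ev (tr r) θ.1 *
          (r * fderiv ℝ φ (r • θ.1) (EuclideanSpace.single i 1))) ∂μS) -
        ∫ θ : S4, D.R.ev (tr r) θ.1 * φ (r • θ.1) ∂μS := by
      have j1 : Integrable (fun θ : S4 => r * (D.b.ev (tr r) θ.1 * fderiv ℝ φ (r • θ.1) θ.1)) μS :=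
        i4.const_mul _
      have j2 : Integrable (fun θ : S4 => r * (D.b.ev (tr r) θ.1 * fderiv ℝ φ (r • θ.1) θ.1) +
          ∑ i, (D.Q i).ev (tr r) θ.1 *
          (r * fderiv ℝ φ (r • θ.1) (EuclideanSpace.single i 1))) μS := j1.add i5
      have j5 : ∫ θ : S4, D.IG φ r θ.1 ∂μS = ∫ θ : S4,
          (r * (D.b.ev (tr r) θ.1 * fderiv ℝ φ (r • θ.1) θ.1) +
          (∑ i, (D.Q i).ev (tr r) θ.1 *
          (r * fderiv ℝ φ (r • θ.1) (EuclideanSpace.single i 1))) -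
          D.R.ev (tr r) θ.1 * φ (r • θ.1)) ∂μS := by
        congr 1
        ext θ
        unfold IG
        ring
      rw [j5, integral_sub j2 i3, integral_add j1 i5, integral_const_mul]
    rw [f1, f2, hibp2]
    field_simp
    ring
  rw [← e5]
  exact key2

end AData

end
end OD16
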