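import Pool.Agent.LibOD16.BB4
import Pool.Agent.LibOD16.BEv

set_option autoImplicit false
namespace OD16
open MvPolynomial MeasureTheory Metric
open scoped BoundedContinuousFunction
noncomputable section

namespace AData

variable {h δ : ℝ} (D : AData h δ)

private lemma abs_IG_le (φ : EE → ℝ) {C0 C1 : ℝ} (h0 : ∀ x, ‖φ x‖ ≤ C0)
    (h1 : ∀ x, ‖fderiv ℝ φ x‖ ≤ C1) {r : ℝ} (hr0 : 0 < r) (hr1 : r < 1) (θ : S4) :
    ‖D.IG φ r θ.1‖ ≤ ‖D.b‖ * C1 + (∑ i, ‖D.Q i‖ * C1) + ‖D.R‖ * C0 := by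
  have hC1 : 0 ≤ C1 := (norm_nonneg _).trans (h1 0)
  have hθ : ‖(θ.1 : EE)‖ = 1 := by
    have := θ.2
    rwa [mem_sphere_zero_iff_norm] at this
  have e1 : ∀ v : EE, ‖v‖ = 1 → |r * fderiv ℝ φ (r • θ.1) v| ≤ C1 := by
    intro v hv
    rw [abs_mul, abs_of_pos hr0]
    have h2 : |fderiv ℝ φ (r • θ.1) v| ≤ C1 := by
      rw [← Real.norm_eq_abs]
      refine ((fderiv ℝ φ (r • θ.1)).le_opNorm v).trans ?_
      rw [hv, mul_one]
      exact h1 _
    calc r * |fderiv ℝ φ (r • θ.1) v| ≤ 1 * |fderiv ℝ φ (r • θ.1) v| :=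
          mul_le_mul_of_nonneg_right hr1.le (abs_nonneg _)
      _ ≤ C1 := by rw [one_mul]; exact h2
  unfold IG
  refine (norm_sub_le _ _).trans (add_le_add ((norm_add_le _ _).trans (add_le_add ?_ ?_)) ?_)
  · rw [Real.norm_eq_abs, abs_mul]
    exact mul_le_mul (D.b.abs_ev_le _ θ) (e1 _ hθ) (abs_nonneg _) (norm_nonneg _)
  · refine (norm_sum_le _ _).trans (Finset.sum_le_sum fun i _ => ?_)
    rw [Real.norm_eq_abs, abs_mul]
    refine mul_le_mul ((D.Q i).abs_ev_le _ θ) (e1 _ ?_) (abs_nonneg _) (norm_nonneg _)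
    simp
  · rw [Real.norm_eq_abs, abs_mul]
    refine mul_le_mul (D.R.abs_ev_le _ θ) ?_ (abs_nonneg _) (norm_nonneg _)
    rw [← Real.norm_eq_abs]
    exact h0 _

/-- TASK BB5.  Fundamental theorem of calculus on `(0, 1)`: `HH` tends to `0` at `0` (factor `r^5`)
and vanishes near `1`; the derivative is bounded and continuous on `(0, 1)`. -/
lemma integral_IG (φ : EE → ℝ) (hφ : ContDiff ℝ 1 φ) (hs : HasCompactSupport φ)
    (hb : tsupport φ ⊆ ball (0 : EE) 1) :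
    ∫ r in Set.Ioo (0 : ℝ) 1, r ^ 4 * ∫ θ : S4, D.IG φ r θ.1 ∂μS = 0 := by
  obtain ⟨C0, hC0⟩ : ∃ C, ∀ x, ‖φ x‖ ≤ C :=
    hφ.continuous.bounded_above_of_compact_support hs
  obtain ⟨C1, hC1⟩ : ∃ C, ∀ x, ‖fderiv ℝ φ x‖ ≤ C :=
    (hφ.continuous_fderiv one_ne_zero).bounded_above_of_compact_support (hs.fderiv ℝ)
  have hC0' : 0 ≤ C0 := (norm_nonneg _).trans (hC0 0)
  have hC1' : 0 ≤ C1 := (norm_nonneg _).trans (hC1 0)
  have hderiv : ∀ r ∈ Set.Ioo (0 : ℝ) 1,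
      HasDerivAt (D.HH φ) (r ^ 4 * ∫ θ : S4, D.IG φ r θ.1 ∂μS) r :=
    fun r hr => D.hasDerivAt_HH φ hφ hr.1 hr.2
  -- integrability
  have hint : IntegrableOn (fun r : ℝ => r ^ 4 * ∫ θ : S4, D.IG φ r θ.1 ∂μS)
      (Set.Ioo (0 : ℝ) 1) := by
    have hmeas : AEStronglyMeasurable (fun r : ℝ => r ^ 4 * ∫ θ : S4, D.IG φ r θ.1 ∂μS)
        (volume.restrict (Set.Ioo (0 : ℝ) 1)) := by
      refine (measurable_deriv (D.HH φ)).aestronglyMeasurable.congr ?_
      filter_upwards [ae_restrict_mem measurableSet_Ioo] with r hr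
      exact (hderiv r hr).deriv
    refine IntegrableOn.of_bound (by simp) hmeas ((‖D.b‖ * C1 + (∑ i, ‖D.Q i‖ * C1) +
      ‖D.R‖ * C0) * μS.real Set.univ) ?_
    filter_upwards [ae_restrict_mem measurableSet_Ioo] with r hr
    rw [norm_mul, norm_pow, Real.norm_eq_abs, abs_of_pos hr.1]
    have h2 : ‖∫ θ : S4, D.IG φ r θ.1 ∂μS‖ ≤ (‖D.b‖ * C1 + (∑ i, ‖D.Q i‖ * C1) + ‖D.R‖ * C0) *
        μS.real Set.univ :=
      norm_integral_le_of_norm_le_const
        (Filter.Eventually.of_forall fun θ => D.abs_IG_le φ hC0 hC1 hr.1 hr.2 θ)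
    have h3 : r ^ 4 ≤ 1 := pow_le_one₀ hr.1.le hr.2.le
    calc r ^ 4 * ‖∫ θ : S4, D.IG φ r θ.1 ∂μS‖ ≤ 1 * ‖∫ θ : S4, D.IG φ r θ.1 ∂μS‖ :=
          mul_le_mul_of_nonneg_right h3 (norm_nonneg _)
      _ ≤ _ := by rw [one_mul]; exact h2
  have hint' : IntervalIntegrable (fun r : ℝ => r ^ 4 * ∫ θ : S4, D.IG φ r θ.1 ∂μS) volume 0 1 := by
    rw [intervalIntegrable_iff_integrableOn_Ioo_of_le zero_le_one]
    exact hint
  -- limit at zero
  have hlim0 : Filter.Tendsto (D.HH φ) (nhdsWithin (0 : ℝ) (Set.Ioi 0)) (nhds 0) := by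
    have h2 : ∀ r : ℝ, 0 < r → ‖D.HH φ r‖ ≤ r ^ 5 * (‖D.b‖ * C0 * μS.real Set.univ) := by
      intro r hr
      unfold HH
      rw [norm_mul, norm_pow, Real.norm_eq_abs, abs_of_pos hr]
      refine mul_le_mul_of_nonneg_left ?_ (by positivity)
      refine norm_integral_le_of_norm_le_const (Filter.Eventually.of_forall fun θ => ?_)
      rw [Real.norm_eq_abs, abs_mul]
      refine mul_le_mul (D.b.abs_ev_le _ θ) ?_ (abs_nonneg _) (norm_nonneg _)
      rw [← Real.norm_eq_abs]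
      exact hC0 _
    have h3 : Filter.Tendsto (fun r : ℝ => r ^ 5 * (‖D.b‖ * C0 * μS.real Set.univ))
        (nhdsWithin (0 : ℝ) (Set.Ioi 0)) (nhds 0) := by
      have hc : Continuous fun r : ℝ => r ^ 5 * (‖D.b‖ * C0 * μS.real Set.univ) := by fun_prop
      have h4 := (hc.tendsto 0).mono_left (nhdsWithin_le_nhds (s := Set.Ioi (0 : ℝ)))
      simpa using h4
    refine squeeze_zero_norm' ?_ h3
    filter_upwards [self_mem_nhdsWithin] with r hr
    exact h2 r hr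
  -- limit at one
  have hlim1 : Filter.Tendsto (D.HH φ) (nhdsWithin (1 : ℝ) (Set.Iio 1)) (nhds 0) := by
    obtain ⟨ρ, hρ1, hρ⟩ : ∃ ρ : ℝ, ρ < 1 ∧ ∀ x : EE, ρ < ‖x‖ → φ x = 0 := by
      rcases (tsupport φ).eq_empty_or_nonempty with he | hne
      · refine ⟨0, one_pos, fun x _ => ?_⟩
        apply image_eq_zero_of_notMem_tsupport
        rw [he]
        exact Set.notMem_empty x
      · obtain ⟨x0, hx0, hmax⟩ := hs.isCompact.exists_isMaxOn hne continuous_norm.continuousOn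
        refine ⟨‖x0‖, by simpa using hb hx0, fun x hx => ?_⟩
        apply image_eq_zero_of_notMem_tsupport
        intro hmem
        exact absurd (hmax hmem) (not_le.2 hx)
    refine tendsto_const_nhds.congr' ?_
    have h5 : Set.Ioo (max ρ 0) 1 ∈ nhdsWithin (1 : ℝ) (Set.Iio 1) :=
      Ioo_mem_nhdsLT (max_lt hρ1 one_pos)
    filter_upwards [h5] with r hr
    unfold HH
    have h6 : ∀ θ : S4, D.b.ev (tr r) θ.1 * φ (r • θ.1) = 0 := by
      intro θ
      rw [hρ (r • θ.1), mul_zero]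
      have hθ : ‖(θ.1 : EE)‖ = 1 := by
        have := θ.2
        rwa [mem_sphere_zero_iff_norm] at this
      rw [norm_smul, hθ, mul_one, Real.norm_eq_abs]
      exact lt_of_lt_of_le (lt_of_le_of_lt (le_max_left _ _) hr.1) (le_abs_self _)
    simp [h6]
  have hmain := intervalIntegral.integral_eq_sub_of_hasDerivAt_of_tendsto zero_lt_one hderiv hint'
    hlim0 hlim1
  rw [intervalIntegral.integral_of_le zero_le_one, integral_Ioc_eq_integral_Ioo] at hmain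
  rw [hmain, sub_zero]

end AData

end
end OD16
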