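import Pool.Agent.LibOD16.BF

set_option autoImplicit false
namespace OD16
open MvPolynomial MeasureTheory Metric
noncomputable section

namespace AData

variable {h δ : ℝ} (D : AData h δ)

lemma P_sphere_BBd (θ : S4) : D.P θ.1 = mkPt h δ D.j0 D.j1 D.J t0 θ.1 := by
  have hn : ‖θ.1‖ = 1 := norm_eq_of_mem_sphere θ
  have h1 : tm θ.1 = t0 := by
    unfold tm t0
    simp only [hn, Real.log_one, min_self]
  have h2 : dir θ.1 = θ.1 := by
    unfold dir
    rw [hn, inv_one, one_smul]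
  unfold AData.P
  rw [h1, h2]

/-- On the unit sphere `|∇F|_g = 1 / (1 + ν)`: there `χ = 1`, `χ' = 0`, `α = -1/m`,
`ζ = 1/(m (1 + η))`, `m = 1 + j0 + j1`, and `bc`. -/
lemma gnorm_sphere (θ : S4) :
    Real.sqrt (gsq h (D.Ph θ.1) (D.gh θ.1)) = 1 / (1 + D.ν) := by
  have hn : ‖θ.1‖ = 1 := norm_eq_of_mem_sphere θ
  have hne : θ.1 ≠ 0 := by
    rw [← norm_ne_zero_iff, hn]
    exact one_ne_zero
  have hg := D.good hne hn.le
  have hr := D.P_r hne hn.le
  have hxi := D.P_xi hne hn.le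
  have hχ : (D.P θ.1).χ = 1 := by
    rw [D.P_χ hne hn.le, hn, Real.log_one]
    exact chi_eq_one (by norm_num)
  have hχd : (D.P θ.1).χd = 0 := by
    rw [D.P_χd hne hn.le, hn, Real.log_one]
    exact chid_eq_zero' (by norm_num)
  have hbc := D.bc θ
  have hP := D.P_sphere_BBd θ
  have hj0 : D.j0.ev t0 θ.1 = (D.P θ.1).j0 := by rw [hP]; rfl
  have hj1 : D.j1.ev t0 θ.1 = (D.P θ.1).j1 := by rw [hP]; rfl
  rw [← hP, hj0, hj1] at hbc
  have heta : (D.P θ.1).eta = (D.P θ.1).j0 := by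
    unfold Pt.eta
    rw [hχ, one_mul]
  have hetad : (D.P θ.1).etad = (D.P θ.1).j1 := by
    unfold Pt.etad
    rw [hχ, hχd]
    ring
  have hm : (D.P θ.1).m = 1 + (D.P θ.1).j0 + (D.P θ.1).j1 := by
    unfold Pt.m
    rw [heta, hetad]
  have hbe : (D.P θ.1).be = -1 := by
    unfold Pt.be
    rw [hχ, hχd]
    ring
  have hmpos : 0 < (D.P θ.1).m := by linarith [hg.hm]
  have heta1 : 0 < 1 + (D.P θ.1).j0 := by
    have := abs_le.mp hg.heta
    rw [heta] at this
    linarith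
  have hal : (D.P θ.1).al = -1 / (D.P θ.1).m := by
    unfold Pt.al
    rw [hbe]
  have hze : (D.P θ.1).ze = 1 / ((D.P θ.1).m * (1 + (D.P θ.1).j0)) := by
    unfold Pt.ze
    rw [hbe, hχ, heta]
    field_simp
    ring
  have hgh : D.gh θ.1 =
      (D.P θ.1).r ^ (D.P θ.1).q • ((D.P θ.1).al • (D.P θ.1).θ + (D.P θ.1).ze • (D.P θ.1).J) := by
    rw [hr]
    rfl
  have hgsq := Pt.gsq_grad (D.P θ.1) hg
  rw [← hgh, hxi] at hgsq
  have hgsq' : gsq h (D.Ph θ.1) (D.gh θ.1) = (1 / (D.P θ.1).m) ^ 2 *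
      (1 + (D.P θ.1).JJ / (1 + (D.P θ.1).j0) ^ 2) := by
    refine Eq.trans hgsq ?_
    rw [hr, hn, Real.one_rpow]
    unfold Pt.s
    rw [hal, hze]
    field_simp
    ring
  rw [hgsq', Real.sqrt_mul (sq_nonneg _), Real.sqrt_sq (by positivity)]
  have hm2 : (D.P θ.1).m = (1 + D.ν) *
      Real.sqrt (1 + (D.P θ.1).JJ / (1 + (D.P θ.1).j0) ^ 2) := by
    rw [hm]
    exact hbc
  have hν : 0 < 1 + D.ν := by
    have := abs_le.mp D.ν_small
    linarith
  have hS : Real.sqrt (1 + (D.P θ.1).JJ / (1 + (D.P θ.1).j0) ^ 2) ≠ 0 := by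
    intro h0
    rw [h0, mul_zero] at hm2
    exact hmpos.ne' hm2
  rw [hm2]
  generalize Real.sqrt (1 + (D.P θ.1).JJ / (1 + (D.P θ.1).j0) ^ 2) = S at hS
  field_simp

lemma continuousOn_gnorm_BBd :
    ContinuousOn (fun x => Real.sqrt (gsq h (D.Ph x) (D.gh x))) (closedBall (0 : EE) 1) := by
  have h1 := D.continuousOn_gh
  have h2 := D.continuousOn_Ph
  have h3 : ContinuousOn (fun x => GR h (D.Ph x) (D.gh x)) (closedBall (0 : EE) 1) := by
    have h4 := (continuousOn_GR D.h_pos D.h_le).comp (h2.prodMk h1) (s := closedBall (0 : EE) 1)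
      (by
        intro x hx
        refine ⟨?_, Set.mem_univ _⟩
        rw [mem_ball_zero_iff]
        have := D.norm_Ph_le (mem_closedBall_zero_iff.mp hx)
        show ‖D.Ph x‖ < 2
        linarith)
    exact h4
  exact Real.continuous_sqrt.comp_continuousOn (h1.inner h3)

/-- TASK BBd.  Boundary behaviour: `x ↦ √(gsq (Ph x) (gh x))` and `fh` are uniformly continuous on
the closed ball; `K = Φ(closedBall 0 r0)`. -/
theorem bdry_dom : ∀ ε > 0, ∃ K : Set EE, IsCompact K ∧ K ⊆ D.dom ∧ ∀ X ∈ D.dom \ K,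
    |D.F X| < ε ∧ |Real.sqrt (gsq h X (D.gF X)) - 1 / (1 + D.ν)| < ε := by
  intro ε hε
  -- the gradient
  have huc := (isCompact_closedBall (0 : EE) 1).uniformContinuousOn_of_continuous
    D.continuousOn_gnorm_BBd
  rw [Metric.uniformContinuousOn_iff] at huc
  obtain ⟨d1, hd1, hu1⟩ := huc ε hε
  -- the function
  have hcont : ContinuousAt (fun r : ℝ => (1 - r ^ (1 + D.q)) / (1 + D.q)) 1 := by
    have h1 : ContinuousAt (fun r : ℝ => r ^ (1 + D.q)) 1 :=
      Real.continuousAt_rpow_const 1 (1 + D.q) (Or.inl one_ne_zero)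
    exact (continuousAt_const.sub h1).div_const _
  rw [Metric.continuousAt_iff] at hcont
  obtain ⟨d2, hd2, hu2⟩ := hcont ε hε
  -- the radius
  have he : Real.exp (-1 / 2) < 1 := by
    rw [Real.exp_lt_one_iff]
    norm_num
  obtain ⟨r0, hr0a, hr0b, hr0c, hr0d⟩ : ∃ r0 : ℝ, r0 < 1 ∧ Real.exp (-1 / 2) ≤ r0 ∧
      1 - d1 < r0 ∧ 1 - d2 < r0 := by
    refine ⟨max (Real.exp (-1 / 2)) (max (1 - d1 / 2) (1 - d2 / 2)), ?_, le_max_left _ _, ?_, ?_⟩
    · refine max_lt he (max_lt ?_ ?_) <;> linarith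
    · refine lt_of_lt_of_le ?_ ((le_max_left _ _).trans (le_max_right _ _))
      linarith
    · refine lt_of_lt_of_le ?_ ((le_max_right _ _).trans (le_max_right _ _))
      linarith
  refine ⟨D.Ph '' closedBall 0 r0, ?_, ?_, ?_⟩
  · exact (isCompact_closedBall (0 : EE) r0).image_of_continuousOn
      (D.continuousOn_Ph.mono (closedBall_subset_closedBall hr0a.le))
  · exact Set.image_mono (closedBall_subset_ball hr0a)
  · rintro X ⟨⟨x, hx, rfl⟩, hX⟩
    have hx1 : ‖x‖ < 1 := mem_ball_zero_iff.mp hx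
    have hxr : r0 < ‖x‖ := by
      by_contra hcon
      exact hX ⟨x, mem_closedBall_zero_iff.mpr (not_lt.mp hcon), rfl⟩
    have hxpos : 0 < ‖x‖ := lt_of_lt_of_le (Real.exp_pos _) (hr0b.trans hxr.le)
    have hx0 : x ≠ 0 := norm_pos_iff.mp hxpos
    have hF : D.F (D.Ph x) = D.fh x := by
      unfold F
      rw [D.Ps_Ph hx]
    have hgF : D.gF (D.Ph x) = D.gh x := by
      unfold gF
      rw [D.Ps_Ph hx]
    rw [hF, hgF]
    constructor
    · rw [D.fh_eq (hr0b.trans hxr.le) hx1.le]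
      have h1 := hu2 (x := ‖x‖) (by
        rw [Real.dist_eq, abs_lt]
        constructor <;> linarith)
      rw [Real.dist_eq, Real.one_rpow, sub_self, zero_div, sub_zero] at h1
      exact h1
    · have hdm : dir x ∈ sphere (0 : EE) 1 := dir_mem hx0
      have hdist : dist x (dir x) < d1 := by
        have h2 : x - dir x = (1 - ‖x‖⁻¹) • x := by
          unfold dir
          rw [sub_smul, one_smul]
        rw [dist_eq_norm, h2, norm_smul, Real.norm_eq_abs]
        have h3 : |1 - ‖x‖⁻¹| = ‖x‖⁻¹ - 1 := by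
          rw [abs_sub_comm]
          apply abs_of_nonneg
          rw [sub_nonneg]
          exact (one_le_inv₀ hxpos).mpr hx1.le
        rw [h3, sub_mul, inv_mul_cancel₀ hxpos.ne', one_mul]
        linarith
      have h4 := hu1 x (mem_closedBall_zero_iff.mpr hx1.le) (dir x)
        (sphere_subset_closedBall hdm) hdist
      rw [D.gnorm_sphere ⟨dir x, hdm⟩, Real.dist_eq] at h4
      exact h4

end AData

end
end OD16
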