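import Pool.Agent.LibOD16.AD0

set_option autoImplicit false
namespace OD16
open MvPolynomial MeasureTheory Metric
noncomputable section

/-- TASK BChi.  The cutoff. -/
lemma contDiff_chi : ContDiff ℝ ((⊤ : ℕ∞) : WithTop ℕ∞) chi := by
  unfold chi
  exact Real.smoothTransition.contDiff.comp (by fun_prop)

lemma continuous_chi : Continuous chi := contDiff_chi.continuous

lemma continuous_chid : Continuous chid := by
  have h : ContDiff ℝ 1 chi := contDiff_chi.of_le (by norm_cast)
  exact h.continuous_deriv le_rfl

lemma hasDerivAt_chi (t : ℝ) : HasDerivAt chi (chid t) t := by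
  have h : Differentiable ℝ chi := contDiff_chi.differentiable (by norm_cast)
  exact (h t).hasDerivAt

lemma chi_nonneg (t : ℝ) : 0 ≤ chi t := Real.smoothTransition.nonneg _

lemma chi_le_one (t : ℝ) : chi t ≤ 1 := Real.smoothTransition.le_one _

lemma chi_eq_zero {t : ℝ} (ht : t ≤ -1) : chi t = 0 :=
  Real.smoothTransition.zero_of_nonpos (by linarith)

lemma chi_eq_one {t : ℝ} (ht : -1 / 2 ≤ t) : chi t = 1 :=
  Real.smoothTransition.one_of_one_le (by linarith)

/-- (At `t = -1` the derivative of a function which is zero to the left; `chi` is differentiable.) -/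
lemma chid_eq_zero {t : ℝ} (ht : t ≤ -1) : chid t = 0 := by
  have h : IsLocalMin chi t := by
    apply Filter.Eventually.of_forall
    intro s
    rw [chi_eq_zero ht]
    exact chi_nonneg s
  exact h.deriv_eq_zero

lemma chid_eq_zero' {t : ℝ} (ht : -1 / 2 ≤ t) : chid t = 0 := by
  have h : IsLocalMax chi t := by
    apply Filter.Eventually.of_forall
    intro s
    rw [chi_eq_one ht]
    exact chi_le_one s
  exact h.deriv_eq_zero

lemma exists_chid_bound : ∃ C : ℝ, 0 < C ∧ ∀ t, |chid t| ≤ C := by
  obtain ⟨C, hC⟩ := (isCompact_Icc (a := (-1 : ℝ)) (b := -1 / 2)).exists_bound_of_continuousOn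
    continuous_chid.continuousOn
  refine ⟨max C 1, lt_max_of_lt_right one_pos, fun t => ?_⟩
  by_cases h1 : t ≤ -1
  · rw [chid_eq_zero h1, abs_zero]
    exact le_max_of_le_right zero_le_one
  · by_cases h2 : -1 / 2 ≤ t
    · rw [chid_eq_zero' h2, abs_zero]
      exact le_max_of_le_right zero_le_one
    · have := hC t ⟨(not_le.mp h1).le, (not_le.mp h2).le⟩
      rw [Real.norm_eq_abs] at this
      exact this.trans (le_max_left _ _)

end
end OD16
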