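import Pool.Agent.LibOD16.BTR

set_option autoImplicit false
namespace OD16
open MvPolynomial MeasureTheory Metric
noncomputable section

namespace Pt

/-- The derivative of `Φ` at `x = r θ`:  `A v = (1 + η) v + ⟨η' θ + χ J, v⟩ θ`. -/
def A (P : Pt) : EE →L[ℝ] EE :=
  (1 + P.eta) • ContinuousLinearMap.id ℝ EE +
    (innerSL ℝ (P.etad • P.θ + P.χ • P.J)).smulRight P.θ

/-- Its transpose. -/
def At (P : Pt) (v : EE) : EE :=
  (1 + P.eta) • v + (inner ℝ v P.θ) • (P.etad • P.θ + P.χ • P.J)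

/-- Hypotheses on a point. -/
structure Good (P : Pt) : Prop where
  hδ : 0 < P.δ
  hδ1 : P.δ < 1 / 10
  hr : 0 < P.r
  hm : 1 / 2 ≤ P.m
  heta : |P.eta| ≤ 1 / 10
  hs : |P.s| ≤ 1 / 2
  hθ : ‖P.θ‖ = 1
  hJ : inner ℝ P.θ P.J = 0

/-- TASK BPt.  Pointwise algebra of section (2a) of the notes. -/
lemma A_apply (P : Pt) (v : EE) :
    P.A v = (1 + P.eta) • v + (inner ℝ (P.etad • P.θ + P.χ • P.J) v) • P.θ := by
  simp [A, inner_add_left, real_inner_smul_left]

lemma inner_At (P : Pt) (v w : EE) : inner ℝ v (P.A w) = inner ℝ (P.At v) w := by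
  rw [A_apply, At]
  simp only [inner_add_right, inner_add_left, inner_smul_right, real_inner_smul_left]
  ring

lemma inner_θθ (P : Pt) (hP : P.Good) : inner ℝ P.θ P.θ = (1 : ℝ) := by
  rw [real_inner_self_eq_norm_sq, hP.hθ, one_pow]

lemma inner_Jθ (P : Pt) (hP : P.Good) : inner ℝ P.J P.θ = (0 : ℝ) := by
  rw [real_inner_comm]
  exact hP.hJ

lemma m_pos (P : Pt) (hP : P.Good) : 0 < P.m := by linarith [hP.hm]

lemma one_add_eta_pos (P : Pt) (hP : P.Good) : 0 < 1 + P.eta := by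
  have := abs_le.mp hP.heta
  linarith [this.1]

/-- `Aᵀ (α θ + ζ J) = β θ + (1 - χ) J`. -/
lemma At_grad (P : Pt) (hP : P.Good) :
    P.At (P.al • P.θ + P.ze • P.J) = P.be • P.θ + (1 - P.χ) • P.J := by
  have hm := P.m_pos hP
  have he := P.one_add_eta_pos hP
  have h1 : inner ℝ (P.al • P.θ + P.ze • P.J) P.θ = P.al := by
    rw [inner_add_left, real_inner_smul_left, real_inner_smul_left, P.inner_θθ hP, P.inner_Jθ hP]
    ring
  unfold At
  rw [h1]
  have h2 : P.be = (1 + P.eta) * P.al + P.al * P.etad := by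
    have : P.be = P.m * P.al := by
      unfold al
      field_simp
    rw [this]
    unfold m
    ring
  have h3 : (1 - P.χ) = (1 + P.eta) * P.ze + P.al * P.χ := by
    unfold ze al
    field_simp
    ring
  rw [h2, h3]
  module

lemma At_add (P : Pt) (v w : EE) : P.At (v + w) = P.At v + P.At w := by
  unfold At
  rw [inner_add_left]
  module

lemma At_smul (P : Pt) (c : ℝ) (v : EE) : P.At (c • v) = c • P.At v := by
  unfold At
  rw [real_inner_smul_left]
  module

lemma GR_θ (P : Pt) : GR P.h P.xi P.θ = P.θ := by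
  unfold xi
  exact GR_dir _ _ _

lemma inner_θ_cJ (P : Pt) (hP : P.Good) : inner ℝ P.θ P.cJ = (0 : ℝ) := by
  unfold cJ xi
  rw [inner_GR_dir]
  exact hP.hJ

lemma GR_grad (P : Pt) (c : ℝ) :
    GR P.h P.xi (c • (P.al • P.θ + P.ze • P.J)) = c • (P.al • P.θ + P.ze • P.cJ) := by
  rw [GR_smul, GR_add, GR_smul, GR_smul, GR_θ]
  rfl

/-- `|∇F|_g² = r^(2q) (1 + s)`. -/
lemma gsq_grad (P : Pt) (hP : P.Good) :
    gsq P.h P.xi (P.r ^ P.q • (P.al • P.θ + P.ze • P.J)) = (P.r ^ P.q) ^ 2 * (1 + P.s) := by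
  unfold gsq
  rw [GR_grad]
  rw [real_inner_smul_left, real_inner_smul_right, inner_add_left, inner_add_right,
    inner_add_right, real_inner_smul_left, real_inner_smul_right, real_inner_smul_left,
    real_inner_smul_right, real_inner_smul_left, real_inner_smul_right, real_inner_smul_left,
    real_inner_smul_right, P.inner_θθ hP, P.inner_θ_cJ hP, P.inner_Jθ hP]
  unfold s JJ
  ring

lemma one_add_s_pos (P : Pt) (hP : P.Good) : 0 < 1 + P.s := by
  have := abs_le.mp hP.hs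
  linarith [this.1]

lemma flux_pow (P : Pt) (hP : P.Good) :
    P.W * Real.sqrt (gsq P.h P.xi (P.r ^ P.q • (P.al • P.θ + P.ze • P.J))) ^ (-P.δ) * P.r ^ P.q =
      P.Pi * P.r := by
  have hr := hP.hr
  have hs := P.one_add_s_pos hP
  have hrq : 0 < P.r ^ P.q := Real.rpow_pos_of_pos hr _
  rw [P.gsq_grad hP, Real.sqrt_mul (sq_nonneg _), Real.sqrt_sq hrq.le,
    Real.mul_rpow hrq.le (Real.sqrt_nonneg _), ← Real.rpow_mul hr.le, Real.sqrt_eq_rpow,
    ← Real.rpow_mul hs.le]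
  unfold Pi
  have h1 : (1 / 2 : ℝ) * (-P.δ) = -(P.δ / 2) := by ring
  rw [h1]
  have h2 : P.r ^ (P.q * -P.δ) * P.r ^ P.q = P.r := by
    rw [← Real.rpow_add hr]
    have h3 : P.q * -P.δ + P.q = 1 := by
      unfold q
      have : (1 : ℝ) - P.δ ≠ 0 := by linarith [hP.hδ1]
      field_simp
      ring
    rw [h3, Real.rpow_one]
  calc P.W * (P.r ^ (P.q * -P.δ) * (1 + P.s) ^ (-(P.δ / 2))) * P.r ^ P.q
      = P.W * (1 + P.s) ^ (-(P.δ / 2)) * (P.r ^ (P.q * -P.δ) * P.r ^ P.q) := by ring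
    _ = _ := by rw [h2]

/-- `A (r (b θ + Q)) = det A · (W |∇F|_g^(-δ) G ∇F + X)`. -/
lemma A_flux (P : Pt) (hP : P.Good) :
    P.A (P.r • (P.b • P.θ + P.Q)) = ((1 + P.eta) ^ 4 * P.m) •
      ((P.W * Real.sqrt (gsq P.h P.xi (P.r ^ P.q • (P.al • P.θ + P.ze • P.J))) ^ (-P.δ)) •
        GR P.h P.xi (P.r ^ P.q • (P.al • P.θ + P.ze • P.J)) + P.xi) := by
  rw [GR_grad, smul_smul, P.flux_pow hP, A_apply]
  have h1 : inner ℝ (P.etad • P.θ + P.χ • P.J) (P.r • (P.b • P.θ + P.Q)) =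
      P.r * (P.etad * P.b + P.χ * ((1 + P.eta) ^ 3 * P.m * P.Pi * P.ze * P.JJ)) := by
    unfold Q
    rw [real_inner_smul_right, inner_add_left, inner_add_right,
      inner_add_right, real_inner_smul_left, real_inner_smul_right, real_inner_smul_left,
      real_inner_smul_right, real_inner_smul_left, real_inner_smul_right, real_inner_smul_left,
      real_inner_smul_right, P.inner_θθ hP, P.inner_θ_cJ hP, P.inner_Jθ hP]
    unfold JJ
    ring
  rw [h1]
  have hm : P.etad = P.m - (1 + P.eta) := by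
    unfold m
    ring
  rw [hm]
  unfold b Q xi
  module

end Pt

end
end OD16
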