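import Pool.Agent.LibOD16.BDer2
import Pool.Agent.LibOD16.BPt
import Pool.Agent.LibOD16.BChi

set_option autoImplicit false
namespace OD16
open MvPolynomial MeasureTheory Metric
open scoped BoundedContinuousFunction
noncomputable section

namespace AData

variable {h δ : ℝ} (D : AData h δ)

lemma bg_j0 {x : EE} (hx : x ≠ 0) : |(D.P x).j0| ≤ 1 / 100 :=
  (WA.abs_fn_le D.j0 hx).trans D.j0_small

lemma bg_j1 {x : EE} (hx : x ≠ 0) : |(D.P x).j1| ≤ 1 / 100 :=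
  (WA.abs_fn_le D.j1 hx).trans D.j1_small

lemma bg_eta {x : EE} (hx : x ≠ 0) : |(D.P x).eta| ≤ 1 / 100 := by
  have h1 := D.bg_j0 hx
  have h2 : 0 ≤ (D.P x).χ := chi_nonneg _
  have h3 : (D.P x).χ ≤ 1 := chi_le_one _
  unfold Pt.eta
  rw [abs_mul, abs_of_nonneg h2]
  nlinarith [abs_nonneg (D.P x).j0]

lemma bg_m {x : EE} (hx : x ≠ 0) : 1 / 2 ≤ (D.P x).m :=
  D.m_ge (tm x) ⟨dir x, dir_mem hx⟩

/-- TASK BGood.  The points `D.P x`, `0 < |x| ≤ 1`, are good. -/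
lemma good {x : EE} (hx : x ≠ 0) (h1 : ‖x‖ ≤ 1) : (D.P x).Good where
  hδ := D.δ_pos
  hδ1 := D.δ_lt
  hr := Real.exp_pos _
  hm := D.bg_m hx
  heta := (D.bg_eta hx).trans (by norm_num)
  hs := D.s_le (tm x) ⟨dir x, dir_mem hx⟩
  hθ := norm_dir hx
  hJ := D.J_tangent (tm x) ⟨dir x, dir_mem hx⟩

lemma P_r {x : EE} (hx : x ≠ 0) (h1 : ‖x‖ ≤ 1) : (D.P x).r = ‖x‖ :=
  exp_tm hx h1

lemma P_χ {x : EE} (hx : x ≠ 0) (h1 : ‖x‖ ≤ 1) : (D.P x).χ = chi (Real.log ‖x‖) := by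
  have h2 : (D.P x).χ = chi ((tm x : Tm) : ℝ) := rfl
  rw [h2, tm_val hx h1]

lemma P_χd {x : EE} (hx : x ≠ 0) (h1 : ‖x‖ ≤ 1) : (D.P x).χd = chid (Real.log ‖x‖) := by
  have h2 : (D.P x).χd = chid ((tm x : Tm) : ℝ) := rfl
  rw [h2, tm_val hx h1]

/-- `ξ = Φ(x)`. -/
lemma P_xi {x : EE} (hx : x ≠ 0) (h1 : ‖x‖ ≤ 1) : (D.P x).xi = D.Ph x := by
  have h2 : (D.P x).θ = dir x := rfl
  unfold Pt.xi Ph
  rw [D.P_r hx h1, mul_smul, h2, smul_dir]

lemma abs_eta_le {x : EE} (hx : x ≠ 0) : |(D.P x).eta| ≤ 1 / 100 := D.bg_eta hx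

lemma bg_cχ : ContinuousOn (fun x => (D.P x).χ) {0}ᶜ :=
  continuous_chi.comp_continuousOn (continuous_subtype_val.comp_continuousOn continuousOn_tm)

lemma bg_cχd : ContinuousOn (fun x => (D.P x).χd) {0}ᶜ :=
  continuous_chid.comp_continuousOn (continuous_subtype_val.comp_continuousOn continuousOn_tm)

lemma bg_cj0 : ContinuousOn (fun x => (D.P x).j0) {0}ᶜ := WA.continuousOn_fn D.j0

lemma bg_cj1 : ContinuousOn (fun x => (D.P x).j1) {0}ᶜ := WA.continuousOn_fn D.j1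

/-- All scalar functions of the point are continuous off `0`. -/
lemma continuousOn_eta : ContinuousOn (fun x => (D.P x).eta) {0}ᶜ :=
  D.bg_cχ.mul D.bg_cj0

lemma continuousOn_etad : ContinuousOn (fun x => (D.P x).etad) {0}ᶜ :=
  (D.bg_cχd.mul D.bg_cj0).add (D.bg_cχ.mul D.bg_cj1)

lemma continuousOn_J : ContinuousOn (fun x => (D.P x).J) {0}ᶜ := by
  apply (PiLp.continuous_toLp 2 (fun _ : Fin 5 => ℝ)).comp_continuousOn
  rw [continuousOn_pi]
  intro i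
  exact WA.continuousOn_fn (D.J i)

lemma bg_cm : ContinuousOn (fun x => (D.P x).m) {0}ᶜ :=
  (continuousOn_const.add D.continuousOn_eta).add D.continuousOn_etad

lemma bg_cU : ContinuousOn (fun x => (D.P x).U) {0}ᶜ := by
  have h1 : ContinuousOn (fun x => (1 + 1 / (1 - δ)) * (D.P x).j0 + (D.P x).j1) {0}ᶜ :=
    (continuousOn_const.mul D.bg_cj0).add D.bg_cj1
  exact h1

lemma bg_cbe : ContinuousOn (fun x => (D.P x).be) {0}ᶜ :=
  (continuousOn_const.add ((continuousOn_const.sub D.bg_cχ).mul D.bg_cU)).sub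
    (D.bg_cχd.mul D.bg_cj0)

lemma bg_cal : ContinuousOn (fun x => (D.P x).al) {0}ᶜ :=
  D.bg_cbe.div D.bg_cm (fun x hx => by
    have := D.bg_m (x := x) hx
    have : 0 < (D.P x).m := by linarith
    exact this.ne')

lemma bg_cze : ContinuousOn (fun x => (D.P x).ze) {0}ᶜ := by
  apply ((continuousOn_const.sub D.bg_cχ).sub ((D.bg_cχ.mul D.bg_cbe).div D.bg_cm ?_)).div
    (continuousOn_const.add D.continuousOn_eta)
  · intro x hx
    have h1 := abs_le.mp (D.bg_eta (x := x) hx)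
    have : 0 < 1 + (D.P x).eta := by linarith [h1.1]
    exact this.ne'
  · intro x hx
    have := D.bg_m (x := x) hx
    have : 0 < (D.P x).m := by linarith
    exact this.ne'

lemma continuousOn_al : ContinuousOn (fun x => (D.P x).al) (closedBall (0 : EE) 1 \ {0}) :=
  D.bg_cal.mono (fun _ hx => hx.2)

lemma continuousOn_ze : ContinuousOn (fun x => (D.P x).ze) (closedBall (0 : EE) 1 \ {0}) :=
  D.bg_cze.mono (fun _ hx => hx.2)

lemma bg_U {x : EE} (hx : x ≠ 0) : |(D.P x).U| ≤ 4 / 100 := by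
  have h1 := D.bg_j0 hx
  have h2 := D.bg_j1 hx
  have hq : (D.P x).q = 1 / (1 - δ) := rfl
  have hd := D.δ_pos
  have hd1 := D.δ_lt
  have hq1 : (D.P x).q ≤ 10 / 9 := by
    rw [hq, div_le_div_iff₀ (by linarith) (by norm_num)]
    linarith
  have hq0 : 0 ≤ (D.P x).q := by
    rw [hq]
    apply div_nonneg zero_le_one
    linarith
  unfold Pt.U
  calc |(1 + (D.P x).q) * (D.P x).j0 + (D.P x).j1|
      ≤ |(1 + (D.P x).q) * (D.P x).j0| + |(D.P x).j1| := abs_add_le _ _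
    _ = (1 + (D.P x).q) * |(D.P x).j0| + |(D.P x).j1| := by
        rw [abs_mul, abs_of_nonneg (by linarith : 0 ≤ 1 + (D.P x).q)]
    _ ≤ (1 + 10 / 9) * (1 / 100) + 1 / 100 := by
        gcongr
    _ ≤ 4 / 100 := by norm_num

lemma bg_be {x : EE} (hx : x ≠ 0) : |(D.P x).be| ≤ 104 / 100 + |(D.P x).χd| / 100 := by
  have h1 := D.bg_j0 hx
  have h2 := D.bg_U hx
  have h3 : 0 ≤ (D.P x).χ := chi_nonneg _
  have h4 : (D.P x).χ ≤ 1 := chi_le_one _
  unfold Pt.be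
  calc |-1 + (1 - (D.P x).χ) * (D.P x).U - (D.P x).χd * (D.P x).j0|
      ≤ |-1 + (1 - (D.P x).χ) * (D.P x).U| + |(D.P x).χd * (D.P x).j0| := abs_sub _ _
    _ ≤ (|(-1 : ℝ)| + |(1 - (D.P x).χ) * (D.P x).U|) + |(D.P x).χd * (D.P x).j0| := by
        gcongr
        exact abs_add_le _ _
    _ = (1 + (1 - (D.P x).χ) * |(D.P x).U|) + |(D.P x).χd| * |(D.P x).j0| := by
        rw [abs_mul, abs_mul, abs_of_nonneg (by linarith : 0 ≤ 1 - (D.P x).χ)]
        simp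
    _ ≤ (1 + 1 * (4 / 100)) + |(D.P x).χd| * (1 / 100) := by
        gcongr
        linarith
    _ = 104 / 100 + |(D.P x).χd| / 100 := by ring

lemma bg_al {x : EE} (hx : x ≠ 0) : |(D.P x).al| ≤ 208 / 100 + |(D.P x).χd| / 50 := by
  have h1 := D.bg_be hx
  have h2 := D.bg_m hx
  unfold Pt.al
  rw [abs_div, abs_of_pos (by linarith : 0 < (D.P x).m), div_le_iff₀ (by linarith)]
  have h3 := abs_nonneg (D.P x).χd
  nlinarith

/-- On all of the punctured ball `|al|, |ze| ≤ 10`. -/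
lemma abs_al_le {x : EE} (hx : x ≠ 0) (h1 : ‖x‖ ≤ 1) : |(D.P x).al| ≤ 10 * (1 + |chid (tm x)|) := by
  have h2 := D.bg_al hx
  have h3 : (D.P x).χd = chid (tm x) := rfl
  rw [h3] at h2
  have h4 := abs_nonneg (chid (tm x))
  linarith

lemma abs_ze_le {x : EE} (hx : x ≠ 0) (h1 : ‖x‖ ≤ 1) : |(D.P x).ze| ≤ 10 * (1 + |chid (tm x)|) := by
  have h2 := D.bg_al hx
  have h3 : (D.P x).χd = chid (tm x) := rfl
  rw [h3] at h2
  have h4 := abs_nonneg (chid (tm x))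
  have h5 : 0 ≤ (D.P x).χ := chi_nonneg _
  have h6 : (D.P x).χ ≤ 1 := chi_le_one _
  have h7 := abs_le.mp (D.bg_eta hx)
  have h8 : (D.P x).ze = ((1 - (D.P x).χ) - (D.P x).χ * (D.P x).al) / (1 + (D.P x).eta) := by
    unfold Pt.ze Pt.al
    rw [mul_div_assoc]
  rw [h8, abs_div, abs_of_pos (by linarith [h7.1] : 0 < 1 + (D.P x).eta),
    div_le_iff₀ (by linarith [h7.1])]
  have h9 : |(1 - (D.P x).χ) - (D.P x).χ * (D.P x).al| ≤ 1 + (208 / 100 + |chid (tm x)| / 50) := by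
    calc |(1 - (D.P x).χ) - (D.P x).χ * (D.P x).al|
        ≤ |1 - (D.P x).χ| + |(D.P x).χ * (D.P x).al| := abs_sub _ _
      _ = (1 - (D.P x).χ) + (D.P x).χ * |(D.P x).al| := by
          rw [abs_mul, abs_of_nonneg (by linarith : 0 ≤ 1 - (D.P x).χ), abs_of_nonneg h5]
      _ ≤ 1 + 1 * |(D.P x).al| := by
          gcongr
          linarith
      _ ≤ 1 + (208 / 100 + |chid (tm x)| / 50) := by linarith
  have h10 : (10 * (1 + |chid (tm x)|)) * (99 / 100) ≤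
      (10 * (1 + |chid (tm x)|)) * (1 + (D.P x).eta) := by
    apply mul_le_mul_of_nonneg_left _ (by positivity)
    linarith [h7.1]
  linarith

lemma norm_J_le {x : EE} (hx : x ≠ 0) : ‖(D.P x).J‖ ≤ 1 / 10 := by
  rw [EuclideanSpace.norm_eq]
  apply Real.sqrt_le_iff.mpr
  refine ⟨by norm_num, ?_⟩
  calc ∑ i, ‖(D.P x).J i‖ ^ 2 ≤ ∑ _i : Fin 5, (1 / 100 : ℝ) ^ 2 := by
        apply Finset.sum_le_sum
        intro i _
        have h1 : |(D.J i).fn x| ≤ 1 / 100 := (WA.abs_fn_le (D.J i) hx).trans (D.J_small i)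
        have h2 : (D.P x).J i = (D.J i).fn x := rfl
        rw [h2, Real.norm_eq_abs]
        gcongr
    _ ≤ (1 / 10) ^ 2 := by norm_num

end AData

end
end OD16
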