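import Pool.Agent.LibOD16.Harm0

set_option autoImplicit false
namespace OD16
open MvPolynomial MeasureTheory Metric
noncomputable section

/-- TASK BPolar.  Polar coordinates in `ℝ⁵`
(`Measure.measurePreserving_homeomorphUnitSphereProd`, `Measure.volumeIoiPow`). -/
lemma integral_ball_polar (G : E5 → ℝ) (hG : IntegrableOn G (ball (0 : E5) 1)) :
    ∫ x in ball (0 : E5) 1, G x =
      ∫ r in Set.Ioo (0 : ℝ) 1, r ^ 4 * ∫ θ : S4, G (r • θ.1) ∂μS := by
  set G1 : E5 → ℝ := (ball (0 : E5) 1).indicator G with hG1def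
  have hG1 : Integrable G1 := (integrable_indicator_iff measurableSet_ball).mpr hG
  have e1 : ∫ x in ball (0 : E5) 1, G x = ∫ x, G1 x :=
    (integral_indicator measurableSet_ball).symm
  have e2 : ∫ x, G1 x = ∫ x : ({(0)}ᶜ : Set E5), G1 x.1 ∂((volume : Measure E5).comap (↑)) := by
    rw [integral_subtype_comap (measurableSet_singleton _).compl G1, restrict_compl_singleton]
  have hdim : Module.finrank ℝ E5 - 1 = 4 := by simp
  have hmp := (volume : Measure E5).measurePreserving_homeomorphUnitSphereProd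
  rw [hdim] at hmp
  let g : S4 × Set.Ioi (0 : ℝ) → ℝ := fun p => G1 (p.2.1 • p.1.1)
  have hcomp : g ∘ (homeomorphUnitSphereProd E5) = fun x : ({(0)}ᶜ : Set E5) => G1 x.1 := by
    funext x
    have hx : ‖x.1‖ ≠ 0 := norm_ne_zero_iff.mpr x.2
    simp only [Function.comp, g, homeomorphUnitSphereProd_apply_fst_coe,
      homeomorphUnitSphereProd_apply_snd_coe]
    rw [smul_smul, mul_inv_cancel₀ hx, one_smul]
  have e3 : ∫ x : ({(0)}ᶜ : Set E5), G1 x.1 ∂((volume : Measure E5).comap (↑)) =
      ∫ p, g p ∂(μS.prod (Measure.volumeIoiPow 4)) := by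
    have := hmp.integral_comp (Homeomorph.measurableEmbedding _) g
    rw [← hcomp]
    exact this
  have hint : Integrable g (μS.prod (Measure.volumeIoiPow 4)) := by
    have h1 := hmp.integrable_comp_emb (Homeomorph.measurableEmbedding _) (g := g)
    have h2 : Integrable (g ∘ (homeomorphUnitSphereProd E5))
        ((volume : Measure E5).comap (Subtype.val : ({(0)}ᶜ : Set E5) → E5)) := by
      rw [hcomp]
      have h3 : IntegrableOn G1 ({(0)}ᶜ : Set E5) := hG1.integrableOn
      exact (integrableOn_iff_comap_subtypeVal (measurableSet_singleton _).compl).mp h3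
    exact h1.mp h2
  rw [e1, e2, e3, integral_prod_symm _ hint]
  let k : ℝ → ℝ := fun r => ∫ θ : S4, G1 (r • θ.1) ∂μS
  have e4 : ∫ y : Set.Ioi (0 : ℝ), ∫ x : S4, g (x, y) ∂μS ∂(Measure.volumeIoiPow 4) =
      ∫ y : Set.Ioi (0 : ℝ), k y.1 ∂(Measure.volumeIoiPow 4) := rfl
  rw [e4]
  have e5 : ∫ y : Set.Ioi (0 : ℝ), k y.1 ∂(Measure.volumeIoiPow 4) =
      ∫ r in Set.Ioi (0 : ℝ), r ^ 4 * k r := by
    simp only [Measure.volumeIoiPow, ENNReal.ofReal]
    rw [integral_withDensity_eq_integral_smul,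
      integral_subtype_comap measurableSet_Ioi fun a ↦ Real.toNNReal (a ^ 4) • k a]
    · apply setIntegral_congr_fun measurableSet_Ioi
      intro x hx
      show (Real.toNNReal (x ^ 4)) • k x = x ^ 4 * k x
      rw [NNReal.smul_def, Real.coe_toNNReal _ (pow_nonneg (le_of_lt hx) _), smul_eq_mul]
    · exact (measurable_subtype_coe.pow_const _).real_toNNReal
  rw [e5]
  have hk0 : ∀ r : ℝ, 1 ≤ r → k r = 0 := by
    intro r hr
    have : ∀ θ : S4, G1 (r • θ.1) = 0 := by
      intro θ
      apply Set.indicator_of_notMem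
      rw [mem_ball_zero_iff, norm_smul, norm_eq_of_mem_sphere, mul_one, Real.norm_eq_abs,
        abs_of_nonneg (by linarith)]
      linarith
    simp [k, this]
  have hk1 : ∀ r : ℝ, 0 < r → r < 1 → k r = ∫ θ : S4, G (r • θ.1) ∂μS := by
    intro r hr0 hr1
    have : ∀ θ : S4, G1 (r • θ.1) = G (r • θ.1) := by
      intro θ
      apply Set.indicator_of_mem
      rw [mem_ball_zero_iff, norm_smul, norm_eq_of_mem_sphere, mul_one, Real.norm_eq_abs,
        abs_of_pos hr0]
      exact hr1
    simp [k, this]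
  have e6 : ∫ r in Set.Ioi (0 : ℝ), r ^ 4 * k r = ∫ r in Set.Ioo (0 : ℝ) 1, r ^ 4 * k r := by
    apply setIntegral_eq_of_subset_of_forall_sdiff_eq_zero measurableSet_Ioi
    · exact fun x hx => hx.1
    · intro x hx
      have h1 : 1 ≤ x := by
        by_contra h
        exact hx.2 ⟨hx.1, not_le.mp h⟩
      rw [hk0 x h1, mul_zero]
  rw [e6]
  apply setIntegral_congr_fun measurableSet_Ioo
  intro x hx
  show x ^ 4 * k x = x ^ 4 * _
  rw [hk1 x hx.1 hx.2]

end
end OD16
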