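import Pool.Agent.LibOD16.BB5
import Pool.Agent.LibOD16.BPolar
import Pool.Agent.LibOD16.BGood

set_option autoImplicit false
namespace OD16
open MvPolynomial MeasureTheory Metric
open scoped BoundedContinuousFunction
noncomputable section

namespace AData

variable {h δ : ℝ} (D : AData h δ)

/-- `b`, `Q`, `R` as functions of `x` (`b_ev`, `Q_ev`, `R_ev`). -/
lemma b_fn {x : EE} (hx : x ≠ 0) : (D.P x).b = D.b.fn x :=
  (D.b_ev (tm x) ⟨dir x, dir_mem hx⟩).symm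

lemma Q_fn {x : EE} (hx : x ≠ 0) (i : Fin 5) : (D.P x).Q i = (D.Q i).fn x :=
  (D.Q_ev (tm x) ⟨dir x, dir_mem hx⟩ i).symm

lemma R_fn {x : EE} (hx : x ≠ 0) : (D.P x).R = D.R.fn x :=
  (D.R_ev (tm x) ⟨dir x, dir_mem hx⟩).symm

/-- The integrand in terms of functions of `x`. -/
lemma integrand_BWk (φ : EE → ℝ) {x : EE} (hx : x ≠ 0) :
    fderiv ℝ φ x (‖x‖ • ((D.P x).b • (D.P x).θ + (D.P x).Q)) - (D.P x).R * φ x =
      fderiv ℝ φ x (‖x‖ • (D.b.fn x • dir x + WithLp.toLp 2 (fun i => (D.Q i).fn x))) -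
        D.R.fn x * φ x := by
  rw [D.b_fn hx, D.R_fn hx]
  have h1 : (D.P x).Q = WithLp.toLp 2 (fun i => (D.Q i).fn x) := by
    ext i
    exact D.Q_fn hx i
  rw [h1]
  rfl

lemma continuousOn_Qv_BWk :
    ContinuousOn (fun x : EE => (WithLp.toLp 2 (fun i => (D.Q i).fn x) : EE)) {0}ᶜ := by
  have h1 : ContinuousOn (fun x : EE => (fun i => (D.Q i).fn x : Fin 5 → ℝ)) {0}ᶜ :=
    continuousOn_pi.mpr fun i => WA.continuousOn_fn (D.Q i)
  exact (PiLp.continuous_toLp 2 (fun _ : Fin 5 => ℝ)).comp_continuousOn h1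

lemma continuousOn_G_BWk (φ : EE → ℝ) (hφ : ContDiff ℝ 1 φ) :
    ContinuousOn (fun x : EE =>
      fderiv ℝ φ x (‖x‖ • ((D.P x).b • (D.P x).θ + (D.P x).Q)) - (D.P x).R * φ x) {0}ᶜ := by
  have h0 : ContinuousOn (fun x : EE =>
      fderiv ℝ φ x (‖x‖ • (D.b.fn x • dir x + WithLp.toLp 2 (fun i => (D.Q i).fn x))) -
        D.R.fn x * φ x) {0}ᶜ := by
    have h1 : ContinuousOn (fun x : EE => fderiv ℝ φ x) {0}ᶜ :=
      (hφ.continuous_fderiv one_ne_zero).continuousOn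
    have h2 := WA.continuousOn_fn D.b
    have h3 := WA.continuousOn_fn D.R
    have h4 := D.continuousOn_Qv_BWk
    have h5 := continuousOn_dir
    have h6 : ContinuousOn (fun x : EE => ‖x‖) {0}ᶜ := continuous_norm.continuousOn
    have h7 : ContinuousOn φ {0}ᶜ := hφ.continuous.continuousOn
    exact (h1.clm_apply (h6.smul ((h2.smul h5).add h4))).sub (h3.mul h7)
  apply h0.congr
  intro x hx
  exact D.integrand_BWk φ hx

lemma norm_Qv_BWk {x : EE} (hx : x ≠ 0) :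
    ‖(WithLp.toLp 2 (fun i => (D.Q i).fn x) : EE)‖ ≤ ∑ i, ‖D.Q i‖ := by
  have h1 : (WithLp.toLp 2 (fun i => (D.Q i).fn x) : EE) =
      ∑ i, (D.Q i).fn x • EuclideanSpace.single i (1 : ℝ) := by
    ext j
    simp [Finset.sum_apply, Pi.single_apply]
  rw [h1]
  refine (norm_sum_le _ _).trans ?_
  apply Finset.sum_le_sum
  intro i _
  rw [norm_smul, PiLp.norm_single, norm_one, mul_one, Real.norm_eq_abs]
  exact WA.abs_fn_le (D.Q i) hx

lemma integrableOn_G_BWk (φ : EE → ℝ) (hφ : ContDiff ℝ 1 φ) (hs : HasCompactSupport φ) :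
    IntegrableOn (fun x : EE =>
      fderiv ℝ φ x (‖x‖ • ((D.P x).b • (D.P x).θ + (D.P x).Q)) - (D.P x).R * φ x)
      (ball (0 : EE) 1) := by
  have hae : (ball (0 : EE) 1 : Set EE) =ᵐ[volume] (ball (0 : EE) 1 ∩ ({0}ᶜ : Set EE) : Set EE) := by
    rw [← Set.sdiff_eq]
    exact (sdiff_null_ae_eq_self (measure_singleton (0 : EE))).symm
  refine IntegrableOn.congr_set_ae ?_ hae
  have hmeas : MeasurableSet (ball (0 : EE) 1 ∩ ({0}ᶜ : Set EE)) :=
    measurableSet_ball.inter (measurableSet_singleton _).compl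
  obtain ⟨C1, hC1⟩ : ∃ C, ∀ x, ‖fderiv ℝ φ x‖ ≤ C :=
    (hs.fderiv ℝ).exists_bound_of_continuous (hφ.continuous_fderiv one_ne_zero)
  obtain ⟨C2, hC2⟩ : ∃ C, ∀ x, ‖φ x‖ ≤ C := hs.exists_bound_of_continuous hφ.continuous
  have hC1' : 0 ≤ C1 := (norm_nonneg _).trans (hC1 0)
  have hC2' : 0 ≤ C2 := (norm_nonneg _).trans (hC2 0)
  haveI : IsFiniteMeasure ((volume : Measure EE).restrict (ball (0 : EE) 1 ∩ ({0}ᶜ : Set EE))) := by
    constructor
    rw [Measure.restrict_apply_univ]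
    exact (measure_mono Set.inter_subset_left).trans_lt measure_ball_lt_top
  apply Integrable.of_bound (C := C1 * (‖D.b‖ + ∑ i, ‖D.Q i‖) + ‖D.R‖ * C2)
  · exact ((D.continuousOn_G_BWk φ hφ).mono Set.inter_subset_right).aestronglyMeasurable hmeas
  · filter_upwards [ae_restrict_mem hmeas] with x hx
    have hx0 : x ≠ 0 := hx.2
    have hx1 : ‖x‖ ≤ 1 := (mem_ball_zero_iff.mp hx.1).le
    rw [D.integrand_BWk φ hx0]
    refine (norm_sub_le _ _).trans (add_le_add ?_ ?_)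
    · refine (ContinuousLinearMap.le_opNorm _ _).trans ?_
      apply mul_le_mul (hC1 x) _ (norm_nonneg _) hC1'
      rw [norm_smul, norm_norm]
      have h1 : ‖D.b.fn x • dir x + WithLp.toLp 2 (fun i => (D.Q i).fn x)‖ ≤
          ‖D.b‖ + ∑ i, ‖D.Q i‖ := by
        refine (norm_add_le _ _).trans (add_le_add ?_ (D.norm_Qv_BWk hx0))
        rw [norm_smul, norm_dir hx0, mul_one, Real.norm_eq_abs]
        exact WA.abs_fn_le D.b hx0
      calc ‖x‖ * ‖D.b.fn x • dir x + WithLp.toLp 2 (fun i => (D.Q i).fn x)‖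
          ≤ 1 * (‖D.b‖ + ∑ i, ‖D.Q i‖) :=
            mul_le_mul hx1 h1 (norm_nonneg _) zero_le_one
        _ = _ := one_mul _
    · rw [norm_mul, Real.norm_eq_abs]
      exact mul_le_mul (WA.abs_fn_le D.R hx0) (hC2 x) (norm_nonneg _) (norm_nonneg _)

lemma G_polar_BWk (φ : EE → ℝ) {r : ℝ} (h0 : 0 < r) (θ : S4) :
    fderiv ℝ φ (r • θ.1) (‖r • θ.1‖ • ((D.P (r • θ.1)).b • (D.P (r • θ.1)).θ +
      (D.P (r • θ.1)).Q)) - (D.P (r • θ.1)).R * φ (r • θ.1) = D.IG φ r θ.1 := by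
  have hn : ‖r • θ.1‖ = r := by
    rw [norm_smul, norm_eq_of_mem_sphere, mul_one, Real.norm_eq_abs, abs_of_pos h0]
  have hne : r • θ.1 ≠ 0 := by
    rw [← norm_ne_zero_iff, hn]
    exact h0.ne'
  rw [D.integrand_BWk φ hne]
  have hdir : dir (r • θ.1) = θ.1 := by
    unfold dir
    rw [hn, smul_smul, inv_mul_cancel₀ h0.ne', one_smul]
  have htm : tm (r • θ.1) = tr r := by
    unfold tm tr
    simp only [hn]
  have hfn : ∀ F : WA, F.fn (r • θ.1) = F.ev (tr r) θ.1 := by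
    intro F
    unfold WA.fn
    rw [hdir, htm]
  rw [hdir, hn]
  simp only [hfn]
  unfold IG
  have h2 : (WithLp.toLp 2 (fun i => (D.Q i).ev (tr r) θ.1) : EE) =
      ∑ i, (D.Q i).ev (tr r) θ.1 • EuclideanSpace.single i (1 : ℝ) := by
    ext j
    simp [Finset.sum_apply, Pi.single_apply]
  rw [h2]
  simp only [map_smul, map_add, map_sum, smul_eq_mul, smul_add, Finset.smul_sum]
  congr 1
  congr 1
  · ring
  · apply Finset.sum_congr rfl
    intro i _
    ring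

/-- TASK BWk.  The weak form of the pulled-back equation on the ball. -/
theorem weak_ball (φ : EE → ℝ) (hφ : ContDiff ℝ 1 φ) (hs : HasCompactSupport φ)
    (hb : tsupport φ ⊆ ball (0 : EE) 1) :
    ∫ x in ball (0 : EE) 1,
      (fderiv ℝ φ x (‖x‖ • ((D.P x).b • (D.P x).θ + (D.P x).Q)) - (D.P x).R * φ x) = 0 := by
  rw [integral_ball_polar _ (D.integrableOn_G_BWk φ hφ hs)]
  refine Eq.trans ?_ (D.integral_IG φ hφ hs hb)
  apply setIntegral_congr_fun measurableSet_Ioo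
  intro r hr
  show r ^ 4 * _ = r ^ 4 * _
  congr 1
  apply integral_congr_ae
  filter_upwards with θ
  exact D.G_polar_BWk φ hr.1 θ

end AData

end
end OD16
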