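import Pool.Agent.LibOD16.AD0

set_option autoImplicit false
namespace OD16
open MvPolynomial MeasureTheory Metric
noncomputable section

lemma fderiv_coord (i : Fin 5) (x v : EE) : fderiv ℝ (fun y : EE => y i) x v = v i := by
  have h : HasFDerivAt (fun y : EE => y i) (EuclideanSpace.proj i : EE →L[ℝ] ℝ) x :=
    (EuclideanSpace.proj i : EE →L[ℝ] ℝ).hasFDerivAt
  rw [h.fderiv]
  rfl

lemma integral_coord_fderiv (ψ : EE → ℝ) (hψ : ContDiff ℝ 1 ψ) (hs : HasCompactSupport ψ)
    (i : Fin 5) :
    Integrable (fun X : EE => X i * fderiv ℝ ψ X (EuclideanSpace.single i 1)) ∧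
    ∫ X : EE, X i * fderiv ℝ ψ X (EuclideanSpace.single i 1) = -∫ X : EE, ψ X := by
  have hc1 : Continuous (fun X : EE => X i) := (EuclideanSpace.proj i : EE →L[ℝ] ℝ).continuous
  have hc2 : Continuous (fun X : EE => fderiv ℝ ψ X (EuclideanSpace.single i 1)) :=
    (hψ.continuous_fderiv (by norm_num)).clm_apply continuous_const
  have hs2 : HasCompactSupport (fun X : EE => fderiv ℝ ψ X (EuclideanSpace.single i 1)) :=
    hs.fderiv_apply ℝ _
  have i1 : Integrable (fun X : EE => X i * fderiv ℝ ψ X (EuclideanSpace.single i 1)) :=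
    (hc1.mul hc2).integrable_of_hasCompactSupport hs2.mul_left
  have i2 : Integrable (fun X : EE => X i * ψ X) :=
    (hc1.mul hψ.continuous).integrable_of_hasCompactSupport hs.mul_left
  have i3 : Integrable (fun X : EE =>
      fderiv ℝ (fun y : EE => y i) X (EuclideanSpace.single i 1) * ψ X) := by
    simp only [fderiv_coord]
    have h1 : (fun X : EE => (EuclideanSpace.single i (1 : ℝ) : EE) i * ψ X) = ψ := by
      funext X
      simp
    rw [h1]
    exact hψ.continuous.integrable_of_hasCompactSupport hs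
  refine ⟨i1, ?_⟩
  have hd : Differentiable ℝ (fun y : EE => y i) :=
    (EuclideanSpace.proj i : EE →L[ℝ] ℝ).differentiable
  have h := integral_mul_fderiv_eq_neg_fderiv_mul_of_integrable (μ := (volume : Measure EE))
    (f := fun y : EE => y i) (g := ψ) (v := EuclideanSpace.single i 1) i3 i1 i2
    (fun x _ => hd x) (fun x _ => (hψ.differentiable (by norm_num)) x)
  rw [h]
  congr 1
  congr 1
  funext X
  rw [fderiv_coord]
  simp

lemma fderiv_self_eq (ψ : EE → ℝ) (X : EE) :
    fderiv ℝ ψ X X = ∑ i : Fin 5, X i * fderiv ℝ ψ X (EuclideanSpace.single i 1) := by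
  have h1 : X = ∑ j : Fin 5, X j • EuclideanSpace.single j (1 : ℝ) := by
    ext k
    simp [Finset.sum_apply, Pi.single_apply]
  have h2 : fderiv ℝ ψ X X = fderiv ℝ ψ X (∑ j : Fin 5, X j • EuclideanSpace.single j (1 : ℝ)) :=
    congrArg (fderiv ℝ ψ X) h1
  rw [h2, map_sum]
  apply Finset.sum_congr rfl
  intro i _
  rw [map_smul, smul_eq_mul]

/-- TASK BXg.  `∫ X · ∇ψ = -5 ∫ ψ` (integration by parts in each coordinate). -/
lemma integral_fderiv_self (ψ : EE → ℝ) (hψ : ContDiff ℝ 1 ψ) (hs : HasCompactSupport ψ) :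
    ∫ X, fderiv ℝ ψ X X = -(5 * ∫ X, ψ X) := by
  simp only [fderiv_self_eq]
  rw [integral_finsetSum]
  · rw [Finset.sum_congr rfl (fun i _ => (integral_coord_fderiv ψ hψ hs i).2)]
    simp
  · intro i _
    exact (integral_coord_fderiv ψ hψ hs i).1

end
end OD16
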