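import Pool.Agent.LibOD16.BCv1
import Pool.Agent.LibOD16.BWk
import Pool.Agent.LibOD16.BXg

set_option autoImplicit false
namespace OD16
open MvPolynomial MeasureTheory Metric
noncomputable section

namespace AData

variable {h δ : ℝ} (D : AData h δ)

/-- TASK BCv.  The weak equation in `dom`: write `-5 W ψ = ψ'(X) - 5 (W - 1) ψ - (ψ'(X) + 5 ψ)` and use
`integral_fderiv_self`; change of variables
(`integral_image_eq_integral_abs_det_fderiv_smul` on `ball 0 1 \ {0}`), `integrand_eq`,
`weak_ball`. -/
theorem weak_dom (ψ : EE → ℝ) (hψ : ContDiff ℝ 1 ψ) (hs : HasCompactSupport ψ)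
    (hd : tsupport ψ ⊆ D.dom) :
    ∫ X in D.dom, (WR h δ X * Real.sqrt (gsq h X (D.gF X)) ^ (-δ) *
      fderiv ℝ ψ X (GR h X (D.gF X)) - 5 * WR h δ X * ψ X) = 0 := by
  obtain ⟨φ, hφ, hφs, hφb, h1, h2⟩ := D.exists_pullback ψ hψ hs hd
  -- the two parts
  let H : EE → ℝ := fun X => fderiv ℝ ψ X
        ((WR h δ X * Real.sqrt (gsq h X (D.gF X)) ^ (-δ)) •
          GR h X (D.gF X) + X) - 5 * (WR h δ X - 1) * ψ X
  let T : EE → ℝ := fun X => fderiv ℝ ψ X X + 5 * ψ X
  let G : EE → ℝ := fun x =>
    fderiv ℝ φ x (‖x‖ • ((D.P x).b • (D.P x).θ + (D.P x).Q)) - (D.P x).R * φ x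
  have hsplit : ∀ X, (WR h δ X * Real.sqrt (gsq h X (D.gF X)) ^ (-δ) *
      fderiv ℝ ψ X (GR h X (D.gF X)) - 5 * WR h δ X * ψ X) = H X - T X := by
    intro X
    simp only [H, T, map_add, map_smul, smul_eq_mul]
    ring
  -- the set
  set s : Set EE := ball (0 : EE) 1 \ {0} with hsdef
  have hsm : MeasurableSet s := measurableSet_ball.diff (measurableSet_singleton 0)
  have hsinj : Set.InjOn D.Ph s :=
    D.injOn_Ph.mono (fun x hx => ball_subset_closedBall hx.1)
  have hsder : ∀ x ∈ s, HasFDerivWithinAt D.Ph ((D.P x).A) s x := by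
    intro x hx
    exact (D.hasFDerivAt_Ph hx.2 (mem_ball_zero_iff.mp hx.1)).hasFDerivWithinAt
  have hae : (D.dom : Set EE) =ᵐ[volume] (D.Ph '' s : Set EE) := by
    have h3 : D.Ph '' s ⊆ D.dom := Set.image_mono Set.sdiff_subset
    have h4 : D.dom \ (D.Ph '' s) ⊆ {D.Ph 0} := by
      rintro X ⟨⟨x, hx, rfl⟩, hX⟩
      by_cases hx0 : x = 0
      · rw [hx0]
        rfl
      · exact absurd ⟨x, ⟨hx, hx0⟩, rfl⟩ hX
    have h5 : (volume : Measure EE) (D.dom \ (D.Ph '' s)) = 0 :=
      measure_mono_null h4 (measure_singleton _)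
    have h6 : (D.dom \ (D.dom \ (D.Ph '' s)) : Set EE) =ᵐ[volume] (D.dom : Set EE) :=
      sdiff_null_ae_eq_self h5
    rw [Set.sdiff_sdiff_cancel_left h3] at h6
    exact h6.symm
  have hsball : (ball (0 : EE) 1 : Set EE) =ᵐ[volume] (s : Set EE) :=
    (sdiff_null_ae_eq_self (measure_singleton (0 : EE))).symm
  have hGeq : ∀ x ∈ s, |(D.P x).A.det| • H (D.Ph x) = G x := by
    intro x hx
    rw [smul_eq_mul]
    exact D.integrand_eq ψ φ h1 h2 hx.1 hx.2
  have hGint : IntegrableOn G (ball (0 : EE) 1) := D.integrableOn_G_BWk φ hφ hφs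
  have hHint : IntegrableOn H D.dom := by
    refine IntegrableOn.congr_set_ae ?_ hae
    rw [integrableOn_image_iff_integrableOn_abs_det_fderiv_smul volume hsm hsder hsinj]
    have h3 : IntegrableOn G s := hGint.mono_set Set.sdiff_subset
    exact h3.congr_fun (fun x hx => (hGeq x hx).symm) hsm
  have hTint : Integrable T := by
    have h3 : Continuous T := by
      have h4 : Continuous (fun X => fderiv ℝ ψ X) := hψ.continuous_fderiv one_ne_zero
      exact (h4.clm_apply continuous_id).add (continuous_const.mul hψ.continuous)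
    apply h3.integrable_of_hasCompactSupport
    apply HasCompactSupport.add
    · apply (hs.fderiv ℝ).mono
      intro X hX
      rw [Function.mem_support] at hX ⊢
      intro h4
      apply hX
      rw [h4]
      rfl
    · exact hs.mul_left
  have hT0 : ∫ X in D.dom, T X = 0 := by
    rw [setIntegral_eq_integral_of_forall_compl_eq_zero]
    · have h3 := integral_fderiv_self ψ hψ hs
      have hi1 : Integrable (fun X => fderiv ℝ ψ X X) := by
        have h4 : Continuous (fun X => fderiv ℝ ψ X X) :=
          (hψ.continuous_fderiv one_ne_zero).clm_apply continuous_id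
        apply h4.integrable_of_hasCompactSupport
        apply (hs.fderiv ℝ).mono
        intro X hX
        rw [Function.mem_support] at hX ⊢
        intro h4
        apply hX
        rw [h4]
        rfl
      have hi2 : Integrable (fun X => 5 * ψ X) :=
        (hψ.continuous.integrable_of_hasCompactSupport hs).const_mul 5
      show ∫ X, (fderiv ℝ ψ X X + 5 * ψ X) = 0
      rw [integral_add hi1 hi2, h3, integral_const_mul]
      ring
    · intro X hX
      have hX1 : X ∉ tsupport ψ := fun hc => hX (hd hc)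
      have h3 : ψ X = 0 := image_eq_zero_of_notMem_tsupport hX1
      have h4 : fderiv ℝ ψ X = 0 := by
        by_contra hcon
        exact hX1 (support_fderiv_subset ℝ hcon)
      show fderiv ℝ ψ X X + 5 * ψ X = 0
      rw [h3, h4]
      simp
  have hH0 : ∫ X in D.dom, H X = 0 := by
    rw [setIntegral_congr_set hae,
      integral_image_eq_integral_abs_det_fderiv_smul volume hsm hsder hsinj,
      setIntegral_congr_fun hsm hGeq, ← setIntegral_congr_set hsball]
    exact D.weak_ball φ hφ hφs hφb
  simp_rw [hsplit]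
  rw [integral_sub hHint hTint.integrableOn, hH0, hT0, sub_zero]

end AData

end
end OD16
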