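import Pool.Agent.LibOD16.BF

set_option autoImplicit false
namespace OD16
open MvPolynomial MeasureTheory Metric
noncomputable section

namespace AData

variable {h δ : ℝ} (D : AData h δ)

/-- TASK BCv1.  Pull-back of test functions: `φ = ψ ∘ Φ` in the ball, `0` outside. -/
lemma exists_pullback (ψ : EE → ℝ) (hψ : ContDiff ℝ 1 ψ) (hs : HasCompactSupport ψ)
    (hd : tsupport ψ ⊆ D.dom) : ∃ φ : EE → ℝ, ContDiff ℝ 1 φ ∧ HasCompactSupport φ ∧
      tsupport φ ⊆ ball (0 : EE) 1 ∧ (∀ x ∈ ball (0 : EE) 1, φ x = ψ (D.Ph x)) ∧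
      ∀ x ∈ ball (0 : EE) 1, x ≠ 0 → fderiv ℝ φ x = (fderiv ℝ ψ (D.Ph x)).comp (D.P x).A := by
  classical
  set φ : EE → ℝ := (ball (0 : EE) 1).indicator (fun x => ψ (D.Ph x)) with hφdef
  set K : Set EE := D.Ps '' tsupport ψ with hKdef
  have hK : IsCompact K := hs.isCompact.image_of_continuousOn (D.continuousOn_Ps.mono hd)
  have hKb : K ⊆ ball (0 : EE) 1 := by
    rintro _ ⟨X, hX, rfl⟩
    exact D.Ps_mem (hd hX)
  have hsupp : Function.support φ ⊆ K := by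
    intro x hx
    have hxb : x ∈ ball (0 : EE) 1 := by
      by_contra hcon
      exact hx (Set.indicator_of_notMem hcon _)
    have h1 : φ x = ψ (D.Ph x) := Set.indicator_of_mem hxb _
    have h2 : ψ (D.Ph x) ≠ 0 := by
      rw [← h1]
      exact hx
    exact ⟨D.Ph x, subset_tsupport ψ h2, D.Ps_Ph hxb⟩
  have htsupp : tsupport φ ⊆ K := closure_minimal hsupp hK.isClosed
  have hev : ∀ x ∈ ball (0 : EE) 1, φ =ᶠ[nhds x] fun y => ψ (D.Ph y) := by
    intro x hx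
    filter_upwards [isOpen_ball.mem_nhds hx] with y hy
    exact Set.indicator_of_mem hy _
  refine ⟨φ, ?_, ?_, htsupp.trans hKb, ?_, ?_⟩
  · rw [contDiff_iff_contDiffAt]
    intro x
    by_cases hx : x ∈ ball (0 : EE) 1
    · apply ContDiffAt.congr_of_eventuallyEq _ (hev x hx)
      exact hψ.contDiffAt.comp x (D.contDiffOn_Ph.contDiffAt (isOpen_ball.mem_nhds hx))
    · have hxK : x ∉ K := fun hc => hx (hKb hc)
      have h1 : φ =ᶠ[nhds x] fun _ => (0 : ℝ) := by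
        filter_upwards [hK.isClosed.isOpen_compl.mem_nhds hxK] with y hy
        by_contra hcon
        exact hy (hsupp hcon)
      exact contDiffAt_const.congr_of_eventuallyEq h1
  · exact hK.of_isClosed_subset (isClosed_tsupport φ) htsupp
  · intro x hx
    exact Set.indicator_of_mem hx _
  · intro x hx hx0
    rw [(hev x hx).fderiv_eq]
    have h1 : HasFDerivAt D.Ph (D.P x).A x := D.hasFDerivAt_Ph hx0 (mem_ball_zero_iff.mp hx)
    have h2 : HasFDerivAt ψ (fderiv ℝ ψ (D.Ph x)) (D.Ph x) :=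
      (hψ.differentiable one_ne_zero _).hasFDerivAt
    exact (h2.comp x h1).fderiv

/-- The integrand of the reduced problem at `Φ(x)` times the Jacobian (`Pt.A_flux`, `P_xi`). -/
lemma integrand_eq (ψ φ : EE → ℝ)
    (h1 : ∀ x ∈ ball (0 : EE) 1, φ x = ψ (D.Ph x))
    (h2 : ∀ x ∈ ball (0 : EE) 1, x ≠ 0 → fderiv ℝ φ x = (fderiv ℝ ψ (D.Ph x)).comp (D.P x).A)
    {x : EE} (hx : x ∈ ball (0 : EE) 1) (hx0 : x ≠ 0) :
    |(D.P x).A.det| * (fderiv ℝ ψ (D.Ph x)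
        ((WR h δ (D.Ph x) * Real.sqrt (gsq h (D.Ph x) (D.gF (D.Ph x))) ^ (-δ)) •
          GR h (D.Ph x) (D.gF (D.Ph x)) + D.Ph x) - 5 * (WR h δ (D.Ph x) - 1) * ψ (D.Ph x)) =
      fderiv ℝ φ x (‖x‖ • ((D.P x).b • (D.P x).θ + (D.P x).Q)) - (D.P x).R * φ x := by
  have hx1 : ‖x‖ ≤ 1 := (mem_ball_zero_iff.mp hx).le
  have hg := D.good hx0 hx1
  have hr := D.P_r hx0 hx1
  have hxi := D.P_xi hx0 hx1
  have hgF : D.gF (D.Ph x) =
      (D.P x).r ^ (D.P x).q • ((D.P x).al • (D.P x).θ + (D.P x).ze • (D.P x).J) := by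
    unfold gF
    rw [D.Ps_Ph hx, hr]
    rfl
  have hdet : |(D.P x).A.det| = (1 + (D.P x).eta) ^ 4 * (D.P x).m := by
    rw [Pt.det_A _ hg]
    apply abs_of_nonneg
    have := hg.hm
    have h4 : 0 ≤ (1 + (D.P x).eta) ^ 4 := by positivity
    nlinarith
  have hflux := Pt.A_flux (D.P x) hg
  have hW : (D.P x).W = WR h δ (D.Ph x) := by
    unfold Pt.W
    rw [hxi]
    rfl
  have hR : (D.P x).R = 5 * (1 + (D.P x).eta) ^ 4 * (D.P x).m * (WR h δ (D.Ph x) - 1) := by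
    unfold Pt.R
    rw [hW]
  rw [hdet, h2 x hx hx0, h1 x hx, hR, ContinuousLinearMap.comp_apply, ← hr, hflux, hxi, hW, hgF]
  rw [map_smul, smul_eq_mul]
  show _ = (1 + (D.P x).eta) ^ 4 * (D.P x).m * (fderiv ℝ ψ (D.Ph x))
        ((WR h δ (D.Ph x) * Real.sqrt (gsq h (D.Ph x) _) ^ (-δ)) • GR h (D.Ph x) _ + D.Ph x) - _
  ring

end AData

end
end OD16
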