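import Pool.Agent.LibOD16.BDer2

set_option autoImplicit false
namespace OD16
open MvPolynomial MeasureTheory Metric
open scoped BoundedContinuousFunction
noncomputable section

namespace AData

variable {h δ : ℝ} (D : AData h δ)

/-- The gradient vector of one term. -/
def gterm (l : ℕ) (y : EE) : EE :=
  ‖y‖⁻¹ • (((D.j1.c l (tm y)).ev (dir y)) • dir y +
    WithLp.toLp 2 (fun i => DV i (D.j0.c l (tm y)) (dir y)))

lemma norm_toLp_le (v : Fin 5 → ℝ) : ‖(WithLp.toLp 2 v : EE)‖ ≤ ∑ i, |v i| := by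
  have h1 : (WithLp.toLp 2 v : EE) = ∑ i, v i • (EuclideanSpace.single i (1 : ℝ) : EE) := by
    ext j
    simp [Pi.single_apply]
  rw [h1]
  refine (norm_sum_le _ _).trans ?_
  apply Finset.sum_le_sum
  intro i _
  rw [norm_smul, EuclideanSpace.norm_single]
  simp

lemma norm_gterm_le (l : ℕ) {y : EE} (hy : y ≠ 0) :
    ‖D.gterm l y‖ ≤ ‖y‖⁻¹ * (‖D.j1.c l‖ + 150 * ‖D.j0.c l‖) := by
  have hθ := dir_mem hy
  unfold gterm
  rw [norm_smul, norm_inv, norm_norm]
  apply mul_le_mul_of_nonneg_left _ (by positivity)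
  refine (norm_add_le _ _).trans ?_
  apply add_le_add
  · rw [norm_smul, norm_dir hy, mul_one, Real.norm_eq_abs]
    exact (V.abs_ev_le (D.j1.c l (tm y)) ⟨dir y, hθ⟩).trans ((D.j1.c l).norm_coe_le_norm _)
  · refine (norm_toLp_le _).trans ?_
    have : ∀ i : Fin 5, |DV i (D.j0.c l (tm y)) (dir y)| ≤ 30 * ‖D.j0.c l‖ := by
      intro i
      refine (abs_DV_le' (D.j0.c l (tm y)) i ⟨dir y, hθ⟩).trans ?_
      exact mul_le_mul_of_nonneg_left ((D.j0.c l).norm_coe_le_norm _) (by norm_num)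
    refine (Finset.sum_le_sum (fun i _ => this i)).trans ?_
    simp
    linarith [norm_nonneg (D.j0.c l)]

lemma hasSum_gterm {x : EE} (hx : x ≠ 0) :
    HasSum (fun l => D.gterm l x) (‖x‖⁻¹ • (D.j1.fn x • dir x + (D.P x).J)) := by
  have hθ := dir_mem hx
  unfold gterm
  apply HasSum.const_smul
  apply HasSum.add
  · apply HasSum.smul_const
    exact (D.j1.summable_ev (tm x) ⟨dir x, hθ⟩).of_norm.hasSum
  · have h1 : HasSum (fun l => fun i => DV i (D.j0.c l (tm x)) (dir x))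
        (fun i => (D.J i).ev (tm x) (dir x)) := by
      rw [Pi.hasSum]
      intro i
      rw [D.J_ev i (tm x) ⟨dir x, hθ⟩]
      exact (D.summable_DV i (tm x) ⟨dir x, hθ⟩).of_norm.hasSum
    have h2 := h1.mapL ((PiLp.continuousLinearEquiv 2 ℝ (fun _ : Fin 5 => ℝ)).symm :
      (Fin 5 → ℝ) →L[ℝ] EE)
    exact h2

/-- TASK BDer.  Differentiate the series of `j0` term by term
(`hasFDerivAt_tsum_of_isPreconnected` on a small ball around `x`, `hasFDerivAt_term`,
bounds `V.abs_ev_le`, `abs_DV_le'`). -/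
lemma hasFDerivAt_j0 {x : EE} (hx : x ≠ 0) (h1 : ‖x‖ < 1) :
    HasFDerivAt D.j0.fn (innerSL ℝ (‖x‖⁻¹ • (D.j1.fn x • dir x + (D.P x).J))) x := by
  have hn : 0 < ‖x‖ := norm_pos_iff.mpr hx
  set r : ℝ := min (‖x‖ / 2) (1 - ‖x‖) with hr
  have hr0 : 0 < r := lt_min (by linarith) (by linarith)
  have hball : ∀ y ∈ ball x r, ‖x‖ / 2 ≤ ‖y‖ ∧ ‖y‖ < 1 := by
    intro y hy
    rw [mem_ball, dist_eq_norm] at hy
    have a1 : r ≤ ‖x‖ / 2 := min_le_left _ _
    have a2 : r ≤ 1 - ‖x‖ := min_le_right _ _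
    have a3 : ‖x‖ ≤ ‖y - x‖ + ‖y‖ := by
      have := norm_sub_le y (y - x)
      rw [sub_sub_cancel] at this
      linarith
    have a4 : ‖y‖ ≤ ‖y - x‖ + ‖x‖ := by
      have := norm_add_le (y - x) x
      rwa [sub_add_cancel] at this
    constructor <;> linarith
  have hu : Summable fun l => (‖x‖ / 2)⁻¹ * (‖D.j1.c l‖ + 150 * ‖D.j0.c l‖) :=
    (D.j1.summable_norm.add (D.j0.summable_norm.mul_left 150)).mul_left _
  have hterm : ∀ (l : ℕ) (y : EE), y ∈ ball x r →
      HasFDerivAt (fun y : EE => (D.j0.c l (tm y)).ev (dir y)) (innerSL ℝ (D.gterm l y)) y := by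
    intro l y hy
    have hy' := hball y hy
    have hy0 : y ≠ 0 := by
      rw [← norm_pos_iff]; linarith
    exact hasFDerivAt_term (D.j0.c l) (D.j1.c l) (D.dj l) hy0 hy'.2
  have hb : ∀ (l : ℕ) (y : EE), y ∈ ball x r → ‖innerSL ℝ (D.gterm l y)‖ ≤
      (‖x‖ / 2)⁻¹ * (‖D.j1.c l‖ + 150 * ‖D.j0.c l‖) := by
    intro l y hy
    have hy' := hball y hy
    have hy0 : y ≠ 0 := by
      rw [← norm_pos_iff]; linarith
    rw [innerSL_apply_norm]
    refine (D.norm_gterm_le l hy0).trans ?_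
    apply mul_le_mul_of_nonneg_right _ (by positivity)
    exact inv_anti₀ (by linarith) hy'.1
  have hs : Summable fun l => (D.j0.c l (tm x)).ev (dir x) :=
    (D.j0.summable_ev (tm x) ⟨dir x, dir_mem hx⟩).of_norm
  have hmain := hasFDerivAt_tsum_of_isPreconnected hu isOpen_ball
    (convex_ball x r).isPreconnected hterm hb (mem_ball_self hr0) hs (mem_ball_self hr0)
  have e1 : (∑' l, innerSL ℝ (D.gterm l x)) =
      innerSL ℝ (‖x‖⁻¹ • (D.j1.fn x • dir x + (D.P x).J)) :=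
    ((D.hasSum_gterm hx).mapL (innerSL ℝ)).tsum_eq
  rw [e1] at hmain
  exact hmain

end AData

end
end OD16
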