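import Pool.Agent.LibOD16.HarmSup

set_option autoImplicit false
namespace OD16
open MvPolynomial MeasureTheory Metric
noncomputable section

lemma nL_nonneg (P : Pol) : 0 ≤ nL P := Real.sqrt_nonneg _

lemma abs_ev_le_aux {l : ℕ} (P : V l) (θ : S4) : |P.ev θ.1| * 2 ^ l ≤ ‖P‖ := by
  have h := sup_bound P.mem θ
  rw [V.norm_eq]
  have h1 := nL_nonneg P.pol
  have h2 : |P.ev θ.1| ≤ 3 * ((l : ℝ) + 1) ^ 2 * nL P.pol := h
  have h3 : 3 * ((l : ℝ) + 1) ^ 2 * nL P.pol * 2 ^ l ≤ wt l * nL P.pol := by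
    unfold wt
    have hl : (0 : ℝ) ≤ l := Nat.cast_nonneg l
    have h4 : 3 * ((l : ℝ) + 1) ^ 2 ≤ 48 * ((l : ℝ) + 1) ^ 3 := by
      have : (0:ℝ) ≤ ((l : ℝ) + 1) ^ 2 := by positivity
      nlinarith
    calc 3 * ((l : ℝ) + 1) ^ 2 * nL P.pol * 2 ^ l = (3 * ((l : ℝ) + 1) ^ 2) * (nL P.pol * 2 ^ l) := by
          ring
      _ ≤ (48 * ((l : ℝ) + 1) ^ 3) * (nL P.pol * 2 ^ l) := by
          apply mul_le_mul_of_nonneg_right h4
          positivity
      _ = _ := by ring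
  exact (mul_le_mul_of_nonneg_right h2 (by positivity)).trans h3

/-- TASK H08.  Consequences for the norm of `V l`. -/
lemma V.abs_ev_le {l : ℕ} (P : V l) (θ : S4) : |P.ev θ.1| ≤ ‖P‖ := by
  have h := abs_ev_le_aux P θ
  have h1 : (1 : ℝ) ≤ 2 ^ l := one_le_pow₀ (by norm_num)
  nlinarith [abs_nonneg (P.ev θ.1)]

lemma exists_dir (x : E5) : ∃ θ : S4, x = ‖x‖ • θ.1 := by
  by_cases hx : x = 0
  · refine ⟨⟨EuclideanSpace.single 0 (1:ℝ), by simp⟩, ?_⟩
    simp [hx]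
  · have hn : ‖x‖ ≠ 0 := norm_ne_zero_iff.mpr hx
    refine ⟨⟨‖x‖⁻¹ • x, by simp [norm_smul, hn]⟩, ?_⟩
    rw [smul_smul, mul_inv_cancel₀ hn, one_smul]

/-- `|P (x)| ≤ (|x| / 2) ^ l ‖P‖`. -/
lemma V.abs_ev_le' {l : ℕ} (P : V l) (x : E5) : |P.ev x| ≤ (‖x‖ / 2) ^ l * ‖P‖ := by
  obtain ⟨θ, hθ⟩ := exists_dir x
  have h1 : P.ev x = ‖x‖ ^ l * P.ev θ.1 := by
    conv_lhs => rw [hθ]
    exact pev_hom P.hom _ _
  rw [h1, abs_mul, abs_of_nonneg (by positivity : (0:ℝ) ≤ ‖x‖ ^ l), div_pow]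
  have h := abs_ev_le_aux P θ
  have h2 : (0 : ℝ) < 2 ^ l := by positivity
  have h3 : |P.ev θ.1| ≤ ‖P‖ / 2 ^ l := by
    rw [le_div_iff₀ h2]
    exact h
  calc ‖x‖ ^ l * |P.ev θ.1| ≤ ‖x‖ ^ l * (‖P‖ / 2 ^ l) := by
        apply mul_le_mul_of_nonneg_left h3
        positivity
    _ = ‖x‖ ^ l / 2 ^ l * ‖P‖ := by ring

/-- The orthogonal splitting of `θ_i P`. -/
lemma ip_up_add_dn_le (i : Fin 5) {l : ℕ} (P : V l) :
    ip (up i l P).pol (up i l P).pol + ip (dn' i l P).pol (dn' i l P).pol ≤ ip P.pol P.pol := by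
  have horth : ip (up i l P).pol (dn' i l P).pol = 0 := by
    apply ip_eq_zero (l := l + 1) (m := l - 1) (by omega) (up i l P).mem (dn' i l P).mem
  have h1 : ip (up i l P).pol (up i l P).pol + ip (dn' i l P).pol (dn' i l P).pol =
      ∫ θ : S4, (θ.1 i * P.ev θ) ^ 2 ∂μS := by
    have e1 : ∀ θ : S4, (θ.1 i * P.ev θ) ^ 2 =
        (pev (up i l P).pol θ * pev (up i l P).pol θ + pev (dn' i l P).pol θ * pev (dn' i l P).pol θ)
        + 2 * (pev (up i l P).pol θ * pev (dn' i l P).pol θ) := by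
      intro θ
      rw [ev_mul_coord' i P θ]
      unfold V.ev
      ring
    rw [integral_congr_ae (Filter.Eventually.of_forall e1)]
    have e2 : Integrable (fun θ : S4 => pev (up i l P).pol θ * pev (up i l P).pol θ +
        pev (dn' i l P).pol θ * pev (dn' i l P).pol θ) μS :=
      (integrable_pev_mul _ _).add (integrable_pev_mul _ _)
    rw [integral_add e2 ((integrable_pev_mul _ _).const_mul 2),
      integral_add (integrable_pev_mul _ _) (integrable_pev_mul _ _), integral_const_mul]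
    have h2 : ∫ θ : S4, pev (up i l P).pol θ * pev (dn' i l P).pol θ ∂μS = 0 := horth
    rw [h2]
    unfold ip
    ring
  rw [h1]
  unfold ip
  apply integral_mono_of_nonneg (Filter.Eventually.of_forall fun θ => sq_nonneg _)
    (integrable_pev_mul _ _)
  apply Filter.Eventually.of_forall
  intro θ
  show (θ.1 i * P.ev θ) ^ 2 ≤ pev P.pol θ * pev P.pol θ
  have h2 : |θ.1 i| ≤ 1 := by
    have := PiLp.norm_apply_le θ.1 i
    rw [Real.norm_eq_abs] at this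
    simpa using this
  have h3 : (θ.1 i) ^ 2 ≤ 1 := by
    rw [← sq_abs]
    nlinarith [abs_nonneg (θ.1 i)]
  have h4 : 0 ≤ (P.ev θ.1) ^ 2 := sq_nonneg _
  have h5 : (θ.1 i * P.ev θ.1) ^ 2 ≤ (P.ev θ.1) ^ 2 := by
    rw [mul_pow]
    nlinarith
  have h6 : (P.ev θ.1) ^ 2 = pev P.pol θ.1 * pev P.pol θ.1 := by
    unfold V.ev
    ring
  rw [← h6]
  exact h5

/-- `up`, `dn` are orthogonal components of `θ_i P`, hence contractions in `L²`. -/
lemma nL_up_le (i : Fin 5) {l : ℕ} (P : V l) : nL (up i l P).pol ≤ nL P.pol := by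
  unfold nL
  apply Real.sqrt_le_sqrt
  have h := ip_up_add_dn_le i P
  have h1 := ip_self_nonneg (dn' i l P).pol
  linarith

lemma nL_dn_le (i : Fin 5) {l : ℕ} (P : V (l + 1)) : nL (dn i l P).pol ≤ nL P.pol := by
  unfold nL
  apply Real.sqrt_le_sqrt
  have h := ip_up_add_dn_le i P
  have h1 := ip_self_nonneg (up i (l + 1) P).pol
  have h2 : ip (dn' i (l + 1) P).pol (dn' i (l + 1) P).pol = ip (dn i l P).pol (dn i l P).pol := rfl
  rw [h2] at h
  linarith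

lemma norm_up_le (i : Fin 5) {l : ℕ} (P : V l) : ‖up i l P‖ ≤ 16 * ‖P‖ := by
  rw [V.norm_eq, V.norm_eq]
  have h := nL_up_le i P
  have h0 := nL_nonneg P.pol
  have h1 : wt (l + 1) ≤ 16 * wt l := by
    unfold wt
    push_cast
    have hl : (0 : ℝ) ≤ l := Nat.cast_nonneg l
    have h2 : ((l : ℝ) + 1 + 1) ^ 3 ≤ (2 * ((l : ℝ) + 1)) ^ 3 := by
      apply pow_le_pow_left₀ (by positivity)
      linarith
    have h3 : (0 : ℝ) < 2 ^ l := by positivity
    calc 48 * ((l : ℝ) + 1 + 1) ^ 3 * 2 ^ (l + 1) = ((l : ℝ) + 1 + 1) ^ 3 * (96 * 2 ^ l) := by ring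
      _ ≤ (2 * ((l : ℝ) + 1)) ^ 3 * (96 * 2 ^ l) := by
          apply mul_le_mul_of_nonneg_right h2
          positivity
      _ = _ := by ring
  calc wt (l + 1) * nL (up i l P).pol ≤ wt (l + 1) * nL P.pol :=
        mul_le_mul_of_nonneg_left h (wt_pos _).le
    _ ≤ (16 * wt l) * nL P.pol := mul_le_mul_of_nonneg_right h1 h0
    _ = _ := by ring

lemma norm_dn_le (i : Fin 5) {l : ℕ} (P : V (l + 1)) : ‖dn i l P‖ ≤ ‖P‖ := by
  rw [V.norm_eq, V.norm_eq]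
  have h := nL_dn_le i P
  have h1 : wt l ≤ wt (l + 1) := by
    unfold wt
    push_cast
    have hl : (0 : ℝ) ≤ l := Nat.cast_nonneg l
    have h2 : ((l : ℝ) + 1) ^ 3 ≤ ((l : ℝ) + 1 + 1) ^ 3 := by
      apply pow_le_pow_left₀ (by positivity)
      linarith
    have h3 : (2 : ℝ) ^ l ≤ 2 ^ (l + 1) := by
      rw [pow_succ]
      have : (0 : ℝ) < 2 ^ l := by positivity
      linarith
    calc 48 * ((l : ℝ) + 1) ^ 3 * 2 ^ l ≤ 48 * ((l : ℝ) + 1 + 1) ^ 3 * 2 ^ l := by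
          apply mul_le_mul_of_nonneg_right _ (by positivity)
          linarith
      _ ≤ 48 * ((l : ℝ) + 1 + 1) ^ 3 * 2 ^ (l + 1) := by
          apply mul_le_mul_of_nonneg_left h3
          positivity
  calc wt l * nL (dn i l P).pol ≤ wt l * nL P.pol := mul_le_mul_of_nonneg_left h (wt_pos _).le
    _ ≤ wt (l + 1) * nL P.pol := mul_le_mul_of_nonneg_right h1 (nL_nonneg _)

end
end OD16
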