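import Pool.Agent.LibOD16.Harm2
import Pool.Agent.LibOD16.HarmNorm

set_option autoImplicit false
namespace OD16
open MvPolynomial MeasureTheory Metric
noncomputable section

/-- The value at `x` of the `i`-th component of the tangential gradient of `P ∈ V l`:
`D_i P = (l+3) dn'_i P - l up_i P`. -/
def DV {l : ℕ} (i : Fin 5) (P : V l) (x : E5) : ℝ :=
  ((l : ℝ) + 3) * (dn' i l P).ev x - l * (up i l P).ev x

private lemma Grad_DV {l : ℕ} (i : Fin 5) (P : V l) (θ : S4) :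
    DV i P θ.1 = pev (pderiv i P.pol) θ.1 - l * (θ.1 i * P.ev θ.1) := by
  unfold DV
  rw [pev_pderiv, ev_mul_coord']
  ring

private lemma Grad_proj (i : Fin 5) (w : E5) : (EuclideanSpace.proj i : E5 →L[ℝ] ℝ) w = w i := rfl

private lemma Grad_sum_sq (θ : S4) : ∑ i : Fin 5, θ.1 i * θ.1 i = 1 := by
  have h1 : ‖θ.1‖ = 1 := by
    have := θ.2
    rwa [mem_sphere_zero_iff_norm] at this
  have h2 := EuclideanSpace.real_norm_sq_eq θ.1
  rw [h1, one_pow] at h2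
  rw [h2]
  exact Finset.sum_congr rfl fun i _ => (sq _).symm

private lemma Grad_dir (x : E5) (hx : x ≠ 0) :
    HasFDerivAt (fun y : E5 => ‖y‖⁻¹ • y)
      (‖x‖⁻¹ • (ContinuousLinearMap.id ℝ E5) -
        (‖x‖⁻¹ ^ 3) • (innerSL ℝ x).smulRight x) x := by
  have hn : ‖x‖ ≠ 0 := norm_ne_zero_iff.mpr hx
  have hpos : 0 < ‖x‖ := norm_pos_iff.mpr hx
  have h0 : HasFDerivAt (fun y : E5 => ‖y‖ ^ 2) (2 • (innerSL ℝ x)) x :=
    (hasStrictFDerivAt_norm_sq x).hasFDerivAt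
  have h1 : HasFDerivAt (fun y : E5 => ‖y‖) (‖x‖⁻¹ • innerSL ℝ x) x := by
    have h2 := h0.sqrt (by positivity)
    have h3 : (fun y : E5 => Real.sqrt (‖y‖ ^ 2)) = fun y => ‖y‖ := by
      funext y
      exact Real.sqrt_sq (norm_nonneg y)
    rw [h3, Real.sqrt_sq hpos.le] at h2
    refine h2.congr_fderiv ?_
    ext v
    simp only [ContinuousLinearMap.smul_apply, smul_eq_mul, nsmul_eq_mul]
    push_cast
    field_simp
  have h4 : HasFDerivAt (fun y : E5 => ‖y‖⁻¹) (-(‖x‖ ^ 2)⁻¹ • (‖x‖⁻¹ • innerSL ℝ x)) x :=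
    (hasDerivAt_inv hn).comp_hasFDerivAt x h1
  have h5 := h4.smul (hasFDerivAt_id x)
  refine h5.congr_fderiv ?_
  ext v j
  simp only [ContinuousLinearMap.add_apply, ContinuousLinearMap.smul_apply,
    ContinuousLinearMap.sub_apply, ContinuousLinearMap.smulRight_apply,
    ContinuousLinearMap.id_apply, id_eq, PiLp.add_apply, PiLp.sub_apply, PiLp.smul_apply,
    smul_eq_mul]
  field_simp
  ring

/-- TASK H13.  The gradient of `x ↦ P (x/|x|)`. -/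
lemma hasFDerivAt_ev_dir {l : ℕ} (P : V l) (x : E5) (hx : x ≠ 0) :
    HasFDerivAt (fun y : E5 => P.ev (‖y‖⁻¹ • y))
      (∑ i : Fin 5, (‖x‖⁻¹ * DV i P (‖x‖⁻¹ • x)) • (EuclideanSpace.proj i : E5 →L[ℝ] ℝ)) x := by
  have hn : ‖x‖ ≠ 0 := norm_ne_zero_iff.mpr hx
  have hθ : ‖‖x‖⁻¹ • x‖ = 1 := by
    rw [norm_smul, norm_inv, norm_norm, inv_mul_cancel₀ hn]
  obtain ⟨θ, hθ'⟩ : ∃ θ : S4, θ.1 = ‖x‖⁻¹ • x :=
    ⟨⟨‖x‖⁻¹ • x, by rw [mem_sphere_zero_iff_norm]; exact hθ⟩, rfl⟩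
  have h0 : HasFDerivAt P.ev (∑ i : Fin 5, pev (pderiv i P.pol) (‖x‖⁻¹ • x) •
      (EuclideanSpace.proj i : E5 →L[ℝ] ℝ)) ((fun y : E5 => ‖y‖⁻¹ • y) x) :=
    P.hasFDerivAt_ev (‖x‖⁻¹ • x)
  have h1 := HasFDerivAt.comp (f := fun y : E5 => ‖y‖⁻¹ • y) x h0 (Grad_dir x hx)
  refine h1.congr_fderiv ?_
  rw [← hθ']
  have hxθ : x = ‖x‖ • θ.1 := by
    rw [hθ', smul_smul, mul_inv_cancel₀ hn, one_smul]
  have heu := P.euler θ.1
  ext v
  rw [ContinuousLinearMap.comp_apply, ContinuousLinearMap.sum_apply, ContinuousLinearMap.sum_apply]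
  have hv : (innerSL ℝ x) v = ‖x‖ * ∑ i : Fin 5, θ.1 i * v i := by
    rw [innerSL_apply_apply]
    conv_lhs => rw [hxθ]
    rw [real_inner_smul_left, PiLp.inner_apply]
    congr 1
    refine Finset.sum_congr rfl fun i _ => ?_
    simp [mul_comm]
  have hL : ∀ i : Fin 5, (pev (pderiv i P.pol) θ.1 • (EuclideanSpace.proj i : E5 →L[ℝ] ℝ))
      ((‖x‖⁻¹ • (ContinuousLinearMap.id ℝ E5) - (‖x‖⁻¹ ^ 3) • (innerSL ℝ x).smulRight x) v) =
      ‖x‖⁻¹ * (pev (pderiv i P.pol) θ.1 * v i) -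
        (‖x‖⁻¹ * ∑ i : Fin 5, θ.1 i * v i) * (θ.1 i * pev (pderiv i P.pol) θ.1) := by
    intro i
    have hxi : x i = ‖x‖ * θ.1 i := by
      conv_lhs => rw [hxθ]
      rfl
    simp only [ContinuousLinearMap.smul_apply, ContinuousLinearMap.sub_apply,
      ContinuousLinearMap.smulRight_apply, ContinuousLinearMap.id_apply, smul_eq_mul, hv,
      Grad_proj, PiLp.sub_apply, PiLp.smul_apply, hxi]
    field_simp
  have hR : ∀ i : Fin 5, ((‖x‖⁻¹ * DV i P θ.1) • (EuclideanSpace.proj i : E5 →L[ℝ] ℝ)) v =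
      ‖x‖⁻¹ * (pev (pderiv i P.pol) θ.1 * v i) - ‖x‖⁻¹ * (l * P.ev θ.1) * (θ.1 i * v i) := by
    intro i
    rw [Grad_DV]
    simp only [ContinuousLinearMap.smul_apply, smul_eq_mul, Grad_proj]
    ring
  rw [Finset.sum_congr rfl fun i _ => hL i, Finset.sum_congr rfl fun i _ => hR i,
    Finset.sum_sub_distrib, Finset.sum_sub_distrib, ← Finset.mul_sum (s := Finset.univ)
      (a := ‖x‖⁻¹ * ∑ i : Fin 5, θ.1 i * v i), heu,
    ← Finset.mul_sum (s := Finset.univ) (a := ‖x‖⁻¹ * (l * P.ev θ.1))]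
  ring

/-- Tangency. -/
lemma DV_tangent {l : ℕ} (P : V l) (θ : S4) : ∑ i : Fin 5, θ.1 i * DV i P θ.1 = 0 := by
  have h1 : ∀ i : Fin 5, θ.1 i * DV i P θ.1 = θ.1 i * pev (pderiv i P.pol) θ.1 -
      (l * P.ev θ.1) * (θ.1 i * θ.1 i) := by
    intro i
    rw [Grad_DV]
    ring
  rw [Finset.sum_congr rfl fun i _ => h1 i, Finset.sum_sub_distrib, P.euler, ← Finset.mul_sum,
    Grad_sum_sq, mul_one, sub_self]

lemma abs_DV_le {l : ℕ} (P : V l) (i : Fin 5) (θ : S4) : |DV i P θ.1| ≤ 17 * ((l : ℝ) + 3) * ‖P‖ := by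
  have h1 : |(up i l P).ev θ.1| ≤ 16 * ‖P‖ := ((up i l P).abs_ev_le θ).trans (norm_up_le i P)
  have h2 : |(dn' i l P).ev θ.1| ≤ ‖P‖ := by
    cases l with
    | zero =>
      have : (dn' i 0 P) = 0 := rfl
      rw [this, V.ev_zero, abs_zero]
      exact norm_nonneg P
    | succ l => exact ((dn i l P).abs_ev_le θ).trans (norm_dn_le i P)
  unfold DV
  have h3 : |((l : ℝ) + 3) * (dn' i l P).ev θ.1 - l * (up i l P).ev θ.1| ≤
      ((l : ℝ) + 3) * ‖P‖ + l * (16 * ‖P‖) := by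
    refine (abs_sub _ _).trans ?_
    rw [abs_mul, abs_mul, abs_of_nonneg (by positivity : (0 : ℝ) ≤ (l : ℝ) + 3),
      abs_of_nonneg (Nat.cast_nonneg l : (0 : ℝ) ≤ (l : ℝ))]
    exact add_le_add (mul_le_mul_of_nonneg_left h2 (by positivity))
      (mul_le_mul_of_nonneg_left h1 (Nat.cast_nonneg l))
  refine h3.trans ?_
  nlinarith [norm_nonneg P, (Nat.cast_nonneg l : (0 : ℝ) ≤ (l : ℝ))]

end
end OD16
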