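import Pool.Agent.LibOD16.BEv
import Pool.Agent.LibOD16.HarmGrad

set_option autoImplicit false
namespace OD16
open MvPolynomial MeasureTheory Metric
open scoped BoundedContinuousFunction
noncomputable section

/-- TASK BDer1.  `|P(θ)| ≤ 2^(-l) ‖P‖` (`V.abs_ev_le'`). -/
lemma V.abs_ev_le_half {l : ℕ} (P : V l) (θ : S4) : |P.ev θ.1| ≤ (1 / 2) ^ l * ‖P‖ := by
  have h := V.abs_ev_le' P θ.1
  have h1 : ‖θ.1‖ = 1 := norm_eq_of_mem_sphere θ
  rwa [h1] at h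

lemma abs_dn'_ev_le {l : ℕ} (P : V l) (i : Fin 5) (θ : S4) :
    |(dn' i l P).ev θ.1| ≤ 2 * (1 / 2) ^ l * ‖P‖ := by
  cases l with
  | zero =>
    have : (dn' i 0 P).ev θ.1 = 0 := V.ev_zero _
    rw [this, abs_zero]
    positivity
  | succ l =>
    have h := V.abs_ev_le_half (dn' i (l + 1) P) θ
    have h2 : ‖dn' i (l + 1) P‖ ≤ ‖P‖ := norm_dn_le i P
    refine h.trans ?_
    have e : 2 * (1 / 2 : ℝ) ^ (l + 1) = (1 / 2) ^ (l + 1 - 1) := by
      rw [pow_succ, Nat.add_sub_cancel]; ring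
    rw [e]
    exact mul_le_mul_of_nonneg_left h2 (by positivity)

lemma abs_up_ev_le {l : ℕ} (P : V l) (i : Fin 5) (θ : S4) :
    |(up i l P).ev θ.1| ≤ 8 * (1 / 2) ^ l * ‖P‖ := by
  have h := V.abs_ev_le_half (up i l P) θ
  have h2 : ‖up i l P‖ ≤ 16 * ‖P‖ := norm_up_le i P
  refine h.trans ?_
  have e : (1 / 2 : ℝ) ^ (l + 1) * (16 * ‖P‖) = 8 * (1 / 2) ^ l * ‖P‖ := by
    rw [pow_succ]; ring
  rw [← e]
  exact mul_le_mul_of_nonneg_left h2 (by positivity)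

lemma succ_mul_half_pow_le (l : ℕ) : ((l : ℝ) + 1) * (1 / 2) ^ l ≤ 1 := by
  have h : l + 1 ≤ 2 ^ l := Nat.lt_two_pow_self
  have h' : ((l : ℝ) + 1) ≤ 2 ^ l := by exact_mod_cast h
  rw [one_div, inv_pow, ← div_eq_mul_inv, div_le_one (by positivity)]
  exact h'

lemma abs_dn'_term_le {l : ℕ} (P : V l) (i : Fin 5) (θ : S4) :
    |((l : ℝ) + 3) * (dn' i l P).ev θ.1| ≤ 6 * ‖P‖ := by
  rw [abs_mul, abs_of_nonneg (by positivity : (0 : ℝ) ≤ (l : ℝ) + 3)]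
  have h1 := abs_dn'_ev_le P i θ
  have h2 := succ_mul_half_pow_le l
  have hP := norm_nonneg P
  have hp : (0 : ℝ) ≤ (1 / 2) ^ l := by positivity
  have hl : (0 : ℝ) ≤ l := by positivity
  calc ((l : ℝ) + 3) * |(dn' i l P).ev θ.1| ≤ ((l : ℝ) + 3) * (2 * (1 / 2) ^ l * ‖P‖) :=
        mul_le_mul_of_nonneg_left h1 (by positivity)
    _ ≤ (3 * ((l : ℝ) + 1)) * (2 * (1 / 2) ^ l * ‖P‖) := by
        apply mul_le_mul_of_nonneg_right _ (by positivity)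
        linarith
    _ = 6 * (((l : ℝ) + 1) * (1 / 2) ^ l) * ‖P‖ := by ring
    _ ≤ 6 * 1 * ‖P‖ := by gcongr
    _ = 6 * ‖P‖ := by ring

lemma abs_up_term_le {l : ℕ} (P : V l) (i : Fin 5) (θ : S4) :
    |(l : ℝ) * (up i l P).ev θ.1| ≤ 8 * ‖P‖ := by
  rw [abs_mul, abs_of_nonneg (by positivity : (0 : ℝ) ≤ (l : ℝ))]
  have h1 := abs_up_ev_le P i θ
  have h2 := succ_mul_half_pow_le l
  have hP := norm_nonneg P
  have hp : (0 : ℝ) ≤ (1 / 2) ^ l := by positivity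
  calc (l : ℝ) * |(up i l P).ev θ.1| ≤ (l : ℝ) * (8 * (1 / 2) ^ l * ‖P‖) :=
        mul_le_mul_of_nonneg_left h1 (by positivity)
    _ ≤ ((l : ℝ) + 1) * (8 * (1 / 2) ^ l * ‖P‖) := by
        apply mul_le_mul_of_nonneg_right _ (by positivity)
        linarith
    _ = 8 * (((l : ℝ) + 1) * (1 / 2) ^ l) * ‖P‖ := by ring
    _ ≤ 8 * 1 * ‖P‖ := by gcongr
    _ = 8 * ‖P‖ := by ring

/-- `((l+3) · 2 + 16 l / 2) 2^(-l) ≤ 30`. -/
lemma abs_DV_le' {l : ℕ} (P : V l) (i : Fin 5) (θ : S4) : |DV i P θ.1| ≤ 30 * ‖P‖ := by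
  unfold DV
  have h1 := abs_dn'_term_le P i θ
  have h2 := abs_up_term_le P i θ
  have h3 := abs_sub (((l : ℝ) + 3) * (dn' i l P).ev θ.1) ((l : ℝ) * (up i l P).ev θ.1)
  have hP := norm_nonneg P
  linarith

lemma hasFDerivAt_log_norm {x : EE} (hx : x ≠ 0) :
    HasFDerivAt (fun y : EE => Real.log ‖y‖) (innerSL ℝ (‖x‖⁻¹ • dir x)) x := by
  have hn : ‖x‖ ≠ 0 := norm_ne_zero_iff.mpr hx
  have h1 : HasFDerivAt (fun y : EE => ‖y‖ ^ 2) (2 • innerSL ℝ x) x :=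
    (hasStrictFDerivAt_norm_sq x).hasFDerivAt
  have h2 := (h1.log (pow_ne_zero 2 hn)).const_mul (1 / 2)
  have e : (fun y : EE => 1 / 2 * Real.log (‖y‖ ^ 2)) = fun y => Real.log ‖y‖ := by
    funext y
    rw [Real.log_pow]; push_cast; ring
  rw [e] at h2
  refine h2.congr_fderiv ?_
  ext v
  simp only [_root_.smul_apply, innerSL_apply_apply, dir, smul_eq_mul, nsmul_eq_mul,
    inner_smul_left, RCLike.conj_to_real]
  field_simp
  push_cast
  ring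

/-- One term: derivative of `x ↦ (f (log |x|)).ev (x/|x|)` where `f' = f1` on `(-∞, 0)`. -/
lemma hasFDerivAt_term {l : ℕ} (f f1 : Tm →ᵇ V l)
    (hf : ∀ t : ℝ, t < 0 → HasDerivAt (xt f) (xt f1 t) t) {x : EE} (hx : x ≠ 0) (h1 : ‖x‖ < 1) :
    HasFDerivAt (fun y : EE => (f (tm y)).ev (dir y))
      (innerSL ℝ (‖x‖⁻¹ • (((f1 (tm x)).ev (dir x)) • dir x +
        WithLp.toLp 2 (fun i => DV i (f (tm x)) (dir x))))) x := by
  have hn : 0 < ‖x‖ := norm_pos_iff.mpr hx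
  have hlog : Real.log ‖x‖ < 0 := Real.log_neg hn h1
  -- the coefficient
  have hg : HasFDerivAt (fun y : EE => f (tm y))
      ((ContinuousLinearMap.toSpanSingleton ℝ (f1 (tm x))).comp (innerSL ℝ (‖x‖⁻¹ • dir x))) x := by
    have h2 := (hf _ hlog).hasFDerivAt.comp x (hasFDerivAt_log_norm hx)
    exact h2
  -- the evaluation
  let Ψ : EE → (V l →L[ℝ] ℝ) := fun z => LinearMap.toContinuousLinearMap (V.evL l z)
  have hΨ : ContDiff ℝ ((⊤ : ℕ∞) : WithTop ℕ∞) Ψ := by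
    rw [contDiff_clm_apply_iff]
    intro P
    exact V.contDiff_ev P
  have hdir : DifferentiableAt ℝ dir x := by
    have ha : DifferentiableAt ℝ (fun y : EE => ‖y‖⁻¹) x :=
      (DifferentiableAt.norm ℝ differentiableAt_id hx).inv hn.ne'
    exact ha.smul differentiableAt_id
  have hΦ : DifferentiableAt ℝ (fun y => Ψ (dir y)) x :=
    (hΨ.differentiable (by simp)).differentiableAt.comp x hdir
  have h3 := hΦ.hasFDerivAt.clm_apply hg
  have h4 := hΦ.hasFDerivAt.clm_apply (hasFDerivAt_const (f (tm x)) x)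
  have h5 := hasFDerivAt_ev_dir (f (tm x)) x hx
  have h6 := HasFDerivAt.unique h4 h5
  refine h3.congr_fderiv ?_
  ext v
  have h7 := congrArg (fun L : EE →L[ℝ] ℝ => L v) h6
  simp only [_root_.add_apply, ContinuousLinearMap.comp_apply,
    _root_.zero_apply, map_zero, zero_add] at h7
  simp only [_root_.add_apply, ContinuousLinearMap.comp_apply]
  rw [h7]
  have h8 : (Ψ (dir x)) ((ContinuousLinearMap.toSpanSingleton ℝ (f1 (tm x)))
      ((innerSL ℝ (‖x‖⁻¹ • dir x)) v)) =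
      (inner ℝ (‖x‖⁻¹ • dir x) v) * (f1 (tm x)).ev (dir x) := by
    rw [ContinuousLinearMap.toSpanSingleton_apply, map_smul, smul_eq_mul]
    rfl
  rw [h8]
  simp only [innerSL_apply_apply, inner_smul_left, RCLike.conj_to_real, inner_add_left,
    _root_.sum_apply, _root_.smul_apply, smul_eq_mul]
  have h9 : inner ℝ (WithLp.toLp 2 (fun i => DV i (f (tm x)) (dir x)) : EE) v =
      ∑ i, DV i (f (tm x)) (dir x) * v i := by
    rw [PiLp.inner_apply]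
    apply Finset.sum_congr rfl
    intro i _
    simp [mul_comm]
  rw [h9, mul_add, Finset.mul_sum]
  have h10 : ∀ i, (‖x‖⁻¹ * DV i (f (tm x)) (‖x‖⁻¹ • x)) *
      ((EuclideanSpace.proj i : EE →L[ℝ] ℝ) v) = ‖x‖⁻¹ * (DV i (f (tm x)) (dir x) * v i) := by
    intro i
    show (‖x‖⁻¹ * DV i (f (tm x)) (‖x‖⁻¹ • x)) * v i = ‖x‖⁻¹ * (DV i (f (tm x)) (dir x) * v i)
    rw [dir, mul_assoc]
  rw [Finset.sum_congr rfl (fun i _ => h10 i)]
  ring

end
end OD16
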