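import Pool.Agent.LibOD16.BDer1

set_option autoImplicit false
namespace OD16
open MvPolynomial MeasureTheory Metric
open scoped BoundedContinuousFunction
noncomputable section

namespace AData

variable {h δ : ℝ} (D : AData h δ)

lemma summable_dn'_term (F : WA) (i : Fin 5) (t : Tm) (θ : S4) :
    Summable fun l : ℕ => ((l : ℝ) + 3) * (dn' i l (F.c l t)).ev θ.1 := by
  apply Summable.of_norm
  apply Summable.of_nonneg_of_le (fun l => norm_nonneg _) _ (F.summable_norm.mul_left 6)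
  intro l
  rw [Real.norm_eq_abs]
  refine (abs_dn'_term_le (F.c l t) i θ).trans ?_
  exact mul_le_mul_of_nonneg_left ((F.c l).norm_coe_le_norm t) (by norm_num)

lemma summable_up_term (F : WA) (i : Fin 5) (t : Tm) (θ : S4) :
    Summable fun l : ℕ => (l : ℝ) * (up i l (F.c l t)).ev θ.1 := by
  apply Summable.of_norm
  apply Summable.of_nonneg_of_le (fun l => norm_nonneg _) _ (F.summable_norm.mul_left 8)
  intro l
  rw [Real.norm_eq_abs]
  refine (abs_up_term_le (F.c l t) i θ).trans ?_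
  exact mul_le_mul_of_nonneg_left ((F.c l).norm_coe_le_norm t) (by norm_num)

/-- TASK BDer2.  The components of `J` are the tangential derivatives of `j0`
(reindex the series; `J_zero`, `J_succ`). -/
lemma summable_DV (i : Fin 5) (t : Tm) (θ : S4) :
    Summable fun l => ‖DV i (D.j0.c l t) θ.1‖ := by
  apply Summable.of_nonneg_of_le (fun l => norm_nonneg _) _ (D.j0.summable_norm.mul_left 30)
  intro l
  rw [Real.norm_eq_abs]
  refine (abs_DV_le' (D.j0.c l t) i θ).trans ?_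
  exact mul_le_mul_of_nonneg_left ((D.j0.c l).norm_coe_le_norm t) (by norm_num)

lemma J_ev (i : Fin 5) (t : Tm) (θ : S4) :
    (D.J i).ev t θ.1 = ∑' l, DV i (D.j0.c l t) θ.1 := by
  have hA := summable_dn'_term D.j0 i t θ
  have hB := summable_up_term D.j0 i t θ
  have e1 : ∑' l, DV i (D.j0.c l t) θ.1 =
      ∑' l : ℕ, ((l : ℝ) + 3) * (dn' i l (D.j0.c l t)).ev θ.1 -
      ∑' l : ℕ, (l : ℝ) * (up i l (D.j0.c l t)).ev θ.1 := by
    rw [← hA.tsum_sub hB]
    rfl
  rw [e1]
  -- shift the first series twice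
  have hA1 := (summable_nat_add_iff 1).mpr hA
  have e2 := hA.sum_add_tsum_nat_add 2
  have hA2 := (summable_nat_add_iff 2).mpr hA
  rw [← e2]
  simp only [Finset.sum_range_succ, Finset.sum_range_zero, zero_add]
  have z0 : (dn' i 0 (D.j0.c 0 t)).ev θ.1 = 0 := V.ev_zero _
  rw [z0, mul_zero, zero_add]
  -- the series of `J`
  have hJ := (D.J i).summable_ev t θ
  unfold WA.ev
  rw [hJ.of_norm.tsum_eq_zero_add]
  have e3 : ((D.J i).c 0 t).ev θ.1 = (((1 : ℕ) : ℝ) + 3) * (dn' i 1 (D.j0.c 1 t)).ev θ.1 := by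
    rw [D.J_zero, V.ev_smul]
    push_cast
    norm_num
    rfl
  rw [e3, add_sub_assoc]
  congr 1
  rw [← hA2.tsum_sub hB]
  congr 1
  funext l
  rw [D.J_succ, sub_eq_add_neg, V.ev_add, V.ev_smul, ← neg_smul, V.ev_smul]
  have e4 : dn' i (l + 2) (D.j0.c (l + 2) t) = dn i (l + 1) (D.j0.c (l + 2) t) := rfl
  rw [e4]
  push_cast
  ring

/-- Tangency of `J` (`DV_tangent`). -/
lemma J_tangent (t : Tm) (θ : S4) : inner ℝ θ.1 (mkPt h δ D.j0 D.j1 D.J t θ.1).J = 0 := by
  rw [PiLp.inner_apply]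
  have e1 : ∀ i : Fin 5, inner ℝ (θ.1 i) ((mkPt h δ D.j0 D.j1 D.J t θ.1).J i) =
      ∑' l, θ.1 i * DV i (D.j0.c l t) θ.1 := by
    intro i
    show inner ℝ (θ.1 i) ((D.J i).ev t θ.1) = _
    rw [D.J_ev, tsum_mul_left]
    simp [mul_comm]
  rw [Finset.sum_congr rfl (fun i _ => e1 i)]
  rw [← Summable.tsum_finsetSum (fun i _ => ((D.summable_DV i t θ).of_norm).mul_left _)]
  have e2 : ∀ l, ∑ i, θ.1 i * DV i (D.j0.c l t) θ.1 = 0 := fun l => DV_tangent _ θ
  simp only [e2, tsum_zero]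

end AData

end
end OD16
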