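import Pool.Agent.LibOD16.BDer
import Pool.Agent.LibOD16.BGood

set_option autoImplicit false
namespace OD16
open MvPolynomial MeasureTheory Metric
noncomputable section

namespace AData

variable {h δ : ℝ} (D : AData h δ)

lemma bf_q_pos : 0 < D.q := by
  have h1 := D.δ_lt
  unfold q
  apply div_pos zero_lt_one
  linarith

/-- Derivative of `χ(log |x|)`. -/
lemma bf_chi {x : EE} (hx : x ≠ 0) :
    HasFDerivAt (fun y : EE => chi (Real.log ‖y‖))
      ((chid (Real.log ‖x‖) * (‖x‖ ^ 2)⁻¹) • innerSL ℝ x) x := by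
  have hn : ‖x‖ ≠ 0 := norm_ne_zero_iff.mpr hx
  have h1 : HasFDerivAt (fun y : EE => ‖y‖ ^ 2) (2 • (innerSL ℝ x)) x :=
    (hasStrictFDerivAt_norm_sq x).hasFDerivAt
  have h2 := h1.log (pow_ne_zero 2 hn)
  have h3 := (h2.const_mul (1 / 2 : ℝ))
  have h4 : (fun y : EE => (1 / 2 : ℝ) * Real.log (‖y‖ ^ 2)) = fun y : EE => Real.log ‖y‖ := by
    funext y
    rw [Real.log_pow]
    push_cast
    ring
  rw [h4] at h3
  have h5 := (hasDerivAt_chi (Real.log ‖x‖)).comp_hasFDerivAt x h3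
  refine h5.congr_fderiv ?_
  ext v
  simp
  ring

/-- TASK BFh.  Derivative of `f^`: `∇f^ = r^q (β θ + (1 - χ) J)`. -/
lemma hasFDerivAt_fh {x : EE} (hx : x ≠ 0) (h1 : ‖x‖ < 1) :
    HasFDerivAt D.fh (innerSL ℝ (‖x‖ ^ D.q •
      ((D.P x).be • (D.P x).θ + (1 - (D.P x).χ) • (D.P x).J))) x := by
  have hq := D.bf_q_pos
  have hn : 0 < ‖x‖ := norm_pos_iff.mpr hx
  have hN : HasFDerivAt (fun y : EE => ‖y‖ ^ (1 + D.q))
      (((1 + D.q) * ‖x‖ ^ (1 + D.q - 2)) • innerSL ℝ x) x :=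
    hasFDerivAt_norm_rpow x (by linarith)
  have hC := bf_chi hx
  have hJ := D.hasFDerivAt_j0 hx h1
  have h2 : HasFDerivAt (fun y : EE => (1 - ‖y‖ ^ (1 + D.q)) * (1 + D.q)⁻¹ +
      (1 - chi (Real.log ‖y‖)) * ‖y‖ ^ (1 + D.q) * D.j0.fn y) _ x :=
    ((hN.const_sub 1).mul_const (1 + D.q)⁻¹).add (((hC.const_sub 1).mul hN).mul hJ)
  have h3 : D.fh =ᶠ[nhds x] (fun y : EE => (1 - ‖y‖ ^ (1 + D.q)) * (1 + D.q)⁻¹ +
      (1 - chi (Real.log ‖y‖)) * ‖y‖ ^ (1 + D.q) * D.j0.fn y) := by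
    have h4 : ∀ᶠ y in nhds x, y ≠ 0 := isOpen_ne.mem_nhds hx
    have h5 : ∀ᶠ y in nhds x, ‖y‖ < 1 :=
      (continuous_norm.continuousAt).eventually_lt continuousAt_const h1
    filter_upwards [h4, h5] with y hy0 hy1
    unfold fh
    rw [D.P_χ hy0 hy1.le, div_eq_mul_inv]
    rfl
  refine (h2.congr_of_eventuallyEq h3).congr_fderiv ?_
  have e1 : ‖x‖ ^ (1 + D.q - 2) = ‖x‖ ^ D.q / ‖x‖ := by
    rw [show 1 + D.q - 2 = D.q - 1 by ring, Real.rpow_sub hn, Real.rpow_one]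
  have e2 : ‖x‖ ^ (1 + D.q) = ‖x‖ ^ D.q * ‖x‖ := by
    rw [add_comm, Real.rpow_add hn, Real.rpow_one]
  have e3 : (D.P x).χ = chi (Real.log ‖x‖) := D.P_χ hx h1.le
  have e4 : (D.P x).χd = chid (Real.log ‖x‖) := D.P_χd hx h1.le
  have e5 : (D.P x).θ = ‖x‖⁻¹ • x := rfl
  have e6 : D.j0.fn x = (D.P x).j0 := rfl
  have e7 : D.j1.fn x = (D.P x).j1 := rfl
  have e8 : dir x = ‖x‖⁻¹ • x := rfl
  have e9 : (D.P x).q = D.q := rfl
  have e10 : ((fun x : EE => 1 - chi (Real.log ‖x‖)) * fun y : EE => ‖y‖ ^ (1 + D.q)) x =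
      (1 - chi (Real.log ‖x‖)) * ‖x‖ ^ (1 + D.q) := rfl
  rw [e10]
  ext v
  unfold Pt.be Pt.U
  rw [e1, e2, e3, e4, e5, e6, e7, e8, e9]
  generalize ‖x‖ ^ D.q = N
  simp only [add_apply, smul_apply, neg_apply, innerSL_apply_apply,
    smul_eq_mul, map_smul, map_add]
  have hq1 : 1 + D.q ≠ 0 := by linarith
  field_simp
  ring

/-- `f^(x) - f^(0) = O(|x|^(1+q))`. -/
lemma fh_zero : D.fh 0 = 1 / (1 + D.q) := by
  have hq := D.bf_q_pos
  unfold fh
  rw [norm_zero, Real.zero_rpow (by linarith)]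
  simp

lemma hasFDerivAt_fh_zero : HasFDerivAt D.fh (0 : EE →L[ℝ] ℝ) 0 := by
  have hq := D.bf_q_pos
  have hN : HasFDerivAt (fun y : EE => ‖y‖ ^ (1 + D.q))
      (((1 + D.q) * ‖(0 : EE)‖ ^ (1 + D.q - 2)) • innerSL ℝ (0 : EE)) 0 :=
    hasFDerivAt_norm_rpow 0 (by linarith)
  rw [hasFDerivAt_iff_isLittleO] at hN ⊢
  have h0 : (0 : ℝ) ^ (1 + D.q) = 0 := by
    rw [Real.zero_rpow (by linarith)]
  have hN' : (fun y : EE => ‖y‖ ^ (1 + D.q)) =o[nhds 0] fun y => y := by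
    simpa [h0] using hN
  have h1 : (fun y : EE => D.fh y - D.fh 0) =O[nhds 0] (fun y : EE => ‖y‖ ^ (1 + D.q)) := by
    apply Asymptotics.IsBigO.of_bound 2
    refine Filter.Eventually.of_forall fun y => ?_
    by_cases hy : y = 0
    · subst hy
      simp
    · have h2 := D.bg_j0 hy
      have h3 : 0 ≤ (D.P y).χ := chi_nonneg _
      have h4 : (D.P y).χ ≤ 1 := chi_le_one _
      have h5 : D.fh y - D.fh 0 = (-(1 / (1 + D.q)) + (1 - (D.P y).χ) * (D.P y).j0) *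
          ‖y‖ ^ (1 + D.q) := by
        rw [D.fh_zero]
        unfold fh
        have hq1 : 1 + D.q ≠ 0 := by linarith
        field_simp
        ring
      rw [h5, norm_mul]
      apply mul_le_mul_of_nonneg_right _ (norm_nonneg _)
      rw [Real.norm_eq_abs]
      have h6 : 0 < 1 / (1 + D.q) := by positivity
      have h7 : 1 / (1 + D.q) ≤ 1 := by
        rw [div_le_one (by linarith)]
        linarith
      calc |-(1 / (1 + D.q)) + (1 - (D.P y).χ) * (D.P y).j0|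
          ≤ |-(1 / (1 + D.q))| + |(1 - (D.P y).χ) * (D.P y).j0| := abs_add_le _ _
        _ = 1 / (1 + D.q) + (1 - (D.P y).χ) * |(D.P y).j0| := by
            rw [abs_neg, abs_mul, abs_of_pos h6, abs_of_nonneg (by linarith : 0 ≤ 1 - (D.P y).χ)]
        _ ≤ 1 + 1 * (1 / 100) := by
            gcongr
            linarith
        _ ≤ 2 := by norm_num
  have h2 := h1.trans_isLittleO hN'
  simpa using h2

/-- `f^ = (1 - r^(1+q))/(1+q)` near the boundary. -/
lemma fh_eq {x : EE} (h1 : Real.exp (-1 / 2) ≤ ‖x‖) (h2 : ‖x‖ ≤ 1) :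
    D.fh x = (1 - ‖x‖ ^ (1 + D.q)) / (1 + D.q) := by
  have h3 : 0 < ‖x‖ := lt_of_lt_of_le (Real.exp_pos _) h1
  have hx : x ≠ 0 := norm_pos_iff.mp h3
  have h4 : -1 / 2 ≤ Real.log ‖x‖ := by
    rw [Real.le_log_iff_exp_le h3]
    exact h1
  unfold fh
  rw [D.P_χ hx h2, chi_eq_one h4]
  ring

lemma gh_zero : D.gh 0 = 0 := by
  have hq := D.bf_q_pos
  unfold gh
  rw [norm_zero, Real.zero_rpow hq.ne', zero_smul]

/-- `gh` is continuous on the closed ball (at `0` because of the factor `r^q`; the bounds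
`abs_al_le`, `abs_ze_le`, `norm_J_le`, `exists_chid_bound`). -/
lemma continuousOn_gh : ContinuousOn D.gh (closedBall (0 : EE) 1) := by
  have hq := D.bf_q_pos
  intro x hxB
  by_cases hx : x = 0
  · subst hx
    obtain ⟨C, hC, hC1⟩ := exists_chid_bound
    unfold ContinuousWithinAt
    rw [D.gh_zero]
    have h1 : Filter.Tendsto (fun y : EE => ‖y‖ ^ D.q * (10 * (1 + C) + 10 * (1 + C) * (1 / 10)))
        (nhdsWithin 0 (closedBall (0 : EE) 1)) (nhds 0) := by
      have h2 : Continuous (fun y : EE => ‖y‖ ^ D.q * (10 * (1 + C) + 10 * (1 + C) * (1 / 10))) :=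
        (continuous_norm.rpow_const (fun _ => Or.inr hq.le)).mul continuous_const
      have h3 := (h2.tendsto 0).mono_left
        (nhdsWithin_le_nhds (s := closedBall (0 : EE) 1))
      rw [norm_zero, Real.zero_rpow hq.ne', zero_mul] at h3
      exact h3
    apply squeeze_zero_norm' _ h1
    filter_upwards [self_mem_nhdsWithin] with y hy
    by_cases hy0 : y = 0
    · subst hy0
      rw [D.gh_zero, norm_zero]
      positivity
    · have hy1 : ‖y‖ ≤ 1 := by simpa using hy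
      unfold gh
      rw [norm_smul, Real.norm_eq_abs, abs_of_nonneg (Real.rpow_nonneg (norm_nonneg _) _)]
      apply mul_le_mul_of_nonneg_left _ (Real.rpow_nonneg (norm_nonneg _) _)
      have a1 : |(D.P y).al| ≤ 10 * (1 + C) :=
        (D.abs_al_le hy0 hy1).trans (by linarith [hC1 (tm y)])
      have a2 : |(D.P y).ze| ≤ 10 * (1 + C) :=
        (D.abs_ze_le hy0 hy1).trans (by linarith [hC1 (tm y)])
      have a3 := D.norm_J_le hy0
      have a4 : ‖(D.P y).θ‖ = 1 := norm_dir hy0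
      calc ‖(D.P y).al • (D.P y).θ + (D.P y).ze • (D.P y).J‖
          ≤ ‖(D.P y).al • (D.P y).θ‖ + ‖(D.P y).ze • (D.P y).J‖ := norm_add_le _ _
        _ = |(D.P y).al| + |(D.P y).ze| * ‖(D.P y).J‖ := by
            rw [norm_smul, norm_smul, a4, mul_one, Real.norm_eq_abs, Real.norm_eq_abs]
        _ ≤ 10 * (1 + C) + 10 * (1 + C) * (1 / 10) := by
            gcongr
  · have h1 : ContinuousOn (fun y => D.gh y) (closedBall (0 : EE) 1 \ {0}) := by
      have c1 : ContinuousOn (fun y : EE => ‖y‖ ^ D.q) (closedBall (0 : EE) 1 \ {0}) :=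
        (continuous_norm.rpow_const (fun _ => Or.inr hq.le)).continuousOn
      have c2 : ContinuousOn (fun y => (D.P y).θ) (closedBall (0 : EE) 1 \ {0}) :=
        continuousOn_dir.mono (fun _ hy => hy.2)
      have c3 : ContinuousOn (fun y => (D.P y).J) (closedBall (0 : EE) 1 \ {0}) :=
        D.continuousOn_J.mono (fun _ hy => hy.2)
      exact c1.smul ((D.continuousOn_al.smul c2).add (D.continuousOn_ze.smul c3))
    have h2 := h1 x ⟨hxB, hx⟩
    apply h2.mono_of_mem_nhdsWithin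
    have h3 : closedBall (0 : EE) 1 \ {0} = closedBall (0 : EE) 1 ∩ {0}ᶜ := rfl
    rw [h3]
    exact Filter.inter_mem self_mem_nhdsWithin
      (mem_nhdsWithin_of_mem_nhds (isOpen_compl_singleton.mem_nhds hx))

end AData

end
end OD16
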