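import Pool.Agent.LibOD16.BPt

set_option autoImplicit false
namespace OD16
open MvPolynomial MeasureTheory Metric
noncomputable section

/-- The vector `w = η' θ + χ J`. -/
def Pt.wv (P : Pt) : EE := P.etad • P.θ + P.χ • P.J

lemma Pt.inner_wv_θ (P : Pt) (hP : P.Good) : inner ℝ P.wv P.θ = P.etad := by
  unfold Pt.wv
  rw [inner_add_left, real_inner_smul_left, real_inner_smul_left, P.inner_θθ hP, P.inner_Jθ hP]
  ring

/-- The inverse of `A`. -/
def Pt.Ainv (P : Pt) : EE →L[ℝ] EE :=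
  (1 + P.eta)⁻¹ • (ContinuousLinearMap.id ℝ EE - P.m⁻¹ • (innerSL ℝ P.wv).smulRight P.θ)

lemma Pt.Ainv_apply (P : Pt) (v : EE) :
    P.Ainv v = (1 + P.eta)⁻¹ • (v - P.m⁻¹ • (inner ℝ P.wv v) • P.θ) := by
  simp [Pt.Ainv]

lemma Pt.A_apply' (P : Pt) (v : EE) :
    P.A v = (1 + P.eta) • v + (inner ℝ P.wv v) • P.θ := P.A_apply v

/-- TASK BInv.  `c · id + ⟨w, ·⟩ θ` with `c ≠ 0`, `c + ⟨w, θ⟩ ≠ 0` is invertible
(inverse `v ↦ c⁻¹ (v - (c + ⟨w,θ⟩)⁻¹ ⟨w, v⟩ θ)`). -/
lemma Pt.exists_equiv (P : Pt) (hP : P.Good) : ∃ e : EE ≃L[ℝ] EE, (e : EE →L[ℝ] EE) = P.A := by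
  have hm := P.m_pos hP
  have he := P.one_add_eta_pos hP
  have hmm : P.m = (1 + P.eta) + P.etad := by
    unfold Pt.m
    ring
  have h1 : Function.LeftInverse P.Ainv P.A := by
    intro v
    rw [Pt.Ainv_apply, Pt.A_apply']
    rw [inner_add_right, real_inner_smul_right, real_inner_smul_right, P.inner_wv_θ hP]
    have h2 : (1 + P.eta) * inner ℝ P.wv v + inner ℝ P.wv v * P.etad = P.m * inner ℝ P.wv v := by
      rw [hmm]
      ring
    rw [h2, smul_smul, ← mul_assoc, inv_mul_cancel₀ hm.ne', one_mul, add_sub_cancel_right,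
      smul_smul, inv_mul_cancel₀ he.ne', one_smul]
  have h3 : Function.RightInverse P.Ainv P.A := by
    intro v
    rw [Pt.A_apply', Pt.Ainv_apply]
    rw [smul_smul, mul_inv_cancel₀ he.ne', one_smul, real_inner_smul_right, inner_sub_right,
      real_inner_smul_right, real_inner_smul_right, P.inner_wv_θ hP]
    have h2 : (1 + P.eta)⁻¹ * (inner ℝ P.wv v - P.m⁻¹ * (inner ℝ P.wv v * P.etad)) =
        P.m⁻¹ * inner ℝ P.wv v := by
      have h4 : P.etad = P.m - (1 + P.eta) := by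
        rw [hmm]
        ring
      rw [h4]
      field_simp
      ring
    rw [h2, smul_smul]
    abel
  exact ⟨ContinuousLinearEquiv.equivOfInverse P.A P.Ainv h1 h3, by
    ext v
    rfl⟩

/-- The determinant (matrix determinant lemma, `Matrix.det_add_replicateCol_mul_replicateRow`, or
`LinearMap.det` of a rank one perturbation of the identity). -/
lemma Pt.det_A (P : Pt) (hP : P.Good) : P.A.det = (1 + P.eta) ^ 4 * P.m := by
  have he := P.one_add_eta_pos hP
  set f : Module.Dual ℝ EE := (1 + P.eta)⁻¹ • (innerSL ℝ P.wv : EE →L[ℝ] ℝ).toLinearMap with hf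
  have h1 : (P.A : EE →ₗ[ℝ] EE) = (1 + P.eta) • LinearMap.transvection f P.θ := by
    ext v
    have h2 : (P.A : EE →ₗ[ℝ] EE) v = P.A v := rfl
    rw [h2, Pt.A_apply', LinearMap.smul_apply, LinearMap.transvection.apply, hf, LinearMap.smul_apply]
    have h3 : (innerSL ℝ P.wv : EE →L[ℝ] ℝ).toLinearMap v = inner ℝ P.wv v := rfl
    rw [h3, smul_add, smul_eq_mul, smul_smul, ← mul_assoc, mul_inv_cancel₀ he.ne', one_mul]
  show LinearMap.det (P.A : EE →ₗ[ℝ] EE) = _
  rw [h1, LinearMap.det_smul, LinearMap.transvection.det]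
  have h4 : Module.finrank ℝ EE = 5 := by simp
  have h5 : f P.θ = (1 + P.eta)⁻¹ * P.etad := by
    rw [hf, LinearMap.smul_apply, smul_eq_mul]
    congr 1
    exact P.inner_wv_θ hP
  rw [h4, h5]
  have h6 : P.m = (1 + P.eta) + P.etad := by
    unfold Pt.m
    ring
  rw [h6]
  field_simp

end
end OD16
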