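import Pool.Agent.LibOD16.BTop
import Pool.Agent.LibOD16.BFh
import Pool.Agent.LibOD16.BInv

set_option autoImplicit false
namespace OD16
open MvPolynomial MeasureTheory Metric
noncomputable section

namespace AData

variable {h δ : ℝ} (D : AData h δ)

private lemma Ph_zero' : D.Ph 0 = 0 := by
  unfold Ph
  rw [smul_zero]

private lemma Ps_zero' : D.Ps 0 = 0 := by
  have h1 := D.Ps_Ph (x := 0) (mem_ball_self (by norm_num))
  rwa [D.Ph_zero'] at h1

/-- TASK BF.  The derivative of `F = f^ ∘ Φ⁻¹`:  `HasFDerivAt.of_local_left_inverse` with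
`Pt.exists_equiv`, `continuousOn_Ps`; then `⟨gh, A v⟩ = ⟨Aᵀ gh, v⟩`, `Pt.inner_At`, `Pt.At_grad`.
At `X = 0` everything is near the identity and `gh 0 = 0`. -/
lemma hasFDerivAt_F {X : EE} (hX : X ∈ D.dom) : HasFDerivAt D.F (innerSL ℝ (D.gF X)) X := by
  have hc : ContinuousAt D.Ps X := D.continuousOn_Ps.continuousAt (D.isOpen_dom.mem_nhds hX)
  have hev : ∀ᶠ Y in nhds X, D.Ph (D.Ps Y) = Y := by
    filter_upwards [D.isOpen_dom.mem_nhds hX] with Y hY
    exact D.Ph_Ps hY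
  by_cases h0 : X = 0
  · subst h0
    have h1 : HasFDerivAt D.Ph ((ContinuousLinearEquiv.refl ℝ EE : EE ≃L[ℝ] EE) : EE →L[ℝ] EE)
        (D.Ps 0) := by
      rw [D.Ps_zero']
      exact D.hasFDerivAt_Ph_zero
    have h2 := HasFDerivAt.of_local_left_inverse hc h1 hev
    have h3 : HasFDerivAt D.fh (0 : EE →L[ℝ] ℝ) (D.Ps 0) := by
      rw [D.Ps_zero']
      exact D.hasFDerivAt_fh_zero
    have h4 := h3.comp 0 h2
    refine h4.congr_fderiv ?_
    rw [gF, D.Ps_zero', D.gh_zero]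
    simp
  · have hx : D.Ps X ≠ 0 := by
      intro e
      apply h0
      rw [← D.Ph_Ps hX, e, D.Ph_zero']
    have h1 : ‖D.Ps X‖ < 1 := mem_ball_zero_iff.1 (D.Ps_mem hX)
    have hgood := D.good hx h1.le
    obtain ⟨e, he⟩ := (D.P (D.Ps X)).exists_equiv hgood
    have h2 : HasFDerivAt D.Ph (e : EE →L[ℝ] EE) (D.Ps X) := by
      rw [he]
      exact D.hasFDerivAt_Ph hx h1
    have h3 := HasFDerivAt.of_local_left_inverse hc h2 hev
    have h4 := (D.hasFDerivAt_fh hx h1).comp X h3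
    refine h4.congr_fderiv ?_
    ext v
    obtain ⟨u, rfl⟩ := e.surjective v
    rw [ContinuousLinearMap.comp_apply, ContinuousLinearEquiv.coe_coe, e.symm_apply_apply,
      innerSL_apply_apply, innerSL_apply_apply]
    have h5 : e u = (D.P (D.Ps X)).A u := by rw [← he]; rfl
    rw [h5, Pt.inner_At, gF, gh, Pt.At_smul, Pt.At_grad _ hgood]

lemma continuousOn_gF : ContinuousOn D.gF D.dom :=
  D.continuousOn_gh.comp D.continuousOn_Ps fun _ hX => ball_subset_closedBall (D.Ps_mem hX)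

lemma Ps_zero : D.Ps 0 = 0 := D.Ps_zero'

lemma F_zero : D.F 0 = 1 / (1 + D.q) := by
  rw [F, D.Ps_zero', D.fh_zero]

lemma gF_zero : D.gF 0 = 0 := by
  rw [gF, D.Ps_zero', D.gh_zero]

end AData

end
end OD16
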