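import Pool.Agent.LibOD16.BF

set_option autoImplicit false
namespace OD16
open MvPolynomial MeasureTheory Metric
noncomputable section

lemma norm_rot23 (a : ℝ) (x : EE) : ‖rot23 a x‖ = ‖x‖ := by
  rw [EuclideanSpace.norm_eq, EuclideanSpace.norm_eq]
  congr 1
  simp only [Fin.sum_univ_five, Real.norm_eq_abs, sq_abs, rot23]
  simp
  linear_combination (x 2 ^ 2 + x 3 ^ 2) * Real.sin_sq_add_cos_sq a

lemma rot23_smul (a c : ℝ) (x : EE) : rot23 a (c • x) = c • rot23 a x := by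
  ext i
  fin_cases i <;> simp [rot23] <;> ring

lemma rot23_neg_rot23 (a : ℝ) (x : EE) : rot23 (-a) (rot23 a x) = x := by
  ext i
  fin_cases i
  · simp [rot23]
  · simp [rot23]
  · simp [rot23]
    linear_combination (x 2) * Real.sin_sq_add_cos_sq a
  · simp [rot23]
    linear_combination (x 3) * Real.sin_sq_add_cos_sq a
  · simp [rot23]

lemma dir_rot23 (a : ℝ) (x : EE) : dir (rot23 a x) = rot23 a (dir x) := by
  unfold dir
  rw [norm_rot23, rot23_smul]

private lemma rot23_zero (a : ℝ) : rot23 a 0 = 0 := by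
  ext i
  fin_cases i <;> simp [rot23]

private lemma tm_rot23 (a : ℝ) (x : EE) : tm (rot23 a x) = tm x := by
  unfold tm
  simp only [norm_rot23]

namespace AData

variable {h δ : ℝ} (D : AData h δ)

private lemma j0_rot (a : ℝ) {x : EE} (hx : x ≠ 0) : (D.P (rot23 a x)).j0 = (D.P x).j0 := by
  change D.j0.ev (tm (rot23 a x)) (dir (rot23 a x)) = D.j0.ev (tm x) (dir x)
  rw [tm_rot23, dir_rot23]
  exact D.rot a (tm x) ⟨dir x, dir_mem hx⟩

private lemma chi_rot (a : ℝ) (x : EE) : (D.P (rot23 a x)).χ = (D.P x).χ := by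
  change chi (tm (rot23 a x)) = chi (tm x)
  rw [tm_rot23]

/-- TASK BRo.  Rotation invariance (`D.rot`). -/
lemma Ph_rot (a : ℝ) (x : EE) : D.Ph (rot23 a x) = rot23 a (D.Ph x) := by
  by_cases hx : x = 0
  · subst hx
    unfold Ph
    rw [rot23_zero, smul_zero, rot23_zero]
  · unfold Ph Pt.eta
    rw [D.j0_rot a hx, D.chi_rot a x, rot23_smul]

lemma rot_dom : ∀ a : ℝ, ∀ X ∈ D.dom, rot23 a X ∈ D.dom := by
  rintro a _ ⟨x, hx, rfl⟩
  refine ⟨rot23 a x, ?_, D.Ph_rot a x⟩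
  rw [mem_ball_zero_iff] at hx ⊢
  rw [norm_rot23]
  exact hx

private lemma fh_rot (a : ℝ) (x : EE) : D.fh (rot23 a x) = D.fh x := by
  by_cases hx : x = 0
  · subst hx
    rw [rot23_zero]
  · unfold fh
    rw [D.j0_rot a hx, D.chi_rot a x, norm_rot23]

lemma rot_F : ∀ a : ℝ, ∀ X ∈ D.dom, D.F (rot23 a X) = D.F X := by
  rintro a _ ⟨x, hx, rfl⟩
  have hx' : rot23 a x ∈ ball (0 : EE) 1 := by
    rw [mem_ball_zero_iff] at hx ⊢
    rw [norm_rot23]
    exact hx
  unfold F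
  rw [← D.Ph_rot, D.Ps_Ph hx', D.Ps_Ph hx, D.fh_rot]

end AData

end
end OD16
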