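import Pool.Agent.LibOD16.HarmNorm

set_option autoImplicit false
namespace OD16
open MvPolynomial MeasureTheory Metric
noncomputable section

/-- The coefficients of the partial derivative. -/
private def ds (i : Fin 5) (c : (l : ℕ) → V l) (l : ℕ) : V l :=
  (2 * (l : ℝ) + 5) • dn i l (c (l + 1))

private def Cls (c : (l : ℕ) → V l) : Prop :=
  ∀ N : ℕ, Summable fun l : ℕ => ((l : ℝ) + 1) ^ N * (3 / 4) ^ l * ‖c l‖

private lemma cls_of (c : (l : ℕ) → V l) (hc : Summable fun l => ‖c l‖) : Cls c := by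
  intro N
  have h1 := tendsto_pow_const_mul_const_pow_of_abs_lt_one (r := (3 / 4 : ℝ)) N
    (by norm_num [abs_lt])
  have h2 := (Filter.tendsto_add_atTop_iff_nat 1).mpr h1
  obtain ⟨C, hC⟩ := h2.bddAbove_range
  have h3 : Summable (fun l : ℕ => (4 / 3 * C) * ‖c l‖) := hc.mul_left _
  refine Summable.of_nonneg_of_le (fun l => by positivity) (fun l => ?_) h3
  have h4 : ((l + 1 : ℕ) : ℝ) ^ N * (3 / 4) ^ (l + 1) ≤ C := hC ⟨l, rfl⟩
  have h5 : ((l : ℝ) + 1) ^ N * (3 / 4) ^ l ≤ 4 / 3 * C := by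
    push_cast at h4
    rw [pow_succ] at h4
    linarith
  exact mul_le_mul_of_nonneg_right h5 (norm_nonneg _)

private lemma norm_ds_le (i : Fin 5) (c : (l : ℕ) → V l) (l : ℕ) :
    ‖ds i c l‖ ≤ (2 * (l : ℝ) + 5) * ‖c (l + 1)‖ := by
  unfold ds
  rw [norm_smul, Real.norm_eq_abs, abs_of_pos (by positivity)]
  exact mul_le_mul_of_nonneg_left (norm_dn_le i _) (by positivity)

private lemma cls_ds (i : Fin 5) (c : (l : ℕ) → V l) (hc : Cls c) : Cls (ds i c) := by
  intro N
  have h1 := (summable_nat_add_iff 1).mpr (hc (N + 1))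
  have h3 := h1.mul_left (5 * (4 / 3))
  refine Summable.of_nonneg_of_le (fun l => by positivity) (fun l => ?_) h3
  push_cast
  have h2 := norm_ds_le i c l
  have h4 : ((l : ℝ) + 1) ^ N ≤ ((l : ℝ) + 1 + 1) ^ N := by
    apply pow_le_pow_left₀ (by positivity)
    linarith
  have h5 : 2 * (l : ℝ) + 5 ≤ 5 * ((l : ℝ) + 1 + 1) := by
    have : (0 : ℝ) ≤ l := Nat.cast_nonneg l
    linarith
  calc ((l : ℝ) + 1) ^ N * (3 / 4) ^ l * ‖ds i c l‖
      ≤ ((l : ℝ) + 1) ^ N * (3 / 4) ^ l * ((2 * (l : ℝ) + 5) * ‖c (l + 1)‖) := by gcongr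
    _ ≤ ((l : ℝ) + 1 + 1) ^ N * (3 / 4) ^ l * ((5 * ((l : ℝ) + 1 + 1)) * ‖c (l + 1)‖) := by
        gcongr
    _ = 5 * (4 / 3) * (((l : ℝ) + 1 + 1) ^ (N + 1) * (3 / 4) ^ (l + 1) * ‖c (l + 1)‖) := by
        rw [pow_succ, pow_succ]
        ring

private lemma abs_ev_ball {l : ℕ} (P : V l) {x : E5} (hx : x ∈ ball (0 : E5) (3 / 2)) :
    |P.ev x| ≤ (3 / 4) ^ l * ‖P‖ := by
  refine (P.abs_ev_le' x).trans ?_
  have h1 : ‖x‖ / 2 ≤ 3 / 4 := by
    rw [mem_ball_zero_iff] at hx
    linarith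
  gcongr

private lemma summable_bd (c : (l : ℕ) → V l) (hc : Cls c) :
    Summable (fun l : ℕ => (3 / 4 : ℝ) ^ l * ‖c l‖) := by
  have h1 := hc 0
  simpa using h1

private lemma summable_ev (c : (l : ℕ) → V l) (hc : Cls c) {x : E5}
    (hx : x ∈ ball (0 : E5) (3 / 2)) : Summable (fun l => (c l).ev x) :=
  Summable.of_norm_bounded (summable_bd c hc) (fun l => abs_ev_ball (c l) hx)

private lemma pev_ds (i : Fin 5) (c : (l : ℕ) → V l) (l : ℕ) (x : E5) :
    pev (pderiv i (c (l + 1)).pol) x = (ds i c l).ev x := by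
  unfold ds
  rw [V.ev_smul]
  show _ = (2 * (l : ℝ) + 5) * pev (dn i l (c (l + 1))).pol x
  rw [dn_pol, pev_smul, ← mul_assoc, mul_inv_cancel₀ (by positivity), one_mul]

private lemma hasSum_ds (i : Fin 5) (c : (l : ℕ) → V l) (hc : Cls c) {x : E5}
    (hx : x ∈ ball (0 : E5) (3 / 2)) :
    HasSum (fun l => pev (pderiv i (c l).pol) x) (∑' l, (ds i c l).ev x) := by
  have h1 := (summable_ev (ds i c) (cls_ds i c hc) hx).hasSum
  have h2 : HasSum (fun l => pev (pderiv i (c (l + 1)).pol) x) (∑' l, (ds i c l).ev x) := by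
    have : (fun l => pev (pderiv i (c (l + 1)).pol) x) = fun l => (ds i c l).ev x := by
      ext l
      exact pev_ds i c l x
    rw [this]
    exact h1
  have h3 := (hasSum_nat_add_iff (f := fun l => pev (pderiv i (c l).pol) x) 1).mp h2
  rw [Finset.sum_range_one, pderiv_hom_zero (c 0).hom, pev_zero, add_zero] at h3
  exact h3

/-- The bound of the derivatives. -/
private def ub (c : (l : ℕ) → V l) : ℕ → ℝ
  | 0 => 0
  | (l + 1) => ∑ i : Fin 5, (3 / 4) ^ l * ‖ds i c l‖ * ‖(EuclideanSpace.proj i : E5 →L[ℝ] ℝ)‖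

private lemma hasFDerivAt_fs (c : (l : ℕ) → V l) (hc : Cls c) {x : E5}
    (hx : x ∈ ball (0 : E5) (3 / 2)) :
    HasFDerivAt (fun x : E5 => ∑' l, (c l).ev x)
      (∑ i : Fin 5, (∑' l, (ds i c l).ev x) • (EuclideanSpace.proj i : E5 →L[ℝ] ℝ)) x := by
  have hu : Summable (ub c) := by
    rw [← summable_nat_add_iff 1]
    show Summable (fun l : ℕ => ∑ i : Fin 5, (3 / 4 : ℝ) ^ l * ‖ds i c l‖ *
      ‖(EuclideanSpace.proj i : E5 →L[ℝ] ℝ)‖)
    apply summable_sum
    intro i _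
    exact (summable_bd _ (cls_ds i c hc)).mul_right _
  have h1 := hasFDerivAt_tsum_of_isPreconnected (𝕜 := ℝ) (u := ub c)
    (f := fun l (x : E5) => (c l).ev x)
    (f' := fun l (x : E5) => ∑ i : Fin 5, pev (pderiv i (c l).pol) x •
      (EuclideanSpace.proj i : E5 →L[ℝ] ℝ)) (s := ball (0 : E5) (3 / 2)) (x₀ := x) (x := x)
    hu isOpen_ball (convex_ball _ _).isPreconnected
    (fun l y _ => (c l).hasFDerivAt_ev y)
    (by
      intro l y hy
      refine (norm_sum_le _ _).trans ?_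
      cases l with
      | zero =>
        simp only [pderiv_hom_zero (c 0).hom, pev_zero, zero_smul, norm_zero,
          Finset.sum_const_zero]
        exact le_refl _
      | succ l =>
        apply Finset.sum_le_sum
        intro i _
        rw [norm_smul, pev_ds]
        exact mul_le_mul_of_nonneg_right (abs_ev_ball _ hy) (norm_nonneg _))
    hx (summable_ev c hc hx) hx
  have h2 : (∑' l, ∑ i : Fin 5, pev (pderiv i (c l).pol) x •
      (EuclideanSpace.proj i : E5 →L[ℝ] ℝ))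
      = ∑ i : Fin 5, (∑' l, (ds i c l).ev x) • (EuclideanSpace.proj i : E5 →L[ℝ] ℝ) := by
    apply HasSum.tsum_eq
    apply hasSum_sum
    intro i _
    exact (hasSum_ds i c hc hx).smul_const _
  rw [h2] at h1
  exact h1

private lemma smooth_cls (n : ℕ) : ∀ (c : (l : ℕ) → V l), Cls c →
    ContDiffOn ℝ n (fun x : E5 => ∑' l, (c l).ev x) (ball 0 (3 / 2)) := by
  induction n with
  | zero =>
    intro c hc
    rw [Nat.cast_zero, contDiffOn_zero]
    intro x hx
    exact (hasFDerivAt_fs c hc hx).continuousAt.continuousWithinAt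
  | succ n ih =>
    intro c hc
    rw [Nat.cast_succ, contDiffOn_succ_iff_fderiv_of_isOpen isOpen_ball]
    refine ⟨fun x hx => (hasFDerivAt_fs c hc hx).differentiableAt.differentiableWithinAt, ?_, ?_⟩
    · intro hn
      exact absurd hn (by simp)
    · have h1 : ContDiffOn ℝ n (fun x : E5 =>
          ∑ i : Fin 5, (∑' l, (ds i c l).ev x) • (EuclideanSpace.proj i : E5 →L[ℝ] ℝ))
          (ball 0 (3 / 2)) := by
        apply ContDiffOn.sum
        intro i _
        exact (ih (ds i c) (cls_ds i c hc)).smul contDiffOn_const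
      apply h1.congr
      intro x hx
      exact (hasFDerivAt_fs c hc hx).fderiv

/-- TASK H17.  Sums of harmonics with summable norms are smooth on the ball of radius `3/2`
(`|P(x)| ≤ (|x|/2)^l ‖P‖`, the derivative `∂_i P = (2l+3) dn_i P` with `‖dn_i P‖ ≤ ‖P‖`). -/
lemma smooth_sum (c : (l : ℕ) → V l) (hc : Summable fun l => ‖c l‖) :
    ContDiffOn ℝ ((⊤ : ℕ∞) : WithTop ℕ∞) (fun x : E5 => ∑' l, (c l).ev x) (ball 0 (3 / 2)) := by
  rw [contDiffOn_infty]
  intro n
  exact smooth_cls n c (cls_of c hc)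

end
end OD16
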