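import Pool.Agent.LibOD16.BTop
import Pool.Agent.LibOD16.HarmSmooth

set_option autoImplicit false
namespace OD16
open MvPolynomial MeasureTheory Metric
noncomputable section

private lemma contDiffAt_dir {x : EE} (hx : x ≠ 0) :
    ContDiffAt ℝ ((⊤ : ℕ∞) : WithTop ℕ∞) dir x := by
  unfold dir
  exact ((contDiffAt_norm ℝ hx).inv (norm_ne_zero_iff.2 hx)).smul contDiffAt_id

private lemma norm_dir_eq {x : EE} (hx : x ≠ 0) : ‖dir x‖ = 1 := by
  unfold dir
  rw [norm_smul, norm_inv, norm_norm, inv_mul_cancel₀ (norm_ne_zero_iff.2 hx)]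

private lemma dir_smul_eq {c : ℝ} (hc : 0 < c) (x : EE) : dir (c • x) = dir x := by
  unfold dir
  rw [norm_smul, Real.norm_eq_abs, abs_of_pos hc, smul_smul]
  congr 1
  rw [mul_inv, mul_comm c⁻¹, mul_assoc, inv_mul_cancel₀ hc.ne', mul_one]

namespace AData

variable {h δ : ℝ} (D : AData h δ)

/-- the radial defining function -/
private def rho0 (X : EE) : ℝ := ‖X‖ - 1 - D.j0.ev t0 (dir X)

private lemma contDiffAt_rho0 {x : EE} (hx : x ≠ 0) :
    ContDiffAt ℝ ((⊤ : ℕ∞) : WithTop ℕ∞) D.rho0 x := by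
  unfold rho0
  refine ((contDiffAt_norm ℝ hx).sub contDiffAt_const).sub ?_
  have hsum : Summable fun l => ‖D.j0.c l t0‖ := by
    refine Summable.of_nonneg_of_le (fun l => norm_nonneg _) (fun l => ?_) D.j0.summable_norm
    exact (D.j0.c l).norm_coe_le_norm t0
  have h1 := smooth_sum (fun l => D.j0.c l t0) hsum
  have hmem : dir x ∈ ball (0 : EE) (3 / 2) := by
    rw [mem_ball_zero_iff, norm_dir_eq hx]
    norm_num
  have h2 : ContDiffAt ℝ ((⊤ : ℕ∞) : WithTop ℕ∞) (fun y : EE => ∑' l, (D.j0.c l t0).ev y)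
      (dir x) := h1.contDiffAt (isOpen_ball.mem_nhds hmem)
  exact h2.comp x (contDiffAt_dir hx)

/-- TASK BSm.  Smooth boundary: `ρ = ‖X‖ - 1 - (∑ l, (j0.c l 0).ev (X/|X|))` near `X₀`, cut off by a
smooth bump function so that it is smooth everywhere; `smooth_sum`, `mem_dom_iff`,
`frontier_dom`; the radial derivative of `ρ` is `1`. -/
theorem smooth_dom : ∀ X₀ ∈ frontier D.dom, ∃ U ∈ nhds X₀, ∃ ρ : EE → ℝ,
    ContDiff ℝ ((⊤ : ℕ∞) : WithTop ℕ∞) ρ ∧ fderiv ℝ ρ X₀ ≠ 0 ∧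
      D.dom ∩ U = {X | ρ X < 0} ∩ U := by
  intro X₀ hX₀
  obtain ⟨hne, -⟩ := D.frontier_dom hX₀
  have hpos : 0 < ‖X₀‖ := norm_pos_iff.2 hne
  let ψ : ContDiffBump X₀ := ⟨‖X₀‖ / 4, ‖X₀‖ / 2, by linarith, by linarith⟩
  have hψ1 : ∀ x ∈ ball X₀ (‖X₀‖ / 4), ψ x = 1 := fun x hx =>
    ψ.one_of_mem_closedBall (ball_subset_closedBall hx)
  have hball : ∀ x ∈ ball X₀ (‖X₀‖ / 4), x ≠ 0 := by
    rintro x hx rfl
    rw [mem_ball, dist_zero_left] at hx
    linarith
  have hρ : ∀ x ∈ ball X₀ (‖X₀‖ / 4), ψ x * D.rho0 x = D.rho0 x := by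
    intro x hx
    rw [hψ1 x hx, one_mul]
  have hsm : ContDiff ℝ ((⊤ : ℕ∞) : WithTop ℕ∞) (fun x => ψ x * D.rho0 x) := by
    rw [contDiff_iff_contDiffAt]
    intro x
    by_cases hx : x = 0
    · subst hx
      have h1 : (fun x => ψ x * D.rho0 x) =ᶠ[nhds (0 : EE)] fun _ => 0 := by
        have h2 : ball (0 : EE) (‖X₀‖ / 2) ∈ nhds (0 : EE) := ball_mem_nhds _ (by linarith)
        filter_upwards [h2] with y hy
        have h3 : ψ y = 0 := by
          apply ψ.zero_of_le_dist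
          rw [mem_ball_zero_iff] at hy
          change ‖X₀‖ / 2 ≤ dist y X₀
          rw [dist_eq_norm]
          have h4 := norm_sub_norm_le X₀ y
          rw [norm_sub_rev] at h4
          linarith
        rw [h3, zero_mul]
      exact contDiffAt_const.congr_of_eventuallyEq h1
    · exact ψ.contDiff.contDiffAt.mul (D.contDiffAt_rho0 hx)
  refine ⟨ball X₀ (‖X₀‖ / 4), ball_mem_nhds _ (by linarith), fun x => ψ x * D.rho0 x, hsm, ?_, ?_⟩
  · intro h0
    have hd : HasFDerivAt (fun x => ψ x * D.rho0 x) (0 : EE →L[ℝ] ℝ) X₀ := by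
      rw [← h0]
      exact (hsm.differentiable (by simp)).differentiableAt.hasFDerivAt
    have hray : HasDerivAt (fun s : ℝ => s • X₀) X₀ 1 := by
      simpa using (hasDerivAt_id (1 : ℝ)).smul_const X₀
    have hd' : HasFDerivAt (fun x => ψ x * D.rho0 x) (0 : EE →L[ℝ] ℝ) ((1 : ℝ) • X₀) := by
      rw [one_smul]
      exact hd
    have h1 : HasDerivAt (fun s : ℝ => ψ (s • X₀) * D.rho0 (s • X₀)) 0 1 := by
      have h7 := HasFDerivAt.comp_hasDerivAt (f := fun s : ℝ => s • X₀)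
        (l := fun x => ψ x * D.rho0 x) (1 : ℝ) hd' hray
      simpa only [Function.comp_def, zero_apply] using h7
    have h2 : (fun s : ℝ => ψ (s • X₀) * D.rho0 (s • X₀)) =ᶠ[nhds (1 : ℝ)]
        fun s : ℝ => s * ‖X₀‖ - 1 - D.j0.ev t0 (dir X₀) := by
      have h3 : ∀ᶠ s : ℝ in nhds 1, s • X₀ ∈ ball X₀ (‖X₀‖ / 4) := by
        have hc : ContinuousAt (fun s : ℝ => s • X₀) 1 := by fun_prop
        have h8 : ball X₀ (‖X₀‖ / 4) ∈ nhds ((1 : ℝ) • X₀) := by
          rw [one_smul]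
          exact ball_mem_nhds _ (by linarith)
        exact hc h8
      have h4 : ∀ᶠ s : ℝ in nhds 1, 0 < s := lt_mem_nhds one_pos
      filter_upwards [h3, h4] with s hs hs0
      rw [hρ _ hs]
      unfold rho0
      rw [norm_smul, Real.norm_eq_abs, abs_of_pos hs0, dir_smul_eq hs0]
    have h5 : HasDerivAt (fun s : ℝ => s * ‖X₀‖ - 1 - D.j0.ev t0 (dir X₀)) ‖X₀‖ 1 := by
      have := (((hasDerivAt_id (1 : ℝ)).mul_const ‖X₀‖).sub_const 1).sub_const
        (D.j0.ev t0 (dir X₀))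
      simpa using this
    have h6 := (h1.congr_of_eventuallyEq h2.symm).unique h5
    linarith
  · ext X
    simp only [Set.mem_inter_iff, Set.mem_ofPred_eq]
    constructor
    · rintro ⟨h1, h2⟩
      refine ⟨?_, h2⟩
      rw [hρ X h2]
      rcases (D.mem_dom_iff X).1 h1 with h3 | ⟨-, h3⟩
      · exact absurd h3 (hball X h2)
      · unfold rho0
        linarith
    · rintro ⟨h1, h2⟩
      refine ⟨?_, h2⟩
      rw [hρ X h2] at h1
      unfold rho0 at h1
      exact (D.mem_dom_iff X).2 (Or.inr ⟨hball X h2, by linarith⟩)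

end AData

end
end OD16
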