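import Pool.Agent.LibOD16.BCv
import Pool.Agent.LibOD16.BBd
import Pool.Agent.LibOD16.BSm
import Pool.Agent.LibOD16.BRo

set_option autoImplicit false
namespace OD16
open MvPolynomial MeasureTheory Metric
noncomputable section

namespace AData

variable {h δ : ℝ} (D : AData h δ)

/-- The failure of the P-identity at the centre. -/
lemma fail_F : 10 * (1 + 1 / (1 - δ)) * D.F 0 ≠ (10 - δ) * (1 / (1 + D.ν)) ^ (2 - δ) := by
  have hq : 0 < 1 - δ := by have := D.δ_lt; linarith
  have hν : 0 < 1 + D.ν := by have := abs_le.mp D.ν_small; linarith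
  rw [D.F_zero]
  unfold AData.q
  have h1 : (0 : ℝ) < 1 + 1 / (1 - δ) := by positivity
  have h2 : 10 * (1 + 1 / (1 - δ)) * (1 / (1 + 1 / (1 - δ))) = 10 := by
    field_simp
  rw [h2]
  intro h3
  apply D.fail
  have h4 : (1 / (1 + D.ν)) ^ (2 - δ) = ((1 + D.ν) ^ (2 - δ))⁻¹ := by
    rw [one_div, Real.inv_rpow hν.le]
  rw [h4] at h3
  have h5 : 0 < (1 + D.ν) ^ (2 - δ) := Real.rpow_pos_of_pos hν _
  field_simp at h3
  linarith

/-- The solution of the reduced problem. -/
def reduced : Reduced h δ where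
  dom := D.dom
  F := D.F
  gF := D.gF
  c := 1 / (1 + D.ν)
  h_pos := D.h_pos
  h_le := D.h_le
  δ_pos := D.δ_pos
  δ_lt := D.δ_lt
  isOpen_dom := D.isOpen_dom
  zero_mem := D.zero_mem_dom
  star := D.star_dom
  dom_sub := D.closure_dom_sub.trans (closedBall_subset_ball (by norm_num))
  hasFDeriv := fun X hX => D.hasFDerivAt_F hX
  cont_gF := D.continuousOn_gF
  weak := D.weak_dom
  bdry := D.bdry_dom
  smooth := D.smooth_dom
  c_pos := by
    have := abs_le.mp D.ν_small
    have : 0 < 1 + D.ν := by linarith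
    positivity
  rot_dom := D.rot_dom
  rot_F := D.rot_F
  grad_zero := D.gF_zero
  fail := D.fail_F

end AData

end
end OD16
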