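import Pool.Agent.LibOD16.BDer
import Pool.Agent.LibOD16.BGood

set_option autoImplicit false
namespace OD16
open MvPolynomial MeasureTheory Metric
noncomputable section

namespace AData

variable {h δ : ℝ} (D : AData h δ)

lemma tm_eq_log {x : EE} (h1 : ‖x‖ < 1) : ((tm x : Tm) : ℝ) = Real.log ‖x‖ := by
  change min (Real.log ‖x‖) 0 = Real.log ‖x‖
  exact min_eq_left (Real.log_nonpos (norm_nonneg x) h1.le)

lemma eta_def (x : EE) : (D.P x).eta = chi (tm x) * D.j0.fn x := rfl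

/-- TASK BPh.  `Φ` is the identity near `0`. -/
lemma Ph_eq_self {x : EE} (h1 : ‖x‖ ≤ Real.exp (-1)) : D.Ph x = x := by
  by_cases hx : x = 0
  · subst hx
    unfold Ph
    rw [smul_zero]
  · have h2 : 0 < ‖x‖ := norm_pos_iff.2 hx
    have h3 : Real.log ‖x‖ ≤ -1 := by
      rw [Real.log_le_iff_le_exp h2]
      exact h1
    have h4 : ((tm x : Tm) : ℝ) ≤ -1 := le_trans (min_le_left _ _) h3
    unfold Ph
    rw [eta_def, chi_eq_zero h4, zero_mul, add_zero, one_smul]

lemma hasFDerivAt_log_norm {x : EE} (hx : x ≠ 0) :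
    HasFDerivAt (fun y : EE => Real.log ‖y‖) (innerSL ℝ (‖x‖⁻¹ • dir x)) x := by
  have h2 : ‖x‖ ≠ 0 := norm_ne_zero_iff.2 hx
  have h3 : HasFDerivAt (fun y : EE => ‖y‖ ^ 2) (2 • (innerSL ℝ x)) x :=
    (hasStrictFDerivAt_norm_sq x).hasFDerivAt
  have h4 : HasFDerivAt (fun y : EE => (1 / 2) * Real.log (‖y‖ ^ 2))
      ((1 / 2 : ℝ) • ((‖x‖ ^ 2)⁻¹ • (2 • (innerSL ℝ x)))) x :=
    (h3.log (pow_ne_zero 2 h2)).const_mul (1 / 2)
  have h5 : (fun y : EE => (1 / 2) * Real.log (‖y‖ ^ 2)) = fun y : EE => Real.log ‖y‖ := by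
    funext y
    rw [Real.log_pow]
    push_cast
    ring
  rw [h5] at h4
  have h6 : ((1 / 2 : ℝ) • ((‖x‖ ^ 2)⁻¹ • (2 • (innerSL ℝ x)))) =
      innerSL ℝ (‖x‖⁻¹ • dir x) := by
    ext v
    simp only [dir, smul_apply, innerSL_apply_apply, smul_eq_mul,
      inner_smul_left, RCLike.conj_to_real, nsmul_eq_mul]
    push_cast
    field_simp
  rw [h6] at h4
  exact h4

/-- Derivative of `η = χ(log |x|) j0(x)`: `∇η = |x|⁻¹ (η' θ + χ J)`. -/
lemma hasFDerivAt_eta {x : EE} (hx : x ≠ 0) (h1 : ‖x‖ < 1) :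
    HasFDerivAt (fun y => (D.P y).eta)
      (innerSL ℝ (‖x‖⁻¹ • ((D.P x).etad • (D.P x).θ + (D.P x).χ • (D.P x).J))) x := by
  have h2 := hasFDerivAt_log_norm hx
  have h3 : HasFDerivAt (fun y : EE => chi (Real.log ‖y‖))
      (chid (Real.log ‖x‖) • innerSL ℝ (‖x‖⁻¹ • dir x)) x := by
    have h30 := HasDerivAt.comp_hasFDerivAt (h₂ := chi) x (hasDerivAt_chi (Real.log ‖x‖)) h2
    exact h30
  have h4 := h3.mul (D.hasFDerivAt_j0 hx h1)
  have h5 : (fun y => (D.P y).eta) =ᶠ[nhds x]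
      fun y : EE => chi (Real.log ‖y‖) * D.j0.fn y := by
    have h6 : {y : EE | ‖y‖ < 1} ∈ nhds x := (isOpen_lt continuous_norm continuous_const).mem_nhds h1
    filter_upwards [h6] with y hy
    rw [eta_def, tm_eq_log hy]
  refine (h4.congr_of_eventuallyEq h5).congr_fderiv ?_
  ext v
  have e1 : (D.P x).χ = chi (Real.log ‖x‖) := by
    change chi (tm x) = _
    rw [tm_eq_log h1]
  have e2 : (D.P x).etad = chid (Real.log ‖x‖) * D.j0.fn x + chi (Real.log ‖x‖) * D.j1.fn x := by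
    change chid (tm x) * D.j0.fn x + chi (tm x) * D.j1.fn x = _
    rw [tm_eq_log h1]
  have e3 : (D.P x).θ = dir x := rfl
  rw [e1, e2, e3]
  simp only [add_apply, smul_apply, innerSL_apply_apply,
    smul_eq_mul, inner_smul_left, inner_add_left, RCLike.conj_to_real]
  ring

/-- Derivative of `Φ`. -/
lemma hasFDerivAt_Ph {x : EE} (hx : x ≠ 0) (h1 : ‖x‖ < 1) : HasFDerivAt D.Ph (D.P x).A x := by
  have h2 : ‖x‖ ≠ 0 := norm_ne_zero_iff.2 hx
  have h3 := ((D.hasFDerivAt_eta hx h1).const_add 1).smul (hasFDerivAt_id x)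
  refine (h3.congr_fderiv ?_)
  ext1 v
  have e3 : (D.P x).θ = dir x := rfl
  unfold Pt.A
  rw [e3]
  simp only [add_apply, smul_apply, id_eq,
    ContinuousLinearMap.smulRight_apply, innerSL_apply_apply, inner_smul_left, inner_add_left,
    RCLike.conj_to_real, ContinuousLinearMap.coe_id']
  congr 1
  unfold dir
  rw [smul_smul, mul_comm]

lemma hasFDerivAt_Ph_zero : HasFDerivAt D.Ph (ContinuousLinearMap.id ℝ EE) 0 := by
  refine (hasFDerivAt_id (0 : EE)).congr_of_eventuallyEq ?_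
  have h6 : {y : EE | ‖y‖ < Real.exp (-1)} ∈ nhds (0 : EE) :=
    (isOpen_lt continuous_norm continuous_const).mem_nhds (by simpa using Real.exp_pos (-1))
  filter_upwards [h6] with y hy
  exact D.Ph_eq_self hy.le

lemma continuousOn_dir : ContinuousOn dir ({0}ᶜ : Set EE) := by
  unfold dir
  exact (continuous_norm.continuousOn.inv₀ fun x hx => norm_ne_zero_iff.2 hx).smul continuousOn_id

lemma continuousOn_A : ContinuousOn (fun x => (D.P x).A) {0}ᶜ := by
  have hχ : ContinuousOn (fun x : EE => (D.P x).χ) {0}ᶜ := by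
    change ContinuousOn (fun x : EE => chi (min (Real.log ‖x‖) 0)) {0}ᶜ
    have h0 : ContinuousOn (fun x : EE => Real.log ‖x‖) {0}ᶜ :=
      ContinuousOn.log continuous_norm.continuousOn fun x hx => norm_ne_zero_iff.2 hx
    exact continuous_chi.comp_continuousOn (h0.inf continuousOn_const)
  have hθ : ContinuousOn (fun x : EE => (D.P x).θ) {0}ᶜ := continuousOn_dir
  have h1 : ContinuousOn (fun x : EE => (D.P x).etad • (D.P x).θ + (D.P x).χ • (D.P x).J) {0}ᶜ :=
    (D.continuousOn_etad.smul hθ).add (hχ.smul D.continuousOn_J)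
  have h2 : ContinuousOn (fun x : EE =>
      innerSL ℝ ((D.P x).etad • (D.P x).θ + (D.P x).χ • (D.P x).J)) {0}ᶜ :=
    (innerSL ℝ (E := EE)).continuous.comp_continuousOn h1
  have h3 : ContinuousOn (fun x : EE => (ContinuousLinearMap.smulRightL ℝ EE EE
      (innerSL ℝ ((D.P x).etad • (D.P x).θ + (D.P x).χ • (D.P x).J))) (D.P x).θ) {0}ᶜ :=
    (((ContinuousLinearMap.smulRightL ℝ EE EE).continuous.comp_continuousOn h2).clm_apply hθ)
  have h4 : ContinuousOn (fun x : EE => (1 + (D.P x).eta) • ContinuousLinearMap.id ℝ EE) {0}ᶜ :=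
    (continuousOn_const.add D.continuousOn_eta).smul continuousOn_const
  exact h4.add h3

/-- `Φ` is `C¹` on the open ball. -/
lemma contDiffOn_Ph : ContDiffOn ℝ 1 D.Ph (ball (0 : EE) 1) := by
  intro x hx
  refine ContDiffAt.contDiffWithinAt ?_
  by_cases h0 : x = 0
  · subst h0
    refine contDiffAt_id.congr_of_eventuallyEq ?_
    have h6 : {y : EE | ‖y‖ < Real.exp (-1)} ∈ nhds (0 : EE) :=
      (isOpen_lt continuous_norm continuous_const).mem_nhds (by simpa using Real.exp_pos (-1))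
    filter_upwards [h6] with y hy
    exact D.Ph_eq_self hy.le
  · rw [contDiffAt_one_iff]
    have hx' : ‖x‖ < 1 := by simpa using hx
    refine ⟨fun y => (D.P y).A, {y : EE | y ≠ 0} ∩ {y : EE | ‖y‖ < 1}, ?_, ?_, ?_⟩
    · exact Filter.inter_mem (isOpen_ne.mem_nhds h0)
        ((isOpen_lt continuous_norm continuous_const).mem_nhds hx')
    · exact D.continuousOn_A.mono fun y hy => hy.1
    · intro y hy
      exact D.hasFDerivAt_Ph hy.1 hy.2

end AData

end
end OD16
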