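import Pool.Agent.LibOD16.BPh

set_option autoImplicit false
namespace OD16
open MvPolynomial MeasureTheory Metric
noncomputable section

namespace AData

variable {h δ : ℝ} (D : AData h δ)

/-- The radial function of `Φ` in the direction `θ`. -/
def rad (θ : EE) (r : ℝ) : ℝ := (1 + (D.P (r • θ)).eta) * r

/-- TASK BRad1. -/
lemma Ph_smul (θ : EE) (r : ℝ) : D.Ph (r • θ) = D.rad θ r • θ := by
  unfold Ph rad
  rw [smul_smul]

private lemma nS4 (θ : S4) : ‖(θ.1 : EE)‖ = 1 := by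
  simp

private lemma ne0S4 (θ : S4) : (θ.1 : EE) ≠ 0 := by
  intro hc
  have := nS4 θ
  rw [hc, norm_zero] at this
  exact zero_ne_one this

private lemma smul_ne0 (θ : S4) {r : ℝ} (h0 : 0 < r) : r • (θ.1 : EE) ≠ 0 :=
  smul_ne_zero h0.ne' (ne0S4 θ)

private lemma norm_smulS4 (θ : S4) {r : ℝ} (h0 : 0 < r) : ‖r • (θ.1 : EE)‖ = r := by
  rw [norm_smul, nS4, mul_one, Real.norm_eq_abs, abs_of_pos h0]

private lemma dir_S4 (θ : S4) : dir θ.1 = θ.1 := by
  unfold dir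
  rw [nS4, inv_one, one_smul]

lemma continuousOn_rad (θ : S4) : ContinuousOn (D.rad θ.1) (Set.Ioi 0) := by
  unfold rad
  apply ContinuousOn.mul _ continuousOn_id
  apply ContinuousOn.add continuousOn_const
  have h1 : ContinuousOn (fun r : ℝ => r • (θ.1 : EE)) (Set.Ioi 0) :=
    (continuous_id.smul continuous_const).continuousOn
  exact D.continuousOn_eta.comp h1 (fun r hr => smul_ne0 θ hr)

lemma rad_eq_self (θ : S4) {r : ℝ} (h0 : 0 < r) (h1 : r ≤ Real.exp (-1)) : D.rad θ.1 r = r := by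
  have hx := smul_ne0 θ h0
  have hn := norm_smulS4 θ h0
  have he : Real.exp (-1) ≤ 1 := by
    rw [Real.exp_le_one_iff]; norm_num
  have hχ : (D.P (r • θ.1)).χ = 0 := by
    rw [D.P_χ hx (by rw [hn]; exact h1.trans he), hn]
    apply chi_eq_zero
    have := Real.log_le_log h0 h1
    rwa [Real.log_exp] at this
  unfold rad Pt.eta
  rw [hχ]
  ring

lemma rad_one (θ : S4) : D.rad θ.1 1 = 1 + D.j0.ev t0 θ.1 := by
  have hx := ne0S4 θ
  have hn := nS4 θ
  have hχ : (D.P θ.1).χ = 1 := by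
    rw [D.P_χ hx hn.le, hn]
    apply chi_eq_one
    rw [Real.log_one]; norm_num
  have ht : tm θ.1 = t0 := by
    apply Subtype.ext
    show min (Real.log ‖(θ.1 : EE)‖) 0 = 0
    rw [hn, Real.log_one, min_self]
  have hj : (D.P θ.1).j0 = D.j0.ev t0 θ.1 := by
    show D.j0.ev (tm θ.1) (dir θ.1) = _
    rw [ht, dir_S4]
  unfold rad Pt.eta
  rw [one_smul, hχ, hj]
  ring

/-- The derivative of the radial function is `m > 0`. -/
lemma hasDerivAt_rad (θ : S4) {r : ℝ} (h0 : 0 < r) (h1 : r < 1) :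
    HasDerivAt (D.rad θ.1) (D.P (r • θ.1)).m r := by
  have hx := smul_ne0 θ h0
  have hn := norm_smulS4 θ h0
  have hF := D.hasFDerivAt_eta hx (by rw [hn]; exact h1)
  have hl : HasDerivAt (fun s : ℝ => s • (θ.1 : EE)) θ.1 r := by
    simpa using (hasDerivAt_id r).smul_const (θ.1 : EE)
  have hc := hF.comp_hasDerivAt r hl
  have hθ : (D.P (r • θ.1)).θ = θ.1 := by
    show dir (r • θ.1) = θ.1
    rw [dir_smul h0, dir_S4]
  have hJ := (D.good hx (by rw [hn]; exact h1.le)).hJ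
  rw [hθ] at hJ
  have hval : (innerSL ℝ (‖r • (θ.1 : EE)‖⁻¹ • ((D.P (r • θ.1)).etad • (D.P (r • θ.1)).θ +
      (D.P (r • θ.1)).χ • (D.P (r • θ.1)).J))) θ.1 = r⁻¹ * (D.P (r • θ.1)).etad := by
    rw [hn, hθ, innerSL_apply_apply, real_inner_smul_left, inner_add_left, real_inner_smul_left,
      real_inner_smul_left, real_inner_self_eq_norm_sq, nS4, real_inner_comm, hJ]
    ring
  rw [hval] at hc
  have hd := (hc.const_add 1).mul (hasDerivAt_id r)
  have he : r⁻¹ * (D.P (r • θ.1)).etad * id r + (1 + (D.P (r • θ.1)).eta) * 1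
      = (D.P (r • θ.1)).m := by
    unfold Pt.m
    have : r⁻¹ * (D.P (r • θ.1)).etad * id r = (D.P (r • θ.1)).etad := by
      show r⁻¹ * (D.P (r • θ.1)).etad * r = _
      field_simp
    rw [this]
    ring
  exact he ▸ hd

lemma strictMonoOn_rad (θ : S4) : StrictMonoOn (D.rad θ.1) (Set.Ioc 0 1) := by
  apply strictMonoOn_of_deriv_pos (convex_Ioc 0 1)
  · exact (D.continuousOn_rad θ).mono (fun r hr => hr.1)
  · intro r hr
    rw [interior_Ioc] at hr
    rw [(D.hasDerivAt_rad θ hr.1 hr.2).deriv]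
    have hx := smul_ne0 θ hr.1
    have hn := norm_smulS4 θ hr.1
    have := (D.good hx (by rw [hn]; exact hr.2.le)).hm
    linarith

private lemma rad_pos (θ : S4) {r : ℝ} (h0 : 0 < r) : 0 < D.rad θ.1 r := by
  unfold rad
  have := abs_le.mp (D.abs_eta_le (smul_ne0 θ h0))
  apply mul_pos _ h0
  linarith [this.1]

private lemma exists_rad (θ : S4) {y : ℝ} (h0 : 0 < y) (h1 : y ≤ 1 + D.j0.ev t0 θ.1) :
    ∃ r ∈ Set.Ioc (0 : ℝ) 1, D.rad θ.1 r = y := by
  set e : ℝ := min y (Real.exp (-1)) with he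
  have he0 : 0 < e := lt_min h0 (Real.exp_pos _)
  have hexp : Real.exp (-1) ≤ 1 := by
    rw [Real.exp_le_one_iff]; norm_num
  have he1 : e ≤ 1 := (min_le_right _ _).trans hexp
  have hr := D.rad_eq_self θ he0 (min_le_right _ _)
  have hc : ContinuousOn (D.rad θ.1) (Set.Icc e 1) :=
    (D.continuousOn_rad θ).mono (fun r hr => lt_of_lt_of_le he0 hr.1)
  have := intermediate_value_Icc he1 hc
  have hy : y ∈ Set.Icc (D.rad θ.1 e) (D.rad θ.1 1) :=
    ⟨by rw [hr]; exact min_le_left _ _, by rw [D.rad_one θ]; exact h1⟩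
  obtain ⟨r, hr1, hr2⟩ := this hy
  exact ⟨r, ⟨lt_of_lt_of_le he0 hr1.1, hr1.2⟩, hr2⟩

/-- The image of `(0,1)` is `(0, 1 + η_0(θ))` and of `(0,1]` is `(0, 1 + η_0(θ)]`. -/
lemma image_rad_Ioo (θ : S4) : D.rad θ.1 '' Set.Ioo 0 1 = Set.Ioo 0 (1 + D.j0.ev t0 θ.1) := by
  ext y
  constructor
  · rintro ⟨r, hr, rfl⟩
    refine ⟨D.rad_pos θ hr.1, ?_⟩
    rw [← D.rad_one θ]
    exact D.strictMonoOn_rad θ ⟨hr.1, hr.2.le⟩ ⟨one_pos, le_rfl⟩ hr.2
  · rintro ⟨h0, h1⟩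
    obtain ⟨r, hr, hy⟩ := D.exists_rad θ h0 h1.le
    refine ⟨r, ⟨hr.1, lt_of_le_of_ne hr.2 ?_⟩, hy⟩
    rintro rfl
    rw [D.rad_one θ] at hy
    exact h1.ne hy.symm

lemma image_rad_Ioc (θ : S4) : D.rad θ.1 '' Set.Ioc 0 1 = Set.Ioc 0 (1 + D.j0.ev t0 θ.1) := by
  ext y
  constructor
  · rintro ⟨r, hr, rfl⟩
    refine ⟨D.rad_pos θ hr.1, ?_⟩
    rw [← D.rad_one θ]
    exact (D.strictMonoOn_rad θ).monotoneOn hr ⟨one_pos, le_rfl⟩ hr.2
  · rintro ⟨h0, h1⟩
    obtain ⟨r, hr, hy⟩ := D.exists_rad θ h0 h1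
    exact ⟨r, hr, hy⟩

end AData

end
end OD16
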