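import Pool.Agent.LibOD16.BRad1

set_option autoImplicit false
namespace OD16
open MvPolynomial MeasureTheory Metric
noncomputable section

namespace AData

variable {h δ : ℝ} (D : AData h δ)

private lemma Ph_zero : D.Ph 0 = 0 := by
  unfold Ph
  rw [smul_zero]

private lemma one_add_eta_pos {x : EE} (hx : x ≠ 0) : 0 < 1 + (D.P x).eta := by
  have := abs_le.mp (D.abs_eta_le hx)
  linarith [this.1]

private lemma Ph_eq (x : EE) : D.Ph x = D.rad (dir x) ‖x‖ • dir x := by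
  rw [← D.Ph_smul, smul_dir]

private lemma Ph_ne {x : EE} (hx : x ≠ 0) : D.Ph x ≠ 0 := by
  unfold Ph
  exact smul_ne_zero (D.one_add_eta_pos hx).ne' hx

private lemma dir_Ph {x : EE} (hx : x ≠ 0) : dir (D.Ph x) = dir x := by
  unfold Ph
  exact dir_smul (D.one_add_eta_pos hx) x

private lemma norm_Ph {x : EE} (hx : x ≠ 0) : ‖D.Ph x‖ = D.rad (dir x) ‖x‖ := by
  rw [Ph_eq, norm_smul, norm_dir hx, mul_one, Real.norm_eq_abs, abs_of_pos]
  unfold rad
  rw [smul_dir]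
  exact mul_pos (D.one_add_eta_pos hx) (norm_pos_iff.mpr hx)

/-- TASK BRad2.  `Φ` is injective and continuous on the closed ball, and its images are
star-shaped sets bounded by the graph of `1 + η_0`. -/
lemma injOn_Ph : Set.InjOn D.Ph (closedBall (0 : EE) 1) := by
  intro x hx y hy hxy
  rw [mem_closedBall_zero_iff] at hx hy
  by_cases hx0 : x = 0
  · by_cases hy0 : y = 0
    · rw [hx0, hy0]
    · exfalso
      apply D.Ph_ne hy0
      rw [← hxy, hx0, Ph_zero]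
  · by_cases hy0 : y = 0
    · exfalso
      apply D.Ph_ne hx0
      rw [hxy, hy0, Ph_zero]
    · have hd : dir x = dir y := by
        rw [← D.dir_Ph hx0, hxy, D.dir_Ph hy0]
      have hn : D.rad (dir x) ‖x‖ = D.rad (dir x) ‖y‖ := by
        rw [← D.norm_Ph hx0, hxy, D.norm_Ph hy0, hd]
      have hr := (D.strictMonoOn_rad ⟨dir x, dir_mem hx0⟩).injOn
        ⟨norm_pos_iff.mpr hx0, hx⟩ ⟨norm_pos_iff.mpr hy0, hy⟩ hn
      rw [← smul_dir x, ← smul_dir y, hr, hd]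

lemma continuousOn_Ph : ContinuousOn D.Ph (closedBall (0 : EE) 1) := by
  intro x _
  apply ContinuousAt.continuousWithinAt
  by_cases hx0 : x = 0
  · subst hx0
    have he : D.Ph =ᶠ[nhds (0 : EE)] id := by
      have hb : closedBall (0 : EE) (Real.exp (-1)) ∈ nhds (0 : EE) :=
        closedBall_mem_nhds _ (Real.exp_pos _)
      filter_upwards [hb] with y hy
      rw [mem_closedBall_zero_iff] at hy
      exact D.Ph_eq_self hy
    exact continuousAt_id.congr he.symm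
  · have ho : ({0}ᶜ : Set EE) ∈ nhds x := isOpen_compl_singleton.mem_nhds hx0
    have h1 : ContinuousAt (fun y => (D.P y).eta) x := D.continuousOn_eta.continuousAt ho
    unfold Ph
    exact (continuousAt_const.add h1).smul continuousAt_id

private lemma norm_lt_iff {X : EE} (hX : X ≠ 0) :
    (∃ x ∈ ball (0 : EE) 1, D.Ph x = X) ↔ ‖X‖ < 1 + D.j0.ev t0 (dir X) := by
  have hi := D.image_rad_Ioo ⟨dir X, dir_mem hX⟩
  constructor
  · rintro ⟨x, hx, rfl⟩
    rw [mem_ball_zero_iff] at hx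
    have hx0 : x ≠ 0 := by
      rintro rfl
      exact hX D.Ph_zero
    have h1 : D.rad (dir (D.Ph x)) ‖x‖ ∈ D.rad (dir (D.Ph x)) '' Set.Ioo 0 1 :=
      ⟨‖x‖, ⟨norm_pos_iff.mpr hx0, hx⟩, rfl⟩
    rw [hi] at h1
    rw [D.norm_Ph hx0, ← D.dir_Ph hx0]
    exact h1.2
  · intro hlt
    have h1 : ‖X‖ ∈ Set.Ioo 0 (1 + D.j0.ev t0 (dir X)) := ⟨norm_pos_iff.mpr hX, hlt⟩
    rw [← hi] at h1
    obtain ⟨r, hr, hrX⟩ := h1
    refine ⟨r • dir X, ?_, ?_⟩
    · rw [mem_ball_zero_iff, norm_smul, norm_dir hX, mul_one, Real.norm_eq_abs, abs_of_pos hr.1]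
      exact hr.2
    · rw [D.Ph_smul]
      show D.rad (dir X) r • dir X = X
      rw [show D.rad (dir X) r = ‖X‖ from hrX, smul_dir]

private lemma norm_le_iff {X : EE} (hX : X ≠ 0) :
    (∃ x ∈ closedBall (0 : EE) 1, D.Ph x = X) ↔ ‖X‖ ≤ 1 + D.j0.ev t0 (dir X) := by
  have hi := D.image_rad_Ioc ⟨dir X, dir_mem hX⟩
  constructor
  · rintro ⟨x, hx, rfl⟩
    rw [mem_closedBall_zero_iff] at hx
    have hx0 : x ≠ 0 := by
      rintro rfl
      exact hX D.Ph_zero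
    have h1 : D.rad (dir (D.Ph x)) ‖x‖ ∈ D.rad (dir (D.Ph x)) '' Set.Ioc 0 1 :=
      ⟨‖x‖, ⟨norm_pos_iff.mpr hx0, hx⟩, rfl⟩
    rw [hi] at h1
    rw [D.norm_Ph hx0, ← D.dir_Ph hx0]
    exact h1.2
  · intro hlt
    have h1 : ‖X‖ ∈ Set.Ioc 0 (1 + D.j0.ev t0 (dir X)) := ⟨norm_pos_iff.mpr hX, hlt⟩
    rw [← hi] at h1
    obtain ⟨r, hr, hrX⟩ := h1
    refine ⟨r • dir X, ?_, ?_⟩
    · rw [mem_closedBall_zero_iff, norm_smul, norm_dir hX, mul_one, Real.norm_eq_abs,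
        abs_of_pos hr.1]
      exact hr.2
    · rw [D.Ph_smul]
      show D.rad (dir X) r • dir X = X
      rw [show D.rad (dir X) r = ‖X‖ from hrX, smul_dir]

lemma mem_dom_iff (X : EE) : X ∈ D.dom ↔ X = 0 ∨ (X ≠ 0 ∧ ‖X‖ < 1 + D.j0.ev t0 (dir X)) := by
  by_cases hX : X = 0
  · subst hX
    constructor
    · intro _
      exact Or.inl rfl
    · intro _
      exact ⟨0, mem_ball_self one_pos, D.Ph_zero⟩
  · constructor
    · intro h1
      exact Or.inr ⟨hX, (D.norm_lt_iff hX).mp h1⟩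
    · rintro (h1 | h1)
      · exact absurd h1 hX
      · exact (D.norm_lt_iff hX).mpr h1.2

lemma mem_image_closedBall_iff (X : EE) : X ∈ D.Ph '' closedBall (0 : EE) 1 ↔
    X = 0 ∨ (X ≠ 0 ∧ ‖X‖ ≤ 1 + D.j0.ev t0 (dir X)) := by
  by_cases hX : X = 0
  · subst hX
    constructor
    · intro _
      exact Or.inl rfl
    · intro _
      exact ⟨0, mem_closedBall_self zero_le_one, D.Ph_zero⟩
  · constructor
    · intro h1
      exact Or.inr ⟨hX, (D.norm_le_iff hX).mp h1⟩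
    · rintro (h1 | h1)
      · exact absurd h1 hX
      · exact (D.norm_le_iff hX).mpr h1.2

lemma norm_Ph_le {x : EE} (h1 : ‖x‖ ≤ 1) : ‖D.Ph x‖ ≤ 3 / 2 := by
  by_cases hx : x = 0
  · rw [hx, D.Ph_zero, norm_zero]
    norm_num
  · unfold Ph
    rw [norm_smul, Real.norm_eq_abs, abs_of_pos (D.one_add_eta_pos hx)]
    have h2 := abs_le.mp (D.abs_eta_le hx)
    have h3 : 1 + (D.P x).eta ≤ 3 / 2 := by linarith [h2.2]
    calc (1 + (D.P x).eta) * ‖x‖ ≤ (3 / 2) * 1 :=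
          mul_le_mul h3 h1 (norm_nonneg _) (by norm_num)
      _ = 3 / 2 := by norm_num

end AData

end
end OD16
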