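import Pool.Agent.LibOD16.BRad2

set_option autoImplicit false
namespace OD16
open MvPolynomial MeasureTheory Metric
noncomputable section

namespace AData

variable {h δ : ℝ} (D : AData h δ)

private lemma abs_ev_le' {X : EE} (hX : X ≠ 0) : |D.j0.ev t0 (dir X)| ≤ 1 / 100 :=
  (D.j0.abs_ev_le t0 ⟨dir X, dir_mem hX⟩).trans D.j0_small

private lemma continuousOn_ev : ContinuousOn (fun X : EE => D.j0.ev t0 (dir X)) {0}ᶜ := by
  rw [continuousOn_iff_continuous_domRestrict]
  have h0 : Continuous (fun X : ({0}ᶜ : Set EE) => dir X.1) :=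
    continuousOn_iff_continuous_domRestrict.1 continuousOn_dir
  have h1 : Continuous (fun X : ({0}ᶜ : Set EE) => (⟨dir X.1, dir_mem X.2⟩ : S4)) :=
    Continuous.subtype_mk h0 _
  have h2 : Continuous (fun X : ({0}ᶜ : Set EE) => (t0, (⟨dir X.1, dir_mem X.2⟩ : S4))) :=
    continuous_const.prodMk h1
  have h3 := D.j0.continuous_ev.comp h2
  exact h3

/-- TASK BTop.  Topology of the domain. -/
lemma isOpen_dom : IsOpen D.dom := by
  have h1 : IsOpen {X : EE | X ∈ ({0}ᶜ : Set EE) ∧ 0 < 1 + D.j0.ev t0 (dir X) - ‖X‖} := by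
    have hc : ContinuousOn (fun X : EE => 1 + D.j0.ev t0 (dir X) - ‖X‖) {0}ᶜ :=
      (continuousOn_const.add D.continuousOn_ev).sub continuous_norm.continuousOn
    exact hc.isOpen_inter_preimage isOpen_compl_singleton isOpen_Ioi
  have h2 : D.dom = ball (0 : EE) (1 / 2) ∪
      {X : EE | X ∈ ({0}ᶜ : Set EE) ∧ 0 < 1 + D.j0.ev t0 (dir X) - ‖X‖} := by
    ext X
    rw [D.mem_dom_iff]
    constructor
    · rintro (rfl | ⟨h0, h1⟩)
      · exact Or.inl (mem_ball_self (by norm_num))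
      · exact Or.inr ⟨h0, by linarith⟩
    · rintro (h0 | ⟨h0, h1⟩)
      · by_cases hX : X = 0
        · exact Or.inl hX
        · refine Or.inr ⟨hX, ?_⟩
          rw [mem_ball_zero_iff] at h0
          have := (abs_le.1 (D.abs_ev_le' hX)).1
          linarith
      · exact Or.inr ⟨h0, by linarith⟩
  rw [h2]
  exact isOpen_ball.union h1

lemma zero_mem_dom : (0 : EE) ∈ D.dom := by
  rw [D.mem_dom_iff]
  exact Or.inl rfl

lemma star_dom : ∀ X ∈ D.dom, ∀ s ∈ Set.Icc (0 : ℝ) 1, s • X ∈ D.dom := by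
  intro X hX s hs
  rw [D.mem_dom_iff] at hX ⊢
  by_cases h0 : s • X = 0
  · exact Or.inl h0
  · refine Or.inr ⟨h0, ?_⟩
    have hs0 : s ≠ 0 := fun e => h0 (by rw [e, zero_smul])
    have hX0 : X ≠ 0 := fun e => h0 (by rw [e, smul_zero])
    have hsp : 0 < s := lt_of_le_of_ne hs.1 (Ne.symm hs0)
    rcases hX with hX | ⟨-, hX⟩
    · exact absurd hX hX0
    · rw [dir_smul hsp, norm_smul, Real.norm_eq_abs, abs_of_pos hsp]
      have : s * ‖X‖ ≤ 1 * ‖X‖ := mul_le_mul_of_nonneg_right hs.2 (norm_nonneg _)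
      linarith

lemma closure_dom_sub : closure D.dom ⊆ closedBall (0 : EE) (3 / 2) := by
  refine closure_minimal ?_ isClosed_closedBall
  rintro X ⟨x, hx, rfl⟩
  rw [mem_closedBall_zero_iff]
  exact D.norm_Ph_le (mem_ball_zero_iff.1 hx).le

lemma Ps_mem {X : EE} (hX : X ∈ D.dom) : D.Ps X ∈ ball (0 : EE) 1 :=
  Function.invFunOn_mem hX

lemma Ph_Ps {X : EE} (hX : X ∈ D.dom) : D.Ph (D.Ps X) = X :=
  Function.invFunOn_eq hX

lemma Ps_Ph {x : EE} (hx : x ∈ ball (0 : EE) 1) : D.Ps (D.Ph x) = x :=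
  (D.injOn_Ph.mono ball_subset_closedBall).leftInvOn_invFunOn hx

lemma Ph_mem {x : EE} (hx : x ∈ ball (0 : EE) 1) : D.Ph x ∈ D.dom :=
  Set.mem_image_of_mem _ hx

/-- The inverse is continuous (compactness of the closed ball). -/
lemma continuousOn_Ps : ContinuousOn D.Ps D.dom := by
  intro X hX
  refine (isCompact_closedBall (0 : EE) 1).tendsto_nhds_of_unique_mapClusterPt ?_ ?_
  · filter_upwards [self_mem_nhdsWithin] with Y hY
    exact ball_subset_closedBall (D.Ps_mem hY)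
  · intro z hz hcl
    obtain ⟨U, hU1, hU2⟩ := mapClusterPt_iff_ultrafilter.1 hcl
    have hdom : ∀ᶠ Y in (U : Filter EE), Y ∈ D.dom := hU1 self_mem_nhdsWithin
    have h1 : Filter.Tendsto D.Ps U (nhdsWithin z (closedBall (0 : EE) 1)) := by
      refine tendsto_nhdsWithin_iff.2 ⟨hU2, ?_⟩
      filter_upwards [hdom] with Y hY
      exact ball_subset_closedBall (D.Ps_mem hY)
    have h2 : Filter.Tendsto (fun Y => D.Ph (D.Ps Y)) U (nhds (D.Ph z)) :=
      (D.continuousOn_Ph z hz).tendsto.comp h1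
    have h3 : Filter.Tendsto (fun Y : EE => Y) U (nhds (D.Ph z)) := by
      refine h2.congr' ?_
      filter_upwards [hdom] with Y hY
      exact D.Ph_Ps hY
    have h4 : Filter.Tendsto (fun Y : EE => Y) U (nhds X) :=
      Filter.tendsto_id'.2 (hU1.trans nhdsWithin_le_nhds)
    have h5 : D.Ph z = X := tendsto_nhds_unique h3 h4
    refine D.injOn_Ph hz (ball_subset_closedBall (D.Ps_mem hX)) ?_
    rw [h5, D.Ph_Ps hX]

lemma frontier_dom {X : EE} (hX : X ∈ frontier D.dom) :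
    X ≠ 0 ∧ ‖X‖ = 1 + D.j0.ev t0 (dir X) := by
  have hn : X ∉ D.dom := by
    rw [D.isOpen_dom.frontier_eq] at hX
    exact hX.2
  have hcl : X ∈ D.Ph '' closedBall (0 : EE) 1 := by
    have hK : IsCompact (D.Ph '' closedBall (0 : EE) 1) :=
      (isCompact_closedBall (0 : EE) 1).image_of_continuousOn D.continuousOn_Ph
    exact closure_minimal (Set.image_mono ball_subset_closedBall) hK.isClosed
      (frontier_subset_closure hX)
  have h0 : X ≠ 0 := fun e => hn (e ▸ D.zero_mem_dom)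
  rw [D.mem_dom_iff] at hn
  rw [D.mem_image_closedBall_iff] at hcl
  refine ⟨h0, ?_⟩
  rcases hcl with e | ⟨-, hle⟩
  · exact absurd e h0
  · refine le_antisymm hle ?_
    by_contra hlt
    exact hn (Or.inr ⟨h0, not_le.1 hlt⟩)

end AData

end
end OD16
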