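import Pool.Agent.LibOD16.Harm0

set_option autoImplicit false
namespace OD16
open MvPolynomial MeasureTheory Metric
open scoped Pointwise
noncomputable section

/-- A linear isometry acting on the sphere. -/
def sphMap (g : E5 ≃ₗᵢ[ℝ] E5) (θ : S4) : S4 := ⟨g θ.1, by simp⟩

/-- TASK H03.  Rotation invariance of the surface measure (from the definition
`toSphere_apply'` and the invariance of Lebesgue measure). -/
lemma measurePreserving_sphMap (g : E5 ≃ₗᵢ[ℝ] E5) : MeasurePreserving (sphMap g) μS μS := by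
  have hc : Continuous (sphMap g) := by
    unfold sphMap
    fun_prop
  refine ⟨hc.measurable, ?_⟩
  ext s hs
  rw [Measure.map_apply hc.measurable hs]
  unfold μS
  rw [Measure.toSphere_apply' _ hs, Measure.toSphere_apply' _ (hc.measurable hs)]
  congr 1
  have h1 : (Set.Ioo (0:ℝ) 1 • (Subtype.val '' (sphMap g ⁻¹' s)) : Set E5) =
      g ⁻¹' (Set.Ioo (0:ℝ) 1 • (Subtype.val '' s)) := by
    ext x
    simp only [Set.mem_smul, Set.mem_image, Set.mem_preimage]
    constructor
    · rintro ⟨a, ha, y, ⟨θ, hθ, rfl⟩, rfl⟩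
      exact ⟨a, ha, g θ.1, ⟨sphMap g θ, hθ, rfl⟩, by simp⟩
    · rintro ⟨a, ha, y, ⟨θ, hθ, rfl⟩, h⟩
      refine ⟨a, ha, g.symm θ.1, ⟨⟨g.symm θ.1, by simp⟩, ?_, rfl⟩, ?_⟩
      · have : sphMap g ⟨g.symm θ.1, by simp⟩ = θ := by
          apply Subtype.ext
          simp [sphMap]
        rw [this]
        exact hθ
      · apply g.injective
        simp [h]
  rw [h1]
  exact (g.measurePreserving.measure_preimage_emb g.toHomeomorph.measurableEmbedding _)

end
end OD16
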