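import Pool.Agent.LibOD16.HarmNorm
import Pool.Agent.LibOD16.HarmRot

set_option autoImplicit false
namespace OD16
open MvPolynomial MeasureTheory Metric
noncomputable section

/-- The matrix of an isometry. -/
def actM (g : E5 ≃ₗᵢ[ℝ] E5) (i j : Fin 5) : ℝ := g (EuclideanSpace.single i 1) j

lemma actM_apply (g : E5 ≃ₗᵢ[ℝ] E5) (x : E5) (j : Fin 5) : g x j = ∑ i, x i * actM g i j := by
  have h1 : x = ∑ i, x i • (EuclideanSpace.single i (1 : ℝ) : E5) := by
    have := (EuclideanSpace.basisFun (Fin 5) ℝ).sum_repr x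
    simpa using this.symm
  conv_lhs => rw [h1]
  rw [map_sum, WithLp.ofLp_sum, Finset.sum_apply]
  refine Finset.sum_congr rfl (fun i _ => ?_)
  rw [map_smul]
  rfl

lemma actM_row (g : E5 ≃ₗᵢ[ℝ] E5) (i k : Fin 5) :
    ∑ j, actM g i j * actM g k j = if i = k then 1 else 0 := by
  have h1 : inner ℝ (g (EuclideanSpace.single k (1 : ℝ))) (g (EuclideanSpace.single i (1 : ℝ))) =
      inner ℝ (EuclideanSpace.single k (1 : ℝ) : E5) (EuclideanSpace.single i (1 : ℝ)) :=
    g.inner_map_map _ _
  rw [PiLp.inner_apply, EuclideanSpace.inner_single_left] at h1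
  simp only [map_one, one_mul, RCLike.inner_apply, conj_trivial, PiLp.single_apply] at h1
  unfold actM
  rw [h1]
  simp only [eq_comm]

lemma actM_col (g : E5 ≃ₗᵢ[ℝ] E5) (j k : Fin 5) :
    ∑ i, actM g i j * actM g i k = if j = k then 1 else 0 := by
  let b := (EuclideanSpace.basisFun (Fin 5) ℝ).map g
  have h1 := b.sum_inner_mul_inner (EuclideanSpace.single j (1 : ℝ)) (EuclideanSpace.single k (1 : ℝ))
  have hb : ∀ i, b i = g (EuclideanSpace.single i (1 : ℝ)) := by
    intro i
    simp [b]
  simp only [hb, EuclideanSpace.inner_single_left, EuclideanSpace.inner_single_right,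
    map_one, one_mul, conj_trivial, PiLp.single_apply] at h1
  unfold actM
  rw [h1]
  simp only [eq_comm]

/-- Substitution of the coordinates of `g x`. -/
def actP (g : E5 ≃ₗᵢ[ℝ] E5) : Pol →ₐ[ℝ] Pol := aeval (fun j => ∑ i, C (actM g i j) * X i)

lemma actP_X (g : E5 ≃ₗᵢ[ℝ] E5) (j : Fin 5) : actP g (X j) = ∑ i, C (actM g i j) * X i := by
  unfold actP
  rw [aeval_X]

lemma pev_actP (g : E5 ≃ₗᵢ[ℝ] E5) (P : Pol) (x : E5) : pev (actP g P) x = pev P (g x) := by
  induction P using MvPolynomial.induction_on with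
  | C a => simp [pev, actP]
  | add P Q hP hQ => rw [map_add, pev_add, pev_add, hP, hQ]
  | mul_X P j hP =>
    rw [map_mul, pev_mul, pev_mul, hP, actP_X]
    congr 1
    unfold pev
    rw [eval_X, map_sum, actM_apply]
    refine Finset.sum_congr rfl (fun i _ => ?_)
    rw [map_mul, eval_C, eval_X, mul_comm]

lemma actP_hom (g : E5 ≃ₗᵢ[ℝ] E5) {l : ℕ} {P : Pol} (hP : P.IsHomogeneous l) :
    (actP g P).IsHomogeneous l := by
  have h1 : ∀ j : Fin 5, (∑ i, C (actM g i j) * X i : Pol).IsHomogeneous 1 := by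
    intro j
    refine IsHomogeneous.sum _ _ _ (fun i _ => ?_)
    have := (isHomogeneous_C (Fin 5) (actM g i j)).mul (isHomogeneous_X ℝ i)
    simpa using this
  have := hP.aeval _ h1
  simpa [actP] using this

lemma pderiv_actP (g : E5 ≃ₗᵢ[ℝ] E5) (i : Fin 5) (P : Pol) :
    pderiv i (actP g P) = ∑ j, actM g i j • actP g (pderiv j P) := by
  induction P using MvPolynomial.induction_on with
  | C a => simp [actP]
  | add P Q hP hQ =>
    rw [map_add, map_add, hP, hQ, ← Finset.sum_add_distrib]
    refine Finset.sum_congr rfl (fun j _ => ?_)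
    rw [map_add, map_add, smul_add]
  | mul_X P k hP =>
    have h1 : ∀ j, actP g (pderiv j (P * X k)) =
        actP g P * (if j = k then 1 else 0) + actP g (X k) * actP g (pderiv j P) := by
      intro j
      rw [Derivation.leibniz, pderiv_X, smul_eq_mul, smul_eq_mul, map_add, map_mul, map_mul]
      congr 2
      rw [Pi.single_apply]
      simp only [eq_comm (a := k)]
      split_ifs <;> simp
    have h2 : pderiv i (actP g (X k)) = C (actM g i k) := by
      rw [actP_X, map_sum]
      rw [Finset.sum_eq_single i]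
      · rw [Derivation.leibniz, pderiv_X_self, pderiv_C, smul_zero, add_zero, smul_eq_mul, mul_one]
      · intro j _ hj
        rw [Derivation.leibniz, pderiv_X_of_ne hj, pderiv_C, smul_zero, smul_zero, add_zero]
      · intro h
        exact absurd (Finset.mem_univ i) h
    rw [map_mul, Derivation.leibniz, h2, hP, smul_eq_mul, smul_eq_mul]
    simp only [h1, smul_add, Finset.sum_add_distrib]
    congr 1
    · rw [Finset.sum_eq_single k]
      · rw [if_pos rfl, mul_one, smul_eq_C_mul, mul_comm]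
      · intro j _ hj
        rw [if_neg hj, mul_zero, smul_zero]
      · intro h
        exact absurd (Finset.mem_univ k) h
    · rw [Finset.mul_sum]
      refine Finset.sum_congr rfl (fun j _ => ?_)
      rw [mul_smul_comm]

lemma lap_apply_HarmAct (P : Pol) : lap P = ∑ i : Fin 5, pderiv i (pderiv i P) := by
  unfold lap
  rw [LinearMap.sum_apply]
  rfl

lemma lap_actP (g : E5 ≃ₗᵢ[ℝ] E5) (P : Pol) : lap (actP g P) = actP g (lap P) := by
  rw [lap_apply_HarmAct, lap_apply_HarmAct, map_sum]
  have h1 : ∀ i, pderiv i (pderiv i (actP g P)) =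
      ∑ j, ∑ k, (actM g i j * actM g i k) • actP g (pderiv k (pderiv j P)) := by
    intro i
    rw [pderiv_actP, map_sum]
    refine Finset.sum_congr rfl (fun j _ => ?_)
    rw [Derivation.map_smul, pderiv_actP, Finset.smul_sum]
    refine Finset.sum_congr rfl (fun k _ => ?_)
    rw [smul_smul]
  simp only [h1]
  rw [Finset.sum_comm]
  refine Finset.sum_congr rfl (fun j _ => ?_)
  rw [Finset.sum_comm]
  simp only [← Finset.sum_smul, actM_col]
  rw [Finset.sum_eq_single j]
  · rw [if_pos rfl, one_smul]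
  · intro k _ hk
    rw [if_neg (Ne.symm hk), zero_smul]
  · intro h
    exact absurd (Finset.mem_univ j) h

lemma sum_actP_X (g : E5 ≃ₗᵢ[ℝ] E5) (i : Fin 5) : ∑ j, actM g i j • actP g (X j) = X i := by
  simp only [actP_X, Finset.smul_sum]
  rw [Finset.sum_comm]
  have h1 : ∀ k : Fin 5, ∑ j, actM g i j • (C (actM g k j) * X k : Pol) =
      (∑ j, actM g i j * actM g k j) • (X k : Pol) := by
    intro k
    rw [Finset.sum_smul]
    refine Finset.sum_congr rfl (fun j _ => ?_)
    rw [← smul_eq_C_mul, smul_smul]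
  simp only [h1, actM_row]
  rw [Finset.sum_eq_single i]
  · rw [if_pos rfl, one_smul]
  · intro k _ hk
    rw [if_neg (Ne.symm hk), zero_smul]
  · intro h
    exact absurd (Finset.mem_univ i) h

lemma actP_nsq (g : E5 ≃ₗᵢ[ℝ] E5) : actP g nsq = nsq := by
  apply MvPolynomial.funext
  intro v
  have h1 := pev_actP g nsq (WithLp.toLp 2 v)
  rw [pev_nsq, LinearIsometryEquiv.norm_map, ← pev_nsq] at h1
  simpa [pev] using h1

lemma actP_mem (g : E5 ≃ₗᵢ[ℝ] E5) {l : ℕ} {P : Pol} (hP : P ∈ harm l) : actP g P ∈ harm l := by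
  refine ⟨actP_hom g hP.1, ?_⟩
  have h2 : lap P = 0 := hP.2
  show lap (actP g P) = 0
  rw [lap_actP, h2, map_zero]

/-- The action on `V l`. -/
def actV (g : E5 ≃ₗᵢ[ℝ] E5) (l : ℕ) : V l →ₗ[ℝ] V l where
  toFun P := V.mk (actP g P.pol) (actP_mem g P.mem)
  map_add' P Q := by
    apply V.ext
    simp only [V.pol_mk, V.pol_add, map_add]
  map_smul' c P := by
    apply V.ext
    simp only [V.pol_mk, V.pol_smul, RingHom.id_apply, map_smul]

lemma actV_pol (g : E5 ≃ₗᵢ[ℝ] E5) (l : ℕ) (P : V l) : (actV g l P).pol = actP g P.pol := rfl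

lemma ip_actP (g : E5 ≃ₗᵢ[ℝ] E5) (P : Pol) : ip (actP g P) (actP g P) = ip P P := by
  unfold ip
  have h1 := measurePreserving_sphMap g
  have h2 : ∫ θ : S4, pev (actP g P) θ * pev (actP g P) θ ∂μS =
      ∫ θ : S4, (fun θ : S4 => pev P θ * pev P θ) (sphMap g θ) ∂μS := by
    refine integral_congr_ae (Filter.Eventually.of_forall (fun θ => ?_))
    simp only [pev_actP]
    rfl
  rw [h2]
  have h3 : AEStronglyMeasurable (fun θ : S4 => pev P θ * pev P θ)
      (Measure.map (sphMap g) μS) := by
    have : Continuous (fun θ : S4 => pev P θ * pev P θ) := by fun_prop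
    exact this.aestronglyMeasurable
  rw [← integral_map h1.measurable.aemeasurable h3, h1.map_eq]

/-- Coercion of sums in `V l`. -/
lemma V.pol_sum_HarmAct {l : ℕ} {ι : Type} (s : Finset ι) (f : ι → V l) :
    (∑ i ∈ s, f i).pol = ∑ i ∈ s, (f i).pol := by
  have : ∀ P : V l, P.pol = V.polL l P := fun P => rfl
  simp only [this, map_sum]

/-- TASK H14.  Linear isometries act on `V l` by composition: there is a linear map with the given
values; it is isometric and commutes with the lowering and raising operators as a vector. -/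
lemma exists_comp (g : E5 ≃ₗᵢ[ℝ] E5) : ∃ c : (l : ℕ) → (V l →ₗ[ℝ] V l),
    (∀ l (P : V l) (x : E5), (c l P).ev x = P.ev (g x)) ∧
    (∀ l (P : V l), ‖c l P‖ = ‖P‖) ∧
    (∀ l (i : Fin 5) (P : V (l + 1)),
      dn i l (c (l + 1) P) = ∑ j, (g (EuclideanSpace.single i 1) j) • c l (dn j l P)) ∧
    (∀ l (i : Fin 5) (P : V l),
      up i l (c l P) = ∑ j, (g (EuclideanSpace.single i 1) j) • c (l + 1) (up j l P)) := by
  refine ⟨actV g, ?_, ?_, ?_, ?_⟩
  · intro l P x
    exact pev_actP g P.pol x
  · intro l P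
    rw [V.norm_eq, V.norm_eq, nL, nL, actV_pol, ip_actP]
  · intro l i P
    apply V.ext
    rw [V.pol_sum_HarmAct, dn_pol, actV_pol, pderiv_actP, Finset.smul_sum]
    refine Finset.sum_congr rfl (fun j _ => ?_)
    rw [V.pol_smul, actV_pol, dn_pol, map_smul, smul_comm]
    rfl
  · intro l i P
    apply V.ext
    rw [V.pol_sum_HarmAct, up_pol, actV_pol]
    have h1 : ∀ j, ((g (EuclideanSpace.single i 1) j) • actV g (l + 1) (up j l P)).pol =
        actM g i j • actP g (X j) * actP g P.pol - (2 * (l : ℝ) + 3)⁻¹ •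
          (nsq * (actM g i j • actP g (pderiv j P.pol))) := by
      intro j
      rw [V.pol_smul, actV_pol, up_pol]
      unfold upPol
      rw [map_sub, map_mul, map_smul, map_mul, actP_nsq, smul_sub, smul_mul_assoc,
        mul_smul_comm, smul_comm]
      rfl
    simp only [h1]
    rw [Finset.sum_sub_distrib, ← Finset.sum_mul, sum_actP_X, ← Finset.smul_sum,
      ← Finset.mul_sum, ← pderiv_actP]
    rfl

end
end OD16
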