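import Pool.Agent.LibOD16.FixU
import Pool.Agent.LibOD16.HarmAct

set_option autoImplicit false
namespace OD16
open MvPolynomial MeasureTheory Metric
open scoped BoundedContinuousFunction ENNReal
noncomputable section

/-- Isometries compatible with the geometry. -/
structure Gd (g : E5 ≃ₗᵢ[ℝ] E5) : Prop where
  W_inv : ∀ (h δ : ℝ) (X : EE), WR h δ (g X) = WR h δ X
  k_inv : ∀ (h : ℝ) (X : EE), kR h (g X) = kR h X
  T_eq : ∀ X v : EE, TR (g X) (g v) = g (TR X v)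

/-- The matrix `(g e_i)_j`. -/
def gm (g : E5 ≃ₗᵢ[ℝ] E5) (i j : Fin 5) : ℝ := g (EuclideanSpace.single i 1) j

/-- The action on `V l` by composition. -/
def gc (g : E5 ≃ₗᵢ[ℝ] E5) (l : ℕ) : V l →ₗ[ℝ] V l := Classical.choose (exists_comp g) l

lemma gc_ev (g : E5 ≃ₗᵢ[ℝ] E5) (l : ℕ) (P : V l) (x : E5) : (gc g l P).ev x = P.ev (g x) :=
  (Classical.choose_spec (exists_comp g)).1 l P x

lemma gc_norm (g : E5 ≃ₗᵢ[ℝ] E5) (l : ℕ) (P : V l) : ‖gc g l P‖ = ‖P‖ :=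
  (Classical.choose_spec (exists_comp g)).2.1 l P

lemma gc_dn (g : E5 ≃ₗᵢ[ℝ] E5) (l : ℕ) (i : Fin 5) (P : V (l + 1)) :
    dn i l (gc g (l + 1) P) = ∑ j, gm g i j • gc g l (dn j l P) :=
  (Classical.choose_spec (exists_comp g)).2.2.1 l i P

lemma gc_up (g : E5 ≃ₗᵢ[ℝ] E5) (l : ℕ) (i : Fin 5) (P : V l) :
    up i l (gc g l P) = ∑ j, gm g i j • gc g (l + 1) (up j l P) :=
  (Classical.choose_spec (exists_comp g)).2.2.2 l i P

/-- The action on `WA`. -/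
def gW (g : E5 ≃ₗᵢ[ℝ] E5) (F : WA) : WA :=
  WA.mk (fun l => BoundedContinuousFunction.ofNormedAddCommGroup (fun t => gc g l (F.c l t))
    ((LinearMap.continuous_of_finiteDimensional (gc g l)).comp (F.c l).continuous) ‖F.c l‖
    (fun t => by rw [gc_norm]; exact (F.c l).norm_coe_le_norm t))
    (by
      apply Summable.of_nonneg_of_le (fun l => norm_nonneg _) _ F.summable_norm
      intro l
      apply BoundedContinuousFunction.norm_ofNormedAddCommGroup_le _ (norm_nonneg _))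

lemma gW_c (g : E5 ≃ₗᵢ[ℝ] E5) (F : WA) (l : ℕ) (t : Tm) : (gW g F).c l t = gc g l (F.c l t) := rfl

/-- The action on vector fields: `(g J)_i = ∑_j (g e_i)_j J_j ∘ g`. -/
def gV (g : E5 ≃ₗᵢ[ℝ] E5) (J : Fin 5 → WA) (i : Fin 5) : WA := ∑ j, gm g i j • gW g (J j)

/-- The action on the unknowns. -/
def gX (g : E5 ≃ₗᵢ[ℝ] E5) (x : XS) : XS := (x.1, gW g x.2.1, gW g x.2.2.1, gV g x.2.2.2)

/-- The action on the sources. -/
def gS (g : E5 ≃ₗᵢ[ℝ] E5) (p : SI) : SI := (gW g p.1, gV g p.2.1, gW g p.2.2.1, gW g p.2.2.2)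

end
end OD16
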