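import Pool.Agent.LibOD16.Eq0

set_option autoImplicit false
namespace OD16
open MvPolynomial MeasureTheory Metric
open scoped BoundedContinuousFunction ENNReal
noncomputable section

variable (g : E5 ≃ₗᵢ[ℝ] E5)

/-- TASK Eq1.  Elementary properties of the actions. -/
lemma gW_ev (F : WA) (t : Tm) (x : E5) : (gW g F).ev t x = F.ev t (g x) := by
  unfold WA.ev
  refine tsum_congr fun l => ?_
  rw [gW_c, gc_ev]

lemma gW_add (F G : WA) : gW g (F + G) = gW g F + gW g G := by
  apply WA.ext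
  intro l
  apply BoundedContinuousFunction.ext
  intro t
  rw [gW_c, WA.c_add, WA.c_add, BoundedContinuousFunction.add_apply,
    BoundedContinuousFunction.add_apply, map_add, gW_c, gW_c]

lemma gW_sub (F G : WA) : gW g (F - G) = gW g F - gW g G := by
  apply WA.ext
  intro l
  apply BoundedContinuousFunction.ext
  intro t
  rw [gW_c, WA.c_sub, WA.c_sub, BoundedContinuousFunction.sub_apply,
    BoundedContinuousFunction.sub_apply, map_sub, gW_c, gW_c]

lemma gW_smul (a : ℝ) (F : WA) : gW g (a • F) = a • gW g F := by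
  apply WA.ext
  intro l
  apply BoundedContinuousFunction.ext
  intro t
  rw [gW_c, WA.c_smul, WA.c_smul, BoundedContinuousFunction.smul_apply,
    BoundedContinuousFunction.smul_apply, map_smul, gW_c]

lemma gW_zero : gW g 0 = 0 := by
  have h := gW_sub g 0 0
  rwa [sub_self, sub_self] at h

lemma gW_rad_mul (f : Tm →ᵇ ℝ) (F : WA) : gW g (WA.rad f * F) = WA.rad f * gW g F := by
  apply WA.ext
  intro l
  apply BoundedContinuousFunction.ext
  intro t
  rw [gW_c, WA.c_rad_mul, WA.c_rad_mul, map_smul, gW_c]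

lemma norm_gW (F : WA) : ‖gW g F‖ = ‖F‖ := by
  rw [WA.norm_def, WA.norm_def]
  refine tsum_congr fun l => ?_
  rw [BoundedContinuousFunction.norm_eq_iSup_norm, BoundedContinuousFunction.norm_eq_iSup_norm]
  refine congrArg iSup (funext fun t => ?_)
  rw [gW_c, gc_norm]

lemma abs_gm_le (i j : Fin 5) : |gm g i j| ≤ 1 := by
  have h := PiLp.norm_apply_le (g (EuclideanSpace.single i (1 : ℝ))) j
  rw [g.norm_map, EuclideanSpace.norm_single, norm_one, Real.norm_eq_abs] at h
  exact h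

lemma eq1_inner_single (v : E5) (j : Fin 5) :
    inner ℝ (EuclideanSpace.single j (1 : ℝ)) v = v j := by
  rw [EuclideanSpace.inner_single_left]
  simp

lemma eq1_inner_sum (v w : E5) : inner ℝ v w = ∑ i, v i * w i := by
  rw [PiLp.inner_apply]
  exact Finset.sum_congr rfl fun i _ => by simp [mul_comm]

lemma eq1_gm_symm (i j : Fin 5) : gm g i j = g.symm (EuclideanSpace.single j 1) i := by
  unfold gm
  rw [← eq1_inner_single (g _) j, ← eq1_inner_single (g.symm _) i,
    ← g.inner_map_map (EuclideanSpace.single i 1) (g.symm _), g.apply_symm_apply,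
    real_inner_comm]

/-- Orthogonality of the matrix. -/
lemma gm_orth (j k : Fin 5) : ∑ i, gm g i j * gm g i k = if j = k then 1 else 0 := by
  simp only [eq1_gm_symm]
  rw [← eq1_inner_sum, g.symm.inner_map_map, eq1_inner_single]
  by_cases h : j = k
  · subst h; simp
  · simp [h]

/-- `(g v)_j = ∑_i v_i (g e_i)_j`,  `(g⁻¹ v)_i = ∑_j (g e_i)_j v_j`. -/
lemma g_apply' (v : E5) (j : Fin 5) : g v j = ∑ i, v i * gm g i j := by
  simp only [eq1_gm_symm]
  rw [← eq1_inner_sum, ← eq1_inner_single (g v) j, ← g.inner_map_map v (g.symm _), g.apply_symm_apply,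
    real_inner_comm]

lemma g_symm_apply' (v : E5) (i : Fin 5) : g.symm v i = ∑ j, gm g i j * v j := by
  unfold gm
  rw [← eq1_inner_sum, ← eq1_inner_single (g.symm v) i, ← g.inner_map_map (EuclideanSpace.single i 1)
    (g.symm v), g.apply_symm_apply]

lemma norm_gX_le (x : XS) : ‖gX g x‖ ≤ 5 * ‖x‖ := by
  have h0 := norm_nonneg x
  have h1 : ‖x.1‖ ≤ ‖x‖ := norm_fst_le x
  have h2 : ‖x.2‖ ≤ ‖x‖ := norm_snd_le x
  have h3 : ‖x.2.1‖ ≤ ‖x‖ := (norm_fst_le x.2).trans h2
  have h4 : ‖x.2.2‖ ≤ ‖x‖ := (norm_snd_le x.2).trans h2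
  have h5 : ‖x.2.2.1‖ ≤ ‖x‖ := (norm_fst_le x.2.2).trans h4
  have h6 : ‖x.2.2.2‖ ≤ ‖x‖ := (norm_snd_le x.2.2).trans h4
  have hV : ‖gV g x.2.2.2‖ ≤ 5 * ‖x‖ := by
    rw [pi_norm_le_iff_of_nonneg (by positivity)]
    intro i
    unfold gV
    calc ‖∑ j, gm g i j • gW g (x.2.2.2 j)‖ ≤ ∑ j, ‖gm g i j • gW g (x.2.2.2 j)‖ :=
          norm_sum_le _ _
      _ ≤ ∑ _j : Fin 5, ‖x‖ := by
          refine Finset.sum_le_sum fun j _ => ?_
          rw [norm_smul, norm_gW, Real.norm_eq_abs]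
          calc |gm g i j| * ‖x.2.2.2 j‖ ≤ 1 * ‖x‖ :=
                mul_le_mul (abs_gm_le g i j) ((norm_le_pi_norm _ j).trans h6) (norm_nonneg _)
                  zero_le_one
            _ = ‖x‖ := one_mul _
      _ = 5 * ‖x‖ := by simp
  have h55 : ‖x‖ ≤ 5 * ‖x‖ := by linarith
  unfold gX
  refine max_le (h1.trans h55) (max_le ?_ (max_le ?_ hV))
  · rw [norm_gW]; exact h3.trans h55
  · rw [norm_gW]; exact h5.trans h55

/-- Evaluation of the transformed vector field. -/
lemma gV_ev (J : Fin 5 → WA) (i : Fin 5) (t : Tm) (θ : S4) :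
    (gV g J i).ev t θ.1 = ∑ j, gm g i j * (J j).ev t (g θ.1) := by
  rw [← WA.evR_apply]
  unfold gV
  rw [map_sum]
  refine Finset.sum_congr rfl fun j _ => ?_
  rw [WA.evR_apply, WA.ev_smul, gW_ev]

end
end OD16
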