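import Pool.Agent.LibOD16.Eq1

set_option autoImplicit false
namespace OD16
open MvPolynomial MeasureTheory Metric
open scoped BoundedContinuousFunction ENNReal
noncomputable section

/-- Transform `θ` and `J` of a point. -/
def Pt.map (g : E5 ≃ₗᵢ[ℝ] E5) (P : Pt) : Pt := { P with θ := g P.θ, J := g P.J }

namespace Pt

variable {g : E5 ≃ₗᵢ[ℝ] E5} (hg : Gd g) (P : Pt)

lemma map_eta : (P.map g).eta = P.eta := rfl
lemma map_m : (P.map g).m = P.m := rfl
lemma map_al : (P.map g).al = P.al := rfl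
lemma map_ze : (P.map g).ze = P.ze := rfl

/-- TASK Eq2.  Invariance at the level of points. -/
lemma map_xi : (P.map g).xi = g P.xi := by
  show ((1 + P.eta) * P.r) • g P.θ = g (((1 + P.eta) * P.r) • P.θ)
  rw [g.map_smul]

include hg in
lemma map_W : (P.map g).W = P.W := by
  show WR P.h P.δ (P.map g).xi = WR P.h P.δ P.xi
  rw [map_xi, hg.W_inv]

include hg in
lemma map_cJ : (P.map g).cJ = g P.cJ := by
  show GR P.h (P.map g).xi (g P.J) = g (GR P.h P.xi P.J)
  rw [map_xi, GR, GR, hg.k_inv, hg.T_eq, g.map_sub, g.map_smul]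

include hg in
lemma map_JJ : (P.map g).JJ = P.JJ := by
  show inner ℝ (g P.J) (P.map g).cJ = inner ℝ P.J P.cJ
  rw [map_cJ hg, g.inner_map_map]

include hg in
lemma map_s_aux : (P.map g).s = P.s := by
  show (P.map g).al ^ 2 + (P.map g).ze ^ 2 * (P.map g).JJ - 1 = P.al ^ 2 + P.ze ^ 2 * P.JJ - 1
  rw [map_JJ hg, map_al, map_ze]

include hg in
lemma map_Pi_aux : (P.map g).Pi = P.Pi := by
  show (P.map g).W * (1 + (P.map g).s) ^ (-(P.δ / 2)) = P.W * (1 + P.s) ^ (-(P.δ / 2))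
  rw [map_s_aux hg, map_W hg]

include hg in
lemma map_b : (P.map g).b = P.b := by
  show (1 + P.eta) ^ 4 * ((P.map g).Pi * P.al + 1 + P.eta) -
      (1 + P.eta) ^ 3 * P.χ * (P.map g).Pi * P.ze * (P.map g).JJ = P.b
  rw [map_JJ hg, map_Pi_aux hg, Pt.b]

include hg in
lemma map_Q : (P.map g).Q = g P.Q := by
  show ((1 + P.eta) ^ 3 * P.m * (P.map g).Pi * P.ze) • (P.map g).cJ = g P.Q
  rw [map_cJ hg, map_Pi_aux hg, Pt.Q, g.map_smul]

include hg in
lemma map_R : (P.map g).R = P.R := by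
  show 5 * (1 + P.eta) ^ 4 * P.m * ((P.map g).W - 1) = P.R
  rw [map_W hg, Pt.R]

end Pt

/-- A linear isometry maps the sphere to itself. -/
def gθ (g : E5 ≃ₗᵢ[ℝ] E5) (θ : S4) : S4 := ⟨g θ.1, by
  have := θ.2
  simp only [mem_sphere_iff_norm, sub_zero] at this ⊢
  rw [g.norm_map, this]⟩

/-- The values of the transformed unknowns (`gV_ev`, `g_symm_apply'`). -/
lemma ptx_map (g : E5 ≃ₗᵢ[ℝ] E5) (h δ : ℝ) (x : XS) (t : Tm) (θ : S4) :
    (ptx h δ (gX g x) t θ.1).map g = ptx h δ x t (gθ g θ).1 := by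
  have hJ : g (WithLp.toLp 2 (fun i => (gV g x.2.2.2 i).ev t θ.1)) =
      WithLp.toLp 2 (fun i => (x.2.2.2 i).ev t (g θ.1)) := by
    have h1 : (WithLp.toLp 2 (fun i => (gV g x.2.2.2 i).ev t θ.1) : E5) =
        g.symm (WithLp.toLp 2 (fun i => (x.2.2.2 i).ev t (g θ.1))) := by
      ext i
      rw [g_symm_apply']
      simp only [gV_ev]
    rw [h1, g.apply_symm_apply]
  unfold ptx mkPt Pt.map gθ gX
  simp only [hJ, gW_ev]

end
end OD16
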