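import Pool.Agent.LibOD16.Eq2

set_option autoImplicit false
namespace OD16
open MvPolynomial MeasureTheory Metric
open scoped BoundedContinuousFunction ENNReal
noncomputable section

/-- TASK Eq3.  Multiplication by `ϖ` is injective. -/
lemma vp_inj {δ : ℝ} (hδ : 0 < δ) {F G : WA}
    (h : WA.rad (vpB δ) * F = WA.rad (vpB δ) * G) : F = G := by
  apply WA.ext_ev
  intro t θ
  have h1 : (WA.rad (vpB δ) * F).ev t θ.1 = (WA.rad (vpB δ) * G).ev t θ.1 := by rw [h]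
  rw [WA.ev_mul, WA.ev_mul, WA.ev_rad, vpB_apply] at h1
  have h2 : vp δ t ≠ 0 := by
    unfold vp
    have := Real.exp_pos (t : ℝ)
    linarith
  exact mul_left_cancel₀ h2 h1

variable {g : E5 ≃ₗᵢ[ℝ] E5} (hg : Gd g) {h δ : ℝ} {x : XS}

include hg in
lemma b_act (hE : Evl h δ x) (hE' : Evl h δ (gX g x)) :
    NL.b h δ (gX g x) = gW g (NL.b h δ x) := by
  apply WA.ext_ev
  intro t θ
  have h1 := hE.b_ev t (gθ g θ)
  rw [hE'.b_ev t θ, gW_ev]
  rw [← ptx_map g h δ x t θ, Pt.map_b hg] at h1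
  exact h1.symm

lemma gV_symm_aux (g : E5 ≃ₗᵢ[ℝ] E5) (J : Fin 5 → WA) (i : Fin 5) (t : Tm) (θ : S4) (v : E5)
    (hv : ∀ j, (J j).ev t (g θ.1) = g v j) : (gV g J i).ev t θ.1 = v i := by
  rw [gV_ev]
  have h1 : g.symm (g v) i = ∑ j, gm g i j * (g v) j := g_symm_apply' g (g v) i
  rw [g.symm_apply_apply] at h1
  rw [h1]
  exact Finset.sum_congr rfl (fun j _ => by rw [hv j])

include hg in
lemma Q_act (hE : Evl h δ x) (hE' : Evl h δ (gX g x)) (i : Fin 5) :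
    NL.Q i h δ (gX g x) = gV g (fun j => NL.Q j h δ x) i := by
  apply WA.ext_ev
  intro t θ
  rw [hE'.Q_ev t θ i]
  symm
  apply gV_symm_aux
  intro j
  have h1 := hE.Q_ev t (gθ g θ) j
  rw [← ptx_map g h δ x t θ, Pt.map_Q hg] at h1
  exact h1

include hg in
lemma R_act (hE : Evl h δ x) (hE' : Evl h δ (gX g x)) :
    (NL.r * NL.Rs) h δ (gX g x) = gW g ((NL.r * NL.Rs) h δ x) := by
  apply WA.ext_ev
  intro t θ
  have h1 := hE.R_ev t (gθ g θ)
  rw [hE'.R_ev t θ, gW_ev]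
  rw [← ptx_map g h δ x t θ, Pt.map_R hg] at h1
  exact h1.symm

include hg in
lemma g_act (hE : Evl h δ x) (hE' : Evl h δ (gX g x)) :
    NL.g h δ (gX g x) = gW g (NL.g h δ x) := by
  apply WA.ext_ev
  intro t θ
  have h1 := hE.g_ev t (gθ g θ)
  rw [hE'.g_ev t θ, gW_ev]
  rw [← ptx_map g h δ x t θ, Pt.map_JJ hg, Pt.map_eta] at h1
  exact h1.symm

include hg in
/-- Equivariance of the nonlinear map (`e_eq`, `E_eq`, `R_eq`, `vp_inj`). -/
theorem NN_act (hδ : 0 < δ) (hE : Evl h δ x) (hE' : Evl h δ (gX g x)) :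
    NL.NN h δ (gX g x) = gS g (NL.NN h δ x) := by
  have he : NL.e' h δ (gX g x) = gW g (NL.e' h δ x) := by
    apply vp_inj hδ
    rw [hE'.e_eq, ← gW_rad_mul, hE.e_eq, gW_sub, gW_smul, gW_add, gW_smul, b_act hg hE hE']
    rfl
  have hEE : (fun i => NL.E' i h δ (gX g x)) = gV g (fun j => NL.E' j h δ x) := by
    funext i
    apply vp_inj hδ
    rw [hE'.E_eq, Q_act hg hE hE' i]
    have h1 : (gX g x).2.2.2 i = gV g x.2.2.2 i := rfl
    rw [h1]
    unfold gV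
    rw [Finset.mul_sum, ← Finset.sum_sub_distrib]
    apply Finset.sum_congr rfl
    intro j _
    rw [mul_smul_comm, ← gW_rad_mul, hE.E_eq j, gW_sub, smul_sub]
  have hR : NL.R' h δ (gX g x) = gW g (NL.R' h δ x) := by
    apply vp_inj hδ
    rw [hE'.R_eq, ← gW_rad_mul, hE.R_eq, R_act hg hE hE']
  have hG := g_act hg hE hE'
  unfold NL.NN gS
  simp only [he, hEE, hR, hG]

end
end OD16
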