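import Pool.Agent.LibOD16.Eq1

set_option autoImplicit false
namespace OD16
open MvPolynomial MeasureTheory Metric
open scoped BoundedContinuousFunction ENNReal
noncomputable section

variable (g : E5 ≃ₗᵢ[ℝ] E5)

lemma Eq4_gV_c (J : Fin 5 → WA) (i : Fin 5) (l : ℕ) (t : Tm) :
    (gV g J i).c l t = ∑ j, gm g i j • gc g l ((J j).c l t) := by
  unfold gV
  rw [c_sum]
  refine Finset.sum_congr rfl fun j _ => ?_
  rw [WA.c_smul, BoundedContinuousFunction.smul_apply, gW_c]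

lemma Eq4_orth {M : Type*} [AddCommGroup M] [Module ℝ M] (A : Fin 5 → Fin 5 → M) :
    ∑ i, ∑ j, gm g i j • ∑ k, gm g i k • A j k = ∑ j, A j j := by
  have h1 : ∑ i, ∑ j, gm g i j • ∑ k, gm g i k • A j k =
      ∑ i, ∑ j, ∑ k, (gm g i j * gm g i k) • A j k := by
    refine Finset.sum_congr rfl fun i _ => Finset.sum_congr rfl fun j _ => ?_
    rw [Finset.smul_sum]
    exact Finset.sum_congr rfl fun k _ => smul_smul _ _ _
  have h2 : ∑ i, ∑ j, ∑ k, (gm g i j * gm g i k) • A j k =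
      ∑ j, ∑ k, (∑ i, gm g i j * gm g i k) • A j k := by
    rw [Finset.sum_comm]
    refine Finset.sum_congr rfl fun j _ => ?_
    rw [Finset.sum_comm]
    refine Finset.sum_congr rfl fun k _ => ?_
    rw [Finset.sum_smul]
  rw [h1, h2]
  refine Finset.sum_congr rfl fun j _ => ?_
  rw [Finset.sum_eq_single j]
  · rw [gm_orth, if_pos rfl, one_smul]
  · intro k _ hk
    rw [gm_orth, if_neg hk.symm, zero_smul]
  · intro h
    exact absurd (Finset.mem_univ j) h

/-- TASK Eq4.  `D_l(g E) = g D_l(E)` (`gc_dn`, `gc_up`, `gm_orth`). -/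
lemma Dv_act (E : Fin 5 → WA) (l : ℕ) (t : Tm) : Dv (gV g E) l t = gc g l (Dv E l t) := by
  cases l with
  | zero =>
    show (0 : V 0) = gc g 0 0
    rw [map_zero]
  | succ l =>
    have hd : ∑ i, dn i (l + 1) ((gV g E i).c (l + 2) t) =
        gc g (l + 1) (∑ i, dn i (l + 1) ((E i).c (l + 2) t)) := by
      rw [map_sum, ← Eq4_orth g (fun j k => gc g (l + 1) (dn k (l + 1) ((E j).c (l + 2) t)))]
      refine Finset.sum_congr rfl fun i _ => ?_
      rw [Eq4_gV_c, map_sum]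
      refine Finset.sum_congr rfl fun j _ => ?_
      rw [map_smul, gc_dn]
    have hu : ∑ i, up i l ((gV g E i).c l t) =
        gc g (l + 1) (∑ i, up i l ((E i).c l t)) := by
      rw [map_sum, ← Eq4_orth g (fun j k => gc g (l + 1) (up k l ((E j).c l t)))]
      refine Finset.sum_congr rfl fun i _ => ?_
      rw [Eq4_gV_c, map_sum]
      refine Finset.sum_congr rfl fun j _ => ?_
      rw [map_smul, gc_up]
    show ((l : ℝ) + 1) • ∑ i, dn i (l + 1) ((gV g E i).c (l + 2) t)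
      - ((l : ℝ) + 4) • ∑ i, up i l ((gV g E i).c l t) =
      gc g (l + 1) (((l : ℝ) + 1) • ∑ i, dn i (l + 1) ((E i).c (l + 2) t)
      - ((l : ℝ) + 4) • ∑ i, up i l ((E i).c l t))
    rw [hd, hu, map_sub, map_smul, map_smul]

lemma gc_c0 : gc g 0 c0 = c0 := by
  rw [V0_eq (gc g 0 c0), gc_ev, c0_ev, one_smul]

/-- A bounded linear map commutes with derivatives. -/
lemma hasDerivAt_gc {l : ℕ} {f : ℝ → V l} {f' : V l} {t : ℝ} (hf : HasDerivAt f f' t) :
    HasDerivAt (fun s => gc g l (f s)) (gc g l f') t :=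
  (LinearMap.toContinuousLinearMap (gc g l)).hasFDerivAt.comp_hasDerivAt t hf

lemma Eq4_xt (F : WA) (l : ℕ) : xt ((gW g F).c l) = fun s => gc g l (xt (F.c l) s) := rfl

lemma Eq4_xt' (F : WA) (l : ℕ) (t : ℝ) : xt ((gW g F).c l) t = gc g l (xt (F.c l) t) := rfl

lemma Eq4_xtD (E : Fin 5 → WA) (l : ℕ) (t : ℝ) :
    xt (Dv (gV g E) l) t = gc g l (xt (Dv E l) t) := by
  unfold xt
  exact Dv_act g E l _

/-- Equivariance of the linear problem. -/
theorem LinSol.act {δ : ℝ} {p : SI} {x : XS} {b : WA} {Λ : V 1} (hL : LinSol δ p x b Λ) :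
    LinSol δ (gS g p) (gX g x) (gW g b) (gc g 1 Λ) where
  dj := fun l t ht => hasDerivAt_gc g (hL.dj l t ht)
  J_zero := by
    intro i t
    show (gV g x.2.2.2 i).c 0 t = (4 : ℝ) • dn i 0 (gc g 1 (x.2.1.c 1 t))
    rw [Eq4_gV_c, gc_dn, Finset.smul_sum]
    refine Finset.sum_congr rfl fun j _ => ?_
    rw [hL.J_zero, map_smul, smul_comm]
  J_succ := by
    intro i l t
    show (gV g x.2.2.2 i).c (l + 1) t =
      ((l : ℝ) + 5) • dn i (l + 1) (gc g (l + 2) (x.2.1.c (l + 2) t))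
        - (l : ℝ) • up i l (gc g l (x.2.1.c l t))
    rw [Eq4_gV_c, gc_dn, gc_up, Finset.smul_sum, Finset.smul_sum, ← Finset.sum_sub_distrib]
    refine Finset.sum_congr rfl fun j _ => ?_
    rw [hL.J_succ, map_sub, map_smul, map_smul, smul_sub, smul_comm (gm g i j) ((l : ℝ) + 5),
      smul_comm (gm g i j) (l : ℝ)]
  eq := by
    intro l t
    show gc g l (x.2.2.1.c l t) = -((1 + 1 / (1 - δ)) • gc g l (x.2.1.c l t)) +
      (1 / (1 - δ)) • (gc g l (b.c l t) - vp δ t • gc g l (p.1.c l t))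
    rw [hL.eq, map_add, map_neg, map_smul, map_smul, map_sub, map_smul]
  db := by
    intro l t ht
    have h1 := hasDerivAt_gc g (hL.db l t ht)
    rw [map_sub, map_add, map_neg, map_smul, map_smul, map_smul, map_add] at h1
    show HasDerivAt (fun s => gc g l (xt (b.c l) s))
      (-((5 : ℝ) • gc g l (xt (b.c l) t)) + ((l : ℝ) * (l + 3)) • gc g l (xt (x.2.1.c l) t)
      - vp δ t • (xt (Dv (gV g p.2.1) l) t + gc g l (xt (p.2.2.1.c l) t))) t
    rw [Eq4_xtD]
    exact h1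
  bc2 := by
    intro l hl
    show gc g l (x.2.2.1.c l t0) + gc g l (x.2.1.c l t0) = gc g l (p.2.2.2.c l t0)
    rw [← map_add, hL.bc2 l hl]
  bc1 := by
    show gc g 1 (x.2.2.1.c 1 t0) + gc g 1 (x.2.1.c 1 t0) = gc g 1 (p.2.2.2.c 1 t0) + gc g 1 Λ
    rw [← map_add, hL.bc1, map_add]
  bc0 := by
    show gc g 0 (x.2.2.1.c 0 t0) + gc g 0 (x.2.1.c 0 t0) =
      gc g 0 (p.2.2.2.c 0 t0) + x.1 • c0
    rw [← map_add, hL.bc0, map_add, map_smul, gc_c0]

end
end OD16
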