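import Pool.Agent.LibOD16.Eq0

set_option autoImplicit false
namespace OD16
open MvPolynomial MeasureTheory Metric
open scoped BoundedContinuousFunction ENNReal
noncomputable section

/-- A linear self-map with a linear inverse that preserves the norm. -/
private lemma exists_iso5 (f f' : E5 → E5) (hadd : ∀ x y, f (x + y) = f x + f y)
    (hsmul : ∀ (c : ℝ) x, f (c • x) = c • f x) (h1 : ∀ x, f' (f x) = x) (h2 : ∀ x, f (f' x) = x)
    (hn : ∀ x, ∑ i, (f x i) ^ 2 = ∑ i, (x i) ^ 2) :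
    ∃ g : E5 ≃ₗᵢ[ℝ] E5, ∀ x, g x = f x := by
  refine ⟨⟨⟨⟨⟨f, hadd⟩, hsmul⟩, f', h1, h2⟩, ?_⟩, fun x => rfl⟩
  intro x
  have : ‖f x‖ = ‖x‖ := by
    rw [EuclideanSpace.norm_eq, EuclideanSpace.norm_eq]
    simp only [Real.norm_eq_abs, sq_abs]
    rw [hn]
  exact this

private lemma rhoR_congr (h : ℝ) (X Y : EE) (h0 : Y 0 = X 0)
    (h1 : Y 1 ^ 2 + Y 2 ^ 2 + Y 3 ^ 2 = X 1 ^ 2 + X 2 ^ 2 + X 3 ^ 2) : rhoR h Y = rhoR h X := by
  unfold rhoR
  congr 1
  rw [h0]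
  linear_combination h ^ 2 * h1

/-- TASK Eq5.  The three types of symmetries. -/
lemma exists_refl1 : ∃ g : E5 ≃ₗᵢ[ℝ] E5, Gd g ∧
    ∀ x : E5, g x = WithLp.toLp 2 ![x 0, -x 1, x 2, x 3, x 4] := by
  obtain ⟨g, hg⟩ := exists_iso5 (fun x => WithLp.toLp 2 ![x 0, -x 1, x 2, x 3, x 4])
    (fun x => WithLp.toLp 2 ![x 0, -x 1, x 2, x 3, x 4])
    (by intro x y; ext i; fin_cases i <;> simp [add_comm])
    (by intro c x; ext i; fin_cases i <;> simp)
    (by intro x; ext i; fin_cases i <;> simp)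
    (by intro x; ext i; fin_cases i <;> simp)
    (by intro x; simp [Fin.sum_univ_five])
  refine ⟨g, ?_, hg⟩
  have c0 : ∀ X, (g X) 0 = X 0 := fun X => by rw [hg]; simp
  have c1 : ∀ X, (g X) 1 = -X 1 := fun X => by rw [hg]; simp
  have c2 : ∀ X, (g X) 2 = X 2 := fun X => by rw [hg]; simp
  have c3 : ∀ X, (g X) 3 = X 3 := fun X => by rw [hg]; simp
  have hρ : ∀ h X, rhoR h (g X) = rhoR h X := fun h X =>
    rhoR_congr h X (g X) (c0 X) (by rw [c1, c2, c3]; ring)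
  refine ⟨?_, ?_, ?_⟩
  · intro h δ X
    unfold WR
    rw [hρ, c0, c1]
    congr 3
    ring
  · intro h X
    unfold kR
    rw [hρ, c0]
  · intro X v
    rw [hg (TR X v)]
    unfold TR
    ext i
    fin_cases i <;> simp [c1, c2, c3]
    ring

lemma exists_refl4 : ∃ g : E5 ≃ₗᵢ[ℝ] E5, Gd g ∧
    ∀ x : E5, g x = WithLp.toLp 2 ![x 0, x 1, x 2, x 3, -x 4] := by
  obtain ⟨g, hg⟩ := exists_iso5 (fun x => WithLp.toLp 2 ![x 0, x 1, x 2, x 3, -x 4])
    (fun x => WithLp.toLp 2 ![x 0, x 1, x 2, x 3, -x 4])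
    (by intro x y; ext i; fin_cases i <;> simp [add_comm])
    (by intro c x; ext i; fin_cases i <;> simp)
    (by intro x; ext i; fin_cases i <;> simp)
    (by intro x; ext i; fin_cases i <;> simp)
    (by intro x; simp [Fin.sum_univ_five])
  refine ⟨g, ?_, hg⟩
  have c0 : ∀ X, (g X) 0 = X 0 := fun X => by rw [hg]; simp
  have c1 : ∀ X, (g X) 1 = X 1 := fun X => by rw [hg]; simp
  have c2 : ∀ X, (g X) 2 = X 2 := fun X => by rw [hg]; simp
  have c3 : ∀ X, (g X) 3 = X 3 := fun X => by rw [hg]; simp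
  have hρ : ∀ h X, rhoR h (g X) = rhoR h X := fun h X =>
    rhoR_congr h X (g X) (c0 X) (by rw [c1, c2, c3])
  refine ⟨?_, ?_, ?_⟩
  · intro h δ X
    unfold WR
    rw [hρ, c0, c1]
  · intro h X
    unfold kR
    rw [hρ, c0]
  · intro X v
    rw [hg (TR X v)]
    unfold TR
    ext i
    fin_cases i <;> simp [c1, c2, c3]

lemma exists_rot (a : ℝ) : ∃ g : E5 ≃ₗᵢ[ℝ] E5, Gd g ∧ ∀ x : E5, g x = rot23 a x := by
  have hcs := Real.sin_sq_add_cos_sq a
  obtain ⟨g, hg⟩ := exists_iso5 (rot23 a) (rot23 (-a))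
    (by intro x y; unfold rot23; ext i; fin_cases i <;> simp <;> ring)
    (by intro c x; unfold rot23; ext i; fin_cases i <;> simp <;> ring)
    (by
      intro x; unfold rot23; ext i; fin_cases i <;> simp
      · linear_combination (x.ofLp 2) * hcs
      · linear_combination (x.ofLp 3) * hcs)
    (by
      intro x; unfold rot23; ext i; fin_cases i <;> simp
      · linear_combination (x.ofLp 2) * hcs
      · linear_combination (x.ofLp 3) * hcs)
    (by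
      intro x; unfold rot23; simp [Fin.sum_univ_five]
      linear_combination (x.ofLp 2 ^ 2 + x.ofLp 3 ^ 2) * hcs)
  refine ⟨g, ?_, hg⟩
  have c0 : ∀ X, (g X) 0 = X 0 := fun X => by rw [hg]; simp [rot23]
  have c1 : ∀ X, (g X) 1 = X 1 := fun X => by rw [hg]; simp [rot23]
  have c2 : ∀ X, (g X) 2 = Real.cos a * X 2 - Real.sin a * X 3 := fun X => by
    rw [hg]; simp [rot23]
  have c3 : ∀ X, (g X) 3 = Real.sin a * X 2 + Real.cos a * X 3 := fun X => by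
    rw [hg]; simp [rot23]
  have hρ : ∀ h X, rhoR h (g X) = rhoR h X := fun h X =>
    rhoR_congr h X (g X) (c0 X) (by
      rw [c1, c2, c3]
      linear_combination (X 2 ^ 2 + X 3 ^ 2) * hcs)
  have hn : ∀ X : EE, (g X) 1 ^ 2 + (g X) 2 ^ 2 + (g X) 3 ^ 2 = X 1 ^ 2 + X 2 ^ 2 + X 3 ^ 2 := by
    intro X
    rw [c1, c2, c3]
    linear_combination (X 2 ^ 2 + X 3 ^ 2) * hcs
  have hi : ∀ X v : EE, (g X) 1 * (g v) 1 + (g X) 2 * (g v) 2 + (g X) 3 * (g v) 3
      = X 1 * v 1 + X 2 * v 2 + X 3 * v 3 := by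
    intro X v
    rw [c1, c2, c3, c1, c2, c3]
    linear_combination (X 2 * v 2 + X 3 * v 3) * hcs
  refine ⟨?_, ?_, ?_⟩
  · intro h δ X
    unfold WR
    rw [hρ, c0, c1]
  · intro h X
    unfold kR
    rw [hρ, c0]
  · intro X v
    have e : TR (g X) (g v) = WithLp.toLp 2 ![0,
        (X 1 ^ 2 + X 2 ^ 2 + X 3 ^ 2) * (g v) 1 - (X 1 * v 1 + X 2 * v 2 + X 3 * v 3) * (g X) 1,
        (X 1 ^ 2 + X 2 ^ 2 + X 3 ^ 2) * (g v) 2 - (X 1 * v 1 + X 2 * v 2 + X 3 * v 3) * (g X) 2,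
        (X 1 ^ 2 + X 2 ^ 2 + X 3 ^ 2) * (g v) 3 - (X 1 * v 1 + X 2 * v 2 + X 3 * v 3) * (g X) 3,
        0] := by
      unfold TR
      rw [hn, hi]
    rw [e, hg (TR X v)]
    unfold TR rot23
    ext i
    fin_cases i <;> simp [c1, c2, c3] <;> ring

end
end OD16
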