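import Pool.Agent.LibOD16.Eq3
import Pool.Agent.LibOD16.Eq4
import Pool.Agent.LibOD16.Eq5

set_option autoImplicit false
namespace OD16
open MvPolynomial MeasureTheory Metric
open scoped BoundedContinuousFunction ENNReal
noncomputable section

/-- The transformed fixed point is a fixed point, hence equal to it. -/
theorem Fix.act (K : ℝ) : ∃ h0 : ℝ, 0 < h0 ∧ ∀ h δ, 0 < h → h < h0 → 0 < δ → δ ≤ h ^ 2 →
    ∀ (g : E5 ≃ₗᵢ[ℝ] E5), Gd g → ∀ (x : XS) (b : WA) (Λ : V 1), Fix K h δ x b Λ →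
      gX g x = x ∧ gc g 1 Λ = Λ := by
  obtain ⟨h1, h1p, H1⟩ := evl (5 * |K|)
  obtain ⟨h2, h2p, H2⟩ := Fix.unique (5 * |K|)
  refine ⟨min h1 h2, lt_min h1p h2p, ?_⟩
  intro h δ hh hh0 hδ hδ1 g hg x b Λ hf
  have hK : K * h ^ 2 ≤ |K| * h ^ 2 := by
    have := le_abs_self K
    have := sq_nonneg h
    nlinarith
  have hK0 : 0 ≤ |K| * h ^ 2 := by positivity
  have hx : ‖x‖ ≤ |K| * h ^ 2 := hf.nx.trans hK
  have hx5 : ‖x‖ ≤ 5 * |K| * h ^ 2 := by nlinarith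
  have hgx : ‖gX g x‖ ≤ 5 * |K| * h ^ 2 := by
    have := norm_gX_le g x
    nlinarith
  have hE := H1 h δ hh (lt_of_lt_of_le hh0 (min_le_left _ _)) hδ hδ1 x hx5
  have hE' := H1 h δ hh (lt_of_lt_of_le hh0 (min_le_left _ _)) hδ hδ1 (gX g x) hgx
  have hf1 : Fix (5 * |K|) h δ x b Λ := ⟨hx5, hf.lin⟩
  have hf2 : Fix (5 * |K|) h δ (gX g x) (gW g b) (gc g 1 Λ) := by
    refine ⟨hgx, ?_⟩
    rw [NN_act hg hδ hE hE']
    exact hf.lin.act g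
  have h3 := H2 h δ hh (lt_of_lt_of_le hh0 (min_le_right _ _)) hδ hδ1 _ _ _ _ _ _ hf2 hf1
  exact ⟨h3.1, h3.2.2⟩

/-- TASK Eq6.  An element of `V 1` invariant under the three types of symmetries is a multiple of
`x_0` (`V1_eq`, `gc_ev`). -/
lemma V1_inv (Λ : V 1) (h : ∀ g : E5 ≃ₗᵢ[ℝ] E5, Gd g → gc g 1 Λ = Λ) : ∃ c : ℝ, Λ = c • tv 0 := by
  have key : ∀ (g : E5 ≃ₗᵢ[ℝ] E5) (_ : Gd g) (i : Fin 5)
      (_ : g (EuclideanSpace.single i 1) = (-1 : ℝ) • EuclideanSpace.single i 1),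
      Λ.ev (EuclideanSpace.single i 1) = 0 := by
    intro g hg i hi
    have h1 := gc_ev g 1 Λ (EuclideanSpace.single i 1)
    rw [h g hg, hi, V.ev_smul_arg] at h1
    linarith
  obtain ⟨g1, hg1, hx1⟩ := exists_refl1
  obtain ⟨g4, hg4, hx4⟩ := exists_refl4
  obtain ⟨gr, hgr, hxr⟩ := exists_rot Real.pi
  have e1 : Λ.ev (EuclideanSpace.single 1 1) = 0 := by
    refine key g1 hg1 1 ?_
    rw [hx1]
    ext j
    fin_cases j <;> simp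
  have e4 : Λ.ev (EuclideanSpace.single 4 1) = 0 := by
    refine key g4 hg4 4 ?_
    rw [hx4]
    ext j
    fin_cases j <;> simp
  have e2 : Λ.ev (EuclideanSpace.single 2 1) = 0 := by
    refine key gr hgr 2 ?_
    rw [hxr]
    ext j
    fin_cases j <;> simp [rot23]
  have e3 : Λ.ev (EuclideanSpace.single 3 1) = 0 := by
    refine key gr hgr 3 ?_
    rw [hxr]
    ext j
    fin_cases j <;> simp [rot23]
  refine ⟨Λ.ev (EuclideanSpace.single 0 1), ?_⟩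
  conv_lhs => rw [V1_eq Λ]
  rw [Fin.sum_univ_five, e1, e2, e3, e4]
  simp

/-- Symmetry of the fixed point: `Λ ∈ ℝ θ_0`, and `j0` is invariant under the rotations of
`(x_2, x_3)`. -/
theorem Fix.sym (K : ℝ) : ∃ h0 : ℝ, 0 < h0 ∧ ∀ h δ, 0 < h → h < h0 → 0 < δ → δ ≤ h ^ 2 →
    ∀ (x : XS) (b : WA) (Λ : V 1), Fix K h δ x b Λ →
      (∃ c : ℝ, Λ = c • tv 0) ∧
      ∀ (a : ℝ) (t : Tm) (θ : S4), x.2.1.ev t (rot23 a θ.1) = x.2.1.ev t θ.1 := by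
  obtain ⟨h0, h0p, H⟩ := Fix.act K
  refine ⟨h0, h0p, ?_⟩
  intro h δ hh hh0 hδ hδ1 x b Λ hf
  refine ⟨V1_inv Λ fun g hg => (H h δ hh hh0 hδ hδ1 g hg x b Λ hf).2, ?_⟩
  intro a t θ
  obtain ⟨g, hg, hgx⟩ := exists_rot a
  have h1 := (H h δ hh hh0 hδ hδ1 g hg x b Λ hf).1
  have h2 : gW g x.2.1 = x.2.1 := congrArg (fun y : XS => y.2.1) h1
  have h3 := gW_ev g x.2.1 t θ.1
  rw [h2, hgx] at h3
  exact h3.symm

end
end OD16
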