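import Pool.Agent.LibOD16.NLI

set_option autoImplicit false
namespace OD16
open MvPolynomial MeasureTheory Metric
open scoped BoundedContinuousFunction ENNReal
noncomputable section

namespace NL

/-- Value of a family at a point. -/
def evF (h δ : ℝ) (x : XS) (t : Tm) (θ : S4) (F : Fam) : ℝ := (F h δ x).ev t θ.1

variable (h δ : ℝ) (x : XS) (t : Tm) (θ : S4)

lemma evF_eq (F : Fam) : evF h δ x t θ F = WA.evR t θ (F h δ x) := rfl

/-- TASK EvA.  `evF` is a ring homomorphism and its values on the atoms. -/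
@[simp] lemma evF_add (F G : Fam) : evF h δ x t θ (F + G) = evF h δ x t θ F + evF h δ x t θ G := by
  exact map_add (WA.evR t θ) (F h δ x) (G h δ x)
@[simp] lemma evF_sub (F G : Fam) : evF h δ x t θ (F - G) = evF h δ x t θ F - evF h δ x t θ G := by
  exact map_sub (WA.evR t θ) (F h δ x) (G h δ x)
@[simp] lemma evF_neg (F : Fam) : evF h δ x t θ (-F) = -evF h δ x t θ F := by
  exact map_neg (WA.evR t θ) (F h δ x)
@[simp] lemma evF_mul (F G : Fam) : evF h δ x t θ (F * G) = evF h δ x t θ F * evF h δ x t θ G := by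
  exact map_mul (WA.evR t θ) (F h δ x) (G h δ x)
@[simp] lemma evF_pow (F : Fam) (n : ℕ) : evF h δ x t θ (F ^ n) = evF h δ x t θ F ^ n := by
  exact map_pow (WA.evR t θ) (F h δ x) n
@[simp] lemma evF_one : evF h δ x t θ 1 = 1 := by
  exact map_one (WA.evR t θ)
@[simp] lemma evF_zero : evF h δ x t θ 0 = 0 := by
  exact map_zero (WA.evR t θ)
@[simp] lemma evF_ofNat (n : ℕ) [n.AtLeastTwo] :
    evF h δ x t θ (OfNat.ofNat n : Fam) = (OfNat.ofNat n : ℝ) := by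
  exact map_ofNat (WA.evR t θ) n
@[simp] lemma evF_sum (s : Finset (Fin 5)) (F : Fin 5 → Fam) :
    evF h δ x t θ (∑ i ∈ s, F i) = ∑ i ∈ s, evF h δ x t θ (F i) := by
  induction s using Finset.induction_on with
  | empty => simp
  | insert a s ha ih => rw [Finset.sum_insert ha, Finset.sum_insert ha, evF_add, ih]
@[simp] lemma evF_H : evF h δ x t θ H = h := by
  show WA.ev (h • (1 : WA)) t θ.1 = h
  rw [WA.ev_smul, WA.ev_one, mul_one]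
@[simp] lemma evF_Dl : evF h δ x t θ Dl = δ := by
  show WA.ev (δ • (1 : WA)) t θ.1 = δ
  rw [WA.ev_smul, WA.ev_one, mul_one]
@[simp] lemma evF_qF : evF h δ x t θ qF = 1 / (1 - δ) := by
  show WA.ev ((1 / (1 - δ)) • (1 : WA)) t θ.1 = 1 / (1 - δ)
  rw [WA.ev_smul, WA.ev_one, mul_one]
@[simp] lemma evF_hf : evF h δ x t θ hf = 1 / 2 := by
  show WA.ev ((1 / 2 : ℝ) • (1 : WA)) t θ.1 = 1 / 2
  rw [WA.ev_smul, WA.ev_one, mul_one]
@[simp] lemma evF_nu : evF h δ x t θ nu = x.1 := by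
  show WA.ev (x.1 • (1 : WA)) t θ.1 = x.1
  rw [WA.ev_smul, WA.ev_one, mul_one]
@[simp] lemma evF_j0 : evF h δ x t θ j0 = x.2.1.ev t θ.1 := by
  rfl
@[simp] lemma evF_j1 : evF h δ x t θ j1 = x.2.2.1.ev t θ.1 := by
  rfl
@[simp] lemma evF_J (i : Fin 5) : evF h δ x t θ (J i) = (x.2.2.2 i).ev t θ.1 := by
  rfl
@[simp] lemma evF_r : evF h δ x t θ r = Real.exp t := by
  show WA.ev (WA.rad expB) t θ.1 = Real.exp t
  rw [WA.ev_rad]
  rfl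
@[simp] lemma evF_X : evF h δ x t θ X = chi t := by
  show WA.ev (WA.rad chiB) t θ.1 = chi t
  rw [WA.ev_rad]
  rfl
@[simp] lemma evF_Xd : evF h δ x t θ Xd = chid t := by
  show WA.ev (WA.rad chidB) t θ.1 = chid t
  rw [WA.ev_rad]
  rfl
@[simp] lemma evF_c1 : evF h δ x t θ c1 = chi1 t * Real.exp (-t) := by
  show WA.ev (WA.rad c1B) t θ.1 = chi1 t * Real.exp (-t)
  rw [WA.ev_rad]
  rfl
lemma evF_w1 (hδ : 0 < δ) : evF h δ x t θ w1 = Real.exp t / vp δ t := by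
  show WA.ev (WA.rad (om1B δ)) t θ.1 = Real.exp t / vp δ t
  rw [WA.ev_rad]
  show Real.exp t / vp |δ| t = _
  rw [abs_of_pos hδ]
lemma evF_w2 (hδ : 0 < δ) : evF h δ x t θ w2 = δ / vp δ t := by
  show WA.ev (WA.rad (om2B δ)) t θ.1 = δ / vp δ t
  rw [WA.ev_rad]
  show |δ| / vp |δ| t = _
  rw [abs_of_pos hδ]
@[simp] lemma evF_th (i : Fin 5) : evF h δ x t θ (th i) = θ.1 i := by
  exact WA.ev_th i t θ.1

/-- `|value| ≤ norm`. -/
lemma abs_evF_le (F : Fam) : |evF h δ x t θ F| ≤ ‖F h δ x‖ := by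
  exact WA.abs_ev_le _ _ _

/-- Powers. -/
lemma evF_pwF (κ : ℝ → ℝ) (F : Fam) (hκ : |κ δ| ≤ 1) (hF : ‖F h δ x‖ ≤ 1 / 2) :
    evF h δ x t θ (pwF κ F) = (1 + evF h δ x t θ F) ^ κ δ := by
  exact map_pw (WA.evR t θ) (WA.continuous_evR t θ) hκ (F h δ x) hF
    ((abs_evF_le h δ x t θ F).trans hF)

/-- `pw κ F = 1 + κ F ph κ F`. -/
lemma evF_phF (κ : ℝ → ℝ) (F : Fam) (hκ : |κ δ| ≤ 1) (hκ0 : κ δ ≠ 0) (hF : ‖F h δ x‖ ≤ 1 / 2) :
    1 + κ δ * (evF h δ x t θ F * evF h δ x t θ (phF κ F)) = (1 + evF h δ x t θ F) ^ κ δ := by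
  have h1 := evF_pwF h δ x t θ κ F hκ hF
  have h2 : pw (κ δ) (F h δ x) = 1 + κ δ • (F h δ x * ph (κ δ) (F h δ x)) := pw_eq hκ hκ0 _ hF
  have h3 : evF h δ x t θ (pwF κ F) = WA.ev (pw (κ δ) (F h δ x)) t θ.1 := rfl
  rw [← h1, h3, h2, WA.ev_add, WA.ev_smul, WA.ev_mul, WA.ev_one]
  rfl

end NL

/-- Smallness conditions under which everything is well defined. -/
structure Sml (h δ : ℝ) (x : XS) : Prop where
  h_pos : 0 < h
  h_le : h ≤ 1 / 100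
  δ_pos : 0 < δ
  δ_lt : δ < 1 / 10
  eta : ‖NL.eta h δ x‖ ≤ 1 / 2
  em : ‖(NL.eta + NL.etad) h δ x‖ ≤ 1 / 2
  s1 : ‖NL.s1 NL.eta h δ x‖ ≤ 1 / 2
  s3 : ‖NL.s3 NL.eta h δ x‖ ≤ 1 / 2
  s10 : ‖NL.s1 0 h δ x‖ ≤ 1 / 2
  s30 : ‖NL.s3 0 h δ x‖ ≤ 1 / 2
  s : ‖NL.s h δ x‖ ≤ 1 / 2
  s0 : ‖NL.s0 h δ x‖ ≤ 1 / 2
  gg : ‖(NL.ie ^ 2 * NL.JJ NL.eta) h δ x‖ ≤ 1 / 2

end
end OD16
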