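import Pool.Agent.LibOD16.EvA

set_option autoImplicit false
namespace OD16
open MvPolynomial MeasureTheory Metric
open scoped BoundedContinuousFunction ENNReal
noncomputable section

namespace Sml

open NL

variable {h δ : ℝ} {x : XS} (S : Sml h δ x) (t : Tm) (θ : S4)

/-- TASK EvC.  Values of the algebraic quantities. -/
lemma ev_U : evF h δ x t θ U = (ptx h δ x t θ.1).U := by
  simp [U, ptx, mkPt, Pt.U, Pt.q]

lemma ev_eta : evF h δ x t θ NL.eta = (ptx h δ x t θ.1).eta := by
  simp [NL.eta, ptx, mkPt, Pt.eta]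

lemma ev_etad : evF h δ x t θ etad = (ptx h δ x t θ.1).etad := by
  simp [etad, ptx, mkPt, Pt.etad]

lemma ev_m : evF h δ x t θ m = (ptx h δ x t θ.1).m := by
  unfold m Pt.m
  rw [evF_add, evF_add, evF_one, ev_eta, ev_etad]

private lemma ev_be : evF h δ x t θ be = (ptx h δ x t θ.1).be := by
  simp [be, ptx, mkPt, Pt.be, U, Pt.U, Pt.q]

include S in
lemma m_ge : 1 / 2 ≤ (ptx h δ x t θ.1).m := by
  have h1 := (abs_evF_le h δ x t θ (NL.eta + etad)).trans S.em
  rw [evF_add, ev_eta, ev_etad] at h1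
  have h2 := (abs_le.mp h1).1
  unfold Pt.m
  linarith

include S in
lemma eta_ge : 1 / 2 ≤ 1 + (ptx h δ x t θ.1).eta := by
  have h1 := (abs_evF_le h δ x t θ NL.eta).trans S.eta
  rw [ev_eta] at h1
  have h2 := (abs_le.mp h1).1
  linarith

include S in
lemma ev_im : evF h δ x t θ im = 1 / (ptx h δ x t θ.1).m := by
  unfold im
  rw [evF_pwF h δ x t θ (fun _ => -1) (NL.eta + etad) (by norm_num) S.em, evF_add, ev_eta,
    ev_etad, Real.rpow_neg_one, one_div]
  unfold Pt.m
  rw [add_assoc]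

include S in
lemma ev_ie : evF h δ x t θ ie = 1 / (1 + (ptx h δ x t θ.1).eta) := by
  unfold ie
  rw [evF_pwF h δ x t θ (fun _ => -1) NL.eta (by norm_num) S.eta, ev_eta, Real.rpow_neg_one,
    one_div]

include S in
lemma ev_al : evF h δ x t θ al = (ptx h δ x t θ.1).al := by
  unfold al Pt.al
  rw [evF_mul, ev_be, S.ev_im, mul_one_div]

include S in
lemma ev_ze : evF h δ x t θ ze = (ptx h δ x t θ.1).ze := by
  unfold ze Pt.ze
  rw [evF_mul, evF_sub, evF_sub, evF_mul, evF_mul, ev_be, S.ev_im, S.ev_ie, evF_one, evF_X]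
  have h1 : (ptx h δ x t θ.1).χ = chi t := rfl
  rw [h1]
  ring

end Sml

end
end OD16
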