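import Pool.Agent.LibOD16.EvA

set_option autoImplicit false
namespace OD16
open MvPolynomial MeasureTheory Metric
open scoped BoundedContinuousFunction ENNReal
noncomputable section

namespace NL

variable {h δ : ℝ} {x : XS} (t : Tm) (θ : S4)

/-- The point `(1 + et) r θ`. -/
def xiF (h δ : ℝ) (x : XS) (t : Tm) (θ : S4) (et : Fam) : EE :=
  ((1 + evF h δ x t θ et) * Real.exp t) • θ.1

private lemma rhoR_nonneg (X : EE) : 0 ≤ rhoR h X := Real.sqrt_nonneg _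

private lemma rhoR_sq (X : EE) : rhoR h X ^ 2 =
    (1 + h * X 0) ^ 2 + (h * X 1) ^ 2 + (h * X 2) ^ 2 + (h * X 3) ^ 2 := by
  unfold rhoR
  exact Real.sq_sqrt (by positivity)

private lemma xiF_apply (et : Fam) (i : Fin 5) :
    xiF h δ x t θ et i = (1 + evF h δ x t θ et) * Real.exp t * θ.1 i := rfl

private lemma ev_s1' (et : Fam) : evF h δ x t θ (s1 et) = Real.exp t * evF h δ x t θ (s1s et) := by
  unfold s1
  rw [evF_mul, evF_r]

private lemma evF_two : evF h δ x t θ (2 : Fam) = 2 := by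
  have h1 : (2 : Fam) = 1 + 1 := one_add_one_eq_two.symm
  rw [h1, evF_add, evF_one]
  norm_num

/-- TASK EvD.  Values of the geometric quantities at the point `(1 + et) r θ`.
`ρ² = (1 + h ξ_0)² + h² (ξ_1² + ξ_2² + ξ_3²) = 1 + s₁`. -/
lemma ev_s1 (et : Fam) : evF h δ x t θ (s1 et) = rhoR h (xiF h δ x t θ et) ^ 2 - 1 := by
  rw [rhoR_sq, xiF_apply, xiF_apply, xiF_apply, xiF_apply]
  simp only [s1, s1s, evF_mul, evF_add, evF_pow, evF_r, evF_H, evF_one, evF_th, evF_two]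
  ring

lemma ev_rho (et : Fam) (h1 : ‖s1 et h δ x‖ ≤ 1 / 2) :
    evF h δ x t θ (pwF (fun _ => 1 / 2) (s1 et)) = rhoR h (xiF h δ x t θ et) := by
  rw [evF_pwF h δ x t θ (fun _ => 1 / 2) (s1 et) (by norm_num [abs_le]) h1, ev_s1,
    add_sub_cancel, ← Real.sqrt_eq_rpow, Real.sqrt_sq (rhoR_nonneg _)]

lemma rho_pos (et : Fam) (h1 : ‖s1 et h δ x‖ ≤ 1 / 2) : 0 < rhoR h (xiF h δ x t θ et) := by
  have h2 := (abs_evF_le h δ x t θ (s1 et)).trans h1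
  rw [ev_s1] at h2
  have h3 := (abs_le.mp h2).1
  have h4 := rhoR_nonneg (h := h) (xiF h δ x t θ et)
  rcases h4.lt_or_eq with h5 | h5
  · exact h5
  · rw [← h5] at h3
    norm_num at h3

lemma ev_s3 (et : Fam) (h1 : ‖s1 et h δ x‖ ≤ 1 / 2) : 1 + evF h δ x t θ (s3 et) =
    (rhoR h (xiF h δ x t θ et) + (1 + h * xiF h δ x t θ et 0)) / 2 := by
  unfold s3
  simp only [evF_mul, evF_add, evF_sub, evF_r, evF_H, evF_one, evF_th, evF_hf]
  rw [ev_rho t θ et h1, xiF_apply]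
  ring

lemma ev_I2 (et : Fam) (h1 : ‖s1 et h δ x‖ ≤ 1 / 2) (h3 : ‖s3 et h δ x‖ ≤ 1 / 2) :
    evF h δ x t θ (I2 et) =
      2 / (rhoR h (xiF h δ x t θ et) + (1 + h * xiF h δ x t θ et 0)) := by
  unfold I2
  rw [evF_pwF h δ x t θ (fun _ => -1) (s3 et) (by norm_num) h3, ev_s3 t θ et h1,
    Real.rpow_neg_one, inv_div]

private lemma den_pos (et : Fam) (h1 : ‖s1 et h δ x‖ ≤ 1 / 2) (h3 : ‖s3 et h δ x‖ ≤ 1 / 2) :
    0 < rhoR h (xiF h δ x t θ et) + (1 + h * xiF h δ x t θ et 0) := by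
  have h2 := (abs_le.mp ((abs_evF_le h δ x t θ (s3 et)).trans h3)).1
  have h4 := ev_s3 t θ et h1
  linarith

/-- `(ρ²)^(-δ/4) = ρ^(-δ/2)`; `δ ≠ 0` for `evF_phF`. -/
lemma ev_W (et : Fam) (hδ : 0 < δ) (hδ1 : δ < 1 / 10) (h1 : ‖s1 et h δ x‖ ≤ 1 / 2)
    (h3 : ‖s3 et h δ x‖ ≤ 1 / 2) :
    evF h δ x t θ (W et) = WR h δ (xiF h δ x t θ et) := by
  have hκ : |(-(δ / 4))| ≤ 1 := by
    rw [abs_neg, abs_of_pos (by positivity)]
    linarith
  have e1 := evF_phF h δ x t θ (fun δ => -(δ / 4)) (s1 et) hκ (by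
    show -(δ / 4) ≠ 0
    have : δ / 4 ≠ 0 := by positivity
    exact neg_ne_zero.mpr this) h1
  have e2 := evF_pwF h δ x t θ (fun δ => -(δ / 4)) (s1 et) hκ h1
  have hρ := rho_pos t θ et h1
  have hd := den_pos t θ et h1 h3
  have e3 : (1 + evF h δ x t θ (s1 et)) ^ (-(δ / 4))
      = rhoR h (xiF h δ x t θ et) ^ (-(δ / 2)) := by
    rw [ev_s1, add_sub_cancel, ← Real.rpow_natCast, ← Real.rpow_mul hρ.le]
    congr 1
    push_cast
    ring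
  have e4 := ev_I2 t θ et h1 h3
  unfold W Ws
  simp only [evF_mul, evF_add, evF_sub, evF_neg, evF_pow, evF_r, evF_H, evF_one, evF_th, evF_hf,
    evF_Dl]
  rw [e4, e2, e3]
  rw [e3] at e1
  rw [ev_s1'] at e1
  unfold WR
  have e5 : xiF h δ x t θ et 1 = (1 + evF h δ x t θ et) * Real.exp t * θ.1 1 := rfl
  have e6 : (h * xiF h δ x t θ et 1) ^ 2 /
      (rhoR h (xiF h δ x t θ et) + (1 + h * xiF h δ x t θ et 0)) ^ 2
      = 1 / 2 * (1 / 2) * h ^ 2 * (1 + evF h δ x t θ et) ^ 2 * Real.exp t * Real.exp t *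
        θ.1 1 ^ 2 * (2 / (rhoR h (xiF h δ x t θ et) + (1 + h * xiF h δ x t θ et 0))) ^ 2 := by
    rw [e5, div_pow]
    ring
  rw [e6]
  linear_combination e1

lemma ev_k (et : Fam) (h1 : ‖s1 et h δ x‖ ≤ 1 / 2) (h3 : ‖s3 et h δ x‖ ≤ 1 / 2) :
    evF h δ x t θ (k et) = kR h (xiF h δ x t θ et) := by
  have hρ := rho_pos t θ et h1
  have hd := den_pos t θ et h1 h3
  have e2 := evF_pwF h δ x t θ (fun _ => -(1 / 2)) (s1 et) (by norm_num [abs_le]) h1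
  have e3 : (1 + evF h δ x t θ (s1 et)) ^ (-(1 / 2) : ℝ) = (rhoR h (xiF h δ x t θ et))⁻¹ := by
    rw [ev_s1, add_sub_cancel, ← Real.rpow_natCast, ← Real.rpow_mul hρ.le]
    have : ((2 : ℕ) : ℝ) * (-(1 / 2)) = -1 := by norm_num
    rw [this, Real.rpow_neg_one]
  unfold k kR
  simp only [evF_mul, evF_pow, evF_H, evF_hf]
  rw [e2, ev_I2 t θ et h1 h3, e3]
  field_simp

/-- `𝒯`. -/
lemma ev_TJ (i : Fin 5) : evF h δ x t θ (TJ i) = TR θ.1 (ptx h δ x t θ.1).J i := by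
  have hJ : ∀ j, (ptx h δ x t θ.1).J j = (x.2.2.2 j).ev t θ.1 := fun j => rfl
  fin_cases i <;> simp [TJ, TR, hJ]

private lemma TR_smul (c : ℝ) (X v : EE) : TR (c • X) v = c ^ 2 • TR X v := by
  ext i
  fin_cases i <;> simp [TR] <;> ring

lemma ev_cJ (et : Fam) (h1 : ‖s1 et h δ x‖ ≤ 1 / 2) (h3 : ‖s3 et h δ x‖ ≤ 1 / 2) (i : Fin 5) :
    evF h δ x t θ (cJ et i) = GR h (xiF h δ x t θ et) (ptx h δ x t θ.1).J i := by
  unfold cJ GR
  have hJ : (ptx h δ x t θ.1).J i = (x.2.2.2 i).ev t θ.1 := rfl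
  simp only [evF_mul, evF_add, evF_sub, evF_pow, evF_r, evF_one, evF_J]
  rw [ev_k t θ et h1 h3, ev_TJ]
  have e1 : TR (xiF h δ x t θ et) (ptx h δ x t θ.1).J
      = ((1 + evF h δ x t θ et) * Real.exp t) ^ 2 • TR θ.1 (ptx h δ x t θ.1).J := by
    unfold xiF
    rw [TR_smul]
  rw [e1]
  show _ = (ptx h δ x t θ.1).J i - kR h (xiF h δ x t θ et) *
    (((1 + evF h δ x t θ et) * Real.exp t) ^ 2 * TR θ.1 (ptx h δ x t θ.1).J i)
  rw [hJ]
  ring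

lemma ev_JJ (et : Fam) (h1 : ‖s1 et h δ x‖ ≤ 1 / 2) (h3 : ‖s3 et h δ x‖ ≤ 1 / 2) :
    evF h δ x t θ (JJ et) =
      inner ℝ (ptx h δ x t θ.1).J (GR h (xiF h δ x t θ et) (ptx h δ x t θ.1).J) := by
  unfold JJ
  rw [evF_sum, PiLp.inner_apply]
  apply Finset.sum_congr rfl
  intro i _
  rw [evF_mul, ev_cJ t θ et h1 h3 i, evF_J]
  have hJ : (ptx h δ x t θ.1).J i = (x.2.2.2 i).ev t θ.1 := rfl
  rw [← hJ]
  show _ = GR h (xiF h δ x t θ et) (ptx h δ x t θ.1).J i * (ptx h δ x t θ.1).J i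
  rw [mul_comm]

end NL

end
end OD16
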