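import Pool.Agent.LibOD16.EvC
import Pool.Agent.LibOD16.EvD

set_option autoImplicit false
namespace OD16
open MvPolynomial MeasureTheory Metric
open scoped BoundedContinuousFunction ENNReal
noncomputable section

namespace Sml

open NL

variable {h δ : ℝ} {x : XS} (S : Sml h δ x) (t : Tm) (θ : S4)

lemma xiF_eta : xiF h δ x t θ NL.eta = (ptx h δ x t θ.1).xi := by
  unfold xiF Pt.xi
  rw [ev_eta]
  rfl

include S in
/-- TASK EvF.  Values of `s`, `Π`, `b`, `Q`, `R`, `g`. -/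
lemma ev_JJ' : evF h δ x t θ (JJ NL.eta) = (ptx h δ x t θ.1).JJ := by
  rw [ev_JJ t θ NL.eta S.s1 S.s3, xiF_eta]
  rfl

include S in
private lemma ev_W' : evF h δ x t θ (NL.W NL.eta) = (ptx h δ x t θ.1).W := by
  rw [ev_W t θ NL.eta S.δ_pos S.δ_lt S.s1 S.s3, xiF_eta]
  rfl

include S in
private lemma ev_cJ' (i : Fin 5) : evF h δ x t θ (cJ NL.eta i) = (ptx h δ x t θ.1).cJ i := by
  rw [ev_cJ t θ NL.eta S.s1 S.s3 i, xiF_eta]
  rfl

include S in
lemma ev_s : evF h δ x t θ NL.s = (ptx h δ x t θ.1).s := by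
  unfold NL.s Pt.s
  rw [evF_sub, evF_add, evF_mul, evF_pow, evF_pow, evF_one, S.ev_al, S.ev_ze, S.ev_JJ']

include S in
lemma s_le : |(ptx h δ x t θ.1).s| ≤ 1 / 2 := by
  rw [← S.ev_s]
  exact (abs_evF_le h δ x t θ NL.s).trans S.s

include S in
lemma ev_Pi : evF h δ x t θ NL.Pi = (ptx h δ x t θ.1).Pi := by
  unfold NL.Pi Pt.Pi
  have hκ : |(-(δ / 2))| ≤ 1 := by
    have h1 := S.δ_pos
    have h2 := S.δ_lt
    rw [abs_neg, abs_of_pos (by positivity)]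
    linarith
  rw [evF_mul, S.ev_W', evF_pwF h δ x t θ (fun δ => -(δ / 2)) NL.s hκ S.s, S.ev_s]
  rfl

include S in
lemma ev_b : evF h δ x t θ NL.b = (ptx h δ x t θ.1).b := by
  unfold NL.b Pt.b
  rw [evF_sub, evF_mul, evF_mul, evF_mul, evF_mul, evF_mul, evF_pow, evF_pow, evF_add, evF_add,
    evF_add, evF_mul, evF_one, S.ev_Pi, S.ev_al, S.ev_ze, S.ev_JJ', ev_eta, evF_X]
  rfl

include S in
lemma ev_Q (i : Fin 5) : evF h δ x t θ (NL.Q i) = (ptx h δ x t θ.1).Q i := by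
  have h1 : (ptx h δ x t θ.1).Q i = (1 + (ptx h δ x t θ.1).eta) ^ 3 * (ptx h δ x t θ.1).m *
      (ptx h δ x t θ.1).Pi * (ptx h δ x t θ.1).ze * (ptx h δ x t θ.1).cJ i := rfl
  rw [h1]
  unfold NL.Q
  rw [evF_mul, evF_mul, evF_mul, evF_mul, evF_pow, evF_add, evF_one, ev_eta, ev_m, S.ev_Pi,
    S.ev_ze, S.ev_cJ']

private lemma evF_five : evF h δ x t θ (5 : Fam) = 5 := by
  have h1 : (5 : Fam) = 1 + 1 + 1 + 1 + 1 := by norm_num
  rw [h1, evF_add, evF_add, evF_add, evF_add, evF_one]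
  norm_num

include S in
lemma ev_R : evF h δ x t θ (NL.r * NL.Rs) = (ptx h δ x t θ.1).R := by
  have h1 := S.ev_W' t θ
  unfold NL.W at h1
  rw [evF_add, evF_mul, evF_one] at h1
  unfold NL.Rs Pt.R
  rw [evF_mul, evF_mul, evF_mul, evF_mul, evF_pow, evF_add, evF_one, ev_eta, ev_m, evF_five,
    ← h1]
  ring

include S in
lemma ev_g : evF h δ x t θ NL.g = (1 + x.1) *
    (Real.sqrt (1 + (ptx h δ x t θ.1).JJ / (1 + (ptx h δ x t θ.1).eta) ^ 2) - 1) := by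
  unfold NL.g
  rw [evF_mul, evF_add, evF_sub, evF_one, evF_nu,
    evF_pwF h δ x t θ (fun _ => 1 / 2) (ie ^ 2 * JJ NL.eta) (by norm_num [abs_le]) S.gg,
    evF_mul, evF_pow, S.ev_ie, S.ev_JJ', ← Real.sqrt_eq_rpow]
  congr 4
  rw [div_pow, one_pow, one_div, div_eq_inv_mul]

end Sml

end
end OD16
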