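import Pool.Agent.LibOD16.EvF

set_option autoImplicit false
namespace OD16
open MvPolynomial MeasureTheory Metric
open scoped BoundedContinuousFunction ENNReal
noncomputable section

namespace Sml

open NL

variable {h δ : ℝ} {x : XS} (S : Sml h δ x) (t : Tm) (θ : S4)

private lemma xiF_congr (e1 e2 : Fam) (h12 : evF h δ x t θ e1 = evF h δ x t θ e2) :
    xiF h δ x t θ e1 = xiF h δ x t θ e2 := by
  unfold xiF
  rw [h12]

private lemma ptx_chi (ht : (t : ℝ) ≤ -1) : (ptx h δ x t θ.1).χ = 0 := chi_eq_zero ht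

private lemma ptx_chid (ht : (t : ℝ) ≤ -1) : (ptx h δ x t θ.1).χd = 0 := chid_eq_zero ht

private lemma ptx_eta (ht : (t : ℝ) ≤ -1) : (ptx h δ x t θ.1).eta = 0 := by
  unfold Pt.eta
  rw [ptx_chi t θ ht, zero_mul]

private lemma ptx_m (ht : (t : ℝ) ≤ -1) : (ptx h δ x t θ.1).m = 1 := by
  unfold Pt.m Pt.etad
  rw [ptx_eta t θ ht, ptx_chi t θ ht, ptx_chid t θ ht]
  ring

private lemma ptx_al (ht : (t : ℝ) ≤ -1) :
    (ptx h δ x t θ.1).al = -1 + (ptx h δ x t θ.1).U := by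
  unfold Pt.al Pt.be
  rw [ptx_m t θ ht, ptx_chi t θ ht, ptx_chid t θ ht]
  ring

private lemma ptx_ze (ht : (t : ℝ) ≤ -1) : (ptx h δ x t θ.1).ze = 1 := by
  unfold Pt.ze
  rw [ptx_m t θ ht, ptx_chi t θ ht, ptx_eta t θ ht]
  ring

private lemma ev_eta0 (ht : (t : ℝ) ≤ -1) :
    evF h δ x t θ NL.eta = evF h δ x t θ (0 : Fam) := by
  rw [ev_eta, ptx_eta t θ ht, evF_zero]

include S in
private lemma ev_W0 (ht : (t : ℝ) ≤ -1) :
    evF h δ x t θ (NL.W NL.eta) = evF h δ x t θ (NL.W 0) := by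
  rw [ev_W t θ NL.eta S.δ_pos S.δ_lt S.s1 S.s3, ev_W t θ 0 S.δ_pos S.δ_lt S.s10 S.s30,
    xiF_congr t θ _ _ (ev_eta0 t θ ht)]

include S in
private lemma ev_JJ0 (ht : (t : ℝ) ≤ -1) :
    evF h δ x t θ (JJ NL.eta) = evF h δ x t θ (JJ 0) := by
  rw [ev_JJ t θ NL.eta S.s1 S.s3, ev_JJ t θ 0 S.s10 S.s30,
    xiF_congr t θ _ _ (ev_eta0 t θ ht)]

include S in
private lemma ev_cJ0 (ht : (t : ℝ) ≤ -1) (i : Fin 5) :
    evF h δ x t θ (cJ NL.eta i) = evF h δ x t θ (cJ 0 i) := by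
  rw [ev_cJ t θ NL.eta S.s1 S.s3, ev_cJ t θ 0 S.s10 S.s30,
    xiF_congr t θ _ _ (ev_eta0 t θ ht)]

include S in
private lemma kap : |(-(δ / 2))| ≤ 1 := by
  have h1 := S.δ_pos
  have h2 := S.δ_lt
  rw [abs_neg, abs_of_pos (by positivity)]
  linarith

include S in
private lemma ev_s0 (ht : (t : ℝ) ≤ -1) : evF h δ x t θ NL.s = evF h δ x t θ NL.s0 := by
  unfold NL.s NL.s0
  rw [evF_sub, evF_sub, evF_add, evF_add, evF_mul, evF_pow, evF_pow, evF_pow, evF_one, S.ev_al,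
    S.ev_ze, S.ev_JJ0 t θ ht, ptx_al t θ ht, ptx_ze t θ ht, evF_add, evF_neg, evF_one, ev_U]
  ring

include S in
private lemma ev_Pi0 (ht : (t : ℝ) ≤ -1) :
    evF h δ x t θ NL.Pi = evF h δ x t θ (NL.W 0) * evF h δ x t θ p0 := by
  unfold NL.Pi p0
  rw [evF_mul, S.ev_W0 t θ ht, evF_pwF h δ x t θ (fun δ => -(δ / 2)) NL.s S.kap S.s,
    evF_pwF h δ x t θ (fun δ => -(δ / 2)) NL.s0 S.kap S.s0, S.ev_s0 t θ ht]

include S in
/-- TASK EvG.  For `t ≤ -1` (`χ = χ' = 0`) the two expressions coincide. -/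
lemma ev_b_eq (ht : (t : ℝ) ≤ -1) : evF h δ x t θ b = evF h δ x t θ b0 := by
  unfold NL.b NL.b0
  rw [evF_sub, evF_mul, evF_mul, evF_mul, evF_mul, evF_mul, evF_pow, evF_pow, evF_add, evF_add,
    evF_add, evF_mul, evF_one, S.ev_Pi0 t θ ht, S.ev_al, S.ev_ze, ev_eta, evF_X, evF_add, evF_mul,
    evF_mul, evF_add, evF_neg, evF_one, ev_U, ptx_al t θ ht, ptx_ze t θ ht, ptx_eta t θ ht,
    chi_eq_zero ht]
  ring

include S in
lemma ev_Q_eq (ht : (t : ℝ) ≤ -1) (i : Fin 5) : evF h δ x t θ (Q i) = evF h δ x t θ (Q0 i) := by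
  unfold NL.Q NL.Q0
  rw [evF_mul, evF_mul, evF_mul, evF_mul, evF_pow, evF_add, evF_one, ev_eta, ev_m,
    S.ev_Pi0 t θ ht, S.ev_ze, S.ev_cJ0 t θ ht, evF_mul, evF_mul, ptx_ze t θ ht, ptx_eta t θ ht,
    ptx_m t θ ht]
  ring

private lemma exp_c1 (ht : -1 ≤ (t : ℝ)) : Real.exp t * evF h δ x t θ c1 = 1 := by
  rw [evF_c1]
  unfold chi1
  rw [Real.smoothTransition.one_of_one_le (by linarith), one_mul, ← Real.exp_add,
    add_neg_cancel, Real.exp_zero]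

include S in
/-- `r (χ₁/r) (b - b0) = b - b0`, pointwise. -/
lemma ev_c1_b : Real.exp t * (evF h δ x t θ c1 * (evF h δ x t θ b - evF h δ x t θ b0)) =
    evF h δ x t θ b - evF h δ x t θ b0 := by
  rcases le_total (t : ℝ) (-1) with ht | ht
  · rw [S.ev_b_eq t θ ht, sub_self, mul_zero, mul_zero]
  · rw [← mul_assoc, exp_c1 t θ ht, one_mul]

include S in
lemma ev_c1_Q (i : Fin 5) :
    Real.exp t * (evF h δ x t θ c1 * (evF h δ x t θ (Q i) - evF h δ x t θ (Q0 i))) =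
      evF h δ x t θ (Q i) - evF h δ x t θ (Q0 i) := by
  rcases le_total (t : ℝ) (-1) with ht | ht
  · rw [S.ev_Q_eq t θ ht, sub_self, mul_zero, mul_zero]
  · rw [← mul_assoc, exp_c1 t θ ht, one_mul]

include S in
/-- `(1 + s0)^(-δ/2) = 1 - (δ/2) ψ`. -/
lemma ev_p0 : evF h δ x t θ p0 = 1 - δ / 2 * evF h δ x t θ ps0 := by
  have hne : (-(δ / 2)) ≠ 0 := by
    have h1 := S.δ_pos
    have : δ / 2 ≠ 0 := by positivity
    exact neg_ne_zero.mpr this
  have h1 := evF_phF h δ x t θ (fun δ => -(δ / 2)) NL.s0 S.kap hne S.s0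
  unfold p0 ps0
  rw [evF_pwF h δ x t θ (fun δ => -(δ / 2)) NL.s0 S.kap S.s0, ← h1, evF_mul]
  ring

private lemma vp_pos (hδ : 0 < δ) : 0 < vp δ t := by
  unfold vp
  have := Real.exp_pos (t : ℝ)
  linarith

include S in
private lemma vp_w1 : vp δ t * evF h δ x t θ w1 = Real.exp t := by
  rw [evF_w1 h δ x t θ S.δ_pos, mul_div_cancel₀ _ (vp_pos t S.δ_pos).ne']

include S in
private lemma vp_w2 : vp δ t * evF h δ x t θ w2 = δ := by
  rw [evF_w2 h δ x t θ S.δ_pos, mul_div_cancel₀ _ (vp_pos t S.δ_pos).ne']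

include S in
/-- `ϖ e' = b - (1 - δ) U`. -/
lemma ev_e : vp δ t * evF h δ x t θ e' = evF h δ x t θ b - (1 - δ) * evF h δ x t θ U := by
  have h1 := S.vp_w1 t θ
  have h2 := S.vp_w2 t θ
  have h3 := S.ev_c1_b t θ
  have h4 := S.ev_p0 t θ
  have h5 : evF h δ x t θ b0 = (1 + Real.exp t * evF h δ x t θ (Ws 0)) * evF h δ x t θ p0 *
      (-1 + evF h δ x t θ U) + 1 := by
    unfold b0 NL.W
    rw [evF_add, evF_mul, evF_mul, evF_add, evF_mul, evF_add, evF_neg, evF_one, evF_r]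
  have h6 : evF h δ x t θ e' = evF h δ x t θ w2 * (1 / 2 * evF h δ x t θ ps0 + evF h δ x t θ U -
      1 / 2 * evF h δ x t θ ps0 * evF h δ x t θ U) + evF h δ x t θ w1 *
      (evF h δ x t θ (Ws 0) * evF h δ x t θ p0 * (-1 + evF h δ x t θ U) +
        evF h δ x t θ c1 * (evF h δ x t θ b - evF h δ x t θ b0)) := by
    unfold e'
    simp only [evF_add, evF_mul, evF_sub, evF_hf, evF_neg, evF_one]
  have h7 : vp δ t * evF h δ x t θ e' = (vp δ t * evF h δ x t θ w2) *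
      (1 / 2 * evF h δ x t θ ps0 + evF h δ x t θ U -
      1 / 2 * evF h δ x t θ ps0 * evF h δ x t θ U) + (vp δ t * evF h δ x t θ w1) *
      (evF h δ x t θ (Ws 0) * evF h δ x t θ p0 * (-1 + evF h δ x t θ U)) +
        (vp δ t * evF h δ x t θ w1) *
          (evF h δ x t θ c1 * (evF h δ x t θ b - evF h δ x t θ b0)) := by
    rw [h6]
    ring
  rw [h7, h1, h2, h3, h5, h4]
  ring

include S in
lemma ev_E (i : Fin 5) :
    vp δ t * evF h δ x t θ (E' i) = evF h δ x t θ (Q i) - evF h δ x t θ (J i) := by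
  have h1 := S.vp_w1 t θ
  have h2 := S.vp_w2 t θ
  have h3 := S.ev_c1_Q t θ i
  have h4 := S.ev_p0 t θ
  have h5 : evF h δ x t θ (Q0 i) = (1 + Real.exp t * evF h δ x t θ (Ws 0)) *
      evF h δ x t θ p0 * evF h δ x t θ (cJ 0 i) := by
    unfold Q0 NL.W
    rw [evF_mul, evF_mul, evF_add, evF_mul, evF_one, evF_r]
  have h8 : evF h δ x t θ (cJ 0 i) = evF h δ x t θ (J i) -
      evF h δ x t θ (k 0) * Real.exp t ^ 2 * evF h δ x t θ (TJ i) := by
    unfold cJ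
    rw [evF_sub, evF_mul, evF_mul, evF_mul, evF_pow, evF_pow, evF_add, evF_one, evF_r, evF_zero]
    ring
  have h6 : evF h δ x t θ (E' i) =
      -(evF h δ x t θ w2 * (1 / 2) * evF h δ x t θ ps0 * evF h δ x t θ (J i)) +
        evF h δ x t θ w1 * (evF h δ x t θ (Ws 0) * evF h δ x t θ p0 * evF h δ x t θ (cJ 0 i) -
          evF h δ x t θ p0 * evF h δ x t θ (k 0) * Real.exp t * evF h δ x t θ (TJ i) +
        evF h δ x t θ c1 * (evF h δ x t θ (Q i) - evF h δ x t θ (Q0 i))) := by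
    unfold E'
    rw [evF_add, evF_neg, evF_mul, evF_mul, evF_mul, evF_mul, evF_add, evF_sub, evF_mul, evF_mul,
      evF_mul, evF_mul, evF_mul, evF_mul, evF_sub, evF_hf, evF_r]
  have h7 : vp δ t * evF h δ x t θ (E' i) =
      -((vp δ t * evF h δ x t θ w2) * (1 / 2) * evF h δ x t θ ps0 * evF h δ x t θ (J i)) +
        (vp δ t * evF h δ x t θ w1) *
          (evF h δ x t θ (Ws 0) * evF h δ x t θ p0 * evF h δ x t θ (cJ 0 i) -
          evF h δ x t θ p0 * evF h δ x t θ (k 0) * Real.exp t * evF h δ x t θ (TJ i)) +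
        (vp δ t * evF h δ x t θ w1) *
          (evF h δ x t θ c1 * (evF h δ x t θ (Q i) - evF h δ x t θ (Q0 i))) := by
    rw [h6]
    ring
  rw [h7, h1, h2, h3, h5, h8, h4]
  ring

include S in
lemma ev_Rw : vp δ t * evF h δ x t θ R' = evF h δ x t θ (NL.r * NL.Rs) := by
  unfold R'
  rw [evF_mul, evF_mul, evF_r, ← mul_assoc, S.vp_w1]

private lemma ev_rad_mul (F : WA) :
    (WA.rad (vpB δ) * F).ev t θ.1 = vp δ t * F.ev t θ.1 := by
  rw [WA.ev_mul, WA.ev_rad, vpB_apply]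

include S in
/-- All properties. -/
theorem evl : Evl h δ x where
  b_ev t θ := S.ev_b t θ
  Q_ev t θ i := S.ev_Q t θ i
  R_ev t θ := S.ev_R t θ
  g_ev t θ := S.ev_g t θ
  e_eq := by
    apply WA.ext_ev
    intro t θ
    rw [ev_rad_mul, WA.ev_sub, WA.ev_smul, WA.ev_add, WA.ev_smul]
    have h1 := S.ev_e t θ
    rw [ev_U] at h1
    exact h1
  E_eq i := by
    apply WA.ext_ev
    intro t θ
    rw [ev_rad_mul, WA.ev_sub]
    exact S.ev_E t θ i
  R_eq := by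
    apply WA.ext_ev
    intro t θ
    rw [ev_rad_mul]
    exact S.ev_Rw t θ
  m_ge t θ := S.m_ge t θ
  s_le t θ := S.s_le t θ

end Sml

end
end OD16
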