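import Pool.Agent.LibOD16.GeoRt

set_option autoImplicit false
namespace OD16
open MeasureTheory Metric
noncomputable section

/-- The section `X ↦ (r1, 0, r2, 0, z3; σ)` of `XX`. -/
def secX (h : ℝ) (X : EE) : G7 :=
  let w := Real.sqrt (2 * (rhoR h X + (1 + h * X 0)))
  let v := 2 * (h * X 1) / w
  (![(w + v) / Real.sqrt 2, 0, (w - v) / Real.sqrt 2, 0, 2 * (h * X 2) / w, 2 * (h * X 3) / w],
    fun _ => h * X 4)

private lemma contDiff_coord (i : Fin 5) :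
    ContDiff ℝ ((⊤ : ℕ∞) : WithTop ℕ∞) (fun X : EE => X i) :=
  (EuclideanSpace.proj i : EE →L[ℝ] ℝ).contDiff

/-- TASK G06a.  `secX` is a smooth section over the ball of radius 2. -/
lemma contDiffAt_secX {h : ℝ} (hh : 0 < h) (hh1 : h ≤ 1 / 100) {X : EE}
    (hX : X ∈ ball (0 : EE) 2) : ContDiffAt ℝ ((⊤ : ℕ∞) : WithTop ℕ∞) (secX h) X := by
  obtain ⟨hy, hρ, -⟩ := rhoR_bounds hh hh1 hX
  have c : ∀ i : Fin 5, ContDiffAt ℝ ((⊤ : ℕ∞) : WithTop ℕ∞) (fun X : EE => X i) X :=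
    fun i => (contDiff_coord i).contDiffAt
  have ch : ∀ i : Fin 5, ContDiffAt ℝ ((⊤ : ℕ∞) : WithTop ℕ∞) (fun X : EE => h * X i) X :=
    fun i => contDiffAt_const.mul (c i)
  have cy : ContDiffAt ℝ ((⊤ : ℕ∞) : WithTop ℕ∞) (fun X : EE => 1 + h * X 0) X :=
    contDiffAt_const.add (ch 0)
  have cρ : ContDiffAt ℝ ((⊤ : ℕ∞) : WithTop ℕ∞) (fun X : EE => rhoR h X) X := by
    unfold rhoR
    refine ContDiffAt.sqrt ((((cy.pow 2).add ((ch 1).pow 2)).add ((ch 2).pow 2)).add ((ch 3).pow 2)) ?_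
    have : 0 < (1 + h * X 0) ^ 2 + (h * X 1) ^ 2 + (h * X 2) ^ 2 + (h * X 3) ^ 2 := by
      have : 0 < 1 + h * X 0 := by linarith
      positivity
    exact this.ne'
  have cw : ContDiffAt ℝ ((⊤ : ℕ∞) : WithTop ℕ∞)
      (fun X : EE => Real.sqrt (2 * (rhoR h X + (1 + h * X 0)))) X := by
    refine ContDiffAt.sqrt (contDiffAt_const.mul (cρ.add cy)) ?_
    have : 0 < 2 * (rhoR h X + (1 + h * X 0)) := by linarith
    exact this.ne'
  have hw : Real.sqrt (2 * (rhoR h X + (1 + h * X 0))) ≠ 0 := by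
    have : 0 < 2 * (rhoR h X + (1 + h * X 0)) := by linarith
    exact (Real.sqrt_pos.2 this).ne'
  have cq : ∀ i : Fin 5, ContDiffAt ℝ ((⊤ : ℕ∞) : WithTop ℕ∞)
      (fun X : EE => 2 * (h * X i) / Real.sqrt (2 * (rhoR h X + (1 + h * X 0)))) X :=
    fun i => (contDiffAt_const.mul (ch i)).div cw hw
  unfold secX
  refine ContDiffAt.prodMk ?_ ?_
  · rw [contDiffAt_pi]
    intro i
    fin_cases i
    · exact (cw.add (cq 1)).div_const _
    · exact contDiffAt_const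
    · exact (cw.sub (cq 1)).div_const _
    · exact contDiffAt_const
    · exact cq 2
    · exact cq 3
  · rw [contDiffAt_pi]
    intro _
    exact ch 4

lemma XX_secX {h : ℝ} (hh : 0 < h) (hh1 : h ≤ 1 / 100) {X : EE} (hX : X ∈ ball (0 : EE) 2) :
    XX h (secX h X) = X := by
  have hne := hh.ne'
  obtain ⟨hy, hρ, -⟩ := rhoR_bounds hh hh1 hX
  have hρ2 : rhoR h X ^ 2 = (1 + h * X 0) ^ 2 + (h * X 1) ^ 2 + (h * X 2) ^ 2 + (h * X 3) ^ 2 := by
    rw [rhoR, Real.sq_sqrt (by positivity)]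
  have hs : 0 < rhoR h X + (1 + h * X 0) := by linarith
  have h2 : 0 < Real.sqrt 2 := Real.sqrt_pos.2 (by norm_num)
  have h22 : Real.sqrt 2 ^ 2 = 2 := Real.sq_sqrt (by norm_num)
  obtain ⟨w, hw⟩ : ∃ w, w = Real.sqrt (2 * (rhoR h X + (1 + h * X 0))) := ⟨_, rfl⟩
  have hw0 : 0 < w := by rw [hw]; exact Real.sqrt_pos.2 (by linarith)
  have hw2 : w ^ 2 = 2 * (rhoR h X + (1 + h * X 0)) := by rw [hw, Real.sq_sqrt (by linarith)]
  obtain ⟨v, hv⟩ : ∃ v, v = 2 * (h * X 1) / w := ⟨_, rfl⟩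
  have hvw : v * w = 2 * (h * X 1) := by rw [hv]; field_simp
  have hsec : secX h X = (![(w + v) / Real.sqrt 2, 0, (w - v) / Real.sqrt 2, 0,
      2 * (h * X 2) / w, 2 * (h * X 3) / w], fun _ => h * X 4) := by
    rw [hv, hw]; rfl
  have habs : |h * X 1| < rhoR h X + (1 + h * X 0) := by
    have : |h * X 1| ≤ rhoR h X := by
      apply abs_le_of_sq_le_sq _ (by linarith)
      rw [hρ2]; nlinarith [sq_nonneg (1 + h * X 0), sq_nonneg (h * X 2), sq_nonneg (h * X 3)]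
    linarith
  have hvlt : |v| < w := by
    have e1 : |v| * w = 2 * |h * X 1| := by
      rw [show |v| * w = |v * w| from by rw [abs_mul, abs_of_pos hw0], hvw, abs_mul,
        abs_of_pos (by norm_num : (0:ℝ) < 2)]
    have e2 : |v| * w < w * w := by rw [e1]; nlinarith
    exact lt_of_mul_lt_mul_right e2 hw0.le
  obtain ⟨hv1, hv2⟩ := abs_lt.1 hvlt
  have r1 : rr1 (secX h X) = (w + v) / Real.sqrt 2 := by
    rw [hsec]
    show Real.sqrt (((w + v) / Real.sqrt 2) ^ 2 + (0 : ℝ) ^ 2) = _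
    rw [zero_pow (by norm_num), add_zero]
    exact Real.sqrt_sq (div_nonneg (by linarith) h2.le)
  have r2 : rr2 (secX h X) = (w - v) / Real.sqrt 2 := by
    rw [hsec]
    show Real.sqrt (((w - v) / Real.sqrt 2) ^ 2 + (0 : ℝ) ^ 2) = _
    rw [zero_pow (by norm_num), add_zero]
    exact Real.sqrt_sq (div_nonneg (by linarith) h2.le)
  have x4 : (secX h X).1 4 = 2 * (h * X 2) / w := by rw [hsec]; rfl
  have x5 : (secX h X).1 5 = 2 * (h * X 3) / w := by rw [hsec]; rfl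
  have xs : (secX h X).2 0 = h * X 4 := rfl
  have hsum : rr1 (secX h X) + rr2 (secX h X) = 2 * w / Real.sqrt 2 := by rw [r1, r2]; ring
  have hA : 2 * rr1 (secX h X) * rr2 (secX h X) = w ^ 2 - v ^ 2 := by
    rw [r1, r2]
    have : 2 * ((w + v) / Real.sqrt 2) * ((w - v) / Real.sqrt 2) =
        2 * (w ^ 2 - v ^ 2) / Real.sqrt 2 ^ 2 := by field_simp; ring
    rw [this, h22]; ring
  have hB : rr1 (secX h X) ^ 2 - rr2 (secX h X) ^ 2 = 4 * (h * X 1) := by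
    rw [r1, r2, div_pow, div_pow, h22]
    nlinarith [hvw]
  ext i
  fin_cases i
  · show ((2 * rr1 (secX h X) * rr2 (secX h X) - ((secX h X).1 4 ^ 2 + (secX h X).1 5 ^ 2)) / 4 - 1) / h
      = X 0
    rw [hA, x4, x5, div_pow, div_pow, hv, div_pow, hw2]
    have hne' : rhoR h X + (1 + h * X 0) ≠ 0 := hs.ne'
    have e6 : (h * X 1) ^ 2 + (h * X 2) ^ 2 + (h * X 3) ^ 2 =
        (rhoR h X - (1 + h * X 0)) * (rhoR h X + (1 + h * X 0)) := by
      linarith [hρ2, (by ring : (rhoR h X - (1 + h * X 0)) * (rhoR h X + (1 + h * X 0)) =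
        rhoR h X ^ 2 - (1 + h * X 0) ^ 2)]
    have e5 : (2 * (rhoR h X + (1 + h * X 0)) - (2 * (h * X 1)) ^ 2 / (2 * (rhoR h X + (1 + h * X 0)))
        - ((2 * (h * X 2)) ^ 2 / (2 * (rhoR h X + (1 + h * X 0))) +
          (2 * (h * X 3)) ^ 2 / (2 * (rhoR h X + (1 + h * X 0))))) / 4 =
        (rhoR h X + (1 + h * X 0)) / 2 - ((h * X 1) ^ 2 + (h * X 2) ^ 2 + (h * X 3) ^ 2) /
          (rhoR h X + (1 + h * X 0)) / 2 := by
      generalize h * X 1 = a
      generalize h * X 2 = b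
      generalize h * X 3 = c
      generalize rhoR h X + (1 + h * X 0) = s at hne'
      field_simp
      ring
    rw [e5, e6, mul_div_cancel_right₀ _ hne']
    field_simp
    ring
  · show (rr1 (secX h X) ^ 2 - rr2 (secX h X) ^ 2) / (4 * h) = X 1
    rw [hB]
    field_simp
  · show (rr1 (secX h X) + rr2 (secX h X)) * (secX h X).1 4 / (2 * Real.sqrt 2 * h) = X 2
    rw [hsum, x4]
    have : 2 * w / Real.sqrt 2 * (2 * (h * X 2) / w) / (2 * Real.sqrt 2 * h) =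
        2 * X 2 / Real.sqrt 2 ^ 2 := by field_simp
    rw [this, h22]; ring
  · show (rr1 (secX h X) + rr2 (secX h X)) * (secX h X).1 5 / (2 * Real.sqrt 2 * h) = X 3
    rw [hsum, x5]
    have : 2 * w / Real.sqrt 2 * (2 * (h * X 3) / w) / (2 * Real.sqrt 2 * h) =
        2 * X 3 / Real.sqrt 2 ^ 2 := by field_simp
    rw [this, h22]; ring
  · show (secX h X).2 0 / h = X 4
    rw [xs]
    field_simp

/-- Every point over the ball is a rotate of the section. -/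
lemma exists_Rt_secX {h : ℝ} (hh : 0 < h) (hh1 : h ≤ 1 / 100) (x : G7)
    (hx : XX h x ∈ ball (0 : EE) 2) : ∃ a : Fin 3 → ℝ, x = Rt a (secX h (XX h x)) := by
  have hne := hh.ne'
  obtain ⟨p1, p2⟩ := rr_pos hh hh1 x hx
  have h2 : 0 < Real.sqrt 2 := Real.sqrt_pos.2 (by norm_num)
  have h22 : Real.sqrt 2 ^ 2 = 2 := Real.sq_sqrt (by norm_num)
  have q1 : rr1 x ^ 2 = x.1 0 ^ 2 + x.1 1 ^ 2 := by rw [rr1, Real.sq_sqrt (by positivity)]
  have q2 : rr2 x ^ 2 = x.1 2 ^ 2 + x.1 3 ^ 2 := by rw [rr2, Real.sq_sqrt (by positivity)]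
  have hw : Real.sqrt (2 * (rhoR h (XX h x) + (1 + h * XX h x 0))) = (rr1 x + rr2 x) / Real.sqrt 2 := by
    rw [rhoR_XX hne, y1_XX hne]
    have : 2 * (zsq x / 4 + (2 * rr1 x * rr2 x - (x.1 4 ^ 2 + x.1 5 ^ 2)) / 4) =
        ((rr1 x + rr2 x) / Real.sqrt 2) ^ 2 := by
      rw [div_pow, h22, zsq, Fin.sum_univ_six]
      nlinarith [q1, q2]
    rw [this]
    exact Real.sqrt_sq (by positivity)
  have e1 : h * XX h x 1 = (rr1 x ^ 2 - rr2 x ^ 2) / 4 := by
    show h * ((rr1 x ^ 2 - rr2 x ^ 2) / (4 * h)) = _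
    field_simp
  have e2 : h * XX h x 2 = (rr1 x + rr2 x) * x.1 4 / (2 * Real.sqrt 2) := by
    show h * ((rr1 x + rr2 x) * x.1 4 / (2 * Real.sqrt 2 * h)) = _
    field_simp
  have e3 : h * XX h x 3 = (rr1 x + rr2 x) * x.1 5 / (2 * Real.sqrt 2) := by
    show h * ((rr1 x + rr2 x) * x.1 5 / (2 * Real.sqrt 2 * h)) = _
    field_simp
  have e4 : h * XX h x 4 = x.2 0 := by
    show h * (x.2 0 / h) = _
    field_simp
  have hsec : secX h (XX h x) = (![rr1 x, 0, rr2 x, 0, x.1 4, x.1 5], x.2) := by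
    have hv : 2 * (h * XX h x 1) / ((rr1 x + rr2 x) / Real.sqrt 2) = (rr1 x - rr2 x) / Real.sqrt 2 := by
      rw [e1]
      have hp : rr1 x + rr2 x ≠ 0 := by positivity
      have : 2 * ((rr1 x ^ 2 - rr2 x ^ 2) / 4) / ((rr1 x + rr2 x) / Real.sqrt 2) =
          (rr1 x - rr2 x) * Real.sqrt 2 / 2 := by field_simp; ring
      rw [this]
      rw [eq_div_iff h2.ne']
      nlinarith [h22]
    have h4 : 2 * (h * XX h x 2) / ((rr1 x + rr2 x) / Real.sqrt 2) = x.1 4 := by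
      rw [e2]
      have hp : rr1 x + rr2 x ≠ 0 := by positivity
      field_simp
    have h5 : 2 * (h * XX h x 3) / ((rr1 x + rr2 x) / Real.sqrt 2) = x.1 5 := by
      rw [e3]
      have hp : rr1 x + rr2 x ≠ 0 := by positivity
      field_simp
    unfold secX
    simp only [hw, hv, h4, h5, e4]
    have g1 : ((rr1 x + rr2 x) / Real.sqrt 2 + (rr1 x - rr2 x) / Real.sqrt 2) / Real.sqrt 2 = rr1 x := by
      have : ((rr1 x + rr2 x) / Real.sqrt 2 + (rr1 x - rr2 x) / Real.sqrt 2) / Real.sqrt 2 =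
        2 * rr1 x / Real.sqrt 2 ^ 2 := by field_simp; ring
      rw [this, h22]; ring
    have g2 : ((rr1 x + rr2 x) / Real.sqrt 2 - (rr1 x - rr2 x) / Real.sqrt 2) / Real.sqrt 2 = rr2 x := by
      have : ((rr1 x + rr2 x) / Real.sqrt 2 - (rr1 x - rr2 x) / Real.sqrt 2) / Real.sqrt 2 =
        2 * rr2 x / Real.sqrt 2 ^ 2 := by field_simp; ring
      rw [this, h22]; ring
    rw [g1, g2]
    refine Prod.ext rfl ?_
    funext i
    fin_cases i
    rfl
  have hpol : ∀ s t : ℝ, ∃ a : ℝ, s = Real.sqrt (s ^ 2 + t ^ 2) * Real.cos a ∧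
      t = Real.sqrt (s ^ 2 + t ^ 2) * Real.sin a := by
    intro s t
    refine ⟨Complex.arg ⟨s, t⟩, ?_, ?_⟩
    · have h1 := Complex.norm_mul_cos_arg (⟨s, t⟩ : ℂ)
      have h3 : ‖(⟨s, t⟩ : ℂ)‖ = Real.sqrt (s ^ 2 + t ^ 2) := by
        rw [Complex.norm_def, Complex.normSq_apply]; ring_nf
      rw [h3] at h1
      exact h1.symm
    · have h1 := Complex.norm_mul_sin_arg (⟨s, t⟩ : ℂ)
      have h3 : ‖(⟨s, t⟩ : ℂ)‖ = Real.sqrt (s ^ 2 + t ^ 2) := by
        rw [Complex.norm_def, Complex.normSq_apply]; ring_nf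
      rw [h3] at h1
      exact h1.symm
  obtain ⟨a, ha, ha'⟩ := hpol (x.1 0) (x.1 1)
  obtain ⟨b, hb, hb'⟩ := hpol (x.1 2) (x.1 3)
  refine ⟨![a, b, 0], ?_⟩
  rw [hsec]
  refine Prod.ext ?_ rfl
  funext i
  fin_cases i
  · show x.1 0 = Real.cos a * rr1 x - Real.sin a * 0
    rw [rr1, mul_zero, sub_zero, mul_comm]; exact ha
  · show x.1 1 = Real.sin a * rr1 x + Real.cos a * 0
    rw [rr1, mul_zero, add_zero, mul_comm]; exact ha'
  · show x.1 2 = Real.cos b * rr2 x - Real.sin b * 0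
    rw [rr2, mul_zero, sub_zero, mul_comm]; exact hb
  · show x.1 3 = Real.sin b * rr2 x + Real.cos b * 0
    rw [rr2, mul_zero, add_zero, mul_comm]; exact hb'
  · show x.1 4 = Real.cos 0 * x.1 4 - Real.sin 0 * x.1 5
    rw [Real.cos_zero, Real.sin_zero]; ring
  · show x.1 5 = Real.sin 0 * x.1 4 + Real.cos 0 * x.1 5
    rw [Real.cos_zero, Real.sin_zero]; ring

lemma secX_rot {h : ℝ} (hh : 0 < h) (hh1 : h ≤ 1 / 100) (a : ℝ) {X : EE}
    (hX : X ∈ ball (0 : EE) 2) : secX h (rot23 a X) = Rt ![0, 0, a] (secX h X) := by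
  have r0 : rot23 a X 0 = X 0 := rfl
  have r1 : rot23 a X 1 = X 1 := rfl
  have r2 : rot23 a X 2 = Real.cos a * X 2 - Real.sin a * X 3 := rfl
  have r3 : rot23 a X 3 = Real.sin a * X 2 + Real.cos a * X 3 := rfl
  have r4 : rot23 a X 4 = X 4 := rfl
  have hρ : rhoR h (rot23 a X) = rhoR h X := by
    unfold rhoR
    rw [r0, r1, r2, r3]
    congr 1
    have := Real.cos_sq_add_sin_sq a
    linear_combination (h ^ 2 * (X 2 ^ 2 + X 3 ^ 2)) * this
  unfold secX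
  simp only [hρ, r0, r1, r2, r3, r4]
  refine Prod.ext ?_ rfl
  funext i
  fin_cases i <;> simp [Rt] <;> ring

end
end OD16
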