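import Pool.Agent.LibOD16.GeoF
import Pool.Agent.LibOD16.GeoSec

set_option autoImplicit false
namespace OD16
open MeasureTheory Metric
noncomputable section

variable {h δ : ℝ}

/-- TASK G10.  `Om` is open, bounded (`|z|² = 4 ρ`), connected (image of `S.dom × ℝ³` under
`(X, a) ↦ Rt a (secX X)`). -/
lemma Reduced.isOpen_Om (S : Reduced h δ) : IsOpen S.Om :=
  S.isOpen_dom.preimage (continuous_XX h)

lemma Reduced.bounded_Om (S : Reduced h δ) : Bornology.IsBounded S.Om := by
  refine (isBounded_closedBall (x := (0 : G7)) (r := 3)).subset ?_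
  intro x hx
  have hb : XX h x ∈ ball (0 : EE) 2 := S.mem_ball hx
  have hh := S.h_pos
  have hh1 := S.h_le
  have h1 := (rhoR_bounds hh hh1 hb).2.2
  rw [rhoR_XX hh.ne'] at h1
  have hn : ‖XX h x‖ < 2 := by simpa using hb
  have h4 : |XX h x 4| ≤ ‖XX h x‖ := by
    have := PiLp.norm_apply_le (XX h x) 4
    simpa using this
  have h5 : XX h x 4 = x.2 0 / h := rfl
  rw [h5, abs_div, abs_of_pos hh, div_le_iff₀ hh] at h4
  have h6 : |x.2 0| ≤ 3 := by
    have : ‖XX h x‖ * h ≤ 2 * (1 / 100) := mul_le_mul hn.le hh1 hh.le (by norm_num)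
    linarith
  rw [mem_closedBall, dist_zero_right, Prod.norm_def]
  refine max_le ?_ ?_
  · rw [pi_norm_le_iff_of_nonneg (by norm_num)]
    intro i
    have h7 : x.1 i ^ 2 ≤ zsq x :=
      Finset.single_le_sum (f := fun j => x.1 j ^ 2) (fun j _ => sq_nonneg _) (Finset.mem_univ i)
    rw [Real.norm_eq_abs]
    refine abs_le_of_sq_le_sq (by nlinarith) (by norm_num)
  · rw [pi_norm_le_iff_of_nonneg (by norm_num)]
    intro i
    have : i = 0 := Subsingleton.elim _ _
    rw [this, Real.norm_eq_abs]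
    exact h6

lemma Reduced.isPreconnected_dom (S : Reduced h δ) : IsPreconnected S.dom := by
  have hs : StarConvex ℝ (0 : EE) S.dom := by
    intro y hy a b ha hb hab
    rw [smul_zero, zero_add]
    exact S.star y hy b ⟨hb, by linarith⟩
  exact (hs.isPathConnected S.zero_mem).isConnected.isPreconnected

lemma Reduced.connected_Om (S : Reduced h δ) : IsConnected S.Om := by
  have hh := S.h_pos
  have hh1 := S.h_le
  refine ⟨⟨secX h 0, ?_⟩, ?_⟩
  · show XX h (secX h 0) ∈ S.dom
    rw [XX_secX hh hh1 (by simp)]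
    exact S.zero_mem
  · have himg : (fun p : (Fin 3 → ℝ) × EE => Rt p.1 (secX h p.2)) '' (Set.univ ×ˢ S.dom) = S.Om := by
      ext x
      constructor
      · rintro ⟨⟨a, X⟩, ⟨-, hX⟩, rfl⟩
        show XX h (Rt a (secX h X)) ∈ S.dom
        rw [XX_Rt, XX_secX hh hh1 (S.mem_ball hX)]
        exact S.rot_dom _ _ hX
      · intro hx
        obtain ⟨a, ha⟩ := exists_Rt_secX hh hh1 x (S.mem_ball hx)
        exact ⟨(a, XX h x), ⟨Set.mem_univ _, hx⟩, ha.symm⟩
    rw [← himg]
    refine IsPreconnected.image (isPreconnected_univ.prod S.isPreconnected_dom) _ ?_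
    have hsec : ContinuousOn (secX h) S.dom := fun X hX =>
      (contDiffAt_secX hh hh1 (S.mem_ball hX)).continuousAt.continuousWithinAt
    have h1 : ContinuousOn (fun p : (Fin 3 → ℝ) × EE => (p.1, secX h p.2))
        (Set.univ ×ˢ S.dom) :=
      continuousOn_fst.prodMk (hsec.comp continuousOn_snd (fun p hp => hp.2))
    have h2 : Continuous (fun p : (Fin 3 → ℝ) × G7 => Rt p.1 p.2) := continuous_Rt
    have h3 := h2.comp_continuousOn h1
    exact h3

end
end OD16
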