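import Pool.Agent.LibOD16.GeoF
import Pool.Agent.LibOD16.GeoOm

set_option autoImplicit false
namespace OD16
open MeasureTheory Metric
noncomputable section

variable {h δ : ℝ}

/-- TASK G12.  Boundary behaviour. -/
lemma Reduced.bdry_Om (S : Reduced h δ) : ∀ ε > 0, ∃ O : Set G7, IsOpen O ∧ frontier S.Om ⊆ O ∧
    ∀ x ∈ O ∩ S.Om, |S.f x| < ε ∧
      |Real.sqrt (∑ i, S.g i x ^ 2) - Acst h δ * S.c / (2 * h) * Real.sqrt (∑ j, x.1 j ^ 2)| < ε := by
  intro ε hε
  have hh := S.h_pos
  have hA : 0 < Acst h δ := by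
    unfold Acst
    positivity
  obtain ⟨M, hM⟩ : ∃ M : ℝ, M = Acst h δ + 3 * (Acst h δ / (2 * h)) + 1 := ⟨_, rfl⟩
  have hB : 0 < Acst h δ / (2 * h) := by positivity
  have hM0 : 0 < M := by rw [hM]; positivity
  obtain ⟨K, hK, hKd, hb⟩ := S.bdry (ε / M) (by positivity)
  refine ⟨(XX h ⁻¹' K)ᶜ, (hK.isClosed.preimage (continuous_XX h)).isOpen_compl, ?_, ?_⟩
  · intro x hx hxK
    rw [S.isOpen_Om.frontier_eq] at hx
    exact hx.2 (hKd hxK)
  · rintro x ⟨hx1, hx2⟩
    obtain ⟨b1, b2⟩ := hb (XX h x) ⟨hx2, hx1⟩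
    have hε' : 0 < ε / M := by positivity
    have hεM : ε / M * M = ε := div_mul_cancel₀ ε hM0.ne'
    constructor
    · show |Acst h δ * S.F (XX h x)| < ε
      rw [abs_mul, abs_of_pos hA]
      have : Acst h δ * |S.F (XX h x)| ≤ Acst h δ * (ε / M) :=
        mul_le_mul_of_nonneg_left b1.le hA.le
      have h2 : Acst h δ * (ε / M) < M * (ε / M) := by
        apply mul_lt_mul_of_pos_right _ hε'
        rw [hM]
        linarith
      linarith [mul_comm M (ε / M)]
    · have hz : Real.sqrt (zsq x) ≤ 3 := by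
        have e1 := rhoR_XX hh.ne' x
        have e2 := (rhoR_bounds hh S.h_le (S.mem_ball hx2)).2.2
        rw [e1] at e2
        rw [Real.sqrt_le_left (by norm_num)]
        linarith
      have hz0 : 0 ≤ Real.sqrt (zsq x) := Real.sqrt_nonneg _
      rw [S.sqrt_g x hx2]
      have e3 : Acst h δ / (2 * h) * Real.sqrt (zsq x) *
          Real.sqrt (gsq h (XX h x) (S.gF (XX h x))) -
          Acst h δ * S.c / (2 * h) * Real.sqrt (∑ j, x.1 j ^ 2) =
          Acst h δ / (2 * h) * (Real.sqrt (zsq x) *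
            (Real.sqrt (gsq h (XX h x) (S.gF (XX h x))) - S.c)) := by
        show Acst h δ / (2 * h) * Real.sqrt (zsq x) *
          Real.sqrt (gsq h (XX h x) (S.gF (XX h x))) -
          Acst h δ * S.c / (2 * h) * Real.sqrt (zsq x) = _
        ring
      rw [e3, abs_mul, abs_mul, abs_of_pos hB, abs_of_nonneg hz0]
      have e4 : Real.sqrt (zsq x) * |Real.sqrt (gsq h (XX h x) (S.gF (XX h x))) - S.c| ≤
          3 * (ε / M) := mul_le_mul hz b2.le (abs_nonneg _) (by norm_num)
      have e5 : Acst h δ / (2 * h) *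
          (Real.sqrt (zsq x) * |Real.sqrt (gsq h (XX h x) (S.gF (XX h x))) - S.c|) ≤
          Acst h δ / (2 * h) * (3 * (ε / M)) := mul_le_mul_of_nonneg_left e4 hB.le
      have h2 : 3 * (Acst h δ / (2 * h)) * (ε / M) < M * (ε / M) := by
        apply mul_lt_mul_of_pos_right _ hε'
        rw [hM]
        linarith
      linarith [mul_comm M (ε / M)]

end
end OD16
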