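import Pool.Agent.LibOD16.GeoF

set_option autoImplicit false
namespace OD16
open MeasureTheory Metric
noncomputable section

variable {h δ : ℝ}

/-- The open set `Om`. -/
lemma Reduced.isOpen_Om0 (S : Reduced h δ) : IsOpen S.Om :=
  S.isOpen_dom.preimage (continuous_XX h)

private lemma cont_of_supp {E : Type*} [NormedAddCommGroup E] (D : G7 → E) (Ω T : Set G7)
    (hΩ : IsOpen Ω) (hT : IsClosed T) (hTΩ : T ⊆ Ω) (hD : ContinuousOn D Ω)
    (h0 : ∀ x, x ∉ T → D x = 0) : Continuous D := by
  rw [continuous_iff_continuousAt]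
  intro x
  by_cases hx : x ∈ Ω
  · exact hD.continuousAt (hΩ.mem_nhds hx)
  · have hxT : x ∉ T := fun hc => hx (hTΩ hc)
    have : D =ᶠ[nhds x] fun _ => 0 := by
      filter_upwards [hT.isOpen_compl.mem_nhds hxT] with y hy using h0 y hy
    exact continuousAt_const.congr this.symm

private lemma integral_line_zero (u : G7 → ℝ) (u' : G7 → ℝ) (v : G7)
    (hu : Integrable u) (hu' : Integrable u')
    (hd : ∀ x, HasLineDerivAt ℝ u (u' x) x v) : ∫ x, u' x = 0 := by
  have : (volume : Measure G7).IsAddHaarMeasure :=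
    Measure.prod.instIsAddHaarMeasure (volume : Measure (Fin 6 → ℝ)) (volume : Measure (Fin 1 → ℝ))
  have := integral_bilinear_hasLineDerivAt_right_eq_neg_left_of_integrable
    (μ := (volume : Measure G7)) (f := u) (f' := u') (g := fun _ => (1 : ℝ))
    (g' := fun _ => (0 : ℝ)) (v := v) (B := ContinuousLinearMap.mul ℝ ℝ)
    (by simpa using hu') (by simp) (by simpa using hu) (fun x _ => hd x)
    (fun x _ => by
      unfold HasLineDerivAt
      exact hasDerivAt_const _ _)
  simp at this
  linarith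

/-- TASK G09.  Distributional horizontal derivatives (integration by parts for the `C¹` function
`f φ` of compact support; the vector field `Xd i` is divergence free). -/
lemma Reduced.weak_grad (S : Reduced h δ) (φ : G7 → ℝ)
    (hφ : ContDiff ℝ ((⊤ : ℕ∞) : WithTop ℕ∞) φ)
    (hs : HasCompactSupport φ) (hsΩ : tsupport φ ⊆ S.Om) (i : Fin 6) :
    ∫ x in S.Om, S.f x * fderiv ℝ φ x (Xd i x) = -∫ x in S.Om, S.g i x * φ x := by
  have hΩ := S.isOpen_Om0
  -- the derivative of `f`
  obtain ⟨L, hL⟩ : ∃ L : G7 → (G7 →L[ℝ] ℝ), L = fun x =>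
      Acst h δ • (innerSL ℝ (S.gF (XX h x))).comp (fderiv ℝ (XX h) x) := ⟨_, rfl⟩
  have hXc : ∀ x ∈ S.Om, ContDiffAt ℝ ((⊤ : ℕ∞) : WithTop ℕ∞) (XX h) x := fun x hx => by
    have h1 := rr_pos S.h_pos S.h_le x (S.mem_ball hx)
    exact contDiffAt_XX h x h1.1 h1.2
  have hLd : ∀ x ∈ S.Om, HasFDerivAt S.f (L x) x := fun x hx => by
    have h1 : HasFDerivAt (XX h) (fderiv ℝ (XX h) x) x :=
      ((hXc x hx).differentiableAt (by simp)).hasFDerivAt
    have h2 := (S.hasFDeriv (XX h x) hx).comp x h1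
    have h3 := h2.const_mul (Acst h δ)
    rw [hL]
    exact h3
  have hLg : ∀ x, L x (Xd i x) = S.g i x := fun x => by
    rw [hL]
    rfl
  have hLc : ContinuousOn L S.Om := by
    rw [hL]
    have h0 : ContinuousOn (fun x : G7 => S.gF (XX h x)) S.Om :=
      S.cont_gF.comp (continuous_XX h).continuousOn (fun x hx => hx)
    have h00 : Continuous (fun w : EE => (innerSL ℝ w : EE →L[ℝ] ℝ)) := by fun_prop
    have h1 : ContinuousOn (fun x : G7 => (innerSL ℝ (S.gF (XX h x)) : EE →L[ℝ] ℝ)) S.Om :=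
      h00.comp_continuousOn h0
    have h2 : ContinuousOn (fun x : G7 => (fderiv ℝ (XX h) x : G7 →L[ℝ] EE)) S.Om := fun x hx => by
      have h3 : ContDiffAt ℝ (0 : WithTop ℕ∞) (fderiv ℝ (XX h)) x :=
        (hXc x hx).fderiv_right (m := (0 : WithTop ℕ∞)) (by simp)
      exact h3.continuousAt.continuousWithinAt
    exact (h1.clm_comp h2).const_smul (Acst h δ)
  have hfc : ContinuousOn S.f S.Om := S.continuousOn_f
  have hφ0 : ∀ x, x ∉ tsupport φ → φ x = 0 := fun x hx => image_eq_zero_of_notMem_tsupport hx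
  have hφe : ∀ x, x ∉ tsupport φ → φ =ᶠ[nhds x] fun _ => 0 := fun x hx =>
    notMem_tsupport_iff_eventuallyEq.mp hx
  have hφd0 : ∀ x, x ∉ tsupport φ → fderiv ℝ φ x = 0 := fun x hx => by
    rw [(hφe x hx).fderiv_eq]
    simp
  have hφc : Continuous φ := hφ.continuous
  have hφdc : Continuous (fderiv ℝ φ) := hφ.continuous_fderiv (by simp)
  have hφd : Differentiable ℝ φ := hφ.differentiable (by simp)
  -- the function `u = f φ` and its derivative
  obtain ⟨u, hu⟩ : ∃ u : G7 → ℝ, u = fun x => S.f x * φ x := ⟨_, rfl⟩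
  obtain ⟨D, hD⟩ : ∃ D : G7 → (G7 →L[ℝ] ℝ), D = fun x => S.f x • fderiv ℝ φ x + φ x • L x :=
    ⟨_, rfl⟩
  have hu0 : ∀ x, x ∉ tsupport φ → u x = 0 := fun x hx => by
    rw [hu]
    simp [hφ0 x hx]
  have hD0 : ∀ x, x ∉ tsupport φ → D x = 0 := fun x hx => by
    rw [hD]
    simp [hφ0 x hx, hφd0 x hx]
  have huc : Continuous u := by
    refine cont_of_supp u S.Om (tsupport φ) hΩ (isClosed_tsupport φ) hsΩ ?_ hu0
    rw [hu]
    exact hfc.mul hφc.continuousOn
  have hDc : Continuous D := by
    refine cont_of_supp D S.Om (tsupport φ) hΩ (isClosed_tsupport φ) hsΩ ?_ hD0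
    rw [hD]
    exact (hfc.smul hφdc.continuousOn).add (hφc.continuousOn.smul hLc)
  have huD : ∀ x, HasFDerivAt u (D x) x := fun x => by
    by_cases hx : x ∈ S.Om
    · rw [hu, hD]
      exact (hLd x hx).mul (hφd x).hasFDerivAt
    · have hx' : x ∉ tsupport φ := fun hc => hx (hsΩ hc)
      rw [hD0 x hx']
      have : u =ᶠ[nhds x] fun _ => 0 := by
        filter_upwards [hφe x hx'] with y hy
        rw [hu]
        simp [hy]
      exact (hasFDerivAt_const (0 : ℝ) x).congr_of_eventuallyEq this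
  have hcs : ∀ w : G7 → ℝ, (∀ x, x ∉ tsupport φ → w x = 0) → HasCompactSupport w := fun w hw =>
    HasCompactSupport.of_support_subset_isCompact hs (fun x hx => by
      by_contra hc
      exact hx (hw x hc))
  -- the two constant directions
  obtain ⟨e, he⟩ : ∃ e : G7, e = (Pi.single i (1 : ℝ), 0) := ⟨_, rfl⟩
  obtain ⟨σ, hσ⟩ : ∃ σ : G7, σ = (0, fun _ => 1) := ⟨_, rfl⟩
  have hXd : ∀ x, Xd i x = e + (Jm.mulVec x.1 i / 2) • σ := fun x => by
    rw [he, hσ]
    unfold Xd
    ext j
    · simp
    · simp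
  have hJc : Continuous (fun x : G7 => Jm.mulVec x.1 i / 2) := by
    have : Continuous (fun x : G7 => Jm.mulVec x.1) :=
      Continuous.matrix_mulVec continuous_const continuous_fst
    exact ((continuous_apply i).comp this).div_const 2
  have he1 : Continuous (fun x => D x e) := hDc.clm_apply continuous_const
  have hs1 : Continuous (fun x => D x σ) := hDc.clm_apply continuous_const
  have I1 : Integrable (fun x => D x e) :=
    he1.integrable_of_hasCompactSupport (hcs _ (fun x hx => by simp [hD0 x hx]))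
  have I2 : Integrable (fun x : G7 => Jm.mulVec x.1 i / 2 * D x σ) :=
    (hJc.mul hs1).integrable_of_hasCompactSupport (hcs _ (fun x hx => by simp [hD0 x hx]))
  have z1 : ∫ x, D x e = 0 := integral_line_zero u _ e
    (huc.integrable_of_hasCompactSupport (hcs _ hu0)) I1 (fun x => (huD x).hasLineDerivAt e)
  have z2 : ∫ x : G7, Jm.mulVec x.1 i / 2 * D x σ = 0 := by
    refine integral_line_zero (fun x : G7 => Jm.mulVec x.1 i / 2 * u x) _ σ
      ((hJc.mul huc).integrable_of_hasCompactSupport (hcs _ (fun x hx => by simp [hu0 x hx]))) I2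
      (fun x => ?_)
    have h1 := (huD x).hasLineDerivAt σ
    unfold HasLineDerivAt at h1 ⊢
    have h2 := h1.const_mul (Jm.mulVec x.1 i / 2)
    refine h2.congr_of_eventuallyEq (Filter.Eventually.of_forall fun t => ?_)
    show Jm.mulVec (x + t • σ).1 i / 2 * u (x + t • σ) = Jm.mulVec x.1 i / 2 * u (x + t • σ)
    rw [hσ]
    simp
  have z3 : ∫ x, D x (Xd i x) = 0 := by
    have : ∀ x, D x (Xd i x) = D x e + Jm.mulVec x.1 i / 2 * D x σ := fun x => by
      rw [hXd x]
      simp
    simp_rw [this]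
    rw [integral_add I1 I2, z1, z2, add_zero]
  have z4 : ∫ x in S.Om, D x (Xd i x) = 0 := by
    rw [setIntegral_eq_integral_of_forall_compl_eq_zero, z3]
    intro x hx
    have : x ∉ tsupport φ := fun hc => hx (hsΩ hc)
    simp [hD0 x this]
  have hXdc : Continuous (fun x : G7 => Xd i x) := by
    simp_rw [hXd]
    exact continuous_const.add (hJc.smul continuous_const)
  have J1 : IntegrableOn (fun x => S.f x * fderiv ℝ φ x (Xd i x)) S.Om := by
    refine Integrable.integrableOn ?_
    refine Continuous.integrable_of_hasCompactSupport ?_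
      (hcs _ (fun x hx => by simp [hφd0 x hx]))
    refine cont_of_supp _ S.Om (tsupport φ) hΩ (isClosed_tsupport φ) hsΩ ?_
      (fun x hx => by simp [hφd0 x hx])
    exact hfc.mul (hφdc.clm_apply hXdc).continuousOn
  have J2 : IntegrableOn (fun x => S.g i x * φ x) S.Om := by
    refine Integrable.integrableOn ?_
    refine Continuous.integrable_of_hasCompactSupport ?_
      (hcs _ (fun x hx => by simp [hφ0 x hx]))
    refine cont_of_supp _ S.Om (tsupport φ) hΩ (isClosed_tsupport φ) hsΩ ?_
      (fun x hx => by simp [hφ0 x hx])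
    exact (S.continuousOn_g i).mul hφc.continuousOn
  have z5 : ∫ x in S.Om, D x (Xd i x) = (∫ x in S.Om, S.f x * fderiv ℝ φ x (Xd i x)) +
      ∫ x in S.Om, S.g i x * φ x := by
    rw [← integral_add J1 J2]
    refine integral_congr_ae (Filter.Eventually.of_forall fun x => ?_)
    show D x (Xd i x) = S.f x * fderiv ℝ φ x (Xd i x) + S.g i x * φ x
    rw [hD]
    show (S.f x • fderiv ℝ φ x + φ x • L x) (Xd i x) = _
    rw [_root_.add_apply, _root_.smul_apply,
      _root_.smul_apply, hLg x]
    simp only [smul_eq_mul]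
    ring
  rw [z4] at z5
  linarith

end
end OD16
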