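import Pool.Agent.LibOD16.GeoF
import Pool.Agent.LibOD16.GeoOm

set_option autoImplicit false
namespace OD16
open MeasureTheory Metric
noncomputable section

variable {h δ : ℝ}

private lemma Acst_pos (hh : 0 < h) : 0 < Acst h δ := by
  unfold Acst
  positivity

private lemma Acst_rpow (hh : 0 < h) (hδ : δ < 1 / 10) :
    Acst h δ ^ (1 - δ) = (2 * h) ^ (2 - δ) / 5 := by
  have h1 : (0 : ℝ) < 1 - δ := by linarith
  have h2 : (1 + 1 / (1 - δ)) * (1 - δ) = 2 - δ := by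
    field_simp
    ring
  have h3 : -(1 / (1 - δ)) * (1 - δ) = -1 := by
    field_simp
  unfold Acst
  rw [Real.mul_rpow (by positivity) (by positivity), Real.mul_rpow (by positivity) (by positivity),
    ← Real.rpow_mul (by norm_num), ← Real.rpow_mul hh.le, ← Real.rpow_mul (by norm_num), h2, h3,
    Real.rpow_neg_one, Real.mul_rpow (by norm_num) hh.le]
  ring

private lemma fail_point (S : Reduced h δ) :
    Real.sqrt (∑ i, S.g i (secX h 0) ^ 2) ^ (2 - δ)
        + 2 * (2 - δ) / (((2 - δ) - 1) * (((6 : ℕ) : ℝ) + 2 * ((1 : ℕ) : ℝ) + (2 - δ))) *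
          Real.sqrt (∑ j, (secX h 0).1 j ^ 2) ^ (2 - δ) * S.f (secX h 0)
        ≠ (Acst h δ * S.c / (2 * h)) ^ (2 - δ) * Real.sqrt (∑ j, (secX h 0).1 j ^ 2) ^ (2 - δ) := by
  have hh := S.h_pos
  have hδ := S.δ_lt
  have hδ0 := S.δ_pos
  have hc := S.c_pos
  have hb : (0 : EE) ∈ ball (0 : EE) 2 := by simp
  have hX : XX h (secX h 0) = 0 := XX_secX hh S.h_le hb
  have hOm : secX h 0 ∈ S.Om := by
    show XX h (secX h 0) ∈ S.dom
    rw [hX]
    exact S.zero_mem
  have hz : zsq (secX h 0) = 4 := by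
    have h1 := rhoR_XX hh.ne' (secX h 0)
    rw [hX] at h1
    have h2 : rhoR h 0 = 1 := by
      unfold rhoR
      simp
    rw [h2] at h1
    linarith
  have hs : Real.sqrt (∑ j, (secX h 0).1 j ^ 2) = 2 := by
    have h1 : ∑ j, (secX h 0).1 j ^ 2 = 2 ^ 2 := by
      have : ∑ j, (secX h 0).1 j ^ 2 = zsq (secX h 0) := rfl
      rw [this, hz]
      norm_num
    rw [h1]
    exact Real.sqrt_sq (by norm_num)
  have hg : Real.sqrt (∑ i, S.g i (secX h 0) ^ 2) = 0 := by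
    rw [S.sqrt_g _ hOm, hX, S.grad_zero]
    have : gsq h 0 0 = 0 := by
      unfold gsq
      rw [inner_zero_left]
    rw [this, Real.sqrt_zero, mul_zero]
  have hf : S.f (secX h 0) = Acst h δ * S.F 0 := by
    unfold Reduced.f
    rw [hX]
  have hA := Acst_pos (δ := δ) hh
  have hA2 := Acst_rpow (δ := δ) hh hδ
  rw [hg, hs, hf, Real.zero_rpow (by linarith), zero_add]
  intro heq
  apply S.fail
  have e1 : (Acst h δ * S.c / (2 * h)) ^ (2 - δ) = Acst h δ * S.c ^ (2 - δ) / 5 := by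
    have h2h : (0 : ℝ) < (2 * h) ^ (2 - δ) := Real.rpow_pos_of_pos (by linarith) _
    rw [Real.div_rpow (by positivity) (by positivity), Real.mul_rpow hA.le hc.le]
    have h1 : Acst h δ ^ (2 - δ) = Acst h δ * Acst h δ ^ (1 - δ) := by
      rw [← Real.rpow_one_add' hA.le (by linarith)]
      congr 1
      ring
    rw [h1, hA2]
    field_simp
  rw [e1] at heq
  have h2p : (0 : ℝ) < 2 ^ (2 - δ) := Real.rpow_pos_of_pos (by norm_num) _
  have h1 : (0 : ℝ) < 1 - δ := by linarith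
  have h10 : (0 : ℝ) < 10 - δ := by linarith
  have e2 : 2 * (2 - δ) / ((2 - δ - 1) * (((6 : ℕ) : ℝ) + 2 * ((1 : ℕ) : ℝ) + (2 - δ))) * S.F 0
      = S.c ^ (2 - δ) / 5 := by
    have h3 : (2 ^ (2 - δ) * Acst h δ) *
        (2 * (2 - δ) / ((2 - δ - 1) * (((6 : ℕ) : ℝ) + 2 * ((1 : ℕ) : ℝ) + (2 - δ))) * S.F 0)
        = (2 ^ (2 - δ) * Acst h δ) * (S.c ^ (2 - δ) / 5) := by
      linarith
    exact mul_left_cancel₀ (by positivity) h3
  have e3 : (2 - δ - 1) * (((6 : ℕ) : ℝ) + 2 * ((1 : ℕ) : ℝ) + (2 - δ)) = (1 - δ) * (10 - δ) := by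
    push_cast
    ring
  rw [e3] at e2
  have e4 : 1 + 1 / (1 - δ) = (2 - δ) / (1 - δ) := by
    field_simp
    ring
  rw [e4]
  have e5 : S.c ^ (2 - δ) = 5 * (2 * (2 - δ) / ((1 - δ) * (10 - δ)) * S.F 0) := by linarith
  rw [e5]
  field_simp
  ring

/-- TASK G13.  The identity fails on a set of positive measure. -/
lemma Reduced.fail_Om (S : Reduced h δ) : ¬ ∀ᵐ x ∂(volume : Measure G7), x ∈ S.Om →
      Real.sqrt (∑ i, S.g i x ^ 2) ^ (2 - δ)
        + 2 * (2 - δ) / (((2 - δ) - 1) * (((6 : ℕ) : ℝ) + 2 * ((1 : ℕ) : ℝ) + (2 - δ))) *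
          Real.sqrt (∑ j, x.1 j ^ 2) ^ (2 - δ) * S.f x
        = (Acst h δ * S.c / (2 * h)) ^ (2 - δ) * Real.sqrt (∑ j, x.1 j ^ 2) ^ (2 - δ) := by
  intro hae
  have hδ := S.δ_lt
  have hh := S.h_pos
  have hp : (0 : ℝ) < 2 - δ := by linarith
  set L : G7 → ℝ := fun x => Real.sqrt (∑ i, S.g i x ^ 2) ^ (2 - δ)
        + 2 * (2 - δ) / (((2 - δ) - 1) * (((6 : ℕ) : ℝ) + 2 * ((1 : ℕ) : ℝ) + (2 - δ))) *
          Real.sqrt (∑ j, x.1 j ^ 2) ^ (2 - δ) * S.f x with hL
  set R : G7 → ℝ := fun x => (Acst h δ * S.c / (2 * h)) ^ (2 - δ) *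
    Real.sqrt (∑ j, x.1 j ^ 2) ^ (2 - δ) with hR
  have hz : Continuous (fun x : G7 => Real.sqrt (∑ j, x.1 j ^ 2) ^ (2 - δ)) := by
    have h1 : Continuous (fun x : G7 => Real.sqrt (∑ j, x.1 j ^ 2)) := by fun_prop
    exact h1.rpow_const (fun x => Or.inr hp.le)
  have hLc : ContinuousOn L S.Om := by
    apply ContinuousOn.add
    · have h1 : ContinuousOn (fun x => Real.sqrt (∑ i, S.g i x ^ 2)) S.Om := by
        apply Real.continuous_sqrt.comp_continuousOn
        apply continuousOn_finsetSum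
        intro i _
        exact (S.continuousOn_g i).pow 2
      exact h1.rpow_const (fun x _ => Or.inr hp.le)
    · exact (continuousOn_const.mul hz.continuousOn).mul S.continuousOn_f
  have hRc : ContinuousOn R S.Om := (continuous_const.mul hz).continuousOn
  have hO : IsOpen (S.Om ∩ (fun x => L x - R x) ⁻¹' {0}ᶜ) :=
    (hLc.sub hRc).isOpen_inter_preimage S.isOpen_Om isOpen_compl_singleton
  have hmem : secX h 0 ∈ S.Om ∩ (fun x => L x - R x) ⁻¹' {0}ᶜ := by
    refine ⟨?_, ?_⟩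
    · show XX h (secX h 0) ∈ S.dom
      rw [XX_secX hh S.h_le (by simp)]
      exact S.zero_mem
    · show L (secX h 0) - R (secX h 0) ≠ 0
      exact sub_ne_zero.mpr (fail_point S)
  have hpos := hO.measure_pos (volume : Measure G7) ⟨_, hmem⟩
  have hzero : (volume : Measure G7) (S.Om ∩ (fun x => L x - R x) ⁻¹' {0}ᶜ) = 0 := by
    rw [ae_iff] at hae
    apply measure_mono_null _ hae
    rintro x ⟨hx1, hx2⟩
    intro hcon
    exact hx2 (by
      have := hcon hx1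
      show L x - R x = 0
      exact sub_eq_zero.mpr this)
  exact hpos.ne' hzero

end
end OD16
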