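import Pool.Agent.LibOD16.GeoA

set_option autoImplicit false
namespace OD16
open MeasureTheory Metric
noncomputable section

/-- TASK G15.  The group is of Heisenberg type. -/
lemma Jm_transpose : Jm.transpose = -Jm := by
  ext i j
  fin_cases i <;> fin_cases j <;> simp [Jm]

lemma Jm_sq (σ : Fin 1 → ℝ) : (∑ l : Fin 1, σ l • Jm) * (∑ l : Fin 1, σ l • Jm)
    = -((∑ l, σ l ^ 2) • (1 : Matrix (Fin 6) (Fin 6) ℝ)) := by
  simp only [Finset.univ_unique, Fin.default_eq_zero, Fin.isValue, Finset.sum_singleton]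
  have h : Jm * Jm = -1 := by
    ext i j
    fin_cases i <;> fin_cases j <;> simp [Jm, Matrix.mul_apply, Fin.sum_univ_six]
  rw [Matrix.smul_mul, Matrix.mul_smul, h, smul_smul, smul_neg, pow_two]

end
end OD16
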