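import Pool.Agent.LibOD16.GeoF
import Pool.Agent.LibOD16.GeoOm

set_option autoImplicit false
namespace OD16
open MeasureTheory Metric
noncomputable section

variable {h δ : ℝ}

/-- TASK G14.  Measurability and local integrability. -/
lemma Reduced.meas (S : Reduced h δ) : AEStronglyMeasurable S.f (volume.restrict S.Om) ∧
    (∀ i, AEStronglyMeasurable (S.g i) (volume.restrict S.Om)) ∧
    (∀ K : Set G7, IsCompact K → K ⊆ S.Om →
        IntegrableOn (fun x => |S.f x| ^ (2 - δ)) K volume ∧
        ∀ i, IntegrableOn (fun x => |S.g i x| ^ (2 - δ)) K volume) := by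
  have hp : 0 ≤ 2 - δ := by have := S.δ_lt; linarith
  have hm : MeasurableSet S.Om := S.isOpen_Om.measurableSet
  have key : ∀ (u : G7 → ℝ), ContinuousOn u S.Om → ∀ K : Set G7, IsCompact K → K ⊆ S.Om →
      IntegrableOn (fun x => |u x| ^ (2 - δ)) K volume := by
    intro u hu K hK hKO
    refine ContinuousOn.integrableOn_compact hK ?_
    exact ContinuousOn.rpow_const ((hu.mono hKO).abs) (fun x _ => Or.inr hp)
  refine ⟨S.continuousOn_f.aestronglyMeasurable hm,
    fun i => (S.continuousOn_g i).aestronglyMeasurable hm, fun K hK hKO => ⟨?_, fun i => ?_⟩⟩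
  · exact key S.f S.continuousOn_f K hK hKO
  · exact key (S.g i) (S.continuousOn_g i) K hK hKO

end
end OD16
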