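import Pool.Agent.LibOD16.GeoF
import Pool.Agent.LibOD16.GeoOm

set_option autoImplicit false
namespace OD16
open MeasureTheory Metric
noncomputable section

variable {h δ : ℝ}

lemma contDiffAt_rr1_GeoSm {y : G7} (hy : 0 < rr1 y) :
    ContDiffAt ℝ ((⊤ : ℕ∞) : WithTop ℕ∞) rr1 y := by
  have h1 : y.1 0 ^ 2 + y.1 1 ^ 2 ≠ 0 := by
    have := Real.sqrt_pos.1 hy
    exact this.ne'
  have h2 : ContDiffAt ℝ ((⊤ : ℕ∞) : WithTop ℕ∞) (fun y : G7 => y.1 0 ^ 2 + y.1 1 ^ 2) y := by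
    fun_prop
  exact h2.sqrt h1

lemma contDiffAt_rr2_GeoSm {y : G7} (hy : 0 < rr2 y) :
    ContDiffAt ℝ ((⊤ : ℕ∞) : WithTop ℕ∞) rr2 y := by
  have h1 : y.1 2 ^ 2 + y.1 3 ^ 2 ≠ 0 := by
    have := Real.sqrt_pos.1 hy
    exact this.ne'
  have h2 : ContDiffAt ℝ ((⊤ : ℕ∞) : WithTop ℕ∞) (fun y : G7 => y.1 2 ^ 2 + y.1 3 ^ 2) y := by
    fun_prop
  exact h2.sqrt h1

lemma contDiffAt_XX_GeoSm (h : ℝ) {y : G7} (h1 : 0 < rr1 y) (h2 : 0 < rr2 y) :
    ContDiffAt ℝ ((⊤ : ℕ∞) : WithTop ℕ∞) (XX h) y := by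
  have e1 := contDiffAt_rr1_GeoSm h1
  have e2 := contDiffAt_rr2_GeoSm h2
  rw [contDiffAt_euclidean]
  intro i
  fin_cases i
  · show ContDiffAt ℝ ((⊤ : ℕ∞) : WithTop ℕ∞)
      (fun x : G7 => ((2 * rr1 x * rr2 x - (x.1 4 ^ 2 + x.1 5 ^ 2)) / 4 - 1) / h) y
    fun_prop
  · show ContDiffAt ℝ ((⊤ : ℕ∞) : WithTop ℕ∞)
      (fun x : G7 => (rr1 x ^ 2 - rr2 x ^ 2) / (4 * h)) y
    fun_prop
  · show ContDiffAt ℝ ((⊤ : ℕ∞) : WithTop ℕ∞)
      (fun x : G7 => (rr1 x + rr2 x) * x.1 4 / (2 * Real.sqrt 2 * h)) y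
    fun_prop
  · show ContDiffAt ℝ ((⊤ : ℕ∞) : WithTop ℕ∞)
      (fun x : G7 => (rr1 x + rr2 x) * x.1 5 / (2 * Real.sqrt 2 * h)) y
    fun_prop
  · show ContDiffAt ℝ ((⊤ : ℕ∞) : WithTop ℕ∞)
      (fun x : G7 => x.2 0 / h) y
    fun_prop

lemma contDiff_rot23_GeoSm (a : ℝ) : ContDiff ℝ ((⊤ : ℕ∞) : WithTop ℕ∞) (rot23 a) := by
  rw [contDiff_euclidean]
  intro i
  fin_cases i
  · show ContDiff ℝ ((⊤ : ℕ∞) : WithTop ℕ∞) (fun X : EE => X 0)
    fun_prop
  · show ContDiff ℝ ((⊤ : ℕ∞) : WithTop ℕ∞) (fun X : EE => X 1)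
    fun_prop
  · show ContDiff ℝ ((⊤ : ℕ∞) : WithTop ℕ∞)
      (fun X : EE => Real.cos a * X 2 - Real.sin a * X 3)
    fun_prop
  · show ContDiff ℝ ((⊤ : ℕ∞) : WithTop ℕ∞)
      (fun X : EE => Real.sin a * X 2 + Real.cos a * X 3)
    fun_prop
  · show ContDiff ℝ ((⊤ : ℕ∞) : WithTop ℕ∞) (fun X : EE => X 4)
    fun_prop

lemma rot23_rot23_neg_GeoSm (a : ℝ) (X : EE) : rot23 a (rot23 (-a) X) = X := by
  have h1 := Real.sin_sq_add_cos_sq a
  ext i
  fin_cases i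
  · rfl
  · rfl
  · show Real.cos a * (Real.cos (-a) * X 2 - Real.sin (-a) * X 3) -
      Real.sin a * (Real.sin (-a) * X 2 + Real.cos (-a) * X 3) = X 2
    rw [Real.cos_neg, Real.sin_neg]
    linear_combination X 2 * h1
  · show Real.sin a * (Real.cos (-a) * X 2 - Real.sin (-a) * X 3) +
      Real.cos a * (Real.sin (-a) * X 2 + Real.cos (-a) * X 3) = X 3
    rw [Real.cos_neg, Real.sin_neg]
    linear_combination X 3 * h1
  · rfl

/-- `XX` is a submersion over the ball. -/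
lemma surj_XX_GeoSm (hh : 0 < h) (hh1 : h ≤ 1 / 100) (x : G7)
    (hx : XX h x ∈ ball (0 : EE) 2) (v : EE) : ∃ w : G7, fderiv ℝ (XX h) x w = v := by
  obtain ⟨a, ha⟩ := exists_Rt_secX hh hh1 x hx
  obtain ⟨p1, p2⟩ := rr_pos hh hh1 x hx
  set X₀ := XX h x with hX₀
  have hfix : rot23 (a 2) X₀ = X₀ := by
    have := congrArg (XX h) ha
    rw [XX_Rt, XX_secX hh hh1 hx, ← hX₀] at this
    exact this.symm
  have hfix2 : rot23 (-(a 2)) X₀ = X₀ := by
    have := rot23_rot23_neg_GeoSm (-(a 2)) X₀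
    rw [neg_neg, hfix] at this
    exact this
  let t : EE → G7 := fun X => Rt a (secX h (rot23 (-(a 2)) X))
  have htx : t X₀ = x := by
    show Rt a (secX h (rot23 (-(a 2)) X₀)) = x
    rw [hfix2]
    exact ha.symm
  have hrot : DifferentiableAt ℝ (rot23 (-(a 2))) X₀ :=
    (contDiff_rot23_GeoSm _).contDiffAt.differentiableAt (by simp)
  have hsec : DifferentiableAt ℝ (secX h) (rot23 (-(a 2)) X₀) := by
    rw [hfix2]
    exact (contDiffAt_secX hh hh1 hx).differentiableAt (by simp)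
  have hRt : Differentiable ℝ (Rt a) := by
    have h1 : ContDiff ℝ ((⊤ : ℕ∞) : WithTop ℕ∞) (fun p : (Fin 3 → ℝ) × G7 => Rt p.1 p.2) :=
      contDiff_Rt
    have h2 : ContDiff ℝ ((⊤ : ℕ∞) : WithTop ℕ∞) (fun y : G7 => ((a, y) : (Fin 3 → ℝ) × G7)) := by
      fun_prop
    exact (h1.comp h2).differentiable (by simp)
  have ht : DifferentiableAt ℝ t X₀ :=
    (hRt _).comp X₀ (hsec.comp X₀ hrot)
  have hXX : DifferentiableAt ℝ (XX h) (t X₀) := by
    rw [htx]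
    exact (contDiffAt_XX_GeoSm h p1 p2).differentiableAt (by simp)
  have hev : (fun X => XX h (t X)) =ᶠ[nhds X₀] id := by
    have hopen : IsOpen {X : EE | rot23 (-(a 2)) X ∈ ball (0 : EE) 2} :=
      isOpen_ball.preimage (contDiff_rot23_GeoSm _).continuous
    have hmem : X₀ ∈ {X : EE | rot23 (-(a 2)) X ∈ ball (0 : EE) 2} := by
      show rot23 (-(a 2)) X₀ ∈ ball (0 : EE) 2
      rw [hfix2]
      exact hx
    filter_upwards [hopen.mem_nhds hmem] with X hX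
    show XX h (Rt a (secX h (rot23 (-(a 2)) X))) = X
    rw [XX_Rt, XX_secX hh hh1 hX, rot23_rot23_neg_GeoSm]
  have hd : HasFDerivAt (fun X => XX h (t X)) ((fderiv ℝ (XX h) (t X₀)).comp (fderiv ℝ t X₀)) X₀ :=
    hXX.hasFDerivAt.comp X₀ ht.hasFDerivAt
  have hd2 : HasFDerivAt (fun X => XX h (t X)) (ContinuousLinearMap.id ℝ EE) X₀ :=
    (hasFDerivAt_id X₀).congr_of_eventuallyEq hev
  have heq := hd.unique hd2
  refine ⟨fderiv ℝ t X₀ v, ?_⟩
  have := congrArg (fun L : EE →L[ℝ] EE => L v) heq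
  simpa [htx] using this

/-- TASK G11.  Smooth boundary: near a frontier point `x` the point `XX x` is in the frontier of
`dom` and in the ball, so `r1, r2 > 0`; compose `ρ` with `XX`, cut off to make it smooth everywhere;
`XX` is a submersion because of the section. -/
lemma Reduced.smooth_Om (S : Reduced h δ) : ∀ x ∈ frontier S.Om, ∃ U ∈ nhds x, ∃ ρ : G7 → ℝ,
    ContDiff ℝ ((⊤ : ℕ∞) : WithTop ℕ∞) ρ ∧ fderiv ℝ ρ x ≠ 0 ∧
      S.Om ∩ U = {y | ρ y < 0} ∩ U := by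
  intro x hx
  have hh := S.h_pos
  have hh1 := S.h_le
  have hcl : XX h x ∈ closure S.dom := by
    have h1 : S.Om ⊆ XX h ⁻¹' (closure S.dom) := fun y hy => subset_closure hy
    have h2 : closure S.Om ⊆ XX h ⁻¹' (closure S.dom) :=
      closure_minimal h1 (isClosed_closure.preimage (continuous_XX h))
    exact h2 hx.1
  have hnot : XX h x ∉ S.dom := by
    have h1 := hx.2
    rw [S.isOpen_Om.interior_eq] at h1
    exact h1
  have hfr : XX h x ∈ frontier S.dom := by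
    refine ⟨hcl, ?_⟩
    rw [S.isOpen_dom.interior_eq]
    exact hnot
  have hb : XX h x ∈ ball (0 : EE) 2 := S.dom_sub hcl
  obtain ⟨p1, p2⟩ := rr_pos hh hh1 x hb
  obtain ⟨U₀, hU₀, ρ₀, hρ₀, hdρ, hset⟩ := S.smooth _ hfr
  -- a neighbourhood where everything is smooth
  have hc1 : Continuous rr1 := by unfold rr1; fun_prop
  have hc2 : Continuous rr2 := by unfold rr2; fun_prop
  have hWo : IsOpen {y : G7 | 0 < rr1 y ∧ 0 < rr2 y} :=
    (isOpen_lt continuous_const hc1).inter (isOpen_lt continuous_const hc2)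
  obtain ⟨ε, hε, hεW⟩ := Metric.isOpen_iff.1 hWo x ⟨p1, p2⟩
  let b : ContDiffBump x := ⟨ε / 4, ε / 2, by positivity, by linarith⟩
  have hbs : tsupport (b : G7 → ℝ) ⊆ {y : G7 | 0 < rr1 y ∧ 0 < rr2 y} := by
    rw [b.tsupport_eq]
    refine (closedBall_subset_ball ?_).trans hεW
    show ε / 2 < ε
    linarith
  refine ⟨ball x (ε / 4) ∩ XX h ⁻¹' U₀, Filter.inter_mem (ball_mem_nhds x (by positivity))
    ((continuous_XX h).continuousAt.preimage_mem_nhds hU₀), fun y => b y * ρ₀ (XX h y), ?_, ?_, ?_⟩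
  · rw [contDiff_iff_contDiffAt]
    intro y
    by_cases hy : y ∈ tsupport (b : G7 → ℝ)
    · obtain ⟨q1, q2⟩ := hbs hy
      have h1 : ContDiffAt ℝ ((⊤ : ℕ∞) : WithTop ℕ∞) (b : G7 → ℝ) y := b.contDiff.contDiffAt
      exact h1.mul (hρ₀.contDiffAt.comp y (contDiffAt_XX_GeoSm h q1 q2))
    · have h1 : (fun y => b y * ρ₀ (XX h y)) =ᶠ[nhds y] fun _ => 0 := by
        have h2 : (b : G7 → ℝ) =ᶠ[nhds y] 0 := notMem_tsupport_iff_eventuallyEq.1 hy
        filter_upwards [h2] with z hz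
        rw [hz]
        simp
      exact contDiffAt_const.congr_of_eventuallyEq h1
  · have hev : (fun y => b y * ρ₀ (XX h y)) =ᶠ[nhds x] fun y => ρ₀ (XX h y) := by
      filter_upwards [b.eventuallyEq_one] with z hz
      rw [hz]
      simp
    rw [hev.fderiv_eq]
    intro h0
    apply hdρ
    ext v
    obtain ⟨w, hw⟩ := surj_XX_GeoSm hh hh1 x hb v
    have hXX : DifferentiableAt ℝ (XX h) x :=
      (contDiffAt_XX_GeoSm h p1 p2).differentiableAt (by simp)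
    have hρd : DifferentiableAt ℝ ρ₀ (XX h x) := hρ₀.contDiffAt.differentiableAt (by simp)
    have h3 : fderiv ℝ (fun y => ρ₀ (XX h y)) x = (fderiv ℝ ρ₀ (XX h x)).comp (fderiv ℝ (XX h) x) :=
      fderiv_comp x hρd hXX
    rw [h3] at h0
    have := congrArg (fun L : G7 →L[ℝ] ℝ => L w) h0
    simp only [ContinuousLinearMap.comp_apply, hw] at this
    simpa using this
  · ext y
    constructor
    · rintro ⟨hy, hyb, hyU⟩
      refine ⟨?_, hyb, hyU⟩
      have hb1 : b y = 1 := b.one_of_mem_closedBall (ball_subset_closedBall hyb)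
      show b y * ρ₀ (XX h y) < 0
      rw [hb1, one_mul]
      have : XX h y ∈ S.dom ∩ U₀ := ⟨hy, hyU⟩
      rw [hset] at this
      exact this.1
    · rintro ⟨hy, hyb, hyU⟩
      refine ⟨?_, hyb, hyU⟩
      have hb1 : b y = 1 := b.one_of_mem_closedBall (ball_subset_closedBall hyb)
      have hy2 : b y * ρ₀ (XX h y) < 0 := hy
      rw [hb1, one_mul] at hy2
      have : XX h y ∈ {X | ρ₀ X < 0} ∩ U₀ := ⟨hy2, hyU⟩
      rw [← hset] at this
      exact this.1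

end
end OD16
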