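import Pool.Agent.LibOD16.Fx3
import Pool.Agent.LibOD16.BMain
import Pool.Agent.LibOD16.GeoMain

set_option autoImplicit false
open MeasureTheory
open scoped ContDiff
namespace OD16

/-- The conjecture is false. -/
theorem final : ¬ (∀ (m k : ℕ) (J : Fin k → Matrix (Fin m) (Fin m) ℝ), 1 ≤ k →
    (∀ l, (J l).transpose = -J l) →
    (∀ σ : Fin k → ℝ, (∑ l, σ l • J l) * (∑ l, σ l • J l)
        = -((∑ l, σ l ^ 2) • (1 : Matrix (Fin m) (Fin m) ℝ))) →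
  ∀ (p : ℝ), 1 < p →
  ∀ (Ω : Set ((Fin m → ℝ) × (Fin k → ℝ))), IsOpen Ω → Bornology.IsBounded Ω → IsConnected Ω →
    (∀ x ∈ frontier Ω, ∃ U ∈ nhds x, ∃ ρ : (Fin m → ℝ) × (Fin k → ℝ) → ℝ,
        ContDiff ℝ ∞ ρ ∧ fderiv ℝ ρ x ≠ 0 ∧ Ω ∩ U = {y | ρ y < 0} ∩ U) →
  ∀ (f : (Fin m → ℝ) × (Fin k → ℝ) → ℝ) (g : Fin m → (Fin m → ℝ) × (Fin k → ℝ) → ℝ) (c : ℝ),
    0 ≤ c →
    AEStronglyMeasurable f (volume.restrict Ω) →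
    (∀ i, AEStronglyMeasurable (g i) (volume.restrict Ω)) →
    (∀ K : Set ((Fin m → ℝ) × (Fin k → ℝ)), IsCompact K → K ⊆ Ω →
        IntegrableOn (fun x => |f x| ^ p) K volume ∧
        ∀ i, IntegrableOn (fun x => |g i x| ^ p) K volume) →
    (∀ φ : (Fin m → ℝ) × (Fin k → ℝ) → ℝ, ContDiff ℝ ∞ φ → HasCompactSupport φ → tsupport φ ⊆ Ω →
       (∀ i, ∫ x in Ω, f x * fderiv ℝ φ x ((Pi.single i (1:ℝ) : Fin m → ℝ),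
              fun l => (J l).mulVec x.1 i / 2)
            = -∫ x in Ω, g i x * φ x) ∧
       ∫ x in Ω, Real.sqrt (∑ i, g i x ^ 2) ^ (p - 2) *
          ∑ i, g i x * fderiv ℝ φ x ((Pi.single i (1:ℝ) : Fin m → ℝ),
              fun l => (J l).mulVec x.1 i / 2)
         = ∫ x in Ω, Real.sqrt (∑ j, x.1 j ^ 2) ^ p * φ x) →
    (∀ ε > 0, ∃ O : Set ((Fin m → ℝ) × (Fin k → ℝ)), IsOpen O ∧ frontier Ω ⊆ O ∧
        ∀ᵐ x ∂volume, x ∈ O ∩ Ω → |f x| < ε ∧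
          |Real.sqrt (∑ i, g i x ^ 2) - c * Real.sqrt (∑ j, x.1 j ^ 2)| < ε) →
    ∀ᵐ x ∂volume, x ∈ Ω →
      Real.sqrt (∑ i, g i x ^ 2) ^ p
        + 2 * p / ((p - 1) * ((m : ℝ) + 2 * (k : ℝ) + p)) * Real.sqrt (∑ j, x.1 j ^ 2) ^ p * f x
        = c ^ p * Real.sqrt (∑ j, x.1 j ^ 2) ^ p) := by
  obtain ⟨h, δ, ⟨D⟩⟩ := exists_AData
  exact frozen_of_reduced D.reduced

end OD16
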