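import Pool.Agent.LibOD16.OrG

set_option autoImplicit false
namespace OD16
open MvPolynomial MeasureTheory Metric
open scoped BoundedContinuousFunction ENNReal
noncomputable section

namespace NL

/-- The leading part of `Ws 0`. -/
def WsM : Fam := -(hf * hf * H ^ 2 * r * th 1 ^ 2) + hf * H ^ 3 * r ^ 2 * th 0 * th 1 ^ 2 -
  hf * Dl * H * th 0

/-! Auxiliary lemmas. -/

lemma oz {K : ℝ} : Ord K 2 (0 : Fam) := Ord.zero 2

lemma half_smul_one : (fun _ _ _ => (1 / 2 : ℝ) • (1 : WA) : Fam) = hf := rfl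

lemma s1s_zero_eq : s1s 0 = 2 * H * th 0 +
    H ^ 2 * r * (th 0 ^ 2 + th 1 ^ 2 + th 2 ^ 2 + th 3 ^ 2) := by
  unfold s1s
  ring

lemma ord_s1s_lin {K : ℝ} : Ord K 2 (s1s 0 - 2 * H * th 0) := by
  have h : s1s 0 - 2 * H * th 0 =
      H ^ 2 * (r * (th 0 ^ 2 + th 1 ^ 2 + th 2 ^ 2 + th 3 ^ 2)) := by
    rw [s1s_zero_eq]
    ring
  rw [h]
  have t (i : Fin 5) : Ord K 0 (th i ^ 2) := (ord_th i).pow' (by norm_num)
  exact (ord_H.pow' (n := 2) (by norm_num)).mul' (ord_r.mul' ((((t 0).add (t 1)).add (t 2)).add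
    (t 3)) (n := 0) (by norm_num)) (by norm_num)

/-- `(1 + s1)^(1/2) - 1 = s1/2 + O(h²)`. -/
lemma ord_sqrt_lin {K : ℝ} : Ord K 2 (pwF (fun _ => 1 / 2) (s1 0) - 1 - H * r * th 0) := by
  have e1 := EqF.pw_const (K := K) (k := 1) (by norm_num) (ord_s1 oz) (1 / 2)
    (by rw [abs_of_pos] <;> norm_num) (by norm_num)
  rw [half_smul_one] at e1
  have o2 : Ord K 2 (hf * s1 0 * (phF (fun _ => 1 / 2) (s1 0) - 1) +
      hf * r * (s1s 0 - 2 * H * th 0)) := by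
    have p : Ord K 1 (phF (fun _ => 1 / 2) (s1 0) - 1) := ord_phF_sub (by norm_num) (ord_s1 oz) _
      (by intro _ _ _; rw [abs_of_pos] <;> norm_num) (by intro _ _ _; norm_num)
    refine ((ord_hf.mul' (ord_s1 oz) (n := 1) (by norm_num)).mul' p (by norm_num)).add ?_
    exact (ord_hf.mul' ord_r (n := 0) (by norm_num)).mul' ord_s1s_lin (by norm_num)
  refine o2.congrF ?_
  refine (((e1.sub (EqF.refl 1)).sub (EqF.refl (H * r * th 0)))).trans ?_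
  have h : 1 + hf * s1 0 * phF (fun _ => 1 / 2) (s1 0) - 1 - H * r * th 0 =
      hf * s1 0 * (phF (fun _ => 1 / 2) (s1 0) - 1) + hf * r * (s1s 0 - 2 * H * th 0) := by
    have h1 : s1 0 = r * s1s 0 := rfl
    have h2 : hf * r * (s1s 0 - 2 * H * th 0) = hf * (r * s1s 0) - (2 * hf) * (H * r * th 0) := by
      ring
    rw [h2, two_mul_hf, h1]
    ring
  rw [h]
  exact EqF.refl _

/-- TASK OrH.  Leading order of the geometry: `s₃ = H r θ_0 + O(h²)`, `I2² = 1 - 2 H r θ_0 + O(h²)`,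
`s1s 0 = 2 H θ_0 + O(h²)`, `ph - 1` of order 1, `pw(-δ/4) - 1` of order 3. -/
lemma ord_s3_lin {K : ℝ} : Ord K 2 (s3 0 - H * r * th 0) := by
  have h : s3 0 - H * r * th 0 = hf * (pwF (fun _ => 1 / 2) (s1 0) - 1 - H * r * th 0) := by
    have h1 : hf * (pwF (fun _ => 1 / 2) (s1 0) - 1 - H * r * th 0) =
        hf * (pwF (fun _ => 1 / 2) (s1 0) - 1 + H * (1 + 0) * r * th 0) -
          (2 * hf) * (H * r * th 0) := by ring
    rw [h1, two_mul_hf, one_mul]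
    rfl
  rw [h]
  exact ord_hf.mul' ord_sqrt_lin (by norm_num)

lemma ord_I2_lin {K : ℝ} : Ord K 2 (I2 0 ^ 2 - (1 - 2 * H * r * th 0)) := by
  have e1 : EqF K ((1 + s3 0) * I2 0) 1 := EqF.inv (K := K) (k := 1) (by norm_num) (ord_s3 oz)
  have e2 : EqF K (((1 + s3 0) * I2 0) * ((1 + s3 0) * I2 0)) (1 * 1) := e1.mul e1
  have o2 : Ord K 2 (-(2 * (s3 0 - H * r * th 0)) - 2 * (s3 0 * (I2 0 ^ 2 - 1)) -
      s3 0 ^ 2 * I2 0 ^ 2) := by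
    have two : Ord K 0 (2 : Fam) := Ord.ofNat 2
    have i1 : Ord K 1 (I2 0 ^ 2 - 1) := by
      have h : I2 0 ^ 2 - 1 = (I2 0 + 1) * (I2 0 - 1) := by ring
      rw [h]
      exact ((ord_I2 oz).add Ord.one).mul' (ord_I2_sub oz) (by norm_num)
    refine (Ord.sub (two.mul' ord_s3_lin (by norm_num)).neg
      (two.mul' ((ord_s3 oz).mul' i1 (n := 2) (by norm_num)) (by norm_num))).sub ?_
    exact ((ord_s3 oz).pow' (n := 2) (by norm_num)).mul' ((ord_I2 oz).pow' (n := 0) (by norm_num))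
      (by norm_num)
  refine o2.congrF ?_
  have e3 : EqF K (I2 0 ^ 2) (1 * 1 - (2 * s3 0 + s3 0 ^ 2) * I2 0 ^ 2) := by
    have h1 := e2.sub (EqF.refl ((2 * s3 0 + s3 0 ^ 2) * I2 0 ^ 2))
    have h : ((1 + s3 0) * I2 0) * ((1 + s3 0) * I2 0) - (2 * s3 0 + s3 0 ^ 2) * I2 0 ^ 2 =
      I2 0 ^ 2 := by ring
    rw [h] at h1
    exact h1
  have e4 := e3.sub (EqF.refl (1 - 2 * H * r * th 0))
  have h : 1 * 1 - (2 * s3 0 + s3 0 ^ 2) * I2 0 ^ 2 - (1 - 2 * H * r * th 0) =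
      -(2 * (s3 0 - H * r * th 0)) - 2 * (s3 0 * (I2 0 ^ 2 - 1)) - s3 0 ^ 2 * I2 0 ^ 2 := by
    ring
  rw [h] at e4
  exact e4

lemma ord_Ws_lead {K : ℝ} : Ord K 4 (Ws 0 - WsM) := by
  set ph1 := phF (fun δ => -(δ / 4)) (s1 0) with hph1
  set pw1 := pwF (fun δ => -(δ / 4)) (s1 0) with hpw1
  have h : Ws 0 - WsM = -(hf * hf * Dl * (s1s 0 - 2 * H * th 0) * ph1) -
      hf * hf * Dl * (2 * H * th 0) * (ph1 - 1) -
      hf * hf * H ^ 2 * (pw1 - 1) * (r * th 1 ^ 2 * I2 0 ^ 2) -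
      hf * hf * H ^ 2 * (r * th 1 ^ 2) * (I2 0 ^ 2 - (1 - 2 * H * r * th 0)) := by
    have h1 : Ws 0 = -(hf * hf * Dl * s1s 0 * ph1) -
      hf * hf * H ^ 2 * pw1 * (1 + 0) ^ 2 * r * th 1 ^ 2 * I2 0 ^ 2 := rfl
    rw [h1]
    unfold WsM
    linear_combination (hf * H ^ 3 * r ^ 2 * th 0 * th 1 ^ 2 - hf * Dl * H * th 0) * two_mul_hf
  rw [h]
  have hb : ∀ δ : ℝ, 0 < δ → δ < 1 / 10 → |(fun δ : ℝ => -(δ / 4)) δ| ≤ 1 := by
    intro δ h0 h1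
    simp only [abs_neg]
    rw [abs_of_pos (by linarith)]
    linarith
  have hn : ∀ δ : ℝ, 0 < δ → δ < 1 / 10 → (fun δ : ℝ => -(δ / 4)) δ ≠ 0 := by
    intro δ h0 h1
    simp only [ne_eq, neg_eq_zero]
    linarith
  have two : Ord K 0 (2 : Fam) := Ord.ofNat 2
  have hh : Ord K 0 (hf * hf) := ord_hf.mul' ord_hf (by norm_num)
  have p0' : Ord K 0 ph1 := ord_phF (by norm_num) (ord_s1 oz) _ hb
  have p1' : Ord K 1 (ph1 - 1) := ord_phF_sub (by norm_num) (ord_s1 oz) _ hb hn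
  have w3 : Ord K 3 (pw1 - 1) := ord_pwF_s1_sub oz
  have hD : Ord K 2 (hf * hf * Dl) := hh.mul' ord_Dl (by norm_num)
  have hH2 : Ord K 2 (H ^ 2) := ord_H.pow' (by norm_num)
  have hhH : Ord K 2 (hf * hf * H ^ 2) := hh.mul' hH2 (by norm_num)
  have t1 : Ord K 0 (th 1 ^ 2) := (ord_th 1).pow' (by norm_num)
  have rt : Ord K 0 (r * th 1 ^ 2) := ord_r.mul' t1 (by norm_num)
  have A : Ord K 4 (hf * hf * Dl * (s1s 0 - 2 * H * th 0) * ph1) :=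
    (hD.mul' ord_s1s_lin (n := 4) (by norm_num)).mul' p0' (by norm_num)
  have B : Ord K 4 (hf * hf * Dl * (2 * H * th 0) * (ph1 - 1)) :=
    (hD.mul' ((two.mul' ord_H (n := 1) (by norm_num)).mul' (ord_th 0) (n := 1) (by norm_num))
      (n := 3) (by norm_num)).mul' p1' (by norm_num)
  have C : Ord K 4 (hf * hf * H ^ 2 * (pw1 - 1) * (r * th 1 ^ 2 * I2 0 ^ 2)) :=
    (hhH.mul' w3 (n := 4) (by norm_num)).mul'
      (rt.mul' ((ord_I2 oz).pow' (n := 0) (by norm_num)) (n := 0) (by norm_num)) (by norm_num)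
  have D : Ord K 4 (hf * hf * H ^ 2 * (r * th 1 ^ 2) * (I2 0 ^ 2 - (1 - 2 * H * r * th 0))) :=
    (hhH.mul' rt (n := 2) (by norm_num)).mul' ord_I2_lin (by norm_num)
  exact ((A.neg.sub B).sub C).sub D

lemma oWs2 {K : ℝ} : Ord K 2 (w1 * Ws 0) := ord_w1.mul' (ord_Ws oz) (by norm_num)

lemma oWs5 {K : ℝ} : Ord K 2 (5 * w1 * Ws 0) :=
  ((Ord.ofNat 5).mul' ord_w1 (n := 0) (by norm_num)).mul' (ord_Ws oz) (by norm_num)

lemma w1Ws_eq (h δ : ℝ) (x y : XS) : (w1 * Ws 0) h δ x = (w1 * Ws 0) h δ y := rfl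

lemma w5Ws_eq (h δ : ℝ) (x y : XS) : (5 * w1 * Ws 0) h δ x = (5 * w1 * Ws 0) h δ y := rfl

/-- The norm of `SI`. -/
lemma norm_SI_le {p : SI} {c : ℝ} (hc : 0 ≤ c) (h1 : ‖p.1‖ ≤ c) (h2 : ∀ i, ‖p.2.1 i‖ ≤ c)
    (h3 : ‖p.2.2.1‖ ≤ c) (h4 : ‖p.2.2.2‖ ≤ c) : ‖p‖ ≤ c := by
  rw [Prod.norm_def, Prod.norm_def, Prod.norm_def]
  refine max_le h1 (max_le ?_ (max_le h3 h4))
  exact (pi_norm_le_iff_of_nonneg hc).mpr h2

end NL

/-- TASK OrH.  The estimates of the nonlinear map. -/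
theorem nn_est (K : ℝ) : ∃ M h0 : ℝ, 0 ≤ M ∧ 0 < h0 ∧ ∀ h δ, 0 < h → h < h0 → 0 < δ →
    δ ≤ h ^ 2 →
    (∀ x : XS, ‖x‖ ≤ K * h ^ 2 → ‖NL.NN h δ x - NL.NN0 h δ‖ ≤ M * h ^ 4) ∧
    (∀ x y : XS, ‖x‖ ≤ K * h ^ 2 → ‖y‖ ≤ K * h ^ 2 →
      ‖NL.NN h δ x - NL.NN h δ y‖ ≤ M * h ^ 2 * ‖x - y‖) := by
  obtain ⟨M1, a1, hM1, p1, b1, l1, -⟩ := NL.ord_e' (K := K)
  have hE := fun i => NL.ord_E' (K := K) i
  choose M2 a2 hM2 p2 b2 l2 _ using hE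
  obtain ⟨M3, a3, hM3, p3, b3, l3, -⟩ := NL.ord_R' (K := K)
  obtain ⟨M4, a4, hM4, p4, b4, l4, -⟩ := NL.ord_g (K := K)
  obtain ⟨a5, p5, hle⟩ : ∃ a5 : ℝ, 0 < a5 ∧ ∀ i, a5 ≤ a2 i :=
    ⟨Finset.univ.inf' Finset.univ_nonempty a2, by simp [Finset.lt_inf'_iff, p2],
      fun i => Finset.inf'_le _ (Finset.mem_univ i)⟩
  have hS : ∀ i, M2 i ≤ ∑ i, M2 i := fun i =>
    Finset.single_le_sum (fun j _ => hM2 j) (Finset.mem_univ i)
  have hS0 : 0 ≤ ∑ i, M2 i := Finset.sum_nonneg fun j _ => hM2 j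
  set M := M1 + (∑ i, M2 i) + M3 + M4 with hM
  have k1 : M1 ≤ M := by linarith
  have k2 : ∀ i, M2 i ≤ M := fun i => by have := hS i; linarith
  have k3 : M3 ≤ M := by linarith
  have k4 : M4 ≤ M := by linarith
  have kM : 0 ≤ M := by linarith
  refine ⟨M, min a1 (min a5 (min a3 a4)), kM, by positivity, ?_⟩
  intro h δ hh hlt hδ hδ2
  simp only [lt_min_iff] at hlt
  obtain ⟨q1, q5, q3, q4⟩ := hlt
  have q2 : ∀ i, h < a2 i := fun i => q5.trans_le (hle i)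
  have hh4 : 0 ≤ h ^ 4 := by positivity
  have hh2 : h ^ 4 / h ^ 2 = h ^ 2 := by
    field_simp
  constructor
  · intro x hx
    apply NL.norm_SI_le (by positivity)
    · have e : (NL.NN h δ x - NL.NN0 h δ).1 = (NL.e' + NL.w1 * NL.Ws 0) h δ x := by
        change NL.e' h δ x - (-(NL.w1 * NL.Ws 0) h δ 0) = NL.e' h δ x + (NL.w1 * NL.Ws 0) h δ x
        rw [NL.w1Ws_eq h δ x 0]
        exact sub_neg_eq_add _ _
      rw [e]
      exact (b1 h δ hh q1 hδ hδ2 x hx).trans (mul_le_mul_of_nonneg_right k1 hh4)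
    · intro i
      have e : (NL.NN h δ x - NL.NN0 h δ).2.1 i = NL.E' i h δ x := by
        change NL.E' i h δ x - 0 = NL.E' i h δ x
        exact sub_zero _
      rw [e]
      exact (b2 i h δ hh (q2 i) hδ hδ2 x hx).trans (mul_le_mul_of_nonneg_right (k2 i) hh4)
    · have e : (NL.NN h δ x - NL.NN0 h δ).2.2.1 = (NL.R' - 5 * NL.w1 * NL.Ws 0) h δ x := by
        change NL.R' h δ x - (5 * NL.w1 * NL.Ws 0) h δ 0 =
          NL.R' h δ x - (5 * NL.w1 * NL.Ws 0) h δ x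
        rw [NL.w5Ws_eq h δ x 0]
      rw [e]
      exact (b3 h δ hh q3 hδ hδ2 x hx).trans (mul_le_mul_of_nonneg_right k3 hh4)
    · have e : (NL.NN h δ x - NL.NN0 h δ).2.2.2 = NL.g h δ x := by
        change NL.g h δ x - 0 = NL.g h δ x
        exact sub_zero _
      rw [e]
      exact (b4 h δ hh q4 hδ hδ2 x hx).trans (mul_le_mul_of_nonneg_right k4 hh4)
  · intro x y hx hy
    have hxy : 0 ≤ ‖x - y‖ := norm_nonneg _
    have hh2' : 0 ≤ h ^ 2 := by positivity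
    have key : ∀ M', M' ≤ M → M' * h ^ 4 / h ^ 2 * ‖x - y‖ ≤ M * h ^ 2 * ‖x - y‖ := by
      intro M' hM'
      rw [mul_div_assoc, hh2]
      exact mul_le_mul_of_nonneg_right (mul_le_mul_of_nonneg_right hM' hh2') hxy
    apply NL.norm_SI_le (by positivity)
    · have e : (NL.NN h δ x - NL.NN h δ y).1 =
          (NL.e' + NL.w1 * NL.Ws 0) h δ x - (NL.e' + NL.w1 * NL.Ws 0) h δ y := by
        change NL.e' h δ x - NL.e' h δ y = NL.e' h δ x + (NL.w1 * NL.Ws 0) h δ x -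
          (NL.e' h δ y + (NL.w1 * NL.Ws 0) h δ y)
        rw [NL.w1Ws_eq h δ x y]
        abel
      rw [e]
      exact (l1 h δ hh q1 hδ hδ2 x y hx hy).trans (key _ k1)
    · intro i
      exact (l2 i h δ hh (q2 i) hδ hδ2 x y hx hy).trans (key _ (k2 i))
    · have e : (NL.NN h δ x - NL.NN h δ y).2.2.1 =
          (NL.R' - 5 * NL.w1 * NL.Ws 0) h δ x - (NL.R' - 5 * NL.w1 * NL.Ws 0) h δ y := by
        change NL.R' h δ x - NL.R' h δ y = NL.R' h δ x - (5 * NL.w1 * NL.Ws 0) h δ x -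
          (NL.R' h δ y - (5 * NL.w1 * NL.Ws 0) h δ y)
        rw [NL.w5Ws_eq h δ x y]
        abel
      rw [e]
      exact (l3 h δ hh q3 hδ hδ2 x y hx hy).trans (key _ k3)
    · exact (l4 h δ hh q4 hδ hδ2 x y hx hy).trans (key _ k4)

theorem nn_cont (K : ℝ) : ∃ h0 : ℝ, 0 < h0 ∧ ∀ δ, ∀ x : XS,
    ContinuousOn (fun h => NL.NN h δ x)
      {h | 0 < h ∧ h < h0 ∧ 0 < δ ∧ δ ≤ h ^ 2 ∧ ‖x‖ ≤ K * h ^ 2} := by
  have oe : Ord K 2 NL.e' := by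
    have h : NL.e' = (NL.e' + NL.w1 * NL.Ws 0) - NL.w1 * NL.Ws 0 := by ring
    rw [h]
    exact (NL.ord_e'.mono (by norm_num)).sub NL.oWs2
  have oR : Ord K 2 NL.R' := by
    have h : NL.R' = (NL.R' - 5 * NL.w1 * NL.Ws 0) + 5 * NL.w1 * NL.Ws 0 := by ring
    rw [h]
    exact (NL.ord_R'.mono (by norm_num)).add NL.oWs5
  obtain ⟨M1, a1, hM1, p1, -, -, c1⟩ := oe
  have hE := fun i => NL.ord_E' (K := K) i
  choose M2 a2 hM2 p2 _ _ c2 using hE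
  obtain ⟨M3, a3, hM3, p3, -, -, c3⟩ := oR
  obtain ⟨M4, a4, hM4, p4, -, -, c4⟩ := NL.ord_g (K := K)
  obtain ⟨a5, p5, hle⟩ : ∃ a5 : ℝ, 0 < a5 ∧ ∀ i, a5 ≤ a2 i :=
    ⟨Finset.univ.inf' Finset.univ_nonempty a2, by simp [Finset.lt_inf'_iff, p2],
      fun i => Finset.inf'_le _ (Finset.mem_univ i)⟩
  refine ⟨min a1 (min a5 (min a3 a4)), by positivity, ?_⟩
  intro δ x
  have s1 : ∀ a, min a1 (min a5 (min a3 a4)) ≤ a →
      {h : ℝ | 0 < h ∧ h < min a1 (min a5 (min a3 a4)) ∧ 0 < δ ∧ δ ≤ h ^ 2 ∧ ‖x‖ ≤ K * h ^ 2} ⊆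
        {h | 0 < h ∧ h < a ∧ 0 < δ ∧ δ ≤ h ^ 2 ∧ ‖x‖ ≤ K * h ^ 2} := by
    intro a ha h hh
    exact ⟨hh.1, hh.2.1.trans_le ha, hh.2.2⟩
  unfold NL.NN
  refine ContinuousOn.prodMk ((c1 δ x).mono (s1 a1 (by simp))) (ContinuousOn.prodMk ?_
    (ContinuousOn.prodMk ((c3 δ x).mono (s1 a3 (by simp))) ((c4 δ x).mono (s1 a4 (by simp)))))
  refine continuousOn_pi.mpr fun i => (c2 i δ x).mono (s1 (a2 i) ?_)
  exact ((min_le_right _ _).trans (min_le_left _ _)).trans (hle i)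

/-- The geometric sources are `O(h²)`; the constant does not depend on `K`
(use `Ord 0`, the ball of radius `0`). -/
theorem nn0_bound : ∃ C1 h0 : ℝ, 0 < C1 ∧ 0 < h0 ∧ ∀ h δ, 0 < h → h < h0 → 0 < δ → δ ≤ h ^ 2 →
    ‖NL.NN0 h δ‖ ≤ C1 * h ^ 2 := by
  obtain ⟨M1, a1, hM1, p1, b1, -, -⟩ := NL.oWs2 (K := 0)
  obtain ⟨M3, a3, hM3, p3, b3, -, -⟩ := NL.oWs5 (K := 0)
  refine ⟨M1 + M3 + 1, min a1 a3, by positivity, by positivity, ?_⟩
  intro h δ hh hlt hδ hδ2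
  simp only [lt_min_iff] at hlt
  have hx : ‖(0 : XS)‖ ≤ 0 * h ^ 2 := by simp
  have hh2 : 0 ≤ h ^ 2 := by positivity
  apply NL.norm_SI_le (by positivity)
  · change ‖-(NL.w1 * NL.Ws 0) h δ 0‖ ≤ _
    rw [norm_neg]
    refine (b1 h δ hh hlt.1 hδ hδ2 0 hx).trans (mul_le_mul_of_nonneg_right (by linarith) hh2)
  · intro i
    change ‖(0 : WA)‖ ≤ _
    rw [norm_zero]
    positivity
  · exact (b3 h δ hh hlt.2 hδ hδ2 0 hx).trans (mul_le_mul_of_nonneg_right (by linarith) hh2)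
  · change ‖(0 : WA)‖ ≤ _
    rw [norm_zero]
    positivity

/-- The leading part of the geometric sources. -/
def NL.NNM (h δ : ℝ) : SI :=
  (-(NL.w1 * NL.WsM) h δ 0, fun _ => 0, (5 * NL.w1 * NL.WsM) h δ 0, 0)

theorem nnm_bound : ∃ M h0 : ℝ, 0 < M ∧ 0 < h0 ∧ ∀ h δ, 0 < h → h < h0 → 0 < δ → δ ≤ h ^ 2 →
    ‖NL.NN0 h δ - NL.NNM h δ‖ ≤ M * h ^ 4 := by
  have o1 : Ord 0 4 (NL.w1 * (NL.Ws 0 - NL.WsM)) := NL.ord_w1.mul' NL.ord_Ws_lead (by norm_num)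
  have o3 : Ord 0 4 (5 * NL.w1 * (NL.Ws 0 - NL.WsM)) :=
    ((Ord.ofNat 5).mul' NL.ord_w1 (n := 0) (by norm_num)).mul' NL.ord_Ws_lead (by norm_num)
  obtain ⟨M1, a1, hM1, p1, b1, -, -⟩ := o1
  obtain ⟨M3, a3, hM3, p3, b3, -, -⟩ := o3
  refine ⟨M1 + M3 + 1, min a1 a3, by positivity, by positivity, ?_⟩
  intro h δ hh hlt hδ hδ2
  simp only [lt_min_iff] at hlt
  have hx : ‖(0 : XS)‖ ≤ 0 * h ^ 2 := by simp
  have hh4 : 0 ≤ h ^ 4 := by positivity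
  apply NL.norm_SI_le (by positivity)
  · have e : (NL.NN0 h δ - NL.NNM h δ).1 = -((NL.w1 * (NL.Ws 0 - NL.WsM)) h δ 0) := by
      rw [mul_sub]
      change -(NL.w1 * NL.Ws 0) h δ 0 - (-(NL.w1 * NL.WsM) h δ 0) =
        -((NL.w1 * NL.Ws 0) h δ 0 - (NL.w1 * NL.WsM) h δ 0)
      abel
    rw [e, norm_neg]
    exact (b1 h δ hh hlt.1 hδ hδ2 0 hx).trans (mul_le_mul_of_nonneg_right (by linarith) hh4)
  · intro i
    have e : (NL.NN0 h δ - NL.NNM h δ).2.1 i = 0 := by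
      change (0 : WA) - 0 = 0
      exact sub_zero _
    rw [e, norm_zero]
    positivity
  · have e : (NL.NN0 h δ - NL.NNM h δ).2.2.1 = (5 * NL.w1 * (NL.Ws 0 - NL.WsM)) h δ 0 := by
      rw [mul_sub]
      rfl
    rw [e]
    exact (b3 h δ hh hlt.2 hδ hδ2 0 hx).trans (mul_le_mul_of_nonneg_right (by linarith) hh4)
  · have e : (NL.NN0 h δ - NL.NNM h δ).2.2.2 = 0 := by
      change (0 : WA) - 0 = 0
      exact sub_zero _
    rw [e, norm_zero]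
    positivity

end
end OD16
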