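import Pool.Agent.LibOD16.SolW2

set_option autoImplicit false
namespace OD16
open MvPolynomial MeasureTheory Metric
open scoped BoundedContinuousFunction
noncomputable section

/-- `(D_l(E) + R_l) / (l+3)` as a bounded continuous function. -/
lemma exists_fl (E : Fin 5 → WA) (R : WA) (l : ℕ) : ∃ f : Tm →ᵇ V l,
    ∀ t, ((l : ℝ) + 3) • f t = Dv E l t + R.c l t := by
  obtain ⟨FL, hFL, -⟩ := exists_FL
  exact ⟨(FL (0, E, R, 0)).c l, fun t => hFL (0, E, R, 0) l t⟩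

/-- TASK SolW3.  Degree by degree `LinSol` is `IsSol`. -/
lemma LinSol.isSol {δ : ℝ} {p : SI} {x : XS} {b : WA} {Λ : V 1} (h : LinSol δ p x b Λ) (l : ℕ)
    (f : Tm →ᵇ V l) (hf : ∀ t, ((l : ℝ) + 3) • f t = Dv p.2.1 l t + p.2.2.1.c l t) :
    IsSol l δ (p.1.c l) f (x.2.1.c l) (x.2.2.1.c l) (b.c l) := by
  refine ⟨fun t ht => h.dj l t ht, fun t ht => ?_, fun t => h.eq l t⟩
  have h1 := h.db l t ht
  have h2 : vp δ t • (xt (Dv p.2.1 l) t + xt (p.2.2.1.c l) t)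
      = (((l : ℝ) + 3) * vp δ t) • xt f t := by
    rw [mul_comm, mul_smul]
    congr 1
    exact (hf _).symm
  rw [h2] at h1
  exact h1

/-- Uniqueness. -/
theorem LinSol.unique {δ : ℝ} (hδ : 0 < δ) (hδ1 : δ < 1 / 10) {p : SI} {x x' : XS} {b b' : WA}
    {Λ Λ' : V 1} (h : LinSol δ p x b Λ) (h' : LinSol δ p x' b' Λ') : x = x' ∧ b = b' ∧ Λ = Λ' := by
  have key : ∀ l, x.2.1.c l = x'.2.1.c l ∧ x.2.2.1.c l = x'.2.2.1.c l ∧ b.c l = b'.c l := by
    intro l
    obtain ⟨f, hf⟩ := exists_fl p.2.1 p.2.2.1 l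
    refine IsSol.unique hδ hδ1 (h.isSol l f hf) (h'.isSol l f hf) fun hl => ?_
    rw [h.bc2 l hl, h'.bc2 l hl]
  have h1 : x.2.1 = x'.2.1 := WA.ext fun l => (key l).1
  have h2 : x.2.2.1 = x'.2.2.1 := WA.ext fun l => (key l).2.1
  have h3 : b = b' := WA.ext fun l => (key l).2.2
  have h4 : x.2.2.2 = x'.2.2.2 := by
    funext i
    apply WA.ext
    intro l
    apply BoundedContinuousFunction.ext
    intro t
    cases l with
    | zero => rw [h.J_zero, h'.J_zero, h1]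
    | succ l => rw [h.J_succ, h'.J_succ, h1]
  have h5 : x.1 = x'.1 := by
    have e1 := h.bc0
    rw [h1, h2, h'.bc0] at e1
    have e2 : x'.1 • c0 = x.1 • c0 := add_left_cancel e1
    have e3 := congrArg (fun P : V 0 => P.ev 0) e2
    simp only [V.ev_smul, c0_ev, mul_one] at e3
    exact e3.symm
  have h6 : Λ = Λ' := by
    have e1 := h.bc1
    rw [h1, h2, h'.bc1] at e1
    exact (add_left_cancel e1).symm
  exact ⟨Prod.ext h5 (Prod.ext h1 (Prod.ext h2 h4)), h3, h6⟩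

end
end OD16
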