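import Pool.Agent.LibOD16.NLI
import Pool.Agent.LibOD16.SolW3
import Pool.Agent.LibOD16.OrH

set_option autoImplicit false
namespace OD16
open MvPolynomial MeasureTheory Metric
open scoped BoundedContinuousFunction ENNReal
noncomputable section

/-- The norm bound of the solver. -/
def SolC : ℝ := Classical.choose exists_solver

lemma SolC_pos : 0 < SolC := (Classical.choose_spec exists_solver).1

/-- The solver operator. -/
def SolS (δ : ℝ) : SI →L[ℝ] XS :=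
  if h : 0 < δ ∧ δ < 1 / 10 then
    Classical.choose ((Classical.choose_spec exists_solver).2 δ h.1 h.2) else 0

/-- The component `b` of the solution. -/
def SolB (δ : ℝ) : SI →L[ℝ] WA :=
  if h : 0 < δ ∧ δ < 1 / 10 then
    Classical.choose (Classical.choose_spec
      ((Classical.choose_spec exists_solver).2 δ h.1 h.2)) else 0

/-- The defect `Λ` in degree 1. -/
def SolL (δ : ℝ) : SI →L[ℝ] V 1 :=
  if h : 0 < δ ∧ δ < 1 / 10 then
    Classical.choose (Classical.choose_spec (Classical.choose_spec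
      ((Classical.choose_spec exists_solver).2 δ h.1 h.2))) else 0

lemma sol_spec {δ : ℝ} (h0 : 0 < δ) (h1 : δ < 1 / 10) :
    (∀ p, ‖SolS δ p‖ ≤ SolC * ‖p‖) ∧ (∀ p, ‖SolL δ p‖ ≤ SolC * ‖p‖) ∧
      ∀ p, LinSol δ p (SolS δ p) (SolB δ p) (SolL δ p) := by
  have h : 0 < δ ∧ δ < 1 / 10 := ⟨h0, h1⟩
  have h2 := Classical.choose_spec (Classical.choose_spec (Classical.choose_spec
      ((Classical.choose_spec exists_solver).2 δ h.1 h.2)))
  unfold SolS SolB SolL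
  rw [dif_pos h, dif_pos h, dif_pos h]
  exact h2

/-- A fixed point of `x ↦ SolS δ (NN h δ x)`. -/
lemma Fix.of_eq {K h δ : ℝ} (h0 : 0 < δ) (h1 : δ < 1 / 10) {x : XS} (hx : ‖x‖ ≤ K * h ^ 2)
    (he : SolS δ (NL.NN h δ x) = x) :
    Fix K h δ x (SolB δ (NL.NN h δ x)) (SolL δ (NL.NN h δ x)) := by
  refine ⟨hx, ?_⟩
  have h2 := (sol_spec h0 h1).2.2 (NL.NN h δ x)
  rw [he] at h2
  exact h2

lemma Fix.eq_sol {K h δ : ℝ} (h0 : 0 < δ) (h1 : δ < 1 / 10) {x : XS} {b : WA} {Λ : V 1}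
    (hf : Fix K h δ x b Λ) :
    SolS δ (NL.NN h δ x) = x ∧ SolB δ (NL.NN h δ x) = b ∧ SolL δ (NL.NN h δ x) = Λ :=
  LinSol.unique h0 h1 ((sol_spec h0 h1).2.2 (NL.NN h δ x)) hf.lin

/-- TASK Fx0.  Contraction: for `h` small the map has Lipschitz constant `1/2` on the ball of radius
`K h²` (`nn_est`, `sol_spec`). -/
theorem contr (K : ℝ) : ∃ h0 : ℝ, 0 < h0 ∧ h0 ≤ 1 / 10 ∧ ∀ h δ, 0 < h → h < h0 → 0 < δ →
    δ ≤ h ^ 2 → ∀ x y : XS, ‖x‖ ≤ K * h ^ 2 → ‖y‖ ≤ K * h ^ 2 →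
      ‖SolS δ (NL.NN h δ x) - SolS δ (NL.NN h δ y)‖ ≤ 1 / 2 * ‖x - y‖ := by
  obtain ⟨M, h1, hM, hh1, hest⟩ := nn_est K
  have hC := SolC_pos
  have hCM : 0 ≤ SolC * M := mul_nonneg hC.le hM
  refine ⟨min h1 (min (1 / 10) (1 / (2 * (SolC * M + 1)))), ?_, ?_, ?_⟩
  · refine lt_min hh1 (lt_min (by norm_num) ?_)
    positivity
  · exact (min_le_right _ _).trans (min_le_left _ _)
  intro h δ hh hlt hδ hδh x y hx hy
  have hl1 : h < h1 := lt_of_lt_of_le hlt (min_le_left _ _)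
  have hl2 : h < 1 / 10 := lt_of_lt_of_le hlt ((min_le_right _ _).trans (min_le_left _ _))
  have hl3 : h < 1 / (2 * (SolC * M + 1)) :=
    lt_of_lt_of_le hlt ((min_le_right _ _).trans (min_le_right _ _))
  have hδ1 : δ < 1 / 10 := by nlinarith
  obtain ⟨hS, -, -⟩ := sol_spec hδ hδ1
  have e1 := (hest h δ hh hl1 hδ hδh).2 x y hx hy
  rw [← map_sub]
  refine (hS _).trans ?_
  have h2 : h * (2 * (SolC * M + 1)) < 1 := by
    rwa [lt_div_iff₀ (by positivity)] at hl3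
  have h3 : SolC * M * h ^ 2 ≤ 1 / 2 := by
    nlinarith [mul_nonneg hCM hh.le]
  calc SolC * ‖NL.NN h δ x - NL.NN h δ y‖ ≤ SolC * (M * h ^ 2 * ‖x - y‖) :=
        mul_le_mul_of_nonneg_left e1 hC.le
    _ = SolC * M * h ^ 2 * ‖x - y‖ := by ring
    _ ≤ 1 / 2 * ‖x - y‖ := mul_le_mul_of_nonneg_right h3 (norm_nonneg _)

/-- Uniqueness of the fixed point. -/
theorem Fix.unique' (K : ℝ) : ∃ h0 : ℝ, 0 < h0 ∧ ∀ h δ, 0 < h → h < h0 → 0 < δ → δ ≤ h ^ 2 →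
    ∀ (x x' : XS) (b b' : WA) (Λ Λ' : V 1), Fix K h δ x b Λ → Fix K h δ x' b' Λ' →
      x = x' ∧ b = b' ∧ Λ = Λ' := by
  obtain ⟨h0, hh0, hh1, hc⟩ := contr K
  refine ⟨h0, hh0, ?_⟩
  intro h δ hh hlt hδ hδh x x' b b' Λ Λ' hf hf'
  have hδ1 : δ < 1 / 10 := by nlinarith
  obtain ⟨e1, e2, e3⟩ := Fix.eq_sol hδ hδ1 hf
  obtain ⟨f1, f2, f3⟩ := Fix.eq_sol hδ hδ1 hf'
  have h1 := hc h δ hh hlt hδ hδh x x' hf.nx hf'.nx
  rw [e1, f1] at h1
  have h2 : x = x' := by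
    have h3 := norm_nonneg (x - x')
    have h4 : ‖x - x'‖ = 0 := by linarith
    exact sub_eq_zero.1 (norm_eq_zero.1 h4)
  subst h2
  exact ⟨rfl, by rw [← e2, ← f2], by rw [← e3, ← f3]⟩

end
end OD16
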