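import Pool.Agent.LibOD16.NLE
import Pool.Agent.LibOD16.Fx0

set_option autoImplicit false
namespace OD16
open MvPolynomial MeasureTheory Metric
open scoped BoundedContinuousFunction ENNReal
noncomputable section

/-- Uniqueness of the fixed point in the ball of radius `K h²`. -/
theorem Fix.unique (K : ℝ) : ∃ h0 : ℝ, 0 < h0 ∧ ∀ h δ, 0 < h → h < h0 → 0 < δ → δ ≤ h ^ 2 →
    ∀ (x x' : XS) (b b' : WA) (Λ Λ' : V 1), Fix K h δ x b Λ → Fix K h δ x' b' Λ' →
      x = x' ∧ b = b' ∧ Λ = Λ' :=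
  Fix.unique' K

end
end OD16
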