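import Pool.Agent.LibOD16.Fx0

set_option autoImplicit false
namespace OD16
open MvPolynomial MeasureTheory Metric
open scoped BoundedContinuousFunction ENNReal
noncomputable section

/-- Existence of the fixed point for one parameter. -/
lemma Fx1_fix {T : XS → XS} {ρ : ℝ} (hρ : 0 ≤ ρ) (hmap : ∀ x, ‖x‖ ≤ 2 * ρ → ‖T x‖ ≤ ρ)
    (hlip : ∀ x y, ‖x‖ ≤ 2 * ρ → ‖y‖ ≤ 2 * ρ → ‖T x - T y‖ ≤ 1 / 2 * ‖x - y‖) :
    ∃ x, ‖x‖ ≤ ρ ∧ T x = x := by
  have hmaps : Set.MapsTo T (closedBall (0 : XS) (2 * ρ)) (closedBall (0 : XS) (2 * ρ)) := by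
    intro x hx
    rw [mem_closedBall_zero_iff] at hx ⊢
    have := hmap x hx
    linarith
  have hcomp : IsComplete (closedBall (0 : XS) (2 * ρ)) := isClosed_closedBall.isComplete
  have hcontr : ContractingWith (1 / 2 : NNReal) (hmaps.restrict T _ _) := by
    refine ⟨?_, ?_⟩
    · rw [← NNReal.coe_lt_coe]
      norm_num
    · apply LipschitzWith.of_dist_le_mul
      intro x y
      have h1 := hlip x.1 y.1 (mem_closedBall_zero_iff.1 x.2) (mem_closedBall_zero_iff.1 y.2)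
      rw [Subtype.dist_eq, Subtype.dist_eq, dist_eq_norm, dist_eq_norm]
      have h2 : ((1 / 2 : NNReal) : ℝ) = 1 / 2 := by norm_num
      rw [h2]
      exact h1
  obtain ⟨y, hy, hfix, -⟩ := hcontr.exists_fixedPoint' hcomp hmaps
    (x := 0) (mem_closedBall_self (by linarith)) (edist_ne_top _ _)
  refine ⟨y, ?_, hfix⟩
  have h1 := hmap y (mem_closedBall_zero_iff.1 hy)
  rwa [hfix] at h1

/-- TASK Fx1.  Existence of the fixed point and its continuity in `h`.
`K0 = SolC C1 + 1` (`nn0_bound`, `nn_est` with `K = 2 K0`, `contr` with `K = 2 K0`): the map sends the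
ball of radius `2 K0 h²` into the ball of radius `K0 h²`; Banach's theorem
(`ContractingWith.exists_fixedPoint'` on the closed ball).
Continuity: `‖x_h - x_h'‖ ≤ 2 ‖T_h(x_h') - T_h'(x_h')‖` if `x_h'` is in the ball of radius `2 K0 h²`,
and `nn_cont` with `K = 2 K0`. -/
theorem exists_branch : ∃ K0 h0 : ℝ, 0 < K0 ∧ 0 < h0 ∧ h0 ≤ 1 / 100 ∧
    ∀ δ : ℝ, 0 < δ → ∃ X : ℝ → XS,
      (∀ h, 0 < h → h < h0 → δ ≤ h ^ 2 → ‖X h‖ ≤ K0 * h ^ 2 ∧ SolS δ (NL.NN h δ (X h)) = X h) ∧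
      ContinuousOn X {h | 0 < h ∧ h < h0 ∧ δ ≤ h ^ 2} ∧
      ContinuousOn (fun h => NL.NN h δ (X h)) {h | 0 < h ∧ h < h0 ∧ δ ≤ h ^ 2} := by
  obtain ⟨C1, ha, hC1, hha, hbd0⟩ := nn0_bound
  have hC := SolC_pos
  set K0 : ℝ := SolC * C1 + 1 with hK0
  have hK0pos : 0 < K0 := by positivity
  obtain ⟨M, hb, hM, hhb, hest⟩ := nn_est (2 * K0)
  obtain ⟨hc, hhc, hhc1, hcon⟩ := contr (2 * K0)
  obtain ⟨hd, hhd, hcont⟩ := nn_cont (2 * K0)
  have hCM : 0 ≤ SolC * M := mul_nonneg hC.le hM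
  set h0 : ℝ := min (min ha hb) (min (min hc hd) (min (1 / 100) (1 / (SolC * M + 1)))) with hh0
  have h0pos : 0 < h0 := by
    refine lt_min (lt_min hha hhb) (lt_min (lt_min hhc hhd) (lt_min (by norm_num) (by positivity)))
  have le_a : h0 ≤ ha := (min_le_left _ _).trans (min_le_left _ _)
  have le_b : h0 ≤ hb := (min_le_left _ _).trans (min_le_right _ _)
  have le_c : h0 ≤ hc := (min_le_right _ _).trans ((min_le_left _ _).trans (min_le_left _ _))
  have le_d : h0 ≤ hd := (min_le_right _ _).trans ((min_le_left _ _).trans (min_le_right _ _))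
  have le_e : h0 ≤ 1 / 100 := (min_le_right _ _).trans ((min_le_right _ _).trans (min_le_left _ _))
  have le_f : h0 ≤ 1 / (SolC * M + 1) :=
    (min_le_right _ _).trans ((min_le_right _ _).trans (min_le_right _ _))
  refine ⟨K0, h0, hK0pos, h0pos, le_e, ?_⟩
  intro δ hδ
  -- the map for one parameter
  have hex : ∀ h, 0 < h → h < h0 → δ ≤ h ^ 2 →
      ∃ x : XS, ‖x‖ ≤ K0 * h ^ 2 ∧ SolS δ (NL.NN h δ x) = x := by
    intro h hh hlt hδh
    have hδ1 : δ < 1 / 10 := by nlinarith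
    obtain ⟨hS, -, -⟩ := sol_spec hδ hδ1
    have e1 := hest h δ hh (hlt.trans_le le_b) hδ hδh
    have e0 := hbd0 h δ hh (hlt.trans_le le_a) hδ hδh
    have hsmall : SolC * M * h ≤ 1 := by
      have h2 : h < 1 / (SolC * M + 1) := hlt.trans_le le_f
      rw [lt_div_iff₀ (by positivity)] at h2
      nlinarith
    have hsm2 : SolC * M * h ^ 2 ≤ 1 := by
      have : h ≤ 1 := by linarith
      nlinarith
    refine Fx1_fix (T := fun x => SolS δ (NL.NN h δ x)) (by positivity) ?_ ?_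
    · intro x hx
      have hx' : ‖x‖ ≤ 2 * K0 * h ^ 2 := by linarith
      have e2 := e1.1 x hx'
      have e3 : ‖NL.NN h δ x‖ ≤ C1 * h ^ 2 + M * h ^ 4 := by
        have h5 : NL.NN h δ x = NL.NN0 h δ + (NL.NN h δ x - NL.NN0 h δ) := by abel
        rw [h5]
        exact (norm_add_le _ _).trans (add_le_add e0 e2)
      refine (hS _).trans ?_
      calc SolC * ‖NL.NN h δ x‖ ≤ SolC * (C1 * h ^ 2 + M * h ^ 4) :=
            mul_le_mul_of_nonneg_left e3 hC.le
        _ = (SolC * C1 + SolC * M * h ^ 2) * h ^ 2 := by ring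
        _ ≤ K0 * h ^ 2 := by
            refine mul_le_mul_of_nonneg_right ?_ (by positivity)
            rw [hK0]
            linarith
    · intro x y hx hy
      exact hcon h δ hh (hlt.trans_le le_c) hδ hδh x y (by linarith) (by linarith)
  classical
  set X : ℝ → XS := fun h =>
    if hp : 0 < h ∧ h < h0 ∧ δ ≤ h ^ 2 then Classical.choose (hex h hp.1 hp.2.1 hp.2.2) else 0
    with hX
  have hXspec : ∀ h, 0 < h → h < h0 → δ ≤ h ^ 2 →
      ‖X h‖ ≤ K0 * h ^ 2 ∧ SolS δ (NL.NN h δ (X h)) = X h := by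
    intro h a1 a2 a3
    have hp : 0 < h ∧ h < h0 ∧ δ ≤ h ^ 2 := ⟨a1, a2, a3⟩
    have : X h = Classical.choose (hex h hp.1 hp.2.1 hp.2.2) := by
      simp only [hX, dif_pos hp]
    rw [this]
    exact Classical.choose_spec (hex h hp.1 hp.2.1 hp.2.2)
  -- continuity of the sources at a fixed unknown
  set A : Set ℝ := {h | 0 < h ∧ h < h0 ∧ δ ≤ h ^ 2} with hA
  have hnear : ∀ a ∈ A, ∀ᶠ h in nhdsWithin a A, a ^ 2 ≤ 2 * h ^ 2 := by
    intro a haA
    have hcs : Filter.Tendsto (fun h : ℝ => 2 * h ^ 2) (nhdsWithin a A) (nhds (2 * a ^ 2)) :=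
      ((by fun_prop : Continuous (fun h : ℝ => 2 * h ^ 2)).tendsto a).mono_left
        nhdsWithin_le_nhds
    have hlt : a ^ 2 < 2 * a ^ 2 := by
      have := haA.1
      nlinarith
    exact (hcs.eventually_const_lt hlt).mono (fun h hh => hh.le)
  have hNN : ∀ a ∈ A, Filter.Tendsto (fun h => NL.NN h δ (X a)) (nhdsWithin a A)
      (nhds (NL.NN a δ (X a))) := by
    intro a haA
    have hXa := (hXspec a haA.1 haA.2.1 haA.2.2).1
    have hmem : a ∈ {h | 0 < h ∧ h < hd ∧ 0 < δ ∧ δ ≤ h ^ 2 ∧ ‖X a‖ ≤ 2 * K0 * h ^ 2} := by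
      refine ⟨haA.1, haA.2.1.trans_le le_d, hδ, haA.2.2, ?_⟩
      nlinarith [mul_nonneg hK0pos.le (sq_nonneg a)]
    have h1 := hcont δ (X a) a hmem
    have h2 : ∀ᶠ h in nhdsWithin a A,
        h ∈ {h | 0 < h ∧ h < hd ∧ 0 < δ ∧ δ ≤ h ^ 2 ∧ ‖X a‖ ≤ 2 * K0 * h ^ 2} := by
      filter_upwards [hnear a haA, self_mem_nhdsWithin] with h h3 h4
      refine ⟨h4.1, h4.2.1.trans_le le_d, hδ, h4.2.2, ?_⟩
      have := mul_le_mul_of_nonneg_left h3 hK0pos.le
      nlinarith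
    have h3 : nhdsWithin a A ≤
        nhdsWithin a {h | 0 < h ∧ h < hd ∧ 0 < δ ∧ δ ≤ h ^ 2 ∧ ‖X a‖ ≤ 2 * K0 * h ^ 2} :=
      nhdsWithin_le_of_mem h2
    exact h1.tendsto.mono_left h3
  have hXcont : ∀ a ∈ A, Filter.Tendsto (fun h => ‖X h - X a‖) (nhdsWithin a A) (nhds 0) := by
    intro a haA
    have hlim : Filter.Tendsto (fun h => 2 * (SolC * ‖NL.NN h δ (X a) - NL.NN a δ (X a)‖))
        (nhdsWithin a A) (nhds 0) := by
      have h1 : Filter.Tendsto (fun h => ‖NL.NN h δ (X a) - NL.NN a δ (X a)‖)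
          (nhdsWithin a A) (nhds 0) := by
        have h2 := (hNN a haA).sub_const (NL.NN a δ (X a))
        rw [sub_self] at h2
        have h3 := h2.norm
        rwa [norm_zero] at h3
      have h4 := (h1.const_mul SolC).const_mul 2
      rwa [mul_zero, mul_zero] at h4
    refine squeeze_zero' (Filter.Eventually.of_forall fun h => norm_nonneg _) ?_ hlim
    filter_upwards [hnear a haA, self_mem_nhdsWithin] with h h3 h4
    have hδ1 : δ < 1 / 10 := by
      have := h4.1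
      have := h4.2.1
      have := h4.2.2
      nlinarith
    obtain ⟨hS, -, -⟩ := sol_spec hδ hδ1
    obtain ⟨n1, f1⟩ := hXspec h h4.1 h4.2.1 h4.2.2
    obtain ⟨n2, f2⟩ := hXspec a haA.1 haA.2.1 haA.2.2
    have g1 : ‖X h‖ ≤ 2 * K0 * h ^ 2 := by nlinarith [mul_nonneg hK0pos.le (sq_nonneg h)]
    have g2 : ‖X a‖ ≤ 2 * K0 * h ^ 2 := by
      have := mul_le_mul_of_nonneg_left h3 hK0pos.le
      nlinarith
    have h5 := hcon h δ h4.1 (h4.2.1.trans_le le_c) hδ h4.2.2 (X h) (X a) g1 g2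
    have h6 : X h - X a = (SolS δ (NL.NN h δ (X h)) - SolS δ (NL.NN h δ (X a))) +
        SolS δ (NL.NN h δ (X a) - NL.NN a δ (X a)) := by
      rw [map_sub, f1, f2]
      abel
    have h7 : ‖X h - X a‖ ≤ 1 / 2 * ‖X h - X a‖ + SolC * ‖NL.NN h δ (X a) - NL.NN a δ (X a)‖ := by
      calc ‖X h - X a‖ = ‖(SolS δ (NL.NN h δ (X h)) - SolS δ (NL.NN h δ (X a))) +
            SolS δ (NL.NN h δ (X a) - NL.NN a δ (X a))‖ := by rw [← h6]
        _ ≤ _ := norm_add_le _ _
        _ ≤ _ := add_le_add h5 (hS _)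
    linarith
  refine ⟨X, hXspec, ?_, ?_⟩
  · intro a haA
    have h1 := hXcont a haA
    exact tendsto_iff_norm_sub_tendsto_zero.2 h1
  · intro a haA
    refine tendsto_iff_norm_sub_tendsto_zero.2 ?_
    have hlim : Filter.Tendsto (fun h => M * h ^ 2 * ‖X h - X a‖ +
        ‖NL.NN h δ (X a) - NL.NN a δ (X a)‖) (nhdsWithin a A) (nhds 0) := by
      have h1 : Filter.Tendsto (fun h : ℝ => M * h ^ 2) (nhdsWithin a A) (nhds (M * a ^ 2)) :=
        ((by fun_prop : Continuous (fun h : ℝ => M * h ^ 2)).tendsto a).mono_left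
          nhdsWithin_le_nhds
      have h2 := h1.mul (hXcont a haA)
      rw [mul_zero] at h2
      have h3 := (hNN a haA).sub_const (NL.NN a δ (X a))
      rw [sub_self] at h3
      have h4 := h3.norm
      rw [norm_zero] at h4
      have h5 := h2.add h4
      rwa [add_zero] at h5
    refine squeeze_zero' (Filter.Eventually.of_forall fun h => norm_nonneg _) ?_ hlim
    filter_upwards [hnear a haA, self_mem_nhdsWithin] with h h3 h4
    obtain ⟨n1, f1⟩ := hXspec h h4.1 h4.2.1 h4.2.2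
    obtain ⟨n2, f2⟩ := hXspec a haA.1 haA.2.1 haA.2.2
    have g1 : ‖X h‖ ≤ 2 * K0 * h ^ 2 := by nlinarith [mul_nonneg hK0pos.le (sq_nonneg h)]
    have g2 : ‖X a‖ ≤ 2 * K0 * h ^ 2 := by
      have := mul_le_mul_of_nonneg_left h3 hK0pos.le
      nlinarith
    have h5 := (hest h δ h4.1 (h4.2.1.trans_le le_b) hδ h4.2.2).2 (X h) (X a) g1 g2
    calc ‖NL.NN h δ (X h) - NL.NN a δ (X a)‖
        = ‖(NL.NN h δ (X h) - NL.NN h δ (X a)) + (NL.NN h δ (X a) - NL.NN a δ (X a))‖ := by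
          congr 1
          abel
      _ ≤ _ := norm_add_le _ _
      _ ≤ _ := add_le_add h5 le_rfl

end
end OD16
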