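import Pool.Agent.LibOD16.Fx0

set_option autoImplicit false
namespace OD16
open MvPolynomial MeasureTheory Metric
open scoped BoundedContinuousFunction ENNReal
noncomputable section

lemma Ld2_five (F : WA) : (5 : WA) * F = (5 : ℝ) • F := by
  rw [Algebra.smul_def, map_ofNat]

/-- The decomposition of the leading part into spherical harmonics. -/
lemma Ld2_decomp (h δ : ℝ) : ∃ (f2 : Tm →ᵇ V 2) (f3 : Tm →ᵇ V 3), NL.WsM h δ 0 =
    WA.single 0 (((-(h ^ 2 / 20)) • expB : Tm →ᵇ ℝ) • BoundedContinuousFunction.const Tm c0) +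
    WA.single 1 (((h ^ 3 / 14) • expB ^ 2 - BoundedContinuousFunction.const Tm (δ * h / 2) :
      Tm →ᵇ ℝ) • BoundedContinuousFunction.const Tm (tv 0)) +
    WA.single 2 f2 + WA.single 3 f3 := by
  obtain ⟨Y2, hY2⟩ := exists_Y2
  obtain ⟨Y3, hY3⟩ := exists_Y3
  refine ⟨((-(h ^ 2 / 4)) • expB : Tm →ᵇ ℝ) • BoundedContinuousFunction.const Tm Y2,
    ((h ^ 3 / 2) • expB ^ 2 : Tm →ᵇ ℝ) • BoundedContinuousFunction.const Tm Y3, ?_⟩
  apply WA.ext_ev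
  intro t θ
  have e1 : (NL.WsM h δ 0).ev t θ.1 = -(1 / 2 * (1 / 2) * h ^ 2 * Real.exp t * θ.1 1 ^ 2) +
      1 / 2 * h ^ 3 * Real.exp t ^ 2 * θ.1 0 * θ.1 1 ^ 2 - 1 / 2 * δ * h * θ.1 0 := by
    have a1 : (NL.WsM h δ 0) =
        -(((1 / 2 : ℝ) • (1 : WA)) * ((1 / 2 : ℝ) • (1 : WA)) * (h • (1 : WA)) ^ 2 * WA.rad expB *
          WA.th 1 ^ 2) + ((1 / 2 : ℝ) • (1 : WA)) * (h • (1 : WA)) ^ 3 * WA.rad expB ^ 2 *
          WA.th 0 * WA.th 1 ^ 2 - ((1 / 2 : ℝ) • (1 : WA)) * (δ • (1 : WA)) * (h • (1 : WA)) *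
          WA.th 0 := rfl
    rw [a1, ← WA.evR_apply]
    simp only [map_add, map_sub, map_mul, map_neg, map_pow, WA.evR_apply, WA.ev_smul, WA.ev_one,
      WA.ev_rad, WA.ev_th, mul_one]
    rfl
  rw [e1, WA.ev_add, WA.ev_add, WA.ev_add, WA.ev_single, WA.ev_single, WA.ev_single, WA.ev_single]
  have b0 : ((((-(h ^ 2 / 20)) • expB : Tm →ᵇ ℝ) • BoundedContinuousFunction.const Tm c0) t) =
      (-(h ^ 2 / 20) * Real.exp t) • c0 := rfl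
  have b1 : (((h ^ 3 / 14) • expB ^ 2 - BoundedContinuousFunction.const Tm (δ * h / 2) :
      Tm →ᵇ ℝ) • BoundedContinuousFunction.const Tm (tv 0)) t =
      (h ^ 3 / 14 * Real.exp t ^ 2 - δ * h / 2) • tv 0 := rfl
  have b2 : (((-(h ^ 2 / 4)) • expB : Tm →ᵇ ℝ) • BoundedContinuousFunction.const Tm Y2) t =
      (-(h ^ 2 / 4) * Real.exp t) • Y2 := rfl
  have b3 : (((h ^ 3 / 2) • expB ^ 2 : Tm →ᵇ ℝ) • BoundedContinuousFunction.const Tm Y3) t =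
      (h ^ 3 / 2 * Real.exp t ^ 2) • Y3 := rfl
  rw [b0, b1, b2, b3, V.ev_smul, V.ev_smul, V.ev_smul, V.ev_smul, c0_ev, tv_ev]
  have c2 := hY2 θ
  have c3 := hY3 θ
  have c2' : Y2.ev θ.1 = θ.1 1 ^ 2 - 1 / 5 := by linarith
  have c3' : Y3.ev θ.1 = θ.1 0 * θ.1 1 ^ 2 - θ.1 0 / 7 := by linarith
  rw [c2', c3']
  ring

/-- TASK Ld2.  Components of degrees 1 and 0 of the leading part:
`WsM = -(h²/4) r θ_1² + (h³/2) r² θ_0 θ_1² - (δ h/2) θ_0`, `θ_1² = 1/5 + Y2`,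
`θ_0 θ_1² = θ_0/7 + Y3` (`exists_Y2`, `exists_Y3`; equalities in `WA` by `WA.ext_ev`). -/
lemma WsM_c_one (h δ : ℝ) (t : Tm) : (NL.WsM h δ 0).c 1 t =
    (h ^ 3 / 14 * Real.exp t ^ 2 - δ * h / 2) • tv 0 := by
  obtain ⟨f2, f3, hf⟩ := Ld2_decomp h δ
  rw [hf, WA.c_add, WA.c_add, WA.c_add, WA.c_single_ne (by norm_num), WA.c_single_same,
    WA.c_single_ne (by norm_num), WA.c_single_ne (by norm_num), zero_add, add_zero, add_zero]
  rfl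

lemma WsM_c_zero (h δ : ℝ) (t : Tm) : (NL.WsM h δ 0).c 0 t =
    (-(h ^ 2 / 20) * Real.exp t) • c0 := by
  obtain ⟨f2, f3, hf⟩ := Ld2_decomp h δ
  rw [hf, WA.c_add, WA.c_add, WA.c_add, WA.c_single_same, WA.c_single_ne (by norm_num),
    WA.c_single_ne (by norm_num), WA.c_single_ne (by norm_num), add_zero, add_zero, add_zero]
  rfl

/-- The sources `NNM`: `ϖ e'_l = -r (WsM)_l`, `ϖ R'_l = 5 r (WsM)_l`. -/
lemma NNM_e {h δ : ℝ} (hδ : 0 < δ) (l : ℕ) (t : Tm) :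
    vp δ t • (NL.NNM h δ).1.c l t = -(Real.exp t • (NL.WsM h δ 0).c l t) := by
  have h1 : (NL.NNM h δ).1 = -(WA.rad (om1B δ) * NL.WsM h δ 0) := rfl
  have h2 : om1B δ t = Real.exp t / vp |δ| t := rfl
  have h3 := (vp_abs_pos δ t).ne'
  rw [abs_of_pos hδ] at h2 h3
  rw [h1, WA.c_neg]
  show vp δ t • (-((WA.rad (om1B δ) * NL.WsM h δ 0).c l t)) = _
  rw [WA.c_rad_mul, smul_neg, smul_smul, h2, mul_div_cancel₀ _ h3]

lemma NNM_R {h δ : ℝ} (hδ : 0 < δ) (l : ℕ) (t : Tm) :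
    vp δ t • (NL.NNM h δ).2.2.1.c l t = (5 * Real.exp t) • (NL.WsM h δ 0).c l t := by
  have h1 : (NL.NNM h δ).2.2.1 = (5 : WA) * WA.rad (om1B δ) * NL.WsM h δ 0 := rfl
  have h2 : om1B δ t = Real.exp t / vp |δ| t := rfl
  have h3 := (vp_abs_pos δ t).ne'
  rw [abs_of_pos hδ] at h2 h3
  rw [h1, mul_assoc, Ld2_five, WA.c_smul]
  show vp δ t • ((5 : ℝ) • ((WA.rad (om1B δ) * NL.WsM h δ 0).c l t)) = _
  rw [WA.c_rad_mul, smul_smul, smul_smul, h2]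
  congr 1
  field_simp

end
end OD16
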