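import Pool.Agent.LibOD16.Ld1
import Pool.Agent.LibOD16.Ld2

set_option autoImplicit false
namespace OD16
open MvPolynomial MeasureTheory Metric
open scoped BoundedContinuousFunction ENNReal
noncomputable section

lemma Ld3_Dv_zero (l : ℕ) (t : Tm) : Dv (fun _ => (0 : WA)) l t = 0 := by
  cases l with
  | zero => rfl
  | succ l =>
    show ((l : ℝ) + 1) • ∑ i, dn i (l + 1) (0 : V (l + 2))
      - ((l : ℝ) + 4) • ∑ i, up i l (0 : V l) = 0
    simp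

/-- the `f` of the leading sources -/
lemma Ld3_f {h δ : ℝ} (hδ : 0 < δ) (l : ℕ) : ∃ f : Tm →ᵇ V l,
    (∀ t, ((l : ℝ) + 3) • f t = Dv (NL.NNM h δ).2.1 l t + (NL.NNM h δ).2.2.1.c l t) ∧
    ∀ t : Tm, ((l : ℝ) + 3) • (vp δ t • f t) = (5 * Real.exp t) • (NL.WsM h δ 0).c l t := by
  obtain ⟨f, hf⟩ := exists_fl (NL.NNM h δ).2.1 (NL.NNM h δ).2.2.1 l
  refine ⟨f, hf, fun t => ?_⟩
  rw [smul_comm, hf t]
  have h1 : Dv (NL.NNM h δ).2.1 l t = 0 := Ld3_Dv_zero l t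
  rw [h1, zero_add]
  exact NNM_R hδ l t

/-- TASK Ld3.  The response of the solver to the leading sources, `q = 1/(1-δ)`
(`LinSol.isSol` in degrees 1 and 0, `Ld1`, `Ld2`, `IsSol.unique`; `Y = tv 0`, resp. `c0`). -/
theorem SolL_NNM {h δ : ℝ} (hδ : 0 < δ) (hδ1 : δ < 1 / 10) : SolL δ (NL.NNM h δ) =
    (h ^ 3 / 14 * ((1 / (1 - δ)) * 3 / (8 + 1 / (1 - δ))) -
      δ * h / 2 * ((1 / (1 - δ)) / (6 + 1 / (1 - δ)))) • tv 0 := by
  have hlin := (sol_spec hδ hδ1).2.2 (NL.NNM h δ)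
  obtain ⟨f, hf1, hf2⟩ := Ld3_f (h := h) hδ 1
  have hsol := LinSol.isSol hlin 1 f hf1
  -- the two pieces of the sources
  set e := (NL.NNM h δ).1.c 1 with he
  have he1 : ∀ t : Tm, vp δ t • e t = -(Real.exp t • (NL.WsM h δ 0).c 1 t) := fun t => NNM_e hδ 1 t
  have hom : ∀ t : Tm, vp δ t * om1B δ t = Real.exp t := by
    intro t
    have h2 : om1B δ t = Real.exp t / vp |δ| t := rfl
    have h3 := (vp_abs_pos δ t).ne'
    rw [abs_of_pos hδ] at h2 h3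
    rw [h2, mul_div_cancel₀ _ h3]
  set e3 : Tm →ᵇ V 1 := ((-(h ^ 3 / 14)) • (om1B δ * expB ^ 2) : Tm →ᵇ ℝ) •
    BoundedContinuousFunction.const Tm (tv 0) with he3
  set f3 : Tm →ᵇ V 1 := ((5 * (h ^ 3 / 14) / 4) • (om1B δ * expB ^ 2) : Tm →ᵇ ℝ) •
    BoundedContinuousFunction.const Tm (tv 0) with hf3
  have he3a : ∀ t : Tm, e3 t = (-(h ^ 3 / 14) * (om1B δ t * Real.exp t ^ 2)) • tv 0 :=
    fun t => rfl
  have hf3a : ∀ t : Tm, f3 t = (5 * (h ^ 3 / 14) / 4 * (om1B δ t * Real.exp t ^ 2)) • tv 0 :=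
    fun t => rfl
  have hE3 : ∀ t : Tm, vp δ t • e3 t = -(h ^ 3 / 14 * Real.exp t ^ 3) • tv 0 := by
    intro t
    rw [he3a, smul_smul]
    congr 1
    linear_combination (-(h ^ 3 / 14) * Real.exp t ^ 2) * hom t
  have hF3 : ∀ t : Tm, (((1 : ℕ) : ℝ) + 3) • (vp δ t • f3 t) =
      (5 * (h ^ 3 / 14) * Real.exp t ^ 3) • tv 0 := by
    intro t
    rw [hf3a, smul_smul, smul_smul]
    congr 1
    push_cast
    linear_combination (5 * (h ^ 3 / 14) * Real.exp t ^ 2) * hom t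
  have hE1 : ∀ t : Tm, vp δ t • (e - e3) t = -(-(δ * h / 2) * Real.exp t ^ 1) • tv 0 := by
    intro t
    show vp δ t • (e t - e3 t) = _
    rw [smul_sub, he1, hE3, WsM_c_one]
    module
  have hF1 : ∀ t : Tm, (((1 : ℕ) : ℝ) + 3) • (vp δ t • (f - f3) t) =
      (5 * (-(δ * h / 2)) * Real.exp t ^ 1) • tv 0 := by
    intro t
    show (((1 : ℕ) : ℝ) + 3) • (vp δ t • (f t - f3 t)) = _
    rw [smul_sub, smul_sub, hf2, hF3, WsM_c_one]
    module
  obtain ⟨a, a1, b, hs3, hv3⟩ := isSol_one hδ hδ1 3 (h ^ 3 / 14) (tv 0) e3 f3 hE3 hF3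
  obtain ⟨a', a1', b', hs1, hv1⟩ := isSol_one hδ hδ1 1 (-(δ * h / 2)) (tv 0) (e - e3) (f - f3)
    hE1 hF1
  have hs := IsSol.add hs3 hs1
  have g1 : e3 + (e - e3) = e := by abel
  have g2 : f3 + (f - f3) = f := by abel
  rw [g1, g2] at hs
  obtain ⟨u1, u2, -⟩ := IsSol.unique hδ hδ1 hsol hs (fun h2 => by omega)
  have hbc := hlin.bc1
  rw [u1, u2] at hbc
  have hz : (NL.NNM h δ).2.2.2.c 1 t0 = 0 := rfl
  rw [hz, zero_add] at hbc
  rw [← hbc]
  show a1 t0 + a1' t0 + (a t0 + a' t0) = _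
  have g3 : a1 t0 + a1' t0 + (a t0 + a' t0) = (a1 t0 + a t0) + (a1' t0 + a' t0) := by abel
  rw [g3, hv3, hv1, ← add_smul]
  congr 1
  push_cast
  have hq : (0 : ℝ) < 1 / (1 - δ) := one_div_pos.2 (by linarith)
  generalize 1 / (1 - δ) = q at hq ⊢
  have n1 : (8 : ℝ) + q ≠ 0 := by positivity
  have n2 : (6 : ℝ) + q ≠ 0 := by positivity
  have n3 : (3 : ℝ) + 5 + q ≠ 0 := by positivity
  have n4 : (1 : ℝ) + 5 + q ≠ 0 := by positivity
  field_simp
  ring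

theorem SolS_NNM {h δ : ℝ} (hδ : 0 < δ) (hδ1 : δ < 1 / 10) : (SolS δ (NL.NNM h δ)).1 =
    -(h ^ 2 / 20) * ((1 / (1 - δ)) * 6 / (7 * (3 + 1 / (1 - δ)))) := by
  have hlin := (sol_spec hδ hδ1).2.2 (NL.NNM h δ)
  obtain ⟨f, hf1, hf2⟩ := Ld3_f (h := h) hδ 0
  have hsol := LinSol.isSol hlin 0 f hf1
  have hE : ∀ t : Tm, vp δ t • (NL.NNM h δ).1.c 0 t =
      -(-(h ^ 2 / 20) * Real.exp t ^ 2) • c0 := by
    intro t
    rw [NNM_e hδ, WsM_c_zero]
    module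
  have hF : ∀ t : Tm, (((0 : ℕ) : ℝ) + 3) • (vp δ t • f t) =
      (5 * (-(h ^ 2 / 20)) * Real.exp t ^ 2) • c0 := by
    intro t
    rw [hf2, WsM_c_zero]
    module
  obtain ⟨a, a1, b, hs, hv⟩ := isSol_zero hδ hδ1 2 (-(h ^ 2 / 20)) c0 _ f hE hF
  obtain ⟨u1, u2, -⟩ := IsSol.unique hδ hδ1 hsol hs (fun h2 => by omega)
  have hbc := hlin.bc0
  rw [u1, u2, hv] at hbc
  have hz : (NL.NNM h δ).2.2.2.c 0 t0 = 0 := rfl
  rw [hz, zero_add] at hbc
  have hc0 : c0 ≠ 0 := by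
    intro h
    have h1 := c0_ev (0 : E5)
    rw [h, V.ev_zero] at h1
    exact zero_ne_one h1
  have h3 := smul_left_injective ℝ hc0 hbc
  rw [← h3]
  push_cast
  have hq : (0 : ℝ) < 1 / (1 - δ) := one_div_pos.2 (by linarith)
  generalize 1 / (1 - δ) = q at hq ⊢
  have n1 : (3 : ℝ) + q ≠ 0 := by positivity
  have n2 : (2 : ℝ) + 1 + q ≠ 0 := by positivity
  field_simp
  ring

/-- Consequence: leading order for the solution branch. -/
theorem lead_est (K : ℝ) : ∃ M h0 : ℝ, 0 < M ∧ 0 < h0 ∧ ∀ h δ, 0 < h → h < h0 → 0 < δ →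
    δ ≤ h ^ 2 → ∀ x : XS, ‖x‖ ≤ K * h ^ 2 → SolS δ (NL.NN h δ x) = x →
      ‖SolL δ (NL.NN h δ x) - (h ^ 3 / 42 - δ * h / 14) • tv 0‖ ≤ M * h ^ 4 ∧
      |x.1 + 3 * h ^ 2 / 280| ≤ M * h ^ 4 := by
  obtain ⟨M1, h1, hM1, hh1, hest⟩ := nn_est K
  obtain ⟨M2, h2, hM2, hh2, hnnm⟩ := nnm_bound
  have hC := SolC_pos
  refine ⟨SolC * (M1 + M2) + 2 * ‖tv 0‖ + 1, min h1 (min h2 (1 / 10)), by positivity,
    lt_min hh1 (lt_min hh2 (by norm_num)), ?_⟩
  intro h δ hh hlt hδ hδh x hx hfix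
  have l1 : h < h1 := hlt.trans_le (min_le_left _ _)
  have l2 : h < h2 := hlt.trans_le ((min_le_right _ _).trans (min_le_left _ _))
  have l3 : h < 1 / 10 := hlt.trans_le ((min_le_right _ _).trans (min_le_right _ _))
  have hδ1 : δ < 1 / 10 := by nlinarith
  obtain ⟨hS, hL, -⟩ := sol_spec hδ hδ1
  have e1 := (hest h δ hh l1 hδ hδh).1 x hx
  have e2 := hnnm h δ hh l2 hδ hδh
  have e3 : ‖NL.NN h δ x - NL.NNM h δ‖ ≤ (M1 + M2) * h ^ 4 := by
    have h5 : NL.NN h δ x - NL.NNM h δ =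
        (NL.NN h δ x - NL.NN0 h δ) + (NL.NN0 h δ - NL.NNM h δ) := by abel
    rw [h5]
    refine (norm_add_le _ _).trans ?_
    rw [add_mul]
    exact add_le_add e1 e2
  have hq1 : (1 : ℝ) ≤ 1 / (1 - δ) := by
    rw [le_div_iff₀ (by linarith)]
    linarith
  have hq2 : 1 / (1 - δ) - 1 ≤ 2 * h ^ 2 := by
    have h6 : 1 / (1 - δ) - 1 = δ / (1 - δ) := by
      have : (1 - δ) ≠ 0 := by linarith
      field_simp
      ring
    rw [h6, div_le_iff₀ (by linarith)]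
    nlinarith
  have hh1' : h ≤ 1 := by linarith
  have h4pos : 0 < h ^ 4 := by positivity
  have h54 : h ^ 5 ≤ h ^ 4 := by
    have : h ^ 5 = h ^ 4 * h := by ring
    nlinarith
  constructor
  · have s1 : ‖SolL δ (NL.NN h δ x) - SolL δ (NL.NNM h δ)‖ ≤ SolC * ((M1 + M2) * h ^ 4) := by
      rw [← map_sub]
      exact (hL _).trans (mul_le_mul_of_nonneg_left e3 hC.le)
    have s2 : ‖SolL δ (NL.NNM h δ) - (h ^ 3 / 42 - δ * h / 14) • tv 0‖ ≤
        2 * h ^ 4 * ‖tv 0‖ := by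
      rw [SolL_NNM hδ hδ1, ← sub_smul, norm_smul]
      refine mul_le_mul_of_nonneg_right ?_ (norm_nonneg _)
      rw [Real.norm_eq_abs]
      generalize 1 / (1 - δ) = q at hq1 hq2 ⊢
      have g1 : q * 3 / (8 + q) - 1 / 3 = 8 * (q - 1) / (3 * (8 + q)) := by
        have : (8 : ℝ) + q ≠ 0 := by positivity
        field_simp
        ring
      have g2 : q / (6 + q) - 1 / 7 = 6 * (q - 1) / (7 * (6 + q)) := by
        have : (6 : ℝ) + q ≠ 0 := by positivity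
        field_simp
        ring
      have g1a : 0 ≤ q * 3 / (8 + q) - 1 / 3 := by
        rw [g1]
        exact div_nonneg (by linarith) (by linarith)
      have g1b : q * 3 / (8 + q) - 1 / 3 ≤ q - 1 := by
        rw [g1, div_le_iff₀ (by linarith)]
        nlinarith
      have g2a : 0 ≤ q / (6 + q) - 1 / 7 := by
        rw [g2]
        exact div_nonneg (by linarith) (by linarith)
      have g2b : q / (6 + q) - 1 / 7 ≤ q - 1 := by
        rw [g2, div_le_iff₀ (by linarith)]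
        nlinarith
      have g3 : h ^ 3 / 14 * (q * 3 / (8 + q)) - δ * h / 2 * (q / (6 + q)) -
          (h ^ 3 / 42 - δ * h / 14) = h ^ 3 / 14 * (q * 3 / (8 + q) - 1 / 3) -
          δ * h / 2 * (q / (6 + q) - 1 / 7) := by ring
      rw [g3]
      have k1 : 0 ≤ h ^ 3 / 14 := by positivity
      have k2 : 0 ≤ δ * h / 2 := by positivity
      have k3 : h ^ 3 / 14 * (q * 3 / (8 + q) - 1 / 3) ≤ h ^ 3 / 14 * (2 * h ^ 2) :=
        mul_le_mul_of_nonneg_left (by linarith) k1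
      have k4 : δ * h / 2 * (q / (6 + q) - 1 / 7) ≤ δ * h / 2 * (2 * h ^ 2) :=
        mul_le_mul_of_nonneg_left (by linarith) k2
      have k5 : δ * h / 2 * (2 * h ^ 2) ≤ h ^ 5 := by
        have : δ * h / 2 * (2 * h ^ 2) = δ * h ^ 3 := by ring
        rw [this]
        have h7 : h ^ 5 = h ^ 2 * h ^ 3 := by ring
        rw [h7]
        exact mul_le_mul_of_nonneg_right hδh (by positivity)
      have k6 : h ^ 3 / 14 * (2 * h ^ 2) ≤ h ^ 5 := by
        have : h ^ 3 / 14 * (2 * h ^ 2) = h ^ 5 / 7 := by ring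
        rw [this]
        have : 0 ≤ h ^ 5 := by positivity
        linarith
      rw [abs_le]
      have k7 := mul_nonneg k1 g1a
      have k8 := mul_nonneg k2 g2a
      constructor <;> linarith
    calc ‖SolL δ (NL.NN h δ x) - (h ^ 3 / 42 - δ * h / 14) • tv 0‖
        = ‖(SolL δ (NL.NN h δ x) - SolL δ (NL.NNM h δ)) +
            (SolL δ (NL.NNM h δ) - (h ^ 3 / 42 - δ * h / 14) • tv 0)‖ := by
          congr 1
          abel
      _ ≤ SolC * ((M1 + M2) * h ^ 4) + 2 * h ^ 4 * ‖tv 0‖ :=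
          (norm_add_le _ _).trans (add_le_add s1 s2)
      _ ≤ (SolC * (M1 + M2) + 2 * ‖tv 0‖ + 1) * h ^ 4 := by nlinarith
  · have s1 : |x.1 - (SolS δ (NL.NNM h δ)).1| ≤ SolC * ((M1 + M2) * h ^ 4) := by
      have s3 : ‖SolS δ (NL.NN h δ x - NL.NNM h δ)‖ ≤ SolC * ((M1 + M2) * h ^ 4) :=
        (hS _).trans (mul_le_mul_of_nonneg_left e3 hC.le)
      have s4 : x.1 - (SolS δ (NL.NNM h δ)).1 = (SolS δ (NL.NN h δ x - NL.NNM h δ)).1 := by
        rw [map_sub, hfix]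
        rfl
      rw [s4, ← Real.norm_eq_abs]
      exact (norm_fst_le _).trans s3
    have s2 : |(SolS δ (NL.NNM h δ)).1 + 3 * h ^ 2 / 280| ≤ h ^ 4 := by
      rw [SolS_NNM hδ hδ1]
      generalize 1 / (1 - δ) = q at hq1 hq2 ⊢
      have g1 : q * 6 / (7 * (3 + q)) - 3 / 14 = 9 * (q - 1) / (14 * (3 + q)) := by
        have : (3 : ℝ) + q ≠ 0 := by positivity
        field_simp
        ring
      have g1a : 0 ≤ q * 6 / (7 * (3 + q)) - 3 / 14 := by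
        rw [g1]
        exact div_nonneg (by linarith) (by linarith)
      have g1b : q * 6 / (7 * (3 + q)) - 3 / 14 ≤ q - 1 := by
        rw [g1, div_le_iff₀ (by linarith)]
        nlinarith
      have g3 : -(h ^ 2 / 20) * (q * 6 / (7 * (3 + q))) + 3 * h ^ 2 / 280 =
          -(h ^ 2 / 20 * (q * 6 / (7 * (3 + q)) - 3 / 14)) := by ring
      rw [g3, abs_neg, abs_of_nonneg (mul_nonneg (by positivity) g1a)]
      calc h ^ 2 / 20 * (q * 6 / (7 * (3 + q)) - 3 / 14) ≤ h ^ 2 / 20 * (2 * h ^ 2) :=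
            mul_le_mul_of_nonneg_left (by linarith) (by positivity)
        _ ≤ h ^ 4 := by nlinarith
    have s5 : x.1 + 3 * h ^ 2 / 280 = (x.1 - (SolS δ (NL.NNM h δ)).1) +
        ((SolS δ (NL.NNM h δ)).1 + 3 * h ^ 2 / 280) := by ring
    rw [s5]
    refine (abs_add_le _ _).trans ((add_le_add s1 s2).trans ?_)
    have := norm_nonneg (tv 0)
    nlinarith [mul_nonneg this h4pos.le]

end
end OD16
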