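import Pool.Agent.LibOD16.Fx1
import Pool.Agent.LibOD16.Ld3
import Pool.Agent.LibOD16.EqMain

set_option autoImplicit false
namespace OD16
open MvPolynomial MeasureTheory Metric
open scoped BoundedContinuousFunction ENNReal
noncomputable section

private lemma fx2_choice (K M ε h0 h1 h2 h3 : ℝ) (hε : 0 < ε) (hh0 : 0 < h0) (hh1 : 0 < h1)
    (hh2 : 0 < h2) (hh3 : 0 < h3) : ∃ B : ℝ, 0 < B ∧ B < h0 ∧ B < h1 ∧ B < h2 ∧ B < h3 ∧ B < ε ∧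
      K * B < ε ∧ M * B < 1 / 420 ∧ M * B ^ 2 < ε ∧ B < 1 / 10 := by
  have ev : ∀ c : ℝ, 0 < c → ∀ᶠ B in nhdsWithin (0 : ℝ) (Set.Ioi 0), B < c := fun c hc =>
    Filter.Eventually.filter_mono nhdsWithin_le_nhds (eventually_lt_nhds hc)
  have ev2 : ∀ a c : ℝ, 0 < c → ∀ᶠ B in nhdsWithin (0 : ℝ) (Set.Ioi 0), a * B < c := by
    intro a c hc
    have ht : Filter.Tendsto (fun B : ℝ => a * B) (nhds 0) (nhds 0) := by
      have hc : Continuous (fun B : ℝ => a * B) := by fun_prop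
      exact hc.tendsto' 0 0 (mul_zero a)
    exact Filter.Eventually.filter_mono nhdsWithin_le_nhds (ht.eventually_lt_const hc)
  have ev3 : ∀ a c : ℝ, 0 < c → ∀ᶠ B in nhdsWithin (0 : ℝ) (Set.Ioi 0), a * B ^ 2 < c := by
    intro a c hc
    have ht : Filter.Tendsto (fun B : ℝ => a * B ^ 2) (nhds 0) (nhds 0) := by
      have hc : Continuous (fun B : ℝ => a * B ^ 2) := by fun_prop
      exact hc.tendsto' 0 0 (by ring)
    exact Filter.Eventually.filter_mono nhdsWithin_le_nhds (ht.eventually_lt_const hc)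
  have ev0 : ∀ᶠ B in nhdsWithin (0 : ℝ) (Set.Ioi 0), 0 < B := self_mem_nhdsWithin
  obtain ⟨B, hB⟩ := (ev0.and ((ev h0 hh0).and ((ev h1 hh1).and ((ev h2 hh2).and ((ev h3 hh3).and
    ((ev ε hε).and ((ev2 K ε hε).and ((ev2 M (1 / 420) (by norm_num)).and
    ((ev3 M ε hε).and (ev (1 / 10) (by norm_num))))))))))).exists
  exact ⟨B, hB⟩

/-- TASK Fx2.  Choice of `h`: for `δ` small the coefficient `c(h)` of `Λ = c(h) θ_0` (`Fix.sym`) is a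
continuous function of `h` on `[√(δ/0.4), √(δ/0.3)]`, negative at the left end
(`δ = 0.4 h²`: `h³/42 - δh/14 = -0.2 h³/42`), positive at the right end (`0.1 h³/42`);
intermediate value theorem.  The final `h` can be made as small as we like. -/
theorem exists_final (ε : ℝ) (hε : 0 < ε) : ∃ K h δ : ℝ, 0 < h ∧ h < ε ∧ K * h < ε ∧
    3 / 10 * h ^ 2 ≤ δ ∧ δ ≤ 4 / 10 * h ^ 2 ∧ ∃ (x : XS) (b : WA), Fix K h δ x b 0 ∧
      |x.1 + 3 * h ^ 2 / 280| ≤ ε * h ^ 2 ∧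
      (∀ (a : ℝ) (t : Tm) (θ : S4), x.2.1.ev t (rot23 a θ.1) = x.2.1.ev t θ.1) ∧
      Evl h δ x := by
  obtain ⟨K0, h0, hK0, hh0, hh0', hbr⟩ := exists_branch
  obtain ⟨M, h1, hM, hh1, hlead⟩ := lead_est K0
  obtain ⟨h2, hh2, hevl⟩ := evl K0
  obtain ⟨h3, hh3, hsym⟩ := Fix.sym K0
  obtain ⟨B, hB, hB0, hB1, hB2, hB3, hBε, hBK, hBM, hBM2, hB10⟩ :=
    fx2_choice K0 M ε h0 h1 h2 h3 hε hh0 hh1 hh2 hh3
  obtain ⟨s, hs0, hs1, hs2⟩ : ∃ s : ℝ, 0 < s ∧ s ≤ 1 ∧ s ^ 2 = 3 / 4 := by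
    refine ⟨Real.sqrt (3 / 4), Real.sqrt_pos.2 (by norm_num), ?_, Real.sq_sqrt (by norm_num)⟩
    rw [Real.sqrt_le_one]
    norm_num
  obtain ⟨A, hA⟩ : ∃ A : ℝ, A = s * B := ⟨_, rfl⟩
  obtain ⟨δ, hδ⟩ : ∃ δ : ℝ, δ = 3 / 10 * B ^ 2 := ⟨_, rfl⟩
  have hA0 : 0 < A := by
    rw [hA]
    positivity
  have hAB : A ≤ B := by
    rw [hA]
    nlinarith
  have hA2 : A ^ 2 = 3 / 4 * B ^ 2 := by
    rw [hA, mul_pow, hs2]
  have hδA : δ = 4 / 10 * A ^ 2 := by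
    rw [hA2, hδ]
    ring
  have hδ0 : 0 < δ := by
    rw [hδ]
    positivity
  have hδ1 : δ < 1 / 10 := by
    rw [hδ]
    nlinarith
  obtain ⟨X, hX, hXc, hNc⟩ := hbr δ hδ0
  -- properties of the points of `[A, B]`
  have hpt : ∀ h ∈ Set.Icc A B, 0 < h ∧ h < h0 ∧ h < h1 ∧ h < h2 ∧ h < h3 ∧ δ ≤ h ^ 2 ∧
      3 / 10 * h ^ 2 ≤ δ ∧ δ ≤ 4 / 10 * h ^ 2 := by
    intro h hh
    have h4 : 0 < h := lt_of_lt_of_le hA0 hh.1
    have h5 : A ^ 2 ≤ h ^ 2 := pow_le_pow_left₀ hA0.le hh.1 2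
    have h6 : h ^ 2 ≤ B ^ 2 := pow_le_pow_left₀ h4.le hh.2 2
    have h7 : 0 < h ^ 2 := by positivity
    refine ⟨h4, lt_of_le_of_lt hh.2 hB0, lt_of_le_of_lt hh.2 hB1, lt_of_le_of_lt hh.2 hB2,
      lt_of_le_of_lt hh.2 hB3, ?_, ?_, ?_⟩
    · rw [hδA]
      linarith
    · rw [hδ]
      linarith
    · rw [hδA]
      linarith
  have hfix : ∀ h ∈ Set.Icc A B, Fix K0 h δ (X h) (SolB δ (NL.NN h δ (X h)))
      (SolL δ (NL.NN h δ (X h))) := by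
    intro h hh
    obtain ⟨h4, h5, h6, h7, h8, h9, h10, h11⟩ := hpt h hh
    obtain ⟨h12, h13⟩ := hX h h4 h5 h9
    exact Fix.of_eq hδ0 hδ1 h12 h13
  -- the functional
  let e0 : S4 := ⟨EuclideanSpace.single 0 1, by simp⟩
  let φ : V 1 →L[ℝ] ℝ := (V.evL 1 e0.1).mkContinuous 1 (by
    intro P
    rw [one_mul, Real.norm_eq_abs]
    exact V.abs_ev_le P e0)
  have hφ : ∀ P : V 1, φ P = P.ev e0.1 := fun P => rfl
  have hφ1 : φ (tv 0) = 1 := by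
    rw [hφ, tv_ev]
    simp [e0]
  have hφn : ∀ P : V 1, |φ P| ≤ ‖P‖ := fun P => V.abs_ev_le P e0
  let f : ℝ → ℝ := fun h => φ (SolL δ (NL.NN h δ (X h)))
  have hfc : ContinuousOn f (Set.Icc A B) := by
    refine (φ.comp (SolL δ)).continuous.comp_continuousOn (hNc.mono ?_)
    intro h hh
    obtain ⟨h4, h5, h6, h7, h8, h9, h10, h11⟩ := hpt h hh
    exact ⟨h4, h5, h9⟩
  have hfe : ∀ h ∈ Set.Icc A B, |f h - (h ^ 3 / 42 - δ * h / 14)| ≤ M * h ^ 4 := by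
    intro h hh
    obtain ⟨h4, h5, h6, h7, h8, h9, h10, h11⟩ := hpt h hh
    obtain ⟨h12, h13⟩ := hX h h4 h5 h9
    have h14 := (hlead h δ h4 h6 hδ0 h9 (X h) h12 h13).1
    have h15 := hφn (SolL δ (NL.NN h δ (X h)) - (h ^ 3 / 42 - δ * h / 14) • tv 0)
    rw [map_sub, map_smul, hφ1, smul_eq_mul, mul_one] at h15
    exact h15.trans h14
  have hfA : f A ≤ 0 := by
    have h4 := (abs_le.1 (hfe A ⟨le_rfl, hAB⟩)).2
    have h5 : A ^ 3 / 42 - δ * A / 14 = -(A ^ 3 / 210) := by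
      rw [hδA]
      ring
    rw [h5] at h4
    have h6 : M * A ^ 4 = (M * A) * A ^ 3 := by ring
    have h7 : M * A ≤ 1 / 420 := by
      have h8 : M * A ≤ M * B := mul_le_mul_of_nonneg_left hAB hM.le
      linarith
    have h8 : (M * A) * A ^ 3 ≤ 1 / 420 * A ^ 3 := mul_le_mul_of_nonneg_right h7 (by positivity)
    have h9 : 0 < A ^ 3 := by positivity
    linarith
  have hfB : 0 ≤ f B := by
    have h4 := (abs_le.1 (hfe B ⟨hAB, le_rfl⟩)).1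
    have h5 : B ^ 3 / 42 - δ * B / 14 = B ^ 3 / 420 := by
      rw [hδ]
      ring
    rw [h5] at h4
    have h6 : M * B ^ 4 = (M * B) * B ^ 3 := by ring
    have h8 : (M * B) * B ^ 3 ≤ 1 / 420 * B ^ 3 := mul_le_mul_of_nonneg_right hBM.le (by positivity)
    have h9 : 0 < B ^ 3 := by positivity
    linarith
  obtain ⟨h, hh, hf0⟩ := intermediate_value_Icc hAB hfc ⟨hfA, hfB⟩
  obtain ⟨h4, h5, h6, h7, h8, h9, h10, h11⟩ := hpt h hh
  obtain ⟨h12, h13⟩ := hX h h4 h5 h9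
  have hF := hfix h hh
  obtain ⟨⟨c, hc⟩, hrot⟩ := hsym h δ h4 h8 hδ0 h9 _ _ _ hF
  have hc0 : SolL δ (NL.NN h δ (X h)) = 0 := by
    have h14 : f h = c := by
      change φ (SolL δ (NL.NN h δ (X h))) = c
      rw [hc, map_smul, hφ1, smul_eq_mul, mul_one]
    rw [hc, ← h14, hf0, zero_smul]
  refine ⟨K0, h, δ, h4, lt_of_le_of_lt hh.2 hBε, ?_, h10, h11, X h,
    SolB δ (NL.NN h δ (X h)), ?_, ?_, hrot, ?_⟩
  · exact lt_of_le_of_lt (mul_le_mul_of_nonneg_left hh.2 hK0.le) hBK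
  · rw [hc0] at hF
    exact hF
  · have h14 := (hlead h δ h4 h6 hδ0 h9 (X h) h12 h13).2
    refine h14.trans ?_
    have h15 : M * h ^ 4 = (M * h ^ 2) * h ^ 2 := by ring
    rw [h15]
    refine mul_le_mul_of_nonneg_right ?_ (by positivity)
    have h16 : h ^ 2 ≤ B ^ 2 := pow_le_pow_left₀ h4.le hh.2 2
    have h17 : M * h ^ 2 ≤ M * B ^ 2 := mul_le_mul_of_nonneg_left h16 hM.le
    linarith
  · exact hevl h δ h4 h7 hδ0 h9 (X h) h12

end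
end OD16
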