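import Pool.Agent.LibOD16.Harm2
import Pool.Agent.LibOD16.HarmNorm

set_option autoImplicit false
namespace OD16
open MvPolynomial MeasureTheory Metric
noncomputable section

private lemma Sum_lap (P : Pol) : lap P = ∑ i : Fin 5, pderiv i (pderiv i P) := by
  unfold lap
  rw [LinearMap.sum_apply]
  rfl

private lemma Sum_euler {l : ℕ} {P : Pol} (hP : P.IsHomogeneous l) :
    ∑ i : Fin 5, X i * pderiv i P = (l : ℝ) • P := by
  rw [hP.sum_X_mul_pderiv, Nat.cast_smul_eq_nsmul]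

private lemma Sum_pderiv_X_mul (P : Pol) :
    ∑ i : Fin 5, pderiv i (X i * P) = (5 : ℝ) • P + ∑ i : Fin 5, X i * pderiv i P := by
  have h1 : ∀ i : Fin 5, pderiv i (X i * P) = P + X i * pderiv i P := by
    intro i
    rw [Derivation.leibniz, pderiv_X_self, smul_eq_mul, smul_eq_mul, mul_one, add_comm]
  rw [Finset.sum_congr rfl fun i _ => h1 i, Finset.sum_add_distrib, Finset.sum_const,
    Finset.card_univ, Fintype.card_fin]
  congr 1
  rw [← Nat.cast_smul_eq_nsmul ℝ]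
  norm_num

private lemma Sum_pderiv_nsq (i : Fin 5) : pderiv i nsq = 2 * X i := by
  unfold nsq
  rw [map_sum, Finset.sum_eq_single i]
  · rw [Derivation.leibniz_pow, pderiv_X_self, pow_one, smul_eq_mul, mul_one, two_smul, two_mul]
  · intro j _ hj
    rw [Derivation.leibniz_pow, pderiv_X_of_ne hj, smul_zero, smul_zero]
  · intro h
    exact absurd (Finset.mem_univ i) h

private lemma Sum_pderiv_nsq_mul {P : Pol} :
    ∑ i : Fin 5, pderiv i (nsq * pderiv i P) =
      (2 : ℝ) • (∑ i : Fin 5, X i * pderiv i P) + nsq * lap P := by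
  have h1 : ∀ i : Fin 5, pderiv i (nsq * pderiv i P) =
      (2 : ℝ) • (X i * pderiv i P) + nsq * pderiv i (pderiv i P) := by
    intro i
    rw [Derivation.leibniz, Sum_pderiv_nsq, smul_eq_mul, smul_eq_mul, add_comm,
      ← C_mul']
    congr 1
    have : (C (2 : ℝ) : Pol) = 2 := map_ofNat C 2
    rw [this]
    ring
  rw [Finset.sum_congr rfl fun i _ => h1 i, Finset.sum_add_distrib, ← Finset.smul_sum,
    ← Finset.mul_sum, ← Sum_lap]

private lemma Sum_pol {l : ℕ} (f : Fin 5 → V l) : (∑ i, f i).pol = ∑ i, (f i).pol :=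
  map_sum (V.polL l) f Finset.univ

private lemma Sum_div_up {l : ℕ} (P : V l) :
    ∑ i : Fin 5, pderiv i (upPol i l P.pol) =
      ((2 * (l : ℝ) + 5) * ((l + 3) / (2 * l + 3))) • P.pol := by
  have h1 : ∀ i : Fin 5, pderiv i (upPol i l P.pol) = pderiv i (X i * P.pol) -
      (2 * (l : ℝ) + 3)⁻¹ • pderiv i (nsq * pderiv i P.pol) := by
    intro i
    unfold upPol
    rw [map_sub, Derivation.map_smul]
  rw [Finset.sum_congr rfl fun i _ => h1 i, Finset.sum_sub_distrib, ← Finset.smul_sum,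
    Sum_pderiv_X_mul, Sum_pderiv_nsq_mul, Sum_euler P.hom, P.lap_eq, mul_zero, add_zero,
    smul_smul, smul_smul, ← add_smul, ← sub_smul]
  congr 1
  have h2 : (2 * (l : ℝ) + 3) ≠ 0 := by positivity
  field_simp
  ring

/-- TASK H12.  Contraction identities. -/
lemma sum_dn_up {l : ℕ} (P : V l) :
    ∑ i, dn i l (up i l P) = (((l : ℝ) + 3) / (2 * l + 3)) • P := by
  apply V.ext
  rw [Sum_pol, V.pol_smul]
  simp only [dn_pol, up_pol]
  rw [← Finset.smul_sum, Sum_div_up, smul_smul]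
  congr 1
  have h2 : (2 * (l : ℝ) + 5) ≠ 0 := by positivity
  field_simp

lemma sum_up_dn {l : ℕ} (P : V (l + 1)) :
    ∑ i, up i l (dn i l P) = (((l : ℝ) + 1) / (2 * l + 5)) • P := by
  apply V.ext
  rw [Sum_pol, V.pol_smul]
  have h1 : ∀ i : Fin 5, (up i l (dn i l P)).pol =
      (2 * (l : ℝ) + 5)⁻¹ • (X i * pderiv i P.pol) -
        ((2 * (l : ℝ) + 3)⁻¹ * (2 * (l : ℝ) + 5)⁻¹) • (nsq * pderiv i (pderiv i P.pol)) := by
    intro i
    rw [up_pol, dn_pol]
    unfold upPol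
    rw [Derivation.map_smul, mul_smul_comm, mul_smul_comm, smul_smul]
  rw [Finset.sum_congr rfl fun i _ => h1 i, Finset.sum_sub_distrib, ← Finset.smul_sum,
    ← Finset.smul_sum, ← Finset.mul_sum, ← Sum_lap, P.lap_eq, mul_zero, smul_zero, sub_zero,
    Sum_euler P.hom, smul_smul]
  congr 1
  push_cast
  have h2 : (2 * (l : ℝ) + 5) ≠ 0 := by positivity
  field_simp

lemma sum_up_up {l : ℕ} (P : V l) : ∑ i, up i (l + 1) (up i l P) = 0 := by
  apply V.ext
  rw [Sum_pol, V.pol_zero]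
  have h1 : ∀ i : Fin 5, (up i (l + 1) (up i l P)).pol =
      X i * upPol i l P.pol - (2 * ((l + 1 : ℕ) : ℝ) + 3)⁻¹ • (nsq * pderiv i (upPol i l P.pol)) := by
    intro i
    rw [up_pol, up_pol]
    rfl
  have h2 : ∀ i : Fin 5, X i * upPol i l P.pol = X i ^ 2 * P.pol -
      (2 * (l : ℝ) + 3)⁻¹ • (nsq * (X i * pderiv i P.pol)) := by
    intro i
    unfold upPol
    rw [mul_sub, mul_smul_comm]
    congr 1
    · ring
    · congr 1
      ring
  have h3 : ∑ i : Fin 5, X i * upPol i l P.pol =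
      ((l + 3) / (2 * (l : ℝ) + 3)) • (nsq * P.pol) := by
    rw [Finset.sum_congr rfl fun i _ => h2 i, Finset.sum_sub_distrib,
      ← Finset.smul_sum, ← Finset.mul_sum, ← Finset.sum_mul, Sum_euler P.hom]
    have h4 : (∑ i : Fin 5, X i ^ 2 : Pol) = nsq := rfl
    rw [h4, mul_smul_comm, smul_smul]
    have h5 : nsq * P.pol = (1 : ℝ) • (nsq * P.pol) := (one_smul ℝ _).symm
    conv_lhs => rw [h5]
    rw [smul_smul, ← sub_smul]
    congr 1
    have h6 : (2 * (l : ℝ) + 3) ≠ 0 := by positivity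
    field_simp
    ring
  rw [Finset.sum_congr rfl fun i _ => h1 i, Finset.sum_sub_distrib, ← Finset.smul_sum,
    ← Finset.mul_sum, Sum_div_up, h3, mul_smul_comm, smul_smul, ← sub_smul]
  have h7 : (l + 3) / (2 * (l : ℝ) + 3) - (2 * ((l + 1 : ℕ) : ℝ) + 3)⁻¹ *
      ((2 * (l : ℝ) + 5) * ((l + 3) / (2 * l + 3))) = 0 := by
    push_cast
    have h8 : (2 * ((l : ℝ) + 1) + 3) ≠ 0 := by positivity
    have h9 : (2 * (l : ℝ) + 3) ≠ 0 := by positivity
    field_simp
    ring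
  rw [h7, zero_smul]

lemma sum_dn_dn {l : ℕ} (P : V (l + 2)) : ∑ i, dn i l (dn i (l + 1) P) = 0 := by
  apply V.ext
  rw [Sum_pol, V.pol_zero]
  have h1 : ∀ i : Fin 5, (dn i l (dn i (l + 1) P)).pol =
      ((2 * (l : ℝ) + 5)⁻¹ * (2 * ((l + 1 : ℕ) : ℝ) + 5)⁻¹) • pderiv i (pderiv i P.pol) := by
    intro i
    rw [dn_pol, dn_pol, Derivation.map_smul, smul_smul]
  rw [Finset.sum_congr rfl fun i _ => h1 i, ← Finset.smul_sum, ← Sum_lap, P.lap_eq, smul_zero]

end
end OD16
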