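import Pool.Agent.LibOD16.NLE
import Pool.Agent.LibOD16.HarmSum

set_option autoImplicit false
namespace OD16
open MvPolynomial MeasureTheory Metric
open scoped BoundedContinuousFunction ENNReal
noncomputable section

/-- TASK Fx3a.  `b` of the solver is `b` of the nonlinear map (`LinSol.eq`, `Evl.e_eq`, `c_rad_mul`:
`b_s = ϖ e' + (1-δ) (a1 + (1+q) a)`, `1/q = 1 - δ`). -/
lemma Fix.b_eq {K h δ : ℝ} (hδ : 0 < δ) (hδ1 : δ < 1 / 10) {x : XS} {b : WA} {Λ : V 1}
    (hf : Fix K h δ x b Λ) (hE : Evl h δ x) : b = NL.b h δ x := by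
  apply WA.ext
  intro l
  apply BoundedContinuousFunction.ext
  intro t
  have h1 := hf.lin.eq l t
  have h2 := congrArg (fun F : WA => F.c l t) hE.e_eq
  simp only [WA.c_rad_mul, WA.c_sub, WA.c_smul, WA.c_add, vpB_apply] at h2
  have h3 : vp δ t • (NL.e' h δ x).c l t = (NL.b h δ x).c l t -
      (1 - δ) • ((1 + 1 / (1 - δ)) • x.2.1.c l t + x.2.2.1.c l t) := h2
  have h4 : x.2.2.1.c l t = -((1 + 1 / (1 - δ)) • x.2.1.c l t) +
    (1 / (1 - δ)) • (b.c l t - vp δ t • (NL.e' h δ x).c l t) := h1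
  have hne : (1 - δ) ≠ 0 := by
    have : 0 < 1 - δ := by linarith
    exact this.ne'
  have h5 : (1 - δ) • x.2.2.1.c l t = -((1 - δ) • ((1 + 1 / (1 - δ)) • x.2.1.c l t)) +
      (b.c l t - vp δ t • (NL.e' h δ x).c l t) := by
    conv_lhs => rw [h4]
    rw [smul_add, smul_neg, smul_smul (1 - δ) (1 / (1 - δ)), mul_one_div_cancel hne, one_smul]
  have h6 : b.c l t = (1 - δ) • x.2.2.1.c l t + (1 - δ) • ((1 + 1 / (1 - δ)) • x.2.1.c l t) +
      vp δ t • (NL.e' h δ x).c l t := by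
    rw [h5]
    abel
  rw [h6, h3, smul_add]
  abel

/-- `D_l(J) = -l (l+3) a_l` (`sum_dn_up`, `sum_up_dn`, `sum_up_up`, `sum_dn_dn`). -/
lemma Dv_J {δ : ℝ} {p : SI} {x : XS} {b : WA} {Λ : V 1} (hL : LinSol δ p x b Λ) (l : ℕ) (t : Tm) :
    Dv x.2.2.2 l t = -(((l : ℝ) * (l + 3)) • x.2.1.c l t) := by
  cases l with
  | zero => simp [Dv]
  | succ l =>
    have e1 : ∑ i, dn i (l + 1) ((x.2.2.2 i).c (l + 2) t) =
        -((((l : ℝ) + 1) * (((l : ℝ) + 4) / (2 * l + 5))) • x.2.1.c (l + 1) t) := by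
      have h1 : ∀ i : Fin 5, dn i (l + 1) ((x.2.2.2 i).c (l + 2) t) =
          (((l + 1 : ℕ) : ℝ) + 5) • dn i (l + 1) (dn i (l + 2) (x.2.1.c (l + 3) t)) -
            ((l + 1 : ℕ) : ℝ) • dn i (l + 1) (up i (l + 1) (x.2.1.c (l + 1) t)) := by
        intro i
        rw [hL.J_succ i (l + 1) t, map_sub, map_smul, map_smul]
      rw [Finset.sum_congr rfl fun i _ => h1 i, Finset.sum_sub_distrib, ← Finset.smul_sum,
        ← Finset.smul_sum, sum_dn_dn, sum_dn_up, smul_zero, zero_sub, smul_smul]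
      congr 2
      push_cast
      ring
    have e2 : ∑ i, up i l ((x.2.2.2 i).c l t) =
        ((((l : ℝ) + 4) * (((l : ℝ) + 1) / (2 * l + 5))) • x.2.1.c (l + 1) t) := by
      cases l with
      | zero =>
        have h1 : ∀ i : Fin 5, up i 0 ((x.2.2.2 i).c 0 t) =
            (4 : ℝ) • up i 0 (dn i 0 (x.2.1.c 1 t)) := by
          intro i
          rw [hL.J_zero i t, map_smul]
        rw [Finset.sum_congr rfl fun i _ => h1 i, ← Finset.smul_sum, sum_up_dn, smul_smul]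
        congr 1
        push_cast
        ring
      | succ k =>
        have h1 : ∀ i : Fin 5, up i (k + 1) ((x.2.2.2 i).c (k + 1) t) =
            ((k : ℝ) + 5) • up i (k + 1) (dn i (k + 1) (x.2.1.c (k + 2) t)) -
              (k : ℝ) • up i (k + 1) (up i k (x.2.1.c k t)) := by
          intro i
          rw [hL.J_succ i k t, map_sub, map_smul, map_smul]
        rw [Finset.sum_congr rfl fun i _ => h1 i, Finset.sum_sub_distrib, ← Finset.smul_sum,
          ← Finset.smul_sum, sum_up_up, sum_up_dn, smul_zero, sub_zero, smul_smul]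
        congr 1
        push_cast
        ring
    have e3 : Dv x.2.2.2 (l + 1) t = ((l : ℝ) + 1) • ∑ i, dn i (l + 1) ((x.2.2.2 i).c (l + 2) t)
      - ((l : ℝ) + 4) • ∑ i, up i l ((x.2.2.2 i).c l t) := rfl
    rw [e3, e1, e2, smul_neg, smul_smul, smul_smul, ← neg_smul, ← sub_smul, ← neg_smul]
    congr 1
    push_cast
    have : (2 * (l : ℝ) + 5) ≠ 0 := by positivity
    field_simp
    ring

lemma Dv_lin_Fx3a (c : ℝ) (E F G : Fin 5 → WA) (s : Tm)
    (h : ∀ i l, c • (E i).c l s = (F i).c l s - (G i).c l s) (l : ℕ) :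
    c • Dv E l s = Dv F l s - Dv G l s := by
  cases l with
  | zero => simp [Dv]
  | succ l =>
    have e1 : c • ∑ i, dn i (l + 1) ((E i).c (l + 2) s) =
        ∑ i, dn i (l + 1) ((F i).c (l + 2) s) - ∑ i, dn i (l + 1) ((G i).c (l + 2) s) := by
      rw [Finset.smul_sum, ← Finset.sum_sub_distrib]
      apply Finset.sum_congr rfl
      intro i _
      rw [← map_smul, h, map_sub]
    have e2 : c • ∑ i, up i l ((E i).c l s) =
        ∑ i, up i l ((F i).c l s) - ∑ i, up i l ((G i).c l s) := by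
      rw [Finset.smul_sum, ← Finset.sum_sub_distrib]
      apply Finset.sum_congr rfl
      intro i _
      rw [← map_smul, h, map_sub]
    show c • (((l : ℝ) + 1) • ∑ i, dn i (l + 1) ((E i).c (l + 2) s)
      - ((l : ℝ) + 4) • ∑ i, up i l ((E i).c l s)) =
      (((l : ℝ) + 1) • ∑ i, dn i (l + 1) ((F i).c (l + 2) s)
      - ((l : ℝ) + 4) • ∑ i, up i l ((F i).c l s)) -
      (((l : ℝ) + 1) • ∑ i, dn i (l + 1) ((G i).c (l + 2) s)
      - ((l : ℝ) + 4) • ∑ i, up i l ((G i).c l s))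
    rw [smul_sub, smul_comm c, smul_comm c, e1, e2, smul_sub, smul_sub]
    abel

/-- The equation `b' + 5 b + D_l(Q) + R_l = 0`  (`Evl.E_eq`, `Evl.R_eq`, `Dv_J`, linearity of
`Dv`). -/
lemma Fix.pde {K h δ : ℝ} (hδ : 0 < δ) (hδ1 : δ < 1 / 10) {x : XS} {b : WA} {Λ : V 1}
    (hf : Fix K h δ x b Λ) (hE : Evl h δ x) (l : ℕ) (t : ℝ) (ht : t < 0) :
    HasDerivAt (xt ((NL.b h δ x).c l))
      (-((5 : ℝ) • xt ((NL.b h δ x).c l) t) - xt (Dv (fun i => NL.Q i h δ x) l) t -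
        xt (((NL.r * NL.Rs) h δ x).c l) t) t := by
  have hb := hf.b_eq hδ hδ1 hE
  have h1 := hf.lin.db l t ht
  rw [hb] at h1
  refine h1.congr_deriv ?_
  have hmin : min t 0 = t := min_eq_left ht.le
  set s : Tm := ⟨min t 0, Set.mem_Iic.mpr (min_le_right t 0)⟩ with hs
  have hvp : vp δ t = vp δ s := by
    rw [hs]
    simp only [hmin]
  have e1 : vp δ s • Dv (fun i => NL.E' i h δ x) l s =
      Dv (fun i => NL.Q i h δ x) l s - Dv x.2.2.2 l s := by
    apply Dv_lin_Fx3a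
    intro i k
    have h2 := congrArg (fun F : WA => F.c k s) (hE.E_eq i)
    simp only [WA.c_rad_mul, WA.c_sub, vpB_apply] at h2
    exact h2
  have e2 : vp δ s • (NL.R' h δ x).c l s = ((NL.r * NL.Rs) h δ x).c l s := by
    have h2 := congrArg (fun F : WA => F.c l s) hE.R_eq
    simp only [WA.c_rad_mul, vpB_apply] at h2
    exact h2
  have e3 := Dv_J hf.lin l s
  show -((5 : ℝ) • (NL.b h δ x).c l s) + ((l : ℝ) * (l + 3)) • x.2.1.c l s
      - vp δ t • (Dv (fun i => NL.E' i h δ x) l s + (NL.R' h δ x).c l s) =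
    -((5 : ℝ) • (NL.b h δ x).c l s) - Dv (fun i => NL.Q i h δ x) l s -
        ((NL.r * NL.Rs) h δ x).c l s
  rw [hvp, smul_add, e1, e2, e3]
  abel

end
end OD16
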