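import Pool.Agent.LibOD16.NLE

set_option autoImplicit false
namespace OD16
open MvPolynomial MeasureTheory Metric
open scoped BoundedContinuousFunction ENNReal
noncomputable section

/-- TASK Fx3b.  The boundary condition (`bc0`, `bc1` with `Λ = 0`, `bc2`, `Evl.g_ev` at `t0`, `chi 0 = 1`). -/
lemma Fix.bc {K h δ : ℝ} {x : XS} {b : WA} (hf : Fix K h δ x b 0) (hE : Evl h δ x) (θ : S4) :
    1 + x.2.1.ev t0 θ.1 + x.2.2.1.ev t0 θ.1 =
      (1 + x.1) * Real.sqrt (1 + (ptx h δ x t0 θ.1).JJ / (1 + x.2.1.ev t0 θ.1) ^ 2) := by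
  have hL := hf.lin
  have h1 : ∀ l, (x.2.2.1.c l t0).ev θ.1 + (x.2.1.c l t0).ev θ.1
      = ((NL.g h δ x).c l t0).ev θ.1 + (if l = 0 then x.1 else 0) := by
    intro l
    rcases l with _ | l
    · have h2 := hL.bc0
      have h3 := congrArg (fun P => V.ev P θ.1) h2
      simp only [V.ev_add, V.ev_smul, c0_ev, mul_one] at h3
      rw [if_pos rfl]
      exact h3
    · rcases l with _ | l
      · have h2 := hL.bc1
        rw [add_zero] at h2
        have h3 := congrArg (fun P => V.ev P θ.1) h2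
        simp only [V.ev_add] at h3
        rw [if_neg (by norm_num), add_zero]
        exact h3
      · have h2 := hL.bc2 (l + 1 + 1) (by omega)
        have h3 := congrArg (fun P => V.ev P θ.1) h2
        simp only [V.ev_add] at h3
        rw [if_neg (by omega), add_zero]
        exact h3
  have h2 : x.2.2.1.ev t0 θ.1 + x.2.1.ev t0 θ.1 = (NL.g h δ x).ev t0 θ.1 + x.1 := by
    unfold WA.ev
    have s1 := (x.2.2.1.summable_ev t0 θ).of_norm
    have s2 := (x.2.1.summable_ev t0 θ).of_norm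
    have s3 := ((NL.g h δ x).summable_ev t0 θ).of_norm
    have s4 : HasSum (fun l : ℕ => if l = 0 then x.1 else 0) x.1 := hasSum_ite_eq 0 x.1
    have h5 : (∑' l, ((NL.g h δ x).c l t0).ev θ.1) + x.1
        = (∑' l, ((NL.g h δ x).c l t0).ev θ.1) + ∑' l : ℕ, (if l = 0 then x.1 else 0) := by
      rw [s4.tsum_eq]
    rw [← s1.tsum_add s2, h5, ← s3.tsum_add s4.summable]
    exact tsum_congr h1
  have h3 := hE.g_ev t0 θ
  have h4 : (ptx h δ x t0 θ.1).eta = x.2.1.ev t0 θ.1 := by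
    unfold Pt.eta ptx mkPt
    have h5 : chi ((t0 : Tm) : ℝ) = 1 := chi_eq_one (by unfold t0; norm_num)
    rw [h5, one_mul]
  rw [h4] at h3
  linear_combination h2 + h3

/-- Failure of the P-identity. -/
lemma fail_ineq {h δ ν : ℝ} (hh : 0 < h) (hh1 : h ≤ 1 / 100) (h1 : 3 / 10 * h ^ 2 ≤ δ)
    (h2 : δ ≤ 4 / 10 * h ^ 2) (hν : |ν + 3 * h ^ 2 / 280| ≤ 1 / 1000 * h ^ 2) :
    (1 + ν) ^ (2 - δ) ≠ 1 - δ / 10 := by
  have hh2 : 0 < h ^ 2 := by positivity
  have hh3 : h ^ 2 ≤ 1 / 10000 := by nlinarith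
  obtain ⟨hn1, hn2⟩ := abs_le.1 hν
  have h3 : 0 < 1 + ν := by linarith
  have h4 : 1 + ν ≤ 1 := by linarith
  have h5 : (1 + ν) ^ (2 : ℝ) ≤ (1 + ν) ^ (2 - δ) :=
    Real.rpow_le_rpow_of_exponent_ge h3 h4 (by linarith)
  rw [Real.rpow_two] at h5
  have h6 : 1 + 2 * ν ≤ (1 + ν) ^ 2 := by nlinarith [sq_nonneg ν]
  intro h7
  rw [h7] at h5
  linarith

end
end OD16
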