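import Pool.Agent.LibOD16.Fx2
import Pool.Agent.LibOD16.Fx3a
import Pool.Agent.LibOD16.Fx3b

set_option autoImplicit false
namespace OD16
open MvPolynomial MeasureTheory Metric
open scoped BoundedContinuousFunction ENNReal
noncomputable section

/-- TASK Fx3.  The analysis part: existence of `AData`. -/
theorem exists_AData : ∃ h δ : ℝ, Nonempty (AData h δ) := by
  obtain ⟨K, h, δ, hh, hh1, hK, h1, h2, x, b, hf, hν, hrot, hE⟩ :=
    exists_final (1 / 1000) (by norm_num)
  have hδ : 0 < δ := by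
    have : 0 < h ^ 2 := by positivity
    linarith
  have hhsq : h ^ 2 ≤ 1 / 100 := by nlinarith
  have hδ1 : δ < 1 / 10 := by linarith
  have hx : ‖x‖ ≤ 1 / 100 := by
    have h3 : K * h ^ 2 = (K * h) * h := by ring
    have h4 : (K * h) * h ≤ 1 / 1000 * h := mul_le_mul_of_nonneg_right hK.le hh.le
    have h5 := hf.nx
    rw [h3] at h5
    linarith
  have hx1 : ‖x.1‖ ≤ ‖x‖ := norm_fst_le x
  have hx2 : ‖x.2‖ ≤ ‖x‖ := norm_snd_le x
  have hx21 : ‖x.2.1‖ ≤ ‖x.2‖ := norm_fst_le x.2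
  have hx22 : ‖x.2.2‖ ≤ ‖x.2‖ := norm_snd_le x.2
  have hx221 : ‖x.2.2.1‖ ≤ ‖x.2.2‖ := norm_fst_le x.2.2
  have hx222 : ‖x.2.2.2‖ ≤ ‖x.2.2‖ := norm_snd_le x.2.2
  refine ⟨h, δ, ⟨?_⟩⟩
  refine
    { ν := x.1
      j0 := x.2.1
      j1 := x.2.2.1
      J := x.2.2.2
      b := NL.b h δ x
      Q := fun i => NL.Q i h δ x
      R := (NL.r * NL.Rs) h δ x
      h_pos := hh
      h_le := by linarith
      δ_pos := hδ
      δ_lt := hδ1
      ν_small := by
        rw [← Real.norm_eq_abs]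
        exact hx1.trans hx
      j0_small := hx21.trans (hx2.trans hx)
      j1_small := hx221.trans (hx22.trans (hx2.trans hx))
      J_small := fun i => (norm_le_pi_norm x.2.2.2 i).trans (hx222.trans (hx22.trans (hx2.trans hx)))
      m_ge := hE.m_ge
      s_le := hE.s_le
      dj := hf.lin.dj
      J_zero := hf.lin.J_zero
      J_succ := hf.lin.J_succ
      pde_zero := ?_
      pde_succ := ?_
      b_ev := hE.b_ev
      Q_ev := hE.Q_ev
      R_ev := hE.R_ev
      bc := fun θ => hf.bc hE θ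
      rot := hrot
      fail := ?_ }
  · intro t ht
    have h3 := hf.pde hδ hδ1 hE 0 t ht
    refine h3.congr_deriv ?_
    have h4 : xt (Dv (fun i => NL.Q i h δ x) 0) t = 0 := rfl
    rw [h4, sub_zero]
  · intro l t ht
    exact hf.pde hδ hδ1 hE (l + 1) t ht
  · exact fail_ineq hh (by linarith) h1 h2 hν

end
end OD16
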