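import Pool.Agent.LibOD16.Geo0

set_option autoImplicit false

/-!
# The Heisenberg group of dimension 7 and the map to the orbit space: definitions
-/

namespace OD16

open MeasureTheory Metric

noncomputable section

/-- The underlying space of the group. -/
abbrev G7 := (Fin 6 → ℝ) × (Fin 1 → ℝ)

/-- The complex structure. -/
def Jm : Matrix (Fin 6) (Fin 6) ℝ :=
  !![0, -1, 0, 0, 0, 0; 1, 0, 0, 0, 0, 0; 0, 0, 0, -1, 0, 0; 0, 0, 1, 0, 0, 0;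
     0, 0, 0, 0, 0, -1; 0, 0, 0, 0, 1, 0]

/-- The left invariant vector field `X_i` at `x`. -/
def Xd (i : Fin 6) (x : G7) : G7 :=
  ((Pi.single i (1 : ℝ) : Fin 6 → ℝ), fun _ => Jm.mulVec x.1 i / 2)

/-- `|z|²`. -/
def zsq (x : G7) : ℝ := ∑ j, x.1 j ^ 2

/-- `|z1|`. -/
def rr1 (x : G7) : ℝ := Real.sqrt (x.1 0 ^ 2 + x.1 1 ^ 2)

/-- `|z2|`. -/
def rr2 (x : G7) : ℝ := Real.sqrt (x.1 2 ^ 2 + x.1 3 ^ 2)

/-- The map to the orbit space. -/
def XX (h : ℝ) (x : G7) : EE :=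
  WithLp.toLp 2 ![((2 * rr1 x * rr2 x - (x.1 4 ^ 2 + x.1 5 ^ 2)) / 4 - 1) / h,
    (rr1 x ^ 2 - rr2 x ^ 2) / (4 * h),
    (rr1 x + rr2 x) * x.1 4 / (2 * Real.sqrt 2 * h),
    (rr1 x + rr2 x) * x.1 5 / (2 * Real.sqrt 2 * h),
    x.2 0 / h]

/-- Rotation of the three complex coordinates by the angles `a 0, a 1, a 2`. -/
def Rt (a : Fin 3 → ℝ) (x : G7) : G7 :=
  (![Real.cos (a 0) * x.1 0 - Real.sin (a 0) * x.1 1,
     Real.sin (a 0) * x.1 0 + Real.cos (a 0) * x.1 1,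
     Real.cos (a 1) * x.1 2 - Real.sin (a 1) * x.1 3,
     Real.sin (a 1) * x.1 2 + Real.cos (a 1) * x.1 3,
     Real.cos (a 2) * x.1 4 - Real.sin (a 2) * x.1 5,
     Real.sin (a 2) * x.1 4 + Real.cos (a 2) * x.1 5], x.2)

/-- The matrix of the rotation on the horizontal layer. -/
def RtM (a : Fin 3 → ℝ) : Matrix (Fin 6) (Fin 6) ℝ :=
  !![Real.cos (a 0), -Real.sin (a 0), 0, 0, 0, 0; Real.sin (a 0), Real.cos (a 0), 0, 0, 0, 0;
     0, 0, Real.cos (a 1), -Real.sin (a 1), 0, 0; 0, 0, Real.sin (a 1), Real.cos (a 1), 0, 0;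
     0, 0, 0, 0, Real.cos (a 2), -Real.sin (a 2); 0, 0, 0, 0, Real.sin (a 2), Real.cos (a 2)]

/-- The scaling constant. -/
def Acst (h δ : ℝ) : ℝ :=
  2 ^ (1 + 1 / (1 - δ)) * h ^ (1 + 1 / (1 - δ)) * 5 ^ (-(1 / (1 - δ)))

variable {h δ : ℝ}

/-- The domain in the group. -/
def Reduced.Om (S : Reduced h δ) : Set G7 := {x | XX h x ∈ S.dom}

/-- The solution in the group. -/
def Reduced.f (S : Reduced h δ) (x : G7) : ℝ := Acst h δ * S.F (XX h x)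

/-- The horizontal derivatives of the solution. -/
def Reduced.g (S : Reduced h δ) (i : Fin 6) (x : G7) : ℝ :=
  Acst h δ * inner ℝ (S.gF (XX h x)) (fderiv ℝ (XX h) x (Xd i x))

end

end OD16
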