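import Pool.Agent.LibOD16.GeoInv

set_option autoImplicit false
namespace OD16
open MeasureTheory Metric
noncomputable section

/-- The average over the rotations. -/
def avgRt (φ : G7 → ℝ) (x : G7) : ℝ :=
  ((2 * Real.pi) ^ 3)⁻¹ * ∫ a in Set.Icc (0 : Fin 3 → ℝ) (fun _ => 2 * Real.pi), φ (Rt a x)

lemma two_pi_unit (i : Fin 3) : IsUnit ((fun _ : Fin 3 => 2 * Real.pi) i) :=
  isUnit_iff_ne_zero.mpr (by have := Real.pi_pos; positivity)

/-- The basis of the lattice of the periods. -/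
def perB : Module.Basis (Fin 3) ℝ (Fin 3 → ℝ) :=
  (Pi.basisFun ℝ (Fin 3)).isUnitSMul two_pi_unit

lemma perB_repr (x : Fin 3 → ℝ) (i : Fin 3) : perB.repr x i = x i / (2 * Real.pi) := by
  unfold perB
  rw [Module.Basis.repr_isUnitSMul, Pi.basisFun_repr, Units.smul_def, Units.val_inv_eq_inv_val,
    IsUnit.unit_spec, smul_eq_mul, div_eq_inv_mul]

lemma fundDom_perB : ZSpan.fundamentalDomain perB =
    Set.pi Set.univ (fun _ : Fin 3 => Set.Ico (0 : ℝ) (2 * Real.pi)) := by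
  have h0 : (0 : ℝ) < 2 * Real.pi := by have := Real.pi_pos; positivity
  ext x
  rw [ZSpan.mem_fundamentalDomain, Set.mem_univ_pi]
  apply forall_congr'
  intro i
  rw [perB_repr, Set.mem_Ico, Set.mem_Ico, div_lt_one h0, le_div_iff₀ h0, zero_mul]

lemma fundDom_ae : ZSpan.fundamentalDomain perB =ᵐ[(volume : Measure (Fin 3 → ℝ))]
    Set.Icc (0 : Fin 3 → ℝ) (fun _ => 2 * Real.pi) := by
  rw [fundDom_perB]
  exact Measure.univ_pi_Ico_ae_eq_Icc (f := (0 : Fin 3 → ℝ)) (g := fun _ => 2 * Real.pi)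

lemma mem_span_perB (g : Fin 3 → ℝ) (hg : g ∈ Submodule.span ℤ (Set.range perB)) :
    ∀ j, ∃ n : ℤ, g j = n * (2 * Real.pi) := by
  induction hg using Submodule.span_induction with
  | mem x hx =>
    obtain ⟨i, rfl⟩ := hx
    intro j
    by_cases hij : i = j
    · refine ⟨1, ?_⟩
      subst hij
      simp [perB, Module.Basis.isUnitSMul_apply]
    · refine ⟨0, ?_⟩
      simp [perB, Module.Basis.isUnitSMul_apply, Ne.symm hij]
  | zero => exact fun j => ⟨0, by simp⟩
  | add x y _ _ hx hy =>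
    intro j
    obtain ⟨n, hn⟩ := hx j
    obtain ⟨m, hm⟩ := hy j
    refine ⟨n + m, ?_⟩
    rw [Pi.add_apply, hn, hm]
    push_cast
    ring
  | smul c x _ hx =>
    intro j
    obtain ⟨n, hn⟩ := hx j
    refine ⟨c * n, ?_⟩
    rw [Pi.smul_apply, hn, zsmul_eq_mul]
    push_cast
    ring

lemma setIntegral_shift (F : (Fin 3 → ℝ) → ℝ)
    (hF : ∀ g : Fin 3 → ℝ, (∀ j, ∃ n : ℤ, g j = n * (2 * Real.pi)) → ∀ a, F (g + a) = F a)
    (b : Fin 3 → ℝ) :
    ∫ a in Set.Icc (0 : Fin 3 → ℝ) (fun _ => 2 * Real.pi), F (b + a) =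
      ∫ a in Set.Icc (0 : Fin 3 → ℝ) (fun _ => 2 * Real.pi), F a := by
  rw [← setIntegral_congr_set fundDom_ae, ← setIntegral_congr_set fundDom_ae]
  have : Countable (Submodule.span ℤ (Set.range perB)).toAddSubgroup :=
    inferInstanceAs (Countable (Submodule.span ℤ (Set.range perB)))
  have h1 := ZSpan.isAddFundamentalDomain' perB (volume : Measure (Fin 3 → ℝ))
  have h2 := (measurePreserving_vadd b (volume : Measure (Fin 3 → ℝ))).setIntegral_image_emb
    (measurableEmbedding_const_vadd b) F (ZSpan.fundamentalDomain perB)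
  have h3 := IsAddFundamentalDomain.vadd_of_comm h1 b
  have h4 := h3.setIntegral_eq h1 (f := F) (by
    rintro ⟨g, hg⟩ x
    exact hF g (mem_span_perB g hg) x)
  exact h2.symm.trans h4

lemma Rt_period (g : Fin 3 → ℝ) (hg : ∀ j, ∃ n : ℤ, g j = n * (2 * Real.pi)) (a : Fin 3 → ℝ)
    (x : G7) : Rt (g + a) x = Rt a x := by
  have hc : ∀ j, Real.cos ((g + a) j) = Real.cos (a j) := by
    intro j
    obtain ⟨n, hn⟩ := hg j
    rw [Pi.add_apply, hn, add_comm, Real.cos_add_int_mul_two_pi]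
  have hs : ∀ j, Real.sin ((g + a) j) = Real.sin (a j) := by
    intro j
    obtain ⟨n, hn⟩ := hg j
    rw [Pi.add_apply, hn, add_comm, Real.sin_add_int_mul_two_pi]
  unfold Rt
  rw [hc, hc, hc, hs, hs, hs]

/-- TASK G05b.  The average is invariant (periodicity in each angle). -/
lemma avgRt_inv (φ : G7 → ℝ) (hφ : Continuous φ) (b : Fin 3 → ℝ) (x : G7) :
    avgRt φ (Rt b x) = avgRt φ x := by
  unfold avgRt
  congr 1
  have h := setIntegral_shift (fun a => φ (Rt a x)) (fun g hg a => by rw [Rt_period g hg]) b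
  rw [← h]
  congr 1
  funext a
  rw [add_comm b a, Rt_add]

end
end OD16
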