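import Pool.Agent.LibOD16.GeoAvg1

set_option autoImplicit false
namespace OD16
open MeasureTheory Metric
noncomputable section

attribute [local irreducible] Rt

/-- The parameter box. -/
abbrev bx : Set (Fin 3 → ℝ) := Set.Icc (0 : Fin 3 → ℝ) (fun _ => 2 * Real.pi)

lemma contDiff_phiRt (φ : G7 → ℝ) (hφ : ContDiff ℝ 1 φ) :
    ContDiff ℝ 1 (fun p : (Fin 3 → ℝ) × G7 => φ (Rt p.1 p.2)) := by
  have h1 : ContDiff ℝ 1 (fun p : (Fin 3 → ℝ) × G7 => Rt p.1 p.2) :=
    contDiff_Rt.of_le (by exact_mod_cast le_top)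
  exact hφ.comp h1

lemma continuous_dphiRt (φ : G7 → ℝ) (hφ : ContDiff ℝ 1 φ) :
    Continuous (fun p : G7 × (Fin 3 → ℝ) => fderiv ℝ (fun y => φ (Rt p.2 y)) p.1) := by
  have h1 : ContDiff ℝ 1 (Function.uncurry
      (fun (p : G7 × (Fin 3 → ℝ)) (y : G7) => φ (Rt p.2 y))) := by
    have h2 : ContDiff ℝ 1 (fun q : (G7 × (Fin 3 → ℝ)) × G7 => ((q.1.2, q.2) :
        (Fin 3 → ℝ) × G7)) := (contDiff_snd.comp contDiff_fst).prodMk contDiff_snd
    exact (contDiff_phiRt φ hφ).comp h2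
  have h3 : ContDiff ℝ 0 (fun p : G7 × (Fin 3 → ℝ) => fderiv ℝ (fun y => φ (Rt p.2 y)) p.1) :=
    ContDiff.fderiv (f := fun (p : G7 × (Fin 3 → ℝ)) (y : G7) => φ (Rt p.2 y))
      (g := fun p : G7 × (Fin 3 → ℝ) => p.1) h1 contDiff_fst (by norm_num)
  exact h3.continuous

lemma continuous_phiRt (φ : G7 → ℝ) (hφ : Continuous φ) :
    Continuous (fun p : G7 × (Fin 3 → ℝ) => φ (Rt p.2 p.1)) := by
  have h2 : Continuous (fun q : G7 × (Fin 3 → ℝ) => ((q.2, q.1) : (Fin 3 → ℝ) × G7)) :=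
    continuous_snd.prodMk continuous_fst
  exact hφ.comp (continuous_Rt.comp h2)

/-- TASK G05c.  The average is `C¹` (differentiation under the integral sign), with derivative. -/
lemma hasFDerivAt_avgRt (φ : G7 → ℝ) (hφ : ContDiff ℝ 1 φ) (x : G7) :
    HasFDerivAt (avgRt φ) (((2 * Real.pi) ^ 3)⁻¹ •
      ∫ a in Set.Icc (0 : Fin 3 → ℝ) (fun _ => 2 * Real.pi), fderiv ℝ (fun y => φ (Rt a y)) x) x := by
  have hK : IsCompact (closedBall x 1 ×ˢ bx) := (isCompact_closedBall x 1).prod isCompact_Icc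
  obtain ⟨C, hC⟩ := hK.exists_bound_of_continuousOn (continuous_dphiRt φ hφ).continuousOn
  have h1 : HasFDerivAt (fun y : G7 => ∫ a in bx, φ (Rt a y))
      (∫ a in bx, fderiv ℝ (fun y => φ (Rt a y)) x) x := by
    apply hasFDerivAt_integral_of_dominated_of_fderiv_le (bound := fun _ => C)
      (s := closedBall x 1) (F' := fun y a => fderiv ℝ (fun y => φ (Rt a y)) y)
      (closedBall_mem_nhds x one_pos)
    · refine Filter.Eventually.of_forall fun y => ?_
      have hc : Continuous (fun a : Fin 3 → ℝ => φ (Rt a y)) :=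
        (continuous_phiRt φ hφ.continuous).comp (continuous_const.prodMk continuous_id)
      exact hc.aestronglyMeasurable
    · have hc : Continuous (fun a : Fin 3 → ℝ => φ (Rt a x)) :=
        (continuous_phiRt φ hφ.continuous).comp (continuous_const.prodMk continuous_id)
      exact hc.continuousOn.integrableOn_compact isCompact_Icc
    · have hc : Continuous (fun a : Fin 3 → ℝ => fderiv ℝ (fun y => φ (Rt a y)) x) :=
        (continuous_dphiRt φ hφ).comp (continuous_const.prodMk continuous_id)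
      exact hc.aestronglyMeasurable
    · refine (ae_restrict_iff' measurableSet_Icc).mpr (Filter.Eventually.of_forall ?_)
      intro a ha y hy
      exact hC (y, a) ⟨hy, ha⟩
    · have : IsFiniteMeasure ((volume : Measure (Fin 3 → ℝ)).restrict bx) :=
        ⟨by rw [Measure.restrict_apply_univ]; exact isCompact_Icc.measure_lt_top⟩
      exact integrable_const C
    · refine Filter.Eventually.of_forall fun a y _ => ?_
      have hd : ContDiff ℝ 1 (fun y => φ (Rt a y)) :=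
        (contDiff_phiRt φ hφ).comp (contDiff_const.prodMk contDiff_id)
      exact (hd.differentiable one_ne_zero y).hasFDerivAt
  exact h1.const_mul _

lemma contDiff_avgRt (φ : G7 → ℝ) (hφ : ContDiff ℝ 1 φ) : ContDiff ℝ 1 (avgRt φ) := by
  rw [contDiff_one_iff_fderiv]
  refine ⟨fun x => (hasFDerivAt_avgRt φ hφ x).differentiableAt, ?_⟩
  have h1 : fderiv ℝ (avgRt φ) = fun x => ((2 * Real.pi) ^ 3)⁻¹ •
      ∫ a in bx, fderiv ℝ (fun y => φ (Rt a y)) x :=
    funext fun x => (hasFDerivAt_avgRt φ hφ x).fderiv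
  rw [h1]
  have h2 : Continuous (fun x : G7 => ∫ a in bx, fderiv ℝ (fun y => φ (Rt a y)) x) :=
    continuous_parametric_integral_of_continuous
      (f := fun (x : G7) (a : Fin 3 → ℝ) => fderiv ℝ (fun y => φ (Rt a y)) x)
      (continuous_dphiRt φ hφ) isCompact_Icc
  exact h2.const_smul (((2 * Real.pi) ^ 3)⁻¹)

/-- The compact set of all rotations of the support. -/
def rotK (φ : G7 → ℝ) : Set G7 :=
  (fun p : (Fin 3 → ℝ) × G7 => Rt (-p.1) p.2) '' (bx ×ˢ tsupport φ)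

lemma isCompact_rotK (φ : G7 → ℝ) (hs : HasCompactSupport φ) : IsCompact (rotK φ) := by
  have h2 : Continuous (fun q : (Fin 3 → ℝ) × G7 => ((-q.1, q.2) : (Fin 3 → ℝ) × G7)) :=
    continuous_fst.neg.prodMk continuous_snd
  exact (isCompact_Icc.prod hs.isCompact).image (continuous_Rt.comp h2)

lemma rotK_sub (Ω : Set G7) (hinv : ∀ a, ∀ x ∈ Ω, Rt a x ∈ Ω) (φ : G7 → ℝ)
    (hΩ : tsupport φ ⊆ Ω) : rotK φ ⊆ Ω := by
  rintro _ ⟨⟨a, y⟩, ⟨_, hy⟩, rfl⟩
  exact hinv _ _ (hΩ hy)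

lemma notMem_rotK (φ : G7 → ℝ) (x : G7) (hx : x ∉ rotK φ) (a : Fin 3 → ℝ) (ha : a ∈ bx) :
    Rt a x ∉ tsupport φ := by
  intro h
  exact hx ⟨(a, Rt a x), ⟨ha, h⟩, Rt_neg_Rt a x⟩

lemma avgRt_zero (φ : G7 → ℝ) (x : G7) (hx : x ∉ rotK φ) : avgRt φ x = 0 := by
  unfold avgRt
  rw [setIntegral_eq_zero_of_forall_eq_zero, mul_zero]
  intro a ha
  exact image_eq_zero_of_notMem_tsupport (notMem_rotK φ x hx a ha)

/-- The support of the average stays in an invariant open set. -/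
lemma support_avgRt (Ω : Set G7) (hinv : ∀ a, ∀ x ∈ Ω, Rt a x ∈ Ω) (φ : G7 → ℝ)
    (hφ : Continuous φ) (hs : HasCompactSupport φ) (hΩ : tsupport φ ⊆ Ω) :
    HasCompactSupport (avgRt φ) ∧ tsupport (avgRt φ) ⊆ Ω := by
  have hK := isCompact_rotK φ hs
  refine ⟨HasCompactSupport.intro hK fun x hx => avgRt_zero φ x hx, ?_⟩
  refine (closure_minimal ?_ hK.isClosed).trans (rotK_sub Ω hinv φ hΩ)
  intro x hx
  by_contra h
  exact hx (avgRt_zero φ x h)

end
end OD16
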