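import Pool.Agent.LibOD16.GeoAvg2

set_option autoImplicit false
namespace OD16
open MeasureTheory Metric
noncomputable section

attribute [local irreducible] Rt

lemma continuous_Xd (i : Fin 6) : Continuous (Xd i) := by
  unfold Xd
  refine Continuous.prodMk continuous_const (continuous_pi fun _ => ?_)
  have h1 : Continuous (fun x : G7 => Jm.mulVec x.1) :=
    Continuous.matrix_mulVec continuous_const continuous_fst
  exact ((continuous_apply i).comp h1).div_const 2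

lemma fderiv_phiRt_zero (φ : G7 → ℝ) (x : G7) (a : Fin 3 → ℝ) (h : Rt a x ∉ tsupport φ) :
    fderiv ℝ (fun y => φ (Rt a y)) x = 0 := by
  have h1 : (fun y => φ (Rt a y)) =ᶠ[nhds x] fun _ => (0 : ℝ) := by
    have h2 : {y | Rt a y ∈ (tsupport φ)ᶜ} ∈ nhds x :=
      ((isClosed_tsupport φ).isOpen_compl.preimage (continuous_Rt_right a)).mem_nhds h
    filter_upwards [h2] with y hy
    exact image_eq_zero_of_notMem_tsupport hy
  rw [h1.fderiv_eq]
  exact fderiv_const_apply _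

/-- The integrand for the rotation `a`. -/
def psiRt (cf : Fin 6 → G7 → ℝ) (d : G7 → ℝ) (φ : G7 → ℝ) (x : G7) (a : Fin 3 → ℝ) : ℝ :=
  ∑ i, cf i x * fderiv ℝ (fun y => φ (Rt a y)) x (Xd i x) - d x * φ (Rt a x)

lemma psiRt_zero (cf : Fin 6 → G7 → ℝ) (d : G7 → ℝ) (φ : G7 → ℝ) (x : G7) (hx : x ∉ rotK φ)
    (a : Fin 3 → ℝ) (ha : a ∈ bx) : psiRt cf d φ x a = 0 := by
  have h1 := notMem_rotK φ x hx a ha
  unfold psiRt
  rw [fderiv_phiRt_zero φ x a h1, image_eq_zero_of_notMem_tsupport h1]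
  simp

lemma continuous_psi_right (cf : Fin 6 → G7 → ℝ) (d : G7 → ℝ) (φ : G7 → ℝ)
    (hφ : ContDiff ℝ 1 φ) (x : G7) (i : Fin 6) :
    Continuous (fun a : Fin 3 → ℝ => fderiv ℝ (fun y => φ (Rt a y)) x (Xd i x)) ∧
      Continuous (fun a : Fin 3 → ℝ => φ (Rt a x)) := by
  have h1 : Continuous (fun a : Fin 3 → ℝ => fderiv ℝ (fun y => φ (Rt a y)) x) :=
    (continuous_dphiRt φ hφ).comp (continuous_const.prodMk continuous_id)
  exact ⟨h1.clm_apply continuous_const,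
    (continuous_phiRt φ hφ.continuous).comp (continuous_const.prodMk continuous_id)⟩

lemma integrable_psiRt (Ω : Set G7) (hΩ : IsOpen Ω) (hinv : ∀ a, ∀ x ∈ Ω, Rt a x ∈ Ω)
    (cf : Fin 6 → G7 → ℝ) (d : G7 → ℝ) (hcc : ∀ i, ContinuousOn (cf i) Ω) (hdc : ContinuousOn d Ω)
    (φ : G7 → ℝ) (hφ : ContDiff ℝ 1 φ) (hs : HasCompactSupport φ) (hsΩ : tsupport φ ⊆ Ω) :
    Integrable (Function.uncurry (psiRt cf d φ))
      (((volume : Measure G7).restrict Ω).prod ((volume : Measure (Fin 3 → ℝ)).restrict bx)) := by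
  have hK := isCompact_rotK φ hs
  have hKΩ := rotK_sub Ω hinv φ hsΩ
  rw [Measure.prod_restrict]
  have hmaps : Set.MapsTo (Prod.fst : G7 × (Fin 3 → ℝ) → G7) (rotK φ ×ˢ bx) Ω :=
    fun p hp => hKΩ hp.1
  have hcont : ContinuousOn (Function.uncurry (psiRt cf d φ)) (rotK φ ×ˢ bx) := by
    have h1 : ∀ i, ContinuousOn (fun p : G7 × (Fin 3 → ℝ) => cf i p.1) (rotK φ ×ˢ bx) :=
      fun i => (hcc i).comp continuousOn_fst hmaps
    have h2 : ContinuousOn (fun p : G7 × (Fin 3 → ℝ) => d p.1) (rotK φ ×ˢ bx) :=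
      hdc.comp continuousOn_fst hmaps
    have h3 : ∀ i, Continuous (fun p : G7 × (Fin 3 → ℝ) =>
        fderiv ℝ (fun y => φ (Rt p.2 y)) p.1 (Xd i p.1)) := fun i =>
      (continuous_dphiRt φ hφ).clm_apply ((continuous_Xd i).comp continuous_fst)
    have h4 := continuous_phiRt φ hφ.continuous
    exact (continuousOn_finsetSum _ fun i _ => (h1 i).mul (h3 i).continuousOn).sub
      (h2.mul h4.continuousOn)
  have hI : IntegrableOn (Function.uncurry (psiRt cf d φ)) (rotK φ ×ˢ bx)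
      ((volume : Measure G7).prod (volume : Measure (Fin 3 → ℝ))) :=
    hcont.integrableOn_compact (hK.prod isCompact_Icc)
  refine IntegrableOn.of_forall_sdiff_eq_zero hI (hΩ.measurableSet.prod measurableSet_Icc) ?_
  rintro ⟨x, a⟩ ⟨⟨_, ha⟩, hn⟩
  have hx : x ∉ rotK φ := fun h => hn ⟨h, ha⟩
  exact psiRt_zero cf d φ x hx a ha

lemma avg_pointwise (cf : Fin 6 → G7 → ℝ) (d : G7 → ℝ) (φ : G7 → ℝ) (hφ : ContDiff ℝ 1 φ)
    (x : G7) :
    ∑ i, cf i x * fderiv ℝ (avgRt φ) x (Xd i x) - d x * avgRt φ x =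
      ((2 * Real.pi) ^ 3)⁻¹ * ∫ a in bx, psiRt cf d φ x a := by
  have hc : Continuous (fun a : Fin 3 → ℝ => fderiv ℝ (fun y => φ (Rt a y)) x) :=
    (continuous_dphiRt φ hφ).comp (continuous_const.prodMk continuous_id)
  have hci : IntegrableOn (fun a : Fin 3 → ℝ => fderiv ℝ (fun y => φ (Rt a y)) x) bx :=
    hc.continuousOn.integrableOn_compact isCompact_Icc
  have h1 : ∀ v : G7, fderiv ℝ (avgRt φ) x v =
      ((2 * Real.pi) ^ 3)⁻¹ * ∫ a in bx, fderiv ℝ (fun y => φ (Rt a y)) x v := by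
    intro v
    rw [(hasFDerivAt_avgRt φ hφ x).fderiv, smul_apply, smul_eq_mul,
      ContinuousLinearMap.integral_apply hci]
  have hi1 : ∀ i, IntegrableOn (fun a : Fin 3 → ℝ =>
      cf i x * fderiv ℝ (fun y => φ (Rt a y)) x (Xd i x)) bx := fun i =>
    ((continuous_psi_right cf d φ hφ x i).1.const_mul (cf i x)).continuousOn.integrableOn_compact
      isCompact_Icc
  have hi2 : IntegrableOn (fun a : Fin 3 → ℝ => d x * φ (Rt a x)) bx :=
    ((continuous_psi_right cf d φ hφ x 0).2.const_mul (d x)).continuousOn.integrableOn_compact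
      isCompact_Icc
  have h2 : ∫ a in bx, psiRt cf d φ x a =
      (∑ i, cf i x * (∫ a in bx, fderiv ℝ (fun y => φ (Rt a y)) x (Xd i x))) -
        d x * (∫ a in bx, φ (Rt a x)) := by
    unfold psiRt
    rw [integral_sub (integrable_finsetSum _ fun i _ => hi1 i) hi2,
      integral_finsetSum _ fun i _ => hi1 i, integral_const_mul]
    simp only [integral_const_mul]
  rw [h2, mul_sub, Finset.mul_sum]
  congr 1
  · apply Finset.sum_congr rfl
    intro i _
    rw [h1]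
    ring
  · unfold avgRt
    ring

/-- TASK G05d.  The functional of the average (Fubini and `functional_Rt`). -/
lemma functional_avg (Ω : Set G7) (hΩ : IsOpen Ω) (hinv : ∀ a, ∀ x ∈ Ω, Rt a x ∈ Ω)
    (cf : Fin 6 → G7 → ℝ) (d : G7 → ℝ) (hcc : ∀ i, ContinuousOn (cf i) Ω) (hdc : ContinuousOn d Ω)
    (hcf : ∀ a, ∀ x ∈ Ω, ∀ i, cf i (Rt a x) = ∑ j, RtM a i j * cf j x)
    (hd : ∀ a, ∀ x ∈ Ω, d (Rt a x) = d x)
    (φ : G7 → ℝ) (hφ : ContDiff ℝ 1 φ) (hs : HasCompactSupport φ) (hsΩ : tsupport φ ⊆ Ω) :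
    ∫ x in Ω, (∑ i, cf i x * fderiv ℝ (avgRt φ) x (Xd i x) - d x * avgRt φ x) =
      ∫ x in Ω, (∑ i, cf i x * fderiv ℝ φ x (Xd i x) - d x * φ x) := by
  have hp : (0 : ℝ) < 2 * Real.pi := by have := Real.pi_pos; positivity
  simp only [avg_pointwise cf d φ hφ]
  rw [integral_const_mul,
    integral_integral_swap (integrable_psiRt Ω hΩ hinv cf d hcc hdc φ hφ hs hsΩ)]
  have h1 : ∀ a : Fin 3 → ℝ, ∫ x in Ω, psiRt cf d φ x a =
      ∫ x in Ω, (∑ i, cf i x * fderiv ℝ φ x (Xd i x) - d x * φ x) := fun a =>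
    functional_Rt Ω hΩ hinv cf d hcf hd φ hφ a
  simp only [h1]
  have hv : (volume bx).toReal = (2 * Real.pi) ^ 3 := by
    have h2 := Real.volume_Icc_pi_toReal (a := fun _ : Fin 3 => (0 : ℝ))
      (b := fun _ : Fin 3 => 2 * Real.pi) (fun _ => hp.le)
    simp only [sub_zero, Finset.prod_const, Finset.card_univ, Fintype.card_fin] at h2
    exact h2
  rw [setIntegral_const, measureReal_def, hv, smul_eq_mul]
  rw [← mul_assoc, inv_mul_cancel₀ (by positivity), one_mul]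

end
end OD16
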