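import Pool.Agent.LibOD16.GeoSec

set_option autoImplicit false
namespace OD16
open MeasureTheory Metric
noncomputable section

private lemma rot23_neg (a : ℝ) (X : EE) : rot23 (-a) (rot23 a X) = X := by
  have h1 := Real.sin_sq_add_cos_sq a
  ext i
  fin_cases i
  · simp [rot23]
  · simp [rot23]
  · simp [rot23]
    linear_combination (X 2) * h1
  · simp [rot23]
    linear_combination (X 3) * h1
  · simp [rot23]

/-- TASK G06b.  Invariant test functions descend to the orbit space: take
`ψ = φ ∘ secX` on `dom`, zero elsewhere. -/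
lemma descend {h : ℝ} (hh : 0 < h) (hh1 : h ≤ 1 / 100) (dom : Set EE) (hdom : IsOpen dom)
    (hsub : closure dom ⊆ ball (0 : EE) 2) (φ : G7 → ℝ) (hφ : ContDiff ℝ 1 φ)
    (hs : HasCompactSupport φ) (hsΩ : tsupport φ ⊆ {x | XX h x ∈ dom})
    (hinv : ∀ a x, φ (Rt a x) = φ x) :
    ∃ ψ : EE → ℝ, ContDiff ℝ 1 ψ ∧ HasCompactSupport ψ ∧ tsupport ψ ⊆ dom ∧
      (∀ x, φ x = ψ (XX h x)) ∧ ∀ a X, ψ (rot23 a X) = ψ X := by
  classical
  have hball : ∀ X ∈ dom, X ∈ ball (0 : EE) 2 := fun X hX => hsub (subset_closure hX)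
  set L : Set EE := XX h '' tsupport φ with hL
  have hLc : IsCompact L := hs.isCompact.image (continuous_XX h)
  have hLd : L ⊆ dom := by
    rintro _ ⟨x, hx, rfl⟩
    exact hsΩ hx
  let ψ : EE → ℝ := fun X => if X ∈ dom then φ (secX h X) else 0
  have hψd : ∀ X ∈ dom, ψ X = φ (secX h X) := fun X hX => if_pos hX
  have hψn : ∀ X, X ∉ dom → ψ X = 0 := fun X hX => if_neg hX
  have hψL : ∀ X, X ∉ L → ψ X = 0 := by
    intro X hX
    by_cases hd : X ∈ dom
    · rw [hψd X hd]
      by_contra hne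
      apply hX
      refine ⟨secX h X, subset_tsupport φ hne, XX_secX hh hh1 (hball X hd)⟩
    · exact hψn X hd
  have hφψ : ∀ x, φ x = ψ (XX h x) := by
    intro x
    by_cases hd : XX h x ∈ dom
    · obtain ⟨a, ha⟩ := exists_Rt_secX hh hh1 x (hball _ hd)
      rw [hψd _ hd]
      conv_lhs => rw [ha]
      exact hinv a _
    · rw [hψn _ hd]
      by_contra hne
      exact hd (hsΩ (subset_tsupport φ hne))
  refine ⟨ψ, ?_, ?_, ?_, hφψ, ?_⟩
  · rw [contDiff_iff_contDiffAt]
    intro X
    by_cases hX : X ∈ L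
    · have hXd := hLd hX
      have h1 : ContDiffAt ℝ 1 (fun Y => φ (secX h Y)) X := by
        have h2 : ContDiffAt ℝ 1 (secX h) X :=
          (contDiffAt_secX hh hh1 (hball X hXd)).of_le (by exact_mod_cast le_top)
        exact hφ.contDiffAt.comp X h2
      refine h1.congr_of_eventuallyEq ?_
      filter_upwards [hdom.mem_nhds hXd] with Y hY
      exact hψd Y hY
    · have h1 : ContDiffAt ℝ 1 (fun _ : EE => (0 : ℝ)) X := contDiffAt_const
      refine h1.congr_of_eventuallyEq ?_
      filter_upwards [hLc.isClosed.isOpen_compl.mem_nhds hX] with Y hY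
      exact hψL Y hY
  · exact HasCompactSupport.intro hLc hψL
  · have h1 : tsupport ψ ⊆ L := by
      apply closure_minimal _ hLc.isClosed
      intro X hX
      by_contra hn
      exact hX (hψL X hn)
    exact h1.trans hLd
  · have key : ∀ (a : ℝ) (X : EE), X ∈ dom → ψ (rot23 a X) = ψ X := by
      intro a X hX
      have h1 := XX_secX hh hh1 (hball X hX)
      have h2 := XX_Rt h ![0, 0, a] (secX h X)
      rw [h1] at h2
      have h3 : (![0, 0, a] : Fin 3 → ℝ) 2 = a := rfl
      rw [h3] at h2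
      rw [← h2, ← hφψ, hinv, hψd X hX]
    intro a X
    by_cases hX : X ∈ dom
    · exact key a X hX
    · by_cases hY : rot23 a X ∈ dom
      · have h1 := key (-a) (rot23 a X) hY
        rw [rot23_neg] at h1
        exact h1.symm
      · rw [hψn _ hX, hψn _ hY]

end
end OD16
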