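import Pool.Agent.LibOD16.GeoXP

set_option autoImplicit false
namespace OD16
open MeasureTheory Metric
noncomputable section

private lemma continuous_XP (h : ℝ) : Continuous (XP h) := by
  unfold XP
  refine (PiLp.continuous_toLp 2 _).comp ?_
  refine continuous_pi fun i => ?_
  fin_cases i <;> simp <;> fun_prop

private lemma rhoR_XP {h : ℝ} (hh : 0 < h) (R : EE) :
    rhoR h (XP h R) = (R 0 ^ 2 + R 1 ^ 2 + R 2 ^ 2 + R 3 ^ 2) / 4 := by
  have hs2 : Real.sqrt 2 ^ 2 = 2 := Real.sq_sqrt (by norm_num)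
  have hs0 : Real.sqrt 2 ≠ 0 := by positivity
  have hh0 : h ≠ 0 := hh.ne'
  have e0 : 1 + h * XP h R 0 = (2 * R 0 * R 1 - (R 2 ^ 2 + R 3 ^ 2)) / 4 := by
    simp [XP]
    field_simp
    ring
  have e1 : h * XP h R 1 = (R 0 ^ 2 - R 1 ^ 2) / 4 := by
    simp [XP]
    field_simp
  have e2 : (h * XP h R 2) ^ 2 = (R 0 + R 1) ^ 2 * R 2 ^ 2 / 8 := by
    have : h * XP h R 2 = (R 0 + R 1) * R 2 / (2 * Real.sqrt 2) := by
      simp [XP]
      field_simp
    rw [this, div_pow, mul_pow, mul_pow, hs2]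
    ring
  have e3 : (h * XP h R 3) ^ 2 = (R 0 + R 1) ^ 2 * R 3 ^ 2 / 8 := by
    have : h * XP h R 3 = (R 0 + R 1) * R 3 / (2 * Real.sqrt 2) := by
      simp [XP]
      field_simp
    rw [this, div_pow, mul_pow, mul_pow, hs2]
    ring
  unfold rhoR
  rw [e0, e1, e2, e3]
  rw [show ((2 * R 0 * R 1 - (R 2 ^ 2 + R 3 ^ 2)) / 4) ^ 2 + ((R 0 ^ 2 - R 1 ^ 2) / 4) ^ 2 +
    (R 0 + R 1) ^ 2 * R 2 ^ 2 / 8 + (R 0 + R 1) ^ 2 * R 3 ^ 2 / 8 =
    ((R 0 ^ 2 + R 1 ^ 2 + R 2 ^ 2 + R 3 ^ 2) / 4) ^ 2 by ring]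
  exact Real.sqrt_sq (by positivity)

private lemma XP_norm_ge {h : ℝ} (hh : 0 < h) (hh1 : h ≤ 1 / 100) (R : EE)
    (hR : XP h R ∈ ball (0 : EE) 2) : R ∈ closedBall (0 : EE) 10 := by
  have hb := (rhoR_bounds hh hh1 hR).2.2
  rw [rhoR_XP hh] at hb
  have h4 : XP h R 4 ^ 2 ≤ 4 := by
    have h1 : ‖XP h R‖ < 2 := by simpa using hR
    have h2 : ‖XP h R 4‖ ≤ ‖XP h R‖ := PiLp.norm_apply_le _ _
    rw [Real.norm_eq_abs] at h2
    have h3 : |XP h R 4| ≤ 2 := h2.trans h1.le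
    nlinarith [abs_le.mp h3]
  have e4 : R 4 = h * XP h R 4 := by
    simp [XP]
    field_simp
  have h5 : R 4 ^ 2 ≤ 4 := by
    rw [e4, mul_pow]
    have : h ^ 2 ≤ 1 := by nlinarith
    nlinarith [sq_nonneg (XP h R 4)]
  rw [mem_closedBall, dist_zero_right, EuclideanSpace.norm_eq]
  rw [Real.sqrt_le_left (by norm_num)]
  simp only [Fin.sum_univ_five, Real.norm_eq_abs, sq_abs]
  nlinarith

private lemma push_aux {h : ℝ} (hh : 0 < h) (hh1 : h ≤ 1 / 100) (g : EE → ℝ) (U : Set EE)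
    (hU : U = {R : EE | 0 < R 0 ∧ 0 < R 1 ∧ XP h R ∈ ball (0 : EE) 2})
    (hUm : MeasurableSet U) :
    ∫ X in ball (0 : EE) 2, g X = ∫ R in U,
      (R 0 ^ 2 + R 1 ^ 2 + R 2 ^ 2 + R 3 ^ 2) * (R 0 + R 1) ^ 2 / (32 * h ^ 5) * g (XP h R) := by
  have hd := XP_deriv h hh
  choose L hL hdet using hd
  have hbij := XP_bij hh hh1
  rw [← hU] at hbij
  have h1 := integral_image_eq_integral_abs_det_fderiv_smul (volume : Measure EE) hUm
      (fun R _ => (hL R).hasFDerivWithinAt) hbij.injOn g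
  rw [hbij.image_eq] at h1
  rw [h1]
  refine setIntegral_congr_fun hUm ?_
  intro R _
  show |(L R).det| • g (XP h R) = _
  rw [hdet R, smul_eq_mul]

private lemma hXP_compact {h : ℝ} (hh : 0 < h) (hh1 : h ≤ 1 / 100) (H : EE → ℝ)
    (hH0 : ∀ X : EE, X ∉ ball (0 : EE) 2 → H X = 0) :
    HasCompactSupport (fun R => H (XP h R)) := by
  refine HasCompactSupport.of_support_subset_isCompact (K := closedBall (0 : EE) 10)
    (isCompact_closedBall _ _) ?_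
  intro R hR
  have : XP h R ∈ ball (0 : EE) 2 := by
    by_contra hcon
    exact hR (hH0 _ hcon)
  exact XP_norm_ge hh hh1 R this

private lemma push_step2 {h : ℝ} (H : EE → ℝ)
    (hH0 : ∀ X : EE, X ∉ ball (0 : EE) 2 → H X = 0) (V U : Set EE)
    (hV : V = {R : EE | 0 < R 0 ∧ 0 < R 1}) (hVm : MeasurableSet V)
    (hU : U = {R : EE | 0 < R 0 ∧ 0 < R 1 ∧ XP h R ∈ ball (0 : EE) 2}) :
    ∫ R in V, R 0 * R 1 * H (XP h R) = ∫ R in U, R 0 * R 1 * H (XP h R) := by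
  refine (setIntegral_eq_of_subset_of_forall_sdiff_eq_zero hVm ?_ ?_)
  · intro R hR
    rw [hU] at hR
    rw [hV]
    exact ⟨hR.1, hR.2.1⟩
  · rintro R ⟨hR, hR'⟩
    rw [hV] at hR
    rw [hU] at hR'
    have : XP h R ∉ ball (0 : EE) 2 := fun hcon => hR' ⟨hR.1, hR.2, hcon⟩
    simp [hH0 _ this]


private lemma push_h5 {h : ℝ} (hh : 0 < h) (hh1 : h ≤ 1 / 100) (H : EE → ℝ) (U : Set EE)
    (hU : U = {R : EE | 0 < R 0 ∧ 0 < R 1 ∧ XP h R ∈ ball (0 : EE) 2}) (hUm : MeasurableSet U) :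
    ∫ R in U, R 0 * R 1 * H (XP h R) = ∫ R in U,
      (R 0 ^ 2 + R 1 ^ 2 + R 2 ^ 2 + R 3 ^ 2) * (R 0 + R 1) ^ 2 / (32 * h ^ 5) *
      (H (XP h R) * (2 * h ^ 5 * ((rhoR h (XP h R))⁻¹ *
    (1 - (h * XP h R 1) ^ 2 / (rhoR h (XP h R) + (1 + h * XP h R 0)) ^ 2)))) := by
    refine setIntegral_congr_fun hUm ?_
    intro R hR
    rw [hU] at hR
    have hy := (rhoR_bounds hh hh1 hR.2.2).1
    have hd := XP_density hh R hR.1 hR.2.1 (by linarith)
    show R 0 * R 1 * H (XP h R) = _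
    rw [← hd]
    ring

private lemma push_h4 {h : ℝ} (H : EE → ℝ)
    (hH0 : ∀ X : EE, X ∉ ball (0 : EE) 2 → H X = 0) :
   ∫ X in ball (0 : EE) 2, H X * (2 * h ^ 5 * ((rhoR h X)⁻¹ *
      (1 - (h * X 1) ^ 2 / (rhoR h X + (1 + h * X 0)) ^ 2))) =
      2 * h ^ 5 * ∫ X, H X * ((rhoR h X)⁻¹ *
      (1 - (h * X 1) ^ 2 / (rhoR h X + (1 + h * X 0)) ^ 2)) := by
    rw [setIntegral_eq_integral_of_forall_compl_eq_zero, ← integral_const_mul]
    · refine integral_congr_ae (Filter.Eventually.of_forall fun X => ?_)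
      show _ = _
      ring
    · intro X hX
      simp [hH0 _ hX]


private lemma push_final {c1 c2 c3 a b d e f : ℝ} (h1 : a = c1 * b) (h2 : b = d) (h5 : d = e)
    (h3 : f = e) (h4 : f = c2 * c3) : a = c1 * (c2 * c3) := by
  rw [h1, h2, h5, ← h3, h4]

/-- TASK G07c.  Push forward of Lebesgue measure to the orbit space
(`integral_polX`, `integral_image_eq_integral_abs_det_fderiv_smul`). -/
lemma push {h : ℝ} (hh : 0 < h) (hh1 : h ≤ 1 / 100) (H : EE → ℝ) (hc : Continuous H)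
    (hs : HasCompactSupport H) (hb : tsupport H ⊆ ball (0 : EE) 2) :
    ∫ x : G7, H (XX h x) = 8 * Real.pi ^ 2 * h ^ 5 * ∫ X, H X *
      ((rhoR h X)⁻¹ * (1 - (h * X 1) ^ 2 / (rhoR h X + (1 + h * X 0)) ^ 2)) := by
  have hH0 : ∀ X : EE, X ∉ ball (0 : EE) 2 → H X = 0 := fun X hX =>
    image_eq_zero_of_notMem_tsupport (fun hc' => hX (hb hc'))
  have hcomp := hXP_compact hh hh1 H hH0
  have h1 : ∫ x : G7, H (XX h x) = (2 * Real.pi) ^ 2 *
      ∫ R in {R : EE | 0 < R 0 ∧ 0 < R 1}, R 0 * R 1 * H (XP h R) := by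
    rw [← integral_polX (fun R => H (XP h R)) (hc.comp (continuous_XP h)) hcomp]
    simp_rw [XX_eq_XP]
  have hc0 : Continuous (fun R : EE => R 0) := by fun_prop
  have hc1 : Continuous (fun R : EE => R 1) := by fun_prop
  have hVo : IsOpen {R : EE | 0 < R 0 ∧ 0 < R 1} := by
    rw [Set.ofPred_and]
    exact (isOpen_lt continuous_const hc0).inter (isOpen_lt continuous_const hc1)
  have hUo : IsOpen {R : EE | 0 < R 0 ∧ 0 < R 1 ∧ XP h R ∈ ball (0 : EE) 2} := by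
    rw [Set.ofPred_and, Set.ofPred_and]
    exact (isOpen_lt continuous_const hc0).inter
      ((isOpen_lt continuous_const hc1).inter (isOpen_ball.preimage (continuous_XP h)))
  have h2 := push_step2 (h := h) H hH0 _ _ rfl hVo.measurableSet rfl
  have h5 := push_h5 hh hh1 H _ rfl hUo.measurableSet
  have h3 := push_aux hh hh1 (fun X => H X * (2 * h ^ 5 * ((rhoR h X)⁻¹ *
    (1 - (h * X 1) ^ 2 / (rhoR h X + (1 + h * X 0)) ^ 2)))) _ rfl hUo.measurableSet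
  have h4 := push_h4 (h := h) H hH0
  refine (push_final h1 h2 h5 h3 h4).trans ?_
  ring

end
end OD16
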