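import Pool.Agent.LibOD16.GeoF
import Pool.Agent.LibOD16.GeoAvg3
import Pool.Agent.LibOD16.GeoDesc
import Pool.Agent.LibOD16.GeoPush

set_option autoImplicit false
namespace OD16
open MeasureTheory Metric
noncomputable section

variable {h δ : ℝ}

lemma continuous_XX_equi (h : ℝ) : Continuous (XX h) := by
  have h1 : Continuous rr1 := by unfold rr1; fun_prop
  have h2 : Continuous rr2 := by unfold rr2; fun_prop
  unfold XX
  refine (PiLp.continuous_toLp 2 _).comp ?_
  refine continuous_pi fun i => ?_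
  fin_cases i
  · simp only [Fin.zero_eta, Matrix.cons_val_zero]
    fun_prop
  · simp only [Fin.mk_one, Matrix.cons_val_one, Matrix.cons_val_zero]
    fun_prop
  · simp only [Fin.reduceFinMk, Matrix.cons_val]
    fun_prop
  · simp only [Fin.reduceFinMk, Matrix.cons_val]
    fun_prop
  · simp only [Fin.reduceFinMk, Matrix.cons_val]
    fun_prop

lemma Reduced.isOpen_Om_equi (S : Reduced h δ) : IsOpen S.Om :=
  S.isOpen_dom.preimage (continuous_XX_equi h)

lemma Reduced.Om_Rt_aux (S : Reduced h δ) (a : Fin 3 → ℝ) (x : G7) (hx : x ∈ S.Om) :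
    Rt a x ∈ S.Om := by
  change XX h (Rt a x) ∈ S.dom
  rw [XX_Rt]
  exact S.rot_dom _ _ hx

/-- TASK G08b.  Equivariance of the horizontal gradient:
`g (Rt a x) = M g(x)` (both sides are derivatives of `f`; `f ∘ Rt a = f`). -/
lemma Reduced.g_Rt (S : Reduced h δ) (a : Fin 3 → ℝ) (x : G7) (hx : x ∈ S.Om) (i : Fin 6) :
    S.g i (Rt a x) = ∑ j, RtM a i j * S.g j x := by
  have hx' := S.Om_Rt_aux a x hx
  have key : ∀ j, S.g j x = ∑ k, RtM a k j * S.g k (Rt a x) := by
    intro j
    have h1 := fderiv_comp_Rt S.f a x (S.fderiv_f _ hx').1 j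
    have h2 : (fun y => S.f (Rt a y)) =ᶠ[nhds x] S.f := by
      filter_upwards [S.isOpen_Om_equi.mem_nhds hx] with y hy
      change Acst h δ * S.F (XX h (Rt a y)) = Acst h δ * S.F (XX h y)
      rw [XX_Rt, S.rot_F _ _ hy]
    rw [h2.fderiv_eq, (S.fderiv_f x hx).2 j] at h1
    rw [h1]
    refine Finset.sum_congr rfl fun k _ => ?_
    rw [(S.fderiv_f _ hx').2 k]
  have horth := (RtM_orth a).2
  have h3 : ∀ k, ∑ j, RtM a i j * RtM a k j = if i = k then 1 else 0 := by
    intro k
    have h4 := congrFun (congrFun horth i) k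
    rw [Matrix.mul_apply, Matrix.one_apply] at h4
    simpa [Matrix.transpose_apply] using h4
  calc S.g i (Rt a x) = ∑ k, (if i = k then 1 else 0) * S.g k (Rt a x) := by simp
    _ = ∑ k, (∑ j, RtM a i j * RtM a k j) * S.g k (Rt a x) := by
        refine Finset.sum_congr rfl fun k _ => ?_
        rw [h3]
    _ = ∑ j, RtM a i j * S.g j x := by
        simp only [key, Finset.sum_mul, Finset.mul_sum]
        rw [Finset.sum_comm]
        refine Finset.sum_congr rfl fun j _ => Finset.sum_congr rfl fun k _ => ?_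
        ring

lemma Reduced.Om_Rt (S : Reduced h δ) (a : Fin 3 → ℝ) (x : G7) (hx : x ∈ S.Om) :
    Rt a x ∈ S.Om := S.Om_Rt_aux a x hx

/-- The flux `|∇_H f|^(p-2) ∇_H f` is continuous on `Om` (it tends to `0` where `∇_H f` does,
since `δ < 1`). -/
lemma Reduced.continuousOn_flux (S : Reduced h δ) (i : Fin 6) :
    ContinuousOn (fun x => Real.sqrt (∑ j, S.g j x ^ 2) ^ (-δ) * S.g i x) S.Om := by
  have hs : ContinuousOn (fun x => Real.sqrt (∑ j, S.g j x ^ 2)) S.Om := by
    refine Real.continuous_sqrt.comp_continuousOn ?_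
    exact continuousOn_finsetSum _ fun j _ => (S.continuousOn_g j).pow 2
  intro x hx
  by_cases h0 : Real.sqrt (∑ j, S.g j x ^ 2) = 0
  · have hgi : ∀ y, |S.g i y| ≤ Real.sqrt (∑ j, S.g j y ^ 2) := by
      intro y
      refine Real.abs_le_sqrt ?_
      exact Finset.single_le_sum (f := fun j => S.g j y ^ 2) (fun j _ => sq_nonneg _)
        (Finset.mem_univ i)
    have hδ := S.δ_pos
    have hδ1 := S.δ_lt
    have hval : Real.sqrt (∑ j, S.g j x ^ 2) ^ (-δ) * S.g i x = 0 := by
      rw [h0, Real.zero_rpow (by linarith), zero_mul]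
    have hb : ∀ y, ‖Real.sqrt (∑ j, S.g j y ^ 2) ^ (-δ) * S.g i y‖ ≤
        Real.sqrt (∑ j, S.g j y ^ 2) ^ (1 - δ) := by
      intro y
      rw [norm_mul, Real.norm_eq_abs, Real.norm_eq_abs]
      set s := Real.sqrt (∑ j, S.g j y ^ 2) with hsdef
      have hs0 : 0 ≤ s := Real.sqrt_nonneg _
      rw [abs_of_nonneg (Real.rpow_nonneg hs0 _)]
      rcases eq_or_lt_of_le hs0 with h1 | h1
      · rw [← h1, Real.zero_rpow (by linarith), zero_mul]
        exact Real.rpow_nonneg le_rfl _
      · calc s ^ (-δ) * |S.g i y| ≤ s ^ (-δ) * s :=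
              mul_le_mul_of_nonneg_left (hgi y) (Real.rpow_nonneg hs0 _)
          _ = s ^ (1 - δ) := by
              rw [show (1 : ℝ) - δ = -δ + 1 by ring, Real.rpow_add h1, Real.rpow_one]
    have hlim : Filter.Tendsto (fun y => Real.sqrt (∑ j, S.g j y ^ 2) ^ (1 - δ))
        (nhdsWithin x S.Om) (nhds 0) := by
      have h1 := (hs x hx).tendsto
      rw [h0] at h1
      have h2 := h1.rpow_const (p := 1 - δ) (Or.inr (by linarith))
      rwa [Real.zero_rpow (by linarith)] at h2
    have h5 := squeeze_zero_norm hb hlim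
    show Filter.Tendsto _ _ (nhds (Real.sqrt (∑ j, S.g j x ^ 2) ^ (-δ) * S.g i x))
    rw [hval]
    exact h5
  · refine ContinuousWithinAt.mul ?_ (S.continuousOn_g i x hx)
    exact (hs x hx).rpow_const (Or.inl h0)

end
end OD16
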