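import Pool.Agent.LibOD16.GeoGrad

set_option autoImplicit false
namespace OD16
open MeasureTheory Metric
noncomputable section

variable {h δ : ℝ}

private lemma rot23_eq (a : ℝ) (X : EE) : rot23 a X =
    (WithLp.toLp 2 ![X 0, X 1, 0, 0, X 4] : EE) + (Real.cos a • (WithLp.toLp 2 ![0, 0, X 2, X 3, 0] : EE) +
      Real.sin a • (WithLp.toLp 2 ![0, 0, -X 3, X 2, 0] : EE)) := by
  ext i
  fin_cases i
  · simp [rot23]
  · simp [rot23]
  · simp [rot23]
    ring
  · simp [rot23]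
    ring
  · simp [rot23]

private lemma grad_rot_aux (F : EE → ℝ) (g X : EE) (hF : HasFDerivAt F (innerSL ℝ g) X)
    (hinv : ∀ a, F (rot23 a X) = F X) : X 2 * g 3 = X 3 * g 2 := by
  have h0 : rot23 0 X = X := by
    ext i
    fin_cases i <;> simp [rot23]
  have h1 : HasDerivAt (fun a : ℝ => rot23 a X) (WithLp.toLp 2 ![0, 0, -X 3, X 2, 0] : EE) 0 := by
    have h2 : (fun a : ℝ => rot23 a X) = fun a : ℝ =>
        (WithLp.toLp 2 ![X 0, X 1, 0, 0, X 4] : EE) +
        (Real.cos a • (WithLp.toLp 2 ![0, 0, X 2, X 3, 0] : EE) +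
        Real.sin a • (WithLp.toLp 2 ![0, 0, -X 3, X 2, 0] : EE)) := funext fun a => rot23_eq a X
    rw [h2]
    have h3 := ((Real.hasDerivAt_cos 0).smul_const (WithLp.toLp 2 ![0, 0, X 2, X 3, 0] : EE)).add
      ((Real.hasDerivAt_sin 0).smul_const (WithLp.toLp 2 ![0, 0, -X 3, X 2, 0] : EE))
    have h4 := h3.const_add (WithLp.toLp 2 ![X 0, X 1, 0, 0, X 4] : EE)
    have h5 : -Real.sin 0 • (WithLp.toLp 2 ![0, 0, X 2, X 3, 0] : EE) +
        Real.cos 0 • (WithLp.toLp 2 ![0, 0, -X 3, X 2, 0] : EE) =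
        (WithLp.toLp 2 ![0, 0, -X 3, X 2, 0] : EE) := by
      rw [Real.sin_zero, Real.cos_zero, neg_zero, zero_smul, one_smul, zero_add]
    rw [h5] at h4
    exact h4
  have hF' : HasFDerivAt F (innerSL ℝ g) (rot23 0 X) := by rw [h0]; exact hF
  have h2 := hF'.comp_hasDerivAt (0 : ℝ) h1
  have h3 : (F ∘ fun a : ℝ => rot23 a X) = fun _ => F X := funext fun a => hinv a
  rw [h3] at h2
  have h4 := h2.unique (hasDerivAt_const (0 : ℝ) (F X))
  have h5 : inner ℝ g (WithLp.toLp 2 ![0, 0, -X 3, X 2, 0] : EE) = 0 := h4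
  rw [PiLp.inner_apply] at h5
  simp [Fin.sum_univ_succ] at h5
  have h6 : X 2 * g 3 - X 3 * g 2 = 0 := by
    have e3 : g (Fin.succ (Fin.succ (Fin.succ 0))) = g 3 := rfl
    linarith
  linarith

/-- TASK G08a.  The gradient of `F` satisfies `X 2 ∂_3 F = X 3 ∂_2 F` (differentiate
`S.rot_F` at `a = 0`). -/
lemma Reduced.grad_rot (S : Reduced h δ) (X : EE) (hX : X ∈ S.dom) :
    X 2 * S.gF X 3 = X 3 * S.gF X 2 :=
  grad_rot_aux S.F (S.gF X) X (S.hasFDeriv X hX) (fun a => S.rot_F a X hX)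

/-- The same for test functions. -/
lemma grad_rot_of_inv (ψ : EE → ℝ) (hψ : ContDiff ℝ 1 ψ) (hinv : ∀ a X, ψ (rot23 a X) = ψ X)
    (X : EE) : X 2 * gradient ψ X 3 = X 3 * gradient ψ X 2 := by
  have h1 : DifferentiableAt ℝ ψ X := (hψ.differentiable (by norm_num)).differentiableAt
  have h2 : HasFDerivAt ψ (innerSL ℝ (gradient ψ X)) X := h1.hasGradientAt.hasFDerivAt
  exact grad_rot_aux ψ _ X h2 (fun a => hinv a X)

lemma Reduced.mem_ball (S : Reduced h δ) {X : EE} (hX : X ∈ S.dom) : X ∈ ball (0 : EE) 2 :=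
  S.dom_sub (subset_closure hX)

private lemma Acst_nonneg (hh : 0 < h) : 0 ≤ Acst h δ := by
  unfold Acst
  positivity

/-- `|∇_H f| = A |z| |∇F|_g / (2 h)`. -/
lemma Reduced.sqrt_g (S : Reduced h δ) (x : G7) (hx : x ∈ S.Om) :
    Real.sqrt (∑ i, S.g i x ^ 2) =
      Acst h δ / (2 * h) * Real.sqrt (zsq x) * Real.sqrt (gsq h (XX h x) (S.gF (XX h x))) := by
  have hh := S.h_pos
  have hX : XX h x ∈ S.dom := hx
  have hb := S.mem_ball hX
  obtain ⟨hr1, hr2⟩ := rr_pos hh S.h_le x hb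
  obtain ⟨hb1, -, -⟩ := rhoR_bounds hh S.h_le hb
  have hrot := S.grad_rot (XX h x) hX
  have hid := grad_identity hh x hr1 hr2 (S.gF (XX h x)) (S.gF (XX h x)) (by linarith) hrot hrot
  have hA := Acst_nonneg (δ := δ) hh
  have hsum : ∑ i, S.g i x ^ 2 =
      (Acst h δ / (2 * h)) ^ 2 * (zsq x * gsq h (XX h x) (S.gF (XX h x))) := by
    have h1 : ∀ i, S.g i x ^ 2 = Acst h δ ^ 2 *
        (inner ℝ (S.gF (XX h x)) (fderiv ℝ (XX h) x (Xd i x)) *
          inner ℝ (S.gF (XX h x)) (fderiv ℝ (XX h) x (Xd i x))) := by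
      intro i
      unfold Reduced.g
      ring
    rw [Finset.sum_congr rfl (fun i _ => h1 i), ← Finset.mul_sum, hid, rhoR_XX hh.ne']
    unfold gsq
    field_simp
    ring
  have hz : 0 ≤ zsq x := by
    unfold zsq
    positivity
  rw [hsum, Real.sqrt_mul (by positivity), Real.sqrt_sq (by positivity), Real.sqrt_mul hz]
  ring

private lemma Reduced.hasFDerivAt_f (S : Reduced h δ) (x : G7) (hx : x ∈ S.Om) :
    HasFDerivAt S.f (Acst h δ • (innerSL ℝ (S.gF (XX h x))).comp (fderiv ℝ (XX h) x)) x := by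
  have hh := S.h_pos
  have hX : XX h x ∈ S.dom := hx
  obtain ⟨hr1, hr2⟩ := rr_pos hh S.h_le x (S.mem_ball hX)
  have h1 : DifferentiableAt ℝ (XX h) x :=
    (contDiffAt_XX h x hr1 hr2).differentiableAt (by norm_num)
  have h2 := (S.hasFDeriv (XX h x) hX).comp x h1.hasFDerivAt
  exact h2.const_mul (Acst h δ)

/-- The horizontal derivatives of `f` are `g`. -/
lemma Reduced.fderiv_f (S : Reduced h δ) (x : G7) (hx : x ∈ S.Om) :
    DifferentiableAt ℝ S.f x ∧ ∀ i, fderiv ℝ S.f x (Xd i x) = S.g i x := by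
  have h1 := S.hasFDerivAt_f x hx
  refine ⟨h1.differentiableAt, fun i => ?_⟩
  rw [h1.fderiv]
  rfl

lemma Reduced.continuousOn_f (S : Reduced h δ) : ContinuousOn S.f S.Om := fun x hx =>
  (S.fderiv_f x hx).1.continuousAt.continuousWithinAt

lemma Reduced.continuousOn_g (S : Reduced h δ) (i : Fin 6) : ContinuousOn (S.g i) S.Om := by
  have h1 : ContinuousOn (fun x => S.gF (XX h x)) S.Om :=
    S.cont_gF.comp (continuous_XX h).continuousOn (fun x hx => hx)
  have hXd : Continuous (fun x : G7 => Xd i x) := by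
    unfold Xd
    refine continuous_const.prodMk ?_
    refine continuous_pi fun _ => ?_
    have : Continuous fun x : G7 => Jm.mulVec x.1 :=
      Continuous.matrix_mulVec continuous_const continuous_fst
    exact ((continuous_apply i).comp this).div_const 2
  have h2 : ContinuousOn (fun x => fderiv ℝ (XX h) x (Xd i x)) S.Om := by
    intro x hx
    have hX : XX h x ∈ S.dom := hx
    obtain ⟨hr1, hr2⟩ := rr_pos S.h_pos S.h_le x (S.mem_ball hX)
    have h3 : ContinuousAt (fderiv ℝ (XX h)) x :=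
      ((contDiffAt_XX h x hr1 hr2).fderiv_right (m := 0) (by norm_num)).continuousAt
    exact (h3.clm_apply hXd.continuousAt).continuousWithinAt
  exact (h1.inner h2).const_mul _ |>.congr (fun x _ => rfl)

end
end OD16
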