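import Pool.Agent.LibOD16.GeoNorm

set_option autoImplicit false
namespace OD16
open MeasureTheory Metric
noncomputable section

lemma gg_coord (j : Fin 6) (x : G7) :
    ContDiffAt ℝ ((⊤ : ℕ∞) : WithTop ℕ∞) (fun y : G7 => y.1 j) x :=
  (contDiff_apply (𝕜 := ℝ) (E := ℝ) j).contDiffAt.comp x contDiffAt_fst

lemma gg_pos {a : ℝ} (h : 0 < Real.sqrt a) : 0 < a := by
  by_contra hc
  rw [Real.sqrt_eq_zero_of_nonpos (not_lt.1 hc)] at h
  exact lt_irrefl _ h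

lemma gg_rr1 (x : G7) (h1 : 0 < rr1 x) :
    ContDiffAt ℝ ((⊤ : ℕ∞) : WithTop ℕ∞) (fun y : G7 => rr1 y) x := by
  unfold rr1 at h1 ⊢
  exact (((gg_coord 0 x).pow 2).add ((gg_coord 1 x).pow 2)).sqrt (gg_pos h1).ne'

lemma gg_rr2 (x : G7) (h1 : 0 < rr2 x) :
    ContDiffAt ℝ ((⊤ : ℕ∞) : WithTop ℕ∞) (fun y : G7 => rr2 y) x := by
  unfold rr2 at h1 ⊢
  exact (((gg_coord 2 x).pow 2).add ((gg_coord 3 x).pow 2)).sqrt (gg_pos h1).ne'

/-- TASK G02.  `XX` is smooth where `r1, r2 > 0`. -/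
lemma contDiffAt_XX (h : ℝ) (x : G7) (h1 : 0 < rr1 x) (h2 : 0 < rr2 x) :
    ContDiffAt ℝ ((⊤ : ℕ∞) : WithTop ℕ∞) (XX h) x := by
  rw [contDiffAt_euclidean]
  have e1 := gg_rr1 x h1
  have e2 := gg_rr2 x h2
  intro i
  fin_cases i
  · exact ((((contDiffAt_const.mul e1).mul e2).sub
      (((gg_coord 4 x).pow 2).add ((gg_coord 5 x).pow 2))).div_const 4 |>.sub
        contDiffAt_const).div_const h
  · exact ((e1.pow 2).sub (e2.pow 2)).div_const (4 * h)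
  · exact ((e1.add e2).mul (gg_coord 4 x)).div_const _
  · exact ((e1.add e2).mul (gg_coord 5 x)).div_const _
  · exact ((contDiff_apply (𝕜 := ℝ) (E := ℝ) (0 : Fin 1)).contDiffAt.comp x
      contDiffAt_snd).div_const _

lemma gg_fderiv {h : ℝ} {x : G7} (hd : DifferentiableAt ℝ (XX h) x) (w : G7) (j : Fin 5) :
    HasDerivAt (fun t : ℝ => XX h (x + t • w) j) (fderiv ℝ (XX h) x w j) 0 := by
  have e1 : HasFDerivAt (fun y => XX h y j)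
      ((EuclideanSpace.proj j : EE →L[ℝ] ℝ).comp (fderiv ℝ (XX h) x)) x :=
    (EuclideanSpace.proj j : EE →L[ℝ] ℝ).hasFDerivAt.comp x hd.hasFDerivAt
  have e2 : HasDerivAt (fun t : ℝ => x + t • w) w 0 := by
    have := ((hasDerivAt_id (0 : ℝ)).smul_const w).const_add x
    rw [one_smul] at this
    exact this
  have e3 : x + (0 : ℝ) • w = x := by rw [zero_smul, add_zero]
  rw [← e3] at e1
  have e4 := e1.comp_hasDerivAt (0 : ℝ) e2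
  rw [e3] at e4
  exact e4

lemma gg_line (x w : G7) (j : Fin 6) :
    HasDerivAt (fun t : ℝ => (x + t • w).1 j) (w.1 j) 0 := by
  have e : (fun t : ℝ => (x + t • w).1 j) = fun t : ℝ => x.1 j + t * w.1 j := by
    funext t
    rfl
  rw [e]
  have := ((hasDerivAt_id (0 : ℝ)).mul_const (w.1 j)).const_add (x.1 j)
  rw [one_mul] at this
  exact this

lemma gg_zero (x w : G7) : x + (0 : ℝ) • w = x := by rw [zero_smul, add_zero]

lemma gg_d1 (x w : G7) (h1 : 0 < rr1 x) :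
    HasDerivAt (fun t : ℝ => rr1 (x + t • w)) ((x.1 0 * w.1 0 + x.1 1 * w.1 1) / rr1 x) 0 := by
  have e1 := ((gg_line x w 0).pow 2).add ((gg_line x w 1).pow 2)
  have h0 : 0 < x.1 0 ^ 2 + x.1 1 ^ 2 := gg_pos h1
  have e2 := e1.sqrt (by
    show (x + (0 : ℝ) • w).1 0 ^ 2 + (x + (0 : ℝ) • w).1 1 ^ 2 ≠ 0
    rw [gg_zero]
    exact h0.ne')
  refine e2.congr_deriv ?_
  show (((2 : ℕ) : ℝ) * (x + (0 : ℝ) • w).1 0 ^ (2 - 1) * w.1 0 +
    ((2 : ℕ) : ℝ) * (x + (0 : ℝ) • w).1 1 ^ (2 - 1) * w.1 1) /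
      (2 * Real.sqrt ((x + (0 : ℝ) • w).1 0 ^ 2 + (x + (0 : ℝ) • w).1 1 ^ 2)) = _
  rw [gg_zero]
  have h3 : Real.sqrt (x.1 0 ^ 2 + x.1 1 ^ 2) = rr1 x := rfl
  rw [h3]
  have h4 := h1.ne'
  field_simp
  norm_num
  ring

lemma gg_d2 (x w : G7) (h1 : 0 < rr2 x) :
    HasDerivAt (fun t : ℝ => rr2 (x + t • w)) ((x.1 2 * w.1 2 + x.1 3 * w.1 3) / rr2 x) 0 := by
  have e1 := ((gg_line x w 2).pow 2).add ((gg_line x w 3).pow 2)
  have h0 : 0 < x.1 2 ^ 2 + x.1 3 ^ 2 := gg_pos h1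
  have e2 := e1.sqrt (by
    show (x + (0 : ℝ) • w).1 2 ^ 2 + (x + (0 : ℝ) • w).1 3 ^ 2 ≠ 0
    rw [gg_zero]
    exact h0.ne')
  refine e2.congr_deriv ?_
  show (((2 : ℕ) : ℝ) * (x + (0 : ℝ) • w).1 2 ^ (2 - 1) * w.1 2 +
    ((2 : ℕ) : ℝ) * (x + (0 : ℝ) • w).1 3 ^ (2 - 1) * w.1 3) /
      (2 * Real.sqrt ((x + (0 : ℝ) • w).1 2 ^ 2 + (x + (0 : ℝ) • w).1 3 ^ 2)) = _
  rw [gg_zero]
  have h3 : Real.sqrt (x.1 2 ^ 2 + x.1 3 ^ 2) = rr2 x := rfl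
  rw [h3]
  have h4 := h1.ne'
  field_simp
  norm_num
  ring

lemma gg_c0 (h : ℝ) (x w : G7) (h1 : 0 < rr1 x) (h2 : 0 < rr2 x) (hh : 0 < h) :
    fderiv ℝ (XX h) x w 0 = (rr2 x * ((x.1 0 * w.1 0 + x.1 1 * w.1 1) / rr1 x) +
      rr1 x * ((x.1 2 * w.1 2 + x.1 3 * w.1 3) / rr2 x) - (x.1 4 * w.1 4 + x.1 5 * w.1 5)) /
        (2 * h) := by
  have hd := (contDiffAt_XX h x h1 h2).differentiableAt (by simp)
  refine (gg_fderiv hd w 0).unique ?_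
  have e := ((((((gg_d1 x w h1).const_mul 2).mul (gg_d2 x w h2)).sub
    (((gg_line x w 4).pow 2).add ((gg_line x w 5).pow 2))).div_const 4).sub_const 1).div_const h
  refine e.congr_deriv ?_
  simp only [zero_smul, add_zero]
  have := hh.ne'
  field_simp
  ring

lemma gg_c1 (h : ℝ) (x w : G7) (h1 : 0 < rr1 x) (h2 : 0 < rr2 x) (hh : 0 < h) :
    fderiv ℝ (XX h) x w 1 = ((x.1 0 * w.1 0 + x.1 1 * w.1 1) -
      (x.1 2 * w.1 2 + x.1 3 * w.1 3)) / (2 * h) := by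
  have hd := (contDiffAt_XX h x h1 h2).differentiableAt (by simp)
  refine (gg_fderiv hd w 1).unique ?_
  have e := (((gg_d1 x w h1).pow 2).sub ((gg_d2 x w h2).pow 2)).div_const (4 * h)
  refine e.congr_deriv ?_
  simp only [zero_smul, add_zero]
  have := hh.ne'
  have := h1.ne'
  have := h2.ne'
  field_simp
  ring

lemma gg_c2 (h : ℝ) (x w : G7) (h1 : 0 < rr1 x) (h2 : 0 < rr2 x) :
    fderiv ℝ (XX h) x w 2 = (((x.1 0 * w.1 0 + x.1 1 * w.1 1) / rr1 x +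
      (x.1 2 * w.1 2 + x.1 3 * w.1 3) / rr2 x) * x.1 4 + (rr1 x + rr2 x) * w.1 4) /
        (2 * Real.sqrt 2 * h) := by
  have hd := (contDiffAt_XX h x h1 h2).differentiableAt (by simp)
  refine (gg_fderiv hd w 2).unique ?_
  have e := (((gg_d1 x w h1).add (gg_d2 x w h2)).mul (gg_line x w 4)).div_const
    (2 * Real.sqrt 2 * h)
  refine e.congr_deriv ?_
  simp only [zero_smul, add_zero, Pi.add_apply]

lemma gg_c3 (h : ℝ) (x w : G7) (h1 : 0 < rr1 x) (h2 : 0 < rr2 x) :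
    fderiv ℝ (XX h) x w 3 = (((x.1 0 * w.1 0 + x.1 1 * w.1 1) / rr1 x +
      (x.1 2 * w.1 2 + x.1 3 * w.1 3) / rr2 x) * x.1 5 + (rr1 x + rr2 x) * w.1 5) /
        (2 * Real.sqrt 2 * h) := by
  have hd := (contDiffAt_XX h x h1 h2).differentiableAt (by simp)
  refine (gg_fderiv hd w 3).unique ?_
  have e := (((gg_d1 x w h1).add (gg_d2 x w h2)).mul (gg_line x w 5)).div_const
    (2 * Real.sqrt 2 * h)
  refine e.congr_deriv ?_
  simp only [zero_smul, add_zero, Pi.add_apply]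

lemma gg_c4 (h : ℝ) (x w : G7) (h1 : 0 < rr1 x) (h2 : 0 < rr2 x) :
    fderiv ℝ (XX h) x w 4 = w.2 0 / h := by
  have hd := (contDiffAt_XX h x h1 h2).differentiableAt (by simp)
  refine (gg_fderiv hd w 4).unique ?_
  have e : (fun t : ℝ => XX h (x + t • w) 4) = fun t : ℝ => (x.2 0 + t * w.2 0) / h := by
    funext t
    rfl
  rw [e]
  have := (((hasDerivAt_id (0 : ℝ)).mul_const (w.2 0)).const_add (x.2 0)).div_const h
  rw [one_mul] at this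
  exact this

/-- `1 / (2 √2) = √2 / 4`. -/
lemma gg_sqrt (a h : ℝ) : a / (2 * Real.sqrt 2 * h) = a * Real.sqrt 2 / 4 / h := by
  have h2 : Real.sqrt 2 ≠ 0 := (Real.sqrt_pos.2 two_pos).ne'
  have h3 : Real.sqrt 2 * Real.sqrt 2 = 2 := Real.mul_self_sqrt two_pos.le
  rw [← div_div]
  congr 1
  rw [div_eq_div_iff (by positivity) (by norm_num)]
  linear_combination (-2 * a) * h3

lemma gg_inner {h : ℝ} (hh : 0 < h) (x w : G7) (h1 : 0 < rr1 x) (h2 : 0 < rr2 x) (u : EE) :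
    inner ℝ u (fderiv ℝ (XX h) x w) =
      ((x.1 0 * w.1 0 + x.1 1 * w.1 1) / rr1 x * ((u 0 * rr2 x + u 1 * rr1 x) / 2 +
          Real.sqrt 2 / 4 * (u 2 * x.1 4 + u 3 * x.1 5)) +
        (x.1 2 * w.1 2 + x.1 3 * w.1 3) / rr2 x * ((u 0 * rr1 x - u 1 * rr2 x) / 2 +
          Real.sqrt 2 / 4 * (u 2 * x.1 4 + u 3 * x.1 5)) +
        w.1 4 * (-(u 0 * x.1 4) / 2 + u 2 * (rr1 x + rr2 x) * Real.sqrt 2 / 4) +
        w.1 5 * (-(u 0 * x.1 5) / 2 + u 3 * (rr1 x + rr2 x) * Real.sqrt 2 / 4) +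
        u 4 * w.2 0) / h := by
  rw [PiLp.inner_apply, Fin.sum_univ_five]
  simp only [RCLike.inner_apply, conj_trivial]
  rw [gg_c0 h x w h1 h2 hh, gg_c1 h x w h1 h2 hh, gg_c2 h x w h1 h2, gg_c3 h x w h1 h2,
    gg_c4 h x w h1 h2, gg_sqrt, gg_sqrt]
  have e1 := h1.ne'
  have e2 := h2.ne'
  have e3 := hh.ne'
  field_simp
  ring

/-- The pair of fields in one complex direction. -/
lemma gg_pair {a b r A A' p q : ℝ} (hr : r ≠ 0) (h : r ^ 2 = a ^ 2 + b ^ 2) :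
    (a / r * A + p * (-b / 2)) * (a / r * A' + q * (-b / 2)) +
      (b / r * A + p * (a / 2)) * (b / r * A' + q * (a / 2)) = A * A' + p * q * r ^ 2 / 4 := by
  have e1 : (a / r) ^ 2 + (b / r) ^ 2 = 1 := by
    rw [div_pow, div_pow, ← add_div, ← h]
    exact div_self (pow_ne_zero 2 hr)
  have e2 : a / r * b = b / r * a := by ring
  linear_combination (A * A') * e1 - (p * q / 4) * h + (-(A * q) / 2 - A' * p / 2) * e2

lemma gg_JR (x u v : EE) : inner ℝ u (TR x v) =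
    (x 1 ^ 2 + x 2 ^ 2 + x 3 ^ 2) * (u 1 * v 1 + u 2 * v 2 + u 3 * v 3) -
      (x 1 * v 1 + x 2 * v 2 + x 3 * v 3) * (x 1 * u 1 + x 2 * u 2 + x 3 * u 3) := by
  rw [PiLp.inner_apply, Fin.sum_univ_five]
  simp only [RCLike.inner_apply, conj_trivial]
  simp [TR]
  ring

lemma gg_uv (u v : EE) : inner ℝ u v = u 0 * v 0 + u 1 * v 1 + u 2 * v 2 + u 3 * v 3 + u 4 * v 4 := by
  rw [PiLp.inner_apply, Fin.sum_univ_five]
  simp only [RCLike.inner_apply, conj_trivial]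
  ring

/-- TASK G03 (same file).  The horizontal gradients of functions of the orbit coordinates.
Compute the derivative of `XX` along `Xd i x` (use `rr1`, `rr2` differentiable, partial derivatives
`x_0 / r1` etc.); the `σ`-derivatives contribute `|z|²/4 · u 4 · v 4 / h²`, the mixed terms vanish
because of `hu`, `hv`; the rest is the identity `DY DYᵀ` of the notes, section 1. -/
lemma grad_identity {h : ℝ} (hh : 0 < h) (x : G7) (h1 : 0 < rr1 x) (h2 : 0 < rr2 x) (u v : EE)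
    (hy : 0 < 1 + h * XX h x 0)
    (hu : XX h x 2 * u 3 = XX h x 3 * u 2) (hv : XX h x 2 * v 3 = XX h x 3 * v 2) :
    ∑ i, inner ℝ u (fderiv ℝ (XX h) x (Xd i x)) * inner ℝ v (fderiv ℝ (XX h) x (Xd i x)) =
      rhoR h (XX h x) / h ^ 2 * inner ℝ u (GR h (XX h x) v) := by
  have e1 := h1.ne'
  have e2 := h2.ne'
  have e3 := hh.ne'
  have q1 : rr1 x ^ 2 = x.1 0 ^ 2 + x.1 1 ^ 2 := Real.sq_sqrt (by positivity)
  have q2 : rr2 x ^ 2 = x.1 2 ^ 2 + x.1 3 ^ 2 := Real.sq_sqrt (by positivity)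
  have ht : Real.sqrt 2 ^ 2 = 2 := Real.sq_sqrt two_pos.le
  have ht0 : 0 < Real.sqrt 2 := Real.sqrt_pos.2 two_pos
  -- coordinates of the point
  have c1 : XX h x 1 = (rr1 x ^ 2 - rr2 x ^ 2) / (4 * h) := rfl
  have c2 : XX h x 2 = (rr1 x + rr2 x) * x.1 4 * Real.sqrt 2 / 4 / h := by
    rw [← gg_sqrt]
    rfl
  have c3 : XX h x 3 = (rr1 x + rr2 x) * x.1 5 * Real.sqrt 2 / 4 / h := by
    rw [← gg_sqrt]
    rfl
  have hfac : (rr1 x + rr2 x) * Real.sqrt 2 / 4 / h ≠ 0 := by positivity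
  have hv' : x.1 4 * v 3 = x.1 5 * v 2 := by
    rw [c2, c3] at hv
    apply mul_left_cancel₀ hfac
    linear_combination hv
  have hu' : x.1 4 * u 3 = x.1 5 * u 2 := by
    rw [c2, c3] at hu
    apply mul_left_cancel₀ hfac
    linear_combination hu
  -- the right hand side
  have hz : zsq x = rr1 x ^ 2 + rr2 x ^ 2 + (x.1 4 ^ 2 + x.1 5 ^ 2) := by
    unfold zsq
    rw [Fin.sum_univ_six, q1, q2]
    ring
  have hrho : rhoR h (XX h x) = (rr1 x ^ 2 + rr2 x ^ 2 + (x.1 4 ^ 2 + x.1 5 ^ 2)) / 4 := by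
    rw [rhoR_XX e3, hz]
  have hrho0 : 0 < (rr1 x ^ 2 + rr2 x ^ 2 + (x.1 4 ^ 2 + x.1 5 ^ 2)) / 4 := by positivity
  have hk : rhoR h (XX h x) * kR h (XX h x) = 2 * h ^ 2 / (rr1 x + rr2 x) ^ 2 := by
    unfold kR
    rw [y1_XX e3, hrho]
    have e5 : (rr1 x ^ 2 + rr2 x ^ 2 + (x.1 4 ^ 2 + x.1 5 ^ 2)) / 4 +
        (2 * rr1 x * rr2 x - (x.1 4 ^ 2 + x.1 5 ^ 2)) / 4 = (rr1 x + rr2 x) ^ 2 / 4 := by ring
    rw [e5]
    have e6 : rr1 x + rr2 x ≠ 0 := by positivity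
    have e7 := hrho0.ne'
    have e8 : rr1 x ^ 2 + rr2 x ^ 2 + (x.1 4 ^ 2 + x.1 5 ^ 2) ≠ 0 := by positivity
    field_simp
    norm_num
  have hR : rhoR h (XX h x) / h ^ 2 * inner ℝ u (GR h (XX h x) v) =
      ((rr1 x ^ 2 + rr2 x ^ 2 + (x.1 4 ^ 2 + x.1 5 ^ 2)) / 4 *
        (u 0 * v 0 + u 1 * v 1 + u 2 * v 2 + u 3 * v 3 + u 4 * v 4) -
        1 / 8 * (((rr1 x - rr2 x) ^ 2 + 2 * (x.1 4 ^ 2 + x.1 5 ^ 2)) *
          (u 1 * v 1 + u 2 * v 2 + u 3 * v 3) -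
        ((rr1 x - rr2 x) * v 1 + Real.sqrt 2 * (x.1 4 * v 2 + x.1 5 * v 3)) *
        ((rr1 x - rr2 x) * u 1 + Real.sqrt 2 * (x.1 4 * u 2 + x.1 5 * u 3)))) / h ^ 2 := by
    have e6 : rr1 x + rr2 x ≠ 0 := by positivity
    unfold GR
    rw [inner_sub_right, inner_smul_right, gg_JR, gg_uv]
    have e9 : rhoR h (XX h x) / h ^ 2 *
        (u 0 * v 0 + u 1 * v 1 + u 2 * v 2 + u 3 * v 3 + u 4 * v 4 - kR h (XX h x) *
          ((XX h x 1 ^ 2 + XX h x 2 ^ 2 + XX h x 3 ^ 2) * (u 1 * v 1 + u 2 * v 2 + u 3 * v 3) -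
      (XX h x 1 * v 1 + XX h x 2 * v 2 + XX h x 3 * v 3) *
        (XX h x 1 * u 1 + XX h x 2 * u 2 + XX h x 3 * u 3))) =
        (rhoR h (XX h x) * (u 0 * v 0 + u 1 * v 1 + u 2 * v 2 + u 3 * v 3 + u 4 * v 4) -
        (rhoR h (XX h x) * kR h (XX h x)) *
          ((XX h x 1 ^ 2 + XX h x 2 ^ 2 + XX h x 3 ^ 2) * (u 1 * v 1 + u 2 * v 2 + u 3 * v 3) -
      (XX h x 1 * v 1 + XX h x 2 * v 2 + XX h x 3 * v 3) *
        (XX h x 1 * u 1 + XX h x 2 * u 2 + XX h x 3 * u 3))) / h ^ 2 := by ring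
    rw [e9, hk, hrho, c1, c2, c3]
    congr 1
    have e10 : (rr1 x ^ 2 - rr2 x ^ 2) / (4 * h) =
        (rr1 x + rr2 x) / (4 * h) * (rr1 x - rr2 x) := by ring
    have e11 : ∀ a : ℝ, (rr1 x + rr2 x) * a * Real.sqrt 2 / 4 / h =
        (rr1 x + rr2 x) / (4 * h) * (a * Real.sqrt 2) := by
      intro a
      ring
    rw [e10, e11, e11]
    have e12 : 2 * h ^ 2 / (rr1 x + rr2 x) ^ 2 * ((rr1 x + rr2 x) / (4 * h)) ^ 2 = 1 / 8 := by
      field_simp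
      norm_num
    linear_combination (-(((rr1 x - rr2 x) ^ 2 + (x.1 4 * Real.sqrt 2) ^ 2 +
      (x.1 5 * Real.sqrt 2) ^ 2) * (u 1 * v 1 + u 2 * v 2 + u 3 * v 3) -
      ((rr1 x - rr2 x) * v 1 + x.1 4 * Real.sqrt 2 * v 2 + x.1 5 * Real.sqrt 2 * v 3) *
      ((rr1 x - rr2 x) * u 1 + x.1 4 * Real.sqrt 2 * u 2 + x.1 5 * Real.sqrt 2 * u 3))) * e12 -
      1 / 8 * ((x.1 4 ^ 2 + x.1 5 ^ 2) * (u 1 * v 1 + u 2 * v 2 + u 3 * v 3)) * ht
  rw [hR, Fin.sum_univ_six]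
  have J : ∀ (i : Fin 6) (u : EE), inner ℝ u (fderiv ℝ (XX h) x (Xd i x)) = _ :=
    fun i u => gg_inner hh x (Xd i x) h1 h2 u
  simp only [J]
  have m0 : (Xd 0 x).2 0 = -x.1 1 / 2 := by
    simp [Xd, Jm, Matrix.mulVec, dotProduct, Fin.sum_univ_six]
  have m1 : (Xd 1 x).2 0 = x.1 0 / 2 := by
    simp [Xd, Jm, Matrix.mulVec, dotProduct, Fin.sum_univ_six]
  have m2 : (Xd 2 x).2 0 = -x.1 3 / 2 := by
    simp [Xd, Jm, Matrix.mulVec, dotProduct, Fin.sum_univ_six]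
  have m3 : (Xd 3 x).2 0 = x.1 2 / 2 := by
    simp [Xd, Jm, Matrix.mulVec, dotProduct, Fin.sum_univ_six]
  have m4 : (Xd 4 x).2 0 = -x.1 5 / 2 := by
    simp [Xd, Jm, Matrix.mulVec, dotProduct, Fin.sum_univ_six]
  have m5 : (Xd 5 x).2 0 = x.1 4 / 2 := by
    simp [Xd, Jm, Matrix.mulVec, dotProduct, Fin.sum_univ_six]
  rw [m0, m1, m2, m3, m4, m5]
  have s : ∀ i j : Fin 6, (Xd i x).1 j = if j = i then 1 else 0 := by
    intro i j
    simp [Xd, Pi.single_apply]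
  simp only [s]
  simp only [Fin.isValue, Fin.reduceEq, if_true, if_false, mul_zero, mul_one, add_zero, zero_add,
    zero_div, zero_mul, one_mul]
  have P1 := gg_pair (a := x.1 0) (b := x.1 1) (r := rr1 x)
    (A := (u 0 * rr2 x + u 1 * rr1 x) / 2 + Real.sqrt 2 / 4 * (u 2 * x.1 4 + u 3 * x.1 5))
    (A' := (v 0 * rr2 x + v 1 * rr1 x) / 2 + Real.sqrt 2 / 4 * (v 2 * x.1 4 + v 3 * x.1 5))
    (p := u 4) (q := v 4) e1 q1
  have P2 := gg_pair (a := x.1 2) (b := x.1 3) (r := rr2 x)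
    (A := (u 0 * rr1 x - u 1 * rr2 x) / 2 + Real.sqrt 2 / 4 * (u 2 * x.1 4 + u 3 * x.1 5))
    (A' := (v 0 * rr1 x - v 1 * rr2 x) / 2 + Real.sqrt 2 / 4 * (v 2 * x.1 4 + v 3 * x.1 5))
    (p := u 4) (q := v 4) e2 q2
  linear_combination (1 / h ^ 2) * P1 + (1 / h ^ 2) * P2 +
    ((rr1 x + rr2 x) ^ 2 * (u 2 * v 2 + u 3 * v 3) / 16 / h ^ 2) * ht +
    (u 4 * (rr1 x + rr2 x) * Real.sqrt 2 / 8 / h ^ 2) * hv' +
    (v 4 * (rr1 x + rr2 x) * Real.sqrt 2 / 8 / h ^ 2) * hu'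

end
end OD16
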