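import Pool.Agent.LibOD16.GeoRt

set_option autoImplicit false
namespace OD16
open MeasureTheory Metric
noncomputable section

lemma Rt_neg_Rt (a : Fin 3 → ℝ) (x : G7) : Rt (-a) (Rt a x) = x := by
  rw [← Rt_add, neg_add_cancel, Rt_zero]

lemma Rt_Rt_neg (a : Fin 3 → ℝ) (x : G7) : Rt a (Rt (-a) x) = x := by
  rw [← Rt_add, add_neg_cancel, Rt_zero]

lemma continuous_Rt_right (a : Fin 3 → ℝ) : Continuous (Rt a) := by
  have h1 : Continuous (fun x : G7 => ((a, x) : (Fin 3 → ℝ) × G7)) :=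
    Continuous.prodMk continuous_const continuous_id
  have h2 : Continuous ((fun p : (Fin 3 → ℝ) × G7 => Rt p.1 p.2) ∘
      (fun x : G7 => ((a, x) : (Fin 3 → ℝ) × G7))) := Continuous.comp continuous_Rt h1
  have h : Rt a = ((fun p : (Fin 3 → ℝ) × G7 => Rt p.1 p.2) ∘
      (fun x : G7 => ((a, x) : (Fin 3 → ℝ) × G7))) := by
    funext x
    rfl
  rw [h]
  exact h2

/-- The rotation as a homeomorphism. -/
def RtHomeo (a : Fin 3 → ℝ) : G7 ≃ₜ G7 where
  toFun := Rt a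
  invFun := Rt (-a)
  left_inv := Rt_neg_Rt a
  right_inv := Rt_Rt_neg a
  continuous_toFun := continuous_Rt_right a
  continuous_invFun := continuous_Rt_right (-a)

/-- TASK G05a.  Invariance of the functional under one rotation (change of variables). -/
lemma functional_Rt (Ω : Set G7) (hΩ : IsOpen Ω) (hinv : ∀ a, ∀ x ∈ Ω, Rt a x ∈ Ω)
    (cf : Fin 6 → G7 → ℝ) (d : G7 → ℝ) 
    (hcf : ∀ a, ∀ x ∈ Ω, ∀ i, cf i (Rt a x) = ∑ j, RtM a i j * cf j x)
    (hd : ∀ a, ∀ x ∈ Ω, d (Rt a x) = d x)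
    (φ : G7 → ℝ) (hφ : ContDiff ℝ 1 φ) (a : Fin 3 → ℝ) :
    ∫ x in Ω, (∑ i, cf i x * fderiv ℝ (fun y => φ (Rt a y)) x (Xd i x) - d x * φ (Rt a x)) =
      ∫ x in Ω, (∑ i, cf i x * fderiv ℝ φ x (Xd i x) - d x * φ x) := by
  have h1 : Rt a ⁻¹' Ω = Ω := by
    ext x
    constructor
    · intro hx
      have := hinv (-a) (Rt a x) hx
      rwa [Rt_neg_Rt] at this
    · exact hinv a x
  have h2 := (measurePreserving_Rt a).setIntegral_preimage_emb (RtHomeo a).measurableEmbedding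
    (fun x => ∑ i, cf i x * fderiv ℝ φ x (Xd i x) - d x * φ x) Ω
  rw [← h2, h1]
  apply setIntegral_congr_fun hΩ.measurableSet
  intro x hx
  change ∑ i, cf i x * fderiv ℝ (fun y => φ (Rt a y)) x (Xd i x) - d x * φ (Rt a x) =
    ∑ i, cf i (Rt a x) * fderiv ℝ φ (Rt a x) (Xd i (Rt a x)) - d (Rt a x) * φ (Rt a x)
  rw [hd a x hx]
  congr 1
  have h3 : ∀ i, fderiv ℝ (fun y => φ (Rt a y)) x (Xd i x) =
      ∑ j, RtM a j i * fderiv ℝ φ (Rt a x) (Xd j (Rt a x)) := fun i =>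
    fderiv_comp_Rt φ a x (hφ.differentiable one_ne_zero _) i
  simp only [h3, hcf a x hx, Finset.mul_sum, Finset.sum_mul]
  rw [Finset.sum_comm]
  apply Finset.sum_congr rfl
  intro j _
  apply Finset.sum_congr rfl
  intro i _
  ring

end
end OD16
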