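import Pool.Agent.LibOD16.GeoA

set_option autoImplicit false
namespace OD16
open MeasureTheory Metric
noncomputable section

private lemma geoNorm_XX0 (h : ℝ) (x : G7) :
    XX h x 0 = ((2 * rr1 x * rr2 x - (x.1 4 ^ 2 + x.1 5 ^ 2)) / 4 - 1) / h := rfl

private lemma geoNorm_XX1 (h : ℝ) (x : G7) :
    XX h x 1 = (rr1 x ^ 2 - rr2 x ^ 2) / (4 * h) := rfl

private lemma geoNorm_XX2 (h : ℝ) (x : G7) :
    XX h x 2 = (rr1 x + rr2 x) * x.1 4 / (2 * Real.sqrt 2 * h) := rfl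

private lemma geoNorm_XX3 (h : ℝ) (x : G7) :
    XX h x 3 = (rr1 x + rr2 x) * x.1 5 / (2 * Real.sqrt 2 * h) := rfl

private lemma geoNorm_rr1_sq (x : G7) : rr1 x ^ 2 = x.1 0 ^ 2 + x.1 1 ^ 2 := by
  unfold rr1
  exact Real.sq_sqrt (by positivity)

private lemma geoNorm_rr2_sq (x : G7) : rr2 x ^ 2 = x.1 2 ^ 2 + x.1 3 ^ 2 := by
  unfold rr2
  exact Real.sq_sqrt (by positivity)

private lemma geoNorm_rr1_nonneg (x : G7) : 0 ≤ rr1 x := Real.sqrt_nonneg _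

private lemma geoNorm_rr2_nonneg (x : G7) : 0 ≤ rr2 x := Real.sqrt_nonneg _

private lemma geoNorm_zsq (x : G7) :
    zsq x = rr1 x ^ 2 + rr2 x ^ 2 + (x.1 4 ^ 2 + x.1 5 ^ 2) := by
  rw [geoNorm_rr1_sq, geoNorm_rr2_sq]
  unfold zsq
  rw [Fin.sum_univ_six]
  ring

private lemma geoNorm_abs_le (X : EE) (i : Fin 5) : |X i| ≤ ‖X‖ := by
  have h := PiLp.norm_apply_le X i
  rwa [Real.norm_eq_abs] at h

private lemma geoNorm_normsq (X : EE) :
    X 0 ^ 2 + X 1 ^ 2 + X 2 ^ 2 + X 3 ^ 2 + X 4 ^ 2 = ‖X‖ ^ 2 := by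
  rw [EuclideanSpace.norm_sq_eq, Fin.sum_univ_five]
  simp only [Real.norm_eq_abs, sq_abs]

/-- TASK G01.  `|y| = |z|²/4`:  `(2 r1 r2 - s)² + (r1² - r2²)² + 2 (r1 + r2)² s = (r1² + r2² + s)²`. -/
lemma rhoR_XX {h : ℝ} (hh : h ≠ 0) (x : G7) : rhoR h (XX h x) = zsq x / 4 := by
  have h2 : Real.sqrt 2 ^ 2 = 2 := Real.sq_sqrt (by norm_num)
  have h20 : Real.sqrt 2 ≠ 0 := by positivity
  have e0 : 1 + h * XX h x 0 = (2 * rr1 x * rr2 x - (x.1 4 ^ 2 + x.1 5 ^ 2)) / 4 := by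
    rw [geoNorm_XX0]
    field_simp
    ring
  have e1 : h * XX h x 1 = (rr1 x ^ 2 - rr2 x ^ 2) / 4 := by
    rw [geoNorm_XX1]
    field_simp
  have e2 : (h * XX h x 2) ^ 2 = (rr1 x + rr2 x) ^ 2 * x.1 4 ^ 2 / 8 := by
    have e : h * XX h x 2 = (rr1 x + rr2 x) * x.1 4 / (2 * Real.sqrt 2) := by
      rw [geoNorm_XX2]
      field_simp
    rw [e, div_pow, mul_pow, mul_pow, h2]
    norm_num
  have e3 : (h * XX h x 3) ^ 2 = (rr1 x + rr2 x) ^ 2 * x.1 5 ^ 2 / 8 := by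
    have e : h * XX h x 3 = (rr1 x + rr2 x) * x.1 5 / (2 * Real.sqrt 2) := by
      rw [geoNorm_XX3]
      field_simp
    rw [e, div_pow, mul_pow, mul_pow, h2]
    norm_num
  have hz : 0 ≤ zsq x / 4 := by
    unfold zsq
    positivity
  unfold rhoR
  rw [e0, e1, e2, e3]
  have key : ((2 * rr1 x * rr2 x - (x.1 4 ^ 2 + x.1 5 ^ 2)) / 4) ^ 2 +
      ((rr1 x ^ 2 - rr2 x ^ 2) / 4) ^ 2 + (rr1 x + rr2 x) ^ 2 * x.1 4 ^ 2 / 8 +
      (rr1 x + rr2 x) ^ 2 * x.1 5 ^ 2 / 8 = (zsq x / 4) ^ 2 := by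
    rw [geoNorm_zsq]
    ring
  rw [key, Real.sqrt_sq hz]

lemma y1_XX {h : ℝ} (hh : h ≠ 0) (x : G7) :
    1 + h * XX h x 0 = (2 * rr1 x * rr2 x - (x.1 4 ^ 2 + x.1 5 ^ 2)) / 4 := by
  rw [geoNorm_XX0]
  field_simp
  ring

private lemma geoNorm_cont1 (i : Fin 6) : Continuous fun x : G7 => x.1 i :=
  (continuous_apply i).comp continuous_fst

private lemma geoNorm_cont2 : Continuous fun x : G7 => x.2 0 :=
  (continuous_apply (0 : Fin 1)).comp continuous_snd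

private lemma geoNorm_cont_rr1 : Continuous rr1 := by
  unfold rr1
  exact Real.continuous_sqrt.comp
    (((geoNorm_cont1 0).pow 2).add ((geoNorm_cont1 1).pow 2))

private lemma geoNorm_cont_rr2 : Continuous rr2 := by
  unfold rr2
  exact Real.continuous_sqrt.comp
    (((geoNorm_cont1 2).pow 2).add ((geoNorm_cont1 3).pow 2))

lemma continuous_XX (h : ℝ) : Continuous (XX h) := by
  unfold XX
  refine (PiLp.continuous_toLp 2 _).comp (continuous_pi fun i => ?_)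
  have hr1 := geoNorm_cont_rr1
  have hr2 := geoNorm_cont_rr2
  have h4 := geoNorm_cont1 4
  have h5 := geoNorm_cont1 5
  fin_cases i
  · exact (((((continuous_const.mul hr1).mul hr2).sub
      ((h4.pow 2).add (h5.pow 2))).div_const 4).sub continuous_const).div_const h
  · exact ((hr1.pow 2).sub (hr2.pow 2)).div_const (4 * h)
  · exact ((hr1.add hr2).mul h4).div_const (2 * Real.sqrt 2 * h)
  · exact ((hr1.add hr2).mul h5).div_const (2 * Real.sqrt 2 * h)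
  · exact geoNorm_cont2.div_const h

/-- In the ball of radius 2 all geometric quantities are nondegenerate. -/
lemma rhoR_bounds {h : ℝ} (hh : 0 < h) (hh1 : h ≤ 1 / 100) {X : EE} (hX : X ∈ ball (0 : EE) 2) :
    (9 : ℝ) / 10 < 1 + h * X 0 ∧ (9 : ℝ) / 10 < rhoR h X ∧ rhoR h X < 11 / 10 := by
  have hn : ‖X‖ < 2 := by rwa [mem_ball_zero_iff] at hX
  have h0 : |X 0| < 2 := lt_of_le_of_lt (geoNorm_abs_le X 0) hn
  obtain ⟨h0a, h0b⟩ := abs_lt.mp h0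
  have hlow : (9 : ℝ) / 10 < 1 + h * X 0 := by nlinarith
  refine ⟨hlow, ?_, ?_⟩
  · refine lt_of_lt_of_le hlow ?_
    unfold rhoR
    refine Real.le_sqrt_of_sq_le ?_
    nlinarith [sq_nonneg (h * X 1), sq_nonneg (h * X 2), sq_nonneg (h * X 3)]
  · unfold rhoR
    rw [Real.sqrt_lt' (by norm_num)]
    have hs := geoNorm_normsq X
    have hn2 : ‖X‖ ^ 2 < 4 := by nlinarith [norm_nonneg X]
    have hsum : X 0 ^ 2 + X 1 ^ 2 + X 2 ^ 2 + X 3 ^ 2 < 4 := by nlinarith [sq_nonneg (X 4)]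
    have hh2 : h ^ 2 ≤ 1 / 10000 := by nlinarith
    have hprod : h ^ 2 * (X 0 ^ 2 + X 1 ^ 2 + X 2 ^ 2 + X 3 ^ 2) ≤ 1 / 10000 * 4 := by
      refine mul_le_mul hh2 hsum.le (by positivity) (by norm_num)
    have hX0 : h * X 0 ≤ 1 / 100 * 2 := by nlinarith
    nlinarith [hprod, hX0]

/-- `1 + h X 0 > 0` forces `r1 r2 > 0`. -/
lemma rr_pos {h : ℝ} (hh : 0 < h) (hh1 : h ≤ 1 / 100) (x : G7) (hx : XX h x ∈ ball (0 : EE) 2) :
    0 < rr1 x ∧ 0 < rr2 x := by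
  have hb := (rhoR_bounds hh hh1 hx).1
  rw [y1_XX hh.ne'] at hb
  have hp : 0 < rr1 x * rr2 x := by
    nlinarith [sq_nonneg (x.1 4), sq_nonneg (x.1 5)]
  have h1 := geoNorm_rr1_nonneg x
  have h2 := geoNorm_rr2_nonneg x
  constructor
  · rcases h1.lt_or_eq with h | h
    · exact h
    · rw [← h, zero_mul] at hp
      exact absurd hp (lt_irrefl 0)
  · rcases h2.lt_or_eq with h | h
    · exact h
    · rw [← h, mul_zero] at hp
      exact absurd hp (lt_irrefl 0)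

end
end OD16
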