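import Pool.Agent.LibOD16.GeoNorm

set_option autoImplicit false
namespace OD16
open MeasureTheory Metric
noncomputable section

/-- The measurable map `x ↦ (r1, r2, x_4, x_5, σ)`. -/
def polX (x : G7) : EE := WithLp.toLp 2 ![rr1 x, rr2 x, x.1 4, x.1 5, x.2 0]

/-- Polar coordinates in the plane for functions of the distance to the origin. -/
private lemma geoPolar_pol2 (g : ℝ → ℝ) :
    ∫ p : ℝ × ℝ, g (Real.sqrt (p.1 ^ 2 + p.2 ^ 2)) =
      2 * Real.pi * ∫ r in Set.Ioi (0 : ℝ), r * g r := by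
  rw [← integral_comp_polarCoord_symm]
  have h1 : ∫ p in polarCoord.target, p.1 • g (Real.sqrt ((polarCoord.symm p).1 ^ 2 +
      (polarCoord.symm p).2 ^ 2)) =
      ∫ p in Set.Ioi (0 : ℝ) ×ˢ Set.Ioo (-Real.pi) Real.pi, (fun r => r * g r) p.1 *
        (fun _ : ℝ => (1 : ℝ)) p.2 := by
    rw [polarCoord_target]
    refine setIntegral_congr_fun (measurableSet_Ioi.prod measurableSet_Ioo) fun p hp => ?_
    have hp1 : 0 < p.1 := hp.1
    simp only [polarCoord_symm_apply, smul_eq_mul, mul_one]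
    have e : (p.1 * Real.cos p.2) ^ 2 + (p.1 * Real.sin p.2) ^ 2 = p.1 ^ 2 := by
      have := Real.cos_sq_add_sin_sq p.2
      calc (p.1 * Real.cos p.2) ^ 2 + (p.1 * Real.sin p.2) ^ 2
          = p.1 ^ 2 * (Real.cos p.2 ^ 2 + Real.sin p.2 ^ 2) := by ring
        _ = p.1 ^ 2 := by rw [this, mul_one]
    rw [e, Real.sqrt_sq hp1.le]
  have h3 := setIntegral_prod_mul (μ := (volume : Measure ℝ)) (ν := (volume : Measure ℝ))
    (fun r : ℝ => r * g r) (fun _ : ℝ => (1 : ℝ)) (Set.Ioi (0 : ℝ))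
    (Set.Ioo (-Real.pi) Real.pi)
  rw [← Measure.volume_eq_prod] at h3
  rw [h1, h3]
  have h2 : ∫ _y in Set.Ioo (-Real.pi) Real.pi, (1 : ℝ) = 2 * Real.pi := by
    rw [setIntegral_const, smul_eq_mul, mul_one, Real.volume_real_Ioo_of_le
      (by linarith [Real.pi_pos])]
    ring
  rw [h2]
  ring

/-- The identification of three planes with the space of six coordinates. -/
private def geoPolar_P6 (u : (ℝ × ℝ) × ((ℝ × ℝ) × (ℝ × ℝ))) : Fin 6 → ℝ :=
  ![u.1.1, u.1.2, u.2.1.1, u.2.1.2, u.2.2.1, u.2.2.2]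

private lemma geoPolar_meas6 : Measurable geoPolar_P6 := by
  refine measurable_pi_lambda _ fun i => ?_
  fin_cases i
  · exact measurable_fst.fst
  · exact measurable_fst.snd
  · exact measurable_snd.fst.fst
  · exact measurable_snd.fst.snd
  · exact measurable_snd.snd.fst
  · exact measurable_snd.snd.snd

private lemma geoPolar_inj6 : Function.Injective geoPolar_P6 := by
  rintro ⟨⟨a, b⟩, ⟨c, d⟩, ⟨e, f⟩⟩ ⟨⟨a', b'⟩, ⟨c', d'⟩, ⟨e', f'⟩⟩ h
  have h0 : a = a' := congrFun h 0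
  have h1 : b = b' := congrFun h 1
  have h2 : c = c' := congrFun h 2
  have h3 : d = d' := congrFun h 3
  have h4 : e = e' := congrFun h 4
  have h5 : f = f' := congrFun h 5
  rw [h0, h1, h2, h3, h4, h5]

private lemma geoPolar_emb6 : MeasurableEmbedding geoPolar_P6 :=
  geoPolar_meas6.measurableEmbedding geoPolar_inj6

private lemma geoPolar_mp6 : MeasurePreserving geoPolar_P6 := by
  refine ⟨geoPolar_meas6, ?_⟩
  refine (Measure.pi_eq fun s hs => ?_).symm
  rw [Measure.map_apply geoPolar_meas6 (MeasurableSet.univ_pi hs)]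
  have e : geoPolar_P6 ⁻¹' (Set.univ.pi s) =
      (s 0 ×ˢ s 1) ×ˢ ((s 2 ×ˢ s 3) ×ˢ (s 4 ×ˢ s 5)) := by
    ext u
    simp only [Set.mem_preimage, Set.mem_pi, Set.mem_univ, true_implies, Set.mem_prod]
    constructor
    · intro h
      exact ⟨⟨h 0, h 1⟩, ⟨h 2, h 3⟩, h 4, h 5⟩
    · rintro ⟨⟨h0, h1⟩, ⟨h2, h3⟩, h4, h5⟩ i
      fin_cases i
      · exact h0
      · exact h1
      · exact h2
      · exact h3
      · exact h4
      · exact h5
  rw [e, Fin.prod_univ_six]
  simp only [Measure.volume_eq_prod, Measure.prod_prod]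
  ring

/-- The identification for the orbit space. -/
private def geoPolar_P5 (u : (ℝ × (ℝ × (ℝ × ℝ))) × (Fin 1 → ℝ)) : Fin 5 → ℝ :=
  ![u.1.1, u.1.2.1, u.1.2.2.1, u.1.2.2.2, u.2 0]

private lemma geoPolar_meas5 : Measurable geoPolar_P5 := by
  refine measurable_pi_lambda _ fun i => ?_
  fin_cases i
  · exact measurable_fst.fst
  · exact measurable_fst.snd.fst
  · exact measurable_fst.snd.snd.fst
  · exact measurable_fst.snd.snd.snd
  · exact (measurable_pi_apply (0 : Fin 1)).comp measurable_snd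

private lemma geoPolar_inj5 : Function.Injective geoPolar_P5 := by
  rintro ⟨⟨a, b, c, d⟩, s⟩ ⟨⟨a', b', c', d'⟩, s'⟩ h
  have h0 : a = a' := congrFun h 0
  have h1 : b = b' := congrFun h 1
  have h2 : c = c' := congrFun h 2
  have h3 : d = d' := congrFun h 3
  have h4 : s 0 = s' 0 := congrFun h 4
  have h5 : s = s' := by
    funext i
    rw [Subsingleton.elim i 0]
    exact h4
  rw [h0, h1, h2, h3, h5]

private lemma geoPolar_vol1 (t : Set ℝ) :
    (volume : Measure (Fin 1 → ℝ)) {s | s 0 ∈ t} = volume t := by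
  have e : {s : Fin 1 → ℝ | s 0 ∈ t} = Set.univ.pi fun _ => t := by
    ext s
    simp only [Set.mem_ofPred_eq, Set.mem_pi, Set.mem_univ, true_implies]
    constructor
    · intro h i
      rw [Subsingleton.elim i 0]
      exact h
    · intro h
      exact h 0
  rw [e, volume_pi_pi, Fin.prod_univ_one]

private lemma geoPolar_mp5 : MeasurePreserving geoPolar_P5 := by
  refine ⟨geoPolar_meas5, ?_⟩
  refine (Measure.pi_eq fun s hs => ?_).symm
  rw [Measure.map_apply geoPolar_meas5 (MeasurableSet.univ_pi hs)]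
  have e : geoPolar_P5 ⁻¹' (Set.univ.pi s) =
      (s 0 ×ˢ (s 1 ×ˢ (s 2 ×ˢ s 3))) ×ˢ {v : Fin 1 → ℝ | v 0 ∈ s 4} := by
    ext u
    simp only [Set.mem_preimage, Set.mem_pi, Set.mem_univ, true_implies, Set.mem_prod,
      Set.mem_ofPred_eq]
    constructor
    · intro h
      exact ⟨⟨h 0, h 1, h 2, h 3⟩, h 4⟩
    · rintro ⟨⟨h0, h1, h2, h3⟩, h4⟩ i
      fin_cases i
      · exact h0
      · exact h1
      · exact h2
      · exact h3
      · exact h4
  rw [e, Fin.prod_univ_five]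
  simp only [Measure.volume_eq_prod, Measure.prod_prod]
  have h := geoPolar_vol1 (s 4)
  rw [h]
  ring

private def geoPolar_Q5 (u : (ℝ × (ℝ × (ℝ × ℝ))) × (Fin 1 → ℝ)) : EE :=
  WithLp.toLp 2 (geoPolar_P5 u)

private lemma geoPolar_mpQ : MeasurePreserving geoPolar_Q5 :=
  (PiLp.volume_preserving_toLp (Fin 5)).comp geoPolar_mp5

private lemma geoPolar_embQ : MeasurableEmbedding geoPolar_Q5 := by
  refine geoPolar_mpQ.measurable.measurableEmbedding ?_
  intro u v h
  exact geoPolar_inj5 (WithLp.toLp_injective 2 h)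

private lemma geoPolar_cont : Continuous polX := by
  unfold polX
  refine (PiLp.continuous_toLp 2 _).comp (continuous_pi fun i => ?_)
  have h1 : ∀ i : Fin 6, Continuous fun x : G7 => x.1 i :=
    fun i => (continuous_apply i).comp continuous_fst
  fin_cases i
  · show Continuous rr1
    unfold rr1
    exact Real.continuous_sqrt.comp (((h1 0).pow 2).add ((h1 1).pow 2))
  · show Continuous rr2
    unfold rr2
    exact Real.continuous_sqrt.comp (((h1 2).pow 2).add ((h1 3).pow 2))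
  · exact h1 4
  · exact h1 5
  · exact (continuous_apply (0 : Fin 1)).comp continuous_snd

private lemma geoPolar_normsq (x : G7) :
    ‖polX x‖ ^ 2 = x.1 0 ^ 2 + x.1 1 ^ 2 + (x.1 2 ^ 2 + x.1 3 ^ 2) + x.1 4 ^ 2 + x.1 5 ^ 2 +
      x.2 0 ^ 2 := by
  rw [EuclideanSpace.norm_sq_eq, Fin.sum_univ_five]
  simp only [Real.norm_eq_abs, sq_abs]
  show rr1 x ^ 2 + rr2 x ^ 2 + x.1 4 ^ 2 + x.1 5 ^ 2 + x.2 0 ^ 2 = _
  have e1 : rr1 x ^ 2 = x.1 0 ^ 2 + x.1 1 ^ 2 := by
    unfold rr1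
    exact Real.sq_sqrt (by positivity)
  have e2 : rr2 x ^ 2 = x.1 2 ^ 2 + x.1 3 ^ 2 := by
    unfold rr2
    exact Real.sq_sqrt (by positivity)
  rw [e1, e2]

private lemma geoPolar_norm_le (x : G7) : ‖x‖ ≤ ‖polX x‖ := by
  have hn := geoPolar_normsq x
  have h0 := norm_nonneg (polX x)
  have key : ∀ y : ℝ, y ^ 2 ≤ ‖polX x‖ ^ 2 → ‖y‖ ≤ ‖polX x‖ := by
    intro y hy
    rw [Real.norm_eq_abs]
    exact abs_le_of_sq_le_sq hy h0
  rw [Prod.norm_def, max_le_iff]
  constructor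
  · rw [pi_norm_le_iff_of_nonneg h0]
    intro i
    apply key
    rw [hn]
    fin_cases i
    · show x.1 0 ^ 2 ≤ _
      nlinarith [sq_nonneg (x.1 0), sq_nonneg (x.1 1), sq_nonneg (x.1 2), sq_nonneg (x.1 3),
        sq_nonneg (x.1 4), sq_nonneg (x.1 5), sq_nonneg (x.2 0)]
    · show x.1 1 ^ 2 ≤ _
      nlinarith [sq_nonneg (x.1 0), sq_nonneg (x.1 1), sq_nonneg (x.1 2), sq_nonneg (x.1 3),
        sq_nonneg (x.1 4), sq_nonneg (x.1 5), sq_nonneg (x.2 0)]
    · show x.1 2 ^ 2 ≤ _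
      nlinarith [sq_nonneg (x.1 0), sq_nonneg (x.1 1), sq_nonneg (x.1 2), sq_nonneg (x.1 3),
        sq_nonneg (x.1 4), sq_nonneg (x.1 5), sq_nonneg (x.2 0)]
    · show x.1 3 ^ 2 ≤ _
      nlinarith [sq_nonneg (x.1 0), sq_nonneg (x.1 1), sq_nonneg (x.1 2), sq_nonneg (x.1 3),
        sq_nonneg (x.1 4), sq_nonneg (x.1 5), sq_nonneg (x.2 0)]
    · show x.1 4 ^ 2 ≤ _
      nlinarith [sq_nonneg (x.1 0), sq_nonneg (x.1 1), sq_nonneg (x.1 2), sq_nonneg (x.1 3),
        sq_nonneg (x.1 4), sq_nonneg (x.1 5), sq_nonneg (x.2 0)]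
    · show x.1 5 ^ 2 ≤ _
      nlinarith [sq_nonneg (x.1 0), sq_nonneg (x.1 1), sq_nonneg (x.1 2), sq_nonneg (x.1 3),
        sq_nonneg (x.1 4), sq_nonneg (x.1 5), sq_nonneg (x.2 0)]
  · rw [pi_norm_le_iff_of_nonneg h0]
    intro i
    rw [Subsingleton.elim i 0]
    apply key
    rw [hn]
    nlinarith [sq_nonneg (x.1 0), sq_nonneg (x.1 1), sq_nonneg (x.1 2), sq_nonneg (x.1 3),
        sq_nonneg (x.1 4), sq_nonneg (x.1 5), sq_nonneg (x.2 0)]

private lemma geoPolar_integrable (H : EE → ℝ) (hc : Continuous H) (hs : HasCompactSupport H) :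
    Integrable (fun x : G7 => H (polX x)) := by
  refine (hc.comp geoPolar_cont).integrable_of_hasCompactSupport ?_
  obtain ⟨R, hR⟩ := hs.isCompact.isBounded.subset_closedBall (0 : EE)
  refine HasCompactSupport.intro (isCompact_closedBall (0 : G7) R) fun x hx => ?_
  by_contra hne
  apply hx
  have h1 : polX x ∈ tsupport H := subset_tsupport H hne
  have h2 := hR h1
  rw [mem_closedBall_zero_iff] at h2 ⊢
  exact (geoPolar_norm_le x).trans h2

/-- TASK G07a.  Polar coordinates in the planes of `z1` and `z2`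
(`integral_comp_polarCoord_symm` twice; volume preserving identification of `G7` with a product of
`ℝ`'s). -/
lemma integral_polX (H : EE → ℝ) (hc : Continuous H) (hs : HasCompactSupport H) :
    ∫ x : G7, H (polX x) =
      (2 * Real.pi) ^ 2 * ∫ R in {R : EE | 0 < R 0 ∧ 0 < R 1}, R 0 * R 1 * H R := by
  have hF := geoPolar_integrable H hc hs
  have hG : Integrable (fun R : EE => R 0 * R 1 * H R) := by
    have hcont : Continuous fun R : EE => R 0 * R 1 * H R := by
      have h0 : Continuous fun R : EE => R 0 := (EuclideanSpace.proj (0 : Fin 5)).continuous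
      have h1 : Continuous fun R : EE => R 1 := (EuclideanSpace.proj (1 : Fin 5)).continuous
      exact (h0.mul h1).mul hc
    exact hcont.integrable_of_hasCompactSupport hs.mul_left
  have hL : ∫ x : G7, H (polX x) = ∫ s : Fin 1 → ℝ, (2 * Real.pi) ^ 2 *
      ∫ a in Set.Ioi (0 : ℝ), a * ∫ b in Set.Ioi (0 : ℝ), b *
        ∫ w : ℝ × ℝ, H (WithLp.toLp 2 ![a, b, w.1, w.2, s 0]) := by
    rw [Measure.volume_eq_prod] at hF
    rw [Measure.volume_eq_prod, integral_prod_symm _ hF]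
    refine integral_congr_ae ?_
    filter_upwards [hF.prod_left_ae] with s hs1
    have hs6 : Integrable (fun u => H (polX (geoPolar_P6 u, s))) :=
      (geoPolar_mp6.integrable_comp_emb geoPolar_emb6).mpr hs1
    rw [Measure.volume_eq_prod] at hs6
    calc ∫ z : Fin 6 → ℝ, H (polX (z, s))
        = ∫ u, H (polX (geoPolar_P6 u, s)) :=
          (geoPolar_mp6.integral_comp geoPolar_emb6 (fun z => H (polX (z, s)))).symm
      _ = ∫ p : ℝ × ℝ, ∫ v : (ℝ × ℝ) × (ℝ × ℝ), H (polX (geoPolar_P6 (p, v), s)) := by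
          rw [Measure.volume_eq_prod]
          exact integral_prod _ hs6
      _ = ∫ p : ℝ × ℝ, ∫ p' : ℝ × ℝ, ∫ w : ℝ × ℝ, H (polX (geoPolar_P6 (p, (p', w)), s)) := by
          refine integral_congr_ae ?_
          filter_upwards [hs6.prod_right_ae] with p hp
          rw [Measure.volume_eq_prod] at hp
          have h := integral_prod _ hp
          rw [← Measure.volume_eq_prod] at h
          exact h
      _ = ∫ p : ℝ × ℝ, ∫ p' : ℝ × ℝ, ∫ w : ℝ × ℝ,
            H (WithLp.toLp 2 ![Real.sqrt (p.1 ^ 2 + p.2 ^ 2), Real.sqrt (p'.1 ^ 2 + p'.2 ^ 2),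
              w.1, w.2, s 0]) := rfl
      _ = ∫ p : ℝ × ℝ, 2 * Real.pi * ∫ b in Set.Ioi (0 : ℝ), b * ∫ w : ℝ × ℝ,
            H (WithLp.toLp 2 ![Real.sqrt (p.1 ^ 2 + p.2 ^ 2), b, w.1, w.2, s 0]) := by
          refine integral_congr_ae (Filter.Eventually.of_forall fun p => ?_)
          exact geoPolar_pol2 (fun b => ∫ w : ℝ × ℝ,
            H (WithLp.toLp 2 ![Real.sqrt (p.1 ^ 2 + p.2 ^ 2), b, w.1, w.2, s 0]))
      _ = 2 * Real.pi * ∫ a in Set.Ioi (0 : ℝ), a * (2 * Real.pi *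
            ∫ b in Set.Ioi (0 : ℝ), b * ∫ w : ℝ × ℝ,
              H (WithLp.toLp 2 ![a, b, w.1, w.2, s 0])) :=
          geoPolar_pol2 (fun a => 2 * Real.pi * ∫ b in Set.Ioi (0 : ℝ), b * ∫ w : ℝ × ℝ,
            H (WithLp.toLp 2 ![a, b, w.1, w.2, s 0]))
      _ = (2 * Real.pi) ^ 2 * ∫ a in Set.Ioi (0 : ℝ), a * ∫ b in Set.Ioi (0 : ℝ), b *
            ∫ w : ℝ × ℝ, H (WithLp.toLp 2 ![a, b, w.1, w.2, s 0]) := by
          have e : ∀ a : ℝ, a * (2 * Real.pi * ∫ b in Set.Ioi (0 : ℝ), b * ∫ w : ℝ × ℝ,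
              H (WithLp.toLp 2 ![a, b, w.1, w.2, s 0])) = 2 * Real.pi * (a *
              ∫ b in Set.Ioi (0 : ℝ), b * ∫ w : ℝ × ℝ,
                H (WithLp.toLp 2 ![a, b, w.1, w.2, s 0])) := fun a => by ring
          simp_rw [e]
          rw [integral_const_mul]
          ring
  have hR : ∫ R in {R : EE | 0 < R 0 ∧ 0 < R 1}, R 0 * R 1 * H R = ∫ s : Fin 1 → ℝ,
      ∫ a in Set.Ioi (0 : ℝ), a * ∫ b in Set.Ioi (0 : ℝ), b *
        ∫ w : ℝ × ℝ, H (WithLp.toLp 2 ![a, b, w.1, w.2, s 0]) := by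
    rw [← geoPolar_mpQ.setIntegral_preimage_emb geoPolar_embQ]
    have hpre : geoPolar_Q5 ⁻¹' {R : EE | 0 < R 0 ∧ 0 < R 1} =
        (Set.Ioi (0 : ℝ) ×ˢ (Set.Ioi (0 : ℝ) ×ˢ (Set.univ : Set (ℝ × ℝ)))) ×ˢ
          (Set.univ : Set (Fin 1 → ℝ)) := by
      ext u
      constructor
      · rintro ⟨h0, h1⟩
        exact ⟨⟨h0, h1, trivial⟩, trivial⟩
      · rintro ⟨⟨h0, h1, _⟩, _⟩
        exact ⟨h0, h1⟩
    rw [hpre]
    have hQ : Integrable (fun u => geoPolar_Q5 u 0 * geoPolar_Q5 u 1 * H (geoPolar_Q5 u)) :=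
      (geoPolar_mpQ.integrable_comp_emb geoPolar_embQ).mpr hG
    rw [Measure.volume_eq_prod] at hQ ⊢
    rw [← Measure.prod_restrict, Measure.restrict_univ]
    have hQ2 : Integrable (fun u => geoPolar_Q5 u 0 * geoPolar_Q5 u 1 * H (geoPolar_Q5 u))
        (((volume : Measure (ℝ × (ℝ × (ℝ × ℝ)))).restrict
          (Set.Ioi (0 : ℝ) ×ˢ (Set.Ioi (0 : ℝ) ×ˢ (Set.univ : Set (ℝ × ℝ))))).prod
          (volume : Measure (Fin 1 → ℝ))) := by
      have h := hQ.restrict (s := (Set.Ioi (0 : ℝ) ×ˢ (Set.Ioi (0 : ℝ) ×ˢ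
        (Set.univ : Set (ℝ × ℝ)))) ×ˢ (Set.univ : Set (Fin 1 → ℝ)))
      rwa [← Measure.prod_restrict, Measure.restrict_univ] at h
    rw [integral_prod_symm _ hQ2]
    refine integral_congr_ae ?_
    filter_upwards [hQ2.prod_left_ae] with s hs1
    rw [Measure.volume_eq_prod] at hs1
    have h1 := setIntegral_prod _ hs1
    rw [← Measure.volume_eq_prod] at h1
    refine h1.trans ?_
    rw [← Measure.prod_restrict] at hs1
    refine setIntegral_congr_ae measurableSet_Ioi ?_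
    have hae := hs1.prod_right_ae
    rw [ae_restrict_iff' measurableSet_Ioi] at hae
    filter_upwards [hae] with a ha ha0
    have ha2 := ha ha0
    rw [Measure.volume_eq_prod] at ha2
    have h2 := setIntegral_prod _ ha2
    rw [← Measure.volume_eq_prod] at h2
    refine h2.trans ?_
    rw [← integral_const_mul]
    refine setIntegral_congr_fun measurableSet_Ioi fun b _ => ?_
    show ∫ w : ℝ × ℝ in Set.univ, a * b * H (WithLp.toLp 2 ![a, b, w.1, w.2, s 0]) =
      a * (b * ∫ w : ℝ × ℝ, H (WithLp.toLp 2 ![a, b, w.1, w.2, s 0]))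
    rw [Measure.restrict_univ, integral_const_mul]
    ring
  rw [hL, hR, integral_const_mul]

end
end OD16
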