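import Pool.Agent.LibOD16.GeoNorm

set_option autoImplicit false
namespace OD16
open MeasureTheory Metric
noncomputable section

/-- The rotation is linear: `Rt a x = (RtM a * x.1, x.2)`. -/
lemma Rt_eq_mulVec (a : Fin 3 → ℝ) (x : G7) : Rt a x = ((RtM a).mulVec x.1, x.2) := by
  unfold Rt RtM
  refine Prod.ext ?_ rfl
  funext i
  fin_cases i <;> simp [Matrix.mulVec, dotProduct, Fin.sum_univ_six] <;> ring

lemma rr1_Rt (a : Fin 3 → ℝ) (x : G7) : rr1 (Rt a x) = rr1 x := by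
  unfold rr1 Rt
  congr 1
  have h := Real.cos_sq_add_sin_sq (a 0)
  simp
  linear_combination (x.1 0 ^ 2 + x.1 1 ^ 2) * h

lemma rr2_Rt (a : Fin 3 → ℝ) (x : G7) : rr2 (Rt a x) = rr2 x := by
  unfold rr2 Rt
  congr 1
  have h := Real.cos_sq_add_sin_sq (a 1)
  simp
  linear_combination (x.1 2 ^ 2 + x.1 3 ^ 2) * h

/-- TASK G04.  Rotations of the group. -/
lemma XX_Rt (h : ℝ) (a : Fin 3 → ℝ) (x : G7) : XX h (Rt a x) = rot23 (a 2) (XX h x) := by
  unfold XX rot23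
  rw [rr1_Rt, rr2_Rt]
  have hc := Real.cos_sq_add_sin_sq (a 2)
  congr 1
  funext i
  fin_cases i
  · simp [Rt]
    congr 2
    linear_combination (-(1 / 4 : ℝ) * (x.1 4 ^ 2 + x.1 5 ^ 2)) * hc
  · simp [Rt]
  · simp [Rt]
    ring
  · simp [Rt]
    ring
  · simp [Rt]

lemma zsq_Rt (a : Fin 3 → ℝ) (x : G7) : zsq (Rt a x) = zsq x := by
  unfold zsq Rt
  have h0 := Real.cos_sq_add_sin_sq (a 0)
  have h1 := Real.cos_sq_add_sin_sq (a 1)
  have h2 := Real.cos_sq_add_sin_sq (a 2)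
  simp [Fin.sum_univ_six]
  linear_combination (x.1 0 ^ 2 + x.1 1 ^ 2) * h0 + (x.1 2 ^ 2 + x.1 3 ^ 2) * h1 +
    (x.1 4 ^ 2 + x.1 5 ^ 2) * h2

lemma Rt_add (a b : Fin 3 → ℝ) (x : G7) : Rt (a + b) x = Rt a (Rt b x) := by
  unfold Rt
  refine Prod.ext ?_ rfl
  funext i
  fin_cases i <;> simp [Real.cos_add, Real.sin_add] <;> ring

lemma Rt_zero (x : G7) : Rt 0 x = x := by
  unfold Rt
  refine Prod.ext ?_ rfl
  funext i
  fin_cases i <;> simp

lemma contDiff_Rt : ContDiff ℝ ((⊤ : ℕ∞) : WithTop ℕ∞) (fun p : (Fin 3 → ℝ) × G7 => Rt p.1 p.2) := by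
  unfold Rt
  have hp1 : ∀ k : Fin 3, ContDiff ℝ ((⊤ : ℕ∞) : WithTop ℕ∞)
      (fun p : (Fin 3 → ℝ) × G7 => p.1 k) := fun k =>
    (contDiff_apply ℝ ℝ k).comp contDiff_fst
  have hx : ∀ k : Fin 6, ContDiff ℝ ((⊤ : ℕ∞) : WithTop ℕ∞)
      (fun p : (Fin 3 → ℝ) × G7 => p.2.1 k) := fun k =>
    (contDiff_apply ℝ ℝ k).comp (contDiff_fst.comp contDiff_snd)
  refine ContDiff.prodMk ?_ (contDiff_snd.comp contDiff_snd)
  rw [contDiff_pi]
  intro i
  fin_cases i
  · exact ((Real.contDiff_cos.comp (hp1 0)).mul (hx 0)).sub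
      ((Real.contDiff_sin.comp (hp1 0)).mul (hx 1))
  · exact ((Real.contDiff_sin.comp (hp1 0)).mul (hx 0)).add
      ((Real.contDiff_cos.comp (hp1 0)).mul (hx 1))
  · exact ((Real.contDiff_cos.comp (hp1 1)).mul (hx 2)).sub
      ((Real.contDiff_sin.comp (hp1 1)).mul (hx 3))
  · exact ((Real.contDiff_sin.comp (hp1 1)).mul (hx 2)).add
      ((Real.contDiff_cos.comp (hp1 1)).mul (hx 3))
  · exact ((Real.contDiff_cos.comp (hp1 2)).mul (hx 4)).sub
      ((Real.contDiff_sin.comp (hp1 2)).mul (hx 5))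
  · exact ((Real.contDiff_sin.comp (hp1 2)).mul (hx 4)).add
      ((Real.contDiff_cos.comp (hp1 2)).mul (hx 5))

lemma continuous_Rt : Continuous (fun p : (Fin 3 → ℝ) × G7 => Rt p.1 p.2) :=
  contDiff_Rt.continuous

lemma RtM_orth (a : Fin 3 → ℝ) : (RtM a).transpose * RtM a = 1 ∧ RtM a * (RtM a).transpose = 1 := by
  have h0 := Real.cos_sq_add_sin_sq (a 0)
  have h1 := Real.cos_sq_add_sin_sq (a 1)
  have h2 := Real.cos_sq_add_sin_sq (a 2)
  have key : (RtM a).transpose * RtM a = 1 := by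
    ext i j
    fin_cases i <;> fin_cases j <;>
      simp [RtM, Matrix.mul_apply, Matrix.transpose_apply, Fin.sum_univ_six] <;>
      first
      | linear_combination h0
      | linear_combination h1
      | linear_combination h2
      | ring
  exact ⟨key, mul_eq_one_comm.mp key⟩

lemma abs_det_RtM (a : Fin 3 → ℝ) : |(RtM a).det| = 1 := by
  have h : (RtM a).det * (RtM a).det = 1 := by
    have := congrArg Matrix.det (RtM_orth a).1
    rwa [Matrix.det_mul, Matrix.det_transpose, Matrix.det_one] at this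
  rcases mul_self_eq_one_iff.mp h with h | h <;> simp [h]

lemma measurePreserving_Rt (a : Fin 3 → ℝ) :
    MeasurePreserving (Rt a) (volume : Measure G7) volume := by
  have hdet : (RtM a).det ≠ 0 := by
    intro h
    have := abs_det_RtM a
    rw [h] at this
    simp at this
  have h1 : MeasurePreserving (Matrix.toLin' (RtM a)) (volume : Measure (Fin 6 → ℝ)) volume := by
    refine ⟨?_, ?_⟩
    · exact (LinearMap.continuous_of_finiteDimensional _).measurable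
    · rw [Real.map_matrix_volume_pi_eq_smul_volume_pi hdet, abs_inv, abs_det_RtM]
      simp
  have h2 : MeasurePreserving (Prod.map (Matrix.toLin' (RtM a)) (id : (Fin 1 → ℝ) → (Fin 1 → ℝ)))
      ((volume : Measure (Fin 6 → ℝ)).prod (volume : Measure (Fin 1 → ℝ)))
      ((volume : Measure (Fin 6 → ℝ)).prod (volume : Measure (Fin 1 → ℝ))) :=
    h1.prod (MeasurePreserving.id _)
  have h3 : Rt a = Prod.map (Matrix.toLin' (RtM a)) (id : (Fin 1 → ℝ) → (Fin 1 → ℝ)) := by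
    funext x
    rw [Rt_eq_mulVec]
    rfl
  rw [h3]
  exact h2

lemma RtM_comm_Jm (a : Fin 3 → ℝ) : Jm * RtM a = RtM a * Jm := by
  ext i j
  fin_cases i <;> fin_cases j <;>
    simp [RtM, Jm, Matrix.mul_apply, Fin.sum_univ_six]

/-- The rotation as a continuous linear map. -/
def RtL (a : Fin 3 → ℝ) : G7 →L[ℝ] G7 :=
  (LinearMap.toContinuousLinearMap (Matrix.toLin' (RtM a))).prodMap
    (ContinuousLinearMap.id ℝ (Fin 1 → ℝ))

lemma RtL_val (a : Fin 3 → ℝ) (x : G7) : RtL a x = ((RtM a).mulVec x.1, x.2) := rfl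

lemma RtL_apply (a : Fin 3 → ℝ) (x : G7) : RtL a x = Rt a x := by
  rw [Rt_eq_mulVec, RtL_val]

lemma Rt_Xd (a : Fin 3 → ℝ) (x : G7) (i : Fin 6) :
    RtL a (Xd i x) = ∑ j, RtM a j i • Xd j (Rt a x) := by
  have hJ : (RtM a).transpose.mulVec (Jm.mulVec ((RtM a).mulVec x.1)) = Jm.mulVec x.1 := by
    rw [Matrix.mulVec_mulVec, Matrix.mulVec_mulVec, Matrix.mul_assoc, RtM_comm_Jm,
      ← Matrix.mul_assoc, (RtM_orth a).1, Matrix.one_mul]
  have e1 : (Rt a x).1 = (RtM a).mulVec x.1 := by rw [Rt_eq_mulVec]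
  refine Prod.ext ?_ ?_
  · rw [Prod.fst_sum]
    funext k
    simp only [RtL_val, Xd, Prod.smul_fst,
      Finset.sum_apply, Pi.smul_apply, smul_eq_mul, Matrix.mulVec_single_one]
    simp [Matrix.col_apply, Pi.single_apply]
  · rw [Prod.snd_sum]
    funext k
    have := congrFun hJ i
    simp only [RtL_val, Xd, Prod.smul_snd,
      Finset.sum_apply, Pi.smul_apply, smul_eq_mul]
    rw [← this, e1, Matrix.mulVec, dotProduct, Finset.sum_div]
    refine Finset.sum_congr rfl fun j _ => ?_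
    rw [Matrix.transpose_apply]
    ring

/-- `X_i (φ ∘ Rt a) = ∑_j M_{ji} (X_j φ) ∘ Rt a`. -/
lemma fderiv_comp_Rt (φ : G7 → ℝ) (a : Fin 3 → ℝ) (x : G7) (hφ : DifferentiableAt ℝ φ (Rt a x))
    (i : Fin 6) :
    fderiv ℝ (fun y => φ (Rt a y)) x (Xd i x) =
      ∑ j, RtM a j i * fderiv ℝ φ (Rt a x) (Xd j (Rt a x)) := by
  have hR : HasFDerivAt (Rt a) (RtL a) x := by
    have h := (RtL a).hasFDerivAt (x := x)
    have e : (fun y => RtL a y) = Rt a := funext fun y => RtL_apply a y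
    have e' : (⇑(RtL a)) = Rt a := e
    rwa [e'] at h
  have hc : HasFDerivAt (fun y => φ (Rt a y)) ((fderiv ℝ φ (Rt a x)).comp (RtL a)) x :=
    hφ.hasFDerivAt.comp x hR
  rw [hc.fderiv, ContinuousLinearMap.comp_apply, Rt_Xd, map_sum]
  refine Finset.sum_congr rfl fun j _ => ?_
  rw [map_smul, smul_eq_mul]

end
end OD16
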