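import Pool.Agent.LibOD16.GeoWeak1

set_option autoImplicit false
namespace OD16
open MeasureTheory Metric
noncomputable section

variable {h δ : ℝ}

private lemma sum_sq_RtM (a : Fin 3 → ℝ) (v : Fin 6 → ℝ) :
    ∑ i, (∑ j, RtM a i j * v j) ^ 2 = ∑ i, v i ^ 2 := by
  have h1 : (RtM a).mulVec v ⬝ᵥ (RtM a).mulVec v = v ⬝ᵥ v := by
    rw [Matrix.dotProduct_mulVec, ← Matrix.mulVec_transpose, Matrix.mulVec_mulVec,
      (RtM_orth a).1, Matrix.one_mulVec]
  simp only [dotProduct, Matrix.mulVec] at h1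
  simp only [sq]
  exact h1

private lemma continuous_Xd_w (i : Fin 6) : Continuous (fun x : G7 => Xd i x) := by
  unfold Xd
  refine continuous_const.prodMk ?_
  refine continuous_pi fun _ => ?_
  have : Continuous fun x : G7 => Jm.mulVec x.1 :=
    Continuous.matrix_mulVec continuous_const continuous_fst
  exact ((continuous_apply i).comp this).div_const 2

private lemma integrableOn_supp (Ω : Set G7) (hΩ : IsOpen Ω) (φ : G7 → ℝ)
    (hs : HasCompactSupport φ) (hsΩ : tsupport φ ⊆ Ω) (F : G7 → ℝ) (hF : ContinuousOn F Ω)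
    (h0 : ∀ x, x ∉ tsupport φ → F x = 0) : IntegrableOn F Ω := by
  have h1 : IntegrableOn F (tsupport φ) :=
    (hF.mono hsΩ).integrableOn_compact hs.isCompact
  exact h1.of_forall_sdiff_eq_zero hΩ.measurableSet (fun x hx => h0 x hx.2)

/-- TASK G08d.  The weak equation (average of the test function, `functional_avg`). -/
lemma Reduced.weak_all (S : Reduced h δ) (φ : G7 → ℝ)
    (hφ : ContDiff ℝ ((⊤ : ℕ∞) : WithTop ℕ∞) φ)
    (hs : HasCompactSupport φ) (hsΩ : tsupport φ ⊆ S.Om) :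
    ∫ x in S.Om, Real.sqrt (∑ i, S.g i x ^ 2) ^ ((2 - δ) - 2) *
        ∑ i, S.g i x * fderiv ℝ φ x (Xd i x) =
      ∫ x in S.Om, Real.sqrt (∑ j, x.1 j ^ 2) ^ (2 - δ) * φ x := by
  have hΩ : IsOpen S.Om := S.isOpen_dom.preimage (continuous_XX h)
  have hφ1 : ContDiff ℝ 1 φ := hφ.of_le (by exact_mod_cast le_top)
  obtain ⟨cf, hcf⟩ : ∃ cf : Fin 6 → G7 → ℝ, cf =
      fun i x => Real.sqrt (∑ j, S.g j x ^ 2) ^ (-δ) * S.g i x := ⟨_, rfl⟩
  obtain ⟨d, hd⟩ : ∃ d : G7 → ℝ, d = fun x => Real.sqrt (zsq x) ^ (2 - δ) := ⟨_, rfl⟩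
  have hcc : ∀ i, ContinuousOn (cf i) S.Om := by
    intro i
    rw [hcf]
    exact S.continuousOn_flux i
  have hz : Continuous zsq := by
    unfold zsq
    fun_prop
  have hdc : ContinuousOn d S.Om := by
    rw [hd]
    have h2 : 0 ≤ 2 - δ := by linarith [S.δ_lt]
    exact ((Real.continuous_sqrt.comp hz).rpow_const (fun x => Or.inr h2)).continuousOn
  have hcfR : ∀ a, ∀ x ∈ S.Om, ∀ i, cf i (Rt a x) = ∑ j, RtM a i j * cf j x := by
    intro a x hx i
    rw [hcf]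
    simp only
    have h1 : ∑ j, S.g j (Rt a x) ^ 2 = ∑ j, S.g j x ^ 2 := by
      rw [Finset.sum_congr rfl (fun j _ => by rw [S.g_Rt a x hx j])]
      exact sum_sq_RtM a (fun j => S.g j x)
    rw [h1, S.g_Rt a x hx i, Finset.mul_sum]
    exact Finset.sum_congr rfl (fun j _ => by ring)
  have hdR : ∀ a, ∀ x ∈ S.Om, d (Rt a x) = d x := by
    intro a x _
    rw [hd]
    simp only
    rw [zsq_Rt]
  have hinv : ∀ a, ∀ x ∈ S.Om, Rt a x ∈ S.Om := fun a x hx => S.Om_Rt a x hx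
  have h1 := functional_avg S.Om hΩ hinv cf d hcc hdc hcfR hdR φ hφ1 hs hsΩ
  obtain ⟨hs', hsΩ'⟩ := support_avgRt S.Om hinv φ hφ1.continuous hs hsΩ
  have h2 := S.weak_inv (avgRt φ) (contDiff_avgRt φ hφ1) hs' hsΩ'
    (fun a x => avgRt_inv φ hφ1.continuous a x)
  have h3 : ∫ x in S.Om, (∑ i, cf i x * fderiv ℝ (avgRt φ) x (Xd i x) - d x * avgRt φ x) = 0 := by
    rw [hcf, hd]
    exact h2
  rw [h3] at h1
  have hfd : ∀ i, Continuous fun x => fderiv ℝ φ x (Xd i x) := fun i =>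
    (hφ1.continuous_fderiv (by norm_num)).clm_apply (continuous_Xd_w i)
  have i1 : IntegrableOn (fun x => ∑ i, cf i x * fderiv ℝ φ x (Xd i x)) S.Om := by
    apply integrableOn_supp S.Om hΩ φ hs hsΩ
    · exact continuousOn_finsetSum _ (fun i _ => (hcc i).mul (hfd i).continuousOn)
    · intro x hx
      have h4 : fderiv ℝ φ x = 0 := fderiv_of_notMem_tsupport ℝ hx
      simp [h4]
  have i2 : IntegrableOn (fun x => d x * φ x) S.Om := by
    apply integrableOn_supp S.Om hΩ φ hs hsΩ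
    · exact hdc.mul hφ1.continuous.continuousOn
    · intro x hx
      simp [image_eq_zero_of_notMem_tsupport hx]
  rw [integral_sub i1 i2] at h1
  have h5 : ∫ x in S.Om, ∑ i, cf i x * fderiv ℝ φ x (Xd i x) = ∫ x in S.Om, d x * φ x := by
    linarith
  have e1 : (fun x => Real.sqrt (∑ i, S.g i x ^ 2) ^ ((2 - δ) - 2) *
      ∑ i, S.g i x * fderiv ℝ φ x (Xd i x)) = fun x => ∑ i, cf i x * fderiv ℝ φ x (Xd i x) := by
    funext x
    rw [show (2 - δ) - 2 = -δ by ring, Finset.mul_sum, hcf]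
    exact Finset.sum_congr rfl (fun i _ => by ring)
  rw [e1, h5, hd]
  rfl

end
end OD16
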