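import Pool.Agent.LibOD16.GeoEqui

set_option autoImplicit false
namespace OD16
open MeasureTheory Metric
noncomputable section

variable {h δ : ℝ}

private lemma cont_of_supp' {E F : Type*} [TopologicalSpace E] [NormedAddCommGroup F] (D : E → F)
    (Ω T : Set E) (hΩ : IsOpen Ω) (hT : IsClosed T) (hTΩ : T ⊆ Ω) (hD : ContinuousOn D Ω)
    (h0 : ∀ x, x ∉ T → D x = 0) : Continuous D := by
  rw [continuous_iff_continuousAt]
  intro x
  by_cases hx : x ∈ Ω
  · exact hD.continuousAt (hΩ.mem_nhds hx)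
  · have hxT : x ∉ T := fun hc => hx (hTΩ hc)
    have : D =ᶠ[nhds x] fun _ => 0 := by
      filter_upwards [hT.isOpen_compl.mem_nhds hxT] with y hy using h0 y hy
    exact continuousAt_const.congr this.symm

private lemma Acst_pos (hh : 0 < h) : 0 < Acst h δ := by
  unfold Acst
  positivity

private lemma Acst_pow (hh : 0 < h) (hδ : δ < 1) :
    Acst h δ ^ (1 - δ) = 2 ^ (2 - δ) * h ^ (2 - δ) / 5 := by
  have h1 : 1 - δ ≠ 0 := by linarith
  have e1 : (1 + 1 / (1 - δ)) * (1 - δ) = 2 - δ := by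
    field_simp
    ring
  have e2 : -(1 / (1 - δ)) * (1 - δ) = -1 := by
    field_simp
  unfold Acst
  rw [Real.mul_rpow (by positivity) (by positivity), Real.mul_rpow (by positivity) (by positivity),
    ← Real.rpow_mul (by norm_num), ← Real.rpow_mul hh.le, ← Real.rpow_mul (by norm_num), e1, e2,
    Real.rpow_neg_one]
  ring

/-- the scalar identity -/
private lemma scalar_id (hh : 0 < h) (hδ : δ < 1) (ρ s D P z : ℝ) (hρ : 0 < ρ) (hs : 0 ≤ s)
    (hz : z = 2 * Real.sqrt ρ) :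
    (Acst h δ / (2 * h) * z * s) ^ (-δ) * (Acst h δ * (ρ / h ^ 2 * D)) - z ^ (2 - δ) * P =
      2 ^ (2 - δ) / 5 * (ρ ^ (1 - δ / 2) * (s ^ (-δ) * D - 5 * P)) := by
  have hA := Acst_pos (δ := δ) hh
  have hsq : Real.sqrt ρ = ρ ^ (1 / 2 : ℝ) := Real.sqrt_eq_rpow ρ
  have e1 : Acst h δ / (2 * h) * z = Acst h δ * h⁻¹ * ρ ^ (1 / 2 : ℝ) := by
    rw [hz, hsq]
    field_simp
  have e2 : (Acst h δ * h⁻¹ * ρ ^ (1 / 2 : ℝ) * s) ^ (-δ) =
      Acst h δ ^ (-δ) * h ^ δ * ρ ^ (-(δ / 2)) * s ^ (-δ) := by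
    rw [Real.mul_rpow (by positivity) hs, Real.mul_rpow (by positivity) (by positivity),
      Real.mul_rpow hA.le (by positivity), Real.inv_rpow hh.le, Real.rpow_neg hh.le, inv_inv,
      ← Real.rpow_mul hρ.le]
    congr 3
    ring
  have e3 : z ^ (2 - δ) = 2 ^ (2 - δ) * ρ ^ (1 - δ / 2) := by
    rw [hz, hsq, Real.mul_rpow (by norm_num) (by positivity), ← Real.rpow_mul hρ.le]
    congr 2
    ring
  have e4 : Acst h δ ^ (-δ) * Acst h δ = 2 ^ (2 - δ) * h ^ (2 - δ) / 5 := by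
    rw [← Acst_pow hh hδ]
    rw [show (1 - δ) = -δ + 1 by ring, Real.rpow_add_one hA.ne']
  have e5 : h ^ δ * h ^ (2 - δ) = h ^ 2 := by
    rw [← Real.rpow_add hh, show δ + (2 - δ) = (2 : ℝ) by ring]
    norm_cast
  have e6 : ρ ^ (-(δ / 2)) * ρ = ρ ^ (1 - δ / 2) := by
    rw [show (1 - δ / 2) = -(δ / 2) + 1 by ring, Real.rpow_add_one hρ.ne']
  rw [e1, e2, e3, ← e6]
  have hh2 : h ^ 2 ≠ 0 := by positivity
  calc Acst h δ ^ (-δ) * h ^ δ * ρ ^ (-(δ / 2)) * s ^ (-δ) * (Acst h δ * (ρ / h ^ 2 * D)) -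
        2 ^ (2 - δ) * (ρ ^ (-(δ / 2)) * ρ) * P
      = (Acst h δ ^ (-δ) * Acst h δ) * h ^ δ / h ^ 2 * (ρ ^ (-(δ / 2)) * ρ) * (s ^ (-δ) * D) -
        2 ^ (2 - δ) * (ρ ^ (-(δ / 2)) * ρ) * P := by ring
    _ = 2 ^ (2 - δ) / 5 * (h ^ δ * h ^ (2 - δ)) / h ^ 2 * (ρ ^ (-(δ / 2)) * ρ) * (s ^ (-δ) * D) -
        2 ^ (2 - δ) * (ρ ^ (-(δ / 2)) * ρ) * P := by rw [e4]; ring
    _ = 2 ^ (2 - δ) / 5 * (ρ ^ (-(δ / 2)) * ρ * (s ^ (-δ) * D - 5 * P)) := by
        rw [e5]
        field_simp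

/-- the integrand in the orbit space -/
private def HH (S : Reduced h δ) (ψ : EE → ℝ) (X : EE) : ℝ :=
  rhoR h X ^ (1 - δ / 2) * (Real.sqrt (gsq h X (S.gF X)) ^ (-δ) *
    fderiv ℝ ψ X (GR h X (S.gF X)) - 5 * ψ X)

/-- the integrand in the group -/
private def KK (S : Reduced h δ) (φ : G7 → ℝ) (x : G7) : ℝ :=
  ∑ i, Real.sqrt (∑ j, S.g j x ^ 2) ^ (-δ) * S.g i x * fderiv ℝ φ x (Xd i x) -
      Real.sqrt (zsq x) ^ (2 - δ) * φ x

private lemma KK_eq (S : Reduced h δ) (φ : G7 → ℝ) (ψ : EE → ℝ) (hψ : ContDiff ℝ 1 ψ)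
    (hφψ : ∀ x, φ x = ψ (XX h x)) (hinv : ∀ a X, ψ (rot23 a X) = ψ X) (x : G7) (hx : x ∈ S.Om) :
    KK S φ x = 2 ^ (2 - δ) / 5 * HH S ψ (XX h x) := by
  have hh := S.h_pos
  have hxb := S.mem_ball hx
  have hr := rr_pos S.h_pos S.h_le x hxb
  have hb := rhoR_bounds S.h_pos S.h_le hxb
  have hXd : DifferentiableAt ℝ (XX h) x :=
    (contDiffAt_XX h x hr.1 hr.2).differentiableAt (by simp)
  have hψd : DifferentiableAt ℝ ψ (XX h x) := hψ.differentiable (by simp) _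
  have hφd : ∀ v, fderiv ℝ φ x v = inner ℝ (gradient ψ (XX h x)) (fderiv ℝ (XX h) x v) := by
    intro v
    have h1 : φ = ψ ∘ (XX h) := funext hφψ
    rw [h1, fderiv_comp x hψd hXd]
    rw [ContinuousLinearMap.comp_apply]
    unfold gradient
    rw [InnerProductSpace.toDual_symm_apply]
  have hgi := grad_identity hh x hr.1 hr.2 (gradient ψ (XX h x)) (S.gF (XX h x)) (by linarith)
    (grad_rot_of_inv ψ hψ hinv _) (S.grad_rot _ hx)
  have hD : inner ℝ (gradient ψ (XX h x)) (GR h (XX h x) (S.gF (XX h x))) =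
      fderiv ℝ ψ (XX h x) (GR h (XX h x) (S.gF (XX h x))) := by
    unfold gradient
    rw [InnerProductSpace.toDual_symm_apply]
  rw [hD] at hgi
  have hsum : ∑ i, Real.sqrt (∑ j, S.g j x ^ 2) ^ (-δ) * S.g i x * fderiv ℝ φ x (Xd i x) =
      Real.sqrt (∑ j, S.g j x ^ 2) ^ (-δ) * (Acst h δ * (rhoR h (XX h x) / h ^ 2 *
        fderiv ℝ ψ (XX h x) (GR h (XX h x) (S.gF (XX h x))))) := by
    rw [← hgi, Finset.mul_sum, Finset.mul_sum]
    refine Finset.sum_congr rfl fun i _ => ?_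
    rw [hφd]
    unfold Reduced.g
    ring
  unfold KK HH
  rw [hsum, S.sqrt_g x hx, hφψ x]
  refine scalar_id hh (by linarith [S.δ_lt]) _ _ _ _ _ (by linarith) (Real.sqrt_nonneg _) ?_
  rw [rhoR_XX hh.ne' x, show (4 : ℝ) = 2 ^ 2 by norm_num, Real.sqrt_div' _ (by positivity),
    Real.sqrt_sq (by norm_num)]
  ring

/-- TASK G08c.  The weak equation for invariant test functions `φ = ψ ∘ XX`: `grad_identity`,
`push` and `S.weak`.  With `A^(1-δ) = 2^(2-δ) h^(2-δ) / 5`. -/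
lemma Reduced.weak_inv (S : Reduced h δ) (φ : G7 → ℝ) (hφ : ContDiff ℝ 1 φ)
    (hs : HasCompactSupport φ) (hsΩ : tsupport φ ⊆ S.Om) (hinv : ∀ a x, φ (Rt a x) = φ x) :
    ∫ x in S.Om, (∑ i, Real.sqrt (∑ j, S.g j x ^ 2) ^ (-δ) * S.g i x * fderiv ℝ φ x (Xd i x) -
      Real.sqrt (zsq x) ^ (2 - δ) * φ x) = 0 := by
  obtain ⟨ψ, hψ, hψs, hψd, hφψ, hψr⟩ := descend S.h_pos S.h_le S.dom S.isOpen_dom S.dom_sub φ hφ hs
    hsΩ hinv
  have hK := KK_eq S φ ψ hψ hφψ hψr
  have hO : IsOpen S.Om := S.isOpen_Om_equi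
  -- continuity of the integrand
  have hKc : ContinuousOn (KK S φ) S.Om := by
    have hJc : ∀ i : Fin 6, Continuous (fun x : G7 => Xd i x) := fun i => by
      unfold Xd
      refine continuous_const.prodMk (continuous_pi fun _ => ?_)
      have : Continuous (fun x : G7 => Jm.mulVec x.1) :=
        Continuous.matrix_mulVec continuous_const continuous_fst
      exact ((continuous_apply i).comp this).div_const 2
    have hz : Continuous (fun x : G7 => Real.sqrt (zsq x) ^ (2 - δ)) := by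
      have h1 : Continuous zsq := by unfold zsq; fun_prop
      refine (h1.sqrt).rpow_const (fun x => Or.inr (by linarith [S.δ_lt]))
    have hd : Continuous (fderiv ℝ φ) := hφ.continuous_fderiv (by simp)
    show ContinuousOn (fun x => ∑ i, Real.sqrt (∑ j, S.g j x ^ 2) ^ (-δ) * S.g i x *
      fderiv ℝ φ x (Xd i x) - Real.sqrt (zsq x) ^ (2 - δ) * φ x) S.Om
    refine ContinuousOn.sub ?_ (hz.mul hφ.continuous).continuousOn
    refine continuousOn_finsetSum _ fun i _ => ?_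
    exact (S.continuousOn_flux i).mul (hd.clm_apply (hJc i)).continuousOn
  have h2 : (0 : ℝ) < 2 ^ (2 - δ) / 5 := by positivity
  have hHc0 : ContinuousOn (HH S ψ) S.dom := by
    have h3 : ContinuousOn (fun X => (2 ^ (2 - δ) / 5)⁻¹ * KK S φ (secX h X)) S.dom := by
      refine continuousOn_const.mul ?_
      refine hKc.comp (fun X hX => ?_) (fun X hX => ?_)
      · exact (contDiffAt_secX S.h_pos S.h_le (S.mem_ball hX)).continuousAt.continuousWithinAt
      · show XX h (secX h X) ∈ S.dom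
        rw [XX_secX S.h_pos S.h_le (S.mem_ball hX)]
        exact hX
    refine h3.congr fun X hX => ?_
    have h4 : secX h X ∈ S.Om := by
      show XX h (secX h X) ∈ S.dom
      rw [XX_secX S.h_pos S.h_le (S.mem_ball hX)]
      exact hX
    show HH S ψ X = (2 ^ (2 - δ) / 5)⁻¹ * KK S φ (secX h X)
    rw [hK _ h4, XX_secX S.h_pos S.h_le (S.mem_ball hX)]
    field_simp
  have hψ0 : ∀ X, X ∉ tsupport ψ → HH S ψ X = 0 := fun X hX => by
    have e1 : ψ X = 0 := image_eq_zero_of_notMem_tsupport hX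
    have e2 : fderiv ℝ ψ X = 0 := by
      rw [(notMem_tsupport_iff_eventuallyEq.mp hX).fderiv_eq]
      simp
    unfold HH
    simp [e1, e2]
  have hHc : Continuous (HH S ψ) :=
    cont_of_supp' _ S.dom (tsupport ψ) S.isOpen_dom (isClosed_tsupport ψ) hψd hHc0 hψ0
  have hHs' : Function.support (HH S ψ) ⊆ tsupport ψ := fun X hX => by
    by_contra hc
    exact hX (hψ0 X hc)
  have hHs : HasCompactSupport (HH S ψ) :=
    HasCompactSupport.of_support_subset_isCompact hψs hHs'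
  have hHt : tsupport (HH S ψ) ⊆ ball (0 : EE) 2 := by
    refine (closure_minimal hHs' (isClosed_tsupport ψ)).trans (hψd.trans ?_)
    intro X hX
    exact S.mem_ball hX
  have hpush := push S.h_pos S.h_le (HH S ψ) hHc hHs hHt
  have hint : ∫ X, HH S ψ X * ((rhoR h X)⁻¹ *
      (1 - (h * X 1) ^ 2 / (rhoR h X + (1 + h * X 0)) ^ 2)) = 0 := by
    have hw := S.weak ψ hψ hψs hψd
    rw [← hw]
    rw [setIntegral_eq_integral_of_forall_compl_eq_zero]
    · refine integral_congr_ae (Filter.Eventually.of_forall fun X => ?_)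
      show HH S ψ X * ((rhoR h X)⁻¹ *
        (1 - (h * X 1) ^ 2 / (rhoR h X + (1 + h * X 0)) ^ 2)) =
        WR h δ X * Real.sqrt (gsq h X (S.gF X)) ^ (-δ) *
          fderiv ℝ ψ X (GR h X (S.gF X)) - 5 * WR h δ X * ψ X
      by_cases hX : X ∈ S.dom
      · have hb := rhoR_bounds S.h_pos S.h_le (S.mem_ball hX)
        have hρ : 0 < rhoR h X := by linarith
        have e6 : rhoR h X ^ (1 - δ / 2) * (rhoR h X)⁻¹ = rhoR h X ^ (-(δ / 2)) := by
          rw [show (1 - δ / 2) = -(δ / 2) + 1 by ring, Real.rpow_add_one hρ.ne']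
          field_simp
        unfold HH WR
        rw [← e6]
        ring
      · have hXt : X ∉ tsupport ψ := fun hc => hX (hψd hc)
        have e1 : ψ X = 0 := image_eq_zero_of_notMem_tsupport hXt
        have e2 : fderiv ℝ ψ X = 0 := by
          rw [(notMem_tsupport_iff_eventuallyEq.mp hXt).fderiv_eq]
          simp
        rw [hψ0 X hXt]
        simp [e1, e2]
    · intro X hX
      have hXt : X ∉ tsupport ψ := fun hc => hX (hψd hc)
      have e1 : ψ X = 0 := image_eq_zero_of_notMem_tsupport hXt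
      have e2 : fderiv ℝ ψ X = 0 := by
        rw [(notMem_tsupport_iff_eventuallyEq.mp hXt).fderiv_eq]
        simp
      simp [e1, e2]
  rw [hint, mul_zero] at hpush
  show ∫ x in S.Om, KK S φ x = 0
  have h5 : ∫ x in S.Om, KK S φ x = ∫ x in S.Om, 2 ^ (2 - δ) / 5 * HH S ψ (XX h x) :=
    setIntegral_congr_fun hO.measurableSet fun x hx => hK x hx
  rw [h5, integral_const_mul]
  have h6 : ∫ x in S.Om, HH S ψ (XX h x) = ∫ x : G7, HH S ψ (XX h x) := by
    refine setIntegral_eq_integral_of_forall_compl_eq_zero fun x hx => ?_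
    exact hψ0 _ (fun hc => hx (hψd hc))
  rw [h6, hpush, mul_zero]

end
end OD16
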