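import Pool.Agent.LibOD16.GeoPolar

set_option autoImplicit false
namespace OD16
open MeasureTheory Metric
noncomputable section

/-- The orbit coordinates as a function of `(r1, r2, x_4, x_5, σ)`. -/
def XP (h : ℝ) (R : EE) : EE :=
  WithLp.toLp 2 ![((2 * R 0 * R 1 - (R 2 ^ 2 + R 3 ^ 2)) / 4 - 1) / h,
    (R 0 ^ 2 - R 1 ^ 2) / (4 * h),
    (R 0 + R 1) * R 2 / (2 * Real.sqrt 2 * h),
    (R 0 + R 1) * R 3 / (2 * Real.sqrt 2 * h),
    R 4 / h]

private lemma XP_0 (h : ℝ) (R : EE) :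
    XP h R 0 = ((2 * R 0 * R 1 - (R 2 ^ 2 + R 3 ^ 2)) / 4 - 1) / h := rfl
private lemma XP_1 (h : ℝ) (R : EE) :
    XP h R 1 = (R 0 ^ 2 - R 1 ^ 2) / (4 * h) := rfl
private lemma XP_2 (h : ℝ) (R : EE) :
    XP h R 2 = (R 0 + R 1) * R 2 / (2 * Real.sqrt 2 * h) := rfl
private lemma XP_3 (h : ℝ) (R : EE) :
    XP h R 3 = (R 0 + R 1) * R 3 / (2 * Real.sqrt 2 * h) := rfl
private lemma XP_4 (h : ℝ) (R : EE) :
    XP h R 4 = R 4 / h := rfl

private lemma XP_y1 {h : ℝ} (hh : h ≠ 0) (R : EE) :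
    1 + h * XP h R 0 = (2 * R 0 * R 1 - (R 2 ^ 2 + R 3 ^ 2)) / 4 := by
  rw [XP_0]; field_simp; ring

private lemma XP_h1 {h : ℝ} (hh : h ≠ 0) (R : EE) :
    h * XP h R 1 = (R 0 ^ 2 - R 1 ^ 2) / 4 := by
  rw [XP_1]; field_simp

private lemma XP_h2 {h : ℝ} (hh : h ≠ 0) (R : EE) :
    h * XP h R 2 = (R 0 + R 1) * R 2 / (2 * Real.sqrt 2) := by
  rw [XP_2]
  have h2 : Real.sqrt 2 ≠ 0 := (Real.sqrt_pos.2 (by norm_num)).ne'
  field_simp

private lemma XP_h3 {h : ℝ} (hh : h ≠ 0) (R : EE) :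
    h * XP h R 3 = (R 0 + R 1) * R 3 / (2 * Real.sqrt 2) := by
  rw [XP_3]
  have h2 : Real.sqrt 2 ≠ 0 := (Real.sqrt_pos.2 (by norm_num)).ne'
  field_simp

private lemma rhoR_XP {h : ℝ} (hh : h ≠ 0) (R : EE) :
    rhoR h (XP h R) = (R 0 ^ 2 + R 1 ^ 2 + R 2 ^ 2 + R 3 ^ 2) / 4 := by
  unfold rhoR
  rw [XP_y1 hh, XP_h1 hh, XP_h2 hh, XP_h3 hh, div_pow _ (2 * Real.sqrt 2),
    div_pow _ (2 * Real.sqrt 2), mul_pow 2 (Real.sqrt 2), Real.sq_sqrt (by norm_num : (0 : ℝ) ≤ 2)]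
  have : ((2 * R 0 * R 1 - (R 2 ^ 2 + R 3 ^ 2)) / 4) ^ 2 + ((R 0 ^ 2 - R 1 ^ 2) / 4) ^ 2 +
      ((R 0 + R 1) * R 2) ^ 2 / (2 ^ 2 * 2) + ((R 0 + R 1) * R 3) ^ 2 / (2 ^ 2 * 2) =
      ((R 0 ^ 2 + R 1 ^ 2 + R 2 ^ 2 + R 3 ^ 2) / 4) ^ 2 := by ring
  rw [this]
  exact Real.sqrt_sq (by positivity)

private lemma XP_sum {h : ℝ} (hh : h ≠ 0) (R : EE) :
    rhoR h (XP h R) + (1 + h * XP h R 0) = (R 0 + R 1) ^ 2 / 4 := by
  rw [rhoR_XP hh, XP_y1 hh]; ring

lemma XX_eq_XP (h : ℝ) (x : G7) : XX h x = XP h (polX x) := rfl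

/-- The Jacobian matrix. -/
private def MP (h : ℝ) (R : EE) : Matrix (Fin 5) (Fin 5) ℝ :=
  !![R 1 / (2 * h), R 0 / (2 * h), - R 2 / (2 * h), - R 3 / (2 * h), 0;
     R 0 / (2 * h), - R 1 / (2 * h), 0, 0, 0;
     R 2 / (2 * Real.sqrt 2 * h), R 2 / (2 * Real.sqrt 2 * h), (R 0 + R 1) / (2 * Real.sqrt 2 * h), 0, 0;
     R 3 / (2 * Real.sqrt 2 * h), R 3 / (2 * Real.sqrt 2 * h), 0, (R 0 + R 1) / (2 * Real.sqrt 2 * h), 0;
     0, 0, 0, 0, 1 / h]

private lemma MP_det (h : ℝ) (hh : 0 < h) (R : EE) :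
    (MP h R).det = - ((R 0 ^ 2 + R 1 ^ 2 + R 2 ^ 2 + R 3 ^ 2) * (R 0 + R 1) ^ 2 / (32 * h ^ 5)) := by
  have hs : Real.sqrt 2 ^ 2 = 2 := Real.sq_sqrt (by norm_num)
  have h2 : Real.sqrt 2 ≠ 0 := (Real.sqrt_pos.2 (by norm_num)).ne'
  unfold MP
  simp [Matrix.det_succ_row_zero, Fin.sum_univ_succ, Fin.succAbove]
  field_simp
  rw [hs]
  ring

private lemma hasFDerivAt_coord (i : Fin 5) (R : EE) :
    HasFDerivAt (fun R : EE => R i) (EuclideanSpace.proj i : EE →L[ℝ] ℝ) R :=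
  (EuclideanSpace.proj i : EE →L[ℝ] ℝ).hasFDerivAt

/-- TASK G07b.  `XP` is differentiable with Jacobian determinant
`(R0² + R1² + R2² + R3²) (R0 + R1)² / (32 h⁵)` in absolute value. -/
lemma XP_deriv (h : ℝ) (hh : 0 < h) (R : EE) : ∃ L : EE →L[ℝ] EE, HasFDerivAt (XP h) L R ∧
    |L.det| = (R 0 ^ 2 + R 1 ^ 2 + R 2 ^ 2 + R 3 ^ 2) * (R 0 + R 1) ^ 2 / (32 * h ^ 5) := by
  have hne : h ≠ 0 := hh.ne'
  have h2 : Real.sqrt 2 ≠ 0 := (Real.sqrt_pos.2 (by norm_num)).ne'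
  refine ⟨LinearMap.toContinuousLinearMap (Matrix.toEuclideanLin (MP h R)), ?_, ?_⟩
  · rw [← hasFDerivWithinAt_univ, hasFDerivWithinAt_euclidean]
    have c0 := hasFDerivAt_coord 0 R
    have c1 := hasFDerivAt_coord 1 R
    have c2 := hasFDerivAt_coord 2 R
    have c3 := hasFDerivAt_coord 3 R
    have c4 := hasFDerivAt_coord 4 R
    have key : ∀ (i : Fin 5) (v : EE), (PiLp.proj 2 (fun _ => ℝ) i ∘L LinearMap.toContinuousLinearMap
        (Matrix.toEuclideanLin (MP h R)) : EE →L[ℝ] ℝ) v =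
          ∑ j, MP h R i j * v j := by
      intro i v
      rfl
    intro i
    rw [hasFDerivWithinAt_univ]
    fin_cases i
    · have e := (((((c0.mul c1).const_mul 2).sub ((c2.pow 2).add (c3.pow 2))).const_mul 4⁻¹).sub_const
        1).const_mul h⁻¹
      refine (e.congr_fderiv ?_).congr_of_eventuallyEq (Filter.Eventually.of_forall fun R => ?_)
      · ext v
        rw [key]
        simp [MP, Fin.sum_univ_succ]
        field_simp
        ring
      · simp [XP]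
        ring
    · have e := ((c0.pow 2).sub (c1.pow 2)).const_mul (4 * h)⁻¹
      refine (e.congr_fderiv ?_).congr_of_eventuallyEq (Filter.Eventually.of_forall fun R => ?_)
      · ext v
        rw [key]
        simp [MP, Fin.sum_univ_succ]
        field_simp
        ring
      · simp [XP]
        ring
    · have e := ((c0.add c1).mul c2).const_mul (2 * Real.sqrt 2 * h)⁻¹
      refine (e.congr_fderiv ?_).congr_of_eventuallyEq (Filter.Eventually.of_forall fun R => ?_)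
      · ext v
        rw [key]
        simp [MP, Fin.sum_univ_succ]
        field_simp
        ring
      · simp [XP]
        ring
    · have e := ((c0.add c1).mul c3).const_mul (2 * Real.sqrt 2 * h)⁻¹
      refine (e.congr_fderiv ?_).congr_of_eventuallyEq (Filter.Eventually.of_forall fun R => ?_)
      · ext v
        rw [key]
        simp [MP, Fin.sum_univ_succ]
        field_simp
        ring
      · simp [XP]
        ring
    · have e := c4.const_mul h⁻¹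
      refine (e.congr_fderiv ?_).congr_of_eventuallyEq (Filter.Eventually.of_forall fun R => ?_)
      · ext v
        rw [key]
        simp [MP, Fin.sum_univ_succ]
      · simp [XP]
        ring
  · have e : (LinearMap.toContinuousLinearMap (Matrix.toEuclideanLin (MP h R)) : EE →L[ℝ] EE).det =
        (MP h R).det := by
      rw [ContinuousLinearMap.det, LinearMap.coe_toContinuousLinearMap,
        Matrix.toEuclideanLin_eq_toLin_orthonormal, LinearMap.det_toLin]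
    rw [e, MP_det h hh, abs_neg, abs_of_nonneg (by positivity)]

private lemma XP_inv {h : ℝ} (hh : 0 < h) (R : EE) (h0 : 0 < R 0) (h1 : 0 < R 1) :
    R 0 + R 1 = 2 * Real.sqrt (rhoR h (XP h R) + (1 + h * XP h R 0)) ∧
    R 0 - R 1 = 4 * (h * XP h R 1) / (R 0 + R 1) ∧
    R 2 = 2 * Real.sqrt 2 * (h * XP h R 2) / (R 0 + R 1) ∧
    R 3 = 2 * Real.sqrt 2 * (h * XP h R 3) / (R 0 + R 1) ∧ R 4 = h * XP h R 4 := by
  have hne := hh.ne'
  have e1 : 0 < R 0 + R 1 := by positivity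
  have h2 : Real.sqrt 2 ≠ 0 := (Real.sqrt_pos.2 (by norm_num)).ne'
  refine ⟨?_, ?_, ?_, ?_, ?_⟩
  · rw [XP_sum hne]
    have : (R 0 + R 1) ^ 2 / 4 = ((R 0 + R 1) / 2) ^ 2 := by ring
    rw [this, Real.sqrt_sq (by positivity)]
    ring
  · rw [XP_h1 hne]
    field_simp
    ring
  · rw [XP_h2 hne]
    field_simp
  · rw [XP_h3 hne]
    field_simp
  · rw [XP_4]
    field_simp

/-- `XP` maps `{R0, R1 > 0, XP R ∈ ball 0 2}` bijectively to the ball. -/
lemma XP_bij {h : ℝ} (hh : 0 < h) (hh1 : h ≤ 1 / 100) :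
    Set.BijOn (XP h) {R : EE | 0 < R 0 ∧ 0 < R 1 ∧ XP h R ∈ ball (0 : EE) 2} (ball (0 : EE) 2) := by
  have hne := hh.ne'
  refine ⟨fun R hR => hR.2.2, ?_, ?_⟩
  · rintro R ⟨h0, h1, -⟩ S ⟨g0, g1, -⟩ e
    obtain ⟨a1, a2, a3, a4, a5⟩ := XP_inv hh R h0 h1
    obtain ⟨b1, b2, b3, b4, b5⟩ := XP_inv hh S g0 g1
    have e : XP h R = XP h S := e
    rw [e] at a1 a2 a3 a4 a5
    have c1 : R 0 + R 1 = S 0 + S 1 := a1.trans b1.symm
    rw [c1] at a2 a3 a4
    have c2 : R 0 - R 1 = S 0 - S 1 := a2.trans b2.symm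
    have c3 := a3.trans b3.symm
    have c4 := a4.trans b4.symm
    have c5 := a5.trans b5.symm
    ext i
    fin_cases i
    · show R 0 = S 0
      linarith
    · show R 1 = S 1
      linarith
    · exact c3
    · exact c4
    · exact c5
  · intro X hX
    obtain ⟨hy, hρ, -⟩ := rhoR_bounds hh hh1 hX
    set ρ := rhoR h X with hρdef
    set y := 1 + h * X 0 with hydef
    have hs : 0 < ρ + y := by linarith
    have h2 : 0 < Real.sqrt 2 := Real.sqrt_pos.2 (by norm_num)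
    have h22 : Real.sqrt 2 ^ 2 = 2 := Real.sq_sqrt (by norm_num)
    set w := 2 * Real.sqrt (ρ + y) with hw
    have hw0 : 0 < w := by rw [hw]; have := Real.sqrt_pos.2 hs; positivity
    have hw2 : w ^ 2 = 4 * (ρ + y) := by rw [hw, mul_pow, Real.sq_sqrt hs.le]; ring
    have hρ2 : ρ ^ 2 = y ^ 2 + (h * X 1) ^ 2 + (h * X 2) ^ 2 + (h * X 3) ^ 2 := by
      rw [hρdef, rhoR, Real.sq_sqrt (by positivity)]
    set v := 4 * (h * X 1) / w with hv
    have hvw : v * w = 4 * (h * X 1) := by rw [hv]; field_simp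
    have habs : |h * X 1| < ρ + y := by
      have : |h * X 1| ≤ ρ := by
        apply abs_le_of_sq_le_sq _ (by linarith)
        rw [hρ2]; nlinarith [sq_nonneg y, sq_nonneg (h * X 2), sq_nonneg (h * X 3)]
      linarith
    have hvlt : |v| < w := by
      have e1 : |v| * w = 4 * |h * X 1| := by
        rw [show |v| * w = |v * w| from by rw [abs_mul, abs_of_pos hw0], hvw, abs_mul,
          abs_of_pos (by norm_num : (0:ℝ) < 4)]
      have e2 : |v| * w < w * w := by rw [e1]; nlinarith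
      exact lt_of_mul_lt_mul_right e2 hw0.le
    obtain ⟨hv1, hv2⟩ := abs_lt.1 hvlt
    set R : EE := WithLp.toLp 2 ![(w + v) / 2, (w - v) / 2, 2 * Real.sqrt 2 * (h * X 2) / w,
      2 * Real.sqrt 2 * (h * X 3) / w, h * X 4] with hR
    have R0 : R 0 = (w + v) / 2 := rfl
    have R1 : R 1 = (w - v) / 2 := rfl
    have R2 : R 2 = 2 * Real.sqrt 2 * (h * X 2) / w := rfl
    have R3 : R 3 = 2 * Real.sqrt 2 * (h * X 3) / w := rfl
    have R4 : R 4 = h * X 4 := rfl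
    have hsum : R 0 + R 1 = w := by rw [R0, R1]; ring
    have hXR : XP h R = X := by
      ext i
      fin_cases i
      · show XP h R 0 = X 0
        have e : 1 + h * XP h R 0 = 1 + h * X 0 := by
          rw [XP_y1 hne, ← hydef, R0, R1, R2, R3]
          have e1 : (2 * Real.sqrt 2 * (h * X 2) / w) ^ 2 = 8 * (h * X 2) ^ 2 / w ^ 2 := by
            rw [div_pow, mul_pow, mul_pow, h22]; ring
          have e2 : (2 * Real.sqrt 2 * (h * X 3) / w) ^ 2 = 8 * (h * X 3) ^ 2 / w ^ 2 := by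
            rw [div_pow, mul_pow, mul_pow, h22]; ring
          have e3 : v ^ 2 = 16 * (h * X 1) ^ 2 / w ^ 2 := by
            rw [hv, div_pow, mul_pow]; ring
          rw [e1, e2]
          have e4 : (2 * ((w + v) / 2) * ((w - v) / 2) - (8 * (h * X 2) ^ 2 / w ^ 2 + 8 * (h * X 3) ^ 2 / w ^ 2)) / 4
              = (w ^ 2 / 2 - v ^ 2 / 2 - (8 * (h * X 2) ^ 2 / w ^ 2 + 8 * (h * X 3) ^ 2 / w ^ 2)) / 4 := by ring
          rw [e4, e3, hw2]
          have hne' : ρ + y ≠ 0 := hs.ne'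
          have e5 : (4 * (ρ + y) / 2 - 16 * (h * X 1) ^ 2 / (4 * (ρ + y)) / 2 -
              (8 * (h * X 2) ^ 2 / (4 * (ρ + y)) + 8 * (h * X 3) ^ 2 / (4 * (ρ + y)))) / 4 =
              (ρ + y) / 2 - ((h * X 1) ^ 2 + (h * X 2) ^ 2 + (h * X 3) ^ 2) / (ρ + y) / 2 := by
            generalize h * X 1 = a
            generalize h * X 2 = b
            generalize h * X 3 = c
            generalize ρ + y = s at hne'
            field_simp
            ring
          have e6 : (h * X 1) ^ 2 + (h * X 2) ^ 2 + (h * X 3) ^ 2 = (ρ - y) * (ρ + y) := by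
            linarith [hρ2, (by ring : (ρ - y) * (ρ + y) = ρ ^ 2 - y ^ 2)]
          rw [e5, e6, mul_div_cancel_right₀ _ hne']
          ring
        have := add_left_cancel e
        exact mul_left_cancel₀ hne this
      · show XP h R 1 = X 1
        have e : h * XP h R 1 = h * X 1 := by
          rw [XP_h1 hne, R0, R1]
          nlinarith [hvw]
        exact mul_left_cancel₀ hne e
      · show XP h R 2 = X 2
        have e : h * XP h R 2 = h * X 2 := by
          rw [XP_h2 hne, hsum, R2]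
          field_simp
        exact mul_left_cancel₀ hne e
      · show XP h R 3 = X 3
        have e : h * XP h R 3 = h * X 3 := by
          rw [XP_h3 hne, hsum, R3]
          field_simp
        exact mul_left_cancel₀ hne e
      · show XP h R 4 = X 4
        rw [XP_4, R4]
        field_simp
    refine ⟨R, ⟨?_, ?_, ?_⟩, hXR⟩
    · rw [R0]; linarith
    · rw [R1]; linarith
    · rw [hXR]; exact hX

/-- The density. -/
lemma XP_density {h : ℝ} (hh : 0 < h) (R : EE) (h0 : 0 < R 0) (h1 : 0 < R 1)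
    (hy : 0 < 1 + h * XP h R 0) :
    (R 0 ^ 2 + R 1 ^ 2 + R 2 ^ 2 + R 3 ^ 2) * (R 0 + R 1) ^ 2 / (32 * h ^ 5) *
      (2 * h ^ 5 * ((rhoR h (XP h R))⁻¹ *
        (1 - (h * XP h R 1) ^ 2 / (rhoR h (XP h R) + (1 + h * XP h R 0)) ^ 2))) = R 0 * R 1 := by
  rw [XP_sum hh.ne', rhoR_XP hh.ne', XP_h1 hh.ne']
  have e1 : 0 < R 0 + R 1 := by positivity
  have e2 : 0 < R 0 ^ 2 + R 1 ^ 2 + R 2 ^ 2 + R 3 ^ 2 := by positivity
  have hne := hh.ne'
  field_simp
  ring

end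
end OD16
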