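import Mathlib

set_option autoImplicit false

/-!
# Harmonic polynomials in five variables: definitions

`V l` is the space of harmonic homogeneous polynomials of degree `l` in five variables with the norm
`wt l * ‖·‖_{L²(S⁴)}`.
-/

namespace OD16

open MvPolynomial MeasureTheory Metric

noncomputable section

abbrev E5 := EuclideanSpace ℝ (Fin 5)

abbrev S4 := sphere (0 : E5) 1

abbrev Pol := MvPolynomial (Fin 5) ℝ

/-- Value of a polynomial at a point. -/
def pev (P : Pol) (x : E5) : ℝ := eval (fun i => x i) P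

/-- The Laplacian of a polynomial. -/
def lap : Pol →ₗ[ℝ] Pol :=
  ∑ i : Fin 5, (pderiv i).toLinearMap.comp (pderiv i).toLinearMap

/-- The polynomial `|x|²`. -/
def nsq : Pol := ∑ i : Fin 5, X i ^ 2

/-- Harmonic homogeneous polynomials of degree `l`. -/
def harm (l : ℕ) : Submodule ℝ Pol := homogeneousSubmodule (Fin 5) ℝ l ⊓ LinearMap.ker lap

/-- Surface measure on the unit sphere. -/
def μS : Measure S4 := (volume : Measure E5).toSphere

instance : IsFiniteMeasure μS := inferInstanceAs (IsFiniteMeasure (volume : Measure E5).toSphere)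

/-- The `L²` inner product on the sphere. -/
def ip (P Q : Pol) : ℝ := ∫ θ : S4, pev P θ * pev Q θ ∂μS

/-- The weights. -/
def wt (l : ℕ) : ℝ := 48 * ((l : ℝ) + 1) ^ 3 * 2 ^ l

lemma wt_pos (l : ℕ) : 0 < wt l := by unfold wt; positivity

lemma pev_add (P Q : Pol) (x : E5) : pev (P + Q) x = pev P x + pev Q x := by simp [pev]

lemma pev_smul (c : ℝ) (P : Pol) (x : E5) : pev (c • P) x = c * pev P x := by
  simp [pev, smul_eval]

lemma pev_mul (P Q : Pol) (x : E5) : pev (P * Q) x = pev P x * pev Q x := by simp [pev]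

lemma pev_zero (x : E5) : pev 0 x = 0 := by simp [pev]

@[fun_prop]
lemma continuous_pev (P : Pol) : Continuous (pev P) := by
  unfold pev
  have : Continuous (fun v : Fin 5 → ℝ => eval v P) := MvPolynomial.continuous_eval P
  exact this.comp (by fun_prop)

lemma integrable_pev_mul (P Q : Pol) : Integrable (fun θ : S4 => pev P θ * pev Q θ) μS := by
  have hc : Continuous (fun θ : S4 => pev P θ * pev Q θ) := by fun_prop
  exact hc.integrable_of_hasCompactSupport (HasCompactSupport.of_compactSpace _)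

lemma ip_comm (P Q : Pol) : ip P Q = ip Q P := by simp [ip, mul_comm]

lemma ip_add_left (P Q R : Pol) : ip (P + Q) R = ip P R + ip Q R := by
  unfold ip
  rw [← integral_add (integrable_pev_mul P R) (integrable_pev_mul Q R)]
  congr 1
  ext θ
  rw [pev_add]
  ring

lemma ip_smul_left (c : ℝ) (P Q : Pol) : ip (c • P) Q = c * ip P Q := by
  unfold ip
  rw [← integral_const_mul]
  congr 1
  ext θ
  rw [pev_smul]
  ring

lemma ip_self_nonneg (P : Pol) : 0 ≤ ip P P := by
  unfold ip
  apply integral_nonneg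
  intro θ
  exact mul_self_nonneg _


lemma pev_hom {l : ℕ} {P : Pol} (hP : P.IsHomogeneous l) (c : ℝ) (x : E5) :
    pev P (c • x) = c ^ l * pev P x := by
  unfold pev
  rw [eval_eq, eval_eq, Finset.mul_sum]
  apply Finset.sum_congr rfl
  intro d hd
  have hdeg : d.degree = l := by
    have := hP (mem_support_iff.mp hd)
    rwa [Finsupp.degree_eq_weight_one]
  have : ∏ i ∈ d.support, (c • x).ofLp i ^ d i = c ^ l * ∏ i ∈ d.support, x.ofLp i ^ d i := by
    simp only [PiLp.smul_apply, smul_eq_mul, mul_pow]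
    rw [Finset.prod_mul_distrib, Finset.prod_pow_eq_pow_sum]
    rw [← hdeg]
    rfl
  rw [this]
  ring

lemma pev_eq_zero_of_sphere {l : ℕ} {P : Pol} (hP : P.IsHomogeneous l)
    (h : ∀ θ : S4, pev P θ = 0) (x : E5) : pev P x = 0 := by
  by_cases hx : x = 0
  · subst hx
    -- P 0: compare with a scalar multiple of a unit vector
    have h1 := pev_hom hP 0 (EuclideanSpace.single 0 (1:ℝ))
    rw [zero_smul] at h1
    rw [h1]
    have h2 : pev P (EuclideanSpace.single 0 (1:ℝ)) = 0 := by
      have := h ⟨EuclideanSpace.single 0 (1:ℝ), by simp⟩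
      simpa using this
    rw [h2, mul_zero]
  · have hn : ‖x‖ ≠ 0 := norm_ne_zero_iff.mpr hx
    have h1 : x = ‖x‖ • (‖x‖⁻¹ • x) := by rw [smul_smul, mul_inv_cancel₀ hn, one_smul]
    rw [h1, pev_hom hP]
    have h2 : pev P (‖x‖⁻¹ • x) = 0 := by
      have := h ⟨‖x‖⁻¹ • x, by simp [norm_smul, hn]⟩
      simpa using this
    rw [h2, mul_zero]

lemma ip_self_eq_zero {l : ℕ} {P : Pol} (hP : P.IsHomogeneous l) (h : ip P P = 0) : P = 0 := by
  have hc : Continuous (fun θ : S4 => pev P θ * pev P θ) := by fun_prop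
  unfold ip at h
  rw [integral_eq_zero_iff_of_nonneg (fun θ => mul_self_nonneg _) (integrable_pev_mul P P)] at h
  have h1 : (fun θ : S4 => pev P θ * pev P θ) = 0 := by
    have : Measure.IsOpenPosMeasure μS := inferInstanceAs
      (Measure.IsOpenPosMeasure (volume : Measure E5).toSphere)
    exact (Continuous.ae_eq_iff_eq μS hc continuous_const).mp h
  have h2 : ∀ θ : S4, pev P θ = 0 := fun θ => mul_self_eq_zero.mp (congrFun h1 θ)
  apply MvPolynomial.funext
  intro v
  have := pev_eq_zero_of_sphere hP h2 (WithLp.toLp 2 v)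
  simpa [pev] using this

instance harm_finite (l : ℕ) : Module.Finite ℝ (harm l) := by
  have h1 : Module.Finite ℝ (homogeneousSubmodule (Fin 5) ℝ l) :=
    Module.Finite.iff_fg.mpr (homogeneousSubmodule_fg (Fin 5) ℝ l)
  exact Submodule.finiteDimensional_of_le inf_le_left


/-- Harmonic homogeneous polynomials of degree `l`, as a type of its own. -/
def V (l : ℕ) : Type := harm l

instance (l : ℕ) : AddCommGroup (V l) := inferInstanceAs (AddCommGroup (harm l))

instance (l : ℕ) : Module ℝ (V l) := inferInstanceAs (Module ℝ (harm l))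

instance (l : ℕ) : Module.Finite ℝ (V l) := inferInstanceAs (Module.Finite ℝ (harm l))

/-- The underlying polynomial. -/
def V.pol {l : ℕ} (P : V l) : Pol := P.1

lemma V.mem {l : ℕ} (P : V l) : P.pol ∈ harm l := P.2

lemma V.hom {l : ℕ} (P : V l) : P.pol.IsHomogeneous l := P.2.1

lemma V.lap_eq {l : ℕ} (P : V l) : lap P.pol = 0 := P.2.2

/-- An element of `V l` from a polynomial. -/
def V.mk {l : ℕ} (P : Pol) (h : P ∈ harm l) : V l := ⟨P, h⟩

@[simp] lemma V.pol_mk {l : ℕ} (P : Pol) (h : P ∈ harm l) : (V.mk P h).pol = P := rfl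

@[ext] lemma V.ext {l : ℕ} {P Q : V l} (h : P.pol = Q.pol) : P = Q := Subtype.ext h

@[simp] lemma V.pol_add {l : ℕ} (P Q : V l) : (P + Q).pol = P.pol + Q.pol := rfl
@[simp] lemma V.pol_sub {l : ℕ} (P Q : V l) : (P - Q).pol = P.pol - Q.pol := rfl
@[simp] lemma V.pol_neg {l : ℕ} (P : V l) : (-P).pol = -P.pol := rfl
@[simp] lemma V.pol_smul {l : ℕ} (c : ℝ) (P : V l) : (c • P).pol = c • P.pol := rfl
@[simp] lemma V.pol_zero {l : ℕ} : (0 : V l).pol = 0 := rfl

/-- `pol` as a linear map. -/
def V.polL (l : ℕ) : V l →ₗ[ℝ] Pol := (harm l).subtype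

/-- The inner product of `V l`: the square of the weight times the `L²` inner product. -/
def V.core (l : ℕ) : InnerProductSpace.Core ℝ (V l) where
  inner P Q := wt l ^ 2 * ip P.pol Q.pol
  conj_inner_symm P Q := by simp [ip_comm]
  re_inner_nonneg P := by
    simp only [RCLike.re_to_real]
    exact mul_nonneg (by positivity) (ip_self_nonneg _)
  add_left P Q R := by
    show wt l ^ 2 * ip (P.pol + Q.pol) R.pol = _
    rw [ip_add_left]
    ring
  smul_left P Q c := by
    show wt l ^ 2 * ip (c • P.pol) Q.pol = _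
    rw [ip_smul_left]
    simp only [conj_trivial]
    ring
  definite P h := by
    have h1 : ip P.pol P.pol = 0 := by
      have := wt_pos l
      rcases mul_eq_zero.mp h with h | h
      · exact absurd h (by positivity)
      · exact h
    exact V.ext (ip_self_eq_zero P.hom h1)

instance (l : ℕ) : NormedAddCommGroup (V l) := (V.core l).toNormedAddCommGroup

instance (l : ℕ) : InnerProductSpace ℝ (V l) := InnerProductSpace.ofCore (V.core l).toCore

instance (l : ℕ) : CompleteSpace (V l) := FiniteDimensional.complete ℝ (V l)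

lemma V.inner_def {l : ℕ} (P Q : V l) : inner ℝ P Q = wt l ^ 2 * ip P.pol Q.pol := rfl

lemma V.norm_sq {l : ℕ} (P : V l) : ‖P‖ ^ 2 = wt l ^ 2 * ip P.pol P.pol := by
  rw [← real_inner_self_eq_norm_sq, V.inner_def]

/-- The `L²` norm on the sphere. -/
def nL (P : Pol) : ℝ := Real.sqrt (ip P P)

lemma V.norm_eq {l : ℕ} (P : V l) : ‖P‖ = wt l * nL P.pol := by
  have h := V.norm_sq P
  have h1 : (wt l * nL P.pol) ^ 2 = wt l ^ 2 * ip P.pol P.pol := by
    rw [mul_pow, nL, Real.sq_sqrt (ip_self_nonneg _)]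
  have h2 : 0 ≤ wt l * nL P.pol := mul_nonneg (wt_pos l).le (Real.sqrt_nonneg _)
  nlinarith [norm_nonneg P, sq_nonneg (‖P‖ - wt l * nL P.pol), sq_nonneg (‖P‖ + wt l * nL P.pol)]

/-- Value of an element of `V l` at a point. -/
def V.ev {l : ℕ} (P : V l) (x : E5) : ℝ := pev P.pol x

end

end OD16
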