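import Pool.Agent.LibOD16.HarmLap

set_option autoImplicit false
namespace OD16
open MvPolynomial MeasureTheory Metric
noncomputable section

/-- Raising operator `V l → V (l+1)`. -/
def up (i : Fin 5) (l : ℕ) : V l →ₗ[ℝ] V (l + 1) where
  toFun P := V.mk (upPol i l P.pol) (up_mem i P.mem)
  map_add' P Q := by
    apply V.ext
    simp only [V.pol_mk, V.pol_add, upPol, mul_add, map_add, smul_add]
    ring
  map_smul' c P := by
    apply V.ext
    simp only [V.pol_mk, V.pol_smul, upPol, RingHom.id_apply, smul_sub, mul_smul_comm,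
      Derivation.map_smul]
    rw [smul_comm c]

/-- Lowering operator `V (l+1) → V l`. -/
def dn (i : Fin 5) (l : ℕ) : V (l + 1) →ₗ[ℝ] V l where
  toFun P := V.mk ((2 * (l : ℝ) + 5)⁻¹ • pderiv i P.pol) (dn_mem i P.mem)
  map_add' P Q := by
    apply V.ext
    simp only [V.pol_mk, V.pol_add, map_add, smul_add]
  map_smul' c P := by
    apply V.ext
    simp only [V.pol_mk, V.pol_smul, RingHom.id_apply, Derivation.map_smul]
    rw [smul_comm c]

@[simp] lemma up_pol (i : Fin 5) (l : ℕ) (P : V l) : (up i l P).pol = upPol i l P.pol := rfl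

@[simp] lemma dn_pol (i : Fin 5) (l : ℕ) (P : V (l + 1)) :
    (dn i l P).pol = (2 * (l : ℝ) + 5)⁻¹ • pderiv i P.pol := rfl

/-- The lowering operator from `V l`, zero on `V 0`, with values in `V (l-1)`. -/
def dn' (i : Fin 5) : (l : ℕ) → V l →ₗ[ℝ] V (l - 1)
  | 0 => 0
  | (l + 1) => dn i l

lemma V.ev_add {l : ℕ} (P Q : V l) (x : E5) : (P + Q).ev x = P.ev x + Q.ev x := pev_add _ _ _

lemma V.ev_smul {l : ℕ} (c : ℝ) (P : V l) (x : E5) : (c • P).ev x = c * P.ev x := pev_smul _ _ _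

lemma V.ev_zero {l : ℕ} (x : E5) : (0 : V l).ev x = 0 := pev_zero x

/-- Evaluation at a point as a linear map. -/
def V.evL (l : ℕ) (x : E5) : V l →ₗ[ℝ] ℝ where
  toFun P := P.ev x
  map_add' P Q := P.ev_add Q x
  map_smul' c P := P.ev_smul c x

/-- On the sphere, `θ_i P = up_i P + dn_i P` for `P ∈ V (l+1)`. -/
lemma ev_mul_coord (i : Fin 5) (l : ℕ) (P : V (l + 1)) (θ : S4) :
    θ.1 i * P.ev θ = (up i (l + 1) P).ev θ + (dn i l P).ev θ := by
  have hn : ‖(θ : E5)‖ = 1 := by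
    have h := θ.2
    rwa [mem_sphere_zero_iff_norm] at h
  have hX : pev (X i : Pol) (θ : E5) = θ.1 i := by simp [pev]
  have h1 : (up i (l + 1) P).ev θ = θ.1 i * P.ev θ
      - (2 * (l : ℝ) + 5)⁻¹ * pev (pderiv i P.pol) θ := by
    have e1 : (up i (l + 1) P).ev θ = pev (X i * P.pol
        - (2 * ((l + 1 : ℕ) : ℝ) + 3)⁻¹ • (nsq * pderiv i P.pol)) θ := rfl
    have e2 : pev (X i * P.pol - (2 * ((l + 1 : ℕ) : ℝ) + 3)⁻¹ • (nsq * pderiv i P.pol)) θ
        = pev (X i * P.pol) θ - pev ((2 * ((l + 1 : ℕ) : ℝ) + 3)⁻¹ • (nsq * pderiv i P.pol)) θ := by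
      simp [pev]
    have e3 : (2 * ((l + 1 : ℕ) : ℝ) + 3) = 2 * (l : ℝ) + 5 := by push_cast; ring
    rw [e1, e2, pev_mul, pev_smul, pev_mul, pev_nsq, hX, hn, e3]
    simp only [V.ev]
    ring
  have h2 : (dn i l P).ev θ = (2 * (l : ℝ) + 5)⁻¹ * pev (pderiv i P.pol) θ := by
    have e1 : (dn i l P).ev θ = pev ((2 * (l : ℝ) + 5)⁻¹ • pderiv i P.pol) θ := rfl
    rw [e1, pev_smul]
  rw [h1, h2]
  ring

lemma ev_mul_coord_zero (i : Fin 5) (P : V 0) (θ : S4) :
    θ.1 i * P.ev θ = (up i 0 P).ev θ := by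
  have hX : pev (X i : Pol) (θ : E5) = θ.1 i := by simp [pev]
  have e1 : (up i 0 P).ev θ = pev (X i * P.pol
      - (2 * ((0 : ℕ) : ℝ) + 3)⁻¹ • (nsq * pderiv i P.pol)) θ := rfl
  rw [e1, pderiv_hom_zero P.hom i, mul_zero, smul_zero, sub_zero, pev_mul, hX]
  rfl

end
end OD16
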