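import Pool.Agent.LibOD16.Harm2

set_option autoImplicit false
namespace OD16
open MvPolynomial MeasureTheory Metric
noncomputable section

private def DecRep (d : ℕ) (f : S4 → ℝ) : Prop :=
  ∃ c : (k : ℕ) → V k, ∀ θ : S4, f θ = ∑ k ∈ Finset.range (d + 1), (c k).ev θ.1

private lemma DecRep.add {d : ℕ} {f g : S4 → ℝ} (hf : DecRep d f) (hg : DecRep d g) :
    DecRep d (fun θ => f θ + g θ) := by
  obtain ⟨c, hc⟩ := hf
  obtain ⟨c', hc'⟩ := hg
  refine ⟨fun k => c k + c' k, fun θ => ?_⟩
  beta_reduce
  rw [hc, hc', ← Finset.sum_add_distrib]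
  exact Finset.sum_congr rfl fun k _ => (V.ev_add _ _ _).symm

private lemma DecRep.smul {d : ℕ} {f : S4 → ℝ} (hf : DecRep d f) (a : ℝ) :
    DecRep d (fun θ => a * f θ) := by
  obtain ⟨c, hc⟩ := hf
  refine ⟨fun k => a • c k, fun θ => ?_⟩
  beta_reduce
  rw [hc, Finset.mul_sum]
  exact Finset.sum_congr rfl fun k _ => (V.ev_smul _ _ _).symm

private lemma DecRep.zero (d : ℕ) : DecRep d (fun _ => 0) :=
  ⟨fun _ => 0, fun θ => (Finset.sum_eq_zero fun _ _ => V.ev_zero _).symm⟩

private lemma DecRep.sum {ι : Type*} {d : ℕ} (s : Finset ι) (f : ι → S4 → ℝ)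
    (h : ∀ i ∈ s, DecRep d (f i)) : DecRep d (fun θ => ∑ i ∈ s, f i θ) := by
  classical
  induction s using Finset.induction_on with
  | empty =>
    simp only [Finset.sum_empty]
    exact DecRep.zero d
  | insert i s hi ih =>
    simp only [Finset.sum_insert hi]
    exact (h i (Finset.mem_insert_self i s)).add
      (ih fun j hj => h j (Finset.mem_insert_of_mem hj))

private lemma DecRep.single {d k : ℕ} (hk : k ≤ d) (Q : V k) : DecRep d (fun θ => Q.ev θ.1) := by
  refine ⟨Pi.single k Q, fun θ => ?_⟩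
  rw [Finset.sum_eq_single k]
  · rw [Pi.single_eq_same]
  · intro j _ hj
    rw [Pi.single_eq_of_ne hj]
    exact V.ev_zero _
  · intro h
    exact absurd (Finset.mem_range.2 (by omega)) h

private lemma DecRep.mul_coord {d : ℕ} {f : S4 → ℝ} (hf : DecRep d f) (i : Fin 5) :
    DecRep (d + 1) (fun θ => θ.1 i * f θ) := by
  obtain ⟨c, hc⟩ := hf
  have h1 : (fun θ : S4 => θ.1 i * f θ) = fun θ : S4 => ∑ k ∈ Finset.range (d + 1),
      ((up i k (c k)).ev θ.1 + (dn' i k (c k)).ev θ.1) := by
    funext θ
    rw [hc, Finset.mul_sum]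
    exact Finset.sum_congr rfl fun k _ => ev_mul_coord' i (c k) θ
  rw [h1]
  refine DecRep.sum _ _ fun k hk => ?_
  have hk' := Finset.mem_range.1 hk
  exact (DecRep.single (by omega) _).add (DecRep.single (by omega) _)

private lemma DecRep.one (d : ℕ) : DecRep d (fun _ => 1) := by
  have h1 : (1 : Pol) ∈ harm 0 := by
    refine ⟨isHomogeneous_one _ _, ?_⟩
    change lap 1 = 0
    unfold lap
    rw [LinearMap.sum_apply]
    refine Finset.sum_eq_zero fun i _ => ?_
    change pderiv i (pderiv i (1 : Pol)) = 0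
    rw [pderiv_one, map_zero]
  have h2 := DecRep.single (Nat.zero_le d) (V.mk 1 h1)
  have h3 : (fun θ : S4 => (V.mk (1 : Pol) h1).ev θ.1) = fun _ => 1 := by
    funext θ
    change pev 1 θ.1 = 1
    unfold pev
    rw [map_one]
  rwa [h3] at h2

private lemma DecRep.monomial (d : ℕ) : ∀ m : Fin 5 →₀ ℕ, (m.sum fun _ e => e) ≤ d →
    DecRep d (fun θ : S4 => pev (MvPolynomial.monomial m (1 : ℝ)) θ.1) := by
  induction d with
  | zero =>
    intro m hm
    have h0 : m = 0 := by
      ext i
      by_contra hi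
      have hi' : i ∈ m.support := by
        rw [Finsupp.mem_support_iff]
        exact hi
      have := Finset.single_le_sum (f := fun j => m j) (fun j _ => Nat.zero_le _) hi'
      have h2 : m.sum (fun _ e => e) = ∑ j ∈ m.support, m j := rfl
      rw [Finsupp.coe_zero, Pi.zero_apply] at hi
      omega
    subst h0
    have h1 : (fun θ : S4 => pev (MvPolynomial.monomial (0 : Fin 5 →₀ ℕ) (1 : ℝ)) θ.1) =
        fun _ => 1 := by
      funext θ
      simp [pev]
    rw [h1]
    exact DecRep.one 0
  | succ d ih =>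
    intro m hm
    by_cases h0 : m = 0
    · subst h0
      have h1 : (fun θ : S4 => pev (MvPolynomial.monomial (0 : Fin 5 →₀ ℕ) (1 : ℝ)) θ.1) =
          fun _ => 1 := by
        funext θ
        simp [pev]
      rw [h1]
      exact DecRep.one _
    · obtain ⟨i, hi⟩ : ∃ i, m i ≠ 0 := by
        by_contra h
        push Not at h
        exact h0 (Finsupp.ext h)
      obtain ⟨m', hm'⟩ : ∃ m', m = m' + Finsupp.single i 1 := by
        refine ⟨m - Finsupp.single i 1, ?_⟩
        refine (tsub_add_cancel_of_le ?_).symm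
        rw [Finsupp.single_le_iff]
        omega
      subst hm'
      have hdeg : (m'.sum fun _ e => e) ≤ d := by
        rw [Finsupp.sum_add_index' (fun _ => rfl) (fun _ _ _ => rfl), Finsupp.sum_single_index rfl]
          at hm
        omega
      have h1 := (ih m' hdeg).mul_coord i
      have h2 : (fun θ : S4 => pev (MvPolynomial.monomial (m' + Finsupp.single i 1) (1 : ℝ)) θ.1) =
          fun θ : S4 => θ.1 i * pev (MvPolynomial.monomial m' (1 : ℝ)) θ.1 := by
        funext θ
        have h3 : MvPolynomial.monomial (m' + Finsupp.single i 1) (1 : ℝ) =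
            MvPolynomial.X i * MvPolynomial.monomial m' (1 : ℝ) := by
          rw [MvPolynomial.X, MvPolynomial.monomial_mul, one_mul, add_comm]
        rw [h3, pev_mul]
        congr 1
        simp [pev]
      rw [h2]
      exact h1

/-- TASK H09.  Restrictions of polynomials to the sphere are sums of harmonic ones: induction on
monomials with `ev_mul_coord'`. -/
lemma decomp (d : ℕ) (P : Pol) (hP : P.totalDegree ≤ d) : ∃ c : (k : ℕ) → V k, ∀ θ : S4,
    pev P θ.1 = ∑ k ∈ Finset.range (d + 1), (c k).ev θ.1 := by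
  have h1 : DecRep d (fun θ : S4 => ∑ m ∈ P.support,
      P.coeff m * pev (MvPolynomial.monomial m (1 : ℝ)) θ.1) := by
    refine DecRep.sum _ _ fun m hm => DecRep.smul (DecRep.monomial d m ?_) _
    exact (le_totalDegree hm).trans hP
  obtain ⟨c, hc⟩ := h1
  refine ⟨c, fun θ => ?_⟩
  rw [← hc θ]
  unfold pev
  conv_lhs => rw [P.as_sum, map_sum]
  refine Finset.sum_congr rfl fun m _ => ?_
  rw [eval_monomial, eval_monomial, one_mul]

end
end OD16
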