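import Pool.Agent.LibOD16.Harm0

set_option autoImplicit false
namespace OD16
open MvPolynomial MeasureTheory Metric
noncomputable section

lemma lap_apply (P : Pol) : lap P = ∑ i : Fin 5, pderiv i (pderiv i P) := by
  simp [lap]

lemma pderiv_X_eq (i j : Fin 5) :
    pderiv j (X i : Pol) = C (if i = j then (1 : ℝ) else 0) := by
  rw [pderiv_X]
  by_cases h : i = j
  · subst h
    simp
  · simp [h]

/-- TASK H01.  `Δ (x_i P) = 2 ∂_i P + x_i Δ P`. -/
lemma lap_X_mul (i : Fin 5) (P : Pol) : lap (X i * P) = 2 * pderiv i P + X i * lap P := by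
  rw [lap_apply, lap_apply, Finset.mul_sum]
  have h : ∀ j : Fin 5, pderiv j (pderiv j (X i * P)) =
      2 * (C (if i = j then (1 : ℝ) else 0) * pderiv j P) + X i * pderiv j (pderiv j P) := by
    intro j
    rw [pderiv_mul, map_add, pderiv_mul, pderiv_mul, pderiv_X_eq, pderiv_C]
    ring
  simp_rw [h]
  rw [Finset.sum_add_distrib]
  congr 1
  rw [← Finset.mul_sum]
  congr 1
  rw [Finset.sum_eq_single i]
  · simp
  · intro j _ hj
    simp [Ne.symm hj]
  · simp

/-- `Δ (|x|² Q) = (10 + 4 d) Q + |x|² Δ Q` for `Q` homogeneous of degree `d`. -/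
lemma lap_nsq_mul {d : ℕ} {Q : Pol} (hQ : Q.IsHomogeneous d) :
    lap (nsq * Q) = (10 + 4 * (d : ℝ)) • Q + nsq * lap Q := by
  have h1 : ∀ i : Fin 5, lap (X i ^ 2 * Q) =
      2 * Q + 4 * (X i * pderiv i Q) + X i ^ 2 * lap Q := by
    intro i
    have : X i ^ 2 * Q = X i * (X i * Q) := by ring
    rw [this, lap_X_mul, lap_X_mul, pderiv_mul, pderiv_X_self]
    ring
  rw [nsq, Finset.sum_mul, map_sum, Finset.sum_congr rfl (fun i _ => h1 i),
    Finset.sum_add_distrib, Finset.sum_add_distrib, ← Finset.mul_sum, ← Finset.mul_sum,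
    hQ.sum_X_mul_pderiv, Finset.sum_mul]
  congr 1
  rw [Finset.sum_const, Finset.card_univ, Fintype.card_fin, add_smul, mul_smul]
  rw [nsmul_eq_mul, nsmul_eq_mul, smul_eq_C_mul, smul_eq_C_mul, smul_eq_C_mul]
  simp only [map_ofNat, map_natCast]
  push_cast
  ring

lemma nsq_hom : nsq.IsHomogeneous 2 := by
  unfold nsq
  apply IsHomogeneous.sum
  intro i _
  have := (isHomogeneous_X ℝ i).pow 2
  simpa using this

lemma pev_nsq (x : E5) : pev nsq x = ‖x‖ ^ 2 := by
  rw [EuclideanSpace.real_norm_sq_eq]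
  simp [pev, nsq]

lemma pderiv_hom {l : ℕ} {P : Pol} (hP : P.IsHomogeneous (l + 1)) (i : Fin 5) :
    (pderiv i P).IsHomogeneous l := by
  have := hP.pderiv (i := i)
  simpa using this

lemma pderiv_hom_zero {P : Pol} (hP : P.IsHomogeneous 0) (i : Fin 5) : pderiv i P = 0 := by
  rw [← totalDegree_zero_iff_isHomogeneous, totalDegree_eq_zero_iff_eq_C] at hP
  rw [hP, pderiv_C]

lemma pderiv_comm' (i j : Fin 5) (P : Pol) :
    pderiv i (pderiv j P) = pderiv j (pderiv i P) := by
  ext m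
  rw [coeff_pderiv, coeff_pderiv, coeff_pderiv, coeff_pderiv]
  by_cases h : i = j
  · subst h
    rfl
  · have e1 : (m + Finsupp.single i 1 : Fin 5 →₀ ℕ) j = m j := by simp [h]
    have e2 : (m + Finsupp.single j 1 : Fin 5 →₀ ℕ) i = m i := by
      simp [Ne.symm h]
    rw [e1, e2]
    have e3 : m + Finsupp.single i 1 + Finsupp.single j 1 =
        m + Finsupp.single j 1 + Finsupp.single i 1 := by abel
    rw [e3]
    ring

lemma lap_pderiv (i : Fin 5) (P : Pol) : lap (pderiv i P) = pderiv i (lap P) := by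
  rw [lap_apply, lap_apply, map_sum]
  apply Finset.sum_congr rfl
  intro j _
  rw [pderiv_comm' j i P, pderiv_comm' j i (pderiv j P)]

/-- The polynomial `x_i P - |x|² ∂_i P / (2 l + 3)`. -/
def upPol (i : Fin 5) (l : ℕ) (P : Pol) : Pol :=
  X i * P - (2 * (l : ℝ) + 3)⁻¹ • (nsq * pderiv i P)

lemma up_mem (i : Fin 5) {l : ℕ} {P : Pol} (hP : P ∈ harm l) : upPol i l P ∈ harm (l + 1) := by
  obtain ⟨h1, h2⟩ := hP
  have h1' : P.IsHomogeneous l := h1
  have h2' : lap P = 0 := h2
  have h3 : lap (pderiv i P) = 0 := by rw [lap_pderiv, h2', map_zero]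
  refine ⟨?_, ?_⟩
  · show (upPol i l P).IsHomogeneous (l + 1)
    unfold upPol
    apply IsHomogeneous.sub
    · have := (isHomogeneous_X ℝ i).mul h1'
      rwa [add_comm] at this
    · rcases l with _ | l
      · rw [pderiv_hom_zero h1', mul_zero, smul_zero]
        exact isHomogeneous_zero _ _ _
      · have h4 := nsq_hom.mul (pderiv_hom h1' i)
        have h5 : 2 + l = l + 1 + 1 := by ring
        rw [h5] at h4
        exact Submodule.smul_mem (homogeneousSubmodule (Fin 5) ℝ (l + 1 + 1)) _ h4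
  · show lap (upPol i l P) = 0
    unfold upPol
    rw [map_sub, lap_X_mul, h2', LinearMap.map_smul]
    rcases l with _ | l
    · rw [pderiv_hom_zero h1']
      simp
    · rw [lap_nsq_mul (pderiv_hom h1' i), h3, mul_zero, mul_zero, add_zero, add_zero,
        smul_smul]
      have h6 : (2 * ((l + 1 : ℕ) : ℝ) + 3)⁻¹ * (10 + 4 * (l : ℝ)) = 2 := by
        push_cast
        have : (2 * ((l : ℝ) + 1) + 3) ≠ 0 := by positivity
        field_simp
        ring
      rw [h6, smul_eq_C_mul, map_ofNat, sub_self]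

lemma dn_mem (i : Fin 5) {l : ℕ} {P : Pol} (hP : P ∈ harm (l + 1)) :
    (2 * (l : ℝ) + 5)⁻¹ • pderiv i P ∈ harm l := by
  obtain ⟨h1, h2⟩ := hP
  have h1' : P.IsHomogeneous (l + 1) := h1
  have h2' : lap P = 0 := h2
  apply Submodule.smul_mem
  refine ⟨pderiv_hom h1' i, ?_⟩
  show lap (pderiv i P) = 0
  rw [lap_pderiv, h2', map_zero]

end
end OD16
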