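import Pool.Agent.LibOD16.HarmPrj

set_option autoImplicit false
namespace OD16
open MvPolynomial MeasureTheory Metric
noncomputable section

/-- The component in `V k` of the product of elements of `V l` and `V m`. -/
def mulV (l m k : ℕ) (Y : V l) (Z : V m) : V k := prj k (evC Y * evC Z)

/-- Norm constants of the product. -/
def Mc (l m k : ℕ) : ℝ :=
  if k ≤ l + m ∧ m ≤ k + l ∧ l ≤ k + m then
    wt k * (3 * ((min l m : ℕ) + 1 : ℝ) ^ 2) / (wt l * wt m) else 0

/-- TASK H11.  The product. -/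
lemma mulV_add_left (l m k : ℕ) (Y Y' : V l) (Z : V m) :
    mulV l m k (Y + Y') Z = mulV l m k Y Z + mulV l m k Y' Z := by
  unfold mulV
  rw [← prj_add]
  congr 1
  ext θ
  simp only [ContinuousMap.mul_apply, ContinuousMap.add_apply, evC, ContinuousMap.coe_mk, V.ev_add]
  ring

lemma mulV_smul_left (l m k : ℕ) (c : ℝ) (Y : V l) (Z : V m) :
    mulV l m k (c • Y) Z = c • mulV l m k Y Z := by
  unfold mulV
  rw [← prj_smul]
  congr 1
  ext θ
  simp only [ContinuousMap.mul_apply, ContinuousMap.smul_apply, evC, ContinuousMap.coe_mk,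
    V.ev_smul, smul_eq_mul]
  ring

lemma mulV_comm (l m k : ℕ) (Y : V l) (Z : V m) : mulV l m k Y Z = mulV m l k Z Y := by
  unfold mulV
  rw [mul_comm]

lemma prj_zero' (k : ℕ) : prj k 0 = 0 := by
  have := prj_smul k 0 0
  simpa using this

lemma prj_sum {ι : Type*} (k : ℕ) (s : Finset ι) (f : ι → C(S4, ℝ)) :
    prj k (∑ i ∈ s, f i) = ∑ i ∈ s, prj k (f i) := by
  classical
  induction s using Finset.induction_on with
  | empty => simp [prj_zero']
  | insert a s ha ih => rw [Finset.sum_insert ha, Finset.sum_insert ha, prj_add, ih]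

lemma exists_evC_mul (l m : ℕ) (Y : V l) (Z : V m) : ∃ c : (k : ℕ) → V k,
    evC Y * evC Z = ∑ k ∈ Finset.range (l + m + 1), evC (c k) := by
  have hdeg : (Y.pol * Z.pol).totalDegree ≤ l + m := by
    refine (totalDegree_mul _ _).trans ?_
    exact add_le_add Y.hom.totalDegree_le Z.hom.totalDegree_le
  obtain ⟨c, hc⟩ := decomp (l + m) (Y.pol * Z.pol) hdeg
  refine ⟨c, ?_⟩
  ext θ
  have := hc θ
  rw [pev_mul] at this
  simpa [evC, V.ev] using this

lemma prj_sum_evC (k n : ℕ) (c : (k : ℕ) → V k) :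
    prj k (∑ j ∈ Finset.range n, evC (c j)) = if k < n then c k else 0 := by
  rw [prj_sum]
  split_ifs with h
  · rw [Finset.sum_eq_single k]
    · exact prj_evC_self _
    · intro j _ hj
      exact prj_evC_ne (Ne.symm hj) _
    · intro hk
      exact absurd (Finset.mem_range.mpr h) hk
  · apply Finset.sum_eq_zero
    intro j hj
    have hj' := Finset.mem_range.mp hj
    exact prj_evC_ne (by omega) _

/-- `Y Z = ∑_{k ≤ l+m}` of the components. -/
lemma mul_ev (l m : ℕ) (Y : V l) (Z : V m) (θ : S4) :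
    Y.ev θ.1 * Z.ev θ.1 = ∑ k ∈ Finset.range (l + m + 1), (mulV l m k Y Z).ev θ.1 := by
  obtain ⟨c, hc⟩ := exists_evC_mul l m Y Z
  have h1 : ∀ k ∈ Finset.range (l + m + 1), mulV l m k Y Z = c k := by
    intro k hk
    unfold mulV
    rw [hc, prj_sum_evC, if_pos (Finset.mem_range.mp hk)]
  rw [Finset.sum_congr rfl (fun k hk => by rw [h1 k hk])]
  have h2 := congrArg (fun f : C(S4, ℝ) => f θ) hc
  simpa [evC] using h2

lemma mulV_eq_zero_of_gt (l m k : ℕ) (Y : V l) (Z : V m) (h : l + m < k) :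
    mulV l m k Y Z = 0 := by
  obtain ⟨c, hc⟩ := exists_evC_mul l m Y Z
  unfold mulV
  rw [hc, prj_sum_evC, if_neg (by omega)]

lemma ip_mulV (l m k : ℕ) (Y : V l) (Z : V m) (H : V k) :
    ip (mulV l m k Y Z).pol H.pol = ip (mulV l k m Y H).pol Z.pol := by
  unfold mulV
  rw [ip_prj, ip_prj]
  congr 1
  ext θ
  simp only [ContinuousMap.mul_apply, evC, ContinuousMap.coe_mk]
  ring

lemma mulV_eq_zero_of_gt' (l m k : ℕ) (Y : V l) (Z : V m) (h : k + l < m) :
    mulV l m k Y Z = 0 := by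
  have h1 := ip_mulV l m k Y Z (mulV l m k Y Z)
  rw [mulV_eq_zero_of_gt l k m Y _ (by omega)] at h1
  have h2 : ip (0 : V m).pol Z.pol = 0 := by
    simp [ip, pev_zero]
  rw [h2] at h1
  apply V.ext
  exact ip_self_eq_zero (mulV l m k Y Z).hom h1

lemma Mc_comm (l m k : ℕ) : Mc l m k = Mc m l k := by
  unfold Mc
  have h1 : (k ≤ l + m ∧ m ≤ k + l ∧ l ≤ k + m) ↔ (k ≤ m + l ∧ l ≤ k + m ∧ m ≤ k + l) := by
    omega
  rw [min_comm l m, mul_comm (wt l)]
  by_cases h : k ≤ l + m ∧ m ≤ k + l ∧ l ≤ k + m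
  · rw [if_pos h, if_pos (h1.mp h)]
  · rw [if_neg h, if_neg (fun h' => h (h1.mpr h'))]

lemma norm_mulV_le_aux (l m k : ℕ) (hlm : l ≤ m) (Y : V l) (Z : V m) :
    ‖mulV l m k Y Z‖ ≤ Mc l m k * ‖Y‖ * ‖Z‖ := by
  unfold Mc
  split_ifs with h
  · have hl := wt_pos l
    have hm := wt_pos m
    have hk := wt_pos k
    rw [Y.norm_eq, Z.norm_eq, min_eq_left hlm]
    have h1 : wt k * (3 * ((l : ℝ) + 1) ^ 2) / (wt l * wt m) * (wt l * nL Y.pol) *
        (wt m * nL Z.pol) = wt k * (3 * ((l : ℝ) + 1) ^ 2 * nL Y.pol * nL Z.pol) := by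
      field_simp
    rw [h1]
    unfold mulV
    refine (norm_prj_le k _).trans ?_
    apply mul_le_mul_of_nonneg_left _ hk.le
    have hY : 0 ≤ nL Y.pol := Real.sqrt_nonneg _
    have hZ : 0 ≤ nL Z.pol := Real.sqrt_nonneg _
    have h2 : ∫ θ : S4, (evC Y * evC Z) θ ^ 2 ∂μS ≤
        (3 * ((l : ℝ) + 1) ^ 2 * nL Y.pol) ^ 2 * ip Z.pol Z.pol := by
      unfold ip
      rw [← integral_const_mul]
      apply integral_mono
      · have hc : Continuous (fun θ : S4 => (evC Y * evC Z) θ ^ 2) := by fun_prop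
        exact hc.integrable_of_hasCompactSupport (HasCompactSupport.of_compactSpace _)
      · exact (integrable_pev_mul _ _).const_mul _
      · intro θ
        have h3 := sup_bound Y.mem θ
        have h4 : (pev Y.pol θ.1) ^ 2 ≤ (3 * ((l : ℝ) + 1) ^ 2 * nL Y.pol) ^ 2 := by
          rw [← sq_abs (pev Y.pol θ.1)]
          exact pow_le_pow_left₀ (abs_nonneg _) h3 2
        have h5 : (evC Y * evC Z) θ ^ 2 = (pev Y.pol θ.1) ^ 2 * (pev Z.pol θ.1 * pev Z.pol θ.1) := by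
          simp only [ContinuousMap.mul_apply, evC, ContinuousMap.coe_mk, V.ev]
          ring
        show (evC Y * evC Z) θ ^ 2 ≤ _
        rw [h5]
        exact mul_le_mul_of_nonneg_right h4 (mul_self_nonneg _)
    calc Real.sqrt (∫ θ : S4, (evC Y * evC Z) θ ^ 2 ∂μS)
        ≤ Real.sqrt ((3 * ((l : ℝ) + 1) ^ 2 * nL Y.pol) ^ 2 * ip Z.pol Z.pol) :=
          Real.sqrt_le_sqrt h2
      _ = 3 * ((l : ℝ) + 1) ^ 2 * nL Y.pol * nL Z.pol := by
          rw [Real.sqrt_mul (sq_nonneg _), Real.sqrt_sq (by positivity)]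
          rfl
  · have h0 : mulV l m k Y Z = 0 := by
      by_cases h1 : l + m < k
      · exact mulV_eq_zero_of_gt l m k Y Z h1
      · by_cases h2 : k + l < m
        · exact mulV_eq_zero_of_gt' l m k Y Z h2
        · rw [mulV_comm]
          apply mulV_eq_zero_of_gt'
          omega
    rw [h0]
    simp

/-- The components vanish outside `|l - m| ≤ k ≤ l + m` and are bounded by
`‖mulV‖ ≤ wt k · sup |Y| · ‖Z‖_{L²}` (with the roles exchanged if `m < l`). -/
lemma norm_mulV_le (l m k : ℕ) (Y : V l) (Z : V m) :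
    ‖mulV l m k Y Z‖ ≤ Mc l m k * ‖Y‖ * ‖Z‖ := by
  rcases le_total l m with h | h
  · exact norm_mulV_le_aux l m k h Y Z
  · rw [mulV_comm, Mc_comm, mul_assoc, mul_comm ‖Y‖, ← mul_assoc]
    exact norm_mulV_le_aux m l k h Z Y

lemma Mc_nonneg (l m k : ℕ) : 0 ≤ Mc l m k := by
  unfold Mc
  have hl := wt_pos l
  have hm := wt_pos m
  have hk := wt_pos k
  split_ifs
  · positivity
  · exact le_rfl

lemma wt_mono {k n : ℕ} (h : k ≤ n) : wt k ≤ wt n := by
  unfold wt
  have h1 : (k : ℝ) ≤ n := by exact_mod_cast h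
  have h2 : (2 : ℝ) ^ k ≤ 2 ^ n := pow_le_pow_right₀ (by norm_num) h
  have h3 : ((k : ℝ) + 1) ^ 3 ≤ ((n : ℝ) + 1) ^ 3 := by gcongr
  gcongr

lemma sum_Mc_le_aux (l m : ℕ) (hlm : l ≤ m) :
    ∑ k ∈ Finset.range (l + m + 1), Mc l m k ≤ 1 := by
  have hterm : ∀ k ∈ Finset.Icc (m - l) (l + m), Mc l m k ≤ 1 / (2 * ((l : ℝ) + 1)) := by
    intro k hk
    rw [Finset.mem_Icc] at hk
    unfold Mc
    rw [if_pos (by omega), min_eq_left hlm]
    have h1 : wt k ≤ wt (l + m) := wt_mono hk.2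
    have hl := wt_pos l
    have hm := wt_pos m
    have hlm' : (l : ℝ) ≤ m := by exact_mod_cast hlm
    have h0 : (0 : ℝ) ≤ l := Nat.cast_nonneg l
    rw [div_le_div_iff₀ (by positivity) (by positivity)]
    have h2 : ((l : ℝ) + m + 1) ^ 3 ≤ 8 * ((m : ℝ) + 1) ^ 3 := by
      have : (l : ℝ) + m + 1 ≤ 2 * ((m : ℝ) + 1) := by linarith
      calc ((l : ℝ) + m + 1) ^ 3 ≤ (2 * ((m : ℝ) + 1)) ^ 3 := by gcongr
        _ = 8 * ((m : ℝ) + 1) ^ 3 := by ring
    calc wt k * (3 * ((l : ℝ) + 1) ^ 2) * (2 * ((l : ℝ) + 1))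
        ≤ wt (l + m) * (3 * ((l : ℝ) + 1) ^ 2) * (2 * ((l : ℝ) + 1)) := by gcongr
      _ = (48 * 6 * 2 ^ l * 2 ^ m * ((l : ℝ) + 1) ^ 3) * ((l : ℝ) + m + 1) ^ 3 := by
          unfold wt
          push_cast
          ring
      _ ≤ (48 * 6 * 2 ^ l * 2 ^ m * ((l : ℝ) + 1) ^ 3) * (8 * ((m : ℝ) + 1) ^ 3) := by
          gcongr
      _ = 1 * (wt l * wt m) := by
          unfold wt
          ring
  have hsub : Finset.Icc (m - l) (l + m) ⊆ Finset.range (l + m + 1) := by
    intro k hk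
    rw [Finset.mem_Icc] at hk
    rw [Finset.mem_range]
    omega
  rw [← Finset.sum_subset hsub]
  · refine (Finset.sum_le_sum hterm).trans ?_
    rw [Finset.sum_const, Nat.card_Icc, nsmul_eq_mul]
    have h1 : l + m + 1 - (m - l) = 2 * l + 1 := by omega
    rw [h1]
    have h0 : (0 : ℝ) ≤ l := Nat.cast_nonneg l
    rw [mul_one_div, div_le_one (by positivity)]
    push_cast
    linarith
  · intro k hk hk'
    rw [Finset.mem_range] at hk
    rw [Finset.mem_Icc] at hk'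
    unfold Mc
    rw [if_neg]
    omega

/-- At most `2 min(l,m) + 1` values of `k`; `wt k ≤ wt (l+m)`, `(1+l+m) ≤ 2 (1 + max l m)`. -/
lemma sum_Mc_le (l m : ℕ) : ∑ k ∈ Finset.range (l + m + 1), Mc l m k ≤ 1 := by
  rcases le_total l m with h | h
  · exact sum_Mc_le_aux l m h
  · have h1 : ∑ k ∈ Finset.range (l + m + 1), Mc l m k =
        ∑ k ∈ Finset.range (m + l + 1), Mc m l k := by
      rw [add_comm l m]
      exact Finset.sum_congr rfl (fun k _ => Mc_comm l m k)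
    rw [h1]
    exact sum_Mc_le_aux m l h

end
end OD16
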