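import Pool.Agent.LibOD16.HarmSkew
import Pool.Agent.LibOD16.HarmLap

set_option autoImplicit false
namespace OD16
open MvPolynomial MeasureTheory Metric
noncomputable section

/-- Rotation operator on polynomials. -/
def Lij (i j : Fin 5) (P : Pol) : Pol := X i * pderiv j P - X j * pderiv i P

lemma Lij_sq (i j : Fin 5) (P : Pol) : Lij i j (Lij i j P) =
    X i ^ 2 * pderiv j (pderiv j P) + X j ^ 2 * pderiv i (pderiv i P)
      - X i * X j * pderiv i (pderiv j P) - X i * X j * pderiv j (pderiv i P)
      - (X i * pderiv i P + X j * pderiv j P)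
      + (if i = j then (X i * pderiv i P + X j * pderiv j P) else 0) := by
  unfold Lij
  by_cases hij : i = j
  · subst hij
    simp
    ring
  · simp only [map_sub, Derivation.leibniz, smul_eq_mul, pderiv_X_self, if_neg hij,
      pderiv_X_of_ne hij, pderiv_X_of_ne (Ne.symm hij)]
    ring

lemma euler_one {d : ℕ} {P : Pol} (hP : P.IsHomogeneous d) :
    ∑ i, X i * pderiv i P = (d : ℝ) • P := by
  rw [hP.sum_X_mul_pderiv]
  exact (Nat.cast_smul_eq_nsmul ℝ d P).symm

lemma euler_two {d : ℕ} {P : Pol} (hP : P.IsHomogeneous d) :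
    ∑ i, ∑ j, X i * X j * pderiv i (pderiv j P) = ((d : ℝ) * d - d) • P := by
  have h1 := euler_one hP
  have h2 : ∑ i, X i * pderiv i (∑ j, X j * pderiv j P) = ((d : ℝ) * d) • P := by
    rw [h1]
    simp only [Derivation.map_smul, mul_smul_comm]
    rw [← Finset.smul_sum, h1, smul_smul]
  have h3 : ∀ i : Fin 5, X i * pderiv i (∑ j, X j * pderiv j P) =
      X i * pderiv i P + ∑ j, X i * X j * pderiv i (pderiv j P) := by
    intro i
    rw [map_sum]
    have : ∀ j : Fin 5, pderiv i (X j * pderiv j P) =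
        (if j = i then pderiv j P else 0) + X j * pderiv i (pderiv j P) := by
      intro j
      rw [Derivation.leibniz, smul_eq_mul, smul_eq_mul]
      by_cases hji : j = i
      · subst hji
        simp only [pderiv_X_self, if_true]
        ring
      · rw [pderiv_X_of_ne (Ne.symm (Ne.symm hji)), if_neg hji]
        ring
    rw [Finset.sum_congr rfl fun j _ => this j, Finset.sum_add_distrib]
    simp only [Finset.sum_ite_eq', Finset.mem_univ, if_true]
    rw [mul_add, Finset.mul_sum]
    congr 1
    apply Finset.sum_congr rfl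
    intro j _
    ring
  rw [Finset.sum_congr rfl fun i _ => h3 i, Finset.sum_add_distrib, h1] at h2
  rw [sub_smul, ← h2]
  abel

/-- TASK H06.  The Casimir operator:
`∑_{i,j} L_ij² P = 2 (|x|² Δ P - d (d + 3) P)` for `P` homogeneous of degree `d`. -/
lemma casimir {d : ℕ} {P : Pol} (hP : P.IsHomogeneous d) :
    ∑ i, ∑ j, Lij i j (Lij i j P) = (2 : ℝ) • (nsq * lap P) - (2 * ((d : ℝ) * (d + 3))) • P := by
  have e1 : ∑ i : Fin 5, ∑ j : Fin 5, (X i : Pol) ^ 2 * pderiv j (pderiv j P) = nsq * lap P := by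
    unfold nsq lap
    rw [LinearMap.sum_apply, Finset.sum_mul_sum]
    rfl
  have e2 : ∑ i : Fin 5, ∑ j : Fin 5, (X j : Pol) ^ 2 * pderiv i (pderiv i P) = nsq * lap P := by
    rw [Finset.sum_comm, e1]
  have e3 := euler_two hP
  have e4 : ∑ i, ∑ j, X i * X j * pderiv j (pderiv i P) = ((d : ℝ) * d - d) • P := by
    rw [Finset.sum_comm, ← e3]
    apply Finset.sum_congr rfl
    intro i _
    apply Finset.sum_congr rfl
    intro j _
    ring
  have e5 : ∑ i : Fin 5, ∑ _j : Fin 5, X i * pderiv i P = (5 * (d : ℝ)) • P := by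
    simp only [Finset.sum_const, Finset.card_univ, Fintype.card_fin]
    rw [← Finset.smul_sum, euler_one hP, ← Nat.cast_smul_eq_nsmul ℝ, smul_smul]
    norm_num
  have e6 : ∑ _i : Fin 5, ∑ j : Fin 5, X j * pderiv j P = (5 * (d : ℝ)) • P := by
    rw [Finset.sum_comm, e5]
  have e7 : ∑ i : Fin 5, ∑ j : Fin 5, (if i = j then (X i * pderiv i P + X j * pderiv j P) else 0) =
      (2 * (d : ℝ)) • P := by
    simp only [Finset.sum_ite_eq, Finset.mem_univ, if_true]
    rw [Finset.sum_add_distrib, euler_one hP, ← add_smul]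
    congr 1
    ring
  simp only [Lij_sq, Finset.sum_add_distrib, Finset.sum_sub_distrib]
  rw [e1, e2, e3, e4, e5, e6, e7]
  module

lemma hasFDerivAt_pev_aux (P : Pol) (x : E5) :
    HasFDerivAt (pev P) (∑ i : Fin 5, pev (pderiv i P) x • (EuclideanSpace.proj i : E5 →L[ℝ] ℝ)) x := by
  induction P using MvPolynomial.induction_on with
  | C a =>
    have : pev (C a : Pol) = fun _ => a := by
      funext y
      simp [pev]
    rw [this]
    simp only [pderiv_C, pev_zero, zero_smul, Finset.sum_const_zero]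
    exact hasFDerivAt_const a x
  | add p q hp hq =>
    have : pev (p + q) = pev p + pev q := by
      funext y
      simp [pev_add]
    rw [this]
    refine (hp.add hq).congr_fderiv ?_
    rw [← Finset.sum_add_distrib]
    apply Finset.sum_congr rfl
    intro i _
    rw [map_add, pev_add, add_smul]
  | mul_X p n hp =>
    have h1 : pev (p * X n) = fun y => pev p y * y n := by
      funext y
      simp [pev]
    rw [h1]
    have h2 : HasFDerivAt (fun y : E5 => y n) (EuclideanSpace.proj n : E5 →L[ℝ] ℝ) x :=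
      (EuclideanSpace.proj n : E5 →L[ℝ] ℝ).hasFDerivAt
    refine (hp.mul h2).congr_fderiv ?_
    ext v
    have hpr : ∀ i : Fin 5, (EuclideanSpace.proj i : E5 →L[ℝ] ℝ) v = v i := fun _ => rfl
    simp only [ContinuousLinearMap.add_apply, ContinuousLinearMap.smul_apply,
      ContinuousLinearMap.sum_apply, smul_eq_mul, hpr, Derivation.leibniz,
      pev_add, pev_mul]
    have h3 : ∀ i : Fin 5, (pev p x * pev (pderiv i (X n : Pol)) x +
        pev (X n : Pol) x * pev (pderiv i p) x) * v i =
        (if i = n then pev p x * v n else 0) + x n * (pev (pderiv i p) x * v i) := by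
      intro i
      have e1 : pev (X n : Pol) x = x n := by simp [pev]
      rw [e1]
      by_cases hin : i = n
      · subst hin
        simp only [pderiv_X_self, if_true]
        have : pev (1 : Pol) x = 1 := by simp [pev]
        rw [this]
        ring
      · rw [pderiv_X_of_ne (Ne.symm hin), if_neg hin, pev_zero]
        ring
    rw [Finset.sum_congr rfl fun i _ => h3 i, Finset.sum_add_distrib, Finset.mul_sum]
    simp

lemma fderiv_pev_single (P : Pol) (x : E5) (i : Fin 5) :
    fderiv ℝ (pev P) x (EuclideanSpace.single i 1) = pev (pderiv i P) x := by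
  rw [(hasFDerivAt_pev_aux P x).fderiv]
  simp [ContinuousLinearMap.sum_apply, Pi.single_apply]

lemma contDiff_pev (P : Pol) : ContDiff ℝ 1 (pev P) := by
  rw [contDiff_one_iff_fderiv]
  refine ⟨fun x => (hasFDerivAt_pev_aux P x).differentiableAt, ?_⟩
  have : fderiv ℝ (pev P) = fun x => (∑ i : Fin 5, pev (pderiv i P) x • (EuclideanSpace.proj i : E5 →L[ℝ] ℝ)) := by
    funext x
    exact (hasFDerivAt_pev_aux P x).fderiv
  rw [this]
  fun_prop

lemma ip_Lij (i j : Fin 5) (P Q : Pol) : ip (Lij i j P) Q = -ip P (Lij i j Q) := by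
  have h := integral_rot_deriv (pev (P * Q)) (contDiff_pev _) i j
  have h1 : ∀ θ : S4, (θ.1 i * fderiv ℝ (pev (P * Q)) θ.1 (EuclideanSpace.single j 1) -
      θ.1 j * fderiv ℝ (pev (P * Q)) θ.1 (EuclideanSpace.single i 1)) =
      pev (Lij i j P) θ * pev Q θ + pev P θ * pev (Lij i j Q) θ := by
    intro θ
    rw [fderiv_pev_single, fderiv_pev_single]
    unfold Lij
    simp only [pev, Derivation.leibniz, smul_eq_mul, map_add, map_sub, map_mul, eval_X]
    ring
  rw [integral_congr_ae (Filter.Eventually.of_forall h1)] at h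
  rw [integral_add (integrable_pev_mul _ _) (integrable_pev_mul _ _)] at h
  unfold ip
  linarith

lemma ip_sub_left (P Q R : Pol) : ip (P - Q) R = ip P R - ip Q R := by
  have : P - Q = P + (-1 : ℝ) • Q := by
    rw [neg_smul, one_smul, sub_eq_add_neg]
  rw [this, ip_add_left, ip_smul_left]
  ring

lemma ip_sum_left {ι : Type*} (s : Finset ι) (f : ι → Pol) (R : Pol) :
    ip (∑ i ∈ s, f i) R = ∑ i ∈ s, ip (f i) R := by
  classical
  induction s using Finset.induction_on with
  | empty =>
    simp [ip, pev_zero]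
  | insert a s ha ih =>
    rw [Finset.sum_insert ha, Finset.sum_insert ha, ip_add_left, ih]

lemma casimir_harm {l : ℕ} {P : Pol} (hP : P ∈ harm l) :
    ∑ i, ∑ j, Lij i j (Lij i j P) = (-(2 * ((l : ℝ) * (l + 3)))) • P := by
  have h1 : P.IsHomogeneous l := hP.1
  have h2 : lap P = 0 := hP.2
  rw [casimir h1, h2, mul_zero, smul_zero, zero_sub, neg_smul]

/-- Orthogonality of harmonic polynomials of different degrees. -/
lemma ip_eq_zero {l m : ℕ} (hlm : l ≠ m) {P Q : Pol} (hP : P ∈ harm l) (hQ : Q ∈ harm m) :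
    ip P Q = 0 := by
  have h1 : ip (∑ i, ∑ j, Lij i j (Lij i j P)) Q = ip (∑ i, ∑ j, Lij i j (Lij i j Q)) P := by
    simp only [ip_sum_left]
    apply Finset.sum_congr rfl
    intro i _
    apply Finset.sum_congr rfl
    intro j _
    rw [ip_Lij, ip_Lij i j (Lij i j Q), ip_comm (Lij i j P)]
  rw [casimir_harm hP, casimir_harm hQ, ip_smul_left, ip_smul_left, ip_comm Q P] at h1
  have h2 : ((l : ℝ) * (l + 3) - m * (m + 3)) * ip P Q = 0 := by linarith
  rcases mul_eq_zero.mp h2 with h | h
  · exfalso
    have h3 : ((l : ℝ) - m) * (l + m + 3) = 0 := by linarith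
    rcases mul_eq_zero.mp h3 with h4 | h4
    · exact hlm (by exact_mod_cast (sub_eq_zero.mp h4))
    · have : (0:ℝ) ≤ l := Nat.cast_nonneg l
      have : (0:ℝ) ≤ m := Nat.cast_nonneg m
      linarith
  · exact h

end
end OD16
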