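import Pool.Agent.LibOD16.HarmNorm
import Pool.Agent.LibOD16.HarmDec

set_option autoImplicit false
namespace OD16
open MvPolynomial MeasureTheory Metric
noncomputable section

private lemma Prj_int (f : S4 → ℝ) (hf : Continuous f) : Integrable f μS :=
  hf.integrable_of_hasCompactSupport (HasCompactSupport.of_compactSpace _)

private lemma Prj_cont {k : ℕ} (H : V k) : Continuous fun θ : S4 => H.ev θ.1 := by
  have := continuous_pev H.pol
  exact this.comp continuous_subtype_val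

private lemma Prj_int2 {k : ℕ} (f : C(S4, ℝ)) (H : V k) :
    Integrable (fun θ : S4 => f θ * H.ev θ.1) μS :=
  Prj_int _ (f.continuous.mul (Prj_cont H))

/-- The functional `H ↦ wt k ² ∫ f H` on `V k`. -/
def prjFun (k : ℕ) (f : C(S4, ℝ)) : V k →ₗ[ℝ] ℝ where
  toFun H := wt k ^ 2 * ∫ θ : S4, f θ * H.ev θ.1 ∂μS
  map_add' := by
    intro H H'
    rw [← mul_add, ← integral_add (Prj_int2 f H) (Prj_int2 f H')]
    congr 1
    refine integral_congr_ae (Filter.Eventually.of_forall fun θ => ?_)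
    beta_reduce
    rw [V.ev_add]
    ring
  map_smul' := by
    intro c H
    have h1 : (fun θ : S4 => f θ * (c • H).ev θ.1) = fun θ : S4 => c * (f θ * H.ev θ.1) := by
      funext θ
      rw [V.ev_smul]
      ring
    rw [RingHom.id_apply, smul_eq_mul, h1, integral_const_mul]
    ring

/-- Orthogonal projection of a continuous function on the sphere to `V k`. -/
def prj (k : ℕ) (f : C(S4, ℝ)) : V k :=
  (InnerProductSpace.toDual ℝ (V k)).symm (LinearMap.toContinuousLinearMap (prjFun k f))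

private lemma Prj_inner (k : ℕ) (f : C(S4, ℝ)) (H : V k) :
    inner ℝ (prj k f) H = wt k ^ 2 * ∫ θ : S4, f θ * H.ev θ.1 ∂μS := by
  unfold prj
  rw [InnerProductSpace.toDual_symm_apply]
  rfl

/-- TASK H10.  Properties of the projections. -/
lemma ip_prj (k : ℕ) (f : C(S4, ℝ)) (H : V k) :
    ip (prj k f).pol H.pol = ∫ θ : S4, f θ * H.ev θ.1 ∂μS := by
  have h1 := Prj_inner k f H
  rw [V.inner_def] at h1
  have h2 : wt k ^ 2 ≠ 0 := (pow_pos (wt_pos k) 2).ne'
  exact mul_left_cancel₀ h2 h1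

lemma prj_add (k : ℕ) (f g : C(S4, ℝ)) : prj k (f + g) = prj k f + prj k g := by
  refine ext_inner_right ℝ fun H => ?_
  rw [inner_add_left, Prj_inner, Prj_inner, Prj_inner, ← mul_add,
    ← integral_add (Prj_int2 f H) (Prj_int2 g H)]
  congr 1
  refine integral_congr_ae (Filter.Eventually.of_forall fun θ => ?_)
  beta_reduce
  rw [ContinuousMap.add_apply, add_mul]

lemma prj_smul (k : ℕ) (c : ℝ) (f : C(S4, ℝ)) : prj k (c • f) = c • prj k f := by
  refine ext_inner_right ℝ fun H => ?_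
  have h1 : (fun θ : S4 => (c • f) θ * H.ev θ.1) = fun θ : S4 => c * (f θ * H.ev θ.1) := by
    funext θ
    rw [ContinuousMap.smul_apply, smul_eq_mul, mul_assoc]
  rw [real_inner_smul_left, Prj_inner, Prj_inner, h1, integral_const_mul]
  ring

/-- The restriction of an element of `V l` to the sphere. -/
def evC {l : ℕ} (P : V l) : C(S4, ℝ) := ⟨fun θ => P.ev θ.1, by
  have := continuous_pev P.pol
  exact this.comp continuous_subtype_val⟩

private lemma Prj_evC {l k : ℕ} (P : V l) (H : V k) :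
    ∫ θ : S4, evC P θ * H.ev θ.1 ∂μS = ip P.pol H.pol := rfl

lemma prj_evC_self {l : ℕ} (P : V l) : prj l (evC P) = P := by
  refine ext_inner_right ℝ fun H => ?_
  rw [Prj_inner, Prj_evC, V.inner_def]

lemma prj_evC_ne {l k : ℕ} (h : k ≠ l) (P : V l) : prj k (evC P) = 0 := by
  refine ext_inner_right ℝ fun H => ?_
  rw [Prj_inner, Prj_evC, ip_eq_zero h.symm P.mem H.mem, mul_zero, inner_zero_left]

private lemma Prj_bessel (k : ℕ) (f : C(S4, ℝ)) :
    ip (prj k f).pol (prj k f).pol ≤ ∫ θ : S4, f θ ^ 2 ∂μS := by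
  have h1 : 0 ≤ ∫ θ : S4, (f θ - (prj k f).ev θ.1) ^ 2 ∂μS :=
    integral_nonneg fun θ => sq_nonneg _
  have i1 : Integrable (fun θ : S4 => f θ ^ 2) μS := Prj_int _ (f.continuous.pow 2)
  have i2 := Prj_int2 f (prj k f)
  have i3 := integrable_pev_mul (prj k f).pol (prj k f).pol
  have h2 : ∫ θ : S4, (f θ - (prj k f).ev θ.1) ^ 2 ∂μS =
      ∫ θ : S4, f θ ^ 2 ∂μS - 2 * (∫ θ : S4, f θ * (prj k f).ev θ.1 ∂μS) +
        ip (prj k f).pol (prj k f).pol := by
    have i4 : Integrable (fun θ : S4 => f θ ^ 2 - 2 * (f θ * (prj k f).ev θ.1)) μS :=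
      i1.sub (i2.const_mul 2)
    unfold ip
    rw [← integral_const_mul, ← integral_sub i1 (i2.const_mul 2), ← integral_add i4 i3]
    refine integral_congr_ae (Filter.Eventually.of_forall fun θ => ?_)
    beta_reduce
    unfold V.ev
    ring
  rw [h2, ← ip_prj] at h1
  linarith

lemma nL_prj_le (k : ℕ) (f : C(S4, ℝ)) :
    nL (prj k f).pol ≤ Real.sqrt (∫ θ : S4, f θ ^ 2 ∂μS) := by
  unfold nL
  exact Real.sqrt_le_sqrt (Prj_bessel k f)

lemma norm_prj_le (k : ℕ) (f : C(S4, ℝ)) :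
    ‖prj k f‖ ≤ wt k * Real.sqrt (∫ θ : S4, f θ ^ 2 ∂μS) := by
  rw [V.norm_eq]
  exact mul_le_mul_of_nonneg_left (nL_prj_le k f) (wt_pos k).le

/-- `prj k` is continuous. -/
lemma continuous_prj (k : ℕ) : Continuous (prj k) := by
  refine continuous_of_linear_of_bound (𝕜 := ℝ) (C := wt k * Real.sqrt (μS.real Set.univ))
    (prj_add k) (prj_smul k) fun f => ?_
  refine (norm_prj_le k f).trans ?_
  rw [mul_assoc]
  refine mul_le_mul_of_nonneg_left ?_ (wt_pos k).le
  have h1 : ∫ θ : S4, f θ ^ 2 ∂μS ≤ μS.real Set.univ * ‖f‖ ^ 2 := by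
    have h2 : ∫ θ : S4, f θ ^ 2 ∂μS ≤ ∫ _ : S4, ‖f‖ ^ 2 ∂μS := by
      refine integral_mono (Prj_int _ (f.continuous.pow 2)) (integrable_const _) fun θ => ?_
      have h3 := f.norm_coe_le_norm θ
      rw [Real.norm_eq_abs] at h3
      beta_reduce
      rw [← sq_abs]
      exact pow_le_pow_left₀ (abs_nonneg _) h3 2
    rwa [integral_const, smul_eq_mul] at h2
  refine (Real.sqrt_le_sqrt h1).trans (le_of_eq ?_)
  rw [Real.sqrt_mul measureReal_nonneg, Real.sqrt_sq (norm_nonneg _)]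

end
end OD16
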