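import Pool.Agent.LibOD16.HarmRot

set_option autoImplicit false
namespace OD16
open MvPolynomial MeasureTheory Metric
noncomputable section

/-- The rotation in the `(i, j)`-plane. -/
def rotFun (i j : Fin 5) (s : ℝ) (x : E5) : E5 :=
  x + (((Real.cos s - 1) * x i - Real.sin s * x j) • EuclideanSpace.single i (1 : ℝ) +
    (Real.sin s * x i + (Real.cos s - 1) * x j) • EuclideanSpace.single j (1 : ℝ))

/-- The velocity of the rotation. -/
def rotVel (i j : Fin 5) (s : ℝ) (x : E5) : E5 :=
  ((-Real.sin s * x i - Real.cos s * x j) • EuclideanSpace.single i (1 : ℝ) +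
    (Real.cos s * x i - Real.sin s * x j) • EuclideanSpace.single j (1 : ℝ))

lemma norm_rotFun (i j : Fin 5) (hij : i ≠ j) (s : ℝ) (x : E5) : ‖rotFun i j s x‖ = ‖x‖ := by
  have h : ‖rotFun i j s x‖ ^ 2 = ‖x‖ ^ 2 := by
    unfold rotFun
    set a := (Real.cos s - 1) * x i - Real.sin s * x j with ha
    set b := Real.sin s * x i + (Real.cos s - 1) * x j with hb
    rw [norm_add_sq_real, norm_add_sq_real, inner_add_right, inner_smul_right, inner_smul_right,
      inner_smul_left, inner_smul_right]
    simp only [EuclideanSpace.inner_single_right, EuclideanSpace.inner_single_left,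
      norm_smul, EuclideanSpace.norm_single, Real.norm_eq_abs, conj_trivial]
    have h1 : (EuclideanSpace.single i (1:ℝ) : E5) j = 0 := by
      simp [Ne.symm hij]
    rw [h1]
    simp only [mul_one, sq_abs, abs_one, mul_zero, add_zero, one_mul]
    have h2 := Real.sin_sq_add_cos_sq s
    rw [ha, hb]
    have h3 : Real.sin s ^ 2 = 1 - Real.cos s ^ 2 := by linarith
    ring_nf
    rw [h3]
    ring
  have h0 := norm_nonneg (rotFun i j s x)
  have h1 := norm_nonneg x
  nlinarith [sq_nonneg (‖rotFun i j s x‖ - ‖x‖), sq_nonneg (‖rotFun i j s x‖ + ‖x‖)]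

/-- The rotation as a linear isometry equivalence. -/
def rotE (i j : Fin 5) (hij : i ≠ j) (s : ℝ) : E5 ≃ₗᵢ[ℝ] E5 :=
  LinearIsometry.toLinearIsometryEquiv
    { toFun := rotFun i j s
      map_add' := by
        intro x y
        unfold rotFun
        simp only [PiLp.add_apply]
        module
      map_smul' := by
        intro c x
        unfold rotFun
        simp only [PiLp.smul_apply, smul_eq_mul, RingHom.id_apply]
        module
      norm_map' := norm_rotFun i j hij s } rfl

lemma rotE_apply (i j : Fin 5) (hij : i ≠ j) (s : ℝ) (x : E5) : rotE i j hij s x = rotFun i j s x :=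
  rfl

lemma hasDerivAt_rotFun (i j : Fin 5) (s : ℝ) (x : E5) :
    HasDerivAt (fun s => rotFun i j s x) (rotVel i j s x) s := by
  unfold rotFun rotVel
  have h1 : HasDerivAt (fun s => (Real.cos s - 1) * x i - Real.sin s * x j)
      (-Real.sin s * x i - Real.cos s * x j) s :=
    (((Real.hasDerivAt_cos s).sub_const 1).mul_const (x i)).sub
      ((Real.hasDerivAt_sin s).mul_const (x j))
  have h2 : HasDerivAt (fun s => Real.sin s * x i + (Real.cos s - 1) * x j)
      (Real.cos s * x i - Real.sin s * x j) s := by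
    have := ((Real.hasDerivAt_sin s).mul_const (x i)).add
      (((Real.hasDerivAt_cos s).sub_const 1).mul_const (x j))
    refine this.congr_deriv ?_
    ring
  have h3 := (h1.smul_const (EuclideanSpace.single i (1 : ℝ) : E5)).add
    (h2.smul_const (EuclideanSpace.single j (1 : ℝ) : E5))
  exact h3.const_add x

lemma norm_rotVel_le (i j : Fin 5) (s : ℝ) (x : E5) (hx : ‖x‖ = 1) : ‖rotVel i j s x‖ ≤ 4 := by
  unfold rotVel
  have hs := Real.abs_sin_le_one s
  have hc := Real.abs_cos_le_one s
  have hi : |x i| ≤ 1 := by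
    have := PiLp.norm_apply_le x i
    rw [hx, Real.norm_eq_abs] at this
    exact this
  have hj : |x j| ≤ 1 := by
    have := PiLp.norm_apply_le x j
    rw [hx, Real.norm_eq_abs] at this
    exact this
  have e1 : |(-Real.sin s * x i - Real.cos s * x j)| ≤ 2 := by
    refine (abs_sub _ _).trans ?_
    rw [abs_mul, abs_mul, abs_neg]
    nlinarith [abs_nonneg (Real.sin s), abs_nonneg (Real.cos s), abs_nonneg (x i), abs_nonneg (x j)]
  have e2 : |(Real.cos s * x i - Real.sin s * x j)| ≤ 2 := by
    refine (abs_sub _ _).trans ?_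
    rw [abs_mul, abs_mul]
    nlinarith [abs_nonneg (Real.sin s), abs_nonneg (Real.cos s), abs_nonneg (x i), abs_nonneg (x j)]
  refine (norm_add_le _ _).trans ?_
  rw [norm_smul, norm_smul]
  simp only [EuclideanSpace.norm_single, Real.norm_eq_abs, abs_one, mul_one]
  linarith

/-- TASK H04.  The rotation derivatives have integral zero:
differentiate `∫ G (R_s θ) = ∫ G`, `R_s` the rotation in the `(i, j)`-plane. -/
lemma integral_rot_deriv (G : E5 → ℝ) (hG : ContDiff ℝ 1 G) (i j : Fin 5) :
    ∫ θ : S4, (θ.1 i * fderiv ℝ G θ.1 (EuclideanSpace.single j 1) -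
      θ.1 j * fderiv ℝ G θ.1 (EuclideanSpace.single i 1)) ∂μS = 0 := by
  by_cases hij : i = j
  · subst hij
    simp
  have hGc : Continuous G := hG.continuous
  have hdc : Continuous (fderiv ℝ G) := hG.continuous_fderiv one_ne_zero
  have hGd : Differentiable ℝ G := hG.differentiable (by norm_num)
  obtain ⟨C, hC⟩ : ∃ C, ∀ θ : S4, ‖fderiv ℝ G θ.1‖ ≤ C := by
    have hb := (isCompact_univ (X := S4)).exists_bound_of_continuousOn
      (f := fun θ : S4 => fderiv ℝ G θ.1) (by fun_prop)
    obtain ⟨C, hC⟩ := hb
    exact ⟨C, fun θ => hC θ (Set.mem_univ _)⟩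
  have hC0 : 0 ≤ C := (norm_nonneg _).trans (hC ⟨EuclideanSpace.single 0 (1:ℝ), by simp⟩)
  have hvel : ∀ s, Continuous (fun θ : S4 => rotVel i j s θ.1) := by
    intro s
    unfold rotVel
    fun_prop
  have hfun : ∀ s, Continuous (fun θ : S4 => rotFun i j s θ.1) := by
    intro s
    unfold rotFun
    fun_prop
  have key := hasDerivAt_integral_of_dominated_loc_of_deriv_le (μ := μS) (𝕜 := ℝ)
    (F := fun s (θ : S4) => G (rotFun i j s θ.1))
    (F' := fun s (θ : S4) => fderiv ℝ G (rotFun i j s θ.1) (rotVel i j s θ.1))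
    (x₀ := 0) (s := Set.univ) (bound := fun _ => C * 4) Filter.univ_mem
    (Filter.Eventually.of_forall fun s => (hGc.comp (hfun s)).aestronglyMeasurable)
    ((hGc.comp (hfun 0)).integrable_of_hasCompactSupport (HasCompactSupport.of_compactSpace _))
    (((hdc.comp (hfun 0)).clm_apply (hvel 0)).aestronglyMeasurable)
    (Filter.Eventually.of_forall fun θ s _ => by
      refine (ContinuousLinearMap.le_opNorm _ _).trans ?_
      apply mul_le_mul _ (norm_rotVel_le i j s θ.1 (by simp)) (norm_nonneg _) hC0
      have hn : ‖rotFun i j s θ.1‖ = 1 := by rw [norm_rotFun i j hij]; simp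
      exact hC ⟨rotFun i j s θ.1, by simp [hn]⟩)
    (integrable_const _)
    (Filter.Eventually.of_forall fun θ s _ => by
      have h1 := (hGd (rotFun i j s θ.1)).hasFDerivAt
      exact h1.comp_hasDerivAt s (hasDerivAt_rotFun i j s θ.1))
  have h2 := key.2
  have hconst : (fun s => ∫ θ : S4, G (rotFun i j s θ.1) ∂μS) = fun _ => ∫ θ : S4, G θ.1 ∂μS := by
    funext s
    have hmp := measurePreserving_sphMap (rotE i j hij s)
    have hemb : MeasurableEmbedding (sphMap (rotE i j hij s)) := by
      have hc : Continuous (sphMap (rotE i j hij s)) := by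
        unfold sphMap
        fun_prop
      apply hc.measurableEmbedding
      intro a b hab
      apply Subtype.ext
      have := congrArg Subtype.val hab
      exact (rotE i j hij s).injective this
    have := hmp.integral_comp hemb (fun θ : S4 => G θ.1)
    exact this
  rw [hconst] at h2
  have h3 := h2.unique (hasDerivAt_const 0 _)
  have h4 : ∀ θ : S4, fderiv ℝ G (rotFun i j 0 θ.1) (rotVel i j 0 θ.1) =
      θ.1 i * fderiv ℝ G θ.1 (EuclideanSpace.single j 1) -
      θ.1 j * fderiv ℝ G θ.1 (EuclideanSpace.single i 1) := by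
    intro θ
    have e1 : rotFun i j 0 θ.1 = θ.1 := by
      unfold rotFun
      simp
    have e2 : rotVel i j 0 θ.1 = θ.1 i • EuclideanSpace.single j (1:ℝ) -
        θ.1 j • EuclideanSpace.single i (1:ℝ) := by
      unfold rotVel
      simp only [Real.sin_zero, Real.cos_zero]
      module
    rw [e1, e2, map_sub, map_smul, map_smul]
    rfl
  rw [← h3]
  congr 1
  ext θ
  exact (h4 θ).symm

end
end OD16
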