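import Pool.Agent.LibOD16.HarmOrth
import Pool.Agent.LibOD16.Harm2

set_option autoImplicit false
namespace OD16
open MvPolynomial MeasureTheory Metric
noncomputable section

/-! ### The total mass of the sphere -/

lemma μS_univ_ge : (1 : ℝ) ≤ μS.real Set.univ := by
  have h1 : μS.real Set.univ = Module.finrank ℝ E5 * (volume : Measure E5).real (ball 0 1) :=
    Measure.toSphere_real_apply_univ (volume : Measure E5)
  have h2 : (volume : Measure E5) (ball 0 1) =
      ENNReal.ofReal (Real.pi ^ 2 * 2 ^ 3 / 15) := by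
    have h := InnerProductSpace.volume_ball_of_dim_odd (E := E5) (k := 2) (by simp) 0 1
    rw [h]
    simp [Nat.doubleFactorial]
  rw [h1, measureReal_def, h2, ENNReal.toReal_ofReal (by positivity)]
  have h3 : (Module.finrank ℝ E5 : ℝ) = 5 := by simp
  rw [h3]
  have := Real.pi_gt_three
  nlinarith

/-! ### The space of homogeneous polynomials with the `L²` inner product -/

/-- Homogeneous polynomials of degree `l`. -/
def HL (l : ℕ) : Type := homogeneousSubmodule (Fin 5) ℝ l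

instance (l : ℕ) : AddCommGroup (HL l) :=
  inferInstanceAs (AddCommGroup (homogeneousSubmodule (Fin 5) ℝ l))

instance (l : ℕ) : Module ℝ (HL l) :=
  inferInstanceAs (Module ℝ (homogeneousSubmodule (Fin 5) ℝ l))

instance (l : ℕ) : Module.Finite ℝ (HL l) :=
  Module.Finite.iff_fg.mpr (homogeneousSubmodule_fg (Fin 5) ℝ l)

def HL.pol {l : ℕ} (P : HL l) : Pol := P.1

lemma HL.hom {l : ℕ} (P : HL l) : P.pol.IsHomogeneous l := P.2

def HL.mk {l : ℕ} (P : Pol) (h : P.IsHomogeneous l) : HL l := ⟨P, h⟩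

@[simp] lemma HL.pol_mk {l : ℕ} (P : Pol) (h : P.IsHomogeneous l) : (HL.mk P h).pol = P := rfl

lemma HL.ext' {l : ℕ} {P Q : HL l} (h : P.pol = Q.pol) : P = Q := Subtype.ext h

lemma HL.pol_add {l : ℕ} (P Q : HL l) : (P + Q).pol = P.pol + Q.pol := rfl
lemma HL.pol_smul {l : ℕ} (c : ℝ) (P : HL l) : (c • P).pol = c • P.pol := rfl

def HL.core (l : ℕ) : InnerProductSpace.Core ℝ (HL l) where
  inner P Q := ip P.pol Q.pol
  conj_inner_symm P Q := by simp [ip_comm]
  re_inner_nonneg P := by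
    simp only [RCLike.re_to_real]
    exact ip_self_nonneg _
  add_left P Q R := ip_add_left _ _ _
  smul_left P Q c := by
    show ip (c • P.pol) Q.pol = _
    rw [ip_smul_left]
    simp only [conj_trivial]
  definite P h := HL.ext' (ip_self_eq_zero P.hom h)

instance (l : ℕ) : NormedAddCommGroup (HL l) := (HL.core l).toNormedAddCommGroup

instance (l : ℕ) : InnerProductSpace ℝ (HL l) := InnerProductSpace.ofCore (HL.core l).toCore

lemma HL.inner_def {l : ℕ} (P Q : HL l) : inner ℝ P Q = ip P.pol Q.pol := rfl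

/-- Evaluation at a point. -/
def HL.evL (l : ℕ) (x : E5) : HL l →ₗ[ℝ] ℝ where
  toFun P := pev P.pol x
  map_add' P Q := pev_add _ _ _
  map_smul' c P := pev_smul _ _ _

/-! ### The dimension -/

/-- exponents -/
def expo (l : ℕ) (c : Fin 4 → Fin (l + 1)) : Fin 5 →₀ ℕ :=
  Finsupp.equivFunOnFinite.symm
    (Fin.cons (l - ∑ i, (c i : ℕ)) (fun i => (c i : ℕ)) : Fin 5 → ℕ)

lemma finrank_HL_le (l : ℕ) : Module.finrank ℝ (HL l) ≤ (l + 1) ^ 4 := by
  classical
  set F : Finset Pol :=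
    (Finset.univ : Finset (Fin 4 → Fin (l + 1))).image (fun c => monomial (expo l c) (1 : ℝ))
  have h1 : homogeneousSubmodule (Fin 5) ℝ l ≤ Submodule.span ℝ (F : Set Pol) := by
    intro P hP
    rw [mem_homogeneousSubmodule] at hP
    rw [P.as_sum]
    apply Submodule.sum_mem
    intro d hd
    have hdeg : d.degree = l := by
      have := hP (mem_support_iff.mp hd)
      rwa [Finsupp.degree_eq_weight_one]
    have hsum : ∑ i : Fin 5, d i = l := by
      rw [← hdeg, Finsupp.degree_eq_sum]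
    rw [Fin.sum_univ_succ] at hsum
    have hle : ∀ i : Fin 4, d i.succ < l + 1 := by
      intro i
      have := Finset.single_le_sum (f := fun i : Fin 4 => d i.succ) (fun _ _ => Nat.zero_le _)
        (Finset.mem_univ i)
      omega
    have h2 : monomial d (coeff d P) = (coeff d P) • (monomial d (1 : ℝ) : Pol) := by
      rw [smul_monomial, smul_eq_mul, mul_one]
    rw [h2]
    apply Submodule.smul_mem
    apply Submodule.subset_span
    simp only [F, Finset.coe_image, Finset.coe_univ, Set.image_univ, Set.mem_range]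
    refine ⟨fun i => ⟨d i.succ, hle i⟩, ?_⟩
    have h3 : expo l (fun i => ⟨d i.succ, hle i⟩) = d := by
      apply Finsupp.ext
      intro i
      refine Fin.cases ?_ ?_ i
      · show l - ∑ i : Fin 4, d i.succ = d 0
        omega
      · intro j
        show d j.succ = d j.succ
        rfl
    rw [h3]
  have h3 : Module.finrank ℝ (homogeneousSubmodule (Fin 5) ℝ l) ≤
      Module.finrank ℝ (Submodule.span ℝ (F : Set Pol)) := Submodule.finrank_mono h1
  have h4 : Module.finrank ℝ (Submodule.span ℝ (F : Set Pol)) ≤ F.card :=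
    finrank_span_finset_le_card F
  have h5 : F.card ≤ (l + 1) ^ 4 := by
    refine Finset.card_image_le.trans ?_
    simp
  exact h3.trans (h4.trans h5)

/-! ### Composition with an isometry -/

/-- The polynomial `P ∘ g`. -/
def cmpPol (g : E5 ≃ₗᵢ[ℝ] E5) (P : Pol) : Pol :=
  aeval (fun i => ∑ j : Fin 5, (g (EuclideanSpace.single j 1) i) • (X j : Pol)) P

lemma cmpPol_hom (g : E5 ≃ₗᵢ[ℝ] E5) {l : ℕ} {P : Pol} (hP : P.IsHomogeneous l) :
    (cmpPol g P).IsHomogeneous l := by
  have h := hP.aeval (n := 1)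
    (fun i => ∑ j : Fin 5, (g (EuclideanSpace.single j 1) i) • (X j : Pol)) (by
      intro i
      apply IsHomogeneous.sum
      intro j _
      exact Submodule.smul_mem (homogeneousSubmodule (Fin 5) ℝ 1) _ (isHomogeneous_X ℝ j))
  rwa [one_mul] at h

lemma g_apply (g : E5 ≃ₗᵢ[ℝ] E5) (x : E5) (i : Fin 5) :
    g x i = ∑ j : Fin 5, g (EuclideanSpace.single j 1) i * x j := by
  have h1 : x = ∑ j : Fin 5, x j • EuclideanSpace.single j (1 : ℝ) := by
    ext k
    simp [Finset.sum_apply, Pi.single_apply]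
  conv_lhs => rw [h1]
  rw [map_sum]
  simp only [map_smul]
  simp [Finset.sum_apply, mul_comm]

lemma pev_cmpPol (g : E5 ≃ₗᵢ[ℝ] E5) (P : Pol) (x : E5) : pev (cmpPol g P) x = pev P (g x) := by
  unfold pev cmpPol
  induction P using MvPolynomial.induction_on with
  | C a => simp
  | add p q hp hq => rw [map_add, map_add, map_add, hp, hq]
  | mul_X p i hp =>
    rw [map_mul, map_mul, map_mul, hp, aeval_X, eval_X, g_apply, map_sum]
    congr 1
    apply Finset.sum_congr rfl
    intro j _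
    rw [smul_eval, eval_X]

lemma ip_cmpPol (g : E5 ≃ₗᵢ[ℝ] E5) (P Q : Pol) : ip (cmpPol g P) (cmpPol g Q) = ip P Q := by
  unfold ip
  have h := measurePreserving_sphMap g
  have hc : Continuous (fun θ : S4 => pev P θ * pev Q θ) := by fun_prop
  have h1 := integral_map (f := fun θ : S4 => pev P θ * pev Q θ) h.measurable.aemeasurable
    (μ := μS) hc.aestronglyMeasurable
  rw [h.map_eq] at h1
  rw [h1]
  congr 1
  ext θ
  rw [pev_cmpPol, pev_cmpPol]
  rfl

/-! ### The reproducing kernel -/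

lemma exists_isom (θ θ' : S4) : ∃ g : E5 ≃ₗᵢ[ℝ] E5, g θ.1 = θ'.1 := by
  refine ⟨Submodule.reflection (ℝ ∙ (θ.1 - θ'.1))ᗮ, ?_⟩
  apply Submodule.reflection_sub
  rw [norm_eq_of_mem_sphere θ, norm_eq_of_mem_sphere θ']

/-- The diagonal of the reproducing kernel. -/
def Kd (l : ℕ) (x : E5) : ℝ :=
  ∑ i, pev (stdOrthonormalBasis ℝ (HL l) i).pol x ^ 2

lemma Kd_nonneg (l : ℕ) (x : E5) : 0 ≤ Kd l x := Finset.sum_nonneg fun _ _ => sq_nonneg _

lemma pev_eq_sum {l : ℕ} (P : HL l) (x : E5) :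
    pev P.pol x = ∑ i, inner ℝ (stdOrthonormalBasis ℝ (HL l) i) P *
      pev (stdOrthonormalBasis ℝ (HL l) i).pol x := by
  have h1 := (stdOrthonormalBasis ℝ (HL l)).sum_repr' P
  have h2 := congrArg (HL.evL l x) h1
  rw [map_sum] at h2
  simp only [map_smul, smul_eq_mul] at h2
  exact h2.symm

lemma pev_sq_le {l : ℕ} (P : HL l) (x : E5) : pev P.pol x ^ 2 ≤ ip P.pol P.pol * Kd l x := by
  rw [pev_eq_sum]
  refine (Finset.sum_mul_sq_le_sq_mul_sq _ _ _).trans ?_
  apply le_of_eq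
  unfold Kd
  congr 1
  have h1 := (stdOrthonormalBasis ℝ (HL l)).sum_sq_norm_inner_right P
  rw [← HL.inner_def, real_inner_self_eq_norm_sq, ← h1]
  apply Finset.sum_congr rfl
  intro i _
  rw [Real.norm_eq_abs, sq_abs]

lemma Kd_le (l : ℕ) (θ θ' : S4) : Kd l θ'.1 ≤ Kd l θ.1 := by
  obtain ⟨g, hg⟩ := exists_isom θ θ'
  set b := stdOrthonormalBasis ℝ (HL l)
  set R : HL l := ∑ i, pev (b i).pol θ'.1 • b i with hR
  have h1 : pev R.pol θ'.1 = Kd l θ'.1 := by
    have h2 : pev R.pol θ'.1 = HL.evL l θ'.1 R := rfl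
    rw [h2, hR, map_sum]
    simp only [map_smul, smul_eq_mul]
    unfold Kd
    apply Finset.sum_congr rfl
    intro i _
    rw [sq]
    rfl
  have h3 : ip R.pol R.pol = Kd l θ'.1 := by
    have h4 : inner ℝ R R = ∑ i, pev (b i).pol θ'.1 * pev (b i).pol θ'.1 := by
      have := b.orthonormal.inner_sum (fun i => pev (b i).pol θ'.1) (fun i => pev (b i).pol θ'.1)
        Finset.univ
      simpa using this
    rw [← HL.inner_def, h4]
    unfold Kd
    apply Finset.sum_congr rfl
    intro i _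
    rw [sq]
  have h5 := pev_sq_le (HL.mk (cmpPol g R.pol) (cmpPol_hom g R.hom)) θ.1
  rw [HL.pol_mk, pev_cmpPol, hg, ip_cmpPol, h1, h3] at h5
  have h6 := Kd_nonneg l θ'.1
  have h7 := Kd_nonneg l θ.1
  rcases h6.eq_or_lt with h | h
  · rw [← h]
    exact h7
  · nlinarith

lemma Kd_eq (l : ℕ) (θ θ' : S4) : Kd l θ.1 = Kd l θ'.1 := le_antisymm (Kd_le l _ _) (Kd_le l _ _)

lemma integral_Kd (l : ℕ) : ∫ θ : S4, Kd l θ.1 ∂μS = Module.finrank ℝ (HL l) := by
  unfold Kd
  rw [integral_finsetSum]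
  · have h : ∀ i, ∫ θ : S4, pev (stdOrthonormalBasis ℝ (HL l) i).pol θ.1 ^ 2 ∂μS = 1 := by
      intro i
      have h1 := (stdOrthonormalBasis ℝ (HL l)).orthonormal.1 i
      have h2 : inner ℝ (stdOrthonormalBasis ℝ (HL l) i) (stdOrthonormalBasis ℝ (HL l) i) =
          (1 : ℝ) := by
        rw [real_inner_self_eq_norm_sq, h1, one_pow]
      rw [HL.inner_def] at h2
      rw [← h2]
      unfold ip
      congr 1
      ext θ
      rw [sq]
    simp [h]
  · intro i _
    have := integrable_pev_mul (stdOrthonormalBasis ℝ (HL l) i).pol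
      (stdOrthonormalBasis ℝ (HL l) i).pol
    simpa only [sq] using this

lemma Kd_bound (l : ℕ) (θ : S4) : Kd l θ.1 ≤ ((l : ℝ) + 1) ^ 4 := by
  have h1 := integral_Kd l
  have h2 : (fun θ' : S4 => Kd l θ'.1) = fun _ => Kd l θ.1 := by
    funext θ'
    exact Kd_eq l θ' θ
  rw [h2, integral_const, smul_eq_mul] at h1
  have h3 := μS_univ_ge
  have h4 := Kd_nonneg l θ.1
  have h5 : (Module.finrank ℝ (HL l) : ℝ) ≤ ((l : ℝ) + 1) ^ 4 := by
    exact_mod_cast finrank_HL_le l
  calc Kd l θ.1 = 1 * Kd l θ.1 := (one_mul _).symm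
    _ ≤ μS.real Set.univ * Kd l θ.1 := by gcongr
    _ = Module.finrank ℝ (HL l) := h1
    _ ≤ _ := h5

/-- TASK H07.  Sup bound.  Mean value property over the ball `B(θ, 1/(l+1))` (expand `P (θ + y)` in
homogeneous components in `y`, which are harmonic; those of degree `≥ 1` integrate to `0` over
balls), Cauchy-Schwarz, and `∫_{B(0,1+s)} P² = (1+s)^(2l+5)/(2l+5) · ip P P`;
the volume of the unit ball of `ℝ⁵` is `8π²/15`.  (Alternative: `sup_θ |P(θ)|/‖P‖` is rotation
invariant in `θ`, its square is `dim V_l / μS univ`, `dim V_l ≤ (l+1)^4`.) -/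
lemma sup_bound {l : ℕ} {P : Pol} (hP : P ∈ harm l) (θ : S4) :
    |pev P θ.1| ≤ 3 * ((l : ℝ) + 1) ^ 2 * nL P := by
  have h1 := pev_sq_le (HL.mk P hP.1) θ.1
  rw [HL.pol_mk] at h1
  have h2 := Kd_bound l θ
  have h3 := ip_self_nonneg P
  have h4 : 0 ≤ nL P := Real.sqrt_nonneg _
  have h5 : nL P ^ 2 = ip P P := Real.sq_sqrt h3
  have h6 : pev P θ.1 ^ 2 ≤ (3 * ((l : ℝ) + 1) ^ 2 * nL P) ^ 2 := by
    calc pev P θ.1 ^ 2 ≤ ip P P * Kd l θ.1 := h1
      _ ≤ ip P P * ((l : ℝ) + 1) ^ 4 := by gcongr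
      _ ≤ 9 * (ip P P * ((l : ℝ) + 1) ^ 4) := by
          have : 0 ≤ ip P P * ((l : ℝ) + 1) ^ 4 := by positivity
          linarith
      _ = (3 * ((l : ℝ) + 1) ^ 2 * nL P) ^ 2 := by
          rw [← h5]
          ring
  exact abs_le_of_sq_le_sq h6 (by positivity)

end
end OD16
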