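import Pool.Agent.LibOD16.Fx0

set_option autoImplicit false
namespace OD16
open MvPolynomial MeasureTheory Metric
open scoped BoundedContinuousFunction ENNReal
noncomputable section

/-- `t ↦ e^(k t) Y`. -/
def monB {l : ℕ} (k : ℕ) (Y : V l) : Tm →ᵇ V l :=
  (expB ^ k : Tm →ᵇ ℝ) • BoundedContinuousFunction.const Tm Y

lemma monB_apply {l : ℕ} (k : ℕ) (Y : V l) (t : Tm) :
    monB k Y t = (Real.exp t ^ k) • Y := by
  show (expB ^ k : Tm →ᵇ ℝ) t • Y = _
  rw [BoundedContinuousFunction.coe_pow, Pi.pow_apply]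
  rfl

lemma monB_hasDerivAt {l : ℕ} (k : ℕ) (Y : V l) {t : ℝ} (ht : t < 0) :
    HasDerivAt (xt (monB k Y)) ((k : ℝ) • xt (monB k Y) t) t := by
  have h1 : HasDerivAt (fun s : ℝ => Real.exp (k * s) • Y) ((Real.exp (k * t) * (k * 1)) • Y) t :=
    (((hasDerivAt_id t).const_mul (k : ℝ)).exp).smul_const Y
  have hmin : ∀ s : ℝ, s < 0 → xt (monB k Y) s = Real.exp (k * s) • Y := by
    intro s hs
    show monB k Y ⟨min s 0, _⟩ = _
    rw [monB_apply]
    congr 1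
    show Real.exp (min s 0) ^ k = _
    rw [min_eq_left hs.le, ← Real.exp_nat_mul]
  have h2 : xt (monB k Y) =ᶠ[nhds t] fun s : ℝ => Real.exp (k * s) • Y := by
    filter_upwards [Iio_mem_nhds ht] with s hs
    exact hmin s hs
  have h3 := h1.congr_of_eventuallyEq h2
  refine h3.congr_deriv ?_
  rw [hmin t ht, smul_smul]
  congr 1
  ring

lemma Ld1_gen {l : ℕ} {δ : ℝ} (k : ℕ) (c α β : ℝ) (Y : V l)
    (e f : Tm →ᵇ V l) (he : ∀ t : Tm, vp δ t • e t = -(c * Real.exp t ^ k) • Y)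
    (hf : ∀ t : Tm, ((l : ℝ) + 3) • (vp δ t • f t) = (5 * c * Real.exp t ^ k) • Y)
    (h1 : k * α = -((1 + 1 / (1 - δ)) * α) + 1 / (1 - δ) * (β + 1))
    (h2 : k * β = -(5 * β) + (l : ℝ) * (l + 3) * α - 5) :
    IsSol l δ e f ((c * α) • monB k Y) ((c * α * k) • monB k Y) ((c * β) • monB k Y) := by
  refine ⟨fun t ht => ?_, fun t ht => ?_, fun t => ?_⟩
  · have h3 := (monB_hasDerivAt k Y ht).const_smul (c * α)
    refine HasDerivAt.congr_deriv (f := xt ((c * α) • monB k Y)) h3 ?_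
    show _ = (c * α * k) • xt (monB k Y) t
    rw [smul_smul]
  · have h3 := (monB_hasDerivAt k Y ht).const_smul (c * β)
    refine HasDerivAt.congr_deriv (f := xt ((c * β) • monB k Y)) h3 ?_
    have h4 : (((l : ℝ) + 3) * vp δ t) • xt f t = (5 * c) • xt (monB k Y) t := by
      have h5 := hf ⟨min t 0, Set.mem_Iic.mpr (min_le_right t 0)⟩
      rw [smul_smul] at h5
      show (((l : ℝ) + 3) * vp δ t) • f ⟨min t 0, _⟩ = (5 * c) • monB k Y ⟨min t 0, _⟩
      rw [monB_apply, smul_smul]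
      have h6 : vp δ t = vp δ (min t 0) := by rw [min_eq_left ht.le]
      rw [h6]
      exact h5
    show _ = -((5 : ℝ) • ((c * β) • xt (monB k Y) t)) +
      ((l : ℝ) * (l + 3)) • ((c * α) • xt (monB k Y) t) - (((l : ℝ) + 3) * vp δ t) • xt f t
    rw [h4]
    generalize xt (monB k Y) t = Z
    rw [smul_smul, smul_smul, smul_smul, ← neg_smul, ← add_smul, ← sub_smul]
    congr 1
    have h7 : c * β * k = c * (k * β) := by ring
    rw [h7, h2]
    ring
  · show (c * α * k) • monB k Y t = -((1 + 1 / (1 - δ)) • ((c * α) • monB k Y t)) +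
      (1 / (1 - δ)) • ((c * β) • monB k Y t - vp δ t • e t)
    rw [he t, monB_apply]
    have h3 : (c * α * k) = c * (k * α) := by ring
    rw [h3, h1]
    module

/-- TASK Ld1.  Explicit solutions: if `ϖ e = -c r^k Y` and `(l+3) ϖ f = 5 c r^k Y`, then
in degree `l = 1`: `a = c α r^k Y`, `α = q k / ((k+1)(k+5+q))`;
in degree `l = 0`: `a = c α r^k Y`, `α = q k / ((k+5)(k+1+q))`;  `a1 = k a`,
`b = c β r^k Y`, `β = (λ α - 5)/(k+5)`. -/
lemma isSol_one {δ : ℝ} (hδ : 0 < δ) (hδ1 : δ < 1 / 10) (k : ℕ) (c : ℝ) (Y : V 1)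
    (e f : Tm →ᵇ V 1) (he : ∀ t : Tm, vp δ t • e t = -(c * Real.exp t ^ k) • Y)
    (hf : ∀ t : Tm, (((1 : ℕ) : ℝ) + 3) • (vp δ t • f t) = (5 * c * Real.exp t ^ k) • Y) :
    ∃ a a1 b : Tm →ᵇ V 1, IsSol 1 δ e f a a1 b ∧
      a1 t0 + a t0 = (c * ((1 / (1 - δ)) * k / (k + 5 + 1 / (1 - δ)))) • Y := by
  have hq : (0 : ℝ) < 1 / (1 - δ) := one_div_pos.2 (by linarith)
  have hk : (0 : ℝ) ≤ k := Nat.cast_nonneg k
  generalize hqd : 1 / (1 - δ) = q at hq ⊢
  have hk1 : (k : ℝ) + 1 ≠ 0 := by positivity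
  have hk5 : (k : ℝ) + 5 ≠ 0 := by positivity
  have hkq : (k : ℝ) + 5 + q ≠ 0 := by positivity
  set α : ℝ := q * k / ((k + 1) * (k + 5 + q)) with hα
  set β : ℝ := (4 * α - 5) / (k + 5) with hβ
  refine ⟨_, _, _, Ld1_gen k c α β Y e f he hf ?_ ?_, ?_⟩
  · rw [hqd, hβ, hα]
    field_simp
    ring
  · rw [hβ]
    push_cast
    field_simp
    ring
  · show (c * α * k) • monB k Y t0 + (c * α) • monB k Y t0 = _
    rw [monB_apply, ← add_smul, smul_smul]
    congr 1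
    have h0 : Real.exp ((t0 : Tm) : ℝ) = 1 := by
      show Real.exp 0 = 1
      exact Real.exp_zero
    rw [h0, one_pow, hα]
    field_simp

lemma isSol_zero {δ : ℝ} (hδ : 0 < δ) (hδ1 : δ < 1 / 10) (k : ℕ) (c : ℝ) (Y : V 0)
    (e f : Tm →ᵇ V 0) (he : ∀ t : Tm, vp δ t • e t = -(c * Real.exp t ^ k) • Y)
    (hf : ∀ t : Tm, (((0 : ℕ) : ℝ) + 3) • (vp δ t • f t) = (5 * c * Real.exp t ^ k) • Y) :
    ∃ a a1 b : Tm →ᵇ V 0, IsSol 0 δ e f a a1 b ∧
      a1 t0 + a t0 = (c * ((1 / (1 - δ)) * k * (k + 1) / ((k + 5) * (k + 1 + 1 / (1 - δ))))) • Y := by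
  have hq : (0 : ℝ) < 1 / (1 - δ) := one_div_pos.2 (by linarith)
  have hk : (0 : ℝ) ≤ k := Nat.cast_nonneg k
  generalize hqd : 1 / (1 - δ) = q at hq ⊢
  have hk1 : (k : ℝ) + 1 ≠ 0 := by positivity
  have hk5 : (k : ℝ) + 5 ≠ 0 := by positivity
  have hkq : (k : ℝ) + 1 + q ≠ 0 := by positivity
  set α : ℝ := q * k / ((k + 5) * (k + 1 + q)) with hα
  set β : ℝ := (-5) / (k + 5) with hβ
  refine ⟨_, _, _, Ld1_gen k c α β Y e f he hf ?_ ?_, ?_⟩
  · rw [hqd, hβ, hα]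
    field_simp
    ring
  · rw [hβ]
    push_cast
    field_simp
    ring
  · show (c * α * k) • monB k Y t0 + (c * α) • monB k Y t0 = _
    rw [monB_apply, ← add_smul, smul_smul]
    congr 1
    have h0 : Real.exp ((t0 : Tm) : ℝ) = 1 := by
      show Real.exp 0 = 1
      exact Real.exp_zero
    rw [h0, one_pow, hα]
    field_simp

/-- Superposition. -/
lemma IsSol.add {V : Type*} [NormedAddCommGroup V] [NormedSpace ℝ V] {l : ℕ} {δ : ℝ}
    {e f a a1 b e' f' a' a1' b' : Tm →ᵇ V}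
    (h : IsSol l δ e f a a1 b) (h' : IsSol l δ e' f' a' a1' b') :
    IsSol l δ (e + e') (f + f') (a + a') (a1 + a1') (b + b') := by
  refine ⟨fun t ht => ?_, fun t ht => ?_, fun t => ?_⟩
  · exact (h.da t ht).add (h'.da t ht)
  · refine ((h.db t ht).add (h'.db t ht)).congr_deriv ?_
    show _ = -((5 : ℝ) • (xt b t + xt b' t)) + ((l : ℝ) * (l + 3)) • (xt a t + xt a' t) -
      (((l : ℝ) + 3) * vp δ t) • (xt f t + xt f' t)
    simp only [smul_add]
    abel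
  · show a1 t + a1' t = -((1 + 1 / (1 - δ)) • (a t + a' t)) +
      (1 / (1 - δ)) • (b t + b' t - vp δ t • (e t + e' t))
    rw [h.eq t, h'.eq t]
    simp only [smul_add, smul_sub]
    abel

end
end OD16
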