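import Pool.Agent.LibOD16.PS

set_option autoImplicit false
namespace OD16
noncomputable section

/-- Binomial coefficients `κ (κ-1) ... (κ-n+1) / n!`. -/
def bc (κ : ℝ) : ℕ → ℝ
  | 0 => 1
  | (n + 1) => bc κ n * (κ - n) / (n + 1)

/-- Coefficients of `((1+x)^κ - 1) / (κ x)`. -/
def bc' (κ : ℝ) (n : ℕ) : ℝ := bc κ (n + 1) / κ

private lemma bc_succ (κ : ℝ) (n : ℕ) : bc κ (n + 1) = bc κ n * (κ - n) / (n + 1) := rfl

private lemma abs_step {κ : ℝ} (hκ : |κ| ≤ 1) (n : ℕ) (b C : ℝ) (hb : |b| ≤ C) :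
    |b * (κ - n) / (n + 1)| ≤ C := by
  have hn : (0 : ℝ) < (n : ℝ) + 1 := by positivity
  rw [abs_div, abs_mul, abs_of_pos hn, div_le_iff₀ hn]
  have h1 : |κ - n| ≤ n + 1 := by
    have h2 : |κ - n| ≤ |κ| + |(n : ℝ)| := abs_sub _ _
    have h3 : |(n : ℝ)| = n := abs_of_nonneg (Nat.cast_nonneg n)
    linarith
  exact mul_le_mul hb h1 (abs_nonneg _) ((abs_nonneg b).trans hb)

/-- TASK PSr.  Bounds. -/
lemma abs_bc_le {κ : ℝ} (hκ : |κ| ≤ 1) (n : ℕ) : |bc κ n| ≤ 1 := by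
  induction n with
  | zero => simp [bc]
  | succ n ih =>
    rw [bc_succ]
    exact abs_step hκ n _ _ ih

private lemma abs_bc_succ_le {κ : ℝ} (hκ : |κ| ≤ 1) (n : ℕ) : |bc κ (n + 1)| ≤ |κ| := by
  induction n with
  | zero => simp [bc]
  | succ n ih =>
    rw [bc_succ]
    exact abs_step hκ (n + 1) _ _ ih

/-- `|bc κ (n+1) / κ| = |(κ-1)...(κ-n)| / (n+1)! ≤ 1`  (for `κ = 0` it is `0` in Lean). -/
lemma abs_bc'_le {κ : ℝ} (hκ : |κ| ≤ 1) (n : ℕ) : |bc' κ n| ≤ 1 := by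
  unfold bc'
  by_cases h0 : κ = 0
  · rw [h0, div_zero, abs_zero]
    exact zero_le_one
  · rw [abs_div, div_le_one (abs_pos.mpr h0)]
    exact abs_bc_succ_le hκ n

lemma bc_zero (κ : ℝ) : bc κ 0 = 1 := rfl

lemma bc'_zero {κ : ℝ} (hκ : κ ≠ 0) : bc' κ 0 = 1 := by
  unfold bc'
  rw [bc_succ, bc_zero]
  simp [hκ]

lemma bc_eq_choose (κ : ℝ) (n : ℕ) : bc κ n = Ring.choose κ n := by
  have key : ∀ n : ℕ, (n.factorial : ℝ) * bc κ n = (descPochhammer ℤ n).smeval κ := by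
    intro n
    induction n with
    | zero => simp [bc, Polynomial.smeval_one]
    | succ n ih =>
      rw [descPochhammer_succ_right, Polynomial.smeval_mul, ← ih, bc_succ, Nat.factorial_succ]
      have h1 : (Polynomial.X - (n : Polynomial ℤ)).smeval κ = κ - n := by
        rw [Polynomial.smeval_sub, Polynomial.smeval_X, Polynomial.smeval_natCast]
        simp
      rw [h1]
      push_cast
      field_simp
  have h2 := key n
  rw [Ring.descPochhammer_eq_factorial_smul_choose, nsmul_eq_mul] at h2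
  have h3 : (n.factorial : ℝ) ≠ 0 := by exact_mod_cast n.factorial_ne_zero
  exact mul_left_cancel₀ h3 h2

/-- The binomial series (`Complex.one_add_cpow_hasFPowerSeriesOnBall_zero` or its real version,
or directly from the differential equation). -/
lemma tsum_bc (κ : ℝ) {x : ℝ} (hx : |x| ≤ 1 / 2) : ∑' n, bc κ n * x ^ n = (1 + x) ^ κ := by
  have h1 := (Real.one_add_rpow_hasFPowerSeriesOnBall_zero (a := κ)).hasSum_sub (y := x) (by
    rw [Metric.mem_eball, edist_dist, dist_zero_right, Real.norm_eq_abs]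
    rw [ENNReal.ofReal_lt_one]
    linarith)
  rw [← h1.tsum_eq]
  congr 1
  ext n
  simp [binomialSeries, bc_eq_choose, FormalMultilinearSeries.ofScalars]

variable {A : Type*} [NormedCommRing A] [NormedAlgebra ℝ A]

/-- `(1 + s)^κ`. -/
def pw (κ : ℝ) (s : A) : A := ps (bc κ) s

/-- `((1 + s)^κ - 1) / (κ s)`. -/
def ph (κ : ℝ) (s : A) : A := ps (bc' κ) s

lemma pw_eq [CompleteSpace A] {κ : ℝ} (hκ : |κ| ≤ 1) (h0 : κ ≠ 0) (s : A) (hs : ‖s‖ ≤ 1 / 2) :
    pw κ s = 1 + κ • (s * ph κ s) := by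
  unfold pw ph
  rw [ps_eq (bc κ) (abs_bc_le hκ) s hs, bc_zero, one_smul]
  congr 1
  rw [← mul_smul_comm]
  congr 1
  unfold ps
  have hsum : Summable fun n => bc' κ n • s ^ n :=
    (ps_summable_norm (bc' κ) (abs_bc'_le hκ) s hs).of_norm
  rw [← hsum.tsum_const_smul κ]
  congr 1
  ext n
  rw [smul_smul]
  congr 1
  unfold bc'
  field_simp

lemma map_pw [CompleteSpace A] (φ : A →+* ℝ) (hφ : Continuous φ) {κ : ℝ} (hκ : |κ| ≤ 1) (s : A)
    (hs : ‖s‖ ≤ 1 / 2) (hs' : |φ s| ≤ 1 / 2) : φ (pw κ s) = (1 + φ s) ^ κ := by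
  unfold pw
  rw [map_ps φ hφ (bc κ) (abs_bc_le hκ) s hs, tsum_bc κ hs']

/-- Geometric series. -/
lemma mul_pw_neg_one [CompleteSpace A] (s : A) (hs : ‖s‖ ≤ 1 / 2) : (1 + s) * pw (-1) s = 1 := by
  have hκ : |(-1 : ℝ)| ≤ 1 := by norm_num
  have h1 := ps_eq (bc (-1)) (abs_bc_le hκ) s hs
  have h2 : (fun n => bc (-1) (n + 1)) = fun n => -bc (-1) n := by
    ext n
    rw [bc_succ]
    have hn : (n : ℝ) + 1 ≠ 0 := by positivity
    field_simp
    ring
  have h3 : ps (fun n => bc (-1) (n + 1)) s = -ps (bc (-1)) s := by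
    rw [h2]
    unfold ps
    rw [← tsum_neg]
    congr 1
    ext n
    rw [neg_smul]
  rw [h3, bc_zero, one_smul] at h1
  unfold pw
  have h4 : ps (bc (-1)) s + s * ps (bc (-1)) s = 1 := by
    have h5 : ps (bc (-1)) s = 1 - s * ps (bc (-1)) s := by
      rw [mul_neg] at h1
      rw [sub_eq_add_neg]
      exact h1
    rw [eq_sub_iff_add_eq] at h5
    exact h5
  rw [add_mul, one_mul]
  exact h4

end
end OD16
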