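import Pool.Agent.LibOD16.Alg1
import Pool.Agent.LibOD16.PSr

set_option autoImplicit false
namespace OD16
open MvPolynomial MeasureTheory Metric
open scoped BoundedContinuousFunction ENNReal
noncomputable section

/-- The space of the unknowns `(ν, j0, j1, J)`. -/
abbrev XS := ℝ × WA × WA × (Fin 5 → WA)

/-- Families of elements of `WA` depending on `h`, `δ` and the unknowns. -/
abbrev Fam := ℝ → ℝ → XS → WA

/-- `F = O(h^k)` with Lipschitz constant `O(h^(k-2))` on the ball of radius `K h²`, continuous in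
`h`; uniformly for `0 < δ ≤ h²`, `h` small. -/
def Ord (K : ℝ) (k : ℕ) (F : Fam) : Prop :=
  ∃ M h0 : ℝ, 0 ≤ M ∧ 0 < h0 ∧
    (∀ h δ, 0 < h → h < h0 → 0 < δ → δ ≤ h ^ 2 → ∀ x : XS, ‖x‖ ≤ K * h ^ 2 →
      ‖F h δ x‖ ≤ M * h ^ k) ∧
    (∀ h δ, 0 < h → h < h0 → 0 < δ → δ ≤ h ^ 2 → ∀ x y : XS, ‖x‖ ≤ K * h ^ 2 → ‖y‖ ≤ K * h ^ 2 →
      ‖F h δ x - F h δ y‖ ≤ M * h ^ k / h ^ 2 * ‖x - y‖) ∧
    (∀ δ, ∀ x : XS, ContinuousOn (fun h => F h δ x)
      {h | 0 < h ∧ h < h0 ∧ 0 < δ ∧ δ ≤ h ^ 2 ∧ ‖x‖ ≤ K * h ^ 2})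

namespace Ord

variable {K : ℝ}

/-- TASK Ord0.  Rules of the calculus. -/
lemma mono {k m : ℕ} (hkm : m ≤ k) {F : Fam} (hF : Ord K k F) : Ord K m F := by
  obtain ⟨M, h0, hM, hh0, hA, hB, hC⟩ := hF
  refine ⟨M, min h0 1, hM, lt_min hh0 one_pos, ?_, ?_, ?_⟩
  · intro h δ h1 h2 h3 h4 x hx
    refine (hA h δ h1 (lt_of_lt_of_le h2 (min_le_left _ _)) h3 h4 x hx).trans ?_
    have h5 : h ^ k ≤ h ^ m :=
      pow_le_pow_of_le_one h1.le (lt_of_lt_of_le h2 (min_le_right _ _)).le hkm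
    exact mul_le_mul_of_nonneg_left h5 hM
  · intro h δ h1 h2 h3 h4 x y hx hy
    refine (hB h δ h1 (lt_of_lt_of_le h2 (min_le_left _ _)) h3 h4 x y hx hy).trans ?_
    have h5 : h ^ k ≤ h ^ m :=
      pow_le_pow_of_le_one h1.le (lt_of_lt_of_le h2 (min_le_right _ _)).le hkm
    gcongr
  · intro δ x
    apply (hC δ x).mono
    rintro h ⟨h1, h2, h3⟩
    exact ⟨h1, lt_of_lt_of_le h2 (min_le_left _ _), h3⟩

lemma add {k : ℕ} {F G : Fam} (hF : Ord K k F) (hG : Ord K k G) : Ord K k (F + G) := by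
  obtain ⟨M, h0, hM, hh0, hA, hB, hC⟩ := hF
  obtain ⟨M', h0', hM', hh0', hA', hB', hC'⟩ := hG
  refine ⟨M + M', min h0 h0', add_nonneg hM hM', lt_min hh0 hh0', ?_, ?_, ?_⟩
  · intro h δ h1 h2 h3 h4 x hx
    have e1 := hA h δ h1 (lt_of_lt_of_le h2 (min_le_left _ _)) h3 h4 x hx
    have e2 := hA' h δ h1 (lt_of_lt_of_le h2 (min_le_right _ _)) h3 h4 x hx
    calc ‖(F + G) h δ x‖ = ‖F h δ x + G h δ x‖ := rfl
      _ ≤ ‖F h δ x‖ + ‖G h δ x‖ := norm_add_le _ _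
      _ ≤ M * h ^ k + M' * h ^ k := add_le_add e1 e2
      _ = _ := by ring
  · intro h δ h1 h2 h3 h4 x y hx hy
    have e1 := hB h δ h1 (lt_of_lt_of_le h2 (min_le_left _ _)) h3 h4 x y hx hy
    have e2 := hB' h δ h1 (lt_of_lt_of_le h2 (min_le_right _ _)) h3 h4 x y hx hy
    calc ‖(F + G) h δ x - (F + G) h δ y‖
        = ‖(F h δ x - F h δ y) + (G h δ x - G h δ y)‖ := by
          congr 1
          show (F h δ x + G h δ x) - (F h δ y + G h δ y) = _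
          abel
      _ ≤ ‖F h δ x - F h δ y‖ + ‖G h δ x - G h δ y‖ := norm_add_le _ _
      _ ≤ M * h ^ k / h ^ 2 * ‖x - y‖ + M' * h ^ k / h ^ 2 * ‖x - y‖ := add_le_add e1 e2
      _ = _ := by ring
  · intro δ x
    apply ContinuousOn.add
    · apply (hC δ x).mono
      rintro h ⟨h1, h2, h3⟩
      exact ⟨h1, lt_of_lt_of_le h2 (min_le_left _ _), h3⟩
    · apply (hC' δ x).mono
      rintro h ⟨h1, h2, h3⟩
      exact ⟨h1, lt_of_lt_of_le h2 (min_le_right _ _), h3⟩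

lemma neg {k : ℕ} {F : Fam} (hF : Ord K k F) : Ord K k (-F) := by
  obtain ⟨M, h0, hM, hh0, hA, hB, hC⟩ := hF
  refine ⟨M, h0, hM, hh0, ?_, ?_, ?_⟩
  · intro h δ h1 h2 h3 h4 x hx
    show ‖-F h δ x‖ ≤ _
    rw [norm_neg]
    exact hA h δ h1 h2 h3 h4 x hx
  · intro h δ h1 h2 h3 h4 x y hx hy
    show ‖-F h δ x - -F h δ y‖ ≤ _
    have e : -F h δ x - -F h δ y = -(F h δ x - F h δ y) := by abel
    rw [e, norm_neg]
    exact hB h δ h1 h2 h3 h4 x y hx hy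
  · intro δ x
    exact (hC δ x).neg

lemma sub {k : ℕ} {F G : Fam} (hF : Ord K k F) (hG : Ord K k G) : Ord K k (F - G) := by
  rw [sub_eq_add_neg]
  exact hF.add hG.neg

lemma mul {k m : ℕ} {F G : Fam} (hF : Ord K k F) (hG : Ord K m G) : Ord K (k + m) (F * G) := by
  obtain ⟨M, h0, hM, hh0, hA, hB, hC⟩ := hF
  obtain ⟨M', h0', hM', hh0', hA', hB', hC'⟩ := hG
  refine ⟨2 * (M * M'), min h0 h0', by positivity, lt_min hh0 hh0', ?_, ?_, ?_⟩
  · intro h δ h1 h2 h3 h4 x hx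
    have e1 := hA h δ h1 (lt_of_lt_of_le h2 (min_le_left _ _)) h3 h4 x hx
    have e2 := hA' h δ h1 (lt_of_lt_of_le h2 (min_le_right _ _)) h3 h4 x hx
    calc ‖(F * G) h δ x‖ = ‖F h δ x * G h δ x‖ := rfl
      _ ≤ ‖F h δ x‖ * ‖G h δ x‖ := norm_mul_le _ _
      _ ≤ (M * h ^ k) * (M' * h ^ m) := mul_le_mul e1 e2 (norm_nonneg _) (by positivity)
      _ = (M * M') * h ^ (k + m) := by rw [pow_add]; ring
      _ ≤ 2 * (M * M') * h ^ (k + m) := by
          have : 0 ≤ (M * M') * h ^ (k + m) := by positivity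
          linarith
  · intro h δ h1 h2 h3 h4 x y hx hy
    have a1 := hA h δ h1 (lt_of_lt_of_le h2 (min_le_left _ _)) h3 h4 x hx
    have a2 := hA' h δ h1 (lt_of_lt_of_le h2 (min_le_right _ _)) h3 h4 y hy
    have e1 := hB h δ h1 (lt_of_lt_of_le h2 (min_le_left _ _)) h3 h4 x y hx hy
    have e2 := hB' h δ h1 (lt_of_lt_of_le h2 (min_le_right _ _)) h3 h4 x y hx hy
    calc ‖(F * G) h δ x - (F * G) h δ y‖
        = ‖F h δ x * (G h δ x - G h δ y) + (F h δ x - F h δ y) * G h δ y‖ := by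
          congr 1
          show F h δ x * G h δ x - F h δ y * G h δ y = _
          ring
      _ ≤ ‖F h δ x‖ * ‖G h δ x - G h δ y‖ + ‖F h δ x - F h δ y‖ * ‖G h δ y‖ :=
          (norm_add_le _ _).trans (add_le_add (norm_mul_le _ _) (norm_mul_le _ _))
      _ ≤ (M * h ^ k) * (M' * h ^ m / h ^ 2 * ‖x - y‖) +
            (M * h ^ k / h ^ 2 * ‖x - y‖) * (M' * h ^ m) := by
          apply add_le_add
          · exact mul_le_mul a1 e2 (norm_nonneg _) (by positivity)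
          · exact mul_le_mul e1 a2 (norm_nonneg _) (by positivity)
      _ = 2 * (M * M') * h ^ (k + m) / h ^ 2 * ‖x - y‖ := by
          rw [pow_add]
          ring
  · intro δ x
    apply ContinuousOn.mul
    · apply (hC δ x).mono
      rintro h ⟨h1, h2, h3⟩
      exact ⟨h1, lt_of_lt_of_le h2 (min_le_left _ _), h3⟩
    · apply (hC' δ x).mono
      rintro h ⟨h1, h2, h3⟩
      exact ⟨h1, lt_of_lt_of_le h2 (min_le_right _ _), h3⟩

lemma smul {k : ℕ} {F : Fam} (c : ℝ) (hF : Ord K k F) : Ord K k (fun h δ x => c • F h δ x) := by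
  obtain ⟨M, h0, hM, hh0, hA, hB, hC⟩ := hF
  refine ⟨|c| * M, h0, by positivity, hh0, ?_, ?_, ?_⟩
  · intro h δ h1 h2 h3 h4 x hx
    rw [norm_smul, Real.norm_eq_abs, mul_assoc]
    exact mul_le_mul_of_nonneg_left (hA h δ h1 h2 h3 h4 x hx) (abs_nonneg c)
  · intro h δ h1 h2 h3 h4 x y hx hy
    rw [← smul_sub, norm_smul, Real.norm_eq_abs]
    have e := mul_le_mul_of_nonneg_left (hB h δ h1 h2 h3 h4 x y hx hy) (abs_nonneg c)
    refine e.trans (le_of_eq ?_)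
    ring
  · intro δ x
    exact (hC δ x).const_smul c

lemma zero (k : ℕ) : Ord K k (0 : Fam) := by
  refine ⟨0, 1, le_refl _, one_pos, ?_, ?_, ?_⟩
  · intro h δ _ _ _ _ x _
    show ‖(0 : WA)‖ ≤ _
    rw [norm_zero, zero_mul]
  · intro h δ _ _ _ _ x y _ _
    show ‖(0 : WA) - 0‖ ≤ _
    rw [sub_zero, norm_zero, zero_mul, zero_div, zero_mul]
  · intro δ x
    exact continuousOn_const

/-- Functions of `δ` only, bounded for `0 < δ < 1/10`. -/
private lemma ofBound' (G : ℝ → WA) {C : ℝ} (hG : ∀ δ, 0 < δ → δ < 1 / 10 → ‖G δ‖ ≤ C) :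
    Ord K 0 (fun _ δ _ => G δ) := by
  refine ⟨|C|, 3 / 10, abs_nonneg _, by norm_num, ?_, ?_, ?_⟩
  · intro h δ h1 h2 h3 h4 x _
    rw [pow_zero, mul_one]
    refine (hG δ h3 ?_).trans (le_abs_self C)
    have h5 : h ^ 2 < (3 / 10) ^ 2 := pow_lt_pow_left₀ h2 h1.le two_ne_zero
    have h6 : ((3 : ℝ) / 10) ^ 2 < 1 / 10 := by norm_num
    linarith
  · intro h δ h1 _ _ _ x y _ _
    show ‖G δ - G δ‖ ≤ _
    rw [sub_self, norm_zero]
    positivity
  · intro δ x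
    exact continuousOn_const

/-- Constants. -/
lemma const (G : WA) : Ord K 0 (fun _ _ _ => G) :=
  ofBound' (fun _ => G) (C := ‖G‖) (fun _ _ _ => le_refl _)

/-- Functions of `δ` only, bounded for `0 < δ < 1/10`. -/
lemma ofBound (G : ℝ → WA) {C : ℝ} (hG : ∀ δ, 0 < δ → δ < 1 / 10 → ‖G δ‖ ≤ C) :
    Ord K 0 (fun _ δ _ => G δ) := ofBound' G hG

/-- The parameter `h`. -/
lemma var_h : Ord K 1 (fun h _ _ => h • (1 : WA)) := by
  refine ⟨‖(1 : WA)‖, 1, norm_nonneg _, one_pos, ?_, ?_, ?_⟩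
  · intro h δ h1 _ _ _ x _
    rw [norm_smul, Real.norm_eq_abs, abs_of_pos h1, pow_one, mul_comm]
  · intro h δ h1 _ _ _ x y _ _
    show ‖h • (1 : WA) - h • (1 : WA)‖ ≤ _
    rw [sub_self, norm_zero]
    positivity
  · intro δ x
    exact (continuous_id.smul continuous_const).continuousOn

/-- The parameter `δ`. -/
lemma var_δ : Ord K 2 (fun _ δ _ => δ • (1 : WA)) := by
  refine ⟨‖(1 : WA)‖, 1, norm_nonneg _, one_pos, ?_, ?_, ?_⟩
  · intro h δ h1 _ h3 h4 x _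
    rw [norm_smul, Real.norm_eq_abs, abs_of_pos h3, mul_comm]
    exact mul_le_mul_of_nonneg_left h4 (norm_nonneg _)
  · intro h δ h1 _ _ _ x y _ _
    show ‖δ • (1 : WA) - δ • (1 : WA)‖ ≤ _
    rw [sub_self, norm_zero]
    positivity
  · intro δ x
    exact continuousOn_const

private lemma ofLin (L : XS → WA) (C : ℝ) (hC : 0 ≤ C) (h1 : ∀ x, ‖L x‖ ≤ C * ‖x‖)
    (h2 : ∀ x y, ‖L x - L y‖ ≤ C * ‖x - y‖) : Ord K 2 (fun _ _ x => L x) := by
  refine ⟨C * |K| + C, 1, by positivity, one_pos, ?_, ?_, ?_⟩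
  · intro h δ hh _ _ _ x hx
    refine (h1 x).trans ?_
    have e1 : ‖x‖ ≤ |K| * h ^ 2 :=
      hx.trans (mul_le_mul_of_nonneg_right (le_abs_self K) (by positivity))
    have e2 : C * ‖x‖ ≤ C * (|K| * h ^ 2) := mul_le_mul_of_nonneg_left e1 hC
    have e3 : 0 ≤ C * h ^ 2 := by positivity
    linarith
  · intro h δ hh _ _ _ x y _ _
    refine (h2 x y).trans ?_
    have e1 : (C * |K| + C) * h ^ 2 / h ^ 2 = C * |K| + C := by
      field_simp
    rw [e1]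
    have e2 : 0 ≤ C * |K| * ‖x - y‖ := by positivity
    linarith
  · intro δ x
    exact continuousOn_const

/-- The unknowns. -/
lemma var_ν : Ord K 2 (fun _ _ x => x.1 • (1 : WA)) := by
  have key : ∀ x : XS, ‖x.1 • (1 : WA)‖ ≤ ‖(1 : WA)‖ * ‖x‖ := by
    intro x
    rw [norm_smul, mul_comm]
    exact mul_le_mul_of_nonneg_left (norm_fst_le x) (norm_nonneg _)
  apply ofLin (fun x => x.1 • (1 : WA)) ‖(1 : WA)‖ (norm_nonneg _) key
  intro x y
  have h := key (x - y)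
  rw [← sub_smul]
  exact h

lemma var_j0 : Ord K 2 (fun _ _ x => x.2.1) := by
  have key : ∀ x : XS, ‖x.2.1‖ ≤ 1 * ‖x‖ := by
    intro x
    rw [one_mul]
    exact (norm_fst_le x.2).trans (norm_snd_le x)
  exact ofLin (fun x => x.2.1) 1 zero_le_one key (fun x y => key (x - y))

lemma var_j1 : Ord K 2 (fun _ _ x => x.2.2.1) := by
  have key : ∀ x : XS, ‖x.2.2.1‖ ≤ 1 * ‖x‖ := by
    intro x
    rw [one_mul]
    exact (norm_fst_le x.2.2).trans ((norm_snd_le x.2).trans (norm_snd_le x))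
  exact ofLin (fun x => x.2.2.1) 1 zero_le_one key (fun x y => key (x - y))

lemma var_J (i : Fin 5) : Ord K 2 (fun _ _ x => x.2.2.2 i) := by
  have key : ∀ x : XS, ‖x.2.2.2 i‖ ≤ 1 * ‖x‖ := by
    intro x
    rw [one_mul]
    exact (norm_le_pi_norm x.2.2.2 i).trans ((norm_snd_le x.2.2).trans
      ((norm_snd_le x.2).trans (norm_snd_le x)))
  exact ofLin (fun x => x.2.2.2 i) 1 zero_le_one key (fun x y => key (x - y))

end Ord

end
end OD16
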