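import Pool.Agent.LibOD16.SolN

set_option autoImplicit false
namespace OD16
open MeasureTheory Metric
open scoped BoundedContinuousFunction
noncomputable section

variable {V : Type*} [NormedAddCommGroup V] [NormedSpace ℝ V]

lemma SolU_continuous_xt (u : Tm →ᵇ V) : Continuous (xt u) := by
  unfold xt
  exact u.continuous.comp (by fun_prop)

lemma SolU_const {v : ℝ → V} (hv : Continuous v) (h : ∀ t : ℝ, t < 0 → HasDerivAt v 0 t)
    {a x : ℝ} (hax : a ≤ x) (hx : x ≤ 0) : v x = v a :=
  constant_of_has_deriv_right_zero (a := a) (b := 0) hv.continuousOn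
    (fun t ht => (h t ht.2).hasDerivWithinAt) x ⟨hax, hx⟩

lemma SolU_xt_apply (u : Tm →ᵇ V) (t : Tm) : xt u (t : ℝ) = u t := by
  unfold xt
  congr 1
  apply Subtype.ext
  exact min_eq_left t.2

lemma SolU_deriv {u : Tm →ᵇ V} {x : ℝ}
    (h : ∀ t : ℝ, t < 0 → HasDerivAt (xt u) (x • xt u t) t) (t : ℝ) (ht : t < 0) :
    HasDerivAt (fun s => Real.exp (-(x * s)) • xt u s) 0 t := by
  have h1 : HasDerivAt (fun s : ℝ => Real.exp (-(x * s))) (Real.exp (-(x * t)) * (-(x * 1))) t :=
    (((hasDerivAt_id t).const_mul x).neg).exp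
  have h2 := h1.smul (h t ht)
  refine h2.congr_deriv ?_
  rw [smul_smul, ← add_smul]
  have : Real.exp (-(x * t)) * x + Real.exp (-(x * t)) * -(x * 1) = 0 := by ring
  rw [this, zero_smul]

/-- TASK SolU.  A bounded solution of `u' = -y u` on `(-∞, 0)`, `y > 0`, is zero
(`e^(y t) u` is constant and tends to `0` at `-∞`). -/
lemma eq_zero_of_deriv_neg (u : Tm →ᵇ V) {y : ℝ} (hy : 0 < y)
    (h : ∀ t : ℝ, t < 0 → HasDerivAt (xt u) (-(y • xt u t)) t) : u = 0 := by
  have h' : ∀ t : ℝ, t < 0 → HasDerivAt (xt u) ((-y) • xt u t) t := by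
    intro t ht
    rw [neg_smul]
    exact h t ht
  have hv : Continuous (fun s : ℝ => Real.exp (-(-y * s)) • xt u s) :=
    (by fun_prop : Continuous (fun s : ℝ => Real.exp (-(-y * s)))).smul (SolU_continuous_xt u)
  apply BoundedContinuousFunction.ext
  intro t
  have hbd : ∀ a : ℝ, a ≤ t → ‖Real.exp (-(-y * (t : ℝ))) • xt u (t : ℝ)‖ ≤
      Real.exp (y * a) * ‖u‖ := by
    intro a ha
    rw [SolU_const hv (SolU_deriv h') ha t.2, norm_smul, Real.norm_of_nonneg (Real.exp_pos _).le]
    have e1 : -(-y * a) = y * a := by ring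
    rw [e1]
    exact mul_le_mul_of_nonneg_left (u.norm_coe_le_norm _) (Real.exp_pos _).le
  have hlim : Filter.Tendsto (fun a : ℝ => Real.exp (y * a) * ‖u‖) Filter.atBot (nhds 0) := by
    have h1 : Filter.Tendsto (fun a : ℝ => y * a) Filter.atBot Filter.atBot :=
      Filter.tendsto_id.const_mul_atBot hy
    have h2 := (Real.tendsto_exp_atBot.comp h1).mul_const ‖u‖
    rw [zero_mul] at h2
    exact h2
  have h0 : ‖Real.exp (-(-y * (t : ℝ))) • xt u (t : ℝ)‖ ≤ 0 :=
    ge_of_tendsto hlim ((Filter.eventually_le_atBot (t : ℝ)).mono hbd)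
  have h1 := norm_le_zero_iff.1 h0
  rw [smul_eq_zero] at h1
  rcases h1 with h1 | h1
  · exact absurd h1 (Real.exp_pos _).ne'
  · rw [SolU_xt_apply] at h1
    exact h1

/-- A solution of `u' = x u` which vanishes at `0` is zero. -/
lemma eq_zero_of_deriv_pos (u : Tm →ᵇ V) {x : ℝ}
    (h : ∀ t : ℝ, t < 0 → HasDerivAt (xt u) (x • xt u t) t) (h0 : u t0 = 0) : u = 0 := by
  have hv : Continuous (fun s : ℝ => Real.exp (-(x * s)) • xt u s) :=
    (by fun_prop : Continuous (fun s : ℝ => Real.exp (-(x * s)))).smul (SolU_continuous_xt u)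
  apply BoundedContinuousFunction.ext
  intro t
  have h1 := SolU_const hv (SolU_deriv h) t.2 (le_refl (0 : ℝ))
  have h2 : xt u (0 : ℝ) = 0 := by
    rw [← h0]
    exact SolU_xt_apply u t0
  simp only [h2, smul_zero] at h1
  have h3 := (smul_eq_zero.1 h1.symm).resolve_left (Real.exp_pos _).ne'
  rw [SolU_xt_apply] at h3
  exact h3

lemma IsSol.sub {l : ℕ} {δ : ℝ} {e f a a1 b e' f' a' a1' b' : Tm →ᵇ V}
    (h : IsSol l δ e f a a1 b) (h' : IsSol l δ e' f' a' a1' b') :
    IsSol l δ (e - e') (f - f') (a - a') (a1 - a1') (b - b') := by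
  refine ⟨fun t ht => ?_, fun t ht => ?_, fun t => ?_⟩
  · exact (h.da t ht).sub (h'.da t ht)
  · refine ((h.db t ht).sub (h'.db t ht)).congr_deriv ?_
    show _ = -((5 : ℝ) • (xt b t - xt b' t)) + ((l : ℝ) * (l + 3)) • (xt a t - xt a' t) -
      (((l : ℝ) + 3) * vp δ t) • (xt f t - xt f' t)
    simp only [smul_sub]
    abel
  · show a1 t - a1' t = -((1 + 1 / (1 - δ)) • (a t - a' t)) +
      (1 / (1 - δ)) • (b t - b' t - vp δ t • (e t - e' t))
    rw [h.eq t, h'.eq t]
    simp only [smul_sub]
    abel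

/-- the combination `λ a + (x + 1 + q) b` of a homogeneous solution, `x` a root -/
lemma SolU_comb {l : ℕ} {δ : ℝ} {A A1 B : Tm →ᵇ V} (h : IsSol l δ 0 0 A A1 B) (x : ℝ)
    (hx : x ^ 2 + (6 + 1 / (1 - δ)) * x + 5 * (1 + 1 / (1 - δ)) -
      1 / (1 - δ) * ((l : ℝ) * (l + 3)) = 0) (t : ℝ) (ht : t < 0) :
    HasDerivAt (xt (((l : ℝ) * (l + 3)) • A + (x + 1 + 1 / (1 - δ)) • B))
      (x • xt (((l : ℝ) * (l + 3)) • A + (x + 1 + 1 / (1 - δ)) • B) t) t := by
  have h1 : HasDerivAt (xt (((l : ℝ) * (l + 3)) • A + (x + 1 + 1 / (1 - δ)) • B)) _ t :=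
    ((h.da t ht).const_smul ((l : ℝ) * (l + 3))).add
      ((h.db t ht).const_smul (x + 1 + 1 / (1 - δ)))
  refine h1.congr_deriv ?_
  have e1 : xt A1 t = -((1 + 1 / (1 - δ)) • xt A t) + (1 / (1 - δ)) • (xt B t) := by
    have h2 := h.eq ⟨min t 0, Set.mem_Iic.mpr (min_le_right t 0)⟩
    simp only [BoundedContinuousFunction.coe_zero, Pi.zero_apply, smul_zero, sub_zero] at h2
    exact h2
  have e2 : xt (0 : Tm →ᵇ V) t = 0 := rfl
  have e3 : xt (((l : ℝ) * (l + 3)) • A + (x + 1 + 1 / (1 - δ)) • B) t =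
      ((l : ℝ) * (l + 3)) • xt A t + (x + 1 + 1 / (1 - δ)) • xt B t := rfl
  rw [e1, e2, e3]
  set q : ℝ := 1 / (1 - δ) with hq
  set L : ℝ := (l : ℝ) * (l + 3) with hL
  generalize xt A t = α
  generalize xt B t = β
  have hx' : q * L = x ^ 2 + (6 + q) * x + 5 * (1 + q) := by linarith
  have e4 : L • (-((1 + q) • α) + q • β) +
      (x + 1 + q) • (-((5 : ℝ) • β) + L • α - (((l : ℝ) + 3) * vp δ t) • (0 : V)) =
      (x * L) • α + (q * L - 5 * (x + 1 + q)) • β := by
    module
  rw [e4, hx']
  module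

/-- Uniqueness of bounded solutions (homogeneous system: `w± = λ a + (x±+1+q) b` satisfy
`w±' = x± w±`; `l ≥ 2`: `w⁻ = 0`, and the condition at `0` gives `w⁺(0) = 0`; `l = 1`: `x⁺ = -1`;
`l = 0`: `b' = -5 b`, then `a' = -(1+q) a`). -/
theorem IsSol.unique {l : ℕ} {δ : ℝ} (hδ : 0 < δ) (hδ1 : δ < 1 / 10)
    {e f a a1 b a' a1' b' : Tm →ᵇ V}
    (h : IsSol l δ e f a a1 b) (h' : IsSol l δ e f a' a1' b')
    (h2 : 2 ≤ l → a1 t0 + a t0 = a1' t0 + a' t0) : a = a' ∧ a1 = a1' ∧ b = b' := by
  have hd : IsSol l δ (0 : Tm →ᵇ V) 0 (a - a') (a1 - a1') (b - b') := by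
    have := h.sub h'
    rwa [sub_self, sub_self] at this
  have hq1 : (1 : ℝ) < 1 / (1 - δ) := by
    rw [lt_div_iff₀ (by linarith)]
    linarith
  have hq2 : 1 / (1 - δ) ≤ 10 / 9 := by
    rw [div_le_div_iff₀ (by linarith) (by norm_num)]
    linarith
  -- it is enough to show that `A = B = 0`
  have key : a - a' = 0 ∧ b - b' = 0 := by
    rcases Nat.eq_zero_or_pos l with hl0 | hl
    · -- degree zero
      subst hl0
      have hB : b - b' = 0 := by
        refine eq_zero_of_deriv_neg (b - b') (y := 5) (by norm_num) (fun t ht => ?_)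
        refine (hd.db t ht).congr_deriv ?_
        have e2 : xt (0 : Tm →ᵇ V) t = 0 := rfl
        rw [e2]
        simp
      refine ⟨?_, hB⟩
      refine eq_zero_of_deriv_neg (a - a') (y := 1 + 1 / (1 - δ)) (by linarith) (fun t ht => ?_)
      refine (hd.da t ht).congr_deriv ?_
      have h3 := hd.eq ⟨min t 0, Set.mem_Iic.mpr (min_le_right t 0)⟩
      rw [hB] at h3
      simp only [BoundedContinuousFunction.coe_zero, Pi.zero_apply, smul_zero, sub_zero,
        add_zero] at h3
      exact h3
    · -- degree at least one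
      have hlr : (1 : ℝ) ≤ l := by exact_mod_cast hl
      have hLpos : (0 : ℝ) < (l : ℝ) * (l + 3) := by positivity
      set q : ℝ := 1 / (1 - δ) with hq
      have hwm : ((l : ℝ) * (l + 3)) • (a - a') + (xm l q + 1 + q) • (b - b') = 0 := by
        refine eq_zero_of_deriv_neg _ (y := -xm l q) ?_ (fun t ht => ?_)
        · have := xm_le l hq1.le hq2 hl
          linarith
        · refine (SolU_comb hd (xm l q) (xm_root l hq1.le) t ht).congr_deriv ?_
          rw [neg_smul, neg_neg]
      have hwp : ((l : ℝ) * (l + 3)) • (a - a') + (xp l q + 1 + q) • (b - b') = 0 := by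
        rcases Nat.lt_or_ge l 2 with hl1 | hl2
        · have hl1' : l = 1 := by omega
          subst hl1'
          have hS : SS 1 q = q + 4 := by
            unfold SS
            have : (q - 4) ^ 2 + 4 * q * (((1 : ℕ) : ℝ) * (((1 : ℕ) : ℝ) + 3)) = (q + 4) ^ 2 := by
              push_cast
              ring
            rw [this, Real.sqrt_sq (by linarith)]
          have hxp : xp 1 q = -1 := by
            unfold xp
            rw [hS]
            ring
          refine eq_zero_of_deriv_neg _ (y := 1) one_pos (fun t ht => ?_)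
          refine (SolU_comb hd (xp 1 q) (xp_root 1 hq1.le) t ht).congr_deriv ?_
          rw [hxp]
          module
        · refine eq_zero_of_deriv_pos _ (x := xp l q)
            (fun t ht => SolU_comb hd (xp l q) (xp_root l hq1.le) t ht) ?_
          -- the boundary condition
          have h3 : (a1 - a1') t0 + (a - a') t0 = 0 := by
            have := h2 hl2
            show a1 t0 - a1' t0 + (a t0 - a' t0) = 0
            have h4 : a1 t0 - a1' t0 + (a t0 - a' t0) = (a1 t0 + a t0) - (a1' t0 + a' t0) := by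
              abel
            rw [h4, this, sub_self]
          have h4 := hd.eq t0
          simp only [BoundedContinuousFunction.coe_zero, Pi.zero_apply, smul_zero, sub_zero] at h4
          rw [h4] at h3
          have h5 : ((l : ℝ) * (l + 3)) • (a - a') t0 + (xm l q + 1 + q) • (b - b') t0 = 0 := by
            have := congrArg (fun u : Tm →ᵇ V => u t0) hwm
            exact this
          show ((l : ℝ) * (l + 3)) • (a - a') t0 + (xp l q + 1 + q) • (b - b') t0 = 0
          revert h3 h5
          generalize (a - a') t0 = α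
          generalize (b - b') t0 = β
          intro h3 h5
          have hαβ : β = α := by
            have h6 : q • (β - α) = 0 := by
              rw [← h3]
              module
            have h7 := (smul_eq_zero.1 h6).resolve_left (by linarith)
            exact sub_eq_zero.1 h7
          subst hαβ
          have h8 : ((l : ℝ) * (l + 3) + xm l q + 1 + q) • β = 0 := by
            rw [← h5]
            module
          have hden := denom_ge l hq1.le hq2 hl2
          have h9 := (smul_eq_zero.1 h8).resolve_left (by nlinarith)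
          rw [h9]
          simp
      have hSS := SS_ge l hq1.le hq2 hl
      have hB : b - b' = 0 := by
        have h3 : (SS l q) • (b - b') = 0 := by
          rw [← xp_sub_xm]
          have h4 : (xp l q - xm l q) • (b - b') =
              (((l : ℝ) * (l + 3)) • (a - a') + (xp l q + 1 + q) • (b - b')) -
              (((l : ℝ) * (l + 3)) • (a - a') + (xm l q + 1 + q) • (b - b')) := by
            module
          rw [h4, hwp, hwm, sub_self]
        exact (smul_eq_zero.1 h3).resolve_left (by linarith)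
      refine ⟨?_, hB⟩
      rw [hB, smul_zero, add_zero] at hwp
      exact (smul_eq_zero.1 hwp).resolve_left hLpos.ne'
  obtain ⟨hA, hB⟩ := key
  refine ⟨sub_eq_zero.1 hA, ?_, sub_eq_zero.1 hB⟩
  apply BoundedContinuousFunction.ext
  intro t
  rw [h.eq t, h'.eq t, sub_eq_zero.1 hA, sub_eq_zero.1 hB]

end
end OD16
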