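import Pool.Agent.LibOD16.SolW1
import Pool.Agent.LibOD16.SolU
import Pool.Agent.LibOD16.Ord0

set_option autoImplicit false
namespace OD16
open MvPolynomial MeasureTheory Metric
open scoped BoundedContinuousFunction
noncomputable section

/-- The sources `(e', E', R', g)`. -/
abbrev SI := WA × (Fin 5 → WA) × WA × WA

/-- The component of degree `l` of the divergence of `E`. -/
def Dv (E : Fin 5 → WA) : (l : ℕ) → Tm → V l
  | 0, _ => 0
  | (l + 1), t => ((l : ℝ) + 1) • ∑ i, dn i (l + 1) ((E i).c (l + 2) t)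
      - ((l : ℝ) + 4) • ∑ i, up i l ((E i).c l t)

/-- `(x, b, Λ)`, `x = (ν, j0, j1, J)`, solves the linearised problem with sources `p`. -/
structure LinSol (δ : ℝ) (p : SI) (x : XS) (b : WA) (Λ : V 1) : Prop where
  dj : ∀ (l : ℕ) (t : ℝ), t < 0 → HasDerivAt (xt (x.2.1.c l)) (xt (x.2.2.1.c l) t) t
  J_zero : ∀ (i : Fin 5) (t : Tm), (x.2.2.2 i).c 0 t = (4 : ℝ) • dn i 0 (x.2.1.c 1 t)
  J_succ : ∀ (i : Fin 5) (l : ℕ) (t : Tm), (x.2.2.2 i).c (l + 1) t =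
    ((l : ℝ) + 5) • dn i (l + 1) (x.2.1.c (l + 2) t) - (l : ℝ) • up i l (x.2.1.c l t)
  eq : ∀ (l : ℕ) (t : Tm), x.2.2.1.c l t = -((1 + 1 / (1 - δ)) • x.2.1.c l t) +
    (1 / (1 - δ)) • (b.c l t - vp δ t • p.1.c l t)
  db : ∀ (l : ℕ) (t : ℝ), t < 0 → HasDerivAt (xt (b.c l))
    (-((5 : ℝ) • xt (b.c l) t) + ((l : ℝ) * (l + 3)) • xt (x.2.1.c l) t
      - vp δ t • (xt (Dv p.2.1 l) t + xt (p.2.2.1.c l) t)) t
  bc2 : ∀ l, 2 ≤ l → x.2.2.1.c l t0 + x.2.1.c l t0 = p.2.2.2.c l t0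
  bc1 : x.2.2.1.c 1 t0 + x.2.1.c 1 t0 = p.2.2.2.c 1 t0 + Λ
  bc0 : x.2.2.1.c 0 t0 + x.2.1.c 0 t0 = p.2.2.2.c 0 t0 + x.1 • c0

/-- The values at `0` of the component of degree `l`, as a continuous linear map. -/
def cz (l : ℕ) : WA →L[ℝ] V l :=
  LinearMap.mkContinuous
    { toFun := fun F => F.c l t0
      map_add' := fun F G => rfl
      map_smul' := fun a F => rfl } 1 (by
      intro F
      rw [one_mul]
      exact ((F.c l).norm_coe_le_norm t0).trans (F.norm_c_le l))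

@[simp] lemma cz_apply (l : ℕ) (F : WA) : cz l F = F.c l t0 := rfl

lemma norm_cz_le (l : ℕ) (F : WA) : ‖F.c l t0‖ ≤ ‖F‖ :=
  ((F.c l).norm_coe_le_norm t0).trans (F.norm_c_le l)

/-- The value of an element of `V 0`. -/
def ev0 : V 0 →L[ℝ] ℝ := LinearMap.toContinuousLinearMap (V.evL 0 0)

lemma ev0_spec (P : V 0) : P = ev0 P • c0 := V0_eq P

lemma c_sum {ι : Type*} (s : Finset ι) (F : ι → WA) (l : ℕ) (t : Tm) :
    (∑ i ∈ s, F i).c l t = ∑ i ∈ s, (F i).c l t := by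
  classical
  induction s using Finset.induction_on with
  | empty => simp
  | insert a s ha ih =>
    rw [Finset.sum_insert ha, Finset.sum_insert ha, WA.c_add, BoundedContinuousFunction.add_apply, ih]

lemma abs_frac1 (l : ℕ) : |(l : ℝ) / ((l : ℝ) + 3)| ≤ 1 := by
  rw [abs_of_nonneg (by positivity)]
  rw [div_le_one (by positivity)]
  linarith

lemma abs_frac2 (l : ℕ) : |1 / ((l : ℝ) + 3)| ≤ 1 := by
  rw [abs_of_nonneg (by positivity)]
  rw [div_le_one (by positivity)]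
  have : (0 : ℝ) ≤ l := Nat.cast_nonneg l
  linarith

/-- The source `(D(E) + R) / (l + 3)` as a continuous linear map. -/
theorem exists_FL : ∃ FL : SI →L[ℝ] WA,
    (∀ (p : SI) (l : ℕ) (t : Tm),
      ((l : ℝ) + 3) • (FL p).c l t = Dv p.2.1 l t + p.2.2.1.c l t) ∧
    ∀ p, ‖FL p‖ ≤ 86 * ‖p‖ := by
  obtain ⟨M1, hM1, nM1⟩ := WA.exists_mult (fun l => (l : ℝ) / ((l : ℝ) + 3)) abs_frac1
  obtain ⟨M2, hM2, nM2⟩ := WA.exists_mult (fun l => 1 / ((l : ℝ) + 3)) abs_frac2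
  choose Dn hDn nDn using WA.exists_DnW
  choose Up hUp0 hUp nUp using WA.exists_UpW
  let pE : Fin 5 → SI →L[ℝ] WA := fun i =>
    (ContinuousLinearMap.proj i).comp ((ContinuousLinearMap.fst ℝ (Fin 5 → WA) (WA × WA)).comp
      (ContinuousLinearMap.snd ℝ WA ((Fin 5 → WA) × WA × WA)))
  let pR : SI →L[ℝ] WA :=
    (ContinuousLinearMap.fst ℝ WA WA).comp ((ContinuousLinearMap.snd ℝ (Fin 5 → WA) (WA × WA)).comp
      (ContinuousLinearMap.snd ℝ WA ((Fin 5 → WA) × WA × WA)))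
  have hpE : ∀ i p, pE i p = p.2.1 i := fun i p => rfl
  have hpR : ∀ p, pR p = p.2.2.1 := fun p => rfl
  refine ⟨M1.comp (∑ i, (Dn i).comp (pE i)) - ∑ i, (Up i).comp (pE i) + M2.comp pR, ?_, ?_⟩
  · intro p l t
    have h1 : (M1.comp (∑ i, (Dn i).comp (pE i)) - ∑ i, (Up i).comp (pE i) + M2.comp pR) p
        = M1 (∑ i, Dn i (p.2.1 i)) - ∑ i, Up i (p.2.1 i) + M2 p.2.2.1 := by
      simp only [add_apply, sub_apply,
        ContinuousLinearMap.comp_apply, sum_apply, hpE, hpR]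
    rw [h1]
    have hl3 : ((l : ℝ) + 3) ≠ 0 := by positivity
    have h2 : (M1 (∑ i, Dn i (p.2.1 i)) - ∑ i, Up i (p.2.1 i) + M2 p.2.2.1).c l t
        = ((l : ℝ) / ((l : ℝ) + 3)) • (∑ i, dn i l ((p.2.1 i).c (l + 1) t))
          - (∑ i, (Up i (p.2.1 i)).c l t) + (1 / ((l : ℝ) + 3)) • p.2.2.1.c l t := by
      rw [WA.c_add, WA.c_sub, hM1, hM2]
      simp only [BoundedContinuousFunction.add_apply, BoundedContinuousFunction.sub_apply,
        BoundedContinuousFunction.smul_apply, c_sum, hDn]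
    rw [h2]
    cases l with
    | zero =>
      have h3 : (∑ i, (Up i (p.2.1 i)).c 0 t) = 0 := by
        apply Finset.sum_eq_zero
        intro i _
        rw [hUp0]
        rfl
      rw [h3]
      simp only [Dv, CharP.cast_eq_zero, zero_add, zero_div, zero_smul, sub_zero, smul_smul]
      norm_num
    | succ l =>
      have h3 : (∑ i, (Up i (p.2.1 i)).c (l + 1) t) = ∑ i, up i l ((p.2.1 i).c l t) := by
        apply Finset.sum_congr rfl
        intro i _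
        rw [hUp]
      rw [h3]
      simp only [Dv]
      rw [smul_add, smul_sub, smul_smul, smul_smul]
      have e1 : (((l + 1 : ℕ) : ℝ) + 3) * (((l + 1 : ℕ) : ℝ) / (((l + 1 : ℕ) : ℝ) + 3))
          = (l : ℝ) + 1 := by
        field_simp
        push_cast
        ring
      have e2 : (((l + 1 : ℕ) : ℝ) + 3) * (1 / (((l + 1 : ℕ) : ℝ) + 3)) = 1 := by
        field_simp
      have e3 : ((l + 1 : ℕ) : ℝ) + 3 = (l : ℝ) + 4 := by push_cast; ring
      rw [e1, e2, e3, one_smul]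
  · intro p
    have hE : ∀ i, ‖p.2.1 i‖ ≤ ‖p‖ := fun i =>
      (norm_le_pi_norm p.2.1 i).trans ((norm_fst_le p.2).trans (norm_snd_le p))
    have hR : ‖p.2.2.1‖ ≤ ‖p‖ := (norm_fst_le p.2.2).trans ((norm_snd_le p.2).trans (norm_snd_le p))
    have h1 : (M1.comp (∑ i, (Dn i).comp (pE i)) - ∑ i, (Up i).comp (pE i) + M2.comp pR) p
        = M1 (∑ i, Dn i (p.2.1 i)) - ∑ i, Up i (p.2.1 i) + M2 p.2.2.1 := by
      simp only [add_apply, sub_apply,
        ContinuousLinearMap.comp_apply, sum_apply, hpE, hpR]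
    rw [h1]
    have n1 : ‖M1 (∑ i, Dn i (p.2.1 i))‖ ≤ 5 * ‖p‖ := by
      refine (nM1 _).trans ((norm_sum_le _ _).trans ?_)
      calc ∑ i, ‖Dn i (p.2.1 i)‖ ≤ ∑ _i : Fin 5, ‖p‖ :=
            Finset.sum_le_sum fun i _ => (nDn i _).trans (hE i)
        _ = 5 * ‖p‖ := by simp
    have n2 : ‖∑ i, Up i (p.2.1 i)‖ ≤ 80 * ‖p‖ := by
      refine (norm_sum_le _ _).trans ?_
      calc ∑ i, ‖Up i (p.2.1 i)‖ ≤ ∑ _i : Fin 5, 16 * ‖p‖ :=
            Finset.sum_le_sum fun i _ => (nUp i _).trans (by linarith [hE i])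
        _ = 80 * ‖p‖ := by simp; ring
    have n3 : ‖M2 p.2.2.1‖ ≤ ‖p‖ := (nM2 _).trans hR
    calc ‖M1 (∑ i, Dn i (p.2.1 i)) - ∑ i, Up i (p.2.1 i) + M2 p.2.2.1‖
        ≤ ‖M1 (∑ i, Dn i (p.2.1 i)) - ∑ i, Up i (p.2.1 i)‖ + ‖M2 p.2.2.1‖ := norm_add_le _ _
      _ ≤ (‖M1 (∑ i, Dn i (p.2.1 i))‖ + ‖∑ i, Up i (p.2.1 i)‖) + ‖M2 p.2.2.1‖ := by
          gcongr
          exact norm_sub_le _ _
      _ ≤ 86 * ‖p‖ := by linarith

/-- The solver in every degree. -/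
theorem exists_sol_all {δ : ℝ} (hδ : 0 < δ) (hδ1 : δ < 1 / 10) (l : ℕ) :
    ∃ Sa Sa1 Sb : ((Tm →ᵇ V l) × (Tm →ᵇ V l) × V l) →ₗ[ℝ] (Tm →ᵇ V l),
      ∀ (e f : Tm →ᵇ V l) (g : V l),
        IsSol l δ e f (Sa (e, f, g)) (Sa1 (e, f, g)) (Sb (e, f, g)) ∧
        (2 ≤ l → Sa1 (e, f, g) t0 + Sa (e, f, g) t0 = g) ∧
        ((l : ℝ) + 3) * ‖Sa (e, f, g)‖ ≤ 100 * (‖e‖ + ‖f‖ + ‖g‖) ∧
        ‖Sa1 (e, f, g)‖ ≤ 100 * (‖e‖ + ‖f‖ + ‖g‖) ∧
        ‖Sb (e, f, g)‖ ≤ 100 * (‖e‖ + ‖f‖ + ‖g‖) := by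
  rcases Nat.lt_or_ge l 2 with hl | hl
  · have hl' : l = 0 ∨ l = 1 := by omega
    rcases hl' with rfl | rfl
    · obtain ⟨Sa, Sa1, Sb, h⟩ := exists_sol_zero (V := V 0) hδ hδ1
      refine ⟨Sa, Sa1, Sb, fun e f g => ?_⟩
      obtain ⟨h1, h2, h3, h4⟩ := h e f g
      refine ⟨h1, fun h => by omega, ?_, h3, h4⟩
      simpa using h2
    · obtain ⟨Sa, Sa1, Sb, h⟩ := exists_sol_one (V := V 1) hδ hδ1
      refine ⟨Sa, Sa1, Sb, fun e f g => ?_⟩
      obtain ⟨h1, h2, h3, h4⟩ := h e f g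
      refine ⟨h1, fun h => by omega, ?_, h3, h4⟩
      have : ((1 : ℕ) : ℝ) + 3 = 4 := by norm_num
      rw [this]
      exact h2
  · obtain ⟨Sa, Sa1, Sb, h⟩ := exists_sol_ge_two (V := V l) l hl hδ hδ1
    refine ⟨Sa, Sa1, Sb, fun e f g => ?_⟩
    obtain ⟨h1, h2, h3, h4, h5⟩ := h e f g
    exact ⟨h1, fun _ => h2, h3, h4, h5⟩

/-- The three operators on `WA`. -/
theorem exists_core {δ : ℝ} (hδ : 0 < δ) (hδ1 : δ < 1 / 10) :
    ∃ A A1 B : (WA × WA × WA) →L[ℝ] WA,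
      ∀ (e f g : WA),
        (∀ l, IsSol l δ (e.c l) (f.c l) ((1 / ((l : ℝ) + 3)) • (A (e, f, g)).c l)
          ((A1 (e, f, g)).c l) ((B (e, f, g)).c l)) ∧
        (∀ l, 2 ≤ l → (A1 (e, f, g)).c l t0 + (1 / ((l : ℝ) + 3)) • (A (e, f, g)).c l t0
          = g.c l t0) ∧
        ‖A (e, f, g)‖ ≤ 100 * (‖e‖ + ‖f‖ + ‖g‖) ∧
        ‖A1 (e, f, g)‖ ≤ 100 * (‖e‖ + ‖f‖ + ‖g‖) ∧
        ‖B (e, f, g)‖ ≤ 100 * (‖e‖ + ‖f‖ + ‖g‖) := by
  choose Sa Sa1 Sb hS using exists_sol_all hδ hδ1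
  obtain ⟨A, hA, nA⟩ := WA.exists_diag (fun l => ((l : ℝ) + 3) • Sa l) 100 (by
    intro l e f g
    rw [LinearMap.smul_apply, norm_smul, Real.norm_of_nonneg (by positivity)]
    exact (hS l e f g).2.2.1)
  obtain ⟨A1, hA1, nA1⟩ := WA.exists_diag Sa1 100 (fun l e f g => (hS l e f g).2.2.2.1)
  obtain ⟨B, hB, nB⟩ := WA.exists_diag Sb 100 (fun l e f g => (hS l e f g).2.2.2.2)
  refine ⟨A, A1, B, fun e f g => ⟨fun l => ?_, fun l hl => ?_, nA e f g, nA1 e f g, nB e f g⟩⟩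
  · have h1 : (1 / ((l : ℝ) + 3)) • (A (e, f, g)).c l = Sa l (e.c l, f.c l, g.c l t0) := by
      rw [hA, LinearMap.smul_apply, smul_smul, one_div_mul_cancel (by positivity), one_smul]
    rw [h1, hA1, hB]
    exact (hS l _ _ _).1
  · have h1 : (1 / ((l : ℝ) + 3)) • (A (e, f, g)).c l = Sa l (e.c l, f.c l, g.c l t0) := by
      rw [hA, LinearMap.smul_apply, smul_smul, one_div_mul_cancel (by positivity), one_smul]
    have h2 : (1 / ((l : ℝ) + 3)) • (A (e, f, g)).c l t0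
        = Sa l (e.c l, f.c l, g.c l t0) t0 := by
      rw [← h1]
      rfl
    rw [h2, hA1]
    exact (hS l _ _ _).2.1 hl

/-- TASK SolW2.  The linear solver: apply `exists_sol_ge_two`, `exists_sol_one`, `exists_sol_zero`
in degree `l` to `e_l`, `f_l = (D_l(E) + R_l)/(l+3)
= l/(l+3) ∑ dn_i E_(i,l+1) - ∑ up_i E_(i,l-1) + R_l/(l+3)`, `g_l(0)`; assemble by `exists_diag`
(use `(l+3) a_l`), `exists_mult`, `exists_DnW`, `exists_UpW`. -/
theorem exists_solver : ∃ C : ℝ, 0 < C ∧ ∀ δ : ℝ, 0 < δ → δ < 1 / 10 →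
    ∃ (S : SI →L[ℝ] XS) (Bs : SI →L[ℝ] WA) (La : SI →L[ℝ] V 1),
      (∀ p, ‖S p‖ ≤ C * ‖p‖) ∧ (∀ p, ‖La p‖ ≤ C * ‖p‖) ∧
      ∀ p, LinSol δ p (S p) (Bs p) (La p) := by
  obtain ⟨FL, hFL, nFL⟩ := exists_FL
  obtain ⟨M1, hM1, nM1⟩ := WA.exists_mult (fun l => (l : ℝ) / ((l : ℝ) + 3)) abs_frac1
  obtain ⟨M2, hM2, nM2⟩ := WA.exists_mult (fun l => 1 / ((l : ℝ) + 3)) abs_frac2
  choose Dn hDn nDn using WA.exists_DnW
  choose Up hUp0 hUp nUp using WA.exists_UpW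
  refine ⟨200000 * (1 + ‖ev0‖), by positivity, fun δ hδ hδ1 => ?_⟩
  obtain ⟨A', A1', B', hcore⟩ := exists_core hδ hδ1
  let pe : SI →L[ℝ] WA := ContinuousLinearMap.fst ℝ WA ((Fin 5 → WA) × WA × WA)
  let pg : SI →L[ℝ] WA :=
    (ContinuousLinearMap.snd ℝ WA WA).comp ((ContinuousLinearMap.snd ℝ (Fin 5 → WA) (WA × WA)).comp
      (ContinuousLinearMap.snd ℝ WA ((Fin 5 → WA) × WA × WA)))
  let Src : SI →L[ℝ] WA × WA × WA := pe.prod (FL.prod pg)
  have hSrc : ∀ p, Src p = (p.1, FL p, p.2.2.2) := fun p => rfl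
  let A : SI →L[ℝ] WA := A'.comp Src
  let A1 : SI →L[ℝ] WA := A1'.comp Src
  let B : SI →L[ℝ] WA := B'.comp Src
  let a : SI →L[ℝ] WA := M2.comp A
  let J : SI →L[ℝ] (Fin 5 → WA) :=
    ContinuousLinearMap.pi (fun i => (Dn i).comp A - (Up i).comp (M1.comp A))
  let La : SI →L[ℝ] V 1 := (cz 1).comp A1 + (cz 1).comp a - (cz 1).comp pg
  let L0 : SI →L[ℝ] V 0 := (cz 0).comp A1 + (cz 0).comp a - (cz 0).comp pg
  let nu : SI →L[ℝ] ℝ := ev0.comp L0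
  have hA : ∀ p, A p = A' (p.1, FL p, p.2.2.2) := fun p => rfl
  have hA1 : ∀ p, A1 p = A1' (p.1, FL p, p.2.2.2) := fun p => rfl
  have hB : ∀ p, B p = B' (p.1, FL p, p.2.2.2) := fun p => rfl
  have ha : ∀ p, a p = M2 (A p) := fun p => rfl
  have hJ : ∀ p i, J p i = Dn i (A p) - Up i (M1 (A p)) := fun p i => rfl
  have hLa : ∀ p, La p = (A1 p).c 1 t0 + (a p).c 1 t0 - p.2.2.2.c 1 t0 := fun p => rfl
  have hL0 : ∀ p, L0 p = (A1 p).c 0 t0 + (a p).c 0 t0 - p.2.2.2.c 0 t0 := fun p => rfl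
  have hnu : ∀ p, nu p = ev0 (L0 p) := fun p => rfl
  -- bounds
  have ne : ∀ p : SI, ‖p.1‖ ≤ ‖p‖ := fun p => norm_fst_le p
  have ng : ∀ p : SI, ‖p.2.2.2‖ ≤ ‖p‖ := fun p =>
    (norm_snd_le p.2.2).trans ((norm_snd_le p.2).trans (norm_snd_le p))
  have nA : ∀ p, ‖A p‖ ≤ 8800 * ‖p‖ := by
    intro p
    rw [hA]
    refine ((hcore _ _ _).2.2.1).trans ?_
    linarith [ne p, ng p, nFL p]
  have nA1 : ∀ p, ‖A1 p‖ ≤ 8800 * ‖p‖ := by
    intro p
    rw [hA1]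
    refine ((hcore _ _ _).2.2.2.1).trans ?_
    linarith [ne p, ng p, nFL p]
  have na : ∀ p, ‖a p‖ ≤ 8800 * ‖p‖ := fun p => (nM2 _).trans (nA p)
  have nJ : ∀ p, ‖J p‖ ≤ 200000 * ‖p‖ := by
    intro p
    rw [pi_norm_le_iff_of_nonneg (by positivity)]
    intro i
    rw [hJ]
    refine (norm_sub_le _ _).trans ?_
    have h1 := nDn i (A p)
    have h2 := nUp i (M1 (A p))
    have h3 := nM1 (A p)
    have h4 := nA p
    have h5 := norm_nonneg p
    linarith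
  have nLa : ∀ p, ‖La p‖ ≤ 17601 * ‖p‖ := by
    intro p
    rw [hLa]
    refine (norm_sub_le _ _).trans ?_
    have h1 := norm_add_le ((A1 p).c 1 t0) ((a p).c 1 t0)
    have h2 := norm_cz_le 1 (A1 p)
    have h3 := norm_cz_le 1 (a p)
    have h4 := norm_cz_le 1 p.2.2.2
    linarith [nA1 p, na p, ng p]
  have nL0 : ∀ p, ‖L0 p‖ ≤ 17601 * ‖p‖ := by
    intro p
    rw [hL0]
    refine (norm_sub_le _ _).trans ?_
    have h1 := norm_add_le ((A1 p).c 0 t0) ((a p).c 0 t0)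
    have h2 := norm_cz_le 0 (A1 p)
    have h3 := norm_cz_le 0 (a p)
    have h4 := norm_cz_le 0 p.2.2.2
    linarith [nA1 p, na p, ng p]
  have nnu : ∀ p, ‖nu p‖ ≤ 17601 * ‖ev0‖ * ‖p‖ := by
    intro p
    rw [hnu]
    refine (ev0.le_opNorm _).trans ?_
    have := mul_le_mul_of_nonneg_left (nL0 p) (norm_nonneg ev0)
    linarith
  have acomp : ∀ p l, (a p).c l = (1 / ((l : ℝ) + 3)) • (A p).c l := by
    intro p l
    rw [ha, hM2]
  have acomp' : ∀ p l t, (A p).c l t = ((l : ℝ) + 3) • (a p).c l t := by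
    intro p l t
    rw [acomp, BoundedContinuousFunction.smul_apply, smul_smul, mul_one_div_cancel (by positivity),
      one_smul]
  have hsol : ∀ p l, IsSol l δ (p.1.c l) ((FL p).c l) ((a p).c l) ((A1 p).c l) ((B p).c l) := by
    intro p l
    rw [acomp]
    exact (hcore _ _ _).1 l
  refine ⟨nu.prod (a.prod (A1.prod J)), B, La, ?_, ?_, ?_⟩
  · intro p
    have hnn := norm_nonneg p
    have he := norm_nonneg ev0
    have hen : 0 ≤ ‖ev0‖ * ‖p‖ := mul_nonneg he hnn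
    show ‖(nu p, a p, A1 p, J p)‖ ≤ _
    rw [Prod.norm_def, Prod.norm_def, Prod.norm_def]
    refine max_le ?_ (max_le ?_ (max_le ?_ ?_))
    · have := nnu p
      show ‖nu p‖ ≤ _
      nlinarith
    · have := na p
      show ‖a p‖ ≤ _
      nlinarith
    · have := nA1 p
      show ‖A1 p‖ ≤ _
      nlinarith
    · have := nJ p
      show ‖J p‖ ≤ _
      nlinarith
  · intro p
    have hnn := norm_nonneg p
    have he := norm_nonneg ev0
    have hen : 0 ≤ ‖ev0‖ * ‖p‖ := mul_nonneg he hnn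
    have := nLa p
    nlinarith
  · intro p
    show LinSol δ p (nu p, a p, A1 p, J p) (B p) (La p)
    refine ⟨fun l t ht => (hsol p l).da t ht, ?_, ?_, fun l t => (hsol p l).eq t, ?_, ?_, ?_, ?_⟩
    · intro i t
      show (J p i).c 0 t = _
      rw [hJ, WA.c_sub, BoundedContinuousFunction.sub_apply, hDn, hUp0]
      rw [acomp' p (0 + 1) t, map_smul]
      show _ - (0 : V 0) = _
      rw [sub_zero]
      norm_num
    · intro i l t
      show (J p i).c (l + 1) t = _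
      rw [hJ, WA.c_sub, BoundedContinuousFunction.sub_apply, hDn, hUp, hM1]
      rw [acomp' p (l + 1 + 1) t, map_smul, BoundedContinuousFunction.smul_apply, acomp' p l t,
        smul_smul, map_smul]
      congr 2
      · push_cast
        ring
      · field_simp
    · intro l t ht
      have h1 := (hsol p l).db t ht
      have h2 : (((l : ℝ) + 3) * vp δ t) • xt ((FL p).c l) t
          = vp δ t • (xt (Dv p.2.1 l) t + xt (p.2.2.1.c l) t) := by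
        rw [mul_comm, mul_smul]
        congr 1
        exact hFL p l _
      rw [h2] at h1
      exact h1
    · intro l hl
      show (A1 p).c l t0 + (a p).c l t0 = _
      rw [acomp]
      exact (hcore _ _ _).2.1 l hl
    · show (A1 p).c 1 t0 + (a p).c 1 t0 = _
      rw [hLa]
      abel
    · show (A1 p).c 0 t0 + (a p).c 0 t0 = _ + nu p • c0
      rw [hnu, ← ev0_spec, hL0]
      abel

end
end OD16
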