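import Pool.Agent.LibOD16.Ord0
import Pool.Agent.LibOD16.BChi
import Pool.Agent.LibOD16.SolW2

set_option autoImplicit false

/-!
# The nonlinear map (section 6 of the notes): definitions
-/

namespace OD16
open MvPolynomial MeasureTheory Metric
open scoped BoundedContinuousFunction ENNReal
noncomputable section

/-- Bounded continuous functions on `(-∞, 0]` from bounded continuous functions on `ℝ`. -/
def mkB (f : ℝ → ℝ) (hf : Continuous f) (hb : ∃ C, ∀ t ≤ 0, |f t| ≤ C) : Tm →ᵇ ℝ :=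
  BoundedContinuousFunction.ofNormedAddCommGroup (fun t : Tm => f t)
    (hf.comp continuous_subtype_val) (Classical.choose hb)
    (fun t => by
      rw [Real.norm_eq_abs]
      exact Classical.choose_spec hb t t.2)

@[simp] lemma mkB_apply (f : ℝ → ℝ) (hf : Continuous f) (hb : ∃ C, ∀ t ≤ 0, |f t| ≤ C) (t : Tm) :
    mkB f hf hb t = f t := rfl

/-- `r = e^t`. -/
def expB : Tm →ᵇ ℝ := mkB Real.exp Real.continuous_exp ⟨1, fun t ht => by
  rw [abs_of_pos (Real.exp_pos t)]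
  exact Real.exp_le_one_iff.mpr ht⟩

/-- The cutoff `χ`. -/
def chiB : Tm →ᵇ ℝ := mkB chi continuous_chi ⟨1, fun t _ => by
  rw [abs_of_nonneg (chi_nonneg t)]
  exact chi_le_one t⟩

/-- Its derivative. -/
def chidB : Tm →ᵇ ℝ := mkB chid continuous_chid (by
  obtain ⟨C, _, hC⟩ := exists_chid_bound
  exact ⟨C, fun t _ => hC t⟩)

/-- `χ₁(t) = smoothTransition (t + 2)`: `0` for `t ≤ -2`, `1` for `t ≥ -1`. -/
def chi1 (t : ℝ) : ℝ := Real.smoothTransition (t + 2)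

/-- `χ₁ / r`. -/
def c1B : Tm →ᵇ ℝ := mkB (fun t => chi1 t * Real.exp (-t))
  (by
    unfold chi1
    have := Real.smoothTransition.continuous
    fun_prop)
  ⟨Real.exp 2, fun t _ => by
    unfold chi1
    by_cases h : t ≤ -2
    · rw [Real.smoothTransition.zero_of_nonpos (by linarith)]
      simp [Real.exp_nonneg]
    · push Not at h
      rw [abs_mul, abs_of_pos (Real.exp_pos _), abs_of_nonneg (Real.smoothTransition.nonneg _)]
      have h1 := Real.smoothTransition.le_one (t + 2)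
      have h2 : Real.exp (-t) ≤ Real.exp 2 := Real.exp_le_exp.mpr (by linarith)
      have h3 := Real.smoothTransition.nonneg (t + 2)
      nlinarith [Real.exp_pos (-t), Real.exp_pos 2]⟩

lemma vp_abs_pos (δ t : ℝ) : 0 < vp |δ| t := by
  unfold vp
  have := Real.exp_pos t
  have := abs_nonneg δ
  linarith

/-- `r / ϖ`. -/
def om1B (δ : ℝ) : Tm →ᵇ ℝ := mkB (fun t => Real.exp t / vp |δ| t)
  (by
    apply Continuous.div Real.continuous_exp _ (fun t => (vp_abs_pos δ t).ne')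
    unfold vp
    fun_prop)
  ⟨1, fun t _ => by
    rw [abs_of_pos (div_pos (Real.exp_pos t) (vp_abs_pos δ t)), div_le_one (vp_abs_pos δ t)]
    unfold vp
    have := abs_nonneg δ
    linarith⟩

/-- `δ / ϖ`. -/
def om2B (δ : ℝ) : Tm →ᵇ ℝ := mkB (fun t => |δ| / vp |δ| t)
  (by
    apply Continuous.div continuous_const _ (fun t => (vp_abs_pos δ t).ne')
    unfold vp
    fun_prop)
  ⟨1, fun t _ => by
    rw [abs_of_nonneg (div_nonneg (abs_nonneg δ) (vp_abs_pos δ t).le), div_le_one (vp_abs_pos δ t)]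
    unfold vp
    have := Real.exp_pos t
    linarith⟩

namespace NL

/-! ### Atoms -/

/-- `h` -/
def H : Fam := fun h _ _ => h • (1 : WA)
/-- `δ` -/
def Dl : Fam := fun _ δ _ => δ • (1 : WA)
/-- `q = 1/(1-δ)` -/
def qF : Fam := fun _ δ _ => (1 / (1 - δ)) • (1 : WA)
/-- `1/2` -/
def hf : Fam := fun _ _ _ => (1 / 2 : ℝ) • (1 : WA)
/-- `ν` -/
def nu : Fam := fun _ _ x => x.1 • (1 : WA)
def j0 : Fam := fun _ _ x => x.2.1
def j1 : Fam := fun _ _ x => x.2.2.1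
def J (i : Fin 5) : Fam := fun _ _ x => x.2.2.2 i
/-- `r` -/
def r : Fam := fun _ _ _ => WA.rad expB
/-- `χ` -/
def X : Fam := fun _ _ _ => WA.rad chiB
/-- `χ'` -/
def Xd : Fam := fun _ _ _ => WA.rad chidB
/-- `χ₁ / r` -/
def c1 : Fam := fun _ _ _ => WA.rad c1B
/-- `r / ϖ` -/
def w1 : Fam := fun _ δ _ => WA.rad (om1B δ)
/-- `δ / ϖ` -/
def w2 : Fam := fun _ δ _ => WA.rad (om2B δ)
/-- `θ_i` -/
def th (i : Fin 5) : Fam := fun _ _ _ => WA.th i

/-- `(1 + F)^κ`, `κ` a function of `δ`. -/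
def pwF (κ : ℝ → ℝ) (F : Fam) : Fam := fun h δ x => pw (κ δ) (F h δ x)
/-- `((1 + F)^κ - 1)/(κ F)`. -/
def phF (κ : ℝ → ℝ) (F : Fam) : Fam := fun h δ x => ph (κ δ) (F h δ x)

/-! ### The map -/

def U : Fam := (1 + qF) * j0 + j1
def eta : Fam := X * j0
def etad : Fam := Xd * j0 + X * j1
def m : Fam := 1 + eta + etad
/-- `1/m` -/
def im : Fam := pwF (fun _ => -1) (eta + etad)
/-- `1/(1+η)` -/
def ie : Fam := pwF (fun _ => -1) eta
def be : Fam := -1 + (1 - X) * U - Xd * j0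
def al : Fam := be * im
def ze : Fam := ie * ((1 - X) - X * be * im)

/-! Geometry at `(1 + et) r θ`. -/

/-- `s₁ / r`, `ρ² = 1 + s₁` -/
def s1s (et : Fam) : Fam :=
  2 * H * (1 + et) * th 0 + H ^ 2 * (1 + et) ^ 2 * r * (th 0 ^ 2 + th 1 ^ 2 + th 2 ^ 2 + th 3 ^ 2)
def s1 (et : Fam) : Fam := r * s1s et
/-- `(ρ + y₁)/2 = 1 + s₃` -/
def s3 (et : Fam) : Fam := hf * (pwF (fun _ => 1 / 2) (s1 et) - 1 + H * (1 + et) * r * th 0)
/-- `2/(ρ + y₁)` -/
def I2 (et : Fam) : Fam := pwF (fun _ => -1) (s3 et)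
/-- `(W - 1)/r` -/
def Ws (et : Fam) : Fam :=
  -(hf * hf * Dl * s1s et * phF (fun δ => -(δ / 4)) (s1 et)) -
    hf * hf * H ^ 2 * pwF (fun δ => -(δ / 4)) (s1 et) * (1 + et) ^ 2 * r * th 1 ^ 2 * I2 et ^ 2
def W (et : Fam) : Fam := 1 + r * Ws et
def k (et : Fam) : Fam := hf * hf * H ^ 2 * pwF (fun _ => -(1 / 2)) (s1 et) * I2 et

/-- `𝒯(J)_i` -/
def TJ (i : Fin 5) : Fam :=
  if i = 0 ∨ i = 4 then 0 else
    (th 1 ^ 2 + th 2 ^ 2 + th 3 ^ 2) * J i - (th 1 * J 1 + th 2 * J 2 + th 3 * J 3) * th i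
def cJ (et : Fam) (i : Fin 5) : Fam := J i - k et * (1 + et) ^ 2 * r ^ 2 * TJ i
def JJ (et : Fam) : Fam := ∑ i, J i * cJ et i

def s : Fam := al ^ 2 + ze ^ 2 * JJ eta - 1
def Pi : Fam := W eta * pwF (fun δ => -(δ / 2)) s
def b : Fam :=
  (1 + eta) ^ 4 * (Pi * al + 1 + eta) - (1 + eta) ^ 3 * X * Pi * ze * JJ eta
def Q (i : Fin 5) : Fam := (1 + eta) ^ 3 * m * Pi * ze * cJ eta i
/-- `R / r` -/
def Rs : Fam := 5 * (1 + eta) ^ 4 * m * Ws eta

/-! The same in the region `χ = 0`. -/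

def s0 : Fam := (-1 + U) ^ 2 + JJ 0 - 1
/-- `ψ`:  `(1 + s0)^(-δ/2) = 1 - (δ/2) ψ` -/
def ps0 : Fam := s0 * phF (fun δ => -(δ / 2)) s0
def p0 : Fam := pwF (fun δ => -(δ / 2)) s0
def b0 : Fam := W 0 * p0 * (-1 + U) + 1
def Q0 (i : Fin 5) : Fam := W 0 * p0 * cJ 0 i

/-! The sources. -/

def e' : Fam := w2 * (hf * ps0 + U - hf * ps0 * U) + w1 * (Ws 0 * p0 * (-1 + U) + c1 * (b - b0))
def E' (i : Fin 5) : Fam :=
  -(w2 * hf * ps0 * J i) + w1 * (Ws 0 * p0 * cJ 0 i - p0 * k 0 * r * TJ i + c1 * (Q i - Q0 i))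
def R' : Fam := w1 * Rs
def g : Fam := (1 + nu) * (pwF (fun _ => 1 / 2) (ie ^ 2 * JJ eta) - 1)

/-- All sources. -/
def NN (h δ : ℝ) (x : XS) : SI := (e' h δ x, fun i => E' i h δ x, R' h δ x, g h δ x)

/-- The geometric sources (independent of the unknowns). -/
def NN0 (h δ : ℝ) : SI := (-(w1 * Ws 0) h δ 0, fun _ => 0, (5 * w1 * Ws 0) h δ 0, 0)

end NL

end
end OD16
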