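import Pool.Agent.LibOD16.OrC

set_option autoImplicit false
namespace OD16
open MvPolynomial MeasureTheory Metric
open scoped BoundedContinuousFunction ENNReal
noncomputable section

namespace NL

variable {K : ℝ}

private lemma orE_one_add_eta : Ord K 0 (1 + eta) :=
  Ord.one.add (ord_eta.mono (by norm_num))

private lemma orE_al_sub : Ord K 0 (al - 1) := ord_al.sub Ord.one

/-- TASK OrE.  Linearisation of `b` and `Q`. -/
lemma ord_s : Ord K 2 s := by
  have h1 : Ord K 2 ((al + 1) * (al - 1)) := Ord.mul' ord_al_add orE_al_sub (by norm_num)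
  have h2 : Ord K 2 (ze ^ 2 * JJ eta) :=
    Ord.mul' (Ord.pow' (m := 2) (n := 0) ord_ze (by norm_num)) (ord_JJ ord_eta) (by norm_num)
  have e : s = (al + 1) * (al - 1) + ze ^ 2 * JJ eta := by
    unfold s
    generalize al = a
    generalize ze ^ 2 * JJ eta = z
    ring
  rw [e]
  exact h1.add h2

/-- `Π = W (1 + s)^(-δ/2)`, `(1+s)^(-δ/2) - 1 = -(δ/2) s ph` of order 4 (`EqF.pw_lin`). -/
lemma ord_Pi_sub_W : Ord K 4 (Pi - W eta) := by
  have hE := EqF.pw_lin (K := K) (k := 2) (by norm_num) ord_s (fun δ => -(δ / 2)) (-(1 / 2))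
    (fun δ => by ring) (by rw [abs_neg, abs_of_pos (by norm_num)]; norm_num) (by norm_num)
  have hph : Ord K 0 (phF (fun δ => -(δ / 2)) s) :=
    ord_phF (k := 2) (by norm_num) ord_s _ (fun δ h1 h2 => by
      rw [abs_neg, abs_of_pos (by linarith)]
      linarith)
  have h2 : Ord K 4 ((fun _ _ _ => (-(1 / 2) : ℝ) • (1 : WA)) * Dl * s *
      phF (fun δ => -(δ / 2)) s) := by
    refine Ord.mul' (Ord.mul' (Ord.mul' (n := 2) (Ord.const _) ord_Dl (by norm_num)) ord_s
      (le_refl _)) hph (by norm_num)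
  have h3 : Ord K 4 (W eta * ((fun _ _ _ => (-(1 / 2) : ℝ) • (1 : WA)) * Dl * s *
      phF (fun δ => -(δ / 2)) s)) := Ord.mul' (ord_W ord_eta) h2 (by norm_num)
  refine h3.congrF ?_
  have h4 := (((EqF.refl (K := K) (W eta)).mul hE).sub (EqF.refl (K := K) (W eta)))
  have e : W eta * (1 + (fun _ _ _ => (-(1 / 2) : ℝ) • (1 : WA)) * Dl * s *
      phF (fun δ => -(δ / 2)) s) - W eta = W eta * ((fun _ _ _ => (-(1 / 2) : ℝ) • (1 : WA)) *
      Dl * s * phF (fun δ => -(δ / 2)) s) := by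
    generalize W eta = w
    generalize (fun _ _ _ => (-(1 / 2) : ℝ) • (1 : WA)) * Dl * s *
      phF (fun δ => -(δ / 2)) s = z
    ring
  rw [e] at h4
  exact h4

lemma ord_Pi : Ord K 0 Pi := by
  have e : Pi = (Pi - W eta) + W eta := by
    generalize Pi = a
    generalize W eta = b
    ring
  rw [e]
  exact (ord_Pi_sub_W.mono (by norm_num)).add (ord_W ord_eta)

lemma ord_Pi_sub : Ord K 2 (Pi - 1) := by
  have e : Pi - 1 = (Pi - W eta) + (W eta - 1) := by
    generalize Pi = a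
    generalize W eta = b
    ring
  rw [e]
  exact (ord_Pi_sub_W.mono (by norm_num)).add (ord_W_sub ord_eta)

/-- `Π α + 1 + η = -(W - 1) + U + O(h⁴)`: `(Π - W) α` is of order 4; `W α + 1 + η
= -(W - 1) + (α + 1) + η + (W - 1)(α + 1)`; `ord_al_lin`; `(q - 1) χ j0` is of order 4. -/
lemma ord_core : Ord K 4 (Pi * al + 1 + eta - (U - (W eta - 1))) := by
  have h1 : Ord K 4 ((Pi - W eta) * al) := Ord.mul' ord_Pi_sub_W ord_al (by norm_num)
  have h2 : Ord K 4 ((W eta - 1) * (al + 1)) :=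
    Ord.mul' (ord_W_sub ord_eta) ord_al_add (by norm_num)
  have h3 : Ord K 4 (al + 1 - (U - qF * X * j0)) := ord_al_lin
  have h4 : Ord K 4 ((qF - 1) * (X * j0)) :=
    Ord.mul' ord_qF_sub (Ord.mul' (n := 2) ord_X ord_j0 (by norm_num)) (by norm_num)
  have e : Pi * al + 1 + eta - (U - (W eta - 1)) = (Pi - W eta) * al + (W eta - 1) * (al + 1) +
      (al + 1 - (U - qF * X * j0)) - (qF - 1) * (X * j0) := by
    unfold eta
    generalize W (X * j0) = w
    generalize Pi = p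
    generalize al = a
    generalize U = u
    ring
  rw [e]
  exact ((h1.add h2).add h3).sub h4

private lemma orE_pow_sub (n : ℕ) : Ord K 2 ((1 + eta) ^ n - 1) := by
  induction n with
  | zero =>
    rw [pow_zero, sub_self]
    exact Ord.zero _
  | succ n ih =>
    have e : (1 + eta) ^ (n + 1) - 1 = ((1 + eta) ^ n - 1) * (1 + eta) + eta := by
      generalize eta = a
      ring
    rw [e]
    exact (Ord.mul' ih orE_one_add_eta (by norm_num)).add ord_eta

private lemma orE_pow (n : ℕ) : Ord K 0 ((1 + eta) ^ n) :=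
  Ord.pow' orE_one_add_eta (by simp)

/-- `b = U - (W(eta) - 1) + O(h⁴)`. -/
lemma ord_b_lin : Ord K 4 (b - (U - (W eta - 1))) := by
  have h1 : Ord K 4 ((1 + eta) ^ 4 * (Pi * al + 1 + eta - (U - (W eta - 1)))) :=
    Ord.mul' (orE_pow 4) ord_core (by norm_num)
  have h2 : Ord K 4 (((1 + eta) ^ 4 - 1) * (U - (W eta - 1))) :=
    Ord.mul' (orE_pow_sub 4) (ord_U.sub (ord_W_sub ord_eta)) (by norm_num)
  have h3 : Ord K 4 ((1 + eta) ^ 3 * X * Pi * ze * JJ eta) :=
    Ord.mul' (Ord.mul' (n := 0) (Ord.mul' (n := 0) (Ord.mul' (n := 0) (orE_pow 3) ord_X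
      (by norm_num)) ord_Pi (by norm_num)) ord_ze (by norm_num)) (ord_JJ ord_eta) (by norm_num)
  have e : b - (U - (W eta - 1)) = (1 + eta) ^ 4 * (Pi * al + 1 + eta - (U - (W eta - 1))) +
      ((1 + eta) ^ 4 - 1) * (U - (W eta - 1)) - (1 + eta) ^ 3 * X * Pi * ze * JJ eta := by
    unfold b
    generalize (1 + eta) ^ 3 * X * Pi * ze * JJ eta = z
    generalize (1 + eta) ^ 4 = y
    generalize W eta = w
    generalize Pi * al + 1 + eta = p
    ring
  rw [e]
  exact (h1.add h2).sub h3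

lemma ord_Q_lin (i : Fin 5) : Ord K 4 (Q i - J i) := by
  have h1 : Ord K 2 (((1 + eta) ^ 3 - 1) * m * Pi * ze) :=
    Ord.mul' (Ord.mul' (n := 2) (Ord.mul' (n := 2) (orE_pow_sub 3) ord_m
      (by norm_num)) ord_Pi (by norm_num)) ord_ze (by norm_num)
  have h2 : Ord K 2 ((m - 1) * Pi * ze) :=
    Ord.mul' (Ord.mul' (n := 2) ord_m_sub ord_Pi (by norm_num)) ord_ze (by norm_num)
  have h3 : Ord K 2 ((Pi - 1) * ze) := Ord.mul' ord_Pi_sub ord_ze (by norm_num)
  have h4 : Ord K 2 ((((1 + eta) ^ 3 - 1) * m * Pi * ze + (m - 1) * Pi * ze + (Pi - 1) * ze +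
      (ze - 1))) := ((h1.add h2).add h3).add ord_ze_sub
  have h5 : Ord K 4 ((((1 + eta) ^ 3 - 1) * m * Pi * ze + (m - 1) * Pi * ze + (Pi - 1) * ze +
      (ze - 1)) * cJ eta i) := Ord.mul' h4 (ord_cJ ord_eta i) (by norm_num)
  have e : Q i - J i = (((1 + eta) ^ 3 - 1) * m * Pi * ze + (m - 1) * Pi * ze + (Pi - 1) * ze +
      (ze - 1)) * cJ eta i + (cJ eta i - J i) := by
    unfold Q
    generalize cJ eta i = c
    generalize (1 + eta) ^ 3 = y
    generalize Pi = p
    generalize m = mm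
    generalize ze = z
    generalize J i = j
    ring
  rw [e]
  exact h5.add (ord_cJ_sub ord_eta i)

end NL

end
end OD16
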