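import Pool.Agent.LibOD16.OrC

set_option autoImplicit false
namespace OD16
open MvPolynomial MeasureTheory Metric
open scoped BoundedContinuousFunction ENNReal
noncomputable section

namespace NL

variable {K : ℝ}

private lemma orF_zero : Ord K 2 (0 : Fam) := Ord.zero 2

private lemma orF_JJ : Ord K 4 (JJ 0) := ord_JJ orF_zero

private lemma orF_abs (δ : ℝ) (h1 : 0 < δ) (h2 : δ < 1 / 10) : |(fun δ : ℝ => -(δ / 2)) δ| ≤ 1 := by
  show |-(δ / 2)| ≤ 1
  rw [abs_neg, abs_of_pos (by linarith)]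
  linarith

/-- TASK OrF.  The quantities in the region `χ = 0`. -/
lemma ord_s0_lin : Ord K 4 (s0 + 2 * U) := by
  have h1 : Ord K 4 (U * U) := Ord.mul' ord_U ord_U (by norm_num)
  have e : s0 + 2 * U = U * U + JJ 0 := by
    unfold s0
    generalize JJ 0 = z
    generalize U = u
    ring
  rw [e]
  exact h1.add orF_JJ

lemma ord_s0 : Ord K 2 s0 := by
  have h1 : Ord K 2 (2 * U) := Ord.mul' (Ord.ofNat 2) ord_U (by norm_num)
  have e : s0 = (s0 + 2 * U) - 2 * U := by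
    generalize s0 = z
    generalize U = u
    ring
  rw [e]
  exact (ord_s0_lin.mono (by norm_num)).sub h1

lemma ord_ps0 : Ord K 2 ps0 := by
  have h : Ord K 0 (phF (fun δ => -(δ / 2)) s0) := ord_phF (k := 2) (by norm_num) ord_s0 _ orF_abs
  exact Ord.mul' ord_s0 h (by norm_num)

lemma ord_ps0_lin : Ord K 4 (ps0 + 2 * U) := by
  have h : Ord K 2 (phF (fun δ => -(δ / 2)) s0 - 1) :=
    ord_phF_sub (k := 2) (by norm_num) ord_s0 _ orF_abs (fun δ h1 _ =>
      (neg_lt_zero.mpr (half_pos h1)).ne)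
  have h1 : Ord K 4 (s0 * (phF (fun δ => -(δ / 2)) s0 - 1)) := Ord.mul' ord_s0 h (by norm_num)
  have e : ps0 + 2 * U = s0 * (phF (fun δ => -(δ / 2)) s0 - 1) + (s0 + 2 * U) := by
    unfold ps0
    generalize phF (fun δ => -(δ / 2)) s0 = p
    generalize s0 = z
    generalize U = u
    ring
  rw [e]
  exact h1.add ord_s0_lin

lemma ord_p0 : Ord K 0 p0 := ord_pwF (k := 2) (by norm_num) ord_s0 _ orF_abs

/-- `p0 - 1 = -(δ/2) ψ` is of order 4 (`EqF.pw_lin`). -/
lemma ord_p0_sub : Ord K 4 (p0 - 1) := by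
  have hE := EqF.pw_lin (K := K) (k := 2) (by norm_num) ord_s0 (fun δ => -(δ / 2)) (-(1 / 2))
    (fun δ => by ring) (by rw [abs_neg, abs_of_pos (by norm_num)]; norm_num) (by norm_num)
  have hph : Ord K 0 (phF (fun δ => -(δ / 2)) s0) :=
    ord_phF (k := 2) (by norm_num) ord_s0 _ orF_abs
  have h2 : Ord K 4 ((fun _ _ _ => (-(1 / 2) : ℝ) • (1 : WA)) * Dl * s0 *
      phF (fun δ => -(δ / 2)) s0) := by
    refine Ord.mul' (Ord.mul' (Ord.mul' (n := 2) (Ord.const _) ord_Dl (by norm_num)) ord_s0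
      (le_refl _)) hph (by norm_num)
  refine h2.congrF ?_
  have h4 := hE.sub (EqF.refl (K := K) 1)
  rw [add_sub_cancel_left] at h4
  exact h4

lemma ord_b0_lin : Ord K 4 (b0 - (U - (W 0 - 1))) := by
  have hU : Ord K 0 (-1 + U) := (Ord.one.neg).add (ord_U.mono (by norm_num))
  have h1 : Ord K 4 (W 0 * (p0 - 1) * (-1 + U)) :=
    Ord.mul' (Ord.mul' (n := 4) (ord_W orF_zero) ord_p0_sub (by norm_num)) hU (by norm_num)
  have h2 : Ord K 4 ((W 0 - 1) * U) := Ord.mul' (ord_W_sub orF_zero) ord_U (by norm_num)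
  have e : b0 - (U - (W 0 - 1)) = W 0 * (p0 - 1) * (-1 + U) + (W 0 - 1) * U := by
    unfold b0
    generalize W 0 = w
    generalize p0 = p
    generalize U = u
    ring
  rw [e]
  exact h1.add h2

lemma ord_Q0_lin (i : Fin 5) : Ord K 4 (Q0 i - J i) := by
  have hc : Ord K 2 (cJ 0 i) := ord_cJ orF_zero i
  have h1 : Ord K 4 ((W 0 - 1) * p0 * cJ 0 i) :=
    Ord.mul' (Ord.mul' (n := 2) (ord_W_sub orF_zero) ord_p0 (by norm_num)) hc (by norm_num)
  have h2 : Ord K 4 ((p0 - 1) * cJ 0 i) := Ord.mul' ord_p0_sub hc (by norm_num)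
  have h3 : Ord K 4 (cJ 0 i - J i) := ord_cJ_sub orF_zero i
  have e : Q0 i - J i = (W 0 - 1) * p0 * cJ 0 i + (p0 - 1) * cJ 0 i + (cJ 0 i - J i) := by
    unfold Q0
    generalize cJ 0 i = c
    generalize W 0 = w
    generalize p0 = p
    generalize J i = j
    ring
  rw [e]
  exact (h1.add h2).add h3

end NL

end
end OD16
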