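import Pool.Agent.LibOD16.OrD
import Pool.Agent.LibOD16.OrE
import Pool.Agent.LibOD16.OrF
import Pool.Agent.LibOD16.EvA

set_option autoImplicit false
namespace OD16
open MvPolynomial MeasureTheory Metric
open scoped BoundedContinuousFunction ENNReal
noncomputable section

namespace NL

variable {K : ℝ}

lemma ord_hf_G : Ord K 0 hf := ord_hf

lemma ord_Wdiff_bb : Ord K 4 (b - b0) := by
  have h : b - b0 = (b - (U - (W eta - 1))) - (b0 - (U - (W 0 - 1))) - (W eta - W 0) := by ring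
  rw [h]
  exact (ord_b_lin.sub ord_b0_lin).sub ord_W_diff

lemma ord_QQ (i : Fin 5) : Ord K 4 (Q i - Q0 i) := by
  have h : Q i - Q0 i = (Q i - J i) - (Q0 i - J i) := by ring
  rw [h]
  exact (ord_Q_lin i).sub (ord_Q0_lin i)

/-- TASK OrG.  The sources: everything except the geometric part is of order 4. -/
lemma ord_e' : Ord K 4 (e' + w1 * Ws 0) := by
  have h0 : Ord K 2 (0 : Fam) := Ord.zero 2
  have h : e' + w1 * Ws 0 = w2 * (hf * (ps0 + 2 * U) - hf * ps0 * U) +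
      w1 * (Ws 0 * (p0 * U - (p0 - 1)) + c1 * (b - b0)) := by
    have h2 : hf * (2 * U) = U := by
      have : hf * (2 * U) = (2 * hf) * U := by ring
      rw [this, two_mul_hf, one_mul]
    have h3 : hf * (ps0 + 2 * U) = hf * ps0 + U := by rw [mul_add, h2]
    rw [h3]
    unfold e'
    ring
  rw [h]
  have a1 : Ord K 4 (hf * (ps0 + 2 * U) - hf * ps0 * U) :=
    (ord_hf.mul' ord_ps0_lin (by norm_num)).sub
      ((ord_hf.mul' ord_ps0 (by norm_num) : Ord K 2 _).mul' ord_U (by norm_num))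
  have a2 : Ord K 2 (p0 * U - (p0 - 1)) :=
    (ord_p0.mul' ord_U (by norm_num)).sub (ord_p0_sub.mono (by norm_num))
  have a3 : Ord K 4 (Ws 0 * (p0 * U - (p0 - 1))) := (ord_Ws h0).mul' a2 (by norm_num)
  have a4 : Ord K 4 (c1 * (b - b0)) := ord_c1.mul' ord_Wdiff_bb (by norm_num)
  exact (ord_w2.mul' a1 (by norm_num)).add (ord_w1.mul' (a3.add a4) (by norm_num))

lemma ord_E' (i : Fin 5) : Ord K 4 (E' i) := by
  have h0 : Ord K 2 (0 : Fam) := Ord.zero 2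
  unfold E'
  have a1 : Ord K 2 (w2 * hf * ps0) :=
    (ord_w2.mul' ord_hf (by norm_num) : Ord K 0 _).mul' ord_ps0 (by norm_num)
  have a2 : Ord K 4 (w2 * hf * ps0 * J i) := a1.mul' (ord_J i) (by norm_num)
  have b1 : Ord K 2 (Ws 0 * p0) := (ord_Ws h0).mul' ord_p0 (by norm_num)
  have b2 : Ord K 4 (Ws 0 * p0 * cJ 0 i) := b1.mul' (ord_cJ h0 i) (by norm_num)
  have c1' : Ord K 2 (p0 * k 0 * r) :=
    (ord_p0.mul' (ord_k h0) (by norm_num) : Ord K 2 _).mul' ord_r (by norm_num)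
  have c2 : Ord K 4 (p0 * k 0 * r * TJ i) := c1'.mul' (ord_TJ i) (by norm_num)
  have d1 : Ord K 4 (c1 * (Q i - Q0 i)) := ord_c1.mul' (ord_QQ i) (by norm_num)
  exact a2.neg.add (ord_w1.mul' ((b2.sub c2).add d1) (by norm_num))

lemma ord_R' : Ord K 4 (R' - 5 * w1 * Ws 0) := by
  have h : R' - 5 * w1 * Ws 0 = 5 * w1 * (((1 + eta) ^ 4 * (m - 1) +
      eta * (4 + 6 * eta + 4 * eta ^ 2 + eta ^ 3)) * Ws eta + (Ws eta - Ws 0)) := by
    unfold R' Rs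
    ring
  rw [h]
  have e0 : Ord K 0 eta := ord_eta.mono (by norm_num)
  have o4 : Ord K 0 (4 : Fam) := Ord.ofNat 4
  have o6 : Ord K 0 (6 : Fam) := Ord.ofNat 6
  have o5 : Ord K 0 (5 : Fam) := Ord.ofNat 5
  have a0 : Ord K 0 ((1 + eta) ^ 4) := (Ord.one.add e0).pow' (by norm_num)
  have a1 : Ord K 2 ((1 + eta) ^ 4 * (m - 1)) := a0.mul' ord_m_sub (by norm_num)
  have a2 : Ord K 0 (4 + 6 * eta + 4 * eta ^ 2 + eta ^ 3) :=
    ((o4.add (o6.mul' e0 (by norm_num))).add (o4.mul' (e0.pow' (n := 0) (by norm_num))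
      (by norm_num))).add (e0.pow' (by norm_num))
  have a3 : Ord K 2 (eta * (4 + 6 * eta + 4 * eta ^ 2 + eta ^ 3)) :=
    ord_eta.mul' a2 (by norm_num)
  have a4 : Ord K 4 (((1 + eta) ^ 4 * (m - 1) +
      eta * (4 + 6 * eta + 4 * eta ^ 2 + eta ^ 3)) * Ws eta) :=
    (a1.add a3).mul' (ord_Ws ord_eta) (by norm_num)
  exact (o5.mul' ord_w1 (by norm_num) : Ord K 0 _).mul' (a4.add ord_Ws_diff) (by norm_num)

lemma ord_gg : Ord K 4 (ie ^ 2 * JJ eta) :=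
  (ord_ie.pow' (n := 0) (by norm_num)).mul' (ord_JJ ord_eta) (by norm_num)

lemma ord_g : Ord K 4 g := by
  unfold g
  have a1 : Ord K 4 (pwF (fun _ => 1 / 2) (ie ^ 2 * JJ eta) - 1) :=
    ord_pwF_sub (by norm_num) ord_gg _ (by
      intro δ _ _
      rw [abs_of_pos] <;> norm_num)
  have a0 : Ord K 0 (1 + nu) := Ord.one.add (ord_nu.mono (by norm_num))
  exact a0.mul' a1 (by norm_num)

/-- The base geometry does not depend on the unknowns. -/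
lemma Ws_zero_eq (h δ : ℝ) (x : XS) : Ws 0 h δ x = Ws 0 h δ 0 := rfl

end NL

/-- All smallness conditions hold for small `h` (`Ord.small`). -/
theorem sml (K : ℝ) : ∃ h0 : ℝ, 0 < h0 ∧ ∀ h δ, 0 < h → h < h0 → 0 < δ → δ ≤ h ^ 2 →
    ∀ x : XS, ‖x‖ ≤ K * h ^ 2 → Sml h δ x := by
  have z0 : Ord K 2 (0 : Fam) := Ord.zero 2
  obtain ⟨a1, p1, q1⟩ := Ord.small (K := K) (k := 2) (by norm_num) NL.ord_eta
  obtain ⟨a2, p2, q2⟩ := Ord.small (K := K) (k := 2) (by norm_num) (NL.ord_eta.add NL.ord_etad)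
  obtain ⟨a3, p3, q3⟩ := Ord.small (K := K) (k := 1) (by norm_num) (NL.ord_s1 NL.ord_eta)
  obtain ⟨a4, p4, q4⟩ := Ord.small (K := K) (k := 1) (by norm_num) (NL.ord_s3 NL.ord_eta)
  obtain ⟨a5, p5, q5⟩ := Ord.small (K := K) (k := 1) (by norm_num) (NL.ord_s1 z0)
  obtain ⟨a6, p6, q6⟩ := Ord.small (K := K) (k := 1) (by norm_num) (NL.ord_s3 z0)
  obtain ⟨a7, p7, q7⟩ := Ord.small (K := K) (k := 2) (by norm_num) NL.ord_s
  obtain ⟨a8, p8, q8⟩ := Ord.small (K := K) (k := 2) (by norm_num) NL.ord_s0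
  obtain ⟨a9, p9, q9⟩ := Ord.small (K := K) (k := 4) (by norm_num) NL.ord_gg
  refine ⟨min (1 / 100) (min a1 (min a2 (min a3 (min a4 (min a5 (min a6 (min a7 (min a8 a9)))))))),
    by positivity, ?_⟩
  intro h δ hh hlt hδ hδ2 x hx
  simp only [lt_min_iff] at hlt
  obtain ⟨l0, l1, l2, l3, l4, l5, l6, l7, l8, l9⟩ := hlt
  refine ⟨hh, l0.le, hδ, ?_, q1 h δ hh l1 hδ hδ2 x hx, q2 h δ hh l2 hδ hδ2 x hx,
    q3 h δ hh l3 hδ hδ2 x hx, q4 h δ hh l4 hδ hδ2 x hx, q5 h δ hh l5 hδ hδ2 x hx,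
    q6 h δ hh l6 hδ hδ2 x hx, q7 h δ hh l7 hδ hδ2 x hx, q8 h δ hh l8 hδ hδ2 x hx,
    q9 h δ hh l9 hδ hδ2 x hx⟩
  nlinarith

end
end OD16
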