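import Pool.Agent.LibOD16.EvG
import Pool.Agent.LibOD16.OrG

set_option autoImplicit false
namespace OD16
open MvPolynomial MeasureTheory Metric
open scoped BoundedContinuousFunction ENNReal
noncomputable section

/-- For `h` small everything is well defined. -/
theorem evl (K : ℝ) : ∃ h0 : ℝ, 0 < h0 ∧ ∀ h δ, 0 < h → h < h0 → 0 < δ → δ ≤ h ^ 2 →
    ∀ x : XS, ‖x‖ ≤ K * h ^ 2 → Evl h δ x := by
  obtain ⟨h0, h0pos, H⟩ := sml K
  exact ⟨h0, h0pos, fun h δ h1 h2 h3 h4 x hx => (H h δ h1 h2 h3 h4 x hx).evl⟩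

end
end OD16
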