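import Pool.Agent.LibOD16.NL0

set_option autoImplicit false

/-!
# Interface: evaluation of the nonlinear map
-/

namespace OD16
open MvPolynomial MeasureTheory Metric
open scoped BoundedContinuousFunction ENNReal
noncomputable section

/-- The values of the unknowns `x` at `(t, θ)`. -/
def ptx (h δ : ℝ) (x : XS) (t : Tm) (θ : EE) : Pt := mkPt h δ x.2.1 x.2.2.1 x.2.2.2 t θ

/-- Pointwise meaning of the elements of `WA` defined in `NL0`, and the identities between the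
sources and `b`, `Q`, `R`. -/
structure Evl (h δ : ℝ) (x : XS) : Prop where
  b_ev : ∀ (t : Tm) (θ : S4), (NL.b h δ x).ev t θ.1 = (ptx h δ x t θ.1).b
  Q_ev : ∀ (t : Tm) (θ : S4) (i : Fin 5), (NL.Q i h δ x).ev t θ.1 = (ptx h δ x t θ.1).Q i
  R_ev : ∀ (t : Tm) (θ : S4), ((NL.r * NL.Rs) h δ x).ev t θ.1 = (ptx h δ x t θ.1).R
  g_ev : ∀ (t : Tm) (θ : S4), (NL.g h δ x).ev t θ.1 = (1 + x.1) *
    (Real.sqrt (1 + (ptx h δ x t θ.1).JJ / (1 + (ptx h δ x t θ.1).eta) ^ 2) - 1)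
  e_eq : WA.rad (vpB δ) * NL.e' h δ x =
    NL.b h δ x - (1 - δ) • ((1 + 1 / (1 - δ)) • x.2.1 + x.2.2.1)
  E_eq : ∀ i, WA.rad (vpB δ) * NL.E' i h δ x = NL.Q i h δ x - x.2.2.2 i
  R_eq : WA.rad (vpB δ) * NL.R' h δ x = (NL.r * NL.Rs) h δ x
  m_ge : ∀ (t : Tm) (θ : S4), 1 / 2 ≤ (ptx h δ x t θ.1).m
  s_le : ∀ (t : Tm) (θ : S4), |(ptx h δ x t θ.1).s| ≤ 1 / 2

/-- `x` is a fixed point of the map (solver ∘ nonlinear map) in the ball of radius `K h²`. -/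
structure Fix (K h δ : ℝ) (x : XS) (b : WA) (Λ : V 1) : Prop where
  nx : ‖x‖ ≤ K * h ^ 2
  lin : LinSol δ (NL.NN h δ x) x b Λ

end
end OD16
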