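import Pool.Agent.LibOD16.Ord0

set_option autoImplicit false
namespace OD16
open MvPolynomial MeasureTheory Metric
open scoped BoundedContinuousFunction ENNReal
noncomputable section

namespace Ord

variable {K : ℝ}

/-- TASK Ord1.  A small family has norm `≤ 1/2` (for `h` small). -/
lemma small {k : ℕ} (hk : 1 ≤ k) {F : Fam} (hF : Ord K k F) : ∃ h0 : ℝ, 0 < h0 ∧
    ∀ h δ, 0 < h → h < h0 → 0 < δ → δ ≤ h ^ 2 → ∀ x : XS, ‖x‖ ≤ K * h ^ 2 → ‖F h δ x‖ ≤ 1 / 2 := by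
  obtain ⟨M, h0, hM, hh0, hA, -, -⟩ := hF.mono hk
  refine ⟨min h0 (1 / (2 * (M + 1))), lt_min hh0 (by positivity), ?_⟩
  intro h δ h1 h2 h3 h4 x hx
  refine (hA h δ h1 (lt_of_lt_of_le h2 (min_le_left _ _)) h3 h4 x hx).trans ?_
  rw [pow_one]
  have h5 : h < 1 / (2 * (M + 1)) := lt_of_lt_of_le h2 (min_le_right _ _)
  rw [lt_div_iff₀ (by positivity)] at h5
  nlinarith

private lemma lt_tenth {h δ : ℝ} (h1 : 0 < h) (h2 : h < 3 / 10) (h4 : δ ≤ h ^ 2) :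
    δ < 1 / 10 := by
  have h5 : h ^ 2 < (3 / 10) ^ 2 := pow_lt_pow_left₀ h2 h1.le two_ne_zero
  have h6 : ((3 : ℝ) / 10) ^ 2 < 1 / 10 := by norm_num
  linarith

/-- Power series of small families, coefficients depending on `δ` (`ps_sub_const_le`, `ps_lip`). -/
lemma ps_sub {k : ℕ} (hk : 1 ≤ k) {F : Fam} (hF : Ord K k F) (c : ℝ → ℕ → ℝ)
    (hc : ∀ δ, 0 < δ → δ < 1 / 10 → ∀ n, |c δ n| ≤ 1) :
    Ord K k (fun h δ x => ps (c δ) (F h δ x) - c δ 0 • (1 : WA)) := by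
  obtain ⟨h1, hh1, hsm⟩ := hF.small hk
  obtain ⟨M, h0, hM, hh0, hA, hB, hC⟩ := hF
  refine ⟨4 * M, min (min h0 h1) (3 / 10), by positivity,
    lt_min (lt_min hh0 hh1) (by norm_num), ?_, ?_, ?_⟩
  · intro h δ a1 a2 a3 a4 x hx
    have b1 : h < h0 := lt_of_lt_of_le a2 ((min_le_left _ _).trans (min_le_left _ _))
    have b2 : h < h1 := lt_of_lt_of_le a2 ((min_le_left _ _).trans (min_le_right _ _))
    have b3 := lt_tenth a1 (lt_of_lt_of_le a2 (min_le_right _ _)) a4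
    refine (ps_sub_const_le (c δ) (hc δ a3 b3) _ (hsm h δ a1 b2 a3 a4 x hx)).trans ?_
    have b4 := hA h δ a1 b1 a3 a4 x hx
    have b5 : 0 ≤ M * h ^ k := by positivity
    linarith
  · intro h δ a1 a2 a3 a4 x y hx hy
    have b1 : h < h0 := lt_of_lt_of_le a2 ((min_le_left _ _).trans (min_le_left _ _))
    have b2 : h < h1 := lt_of_lt_of_le a2 ((min_le_left _ _).trans (min_le_right _ _))
    have b3 := lt_tenth a1 (lt_of_lt_of_le a2 (min_le_right _ _)) a4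
    have e : (ps (c δ) (F h δ x) - c δ 0 • (1 : WA)) - (ps (c δ) (F h δ y) - c δ 0 • (1 : WA))
        = ps (c δ) (F h δ x) - ps (c δ) (F h δ y) := by abel
    show ‖(ps (c δ) (F h δ x) - c δ 0 • (1 : WA)) - (ps (c δ) (F h δ y) - c δ 0 • (1 : WA))‖ ≤ _
    rw [e]
    refine (ps_lip (c δ) (hc δ a3 b3) _ _ (hsm h δ a1 b2 a3 a4 x hx)
      (hsm h δ a1 b2 a3 a4 y hy)).trans ?_
    have b4 := hB h δ a1 b1 a3 a4 x y hx hy
    calc 4 * ‖F h δ x - F h δ y‖ ≤ 4 * (M * h ^ k / h ^ 2 * ‖x - y‖) :=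
          mul_le_mul_of_nonneg_left b4 (by norm_num)
      _ = _ := by ring
  · intro δ x
    by_cases hδ : 0 < δ ∧ δ < 1 / 10
    · have hps : ContinuousOn (ps (c δ)) (closedBall (0 : WA) (1 / 2)) := by
        have hl : LipschitzOnWith 4 (ps (c δ)) (closedBall (0 : WA) (1 / 2)) := by
          apply LipschitzOnWith.of_dist_le_mul
          intro s hs s' hs'
          rw [dist_eq_norm, dist_eq_norm]
          rw [mem_closedBall_zero_iff] at hs hs'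
          exact ps_lip (c δ) (hc δ hδ.1 hδ.2) s s' hs hs'
        exact hl.continuousOn
      apply ContinuousOn.sub _ continuousOn_const
      apply hps.comp ((hC δ x).mono _)
      · rintro h ⟨a1, a2, a3, a4, hx⟩
        rw [mem_closedBall_zero_iff]
        exact hsm h δ a1 (lt_of_lt_of_le a2 ((min_le_left _ _).trans (min_le_right _ _))) a3 a4 x hx
      · rintro h ⟨a1, a2, a3, a4, hx⟩
        exact ⟨a1, lt_of_lt_of_le a2 ((min_le_left _ _).trans (min_le_left _ _)), a3, a4, hx⟩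
    · intro h hh
      obtain ⟨a1, a2, a3, a4, hx⟩ := hh
      exact absurd ⟨a3, lt_tenth a1 (lt_of_lt_of_le a2 (min_le_right _ _)) a4⟩ hδ

lemma ps {k : ℕ} (hk : 1 ≤ k) {F : Fam} (hF : Ord K k F) (c : ℝ → ℕ → ℝ)
    (hc : ∀ δ, 0 < δ → δ < 1 / 10 → ∀ n, |c δ n| ≤ 1) :
    Ord K 0 (fun h δ x => OD16.ps (c δ) (F h δ x)) := by
  have h1 := (hF.ps_sub hk c hc).mono (Nat.zero_le k)
  have h2 : Ord K 0 (fun _ δ _ => c δ 0 • (1 : WA)) := by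
    apply ofBound (fun δ => c δ 0 • (1 : WA)) (C := ‖(1 : WA)‖)
    intro δ hδ hδ'
    rw [norm_smul]
    calc ‖c δ 0‖ * ‖(1 : WA)‖ ≤ 1 * ‖(1 : WA)‖ :=
          mul_le_mul_of_nonneg_right (hc δ hδ hδ' 0) (norm_nonneg _)
      _ = _ := one_mul _
  have h3 := h1.add h2
  have h4 : ((fun h δ x => OD16.ps (c δ) (F h δ x) - c δ 0 • (1 : WA)) + fun _ δ _ => c δ 0 • (1 : WA))
      = fun h δ x => OD16.ps (c δ) (F h δ x) := by
    funext h δ x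
    show OD16.ps (c δ) (F h δ x) - c δ 0 • (1 : WA) + c δ 0 • (1 : WA) = _
    rw [sub_add_cancel]
  rw [h4] at h3
  exact h3

/-- The product of a scalar `Ord` in `δ` and `h`. -/
lemma congr {k : ℕ} {F G : Fam} (hF : Ord K k F) (h0 : ℝ) (hh0 : 0 < h0)
    (h : ∀ h δ, 0 < h → h < h0 → 0 < δ → δ ≤ h ^ 2 → ∀ x : XS, ‖x‖ ≤ K * h ^ 2 →
      G h δ x = F h δ x) : Ord K k G := by
  obtain ⟨M, h1, hM, hh1, hA, hB, hC⟩ := hF
  refine ⟨M, min h1 h0, hM, lt_min hh1 hh0, ?_, ?_, ?_⟩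
  · intro t δ a1 a2 a3 a4 x hx
    rw [h t δ a1 (lt_of_lt_of_le a2 (min_le_right _ _)) a3 a4 x hx]
    exact hA t δ a1 (lt_of_lt_of_le a2 (min_le_left _ _)) a3 a4 x hx
  · intro t δ a1 a2 a3 a4 x y hx hy
    rw [h t δ a1 (lt_of_lt_of_le a2 (min_le_right _ _)) a3 a4 x hx,
      h t δ a1 (lt_of_lt_of_le a2 (min_le_right _ _)) a3 a4 y hy]
    exact hB t δ a1 (lt_of_lt_of_le a2 (min_le_left _ _)) a3 a4 x y hx hy
  · intro δ x
    apply ((hC δ x).mono _).congr _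
    · rintro t ⟨a1, a2, a3, a4, hx⟩
      exact ⟨a1, lt_of_lt_of_le a2 (min_le_left _ _), a3, a4, hx⟩
    · rintro t ⟨a1, a2, a3, a4, hx⟩
      exact h t δ a1 (lt_of_lt_of_le a2 (min_le_right _ _)) a3 a4 x hx

lemma pw {k : ℕ} (hk : 1 ≤ k) {F : Fam} (hF : Ord K k F) (κ : ℝ → ℝ)
    (hκ : ∀ δ, 0 < δ → δ < 1 / 10 → |κ δ| ≤ 1) :
    Ord K 0 (fun h δ x => OD16.pw (κ δ) (F h δ x)) :=
  hF.ps hk (fun δ => bc (κ δ)) (fun δ h1 h2 n => abs_bc_le (hκ δ h1 h2) n)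

lemma pw_sub_one {k : ℕ} (hk : 1 ≤ k) {F : Fam} (hF : Ord K k F) (κ : ℝ → ℝ)
    (hκ : ∀ δ, 0 < δ → δ < 1 / 10 → |κ δ| ≤ 1) :
    Ord K k (fun h δ x => OD16.pw (κ δ) (F h δ x) - 1) := by
  apply (hF.ps_sub hk (fun δ => bc (κ δ)) (fun δ h1 h2 n => abs_bc_le (hκ δ h1 h2) n)).congr 1
    one_pos
  intro h δ _ _ _ _ x _
  show OD16.pw (κ δ) (F h δ x) - 1 = OD16.ps (bc (κ δ)) (F h δ x) - bc (κ δ) 0 • (1 : WA)
  rw [bc_zero, one_smul]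
  rfl

lemma ph_sub_one {k : ℕ} (hk : 1 ≤ k) {F : Fam} (hF : Ord K k F) (κ : ℝ → ℝ)
    (hκ : ∀ δ, 0 < δ → δ < 1 / 10 → |κ δ| ≤ 1) (hκ0 : ∀ δ, 0 < δ → δ < 1 / 10 → κ δ ≠ 0) :
    Ord K k (fun h δ x => OD16.ph (κ δ) (F h δ x) - 1) := by
  apply (hF.ps_sub hk (fun δ => bc' (κ δ)) (fun δ h1 h2 n => abs_bc'_le (hκ δ h1 h2) n)).congr
    (3 / 10) (by norm_num)
  intro h δ a1 a2 a3 a4 x _
  show OD16.ph (κ δ) (F h δ x) - 1 = OD16.ps (bc' (κ δ)) (F h δ x) - bc' (κ δ) 0 • (1 : WA)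
  rw [bc'_zero (hκ0 δ a3 (lt_tenth a1 a2 a4)), one_smul]
  rfl

lemma ph {k : ℕ} (hk : 1 ≤ k) {F : Fam} (hF : Ord K k F) (κ : ℝ → ℝ)
    (hκ : ∀ δ, 0 < δ → δ < 1 / 10 → |κ δ| ≤ 1) :
    Ord K 0 (fun h δ x => OD16.ph (κ δ) (F h δ x)) :=
  hF.ps hk (fun δ => bc' (κ δ)) (fun δ h1 h2 n => abs_bc'_le (hκ δ h1 h2) n)

end Ord

end
end OD16
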