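import Pool.Agent.LibOD16.NL0
import Pool.Agent.LibOD16.Ord1

set_option autoImplicit false
namespace OD16
open MvPolynomial MeasureTheory Metric
open scoped BoundedContinuousFunction ENNReal
noncomputable section

/-- Equality of families for small `h` on the ball of radius `K h²`. -/
def EqF (K : ℝ) (F G : Fam) : Prop := ∃ h0 : ℝ, 0 < h0 ∧ ∀ h δ, 0 < h → h < h0 → 0 < δ →
  δ ≤ h ^ 2 → ∀ x : XS, ‖x‖ ≤ K * h ^ 2 → F h δ x = G h δ x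

namespace EqF

variable {K : ℝ}

/-- TASK OrA.  Rules for `EqF`. -/
lemma refl (F : Fam) : EqF K F F := by
  exact ⟨1, one_pos, fun _ _ _ _ _ _ _ _ => rfl⟩
lemma symm {F G : Fam} (h : EqF K F G) : EqF K G F := by
  obtain ⟨h0, h0p, hh⟩ := h
  exact ⟨h0, h0p, fun a δ h1 h2 h3 h4 x h5 => (hh a δ h1 h2 h3 h4 x h5).symm⟩
lemma trans {F G L : Fam} (h : EqF K F G) (h' : EqF K G L) : EqF K F L := by
  obtain ⟨h0, h0p, hh⟩ := h
  obtain ⟨h0', h0p', hh'⟩ := h'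
  exact ⟨min h0 h0', lt_min h0p h0p', fun a δ h1 h2 h3 h4 x h5 =>
    (hh a δ h1 (h2.trans_le (min_le_left _ _)) h3 h4 x h5).trans
      (hh' a δ h1 (h2.trans_le (min_le_right _ _)) h3 h4 x h5)⟩

/-- Binary operations. -/
lemma map2 {F G F' G' L L' : Fam} (op : WA → WA → WA) (h : EqF K F G) (h' : EqF K F' G')
    (hL : ∀ a δ x, L a δ x = op (F a δ x) (F' a δ x))
    (hL' : ∀ a δ x, L' a δ x = op (G a δ x) (G' a δ x)) : EqF K L L' := by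
  obtain ⟨h0, h0p, hh⟩ := h
  obtain ⟨h0', h0p', hh'⟩ := h'
  refine ⟨min h0 h0', lt_min h0p h0p', fun a δ h1 h2 h3 h4 x h5 => ?_⟩
  rw [hL, hL', hh a δ h1 (h2.trans_le (min_le_left _ _)) h3 h4 x h5,
    hh' a δ h1 (h2.trans_le (min_le_right _ _)) h3 h4 x h5]
lemma add {F G F' G' : Fam} (h : EqF K F G) (h' : EqF K F' G') : EqF K (F + F') (G + G') := by
  exact map2 (fun a b => a + b) h h' (fun _ _ _ => rfl) (fun _ _ _ => rfl)
lemma sub {F G F' G' : Fam} (h : EqF K F G) (h' : EqF K F' G') : EqF K (F - F') (G - G') := by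
  exact map2 (fun a b => a - b) h h' (fun _ _ _ => rfl) (fun _ _ _ => rfl)
lemma mul {F G F' G' : Fam} (h : EqF K F G) (h' : EqF K F' G') : EqF K (F * F') (G * G') := by
  exact map2 (fun a b => a * b) h h' (fun _ _ _ => rfl) (fun _ _ _ => rfl)
lemma neg {F G : Fam} (h : EqF K F G) : EqF K (-F) (-G) := by
  exact map2 (fun a _ => -a) h h (fun _ _ _ => rfl) (fun _ _ _ => rfl)

end EqF

variable {K : ℝ}

lemma Ord.congrF {k : ℕ} {F G : Fam} (hF : Ord K k F) (h : EqF K G F) : Ord K k G := by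
  obtain ⟨h0, h0p, hh⟩ := h
  exact Ord.congr hF h0 h0p hh

lemma Ord.one : Ord K 0 (1 : Fam) := Ord.const 1

lemma Ord.ofNat (n : ℕ) [n.AtLeastTwo] : Ord K 0 (OfNat.ofNat n : Fam) :=
  Ord.const (OfNat.ofNat n)

/-- Product with prescribed order. -/
lemma Ord.mul' {k m n : ℕ} {F G : Fam} (hF : Ord K k F) (hG : Ord K m G) (h : n ≤ k + m) :
    Ord K n (F * G) := by
  exact (hF.mul hG).mono h

lemma Ord.pow' {k n m : ℕ} {F : Fam} (hF : Ord K k F) (h : n ≤ m * k) : Ord K n (F ^ m) := by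
  have key : ∀ m : ℕ, Ord K (m * k) (F ^ m) := by
    intro m
    induction m with
    | zero =>
      rw [pow_zero, Nat.zero_mul]
      exact Ord.one
    | succ m ih =>
      rw [pow_succ, Nat.succ_mul]
      exact ih.mul hF
  exact (key m).mono h

lemma Ord.sum {k : ℕ} {F : Fin 5 → Fam} (hF : ∀ i, Ord K k (F i)) : Ord K k (∑ i, F i) := by
  exact Finset.sum_induction F (Ord K k) (fun _ _ h1 h2 => h1.add h2) (Ord.zero k)
    (fun i _ => hF i)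

/-- `(1 + F)^(-1)`. -/
lemma EqF.inv {k : ℕ} (hk : 1 ≤ k) {F : Fam} (hF : Ord K k F) :
    EqF K ((1 + F) * NL.pwF (fun _ => -1) F) 1 := by
  obtain ⟨h0, h0p, hh⟩ := hF.small hk
  refine ⟨h0, h0p, fun a δ h1 h2 h3 h4 x h5 => ?_⟩
  exact mul_pw_neg_one _ (hh a δ h1 h2 h3 h4 x h5)

/-- `(1 + F)^(1/2)` squared. -/
lemma EqF.sqrt {k : ℕ} (hk : 1 ≤ k) {F : Fam} (hF : Ord K k F) :
    EqF K (NL.pwF (fun _ => 1 / 2) F ^ 2) (1 + F) := by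
  obtain ⟨h0, h0p, hh⟩ := hF.small hk
  refine ⟨h0, h0p, fun a δ h1 h2 h3 h4 x h5 => ?_⟩
  have hs := hh a δ h1 h2 h3 h4 x h5
  show (pw (1 / 2) (F a δ x)) ^ 2 = 1 + F a δ x
  apply WA.ext_ev
  intro t θ
  have h6 : |WA.evR t θ (F a δ x)| ≤ 1 / 2 := (WA.abs_ev_le _ t θ).trans hs
  have h7 : WA.evR t θ (pw (1 / 2) (F a δ x)) = (1 + WA.evR t θ (F a δ x)) ^ (1 / 2 : ℝ) :=
    map_pw _ (WA.continuous_evR t θ) (by norm_num [abs_of_pos]) _ hs h6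
  have h8 : 0 ≤ 1 + WA.evR t θ (F a δ x) := by linarith [(abs_le.mp h6).1]
  rw [← WA.evR_apply, ← WA.evR_apply, map_pow, map_add, map_one, h7, ← Real.sqrt_eq_rpow,
    Real.sq_sqrt h8]

/-- `(1 + F)^κ = 1 + κ F ph`, for `κ = c δ`. -/
lemma EqF.pw_lin {k : ℕ} (hk : 1 ≤ k) {F : Fam} (hF : Ord K k F) (κ : ℝ → ℝ) (c : ℝ)
    (hκ : ∀ δ, κ δ = c * δ) (hc : |c| ≤ 1) (hc0 : c ≠ 0) : EqF K (NL.pwF κ F)
      (1 + (fun _ _ _ => c • (1 : WA)) * NL.Dl * F * NL.phF κ F) := by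
  obtain ⟨h0, h0p, hh⟩ := hF.small hk
  refine ⟨min h0 1, lt_min h0p one_pos, fun a δ h1 h2 h3 h4 x h5 => ?_⟩
  have hs := hh a δ h1 (h2.trans_le (min_le_left _ _)) h3 h4 x h5
  have ha1 : a < 1 := h2.trans_le (min_le_right _ _)
  have hδ1 : δ ≤ 1 := h4.trans (by nlinarith)
  have hκ1 : |κ δ| ≤ 1 := by
    rw [hκ, abs_mul, abs_of_pos h3]
    nlinarith [abs_nonneg c]
  have hκ0 : κ δ ≠ 0 := by
    rw [hκ]
    exact mul_ne_zero hc0 h3.ne'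
  show pw (κ δ) (F a δ x) = 1 + (c • (1 : WA)) * (δ • (1 : WA)) * F a δ x * ph (κ δ) (F a δ x)
  rw [pw_eq hκ1 hκ0 _ hs, hκ δ]
  simp only [smul_mul_assoc, one_mul, mul_smul]

/-- `(1 + F)^κ = 1 + κ F ph`, for constant `κ`. -/
lemma EqF.pw_const {k : ℕ} (hk : 1 ≤ k) {F : Fam} (hF : Ord K k F) (c : ℝ) (hc : |c| ≤ 1)
    (hc0 : c ≠ 0) : EqF K (NL.pwF (fun _ => c) F)
      (1 + (fun _ _ _ => c • (1 : WA)) * F * NL.phF (fun _ => c) F) := by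
  obtain ⟨h0, h0p, hh⟩ := hF.small hk
  refine ⟨h0, h0p, fun a δ h1 h2 h3 h4 x h5 => ?_⟩
  have hs := hh a δ h1 h2 h3 h4 x h5
  show pw c (F a δ x) = 1 + (c • (1 : WA)) * F a δ x * ph c (F a δ x)
  rw [pw_eq hc hc0 _ hs]
  simp only [smul_mul_assoc, one_mul]

namespace NL

/-! Orders of the atoms. -/

lemma ord_H : Ord K 1 H := Ord.var_h
lemma ord_Dl : Ord K 2 Dl := Ord.var_δ
lemma ord_nu : Ord K 2 nu := Ord.var_ν
lemma ord_j0 : Ord K 2 j0 := Ord.var_j0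
lemma ord_j1 : Ord K 2 j1 := Ord.var_j1
lemma ord_J (i : Fin 5) : Ord K 2 (J i) := Ord.var_J i
lemma ord_hf : Ord K 0 hf := Ord.const _
lemma ord_r : Ord K 0 r := Ord.const _
lemma ord_X : Ord K 0 X := Ord.const _
lemma ord_Xd : Ord K 0 Xd := Ord.const _
lemma ord_c1 : Ord K 0 c1 := Ord.const _
lemma ord_th (i : Fin 5) : Ord K 0 (th i) := Ord.const _
lemma ord_qF : Ord K 0 qF := by
  refine Ord.ofBound (fun δ => (1 / (1 - δ)) • (1 : WA)) (C := 2 * ‖(1 : WA)‖) ?_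
  intro δ h1 h2
  rw [norm_smul]
  refine mul_le_mul_of_nonneg_right ?_ (norm_nonneg _)
  rw [Real.norm_eq_abs, abs_of_pos (by apply div_pos one_pos; linarith),
    div_le_iff₀ (by linarith)]
  linarith
lemma ord_w1 : Ord K 0 w1 := by
  obtain ⟨C, hC, hCr⟩ := WA.exists_norm_rad_le
  refine Ord.ofBound (fun δ => WA.rad (om1B δ)) (C := C * 1) ?_
  intro δ h1 h2
  refine (hCr _).trans (mul_le_mul_of_nonneg_left ?_ hC.le)
  rw [BoundedContinuousFunction.norm_le zero_le_one]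
  intro t
  show ‖Real.exp t / vp |δ| t‖ ≤ 1
  rw [Real.norm_eq_abs, abs_of_pos (div_pos (Real.exp_pos t) (vp_abs_pos δ t)),
    div_le_one (vp_abs_pos δ t)]
  unfold vp
  have := abs_nonneg δ
  linarith
lemma ord_w2 : Ord K 0 w2 := by
  obtain ⟨C, hC, hCr⟩ := WA.exists_norm_rad_le
  refine Ord.ofBound (fun δ => WA.rad (om2B δ)) (C := C * 1) ?_
  intro δ h1 h2
  refine (hCr _).trans (mul_le_mul_of_nonneg_left ?_ hC.le)
  rw [BoundedContinuousFunction.norm_le zero_le_one]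
  intro t
  show ‖|δ| / vp |δ| t‖ ≤ 1
  rw [Real.norm_eq_abs, abs_of_nonneg (div_nonneg (abs_nonneg δ) (vp_abs_pos δ t).le),
    div_le_one (vp_abs_pos δ t)]
  unfold vp
  have := Real.exp_pos (t : ℝ)
  linarith
/-- `q - 1 = δ q`. -/
lemma ord_qF_sub : Ord K 2 (qF - 1) := by
  refine Ord.congrF (Ord.mul' ord_Dl ord_qF (n := 2) (by norm_num)) ?_
  refine ⟨1, one_pos, fun a δ h1 h2 h3 h4 x h5 => ?_⟩
  have hδ1 : 1 - δ ≠ 0 := by
    have : δ < 1 := h4.trans_lt (by nlinarith)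
    linarith
  show (1 / (1 - δ)) • (1 : WA) - 1 = (δ • (1 : WA)) * ((1 / (1 - δ)) • (1 : WA))
  rw [smul_mul_assoc, one_mul, smul_smul]
  nth_rewrite 2 [← one_smul ℝ (1 : WA)]
  rw [← sub_smul]
  congr 1
  field_simp
  ring
/-- `2 · (1/2) = 1`. -/
lemma two_mul_hf : 2 * hf = 1 := by
  funext h δ x
  show (2 : WA) * ((1 / 2 : ℝ) • (1 : WA)) = 1
  have h2 : (2 : WA) = (2 : ℝ) • (1 : WA) := by
    rw [two_smul, one_add_one_eq_two]
  rw [mul_smul_comm, mul_one, h2, smul_smul]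
  norm_num

/-- Powers of small families. -/
lemma ord_pwF {k : ℕ} (hk : 1 ≤ k) {F : Fam} (hF : Ord K k F) (κ : ℝ → ℝ)
    (hκ : ∀ δ, 0 < δ → δ < 1 / 10 → |κ δ| ≤ 1) : Ord K 0 (pwF κ F) := Ord.pw hk hF κ hκ

lemma ord_pwF_sub {k : ℕ} (hk : 1 ≤ k) {F : Fam} (hF : Ord K k F) (κ : ℝ → ℝ)
    (hκ : ∀ δ, 0 < δ → δ < 1 / 10 → |κ δ| ≤ 1) : Ord K k (pwF κ F - 1) :=
  Ord.pw_sub_one hk hF κ hκ

lemma ord_phF {k : ℕ} (hk : 1 ≤ k) {F : Fam} (hF : Ord K k F) (κ : ℝ → ℝ)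
    (hκ : ∀ δ, 0 < δ → δ < 1 / 10 → |κ δ| ≤ 1) : Ord K 0 (phF κ F) := Ord.ph hk hF κ hκ

lemma ord_phF_sub {k : ℕ} (hk : 1 ≤ k) {F : Fam} (hF : Ord K k F) (κ : ℝ → ℝ)
    (hκ : ∀ δ, 0 < δ → δ < 1 / 10 → |κ δ| ≤ 1) (hκ0 : ∀ δ, 0 < δ → δ < 1 / 10 → κ δ ≠ 0) :
    Ord K k (phF κ F - 1) := Ord.ph_sub_one hk hF κ hκ hκ0

end NL

end
end OD16
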