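import Pool.Agent.LibOD16.OrA

set_option autoImplicit false
namespace OD16
open MvPolynomial MeasureTheory Metric
open scoped BoundedContinuousFunction ENNReal
noncomputable section

namespace NL

variable {K : ℝ}

/-- TASK OrB.  Orders of the algebraic quantities. -/
lemma ord_U : Ord K 2 U := by
  unfold U
  exact ((Ord.one.add ord_qF).mul' ord_j0 (by norm_num)).add ord_j1
lemma ord_eta : Ord K 2 eta := by
  unfold eta
  exact ord_X.mul' ord_j0 (by norm_num)
lemma ord_etad : Ord K 2 etad := by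
  unfold etad
  exact (ord_Xd.mul' ord_j0 (by norm_num)).add (ord_X.mul' ord_j1 (by norm_num))
lemma ord_m_sub : Ord K 2 (m - 1) := by
  have h : m - 1 = eta + etad := by
    unfold m
    ring
  rw [h]
  exact ord_eta.add ord_etad
lemma ord_m : Ord K 0 m := by
  unfold m
  exact (Ord.one.add (ord_eta.mono (by norm_num))).add (ord_etad.mono (by norm_num))
lemma ord_im : Ord K 0 im := by
  exact ord_pwF (k := 2) (by norm_num) (ord_eta.add ord_etad) _ (fun _ _ _ => by norm_num)
lemma ord_im_sub : Ord K 2 (im - 1) := by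
  exact ord_pwF_sub (k := 2) (by norm_num) (ord_eta.add ord_etad) _ (fun _ _ _ => by norm_num)
lemma ord_ie : Ord K 0 ie := by
  exact ord_pwF (k := 2) (by norm_num) ord_eta _ (fun _ _ _ => by norm_num)
lemma ord_ie_sub : Ord K 2 (ie - 1) := by
  exact ord_pwF_sub (k := 2) (by norm_num) ord_eta _ (fun _ _ _ => by norm_num)
lemma ord_be_add' : Ord K 2 (be + 1) := by
  have h : be + 1 = (1 - X) * U - Xd * j0 := by
    unfold be
    ring
  rw [h]
  exact ((Ord.one.sub ord_X).mul' ord_U (by norm_num)).sub (ord_Xd.mul' ord_j0 (by norm_num))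
lemma ord_be : Ord K 0 be := by
  have h : be = (be + 1) - 1 := by ring
  rw [h]
  exact (ord_be_add'.mono (by norm_num)).sub Ord.one
lemma ord_be_add : Ord K 2 (be + 1) := ord_be_add'
lemma ord_al : Ord K 0 al := by
  unfold al
  exact ord_be.mul' ord_im (by norm_num)
lemma ord_al_add : Ord K 2 (al + 1) := by
  have h : al + 1 = (be + 1) * im - (im - 1) := by
    unfold al
    ring
  rw [h]
  exact (ord_be_add.mul' ord_im (by norm_num)).sub ord_im_sub
lemma ord_ze : Ord K 0 ze := by
  unfold ze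
  exact ord_ie.mul' ((Ord.one.sub ord_X).sub ((ord_X.mul' ord_be (n := 0) (by norm_num)).mul'
    ord_im (by norm_num))) (by norm_num)
lemma ord_ze_sub : Ord K 2 (ze - 1) := by
  have h : ze - 1 = (ie - 1) * ((1 - X) - X * be * im) - X * (al + 1) := by
    unfold ze al
    ring
  rw [h]
  exact (ord_ie_sub.mul' ((Ord.one.sub ord_X).sub ((ord_X.mul' ord_be (n := 0) (by norm_num)).mul'
    ord_im (by norm_num))) (by norm_num)).sub (ord_X.mul' ord_al_add (by norm_num))

/-- `α = -1 + U - q χ j0 + O(h⁴)`:  with `s = eta + etad`, `im = 1 - s + s² im`,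
`be = -1 + β1`, `al + 1 = β1 + s - β1 s + be s² im`, and `β1 + s = U - q χ j0` by `ring`. -/
lemma ord_al_lin : Ord K 4 (al + 1 - (U - qF * X * j0)) := by
  have hs : Ord K 2 (eta + etad) := ord_eta.add ord_etad
  have h1 : Ord K 4 (-((be + 1) * (eta + etad)) + be * (eta + etad) ^ 2 * im) :=
    (ord_be_add.mul' hs (by norm_num)).neg.add
      ((ord_be.mul' (hs.pow' (n := 4) (m := 2) (by norm_num)) (n := 4) (by norm_num)).mul' ord_im
        (by norm_num))
  refine h1.congrF ?_
  obtain ⟨h0, h0p, hh⟩ := EqF.inv (by norm_num) hs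
  refine ⟨h0, h0p, fun a δ p1 p2 p3 p4 x p5 => ?_⟩
  have h2 := hh a δ p1 p2 p3 p4 x p5
  have h3 : (1 + (eta + etad) : Fam) * NL.pwF (fun _ => -1) (eta + etad) =
    (1 + (eta + etad)) * im := rfl
  rw [h3] at h2
  have h4 : (al + 1 - (U - qF * X * j0)) - (-((be + 1) * (eta + etad)) +
      be * (eta + etad) ^ 2 * im) = be * (1 - (eta + etad)) * ((1 + (eta + etad)) * im - 1) := by
    unfold al be U eta etad
    ring
  have h5 := congrFun (congrFun (congrFun h4 a) δ) x
  rw [← sub_eq_zero]
  have h6 : (be * (1 - (eta + etad)) * ((1 + (eta + etad)) * im - 1)) a δ x =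
      (be * (1 - (eta + etad))) a δ x * (((1 + (eta + etad)) * im) a δ x - (1 : Fam) a δ x) := rfl
  rw [h6, h2, sub_self, mul_zero] at h5
  exact h5

end NL

end
end OD16
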