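import Pool.Agent.LibOD16.OrB

set_option autoImplicit false
namespace OD16
open MvPolynomial MeasureTheory Metric
open scoped BoundedContinuousFunction ENNReal
noncomputable section

namespace NL

variable {K : ℝ} {et : Fam}

/-- TASK OrC.  Orders of the geometric quantities, for `et` of order 2 (`et = eta` or `et = 0`). -/
lemma ord_one_add (he : Ord K 2 et) : Ord K 0 (1 + et) := Ord.one.add (he.mono (by norm_num))
lemma ord_s1s (he : Ord K 2 et) : Ord K 1 (s1s et) := by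
  unfold s1s
  have h1 := ord_one_add he
  have h2 : Ord K 0 (th 0 ^ 2 + th 1 ^ 2 + th 2 ^ 2 + th 3 ^ 2) :=
    ((((ord_th 0).pow' (by norm_num)).add ((ord_th 1).pow' (by norm_num))).add
      ((ord_th 2).pow' (by norm_num))).add ((ord_th 3).pow' (by norm_num))
  refine Ord.add ?_ ?_
  · exact (((Ord.ofNat 2).mul' ord_H (n := 1) (by norm_num)).mul' h1 (n := 1) (by norm_num)).mul'
      (ord_th 0) (by norm_num)
  · exact (((ord_H.pow' (m := 2) (n := 2) (by norm_num)).mul' (h1.pow' (m := 2) (n := 0)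
      (by norm_num)) (n := 2) (by norm_num)).mul' ord_r (n := 2) (by norm_num)).mul' h2
      (by norm_num)
lemma ord_s1 (he : Ord K 2 et) : Ord K 1 (s1 et) := by
  unfold s1
  exact ord_r.mul' (ord_s1s he) (by norm_num)
lemma ord_s3 (he : Ord K 2 et) : Ord K 1 (s3 et) := by
  unfold s3
  refine ord_hf.mul' (n := 1) (Ord.add (k := 1) ?_ ?_) (by norm_num)
  · exact ord_pwF_sub (by norm_num) (ord_s1 he) _ (fun _ _ _ => by norm_num [abs_of_pos])
  · exact ((ord_H.mul' (ord_one_add he) (n := 1) (by norm_num)).mul' ord_r (n := 1)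
      (by norm_num)).mul' (ord_th 0) (by norm_num)
lemma ord_I2 (he : Ord K 2 et) : Ord K 0 (I2 et) := by
  exact ord_pwF (by norm_num) (ord_s3 he) _ (fun _ _ _ => by norm_num)
lemma ord_I2_sub (he : Ord K 2 et) : Ord K 1 (I2 et - 1) := by
  exact ord_pwF_sub (by norm_num) (ord_s3 he) _ (fun _ _ _ => by norm_num)
lemma kappa4 : ∀ δ : ℝ, 0 < δ → δ < 1 / 10 → |-(δ / 4)| ≤ 1 := by
  intro δ h1 h2
  rw [abs_neg, abs_of_pos (by linarith)]
  linarith
lemma ord_Ws (he : Ord K 2 et) : Ord K 2 (Ws et) := by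
  unfold Ws
  have hhf : Ord K 0 (hf * hf) := ord_hf.mul' ord_hf (by norm_num)
  have hph : Ord K 0 (phF (fun δ => -(δ / 4)) (s1 et)) :=
    ord_phF (by norm_num) (ord_s1 he) _ kappa4
  have hpw : Ord K 0 (pwF (fun δ => -(δ / 4)) (s1 et)) :=
    ord_pwF (by norm_num) (ord_s1 he) _ kappa4
  refine Ord.sub ?_ ?_
  · exact (((hhf.mul' ord_Dl (n := 2) (by norm_num)).mul' (ord_s1s he) (n := 2)
      (by norm_num)).mul' hph (by norm_num)).neg
  · exact (((((hhf.mul' (ord_H.pow' (m := 2) (n := 2) (by norm_num)) (n := 2) (by norm_num)).mul'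
      hpw (n := 2) (by norm_num)).mul' ((ord_one_add he).pow' (m := 2) (n := 0) (by norm_num))
      (n := 2) (by norm_num)).mul' ord_r (n := 2) (by norm_num)).mul' ((ord_th 1).pow' (m := 2)
      (n := 0) (by norm_num)) (n := 2) (by norm_num)).mul' ((ord_I2 he).pow' (m := 2) (n := 0)
      (by norm_num)) (by norm_num)
lemma ord_W (he : Ord K 2 et) : Ord K 0 (W et) := by
  unfold W
  exact Ord.one.add (ord_r.mul' (ord_Ws he) (by norm_num))
lemma ord_W_sub (he : Ord K 2 et) : Ord K 2 (W et - 1) := by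
  have h : W et - 1 = r * Ws et := by
    unfold W
    ring
  rw [h]
  exact ord_r.mul' (ord_Ws he) (by norm_num)
lemma ord_k (he : Ord K 2 et) : Ord K 2 (k et) := by
  unfold k
  have hhf : Ord K 0 (hf * hf) := ord_hf.mul' ord_hf (by norm_num)
  have hpw : Ord K 0 (pwF (fun _ => -(1 / 2)) (s1 et)) :=
    ord_pwF (by norm_num) (ord_s1 he) _ (fun _ _ _ => by norm_num [abs_of_pos])
  exact ((hhf.mul' (ord_H.pow' (m := 2) (n := 2) (by norm_num)) (n := 2) (by norm_num)).mul' hpw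
    (n := 2) (by norm_num)).mul' (ord_I2 he) (by norm_num)
lemma ord_TJ (i : Fin 5) : Ord K 2 (TJ i) := by
  unfold TJ
  split
  · exact Ord.zero 2
  · refine Ord.sub ?_ ?_
    · exact Ord.mul' (n := 2) ((((ord_th 1).pow' (m := 2) (n := 0) (by norm_num)).add
        ((ord_th 2).pow' (m := 2) (n := 0) (by norm_num))).add ((ord_th 3).pow' (m := 2) (n := 0)
        (by norm_num))) (ord_J i) (by norm_num)
    · exact Ord.mul' (n := 2) ((((ord_th 1).mul' (ord_J 1) (n := 2) (by norm_num)).add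
        ((ord_th 2).mul' (ord_J 2) (n := 2) (by norm_num))).add ((ord_th 3).mul' (ord_J 3) (n := 2)
        (by norm_num))) (ord_th i) (by norm_num)
lemma ord_cJ_aux (he : Ord K 2 et) (i : Fin 5) :
    Ord K 4 (k et * (1 + et) ^ 2 * r ^ 2 * TJ i) :=
  (((ord_k he).mul' ((ord_one_add he).pow' (m := 2) (n := 0) (by norm_num)) (n := 2)
    (by norm_num)).mul' (ord_r.pow' (m := 2) (n := 0) (by norm_num)) (n := 2)
    (by norm_num)).mul' (ord_TJ i) (by norm_num)
lemma ord_cJ (he : Ord K 2 et) (i : Fin 5) : Ord K 2 (cJ et i) := by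
  unfold cJ
  exact (ord_J i).sub ((ord_cJ_aux he i).mono (by norm_num))
lemma ord_cJ_sub (he : Ord K 2 et) (i : Fin 5) : Ord K 4 (cJ et i - J i) := by
  have h : cJ et i - J i = -(k et * (1 + et) ^ 2 * r ^ 2 * TJ i) := by
    unfold cJ
    ring
  rw [h]
  exact (ord_cJ_aux he i).neg
lemma ord_JJ (he : Ord K 2 et) : Ord K 4 (JJ et) := by
  unfold JJ
  exact Ord.sum (fun i => (ord_J i).mul' (ord_cJ he i) (by norm_num))

/-- `(1 + s₁)^(-δ/4) - 1` is of order 3 (`EqF.pw_lin`). -/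
lemma ord_pwF_s1_sub (he : Ord K 2 et) : Ord K 3 (pwF (fun δ => -(δ / 4)) (s1 et) - 1) := by
  have hph : Ord K 0 (phF (fun δ => -(δ / 4)) (s1 et)) :=
    ord_phF (by norm_num) (ord_s1 he) _ kappa4
  have h1 : Ord K 3 ((fun _ _ _ => (-1 / 4 : ℝ) • (1 : WA)) * NL.Dl * s1 et *
      NL.phF (fun δ => -(δ / 4)) (s1 et)) :=
    (((Ord.const ((-1 / 4 : ℝ) • (1 : WA))).mul' ord_Dl (n := 2) (by norm_num)).mul' (ord_s1 he)
      (n := 3) (by norm_num)).mul' hph (by norm_num)
  refine h1.congrF ?_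
  have h2 := (EqF.pw_lin (K := K) (k := 1) (by norm_num) (ord_s1 he) (fun δ => -(δ / 4)) (-1 / 4)
    (fun δ => by ring) (by norm_num [abs_of_pos, abs_of_neg]) (by norm_num)).sub (EqF.refl 1)
  refine h2.trans ?_
  rw [add_sub_cancel_left]
  exact EqF.refl _

end NL

end
end OD16
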