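import Pool.Agent.LibOD16.OrC

set_option autoImplicit false
namespace OD16
open MvPolynomial MeasureTheory Metric
open scoped BoundedContinuousFunction ENNReal
noncomputable section

namespace NL

variable {K : ℝ}

/-- The sum of the squares of the first four coordinates. -/
lemma ordD_ths : Ord K 0 (th 0 ^ 2 + th 1 ^ 2 + th 2 ^ 2 + th 3 ^ 2) :=
  ((((ord_th 0).pow' (by norm_num)).add ((ord_th 1).pow' (by norm_num))).add
    ((ord_th 2).pow' (by norm_num))).add ((ord_th 3).pow' (by norm_num))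

/-- TASK OrD.  Differences of the geometric quantities between `eta` and `0`. -/
lemma ord_s1s_diff : Ord K 3 (s1s eta - s1s 0) := by
  have e : s1s eta - s1s 0 = (H * eta) * (2 * th 0) +
      (H * eta) * (H * ((2 + eta) * (r * (th 0 ^ 2 + th 1 ^ 2 + th 2 ^ 2 + th 3 ^ 2)))) := by
    unfold s1s
    ring
  rw [e]
  have h1 : Ord K 3 (H * eta) := ord_H.mul' ord_eta (by norm_num)
  have h2 : Ord K 0 (2 * th 0 : Fam) := (Ord.ofNat 2).mul' (ord_th 0) (by norm_num)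
  have h3 : Ord K 0 (2 + eta : Fam) := (Ord.ofNat 2).add (ord_eta.mono (by norm_num))
  have h4 : Ord K 0 ((2 + eta) * (r * (th 0 ^ 2 + th 1 ^ 2 + th 2 ^ 2 + th 3 ^ 2))) :=
    h3.mul' (ord_r.mul' (n := 0) ordD_ths (by norm_num)) (by norm_num)
  exact (h1.mul' h2 (by norm_num)).add (h1.mul' (ord_H.mul' h4 le_rfl) (by norm_num))

lemma ordD_s1_diff : Ord K 3 (s1 eta - s1 0) := by
  have e : s1 eta - s1 0 = r * (s1s eta - s1s 0) := by
    unfold s1
    ring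
  rw [e]
  exact ord_r.mul' ord_s1s_diff (by norm_num)

lemma ordD_zero : Ord K 2 (0 : Fam) := Ord.zero 2

lemma ordD_half_bound : ∀ δ : ℝ, 0 < δ → δ < 1 / 10 → |(fun _ : ℝ => (1 / 2 : ℝ)) δ| ≤ 1 := by
  intro δ _ _
  rw [abs_of_pos (by norm_num)]
  norm_num

/-- `R1 - R0 = (1/2) (s1 eta - s1 0) (1 + u)^(-1)`, `R = (1+s1)^(1/2)`,
`u = (R1 - 1 + R0 - 1)/2` of order 1 (`EqF.sqrt`, `EqF.inv`). -/
lemma ord_sqrt_diff :
    Ord K 3 (pwF (fun _ => 1 / 2) (s1 eta) - pwF (fun _ => 1 / 2) (s1 0)) := by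
  have hs1 : Ord K 1 (s1 eta) := ord_s1 ord_eta
  have hs0 : Ord K 1 (s1 0) := ord_s1 ordD_zero
  have hR1 : Ord K 1 (pwF (fun _ => 1 / 2) (s1 eta) - 1) :=
    ord_pwF_sub le_rfl hs1 _ ordD_half_bound
  have hR0 : Ord K 1 (pwF (fun _ => 1 / 2) (s1 0) - 1) :=
    ord_pwF_sub le_rfl hs0 _ ordD_half_bound
  have hu : Ord K 1 (hf * ((pwF (fun _ => 1 / 2) (s1 eta) - 1) +
      (pwF (fun _ => 1 / 2) (s1 0) - 1))) :=
    ord_hf.mul' (hR1.add hR0) (by norm_num)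
  obtain ⟨h1, h1p, H1⟩ := EqF.sqrt le_rfl hs1
  obtain ⟨h2, h2p, H2⟩ := EqF.sqrt le_rfl hs0
  obtain ⟨h3, h3p, H3⟩ := EqF.inv le_rfl hu
  have hpw : Ord K 0 (pwF (fun _ => -1) (hf * ((pwF (fun _ => 1 / 2) (s1 eta) - 1) +
      (pwF (fun _ => 1 / 2) (s1 0) - 1)))) :=
    ord_pwF le_rfl hu _ (fun δ _ _ => by simp)
  have key : Ord K 3 (hf * (s1 eta - s1 0) *
      pwF (fun _ => -1) (hf * ((pwF (fun _ => 1 / 2) (s1 eta) - 1) +
        (pwF (fun _ => 1 / 2) (s1 0) - 1)))) :=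
    (ord_hf.mul' ordD_s1_diff (by norm_num)).mul' hpw le_rfl
  refine key.congr (min h1 (min h2 h3)) (lt_min h1p (lt_min h2p h3p)) ?_
  intro h δ hh hlt hδ hδ2 x hx
  have E1 := H1 h δ hh (hlt.trans_le (min_le_left _ _)) hδ hδ2 x hx
  have E2 := H2 h δ hh (hlt.trans_le ((min_le_right _ _).trans (min_le_left _ _))) hδ hδ2 x hx
  have E3 := H3 h δ hh (hlt.trans_le ((min_le_right _ _).trans (min_le_right _ _))) hδ hδ2 x hx
  have E4 : (2 * hf : Fam) h δ x = (1 : Fam) h δ x := by rw [two_mul_hf]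
  simp only [Pi.mul_apply, Pi.add_apply, Pi.sub_apply, Pi.pow_apply, Pi.one_apply] at E1 E2 E3 E4 ⊢
  generalize pwF (fun _ => -1) _ h δ x = c at E3 ⊢
  generalize pwF (fun _ => 1 / 2) (s1 eta) h δ x = a at E1 E3 ⊢
  generalize pwF (fun _ => 1 / 2) (s1 0) h δ x = b at E2 E3 ⊢
  generalize hf h δ x = e at E3 E4 ⊢
  have E4' : (2 : WA) * e = 1 := E4
  linear_combination (-(a - b)) * E3 + e * c * E1 - e * c * E2 - (a - b) * c * E4'

lemma ord_s3_diff : Ord K 3 (s3 eta - s3 0) := by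
  have e : s3 eta - s3 0 = hf * ((pwF (fun _ => 1 / 2) (s1 eta) - pwF (fun _ => 1 / 2) (s1 0)) +
      (H * eta) * (r * th 0)) := by
    unfold s3
    ring
  rw [e]
  have h1 : Ord K 3 (H * eta) := ord_H.mul' ord_eta (by norm_num)
  exact ord_hf.mul' (ord_sqrt_diff.add (h1.mul' (n := 3) (ord_r.mul' (n := 0) (ord_th 0) (by norm_num)) (by norm_num)))
    (by norm_num)

/-- `I2 eta - I2 0 = I2 eta * I2 0 * (s3 0 - s3 eta)` (`EqF.inv`). -/
lemma ord_I2_diff : Ord K 3 (I2 eta - I2 0) := by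
  obtain ⟨h1, h1p, H1⟩ := EqF.inv (K := K) le_rfl (ord_s3 ord_eta)
  obtain ⟨h2, h2p, H2⟩ := EqF.inv (K := K) le_rfl (ord_s3 ordD_zero)
  have key : Ord K 3 ((I2 eta * I2 0) * (-(s3 eta - s3 0))) :=
    ((ord_I2 ord_eta).mul' (n := 0) (ord_I2 ordD_zero) (by norm_num)).mul' ord_s3_diff.neg
      (by norm_num)
  refine key.congr (min h1 h2) (lt_min h1p h2p) ?_
  intro h δ hh hlt hδ hδ2 x hx
  have E1 := H1 h δ hh (hlt.trans_le (min_le_left _ _)) hδ hδ2 x hx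
  have E2 := H2 h δ hh (hlt.trans_le (min_le_right _ _)) hδ hδ2 x hx
  unfold I2
  simp only [Pi.mul_apply, Pi.add_apply, Pi.sub_apply, Pi.neg_apply, Pi.one_apply] at E1 E2 ⊢
  generalize pwF (fun _ => -1) (s3 eta) h δ x = a at E1 ⊢
  generalize pwF (fun _ => -1) (s3 0) h δ x = b at E2 ⊢
  linear_combination b * E1 - a * E2

lemma ordD_quarter_bound : ∀ δ : ℝ, 0 < δ → δ < 1 / 10 → |(fun δ : ℝ => -(δ / 4)) δ| ≤ 1 := by
  intro δ h1 h2
  rw [abs_neg, abs_of_pos (by linarith)]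
  linarith

/-- First term: `Dl (s1s eta ph - s1s 0 ph0)`, the bracket is of order 2 (`ord_phF_sub`);
second term: `H² r th1² (pw (1+eta)² I2² - pw0 I2_0²)`, the bracket is of order 2. -/
lemma ord_Ws_diff : Ord K 4 (Ws eta - Ws 0) := by
  have hph1 : Ord K 0 (phF (fun δ => -(δ / 4)) (s1 eta)) :=
    ord_phF le_rfl (ord_s1 ord_eta) _ ordD_quarter_bound
  have hph1' : Ord K 1 (phF (fun δ => -(δ / 4)) (s1 eta) - 1) :=
    ord_phF_sub le_rfl (ord_s1 ord_eta) _ ordD_quarter_bound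
      (fun δ h _ => by simp only [ne_eq, neg_eq_zero]; positivity)
  have hph0' : Ord K 1 (phF (fun δ => -(δ / 4)) (s1 0) - 1) :=
    ord_phF_sub le_rfl (ord_s1 ordD_zero) _ ordD_quarter_bound
      (fun δ h _ => by simp only [ne_eq, neg_eq_zero]; positivity)
  have hb1 : Ord K 2 ((s1s eta - s1s 0) * phF (fun δ => -(δ / 4)) (s1 eta) +
      s1s 0 * ((phF (fun δ => -(δ / 4)) (s1 eta) - 1) - (phF (fun δ => -(δ / 4)) (s1 0) - 1))) :=
    (ord_s1s_diff.mul' hph1 (by norm_num)).add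
      ((ord_s1s ordD_zero).mul' (hph1'.sub hph0') (by norm_num))
  have hpw1 : Ord K 2 (pwF (fun δ => -(δ / 4)) (s1 eta) - 1) :=
    (ord_pwF_s1_sub ord_eta).mono (by norm_num)
  have hpw0 : Ord K 2 (pwF (fun δ => -(δ / 4)) (s1 0) - 1) :=
    (ord_pwF_s1_sub ordD_zero).mono (by norm_num)
  have hone : Ord K 0 (1 + eta : Fam) := Ord.one.add (ord_eta.mono (by norm_num))
  have hI1 : Ord K 0 (I2 eta) := ord_I2 ord_eta
  have hI0 : Ord K 0 (I2 0) := ord_I2 ordD_zero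
  have hb2 : Ord K 2 ((pwF (fun δ => -(δ / 4)) (s1 eta) - 1) * ((1 + eta) ^ 2 * I2 eta ^ 2) -
      (pwF (fun δ => -(δ / 4)) (s1 0) - 1) * I2 0 ^ 2 +
      (eta * ((2 + eta) * I2 eta ^ 2) + (I2 eta - I2 0) * (I2 eta + I2 0))) := by
    refine ((hpw1.mul' ((hone.pow' (m := 2) (n := 0) (by norm_num)).mul' (n := 0)
      (hI1.pow' (m := 2) (n := 0) (by norm_num)) (by norm_num))
      (by norm_num)).sub (hpw0.mul' (hI0.pow' (m := 2) (n := 0) (by norm_num))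
      (by norm_num))).add ?_
    refine Ord.add ?_ ?_
    · have h3 : Ord K 0 (2 + eta : Fam) := (Ord.ofNat 2).add (ord_eta.mono (by norm_num))
      exact ord_eta.mul' (h3.mul' (n := 0) (hI1.pow' (m := 2) (n := 0) (by norm_num)) (by norm_num))
        (by norm_num)
    · exact ord_I2_diff.mul' (hI1.add hI0) (by norm_num)
  have e : Ws eta - Ws 0 = -((hf * hf) * (Dl *
      ((s1s eta - s1s 0) * phF (fun δ => -(δ / 4)) (s1 eta) +
      s1s 0 * ((phF (fun δ => -(δ / 4)) (s1 eta) - 1) - (phF (fun δ => -(δ / 4)) (s1 0) - 1))))) -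
      (hf * hf) * ((H ^ 2 * (r * th 1 ^ 2)) *
      ((pwF (fun δ => -(δ / 4)) (s1 eta) - 1) * ((1 + eta) ^ 2 * I2 eta ^ 2) -
      (pwF (fun δ => -(δ / 4)) (s1 0) - 1) * I2 0 ^ 2 +
      (eta * ((2 + eta) * I2 eta ^ 2) + (I2 eta - I2 0) * (I2 eta + I2 0)))) := by
    unfold Ws
    ring
  rw [e]
  have hhf : Ord K 0 (hf * hf) := ord_hf.mul' ord_hf (by norm_num)
  have hH : Ord K 2 (H ^ 2 * (r * th 1 ^ 2)) :=
    (ord_H.pow' (m := 2) (n := 2) (by norm_num)).mul'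
      (ord_r.mul' (n := 0) ((ord_th 1).pow' (m := 2) (n := 0) (by norm_num)) (by norm_num)) le_rfl
  exact (hhf.mul' (ord_Dl.mul' hb1 le_rfl) (by norm_num)).neg.sub
    (hhf.mul' (hH.mul' hb2 le_rfl) (by norm_num))

lemma ord_W_diff : Ord K 4 (W eta - W 0) := by
  have e : W eta - W 0 = r * (Ws eta - Ws 0) := by
    unfold W
    ring
  rw [e]
  exact ord_r.mul' ord_Ws_diff (by norm_num)

end NL

end
end OD16
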