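import Mathlib

set_option autoImplicit false
namespace OD16
noncomputable section

variable {A : Type*} [NormedCommRing A] [NormedAlgebra ℝ A]

/-- Power series with coefficients `c` in a commutative Banach algebra (`‖1‖ ≠ 1` is allowed). -/
def ps (c : ℕ → ℝ) (s : A) : A := ∑' n, c n • s ^ n

private lemma norm_term_le (c : ℕ → ℝ) (hc : ∀ n, |c n| ≤ 1) (s : A) (hs : ‖s‖ ≤ 1 / 2) (n : ℕ) :
    ‖c (n + 1) • s ^ (n + 1)‖ ≤ ‖s‖ * (1 / 2) ^ n := by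
  refine (norm_smul_le _ _).trans ?_
  have h1 : ‖s ^ (n + 1)‖ ≤ ‖s‖ ^ (n + 1) := norm_pow_le' s (Nat.succ_pos n)
  have h2 : ‖s‖ ^ (n + 1) ≤ ‖s‖ * (1 / 2) ^ n := by
    rw [pow_succ, mul_comm]
    exact mul_le_mul_of_nonneg_left (pow_le_pow_left₀ (norm_nonneg _) hs n) (norm_nonneg _)
  have h3 : ‖c (n + 1)‖ ≤ 1 := hc (n + 1)
  calc ‖c (n + 1)‖ * ‖s ^ (n + 1)‖ ≤ 1 * ‖s ^ (n + 1)‖ :=
        mul_le_mul_of_nonneg_right h3 (norm_nonneg _)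
    _ = ‖s ^ (n + 1)‖ := one_mul _
    _ ≤ _ := h1.trans h2

private lemma summable_half (a : ℝ) : Summable fun n : ℕ => a * (1 / 2 : ℝ) ^ n :=
  (summable_geometric_of_lt_one (by norm_num) (by norm_num)).mul_left a

/-- TASK PS.  Summability (`‖s ^ n‖ ≤ ‖s‖ ^ n` for `n ≥ 1`). -/
lemma ps_summable_norm (c : ℕ → ℝ) (hc : ∀ n, |c n| ≤ 1) (s : A) (hs : ‖s‖ ≤ 1 / 2) :
    Summable fun n => ‖c n • s ^ n‖ := by
  rw [← summable_nat_add_iff 1]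
  exact Summable.of_nonneg_of_le (fun n => norm_nonneg _) (fun n => norm_term_le c hc s hs n)
    (summable_half ‖s‖)

private lemma summable_norm_succ (c : ℕ → ℝ) (hc : ∀ n, |c n| ≤ 1) (s : A) (hs : ‖s‖ ≤ 1 / 2) :
    Summable fun n => ‖c (n + 1) • s ^ (n + 1)‖ :=
  (summable_nat_add_iff 1).mpr (ps_summable_norm c hc s hs)

private lemma ps_split [CompleteSpace A] (c : ℕ → ℝ) (hc : ∀ n, |c n| ≤ 1) (s : A)
    (hs : ‖s‖ ≤ 1 / 2) : ps c s = c 0 • 1 + ∑' n, c (n + 1) • s ^ (n + 1) := by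
  unfold ps
  rw [(ps_summable_norm c hc s hs).of_norm.tsum_eq_zero_add, pow_zero]

lemma ps_eq [CompleteSpace A] (c : ℕ → ℝ) (hc : ∀ n, |c n| ≤ 1) (s : A) (hs : ‖s‖ ≤ 1 / 2) :
    ps c s = c 0 • 1 + s * ps (fun n => c (n + 1)) s := by
  rw [ps_split c hc s hs]
  congr 1
  unfold ps
  have h1 : Summable fun n => c (n + 1) • s ^ n :=
    (ps_summable_norm (fun n => c (n + 1)) (fun n => hc _) s hs).of_norm
  rw [← h1.tsum_mul_left s]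
  congr 1
  ext n
  rw [mul_smul_comm, pow_succ, mul_comm s]

private lemma tsum_half (a : ℝ) : ∑' n : ℕ, a * (1 / 2 : ℝ) ^ n = a * 2 := by
  rw [tsum_mul_left, tsum_geometric_two]

private lemma norm_tail_le [CompleteSpace A] (c : ℕ → ℝ) (hc : ∀ n, |c n| ≤ 1) (s : A)
    (hs : ‖s‖ ≤ 1 / 2) : ‖∑' n, c (n + 1) • s ^ (n + 1)‖ ≤ 2 * ‖s‖ := by
  have h1 := summable_norm_succ c hc s hs
  calc ‖∑' n, c (n + 1) • s ^ (n + 1)‖ ≤ ∑' n, ‖c (n + 1) • s ^ (n + 1)‖ :=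
        norm_tsum_le_tsum_norm h1
    _ ≤ ∑' n : ℕ, ‖s‖ * (1 / 2 : ℝ) ^ n :=
        Summable.tsum_le_tsum (fun n => norm_term_le c hc s hs n) h1 (summable_half _)
    _ = 2 * ‖s‖ := by rw [tsum_half, mul_comm]

lemma norm_ps_le [CompleteSpace A] (c : ℕ → ℝ) (hc : ∀ n, |c n| ≤ 1) (s : A) (hs : ‖s‖ ≤ 1 / 2) :
    ‖ps c s‖ ≤ ‖(1 : A)‖ + 1 := by
  rw [ps_split c hc s hs]
  refine (norm_add_le _ _).trans ?_
  have h1 : ‖c 0 • (1 : A)‖ ≤ ‖(1 : A)‖ := by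
    refine (norm_smul_le _ _).trans ?_
    calc ‖c 0‖ * ‖(1 : A)‖ ≤ 1 * ‖(1 : A)‖ :=
          mul_le_mul_of_nonneg_right (hc 0) (norm_nonneg _)
      _ = _ := one_mul _
  have h2 := norm_tail_le c hc s hs
  linarith

lemma ps_sub_const_le [CompleteSpace A] (c : ℕ → ℝ) (hc : ∀ n, |c n| ≤ 1) (s : A)
    (hs : ‖s‖ ≤ 1 / 2) : ‖ps c s - c 0 • 1‖ ≤ 2 * ‖s‖ := by
  rw [ps_split c hc s hs, add_sub_cancel_left]
  exact norm_tail_le c hc s hs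

omit [NormedAlgebra ℝ A] in
private lemma pow_lip (s s' : A) (hs : ‖s‖ ≤ 1 / 2) (hs' : ‖s'‖ ≤ 1 / 2) (n : ℕ) :
    ‖s ^ (n + 1) - s' ^ (n + 1)‖ ≤ ((n : ℝ) + 1) * (1 / 2) ^ n * ‖s - s'‖ := by
  induction n with
  | zero => simp
  | succ n ih =>
    have h1 : s ^ (n + 1 + 1) - s' ^ (n + 1 + 1)
        = s * (s ^ (n + 1) - s' ^ (n + 1)) + (s - s') * s' ^ (n + 1) := by ring
    rw [h1]
    have h2 : ‖s' ^ (n + 1)‖ ≤ (1 / 2) ^ (n + 1) :=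
      (norm_pow_le' s' (Nat.succ_pos n)).trans (pow_le_pow_left₀ (norm_nonneg _) hs' _)
    calc ‖s * (s ^ (n + 1) - s' ^ (n + 1)) + (s - s') * s' ^ (n + 1)‖
        ≤ ‖s‖ * ‖s ^ (n + 1) - s' ^ (n + 1)‖ + ‖s - s'‖ * ‖s' ^ (n + 1)‖ :=
          (norm_add_le _ _).trans (add_le_add (norm_mul_le _ _) (norm_mul_le _ _))
      _ ≤ 1 / 2 * (((n : ℝ) + 1) * (1 / 2) ^ n * ‖s - s'‖) + ‖s - s'‖ * (1 / 2) ^ (n + 1) := by
          gcongr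
      _ = (((n + 1 : ℕ) : ℝ) + 1) * (1 / 2) ^ (n + 1) * ‖s - s'‖ := by
          push_cast
          rw [pow_succ]
          ring

private lemma hasSum_four : HasSum (fun n : ℕ => ((n : ℝ) + 1) * (1 / 2) ^ n) 4 := by
  have h1 := hasSum_coe_mul_geometric_of_norm_lt_one (𝕜 := ℝ) (r := 1 / 2) (by norm_num)
  have h2 := hasSum_geometric_of_lt_one (r := (1 / 2 : ℝ)) (by norm_num) (by norm_num)
  have h3 := h1.add h2
  have h4 : (1 / 2 : ℝ) / (1 - 1 / 2) ^ 2 + (1 - 1 / 2)⁻¹ = 4 := by norm_num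
  rw [h4] at h3
  have h5 : (fun n : ℕ => ((n : ℝ) + 1) * (1 / 2) ^ n)
      = fun n : ℕ => (n : ℝ) * (1 / 2) ^ n + (1 / 2) ^ n := by
    ext n
    ring
  rw [h5]
  exact h3

/-- `‖s^n - s'^n‖ ≤ n 2^(1-n) ‖s - s'‖`, `∑ n 2^(1-n) = 4`. -/
lemma ps_lip [CompleteSpace A] (c : ℕ → ℝ) (hc : ∀ n, |c n| ≤ 1) (s s' : A) (hs : ‖s‖ ≤ 1 / 2)
    (hs' : ‖s'‖ ≤ 1 / 2) : ‖ps c s - ps c s'‖ ≤ 4 * ‖s - s'‖ := by
  rw [ps_split c hc s hs, ps_split c hc s' hs', add_sub_add_left_eq_sub]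
  have e1 := (summable_norm_succ c hc s hs).of_norm
  have e2 := (summable_norm_succ c hc s' hs').of_norm
  rw [← e1.tsum_sub e2]
  have hb : ∀ n, ‖c (n + 1) • s ^ (n + 1) - c (n + 1) • s' ^ (n + 1)‖
      ≤ ((n : ℝ) + 1) * (1 / 2) ^ n * ‖s - s'‖ := by
    intro n
    rw [← smul_sub]
    refine (norm_smul_le _ _).trans ?_
    calc ‖c (n + 1)‖ * ‖s ^ (n + 1) - s' ^ (n + 1)‖ ≤ 1 * ‖s ^ (n + 1) - s' ^ (n + 1)‖ :=
          mul_le_mul_of_nonneg_right (hc _) (norm_nonneg _)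
      _ = ‖s ^ (n + 1) - s' ^ (n + 1)‖ := one_mul _
      _ ≤ _ := pow_lip s s' hs hs' n
  have hsum := hasSum_four.mul_right ‖s - s'‖
  have hn : Summable fun n => ‖c (n + 1) • s ^ (n + 1) - c (n + 1) • s' ^ (n + 1)‖ :=
    Summable.of_nonneg_of_le (fun n => norm_nonneg _) hb hsum.summable
  calc ‖∑' n, (c (n + 1) • s ^ (n + 1) - c (n + 1) • s' ^ (n + 1))‖
      ≤ ∑' n, ‖c (n + 1) • s ^ (n + 1) - c (n + 1) • s' ^ (n + 1)‖ := norm_tsum_le_tsum_norm hn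
    _ ≤ ∑' n : ℕ, ((n : ℝ) + 1) * (1 / 2) ^ n * ‖s - s'‖ :=
        Summable.tsum_le_tsum hb hn hsum.summable
    _ = 4 * ‖s - s'‖ := hsum.tsum_eq

lemma ps_zero (c : ℕ → ℝ) : ps c (0 : A) = c 0 • 1 := by
  unfold ps
  rw [tsum_eq_single 0]
  · rw [pow_zero]
  · intro n hn
    rw [zero_pow hn, smul_zero]

/-- Continuous ring homomorphisms to `ℝ` commute with power series. -/
lemma map_ps [CompleteSpace A] (φ : A →+* ℝ) (hφ : Continuous φ) (c : ℕ → ℝ) (hc : ∀ n, |c n| ≤ 1)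
    (s : A) (hs : ‖s‖ ≤ 1 / 2) : φ (ps c s) = ∑' n, c n * φ s ^ n := by
  have h0 : ∀ r : ℝ, φ (algebraMap ℝ A r) = r := by
    intro r
    have h1 : φ.comp (algebraMap ℝ A) = RingHom.id ℝ := Subsingleton.elim _ _
    have h2 := congrArg (fun f : ℝ →+* ℝ => f r) h1
    exact h2
  have h1 := (ps_summable_norm c hc s hs).of_norm.hasSum
  have h2 := h1.map (φ : A →+* ℝ) hφ
  have h3 : (⇑φ ∘ fun n => c n • s ^ n) = fun n => c n * φ s ^ n := by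
    ext n
    simp only [Function.comp_apply]
    rw [Algebra.smul_def, map_mul, h0, map_pow]
  rw [h3] at h2
  exact h2.tsum_eq.symm

end
end OD16
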