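import Pool.Agent.LibOD16.AD0

set_option autoImplicit false
namespace OD16
open MvPolynomial MeasureTheory Metric
open scoped BoundedContinuousFunction
noncomputable section

/-- The weight `ϖ(t) = δ + e^t`. -/
def vp (δ t : ℝ) : ℝ := δ + Real.exp t

/-- The same as a bounded continuous function on `(-∞, 0]`. -/
def vpB (δ : ℝ) : Tm →ᵇ ℝ :=
  BoundedContinuousFunction.ofNormedAddCommGroup (fun t : Tm => vp δ t)
    (by unfold vp; fun_prop) (|δ| + 1) (by
      intro t
      have h1 : Real.exp t ≤ 1 := Real.exp_le_one_iff.mpr t.2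
      have h2 : 0 < Real.exp (t : ℝ) := Real.exp_pos _
      unfold vp
      rw [Real.norm_eq_abs]
      refine (abs_add_le _ _).trans ?_
      rw [abs_of_pos h2]
      linarith)

@[simp] lemma vpB_apply (δ : ℝ) (t : Tm) : vpB δ t = vp δ t := rfl

variable {V : Type*} [NormedAddCommGroup V] [NormedSpace ℝ V]

/-- `(a, a1, b)` solves the linear system of degree `l` with sources `ϖ e` and `(l+3) ϖ f`:
`a' = a1 = -(1+q) a + q (b - ϖ e)`, `b' = -5 b + λ a - (l+3) ϖ f`, `λ = l (l+3)`, `q = 1/(1-δ)`. -/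
structure IsSol (l : ℕ) (δ : ℝ) (e f a a1 b : Tm →ᵇ V) : Prop where
  da : ∀ t : ℝ, t < 0 → HasDerivAt (xt a) (xt a1 t) t
  db : ∀ t : ℝ, t < 0 → HasDerivAt (xt b)
    (-((5 : ℝ) • xt b t) + ((l : ℝ) * (l + 3)) • xt a t - (((l : ℝ) + 3) * vp δ t) • xt f t) t
  eq : ∀ t : Tm, a1 t = -((1 + 1 / (1 - δ)) • a t) + (1 / (1 - δ)) • (b t - vp δ t • e t)

end
end OD16
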