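import Pool.Agent.LibOD16.Sol0

set_option autoImplicit false
namespace OD16
open MeasureTheory Metric
open scoped BoundedContinuousFunction
noncomputable section

variable {V : Type*} [NormedAddCommGroup V] [NormedSpace ℝ V] [CompleteSpace V]

omit [NormedSpace ℝ V] [CompleteSpace V] in
lemma Sol1_xt_cont (f : Tm →ᵇ V) : Continuous (xt f) := by
  unfold xt
  exact f.continuous.comp (Continuous.subtype_mk (continuous_id.min continuous_const) _)

omit [NormedSpace ℝ V] [CompleteSpace V] in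
lemma Sol1_xt_norm (f : Tm →ᵇ V) (t : ℝ) : ‖xt f t‖ ≤ ‖f‖ := f.norm_coe_le_norm _

omit [NormedAddCommGroup V] [NormedSpace ℝ V] [CompleteSpace V] in
lemma Sol1_xt_eq (f : Tm → V) (t : Tm) : xt f t = f t := by
  unfold xt
  congr 1
  apply Subtype.ext
  exact min_eq_left t.2

/-- the integrand -/
def Sol1_g (y : ℝ) (f : Tm →ᵇ V) (s : ℝ) : V := Real.exp (y * s) • xt f s

omit [CompleteSpace V] in
lemma Sol1_g_cont (y : ℝ) (f : Tm →ᵇ V) : Continuous (Sol1_g y f) := by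
  unfold Sol1_g
  exact (Real.continuous_exp.comp (continuous_const.mul continuous_id)).smul (Sol1_xt_cont f)

omit [CompleteSpace V] in
lemma Sol1_g_norm (y : ℝ) (f : Tm →ᵇ V) (s : ℝ) :
    ‖Sol1_g y f s‖ ≤ Real.exp (y * s) * ‖f‖ := by
  unfold Sol1_g
  rw [norm_smul, Real.norm_eq_abs, abs_of_pos (Real.exp_pos _)]
  exact mul_le_mul_of_nonneg_left (Sol1_xt_norm f s) (Real.exp_pos _).le

omit [CompleteSpace V] in
lemma Sol1_g_int {y : ℝ} (hy : 0 < y) (f : Tm →ᵇ V) (t : ℝ) :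
    IntegrableOn (Sol1_g y f) (Set.Iic t) := by
  have h1 : IntegrableOn (fun s => Real.exp (y * s) * ‖f‖) (Set.Iic t) :=
    (integrableOn_exp_mul_Iic hy t).mul_const _
  exact Integrable.mono' h1 (Sol1_g_cont y f).aestronglyMeasurable.restrict
    (Filter.Eventually.of_forall (Sol1_g_norm y f))

/-- the solution -/
def Sol1_G (y : ℝ) (f : Tm →ᵇ V) (t : ℝ) : V :=
  Real.exp (-(y * t)) • ∫ s in Set.Iic t, Sol1_g y f s

lemma Sol1_F_deriv {y : ℝ} (hy : 0 < y) (f : Tm →ᵇ V) (t : ℝ) :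
    HasDerivAt (fun t => ∫ s in Set.Iic t, Sol1_g y f s) (Sol1_g y f t) t := by
  have h1 : ∀ u : ℝ, ∫ s in Set.Iic u, Sol1_g y f s =
      (∫ s in Set.Iic (0 : ℝ), Sol1_g y f s) + ∫ s in (0 : ℝ)..u, Sol1_g y f s := by
    intro u
    rw [← intervalIntegral.integral_Iic_sub_Iic (Sol1_g_int hy f 0) (Sol1_g_int hy f u)]
    abel
  rw [funext h1]
  have h2 : HasDerivAt (fun u => ∫ s in (0 : ℝ)..u, Sol1_g y f s) (Sol1_g y f t) t :=
    ((Sol1_g_cont y f).integral_hasStrictDerivAt 0 t).hasDerivAt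
  exact h2.const_add _

lemma Sol1_G_deriv {y : ℝ} (hy : 0 < y) (f : Tm →ᵇ V) (t : ℝ) :
    HasDerivAt (Sol1_G y f) (-(y • Sol1_G y f t) + xt f t) t := by
  have h1 : HasDerivAt (fun t : ℝ => Real.exp (-(y * t))) (Real.exp (-(y * t)) * (-y)) t := by
    have h2 : HasDerivAt (fun t : ℝ => -(y * t)) (-y) t := by
      have h3 := (hasDerivAt_id t).const_mul (-y)
      simpa using h3
    exact h2.exp
  have h4 := h1.smul (Sol1_F_deriv hy f t)
  have h5 : Real.exp (-(y * t)) • Sol1_g y f t = xt f t := by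
    unfold Sol1_g
    rw [smul_smul, ← Real.exp_add, neg_add_cancel, Real.exp_zero, one_smul]
  have h6 : (Real.exp (-(y * t)) * (-y)) • ∫ s in Set.Iic t, Sol1_g y f s =
      -(y • Sol1_G y f t) := by
    unfold Sol1_G
    rw [smul_smul, ← neg_smul]
    congr 1
    ring
  rw [h5, h6, add_comm] at h4
  exact h4

omit [CompleteSpace V] in
lemma Sol1_G_norm {y : ℝ} (hy : 0 < y) (f : Tm →ᵇ V) (t : ℝ) :
    ‖Sol1_G y f t‖ ≤ ‖f‖ / y := by
  unfold Sol1_G
  rw [norm_smul, Real.norm_eq_abs, abs_of_pos (Real.exp_pos _)]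
  have h1 : ‖∫ s in Set.Iic t, Sol1_g y f s‖ ≤ Real.exp (y * t) / y * ‖f‖ := by
    calc ‖∫ s in Set.Iic t, Sol1_g y f s‖ ≤ ∫ s in Set.Iic t, Real.exp (y * s) * ‖f‖ := by
          apply norm_integral_le_of_norm_le
          · exact (integrableOn_exp_mul_Iic hy t).mul_const _
          · exact Filter.Eventually.of_forall (Sol1_g_norm y f)
      _ = Real.exp (y * t) / y * ‖f‖ := by
          rw [integral_mul_const, integral_exp_mul_Iic hy]
  calc Real.exp (-(y * t)) * ‖∫ s in Set.Iic t, Sol1_g y f s‖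
      ≤ Real.exp (-(y * t)) * (Real.exp (y * t) / y * ‖f‖) :=
        mul_le_mul_of_nonneg_left h1 (Real.exp_pos _).le
    _ = (Real.exp (-(y * t)) * Real.exp (y * t)) * (‖f‖ / y) := by ring
    _ = ‖f‖ / y := by rw [← Real.exp_add, neg_add_cancel, Real.exp_zero, one_mul]

lemma Sol1_G_cont {y : ℝ} (hy : 0 < y) (f : Tm →ᵇ V) : Continuous (Sol1_G y f) :=
  continuous_iff_continuousAt.mpr fun t => (Sol1_G_deriv hy f t).continuousAt

omit [CompleteSpace V] in
lemma Sol1_G_add {y : ℝ} (hy : 0 < y) (f g : Tm →ᵇ V) (t : ℝ) :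
    Sol1_G y (f + g) t = Sol1_G y f t + Sol1_G y g t := by
  unfold Sol1_G
  rw [← smul_add, ← integral_add (Sol1_g_int hy f t) (Sol1_g_int hy g t)]
  congr 2
  funext s
  unfold Sol1_g
  rw [← smul_add]
  rfl

omit [CompleteSpace V] in
lemma Sol1_G_smul (y : ℝ) (c : ℝ) (f : Tm →ᵇ V) (t : ℝ) :
    Sol1_G y (c • f) t = c • Sol1_G y f t := by
  have h1 : Sol1_g y (c • f) = fun s => c • Sol1_g y f s := by
    funext s
    unfold Sol1_g
    rw [smul_comm c]
    rfl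
  unfold Sol1_G
  rw [h1, integral_smul, smul_comm c]

/-- the operator -/
def Sol1_K (y : ℝ) (hy : 0 < y) : (Tm →ᵇ V) →ₗ[ℝ] (Tm →ᵇ V) where
  toFun f := BoundedContinuousFunction.ofNormedAddCommGroup (fun t : Tm => Sol1_G y f t)
    ((Sol1_G_cont hy f).comp continuous_subtype_val) (‖f‖ / y) (fun t => Sol1_G_norm hy f t)
  map_add' f g := by
    apply BoundedContinuousFunction.ext
    intro t
    exact Sol1_G_add hy f g t
  map_smul' c f := by
    apply BoundedContinuousFunction.ext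
    intro t
    exact Sol1_G_smul y c f t

/-- TASK Sol1.  `K f (t) = ∫_{-∞}^t e^(-y (t-s)) f(s) ds = ∫_0^∞ e^(-y s) f(t-s) ds`:
linear, `‖K f‖ ≤ ‖f‖ / y`, `(K f)' = -y K f + f`.  (For the derivative use
`e^(y t) K f(t) = ∫_{Iic t} e^(y s) f(s) ds` and the fundamental theorem of calculus.) -/
theorem exists_Km (y : ℝ) (hy : 0 < y) : ∃ K : (Tm →ᵇ V) →ₗ[ℝ] (Tm →ᵇ V),
    (∀ f, ‖K f‖ ≤ ‖f‖ / y) ∧
    ∀ (f : Tm →ᵇ V) (t : ℝ), t < 0 → HasDerivAt (xt (K f)) (-(y • xt (K f) t) + xt f t) t := by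
  refine ⟨Sol1_K y hy, fun f => ?_, fun f t ht => ?_⟩
  · exact (BoundedContinuousFunction.norm_le (div_nonneg (norm_nonneg f) hy.le)).mpr
      fun t => Sol1_G_norm hy f t
  · have h1 : ∀ u : ℝ, u ≤ 0 → xt (Sol1_K y hy f) u = Sol1_G y f u := by
      intro u hu
      have := Sol1_xt_eq (fun s : Tm => Sol1_K y hy f s) ⟨u, hu⟩
      exact this
    rw [h1 t ht.le]
    refine (Sol1_G_deriv hy f t).congr_of_eventuallyEq ?_
    filter_upwards [Iio_mem_nhds ht] with u hu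
    exact h1 u hu.le

end
end OD16
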