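import Pool.Agent.LibOD16.Sol0

set_option autoImplicit false
namespace OD16
open MeasureTheory Metric
open scoped BoundedContinuousFunction
noncomputable section

variable {V : Type*} [NormedAddCommGroup V] [NormedSpace ℝ V] [CompleteSpace V]

omit [CompleteSpace V] in
lemma sol2_xt_cont (f : Tm →ᵇ V) : Continuous (xt f) := by
  unfold xt
  refine f.continuous.comp ?_
  exact Continuous.subtype_mk (by fun_prop) _

omit [CompleteSpace V] in
lemma sol2_xt_norm (f : Tm →ᵇ V) (t : ℝ) : ‖xt f t‖ ≤ ‖f‖ := f.norm_coe_le_norm _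

/-- The integrand. -/
def sol2g (x δ : ℝ) (f : Tm →ᵇ V) (s : ℝ) : V := Real.exp (-(x * s)) • (vp δ s • xt f s)

/-- The integral operator, for all real `t`. -/
def sol2k (x δ : ℝ) (f : Tm →ᵇ V) (t : ℝ) : V := Real.exp (x * t) • ∫ s in t..0, sol2g x δ f s

omit [CompleteSpace V] in
lemma sol2g_cont (x δ : ℝ) (f : Tm →ᵇ V) : Continuous (sol2g x δ f) := by
  have h := sol2_xt_cont f
  have h1 : Continuous (vp δ) := by unfold vp; fun_prop
  unfold sol2g
  fun_prop

lemma sol2k_deriv (x δ : ℝ) (f : Tm →ᵇ V) (t : ℝ) :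
    HasDerivAt (sol2k x δ f) (x • sol2k x δ f t - vp δ t • xt f t) t := by
  have h1 : HasDerivAt (fun u => ∫ s in (0 : ℝ)..u, sol2g x δ f s) (sol2g x δ f t) t :=
    ((sol2g_cont x δ f).integral_hasStrictDerivAt 0 t).hasDerivAt
  have h2 : HasDerivAt (fun u => ∫ s in u..0, sol2g x δ f s) (-(sol2g x δ f t)) t := by
    have h3 := h1.neg
    refine h3.congr_of_eventuallyEq ?_
    refine Filter.Eventually.of_forall fun u => ?_
    simp only [Pi.neg_apply]
    rw [intervalIntegral.integral_symm]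
  have h4 : HasDerivAt (fun u : ℝ => Real.exp (x * u)) (Real.exp (x * t) * x) t := by
    have h5 : HasDerivAt (fun u : ℝ => x * u) x t := by
      simpa using (hasDerivAt_id t).const_mul x
    exact h5.exp
  have h6 := h4.smul h2
  have h7 : Real.exp (x * t) • (-(sol2g x δ f t)) + (Real.exp (x * t) * x) •
      (∫ s in t..0, sol2g x δ f s) = x • sol2k x δ f t - vp δ t • xt f t := by
    unfold sol2k sol2g
    rw [smul_neg, smul_smul, ← Real.exp_add, add_neg_cancel, Real.exp_zero, one_smul, smul_smul,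
      mul_comm (Real.exp (x * t)) x]
    abel
  rw [← h7]
  exact h6

lemma sol2_int1 (x t : ℝ) (hx : 0 < x) :
    ∫ s in t..0, Real.exp (x * (t - s)) ≤ 1 / x := by
  have h1 : ∀ s ∈ Set.uIcc t 0, HasDerivAt (fun s : ℝ => -(Real.exp (x * (t - s)) / x))
      (Real.exp (x * (t - s))) s := by
    intro s _
    have h5 : HasDerivAt (fun u : ℝ => x * (t - u)) (x * (-1)) s := by
      have := ((hasDerivAt_id s).const_sub t).const_mul x
      simpa using this
    have h6 := (h5.exp.div_const x).neg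
    have h7 : -(Real.exp (x * (t - s)) * (x * -1) / x) = Real.exp (x * (t - s)) := by
      field_simp
    rw [h7] at h6
    exact h6
  rw [intervalIntegral.integral_eq_sub_of_hasDerivAt h1
    ((by fun_prop : Continuous fun s : ℝ => Real.exp (x * (t - s))).intervalIntegrable _ _)]
  have h8 : 0 < Real.exp (x * (t - 0)) := Real.exp_pos _
  have h9 : Real.exp (x * (t - t)) = 1 := by simp
  rw [h9]
  have h10 : 0 < Real.exp (x * (t - 0)) / x := div_pos h8 hx
  linarith

lemma sol2_int2 (x t : ℝ) (hx : 0 < x) (ht : t ≤ 0) :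
    ∫ s in t..0, Real.exp (x * (t - s)) * Real.exp s ≤ min 1 (1 / x) := by
  refine le_min ?_ ?_
  · have h1 : ∫ s in t..0, Real.exp (x * (t - s)) * Real.exp s ≤ ∫ s in t..0, Real.exp s := by
      refine intervalIntegral.integral_mono_on ht
        ((by fun_prop : Continuous fun s : ℝ =>
          Real.exp (x * (t - s)) * Real.exp s).intervalIntegrable _ _)
        (Real.continuous_exp.intervalIntegrable _ _) ?_
      intro s hs
      have h2 : Real.exp (x * (t - s)) ≤ 1 :=
        Real.exp_le_one_iff.mpr (mul_nonpos_of_nonneg_of_nonpos hx.le (by linarith [hs.1]))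
      have h3 := Real.exp_pos s
      nlinarith
    rw [integral_exp] at h1
    have h4 := Real.exp_pos t
    rw [Real.exp_zero] at h1
    linarith
  · refine le_trans ?_ (sol2_int1 x t hx)
    refine intervalIntegral.integral_mono_on ht
      ((by fun_prop : Continuous fun s : ℝ =>
        Real.exp (x * (t - s)) * Real.exp s).intervalIntegrable _ _)
      ((by fun_prop : Continuous fun s : ℝ =>
        Real.exp (x * (t - s))).intervalIntegrable _ _) ?_
    intro s hs
    have h2 : Real.exp s ≤ 1 := Real.exp_le_one_iff.mpr hs.2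
    have h3 := Real.exp_pos (x * (t - s))
    nlinarith

omit [CompleteSpace V] in
lemma sol2k_norm (x δ : ℝ) (hx : 0 < x) (hδ : 0 < δ) (f : Tm →ᵇ V) (t : ℝ) (ht : t ≤ 0) :
    ‖sol2k x δ f t‖ ≤ (δ / x + min 1 (1 / x)) * ‖f‖ := by
  have e1 : sol2k x δ f t = ∫ s in t..0, Real.exp (x * t) • sol2g x δ f s := by
    unfold sol2k
    rw [intervalIntegral.integral_smul]
  have c1 : Continuous fun s : ℝ => (δ * Real.exp (x * (t - s)) +
      Real.exp (x * (t - s)) * Real.exp s) * ‖f‖ := by fun_prop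
  have h1 : ‖sol2k x δ f t‖ ≤ ∫ s in t..0, (δ * Real.exp (x * (t - s)) +
      Real.exp (x * (t - s)) * Real.exp s) * ‖f‖ := by
    rw [e1]
    refine intervalIntegral.norm_integral_le_of_norm_le ht ?_ (c1.intervalIntegrable _ _)
    refine Filter.Eventually.of_forall fun s _ => ?_
    unfold sol2g
    rw [smul_smul, ← Real.exp_add, norm_smul, norm_smul, Real.norm_eq_abs, Real.norm_eq_abs,
      abs_of_pos (Real.exp_pos _)]
    have h2 : x * t + -(x * s) = x * (t - s) := by ring
    rw [h2]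
    have h3 : |vp δ s| = δ + Real.exp s := by
      unfold vp
      exact abs_of_pos (by have := Real.exp_pos s; linarith)
    rw [h3]
    have h4 := sol2_xt_norm f s
    have h5 := Real.exp_pos s
    have h6 := Real.exp_pos (x * (t - s))
    have h7 : (δ + Real.exp s) * ‖xt f s‖ ≤ (δ + Real.exp s) * ‖f‖ :=
      mul_le_mul_of_nonneg_left h4 (by linarith)
    have h8 := mul_le_mul_of_nonneg_left h7 h6.le
    calc Real.exp (x * (t - s)) * ((δ + Real.exp s) * ‖xt f s‖)
        ≤ Real.exp (x * (t - s)) * ((δ + Real.exp s) * ‖f‖) := h8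
      _ = (δ * Real.exp (x * (t - s)) + Real.exp (x * (t - s)) * Real.exp s) * ‖f‖ := by ring
  refine h1.trans ?_
  rw [intervalIntegral.integral_mul_const]
  refine mul_le_mul_of_nonneg_right ?_ (norm_nonneg _)
  rw [intervalIntegral.integral_add
    ((by fun_prop : Continuous fun s : ℝ => δ * Real.exp (x * (t - s))).intervalIntegrable _ _)
    ((by fun_prop : Continuous fun s : ℝ =>
      Real.exp (x * (t - s)) * Real.exp s).intervalIntegrable _ _),
    intervalIntegral.integral_const_mul]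
  have h2 := sol2_int1 x t hx
  have h3 := sol2_int2 x t hx ht
  have h4 := mul_le_mul_of_nonneg_left h2 hδ.le
  have h5 : δ * (1 / x) = δ / x := by ring
  rw [h5] at h4
  linarith

omit [CompleteSpace V] in
lemma sol2k_add (x δ : ℝ) (f g : Tm →ᵇ V) (t : ℝ) :
    sol2k x δ (f + g) t = sol2k x δ f t + sol2k x δ g t := by
  have h : ∀ s, sol2g x δ (f + g) s = sol2g x δ f s + sol2g x δ g s := by
    intro s
    unfold sol2g xt
    rw [BoundedContinuousFunction.coe_add, Pi.add_apply, smul_add, smul_add]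
  unfold sol2k
  simp_rw [h]
  rw [intervalIntegral.integral_add ((sol2g_cont x δ f).intervalIntegrable _ _)
    ((sol2g_cont x δ g).intervalIntegrable _ _), smul_add]

omit [CompleteSpace V] in
lemma sol2k_smul (x δ c : ℝ) (f : Tm →ᵇ V) (t : ℝ) :
    sol2k x δ (c • f) t = c • sol2k x δ f t := by
  have h : ∀ s, sol2g x δ (c • f) s = c • sol2g x δ f s := by
    intro s
    unfold sol2g xt
    rw [BoundedContinuousFunction.coe_smul, smul_comm (vp δ s) c, smul_comm _ c]
  unfold sol2k
  simp_rw [h]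
  rw [intervalIntegral.integral_smul, smul_comm]

/-- TASK Sol2.  `K f (t) = ∫_t^0 e^(x (t-s)) ϖ(s) f(s) ds`: linear, vanishes at `0`,
`(K f)' = x K f - ϖ f`, and `∫_t^0 e^(x (t-s)) (δ + e^s) ds ≤ δ / x + min 1 (1/x)`. -/
theorem exists_Kp (x δ : ℝ) (hx : 0 < x) (hδ : 0 < δ) : ∃ K : (Tm →ᵇ V) →ₗ[ℝ] (Tm →ᵇ V),
    (∀ f, ‖K f‖ ≤ (δ / x + min 1 (1 / x)) * ‖f‖) ∧ (∀ f, K f t0 = 0) ∧
    ∀ (f : Tm →ᵇ V) (t : ℝ), t < 0 →
      HasDerivAt (xt (K f)) (x • xt (K f) t - vp δ t • xt f t) t := by
  have hc : ∀ f : Tm →ᵇ V, Continuous fun t : Tm => sol2k x δ f (t : ℝ) := by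
    intro f
    have h1 : Continuous (sol2k x δ f) :=
      continuous_iff_continuousAt.mpr fun t => (sol2k_deriv x δ f t).continuousAt
    exact h1.comp continuous_subtype_val
  have hb : ∀ (f : Tm →ᵇ V) (t : Tm), ‖sol2k x δ f (t : ℝ)‖ ≤ (δ / x + min 1 (1 / x)) * ‖f‖ :=
    fun f t => sol2k_norm x δ hx hδ f t t.2
  have hpos : 0 ≤ δ / x + min 1 (1 / x) := by positivity
  refine ⟨{
      toFun := fun f => BoundedContinuousFunction.ofNormedAddCommGroup
        (fun t : Tm => sol2k x δ f (t : ℝ)) (hc f) _ (hb f)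
      map_add' := ?_
      map_smul' := ?_ }, ?_, ?_, ?_⟩
  · intro f g
    ext t
    exact sol2k_add x δ f g t
  · intro c f
    ext t
    exact sol2k_smul x δ c f t
  · intro f
    refine (BoundedContinuousFunction.norm_le (mul_nonneg hpos (norm_nonneg _))).mpr ?_
    intro t
    exact hb f t
  · intro f
    show sol2k x δ f ((t0 : Tm) : ℝ) = 0
    unfold sol2k t0
    simp
  · intro f t ht
    have h1 := sol2k_deriv x δ f t
    have h2 : ∀ u : ℝ, u < 0 → xt (fun t : Tm => sol2k x δ f (t : ℝ)) u = sol2k x δ f u := by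
      intro u hu
      unfold xt
      simp only [min_eq_left hu.le]
    have h3 : HasDerivAt (xt (fun t : Tm => sol2k x δ f (t : ℝ)))
        (x • sol2k x δ f t - vp δ t • xt f t) t := by
      refine h1.congr_of_eventuallyEq ?_
      filter_upwards [Iio_mem_nhds ht] with u hu
      exact h2 u hu
    show HasDerivAt (xt (fun t : Tm => sol2k x δ f (t : ℝ)))
      (x • xt (fun t : Tm => sol2k x δ f (t : ℝ)) t - vp δ t • xt f t) t
    rw [h2 t ht]
    exact h3

/-- The exponential solution `t ↦ e^(x t) w`. -/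
theorem exists_Ex (x : ℝ) (hx : 0 < x) : ∃ E : V →ₗ[ℝ] (Tm →ᵇ V),
    (∀ w, ‖E w‖ ≤ ‖w‖) ∧ (∀ w, E w t0 = w) ∧
    ∀ (w : V) (t : ℝ), t < 0 → HasDerivAt (xt (E w)) (x • xt (E w) t) t := by
  have hc : ∀ w : V, Continuous fun t : Tm => Real.exp (x * (t : ℝ)) • w := by
    intro w
    fun_prop
  have hb : ∀ (w : V) (t : Tm), ‖Real.exp (x * (t : ℝ)) • w‖ ≤ ‖w‖ := by
    intro w t
    rw [norm_smul, Real.norm_eq_abs, abs_of_pos (Real.exp_pos _)]
    have h1 : Real.exp (x * (t : ℝ)) ≤ 1 :=
      Real.exp_le_one_iff.mpr (mul_nonpos_of_nonneg_of_nonpos hx.le t.2)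
    have h2 := norm_nonneg w
    nlinarith
  refine ⟨{
      toFun := fun w => BoundedContinuousFunction.ofNormedAddCommGroup
        (fun t : Tm => Real.exp (x * (t : ℝ)) • w) (hc w) _ (hb w)
      map_add' := ?_
      map_smul' := ?_ }, ?_, ?_, ?_⟩
  · intro f g
    ext t
    exact smul_add _ _ _
  · intro c f
    ext t
    exact smul_comm _ _ _
  · intro w
    refine (BoundedContinuousFunction.norm_le (norm_nonneg _)).mpr ?_
    intro t
    exact hb w t
  · intro w
    show Real.exp (x * ((t0 : Tm) : ℝ)) • w = w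
    unfold t0
    simp
  · intro w t ht
    have h2 : ∀ u : ℝ, u < 0 →
        xt (fun t : Tm => Real.exp (x * (t : ℝ)) • w) u = Real.exp (x * u) • w := by
      intro u hu
      unfold xt
      simp only [min_eq_left hu.le]
    have h4 : HasDerivAt (fun u : ℝ => Real.exp (x * u)) (Real.exp (x * t) * x) t := by
      have h5 : HasDerivAt (fun u : ℝ => x * u) x t := by
        simpa using (hasDerivAt_id t).const_mul x
      exact h5.exp
    have h5 : HasDerivAt (fun u : ℝ => Real.exp (x * u) • w) ((Real.exp (x * t) * x) • w) t :=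
      h4.smul_const w
    show HasDerivAt (xt (fun t : Tm => Real.exp (x * (t : ℝ)) • w))
      (x • xt (fun t : Tm => Real.exp (x * (t : ℝ)) • w) t) t
    rw [h2 t ht, smul_smul, mul_comm x]
    refine h5.congr_of_eventuallyEq ?_
    filter_upwards [Iio_mem_nhds ht] with u hu
    exact h2 u hu

end
end OD16
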