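import Pool.Agent.LibOD16.Sol0

set_option autoImplicit false
namespace OD16
noncomputable section

/-- `S = √((q-4)² + 4 q λ)`, `λ = l (l+3)`. -/
def SS (l : ℕ) (q : ℝ) : ℝ := Real.sqrt ((q - 4) ^ 2 + 4 * q * ((l : ℝ) * (l + 3)))
/-- The negative eigenvalue. -/
def xm (l : ℕ) (q : ℝ) : ℝ := (-(6 + q) - SS l q) / 2
/-- The other eigenvalue. -/
def xp (l : ℕ) (q : ℝ) : ℝ := (-(6 + q) + SS l q) / 2

private lemma solN_sq (l : ℕ) {q : ℝ} (hq : 1 ≤ q) :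
    SS l q ^ 2 = (q - 4) ^ 2 + 4 * q * ((l : ℝ) * (l + 3)) := by
  unfold SS
  rw [Real.sq_sqrt]
  positivity

/-- TASK SolN.  Elementary properties, `q = 1/(1-δ) ∈ (1, 10/9]`. -/
lemma xp_sub_xm (l : ℕ) (q : ℝ) : xp l q - xm l q = SS l q := by
  unfold xp xm
  ring

lemma xp_mul_xm (l : ℕ) {q : ℝ} (hq : 1 ≤ q) :
    xp l q * xm l q = 5 * (1 + q) - q * ((l : ℝ) * (l + 3)) := by
  have h := solN_sq l hq
  unfold xp xm
  nlinarith [h]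

/-- Both are roots of `x² + (6+q) x + 5 (1+q) - q λ`. -/
lemma xp_root (l : ℕ) {q : ℝ} (hq : 1 ≤ q) :
    xp l q ^ 2 + (6 + q) * xp l q + 5 * (1 + q) - q * ((l : ℝ) * (l + 3)) = 0 := by
  have h := solN_sq l hq
  unfold xp
  nlinarith [h]

lemma xm_root (l : ℕ) {q : ℝ} (hq : 1 ≤ q) :
    xm l q ^ 2 + (6 + q) * xm l q + 5 * (1 + q) - q * ((l : ℝ) * (l + 3)) = 0 := by
  have h := solN_sq l hq
  unfold xm
  nlinarith [h]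

lemma SS_ge (l : ℕ) {q : ℝ} (hq : 1 ≤ q) (hq1 : q ≤ 10 / 9) (hl : 1 ≤ l) :
    2 * (l : ℝ) + 3 ≤ SS l q := by
  have hl' : (1 : ℝ) ≤ l := by exact_mod_cast hl
  unfold SS
  refine Real.le_sqrt_of_sq_le ?_
  have h1 : (4 : ℝ) ≤ (l : ℝ) * (l + 3) := by nlinarith
  nlinarith [mul_nonneg (sub_nonneg.2 hq) (sub_nonneg.2 h1),
    mul_nonneg (sub_nonneg.2 hq) (sub_nonneg.2 hq)]

lemma SS_le (l : ℕ) {q : ℝ} (hq : 1 ≤ q) (hq1 : q ≤ 10 / 9) (hl : 1 ≤ l) :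
    SS l q ≤ 2.11 * (l : ℝ) + 3.3 := by
  have hl' : (1 : ℝ) ≤ l := by exact_mod_cast hl
  unfold SS
  refine Real.sqrt_le_iff.2 ⟨by positivity, ?_⟩
  have h1 : (0 : ℝ) ≤ (l : ℝ) * (l + 3) := by positivity
  have h2 : (q - 4) ^ 2 ≤ 9 := by nlinarith
  have h3 : q * ((l : ℝ) * (l + 3)) ≤ 10 / 9 * ((l : ℝ) * (l + 3)) :=
    mul_le_mul_of_nonneg_right hq1 h1
  nlinarith [mul_nonneg (sub_nonneg.2 hl') (sub_nonneg.2 hl')]

lemma xm_le (l : ℕ) {q : ℝ} (hq : 1 ≤ q) (hq1 : q ≤ 10 / 9) (hl : 1 ≤ l) :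
    xm l q ≤ -((l : ℝ) + 5) := by
  have h := SS_ge l hq hq1 hl
  unfold xm
  linarith

/-- `|x⁻ + 1 + q| ≤ 1.1 (l+3)` and `|x⁻ + 1 + q| ≤ |x⁻|`. -/
lemma abs_xm_add_le (l : ℕ) {q : ℝ} (hq : 1 ≤ q) (hq1 : q ≤ 10 / 9) (hl : 2 ≤ l) :
    |xm l q + 1 + q| ≤ 1.1 * ((l : ℝ) + 3) ∧ |xm l q + 1 + q| ≤ -xm l q := by
  have h := SS_ge l hq hq1 (by omega)
  have h' := SS_le l hq hq1 (by omega)
  have hl' : (2 : ℝ) ≤ l := by exact_mod_cast hl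
  have e : xm l q + 1 + q = -((4 - q + SS l q) / 2) := by
    unfold xm
    ring
  rw [e, abs_neg, abs_of_nonneg (by linarith)]
  constructor
  · linarith
  · unfold xm
    linarith

lemma xp_add_le (l : ℕ) {q : ℝ} (hq : 1 ≤ q) (hq1 : q ≤ 10 / 9) (hl : 2 ≤ l) :
    0 < xp l q + 1 + q ∧ xp l q + 1 + q ≤ 1.2 * (l : ℝ) := by
  have h := SS_ge l hq hq1 (by omega)
  have h' := SS_le l hq hq1 (by omega)
  have hl' : (2 : ℝ) ≤ l := by exact_mod_cast hl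
  unfold xp
  constructor
  · linarith
  · linarith

/-- `x⁺ ≥ 0.3 l` for `l ≥ 3`. -/
lemma xp_ge (l : ℕ) {q : ℝ} (hq : 1 ≤ q) (hq1 : q ≤ 10 / 9) (hl : 3 ≤ l) :
    0.3 * (l : ℝ) ≤ xp l q := by
  have h := SS_ge l hq hq1 (by omega)
  have hl' : (3 : ℝ) ≤ l := by exact_mod_cast hl
  unfold xp
  linarith

private lemma solN_q {δ : ℝ} (hδ : 0 < δ) (hδ1 : δ < 1 / 10) :
    1 ≤ 1 / (1 - δ) ∧ 1 / (1 - δ) ≤ 10 / 9 ∧ 1 + δ ≤ 1 / (1 - δ) := by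
  have h1 : (0 : ℝ) < 1 - δ := by linarith
  refine ⟨?_, ?_, ?_⟩
  · rw [le_div_iff₀ h1]
    linarith
  · rw [div_le_iff₀ h1]
    linarith
  · rw [le_div_iff₀ h1]
    nlinarith

/-- Near resonance at `l = 2`:  `x⁺ = 5 (q - 1) / |x⁻| ≥ 5 δ / 9`. -/
lemma xp_two {δ : ℝ} (hδ : 0 < δ) (hδ1 : δ < 1 / 10) : 5 * δ / 9 ≤ xp 2 (1 / (1 - δ)) := by
  obtain ⟨hq, hq1, hq2⟩ := solN_q hδ hδ1
  set q := 1 / (1 - δ) with hqdef
  have h1 := xp_mul_xm 2 hq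
  have h2 := SS_ge 2 hq hq1 (by norm_num)
  have h3 := SS_le 2 hq hq1 (by norm_num)
  have h4 : 0 < xp 2 q + 1 + q := (xp_add_le 2 hq hq1 le_rfl).1
  push_cast at h1 h2 h3
  have h5 : -xm 2 q ≤ 9 := by
    unfold xm
    linarith
  have h6 : 0 < -xm 2 q := by
    unfold xm
    linarith
  by_contra hc
  push Not at hc
  have h7 : xp 2 q * (-xm 2 q) = 5 * (q - 1) := by
    have : xp 2 q * (-xm 2 q) = -(xp 2 q * xm 2 q) := by ring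
    rw [this, h1]
    ring
  have h8 : xp 2 q * (-xm 2 q) < 5 * δ / 9 * (-xm 2 q) := mul_lt_mul_of_pos_right hc h6
  have h9 : 5 * δ / 9 * (-xm 2 q) ≤ 5 * δ / 9 * 9 :=
    mul_le_mul_of_nonneg_left h5 (by positivity)
  linarith

lemma denom_ge (l : ℕ) {q : ℝ} (hq : 1 ≤ q) (hq1 : q ≤ 10 / 9) (hl : 2 ≤ l) :
    0.4 * ((l : ℝ) * (l + 3)) ≤ (l : ℝ) * (l + 3) + xm l q + 1 + q := by
  have h' := SS_le l hq hq1 (by omega)
  have hl' : (2 : ℝ) ≤ l := by exact_mod_cast hl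
  unfold xm
  nlinarith [mul_nonneg (sub_nonneg.2 hl') (sub_nonneg.2 hl')]

/-- The norm of the operator of `exists_Kp`: `δ/x⁺ + min 1 (1/x⁺) ≤ 6 / l`. -/
lemma Kp_const (l : ℕ) {δ : ℝ} (hδ : 0 < δ) (hδ1 : δ < 1 / 10) (hl : 2 ≤ l) :
    0 < xp l (1 / (1 - δ)) ∧
    δ / xp l (1 / (1 - δ)) + min 1 (1 / xp l (1 / (1 - δ))) ≤ 6 / l := by
  obtain ⟨hq, hq1, hq2⟩ := solN_q hδ hδ1
  rcases Nat.lt_or_ge l 3 with h3 | h3
  · have hl2 : l = 2 := by omega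
    subst hl2
    have h1 := xp_two hδ hδ1
    have h0 : 0 < xp 2 (1 / (1 - δ)) := lt_of_lt_of_le (by positivity) h1
    refine ⟨h0, ?_⟩
    have h4 : δ / xp 2 (1 / (1 - δ)) ≤ 9 / 5 := by
      rw [div_le_iff₀ h0]
      linarith
    have h5 : min 1 (1 / xp 2 (1 / (1 - δ))) ≤ 1 := min_le_left _ _
    have h6 : (6 : ℝ) / ((2 : ℕ) : ℝ) = 3 := by norm_num
    rw [h6]
    linarith
  · have h1 := xp_ge l hq hq1 h3
    have hl' : (3 : ℝ) ≤ l := by exact_mod_cast h3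
    have hl0 : (0 : ℝ) < l := by linarith
    have h0 : 0 < xp l (1 / (1 - δ)) := lt_of_lt_of_le (by positivity) h1
    refine ⟨h0, ?_⟩
    have h4 : δ / xp l (1 / (1 - δ)) ≤ 1 / l := by
      rw [div_le_div_iff₀ h0 hl0]
      nlinarith
    have h5 : min 1 (1 / xp l (1 / (1 - δ))) ≤ 5 / l := by
      refine (min_le_right _ _).trans ?_
      rw [div_le_div_iff₀ h0 hl0]
      linarith
    have h6 : (1 : ℝ) / l + 5 / l = 6 / l := by ring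
    linarith

end
end OD16
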