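import Pool.Agent.LibOD16.Sol1
import Pool.Agent.LibOD16.Sol2
import Pool.Agent.LibOD16.SolN

set_option autoImplicit false
namespace OD16
open MeasureTheory Metric
open scoped BoundedContinuousFunction
noncomputable section

private lemma sol3_alg1 {V : Type*} [AddCommGroup V] [Module ℝ V] (A B e f : V) (L q x y S v : ℝ) (hL : 0 < L) (hS0 : 0 < S) (hxs : x = S + y)
    (hprod : (x + 1 + q) * (y + 1 + q) = -(q * (L * (L + 3)))) :
    ((x + 1 + q) / (L * (L + 3) * S)) • (y • A + v • ((-(L * (L + 3) * q)) • e + (-((y + 1 + q) * (L + 3))) • f)) +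
      (-((y + 1 + q) / (L * (L + 3) * S))) • (x • B + v • ((-(L * (L + 3) * q)) • e + (-((x + 1 + q) * (L + 3))) • f)) =
    (-(1 + q)) • (((x + 1 + q) / (L * (L + 3) * S)) • A
      + (-((y + 1 + q) / (L * (L + 3) * S))) • B)
      + q • (((1 / S) • B + (-(1 / S)) • A) - v • e) := by
  subst hxs
  match_scalars
  all_goals
    field_simp
    first
      | ring1
      | linear_combination hprod
      | linear_combination (-1) * hprod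

private lemma sol3_alg2 {V : Type*} [AddCommGroup V] [Module ℝ V] (A B e f : V) (L q x y S v : ℝ) (hL : 0 < L) (hS0 : 0 < S) (hxs : x = S + y)
    (hsum : x + y = -(6 + q)) :
    (1 / S) • (x • B + v • ((-(L * (L + 3) * q)) • e + (-((x + 1 + q) * (L + 3))) • f)) +
      (-(1 / S)) • (y • A + v • ((-(L * (L + 3) * q)) • e + (-((y + 1 + q) * (L + 3))) • f)) =
    -((5 : ℝ) • ((1 / S) • B + (-(1 / S)) • A)) + (L * (L + 3)) •
      (((x + 1 + q) / (L * (L + 3) * S)) • A + (-((y + 1 + q) / (L * (L + 3) * S))) • B)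
      - ((L + 3) * v) • f := by
  subst hxs
  match_scalars
  all_goals
    field_simp
    first
      | ring1
      | linear_combination hsum
      | linear_combination (-1) * hsum

private lemma sol3_alg3 {V : Type*} [AddCommGroup V] [Module ℝ V] (A e g : V) (L q x y S v : ℝ) (hL : 0 < L) (hS0 : 0 < S) (hq : 0 < q)
    (hxs : x = S + y) (hD : L * (L + 3) + y + 1 + q ≠ 0) :
    (-(1 + q)) • (((x + 1 + q) / (L * (L + 3) * S)) • A
      + (-((y + 1 + q) / (L * (L + 3) * S))) • ((L * (L + 3) + y + 1 + q)⁻¹ • ((L * (L + 3) * S * v) • e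
      + (L * (L + 3) * S * q⁻¹) • g + (L * (L + 3) + x + 1 + q) • A) - (0 : V)))
      + q • (((1 / S) • ((L * (L + 3) + y + 1 + q)⁻¹ • ((L * (L + 3) * S * v) • e
      + (L * (L + 3) * S * q⁻¹) • g + (L * (L + 3) + x + 1 + q) • A) - (0 : V)) + (-(1 / S)) • A) - v • e)
      + (((x + 1 + q) / (L * (L + 3) * S)) • A
      + (-((y + 1 + q) / (L * (L + 3) * S))) • ((L * (L + 3) + y + 1 + q)⁻¹ • ((L * (L + 3) * S * v) • e
      + (L * (L + 3) * S * q⁻¹) • g + (L * (L + 3) + x + 1 + q) • A) - (0 : V))) = g := by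
  subst hxs
  match_scalars
  all_goals
    field_simp
    ring


private lemma sol3_n1 (L q Y m a b N s W : ℝ) (hL : 2 ≤ L) (hq0 : 0 < q) (hq1 : q ≤ 10 / 9)
    (hY : L + 5 ≤ Y) (hm0 : 0 ≤ m) (hm : m ≤ Y) (ha : 0 ≤ a) (hb : 0 ≤ b) (hN : a + b ≤ N)
    (hs : s ≤ L * (L + 3) * q * a + m * (L + 3) * b) (hW : W ≤ 1.1 * s / Y) :
    W ≤ 1.3 * (L + 3) * N := by
  have hY0 : 0 < Y := by linarith
  refine hW.trans ((div_le_iff₀ hY0).2 ?_)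
  have hN0 : 0 ≤ N := by linarith
  have h1 : L * q ≤ 10 / 9 * Y := by nlinarith
  have h2 : L * (L + 3) * q * a ≤ 10 / 9 * Y * ((L + 3) * a) := by
    have h5 : 0 ≤ (L + 3) * a := by positivity
    have h6 := mul_le_mul_of_nonneg_right h1 h5
    linarith
  have h3 : m * (L + 3) * b ≤ 10 / 9 * Y * ((L + 3) * b) := by
    have h5 : 0 ≤ (L + 3) * b := by positivity
    have h6 := mul_le_mul_of_nonneg_right (hm.trans (show Y ≤ 10 / 9 * Y by linarith)) h5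
    linarith
  have h4 : 10 / 9 * Y * ((L + 3) * a) + 10 / 9 * Y * ((L + 3) * b)
      ≤ 10 / 9 * Y * ((L + 3) * N) := by
    have h5 : 0 ≤ 10 / 9 * Y * (L + 3) := by positivity
    have h6 := mul_le_mul_of_nonneg_left hN h5
    linarith
  have h5 : 0 ≤ Y * ((L + 3) * N) := by positivity
  linarith

private lemma sol3_n2 (L q P a b N s W c : ℝ) (hL : 2 ≤ L) (hq0 : 0 < q) (hq1 : q ≤ 10 / 9)
    (hP0 : 0 < P) (hP : P ≤ 1.2 * L) (ha : 0 ≤ a) (hb : 0 ≤ b) (hN : a + b ≤ N) (hs0 : 0 ≤ s)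
    (hs : s ≤ L * (L + 3) * q * a + P * (L + 3) * b) (hc : c ≤ 6 / L) (hW : W ≤ c * s) :
    W ≤ 7.2 * (L + 3) * N := by
  have hL0 : 0 < L := by linarith
  have h1 : W ≤ 6 / L * s := hW.trans (mul_le_mul_of_nonneg_right hc hs0)
  have h2 : L * (L + 3) * q * a ≤ 1.2 * L * ((L + 3) * a) := by
    have h5 : 0 ≤ L * ((L + 3) * a) := by positivity
    have h6 := mul_le_mul_of_nonneg_right (hq1.trans (show (10 : ℝ) / 9 ≤ 1.2 by norm_num)) h5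
    linarith
  have h3 : P * (L + 3) * b ≤ 1.2 * L * ((L + 3) * b) := by
    have h5 : 0 ≤ (L + 3) * b := by positivity
    have h6 := mul_le_mul_of_nonneg_right hP h5
    linarith
  have h4 : 1.2 * L * ((L + 3) * a) + 1.2 * L * ((L + 3) * b) ≤ 1.2 * L * ((L + 3) * N) := by
    have h5 : 0 ≤ 1.2 * L * (L + 3) := by positivity
    have h6 := mul_le_mul_of_nonneg_left hN h5
    linarith
  have h5 : 6 / L * s ≤ 6 / L * (1.2 * L * ((L + 3) * N)) :=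
    mul_le_mul_of_nonneg_left (by linarith) (by positivity)
  have h7 : 6 / L * (1.2 * L * ((L + 3) * N)) = 7.2 * (L + 3) * N := by
    field_simp
    ring
  linarith

private lemma sol3_n3 (L δ q D P S a b c N W M : ℝ) (hL : 2 ≤ L) (hδ : 0 < δ) (hδ1 : δ < 1 / 10)
    (hq : 1 ≤ q) (hS0 : 0 < S) (hS2 : S ≤ 2.11 * L + 3.3) (hP0 : 0 < P) (hP : P ≤ 1.2 * L)
    (hden : 0.4 * (L * (L + 3)) ≤ D) (ha : 0 ≤ a) (hb : 0 ≤ b) (hc : 0 ≤ c) (hN : a + b ≤ N)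
    (hM0 : 0 ≤ M) (hM : M ≤ 1.3 * (L + 3) * N)
    (hW : D * W ≤ (L * (L + 3) * S * (1 + δ)) * a + (L * (L + 3) * S * q⁻¹) * b
      + (L * (L + 3) + P) * M) :
    W ≤ 10.2 * (L + 3) * N := by
  have hL0 : 0 < L := by linarith
  have hD : 0 < D := lt_of_lt_of_le (by positivity) hden
  have hN0 : 0 ≤ N := by linarith
  have hqi : q⁻¹ ≤ 1 := inv_le_one_of_one_le₀ hq
  have h2 : (L * (L + 3) * S * (1 + δ)) * a + (L * (L + 3) * S * q⁻¹) * b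
      ≤ L * (L + 3) * S * (1.1 * N) := by
    have h3 : 0 ≤ L * (L + 3) * S := by positivity
    have h4 : (1 + δ) * a ≤ 1.1 * a := mul_le_mul_of_nonneg_right (by linarith) ha
    have h5 : q⁻¹ * b ≤ 1.1 * b := mul_le_mul_of_nonneg_right (by linarith) hb
    have h6 : (1 + δ) * a + q⁻¹ * b ≤ 1.1 * N := by linarith
    have h7 := mul_le_mul_of_nonneg_left h6 h3
    linarith
  have h3 : (L * (L + 3) + P) * M ≤ (1.24 * (L * (L + 3))) * (1.3 * (L + 3) * N) := by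
    refine mul_le_mul ?_ hM hM0 (by positivity)
    nlinarith
  have h4 : L * (L + 3) * S * (1.1 * N) ≤ L * (L + 3) * (2.11 * (L + 3)) * (1.1 * N) := by
    have h6 : S ≤ 2.11 * (L + 3) := by linarith
    have h5 : 0 ≤ L * (L + 3) := by positivity
    exact mul_le_mul_of_nonneg_right (mul_le_mul_of_nonneg_left h6 h5) (by positivity)
  have h5 : (0.4 * (L * (L + 3))) * (10.2 * (L + 3) * N) ≤ D * (10.2 * (L + 3) * N) :=
    mul_le_mul_of_nonneg_right hden (by positivity)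
  have h6 : 0 ≤ L * (L + 3) * ((L + 3) * N) := by positivity
  have h7 : D * W ≤ D * (10.2 * (L + 3) * N) := by
    refine hW.trans (le_trans ?_ h5)
    linarith
  exact le_of_mul_le_mul_left h7 hD

private lemma sol3_n4 (L P Y S N Wm Wp A : ℝ) (hL : 2 ≤ L) (hN : 0 ≤ N)
    (hS1 : 2 * L + 3 ≤ S) (hP0 : 0 < P) (hP : P ≤ 1.2 * L) (hY0 : 0 ≤ Y) (hY : Y ≤ 1.1 * (L + 3))
    (hm0 : 0 ≤ Wm) (hm : Wm ≤ 1.3 * (L + 3) * N) (hp0 : 0 ≤ Wp) (hp : Wp ≤ 17.4 * (L + 3) * N)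
    (hA : A ≤ P / (L * (L + 3) * S) * Wm + Y / (L * (L + 3) * S) * Wp) :
    A ≤ 50 * N / (L + 3) := by
  have hL0 : 0 < L := by linarith
  have hS0 : 0 < S := by linarith
  refine hA.trans ?_
  have h1 : P / (L * (L + 3) * S) * Wm + Y / (L * (L + 3) * S) * Wp
    = (P * Wm + Y * Wp) / (L * (L + 3) * S) := by ring
  rw [h1, div_le_div_iff₀ (by positivity) (by positivity)]
  have h2 : P * Wm ≤ (1.2 * L) * (1.3 * (L + 3) * N) :=
    mul_le_mul hP hm hm0 (by positivity)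
  have h3 : Y * Wp ≤ (1.1 * (L + 3)) * (17.4 * (L + 3) * N) :=
    mul_le_mul hY hp hp0 (by positivity)
  have h4 : (P * Wm + Y * Wp) * (L + 3)
      ≤ ((1.2 * L) * (1.3 * (L + 3) * N) + (1.1 * (L + 3)) * (17.4 * (L + 3) * N)) * (L + 3) :=
    mul_le_mul_of_nonneg_right (add_le_add h2 h3) (by linarith)
  have h5 : ((1.2 * L) * (1.3 * (L + 3) * N) + (1.1 * (L + 3)) * (17.4 * (L + 3) * N)) * (L + 3)
      ≤ 50 * N * (L * (L + 3) * (2 * L + 3)) := by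
    have h6 : 0 ≤ (L + 3) * N := by positivity
    have h7 : (1.56 * L * (L + 3) + 19.14 * (L + 3) ^ 2) ≤ 50 * (L * (2 * L + 3)) := by
      nlinarith
    have h8 := mul_le_mul_of_nonneg_right h7 h6
    linarith
  have h6 : 50 * N * (L * (L + 3) * (2 * L + 3)) ≤ 50 * N * (L * (L + 3) * S) :=
    mul_le_mul_of_nonneg_left (mul_le_mul_of_nonneg_left hS1 (by positivity)) (by positivity)
  linarith

private lemma sol3_n5 (L S N Wm Wp B : ℝ) (hL : 2 ≤ L) (hN : 0 ≤ N)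
    (hS1 : 2 * L + 3 ≤ S) (hm : Wm ≤ 1.3 * (L + 3) * N) (hp : Wp ≤ 17.4 * (L + 3) * N)
    (hB : B ≤ 1 / S * Wp + 1 / S * Wm) :
    B ≤ 18.7 * N := by
  have hS0 : 0 < S := by linarith
  refine hB.trans ?_
  have h2 : 1 / S * Wp + 1 / S * Wm = (Wp + Wm) / S := by ring
  rw [h2, div_le_iff₀ hS0]
  have h3 : (L + 3) * N ≤ S * N := mul_le_mul_of_nonneg_right (by linarith) hN
  linarith

variable {V : Type*} [NormedAddCommGroup V] [NormedSpace ℝ V] [CompleteSpace V]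

omit [CompleteSpace V] in
private lemma sol3_mul {δ : ℝ} (hδ : 0 < δ) : ∃ M : (Tm →ᵇ V) →ₗ[ℝ] (Tm →ᵇ V),
    (∀ (f : Tm →ᵇ V) (t : Tm), M f t = vp δ t • f t) ∧ ∀ f, ‖M f‖ ≤ (1 + δ) * ‖f‖ := by
  have hb : ∀ (f : Tm →ᵇ V) (t : Tm), ‖vp δ t • f t‖ ≤ (1 + δ) * ‖f‖ := by
    intro f t
    have h1 : Real.exp t ≤ 1 := Real.exp_le_one_iff.mpr t.2
    have h2 : 0 < Real.exp (t : ℝ) := Real.exp_pos _
    rw [norm_smul, Real.norm_eq_abs, abs_of_pos (by unfold vp; linarith)]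
    exact mul_le_mul (by unfold vp; linarith) (f.norm_coe_le_norm t) (norm_nonneg _)
      (by linarith)
  have hc : ∀ f : Tm →ᵇ V, Continuous (fun t : Tm => vp δ t • f t) := by
    intro f
    unfold vp
    fun_prop
  refine ⟨{ toFun := fun f => BoundedContinuousFunction.ofNormedAddCommGroup
              (fun t : Tm => vp δ t • f t) (hc f) ((1 + δ) * ‖f‖) (hb f)
            map_add' := ?_
            map_smul' := ?_ }, ?_, ?_⟩
  · intro f g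
    ext t
    simp [smul_add]
  · intro c f
    ext t
    change vp δ t • (c • f t) = c • (vp δ t • f t)
    rw [smul_comm]
  · intro f t
    rfl
  · intro f
    exact BoundedContinuousFunction.norm_ofNormedAddCommGroup_le (hc f) (by positivity) (hb f)

private lemma sol3_core (L δ q x y S : ℝ) (hL : 2 ≤ L) (hδ : 0 < δ) (hδ1 : δ < 1 / 10)
    (hq : 1 ≤ q) (hq1 : q ≤ 10 / 9) (hx : 0 < x) (hKc : δ / x + min 1 (1 / x) ≤ 6 / L)
    (hsum : x + y = -(6 + q)) (hprod : (x + 1 + q) * (y + 1 + q) = -(q * (L * (L + 3))))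
    (hS : x - y = S) (hS1 : 2 * L + 3 ≤ S) (hS2 : S ≤ 2.11 * L + 3.3) (hy : y ≤ -(L + 5))
    (hy1 : |y + 1 + q| ≤ 1.1 * (L + 3)) (hy2 : |y + 1 + q| ≤ -y) (hx1 : 0 < x + 1 + q)
    (hx2 : x + 1 + q ≤ 1.2 * L) (hden : 0.4 * (L * (L + 3)) ≤ L * (L + 3) + y + 1 + q) :
    ∃ Sa Sa1 Sb : ((Tm →ᵇ V) × (Tm →ᵇ V) × V) →ₗ[ℝ] (Tm →ᵇ V),
      ∀ (e f : Tm →ᵇ V) (g : V),
        (∀ t : ℝ, t < 0 → HasDerivAt (xt (Sa (e, f, g))) (xt (Sa1 (e, f, g)) t) t) ∧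
        (∀ t : ℝ, t < 0 → HasDerivAt (xt (Sb (e, f, g)))
          (-((5 : ℝ) • xt (Sb (e, f, g)) t) + (L * (L + 3)) • xt (Sa (e, f, g)) t
            - ((L + 3) * vp δ t) • xt f t) t) ∧
        (∀ t : Tm, Sa1 (e, f, g) t = -((1 + q) • Sa (e, f, g) t)
          + q • (Sb (e, f, g) t - vp δ t • e t)) ∧
        Sa1 (e, f, g) t0 + Sa (e, f, g) t0 = g ∧
        (L + 3) * ‖Sa (e, f, g)‖ ≤ 100 * (‖e‖ + ‖f‖ + ‖g‖) ∧
        ‖Sa1 (e, f, g)‖ ≤ 100 * (‖e‖ + ‖f‖ + ‖g‖) ∧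
        ‖Sb (e, f, g)‖ ≤ 100 * (‖e‖ + ‖f‖ + ‖g‖) := by
  obtain ⟨M, hM, hMn⟩ := sol3_mul (V := V) hδ
  obtain ⟨Km, hKmn, hKmd⟩ := exists_Km (V := V) (-y) (by linarith)
  obtain ⟨Kp, hKpn, hKp0, hKpd⟩ := exists_Kp (V := V) x δ hx hδ
  obtain ⟨E, hEn, hE0, hEd⟩ := exists_Ex (V := V) x hx
  have hL0 : 0 < L := by linarith
  have hS0 : 0 < S := by linarith
  have hlam : 0 < L * (L + 3) := by positivity
  have hD : 0 < L * (L + 3) + y + 1 + q := by nlinarith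
  have hq0 : 0 < q := by linarith
  have hy0 : 0 < -y := by linarith
  -- sources
  let F1 : ((Tm →ᵇ V) × (Tm →ᵇ V) × V) →ₗ[ℝ] (Tm →ᵇ V) := LinearMap.fst ℝ _ _
  let F2 : ((Tm →ᵇ V) × (Tm →ᵇ V) × V) →ₗ[ℝ] (Tm →ᵇ V) :=
    LinearMap.fst ℝ _ _ ∘ₗ LinearMap.snd ℝ _ _
  let F3 : ((Tm →ᵇ V) × (Tm →ᵇ V) × V) →ₗ[ℝ] V :=
    LinearMap.snd ℝ _ _ ∘ₗ LinearMap.snd ℝ _ _
  let ev0 : (Tm →ᵇ V) →ₗ[ℝ] V :=
    { toFun := fun f => f t0, map_add' := fun _ _ => rfl, map_smul' := fun _ _ => rfl }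
  let σm : ((Tm →ᵇ V) × (Tm →ᵇ V) × V) →ₗ[ℝ] (Tm →ᵇ V) :=
    (-(L * (L + 3) * q)) • F1 + (-((y + 1 + q) * (L + 3))) • F2
  let σp : ((Tm →ᵇ V) × (Tm →ᵇ V) × V) →ₗ[ℝ] (Tm →ᵇ V) :=
    (-(L * (L + 3) * q)) • F1 + (-((x + 1 + q) * (L + 3))) • F2
  let Wm : ((Tm →ᵇ V) × (Tm →ᵇ V) × V) →ₗ[ℝ] (Tm →ᵇ V) := Km ∘ₗ M ∘ₗ σm
  let W0 : ((Tm →ᵇ V) × (Tm →ᵇ V) × V) →ₗ[ℝ] V :=
    (L * (L + 3) + y + 1 + q)⁻¹ • ((L * (L + 3) * S * (1 + δ)) • (ev0 ∘ₗ F1)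
      + (L * (L + 3) * S * q⁻¹) • F3 + (L * (L + 3) + x + 1 + q) • (ev0 ∘ₗ Wm))
  let Wp : ((Tm →ᵇ V) × (Tm →ᵇ V) × V) →ₗ[ℝ] (Tm →ᵇ V) := E ∘ₗ W0 - Kp ∘ₗ σp
  let Sa : ((Tm →ᵇ V) × (Tm →ᵇ V) × V) →ₗ[ℝ] (Tm →ᵇ V) :=
    ((x + 1 + q) / (L * (L + 3) * S)) • Wm + (-((y + 1 + q) / (L * (L + 3) * S))) • Wp
  let Sb : ((Tm →ᵇ V) × (Tm →ᵇ V) × V) →ₗ[ℝ] (Tm →ᵇ V) := (1 / S) • Wp + (-(1 / S)) • Wm
  let Sa1 : ((Tm →ᵇ V) × (Tm →ᵇ V) × V) →ₗ[ℝ] (Tm →ᵇ V) :=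
    (-(1 + q)) • Sa + q • (Sb - M ∘ₗ F1)
  refine ⟨Sa, Sa1, Sb, ?_⟩
  intro e f g
  obtain ⟨p, hp⟩ : ∃ p : ((Tm →ᵇ V) × (Tm →ᵇ V) × V), p = (e, f, g) := ⟨_, rfl⟩
  rw [← hp]
  -- pointwise formulas
  have hσm : ∀ t : Tm, σm p t = (-(L * (L + 3) * q)) • e t + (-((y + 1 + q) * (L + 3))) • f t := by
    intro t
    rw [hp]
    rfl
  have hσp : ∀ t : Tm, σp p t = (-(L * (L + 3) * q)) • e t + (-((x + 1 + q) * (L + 3))) • f t := by
    intro t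
    rw [hp]
    rfl
  have hSa : ∀ t : Tm, Sa p t = ((x + 1 + q) / (L * (L + 3) * S)) • Wm p t
      + (-((y + 1 + q) / (L * (L + 3) * S))) • Wp p t := fun t => rfl
  have hSb : ∀ t : Tm, Sb p t = (1 / S) • Wp p t + (-(1 / S)) • Wm p t := fun t => rfl
  have hSa1 : ∀ t : Tm, Sa1 p t = (-(1 + q)) • Sa p t + q • (Sb p t - vp δ t • e t) := by
    intro t
    have h1 : Sa1 p t = (-(1 + q)) • Sa p t + q • (Sb p t - M (F1 p) t) := rfl
    rw [h1, hM, hp]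
    rfl
  have hW0 : W0 p = (L * (L + 3) + y + 1 + q)⁻¹ • ((L * (L + 3) * S * (1 + δ)) • e t0
      + (L * (L + 3) * S * q⁻¹) • g + (L * (L + 3) + x + 1 + q) • Wm p t0) := by
    rw [hp]
    rfl
  have hWp : ∀ t : Tm, Wp p t = E (W0 p) t - Kp (σp p) t := fun t => rfl
  -- derivatives of `w±`
  have dm : ∀ t : ℝ, t < 0 → HasDerivAt (xt (Wm p))
      (y • xt (Wm p) t + vp δ t • xt (σm p) t) t := by
    intro t ht
    have h1 := hKmd (M (σm p)) t ht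
    have h2 : xt (M (σm p)) t = vp δ t • xt (σm p) t := by
      unfold xt
      rw [hM]
      congr 2
      exact min_eq_left ht.le
    rw [h2] at h1
    have h3 : Km (M (σm p)) = Wm p := rfl
    rw [h3] at h1
    refine h1.congr_deriv ?_
    rw [neg_smul, neg_neg]
  have dp : ∀ t : ℝ, t < 0 → HasDerivAt (xt (Wp p))
      (x • xt (Wp p) t + vp δ t • xt (σp p) t) t := by
    intro t ht
    have h1 := (hEd (W0 p) t ht).sub (hKpd (σp p) t ht)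
    have h2 : xt (Wp p) = xt (E (W0 p)) - xt (Kp (σp p)) := rfl
    rw [h2]
    refine h1.congr_deriv ?_
    rw [Pi.sub_apply]
    module
  have hxs : x = S + y := by linarith
  have hys : S + y + y = -(6 + q) := by linarith
  have hSax : ∀ t : ℝ, xt (Sa p) t = ((x + 1 + q) / (L * (L + 3) * S)) • xt (Wm p) t
      + (-((y + 1 + q) / (L * (L + 3) * S))) • xt (Wp p) t := fun t => hSa _
  have hSbx : ∀ t : ℝ, xt (Sb p) t = (1 / S) • xt (Wp p) t + (-(1 / S)) • xt (Wm p) t :=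
    fun t => hSb _
  have h5 : ∀ t : ℝ, xt (σm p) t = (-(L * (L + 3) * q)) • xt e t
      + (-((y + 1 + q) * (L + 3))) • xt f t := fun t => hσm _
  have h6 : ∀ t : ℝ, xt (σp p) t = (-(L * (L + 3) * q)) • xt e t
      + (-((x + 1 + q) * (L + 3))) • xt f t := fun t => hσp _
  refine ⟨?_, ?_, ?_, ?_, ?_⟩
  · intro t ht
    have h1 := ((dm t ht).const_smul ((x + 1 + q) / (L * (L + 3) * S))).add
      ((dp t ht).const_smul (-((y + 1 + q) / (L * (L + 3) * S))))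
    have h2 : xt (Sa p) = ((x + 1 + q) / (L * (L + 3) * S)) • xt (Wm p)
      + (-((y + 1 + q) / (L * (L + 3) * S))) • xt (Wp p) := rfl
    rw [h2]
    refine h1.congr_deriv ?_
    have h3 : xt (Sa1 p) t = (-(1 + q)) • xt (Sa p) t
        + q • (xt (Sb p) t - vp δ (min t 0) • xt e t) := hSa1 _
    rw [h3, min_eq_left ht.le, hSax, hSbx, h5, h6]
    exact sol3_alg1 _ _ _ _ L q x y S _ hL0 hS0 hxs hprod
  · intro t ht
    have h1 := ((dp t ht).const_smul (1 / S)).add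
      ((dm t ht).const_smul (-(1 / S)))
    have h2 : xt (Sb p) = (1 / S) • xt (Wp p) + (-(1 / S)) • xt (Wm p) := rfl
    rw [h2]
    refine h1.congr_deriv ?_
    rw [← h2, hSax, hSbx, h5, h6]
    exact sol3_alg2 _ _ _ _ L q x y S _ hL0 hS0 hxs hsum
  · intro t
    rw [hSa1, neg_smul]
  · have h7 : vp δ ((t0 : Tm) : ℝ) = 1 + δ := by
      unfold vp t0
      simp [add_comm]
    rw [hSa1, hSa, hSb, hWp, hKp0, hE0, hW0, h7]
    exact sol3_alg3 _ _ _ L q x y S _ hL0 hS0 hq0 hxs hD.ne'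
  -- norms
  · have hN0 : 0 ≤ ‖e‖ + ‖f‖ + ‖g‖ := by positivity
    have he0 := norm_nonneg e
    have hf0 := norm_nonneg f
    have hg0 := norm_nonneg g
    have hL3 : |L + 3| = L + 3 := abs_of_pos (by linarith)
    have hLq : |L * (L + 3) * q| = L * (L + 3) * q := abs_of_pos (by positivity)
    have nσm : ‖σm p‖ ≤ L * (L + 3) * q * ‖e‖ + |y + 1 + q| * (L + 3) * ‖f‖ := by
      have h1 : σm p = (-(L * (L + 3) * q)) • e + (-((y + 1 + q) * (L + 3))) • f := by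
        rw [hp]
        rfl
      rw [h1]
      refine (norm_add_le _ _).trans (le_of_eq ?_)
      rw [norm_smul, norm_smul, Real.norm_eq_abs, Real.norm_eq_abs, abs_neg, abs_neg, hLq,
        abs_mul (y + 1 + q), hL3]
    have nσp : ‖σp p‖ ≤ L * (L + 3) * q * ‖e‖ + (x + 1 + q) * (L + 3) * ‖f‖ := by
      have h1 : σp p = (-(L * (L + 3) * q)) • e + (-((x + 1 + q) * (L + 3))) • f := by
        rw [hp]
        rfl
      rw [h1]
      refine (norm_add_le _ _).trans (le_of_eq ?_)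
      rw [norm_smul, norm_smul, Real.norm_eq_abs, Real.norm_eq_abs, abs_neg, abs_neg, hLq,
        abs_mul (x + 1 + q), hL3, abs_of_pos hx1]
    have nWm : ‖Wm p‖ ≤ 1.3 * (L + 3) * (‖e‖ + ‖f‖ + ‖g‖) := by
      have h1 : ‖Wm p‖ ≤ ‖M (σm p)‖ / (-y) := hKmn _
      have h2 : ‖M (σm p)‖ ≤ 1.1 * ‖σm p‖ :=
        (hMn _).trans (mul_le_mul_of_nonneg_right (by linarith) (norm_nonneg _))
      have h3 : ‖Wm p‖ ≤ 1.1 * ‖σm p‖ / (-y) := h1.trans (by gcongr)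
      exact sol3_n1 L q (-y) |y + 1 + q| ‖e‖ ‖f‖ _ ‖σm p‖ _ hL hq0 hq1 (by linarith)
        (abs_nonneg _) hy2 he0 hf0 (by linarith) nσm h3
    have nKp : ‖Kp (σp p)‖ ≤ 7.2 * (L + 3) * (‖e‖ + ‖f‖ + ‖g‖) :=
      sol3_n2 L q (x + 1 + q) ‖e‖ ‖f‖ _ ‖σp p‖ _ _ hL hq0 hq1 hx1 hx2 he0 hf0 (by linarith)
        (norm_nonneg _) nσp hKc (hKpn (σp p))
    have nW0 : ‖W0 p‖ ≤ 10.2 * (L + 3) * (‖e‖ + ‖f‖ + ‖g‖) := by
      have h2 : 0 < L * (L + 3) + (x + 1 + q) := by linarith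
      have h3 : L * (L + 3) + x + 1 + q = L * (L + 3) + (x + 1 + q) := by ring
      have h1 : ‖(L * (L + 3) * S * (1 + δ)) • e t0 + (L * (L + 3) * S * q⁻¹) • g
          + (L * (L + 3) + x + 1 + q) • Wm p t0‖
          ≤ (L * (L + 3) * S * (1 + δ)) * ‖e‖ + (L * (L + 3) * S * q⁻¹) * ‖g‖
          + (L * (L + 3) + (x + 1 + q)) * ‖Wm p‖ := by
        refine (norm_add_le _ _).trans (add_le_add ((norm_add_le _ _).trans
          (add_le_add ?_ ?_)) ?_)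
        · rw [norm_smul, Real.norm_eq_abs, abs_of_pos (by positivity)]
          exact mul_le_mul_of_nonneg_left (e.norm_coe_le_norm t0) (by positivity)
        · rw [norm_smul, Real.norm_eq_abs, abs_of_pos (by positivity)]
        · rw [norm_smul, Real.norm_eq_abs, h3, abs_of_pos h2]
          exact mul_le_mul_of_nonneg_left ((Wm p).norm_coe_le_norm t0) h2.le
      have h4 : (L * (L + 3) + y + 1 + q) * ‖W0 p‖
          = ‖(L * (L + 3) * S * (1 + δ)) • e t0 + (L * (L + 3) * S * q⁻¹) • g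
          + (L * (L + 3) + x + 1 + q) • Wm p t0‖ := by
        rw [hW0, norm_smul, norm_inv, Real.norm_eq_abs, abs_of_pos hD,
          mul_inv_cancel_left₀ hD.ne']
      exact sol3_n3 L δ q (L * (L + 3) + y + 1 + q) (x + 1 + q) S ‖e‖ ‖g‖ ‖f‖ _ _ ‖Wm p‖ hL hδ hδ1
        hq hS0 hS2 hx1 hx2 hden he0 hg0 hf0 (by linarith) (norm_nonneg _) nWm (h4.le.trans h1)
    have nWp : ‖Wp p‖ ≤ 17.4 * (L + 3) * (‖e‖ + ‖f‖ + ‖g‖) := by
      have h1 : ‖Wp p‖ ≤ ‖E (W0 p)‖ + ‖Kp (σp p)‖ := norm_sub_le _ _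
      have h2 := hEn (W0 p)
      linarith
    have nSa : ‖Sa p‖ ≤ ((x + 1 + q) / (L * (L + 3) * S)) * ‖Wm p‖
        + (|y + 1 + q| / (L * (L + 3) * S)) * ‖Wp p‖ := by
      have h1 : Sa p = ((x + 1 + q) / (L * (L + 3) * S)) • Wm p
        + (-((y + 1 + q) / (L * (L + 3) * S))) • Wp p := rfl
      rw [h1]
      refine (norm_add_le _ _).trans (le_of_eq ?_)
      rw [norm_smul, norm_smul, Real.norm_eq_abs, Real.norm_eq_abs, abs_neg, abs_div, abs_div,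
        abs_of_pos hx1, abs_of_pos (show 0 < L * (L + 3) * S by positivity)]
    have nSa2 : ‖Sa p‖ ≤ 50 * (‖e‖ + ‖f‖ + ‖g‖) / (L + 3) :=
      sol3_n4 L (x + 1 + q) |y + 1 + q| S _ ‖Wm p‖ ‖Wp p‖ _ hL hN0 hS1 hx1 hx2 (abs_nonneg _) hy1
        (norm_nonneg _) nWm (norm_nonneg _) nWp nSa
    have nSb : ‖Sb p‖ ≤ 18.7 * (‖e‖ + ‖f‖ + ‖g‖) := by
      have h1 : Sb p = (1 / S) • Wp p + (-(1 / S)) • Wm p := rfl
      refine sol3_n5 L S _ ‖Wm p‖ ‖Wp p‖ _ hL hN0 hS1 nWm nWp ?_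
      rw [h1]
      refine (norm_add_le _ _).trans (le_of_eq ?_)
      rw [norm_smul, norm_smul, Real.norm_eq_abs, Real.norm_eq_abs, abs_neg,
        abs_of_pos (show 0 < 1 / S by positivity)]
    have h7 : (L + 3) * ‖Sa p‖ ≤ 50 * (‖e‖ + ‖f‖ + ‖g‖) := by
      have h1 := (le_div_iff₀ (show 0 < L + 3 by linarith)).1 nSa2
      linarith
    have nSa3 : ‖Sa p‖ ≤ 10 * (‖e‖ + ‖f‖ + ‖g‖) := by
      have h1 : 5 * ‖Sa p‖ ≤ (L + 3) * ‖Sa p‖ :=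
        mul_le_mul_of_nonneg_right (by linarith) (norm_nonneg _)
      linarith
    refine ⟨by linarith, ?_, by linarith⟩
    have h1 : Sa1 p = (-(1 + q)) • Sa p + q • (Sb p - M e) := by
      rw [hp]
      rfl
    rw [h1]
    refine (norm_add_le _ _).trans ?_
    rw [norm_smul, norm_smul, Real.norm_eq_abs, Real.norm_eq_abs, abs_neg,
      abs_of_pos (show 0 < 1 + q by positivity), abs_of_pos hq0]
    have h2 : ‖Sb p - M e‖ ≤ 19.8 * (‖e‖ + ‖f‖ + ‖g‖) := by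
      have h3 : ‖Sb p - M e‖ ≤ ‖Sb p‖ + ‖M e‖ := norm_sub_le _ _
      have h4 : ‖M e‖ ≤ 1.1 * ‖e‖ :=
        (hMn e).trans (mul_le_mul_of_nonneg_right (by linarith) he0)
      linarith
    have h3 : (1 + q) * ‖Sa p‖ ≤ (1 + 10 / 9) * (10 * (‖e‖ + ‖f‖ + ‖g‖)) :=
      mul_le_mul (by linarith) nSa3 (norm_nonneg _) (by norm_num)
    have h4 : q * ‖Sb p - M e‖ ≤ 10 / 9 * (19.8 * (‖e‖ + ‖f‖ + ‖g‖)) :=
      mul_le_mul hq1 h2 (norm_nonneg _) (by norm_num)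
    linarith

/-- TASK Sol3.  The solver for `l ≥ 2` (section 5 of the notes):
`w⁻ = Km_{-x⁻}[-λ q ϖ e - (x⁻+1+q)(l+3) ϖ f]`,
`w⁺ = Ex_{x⁺}(w⁺(0)) - Kp_{x⁺}[-λ q e - (x⁺+1+q)(l+3) f]`,
`w⁺(0) = [λ S ((1+δ) e(0) + g/q) + (λ + x⁺ + 1 + q) w⁻(0)] / (λ + x⁻ + 1 + q)`  (`ϖ(0) = 1 + δ`),
`a = ((x⁺+1+q) w⁻ - (x⁻+1+q) w⁺)/(λ S)`, `b = (w⁺ - w⁻)/S`, `a1 = -(1+q) a + q (b - ϖ e)`.
Bounds: `‖w⁻‖ ≤ 1.3 (l+3) N`, `‖Kp[..]‖ ≤ 7.2 (l+3) N`, `|w⁺(0)| ≤ 10.2 (l+3) N`,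
`N = ‖e‖ + ‖f‖ + ‖g‖`. -/
theorem exists_sol_ge_two (l : ℕ) (hl : 2 ≤ l) {δ : ℝ} (hδ : 0 < δ) (hδ1 : δ < 1 / 10) :
    ∃ Sa Sa1 Sb : ((Tm →ᵇ V) × (Tm →ᵇ V) × V) →ₗ[ℝ] (Tm →ᵇ V),
      ∀ (e f : Tm →ᵇ V) (g : V),
        IsSol l δ e f (Sa (e, f, g)) (Sa1 (e, f, g)) (Sb (e, f, g)) ∧
        Sa1 (e, f, g) t0 + Sa (e, f, g) t0 = g ∧
        ((l : ℝ) + 3) * ‖Sa (e, f, g)‖ ≤ 100 * (‖e‖ + ‖f‖ + ‖g‖) ∧
        ‖Sa1 (e, f, g)‖ ≤ 100 * (‖e‖ + ‖f‖ + ‖g‖) ∧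
        ‖Sb (e, f, g)‖ ≤ 100 * (‖e‖ + ‖f‖ + ‖g‖) := by
  obtain ⟨q, hqd⟩ : ∃ q : ℝ, q = 1 / (1 - δ) := ⟨_, rfl⟩
  have h1δ : 0 < 1 - δ := by linarith
  have hq : 1 ≤ q := by
    rw [hqd, le_div_iff₀ h1δ]
    linarith
  have hq1 : q ≤ 10 / 9 := by
    rw [hqd, div_le_iff₀ h1δ]
    linarith
  have hK := Kp_const l hδ hδ1 hl
  rw [← hqd] at hK
  have hl' : (2 : ℝ) ≤ l := by exact_mod_cast hl
  have hsum : xp l q + xm l q = -(6 + q) := by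
    unfold xp xm
    ring
  have hprod : (xp l q + 1 + q) * (xm l q + 1 + q) = -(q * ((l : ℝ) * (l + 3))) := by
    have h1 := xp_mul_xm l hq
    linear_combination h1 + (1 + q) * hsum
  obtain ⟨Sa, Sa1, Sb, h⟩ := sol3_core (V := V) (l : ℝ) δ q (xp l q) (xm l q) (SS l q) hl' hδ hδ1
    hq hq1 hK.1 hK.2 hsum hprod (xp_sub_xm l q) (SS_ge l hq hq1 (by omega))
    (SS_le l hq hq1 (by omega)) (xm_le l hq hq1 (by omega)) (abs_xm_add_le l hq hq1 hl).1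
    (abs_xm_add_le l hq hq1 hl).2 (xp_add_le l hq hq1 hl).1 (xp_add_le l hq hq1 hl).2
    (denom_ge l hq hq1 hl)
  refine ⟨Sa, Sa1, Sb, ?_⟩
  intro e f g
  obtain ⟨h1, h2, h3, h4⟩ := h e f g
  refine ⟨⟨h1, h2, ?_⟩, h4⟩
  intro t
  rw [← hqd]
  exact h3 t

end
end OD16
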