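import Pool.Agent.LibOD16.Sol1

set_option autoImplicit false
namespace OD16
open MeasureTheory Metric
open scoped BoundedContinuousFunction
noncomputable section

variable {V : Type*} [NormedAddCommGroup V] [NormedSpace ℝ V] [CompleteSpace V]

/-- Multiplication by the weight. -/
def s4w (V : Type*) [NormedAddCommGroup V] [NormedSpace ℝ V] (δ : ℝ) :
    (Tm →ᵇ V) →ₗ[ℝ] (Tm →ᵇ V) where
  toFun e := vpB δ • e
  map_add' e f := by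
    ext t
    exact smul_add (vpB δ t) (e t) (f t)
  map_smul' r e := by
    ext t
    exact smul_comm (vpB δ t) r (e t)

lemma s4w_apply (δ : ℝ) (e : Tm →ᵇ V) (t : Tm) : s4w V δ e t = vp δ t • e t := rfl

lemma s4w_norm {δ : ℝ} (hδ : 0 < δ) (hδ1 : δ < 1 / 10) (e : Tm →ᵇ V) :
    ‖s4w V δ e‖ ≤ 11 / 10 * ‖e‖ := by
  have h0 : 0 ≤ ‖e‖ := norm_nonneg e
  refine (BoundedContinuousFunction.norm_le (by positivity)).mpr ?_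
  intro t
  rw [s4w_apply, norm_smul, Real.norm_eq_abs]
  have h1 : Real.exp (t : ℝ) ≤ 1 := Real.exp_le_one_iff.mpr t.2
  have h2 : 0 < Real.exp (t : ℝ) := Real.exp_pos _
  have h3 : |vp δ t| ≤ 11 / 10 := by
    unfold vp
    rw [abs_of_pos (by linarith)]
    linarith
  exact mul_le_mul h3 (e.norm_coe_le_norm t) (norm_nonneg _) (by norm_num)

lemma s4_xt_w {δ : ℝ} (e : Tm →ᵇ V) {t : ℝ} (ht : t < 0) :
    xt (s4w V δ e) t = vp δ t • xt e t := by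
  unfold xt
  rw [s4w_apply]
  have h : min t 0 = t := min_eq_left ht.le
  simp only [h]

lemma s4_xt_add (e f : Tm →ᵇ V) (t : ℝ) : xt (e + f) t = xt e t + xt f t := rfl
lemma s4_xt_sub (e f : Tm →ᵇ V) (t : ℝ) : xt (e - f) t = xt e t - xt f t := rfl
lemma s4_xt_smul (r : ℝ) (e : Tm →ᵇ V) (t : ℝ) : xt (r • e) t = r • xt e t := rfl

/-- First source. -/
def s4E (V : Type*) [NormedAddCommGroup V] [NormedSpace ℝ V] (δ : ℝ) :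
    ((Tm →ᵇ V) × (Tm →ᵇ V) × V) →ₗ[ℝ] (Tm →ᵇ V) :=
  s4w V δ ∘ₗ LinearMap.fst ℝ (Tm →ᵇ V) ((Tm →ᵇ V) × V)

/-- Second source. -/
def s4F (V : Type*) [NormedAddCommGroup V] [NormedSpace ℝ V] (δ : ℝ) :
    ((Tm →ᵇ V) × (Tm →ᵇ V) × V) →ₗ[ℝ] (Tm →ᵇ V) :=
  s4w V δ ∘ₗ LinearMap.fst ℝ (Tm →ᵇ V) V ∘ₗ LinearMap.snd ℝ (Tm →ᵇ V) ((Tm →ᵇ V) × V)

lemma s4E_apply (δ : ℝ) (e f : Tm →ᵇ V) (g : V) : s4E V δ (e, f, g) = s4w V δ e := rfl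
lemma s4F_apply (δ : ℝ) (e f : Tm →ᵇ V) (g : V) : s4F V δ (e, f, g) = s4w V δ f := rfl

lemma s4_q {δ : ℝ} (hδ : 0 < δ) (hδ1 : δ < 1 / 10) : 1 < 1 / (1 - δ) ∧ 1 / (1 - δ) < 10 / 9 := by
  have h1 : 0 < 1 - δ := by linarith
  constructor
  · rw [lt_div_iff₀ h1]
    linarith
  · rw [div_lt_div_iff₀ h1 (by norm_num)]
    linarith

lemma s4_norm_add_le (a b : ℝ) (x y : Tm →ᵇ V) {A B : ℝ} (ha : |a| ≤ A) (hb : |b| ≤ B) {X Y : ℝ}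
    (hx : ‖x‖ ≤ X) (hy : ‖y‖ ≤ Y) : ‖a • x + b • y‖ ≤ A * X + B * Y := by
  refine (norm_add_le _ _).trans ?_
  rw [norm_smul, norm_smul, Real.norm_eq_abs, Real.norm_eq_abs]
  exact add_le_add (mul_le_mul ha hx (norm_nonneg _) ((abs_nonneg _).trans ha))
    (mul_le_mul hb hy (norm_nonneg _) ((abs_nonneg _).trans hb))

/-- TASK Sol4.  The solver for `l = 1` and `l = 0` (`g` is ignored).
`l = 1`: `w⁺ = 4 a + q b = Km_1[-4 q ϖ e - q 4 ϖ f]`, `w⁻ = 4 a - 4 b = Km_{5+q}[-4 q ϖ e + 16 ϖ f]`.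
`l = 0`: `b = -Km_5[3 ϖ f]`, `a = q Km_{1+q}[b - ϖ e]`. -/
theorem exists_sol_one {δ : ℝ} (hδ : 0 < δ) (hδ1 : δ < 1 / 10) :
    ∃ Sa Sa1 Sb : ((Tm →ᵇ V) × (Tm →ᵇ V) × V) →ₗ[ℝ] (Tm →ᵇ V),
      ∀ (e f : Tm →ᵇ V) (g : V),
        IsSol 1 δ e f (Sa (e, f, g)) (Sa1 (e, f, g)) (Sb (e, f, g)) ∧
        4 * ‖Sa (e, f, g)‖ ≤ 100 * (‖e‖ + ‖f‖ + ‖g‖) ∧
        ‖Sa1 (e, f, g)‖ ≤ 100 * (‖e‖ + ‖f‖ + ‖g‖) ∧
        ‖Sb (e, f, g)‖ ≤ 100 * (‖e‖ + ‖f‖ + ‖g‖) := by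
  obtain ⟨hq1, hq2⟩ := s4_q hδ hδ1
  have hqd : 1 / (1 - δ) = 1 / (1 - δ) := rfl
  obtain ⟨q, hq⟩ : ∃ q : ℝ, q = 1 / (1 - δ) := ⟨_, rfl⟩
  rw [← hq] at hq1 hq2
  obtain ⟨K1, hK1, hK1d⟩ := exists_Km (V := V) 1 one_pos
  obtain ⟨K5, hK5, hK5d⟩ := exists_Km (V := V) (5 + q) (by linarith)
  obtain ⟨G1, hG1⟩ : ∃ G1 : ((Tm →ᵇ V) × (Tm →ᵇ V) × V) →ₗ[ℝ] (Tm →ᵇ V),
      G1 = (-(4 * q)) • s4E V δ + (-(4 * q)) • s4F V δ := ⟨_, rfl⟩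
  obtain ⟨G2, hG2⟩ : ∃ G2 : ((Tm →ᵇ V) × (Tm →ᵇ V) × V) →ₗ[ℝ] (Tm →ᵇ V),
      G2 = (-(4 * q)) • s4E V δ + (16 : ℝ) • s4F V δ := ⟨_, rfl⟩
  have hq4 : q + 4 ≠ 0 := by linarith
  refine ⟨(q + 4)⁻¹ • (K1 ∘ₗ G1) + ((q + 4)⁻¹ * (q / 4)) • (K5 ∘ₗ G2),
    (-(1 + q)) • ((q + 4)⁻¹ • (K1 ∘ₗ G1) + ((q + 4)⁻¹ * (q / 4)) • (K5 ∘ₗ G2)) +
      q • (((q + 4)⁻¹ • (K1 ∘ₗ G1) - (q + 4)⁻¹ • (K5 ∘ₗ G2)) - s4E V δ),
    (q + 4)⁻¹ • (K1 ∘ₗ G1) - (q + 4)⁻¹ • (K5 ∘ₗ G2), ?_⟩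
  intro e f g
  simp only [LinearMap.add_apply, LinearMap.smul_apply, LinearMap.sub_apply, LinearMap.comp_apply,
    hG1, hG2, s4E_apply, s4F_apply]
  have hE := s4w_norm hδ hδ1 e
  have hF := s4w_norm hδ hδ1 f
  have hN : 0 ≤ ‖e‖ := norm_nonneg e
  have hN2 : 0 ≤ ‖f‖ := norm_nonneg f
  have hN3 : 0 ≤ ‖g‖ := norm_nonneg g
  obtain ⟨ee, hee⟩ : ∃ ee, ee = s4w V δ e := ⟨_, rfl⟩
  obtain ⟨ff, hff⟩ : ∃ ff, ff = s4w V δ f := ⟨_, rfl⟩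
  rw [← hee] at hE
  rw [← hff] at hF
  rw [← hee, ← hff]
  obtain ⟨u, hu⟩ : ∃ u, u = K1 ((-(4 * q)) • ee + (-(4 * q)) • ff) := ⟨_, rfl⟩
  obtain ⟨w, hw⟩ : ∃ w, w = K5 ((-(4 * q)) • ee + (16 : ℝ) • ff) := ⟨_, rfl⟩
  have hun : ‖u‖ ≤ 5 * (‖e‖ + ‖f‖) := by
    rw [hu]
    refine (hK1 _).trans ?_
    rw [div_one]
    refine (norm_add_le _ _).trans ?_
    rw [norm_smul, norm_smul, norm_neg, Real.norm_eq_abs, abs_of_pos (by linarith)]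
    nlinarith [norm_nonneg ee, norm_nonneg ff]
  have hwn : ‖w‖ ≤ 3 * (‖e‖ + ‖f‖) := by
    rw [hw]
    refine (hK5 _).trans ?_
    rw [div_le_iff₀ (by linarith)]
    refine (norm_add_le _ _).trans ?_
    rw [norm_smul, norm_smul, norm_neg, Real.norm_eq_abs, Real.norm_eq_abs,
      abs_of_pos (by linarith : 0 < 4 * q), abs_of_pos (by norm_num : (0 : ℝ) < 16)]
    nlinarith [norm_nonneg ee, norm_nonneg ff]
  rw [← hu, ← hw]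
  have hud := hK1d ((-(4 * q)) • ee + (-(4 * q)) • ff)
  have hwd := hK5d ((-(4 * q)) • ee + (16 : ℝ) • ff)
  rw [← hu] at hud
  rw [← hw] at hwd
  have hi : (q + 4)⁻¹ ≤ 1 / 5 := by
    rw [inv_le_comm₀ (by linarith) (by norm_num)]
    linarith
  have hi0 : 0 < (q + 4)⁻¹ := inv_pos.mpr (by linarith)
  have hun0 : 0 ≤ ‖u‖ := norm_nonneg u
  have hwn0 : 0 ≤ ‖w‖ := norm_nonneg w
  have hbn : ‖(q + 4)⁻¹ • u - (q + 4)⁻¹ • w‖ ≤ 2 * (‖e‖ + ‖f‖) := by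
    refine (norm_sub_le _ _).trans ?_
    rw [norm_smul, norm_smul, Real.norm_eq_abs, abs_of_pos hi0]
    nlinarith
  have hqi : (q + 4)⁻¹ * (q / 4) ≤ 1 / 5 := by
    nlinarith
  have hqi0 : 0 < (q + 4)⁻¹ * (q / 4) := by positivity
  have han : ‖(q + 4)⁻¹ • u + ((q + 4)⁻¹ * (q / 4)) • w‖ ≤ 2 * (‖e‖ + ‖f‖) := by
    refine (norm_add_le _ _).trans ?_
    rw [norm_smul, norm_smul, Real.norm_eq_abs, Real.norm_eq_abs, abs_of_pos hi0, abs_of_pos hqi0]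
    nlinarith
  refine ⟨⟨?_, ?_, ?_⟩, ?_, ?_, ?_⟩
  · intro t ht
    have h1 := ((hud t ht).const_smul ((q + 4)⁻¹)).add
      ((hwd t ht).const_smul ((q + 4)⁻¹ * (q / 4)))
    refine h1.congr_deriv ?_
    simp only [s4_xt_add, s4_xt_sub, s4_xt_smul, one_smul]
    match_scalars <;> field_simp <;> ring
  · intro t ht
    have h1 := ((hud t ht).const_smul ((q + 4)⁻¹)).sub ((hwd t ht).const_smul ((q + 4)⁻¹))
    refine h1.congr_deriv ?_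
    have h2 : (((1 : ℕ) : ℝ) + 3) * vp δ t = 4 * vp δ t := by norm_num
    rw [h2, mul_smul (4 : ℝ) (vp δ t), ← s4_xt_w f ht, ← hff]
    simp only [s4_xt_add, s4_xt_sub, s4_xt_smul, one_smul]
    match_scalars <;> push_cast <;> field_simp <;> ring
  · intro t
    rw [← hq, ← s4w_apply, ← hee]
    simp only [BoundedContinuousFunction.add_apply, BoundedContinuousFunction.sub_apply,
      BoundedContinuousFunction.smul_apply]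
    rw [neg_smul]
  · linarith
  · refine (s4_norm_add_le (A := 3) (B := 2) _ _ _ _ ?_ ?_ han
      (Y := 4 * (‖e‖ + ‖f‖)) ?_).trans ?_
    · rw [abs_neg, abs_of_pos (by linarith)]
      linarith
    · rw [abs_of_pos (by linarith)]
      linarith
    · refine (norm_sub_le _ _).trans ?_
      linarith
    · linarith
  · linarith

theorem exists_sol_zero {δ : ℝ} (hδ : 0 < δ) (hδ1 : δ < 1 / 10) :
    ∃ Sa Sa1 Sb : ((Tm →ᵇ V) × (Tm →ᵇ V) × V) →ₗ[ℝ] (Tm →ᵇ V),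
      ∀ (e f : Tm →ᵇ V) (g : V),
        IsSol 0 δ e f (Sa (e, f, g)) (Sa1 (e, f, g)) (Sb (e, f, g)) ∧
        3 * ‖Sa (e, f, g)‖ ≤ 100 * (‖e‖ + ‖f‖ + ‖g‖) ∧
        ‖Sa1 (e, f, g)‖ ≤ 100 * (‖e‖ + ‖f‖ + ‖g‖) ∧
        ‖Sb (e, f, g)‖ ≤ 100 * (‖e‖ + ‖f‖ + ‖g‖) := by
  obtain ⟨hq1, hq2⟩ := s4_q hδ hδ1
  obtain ⟨q, hq⟩ : ∃ q : ℝ, q = 1 / (1 - δ) := ⟨_, rfl⟩
  rw [← hq] at hq1 hq2
  obtain ⟨K5, hK5, hK5d⟩ := exists_Km (V := V) 5 (by norm_num)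
  obtain ⟨K1, hK1, hK1d⟩ := exists_Km (V := V) (1 + q) (by linarith)
  refine ⟨K1 ∘ₗ (q • ((K5 ∘ₗ ((-3 : ℝ) • s4F V δ)) - s4E V δ)),
    (-(1 + q)) • (K1 ∘ₗ (q • ((K5 ∘ₗ ((-3 : ℝ) • s4F V δ)) - s4E V δ))) +
      q • ((K5 ∘ₗ ((-3 : ℝ) • s4F V δ)) - s4E V δ),
    K5 ∘ₗ ((-3 : ℝ) • s4F V δ), ?_⟩
  intro e f g
  simp only [LinearMap.add_apply, LinearMap.smul_apply, LinearMap.sub_apply, LinearMap.comp_apply,
    s4E_apply, s4F_apply]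
  have hE := s4w_norm hδ hδ1 e
  have hF := s4w_norm hδ hδ1 f
  have hN : 0 ≤ ‖e‖ := norm_nonneg e
  have hN2 : 0 ≤ ‖f‖ := norm_nonneg f
  have hN3 : 0 ≤ ‖g‖ := norm_nonneg g
  obtain ⟨ee, hee⟩ : ∃ ee, ee = s4w V δ e := ⟨_, rfl⟩
  obtain ⟨ff, hff⟩ : ∃ ff, ff = s4w V δ f := ⟨_, rfl⟩
  rw [← hee] at hE
  rw [← hff] at hF
  rw [← hee, ← hff]
  obtain ⟨b, hb⟩ : ∃ b, b = K5 ((-3 : ℝ) • ff) := ⟨_, rfl⟩
  rw [← hb]
  obtain ⟨a, ha⟩ : ∃ a, a = K1 (q • (b - ee)) := ⟨_, rfl⟩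
  rw [← ha]
  have hbn : ‖b‖ ≤ ‖f‖ := by
    rw [hb]
    refine (hK5 _).trans ?_
    rw [div_le_iff₀ (by norm_num), norm_smul, Real.norm_eq_abs, abs_neg,
      abs_of_pos (by norm_num : (0 : ℝ) < 3)]
    linarith
  have hsn : ‖b - ee‖ ≤ 2 * (‖e‖ + ‖f‖) := by
    refine (norm_sub_le _ _).trans ?_
    linarith
  have han : ‖a‖ ≤ 2 * (‖e‖ + ‖f‖) := by
    rw [ha]
    refine (hK1 _).trans ?_
    rw [div_le_iff₀ (by linarith), norm_smul, Real.norm_eq_abs, abs_of_pos (by linarith)]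
    nlinarith [norm_nonneg (b - ee)]
  have hbd := hK5d ((-3 : ℝ) • ff)
  have had := hK1d (q • (b - ee))
  rw [← hb] at hbd
  rw [← ha] at had
  refine ⟨⟨?_, ?_, ?_⟩, ?_, ?_, ?_⟩
  · intro t ht
    refine (had t ht).congr_deriv ?_
    simp only [s4_xt_add, s4_xt_sub, s4_xt_smul]
    rw [neg_smul]
  · intro t ht
    refine (hbd t ht).congr_deriv ?_
    have h2 : (((0 : ℕ) : ℝ) + 3) * vp δ t = 3 * vp δ t := by norm_num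
    rw [h2, mul_smul (3 : ℝ) (vp δ t), ← s4_xt_w f ht, ← hff]
    simp only [s4_xt_smul]
    match_scalars <;> ring
  · intro t
    rw [← hq, ← s4w_apply, ← hee]
    simp only [BoundedContinuousFunction.add_apply, BoundedContinuousFunction.sub_apply,
      BoundedContinuousFunction.smul_apply]
    rw [neg_smul]
  · linarith
  · refine (s4_norm_add_le (A := 3) (B := 2) _ _ _ _ ?_ ?_ han hsn).trans ?_
    · rw [abs_neg, abs_of_pos (by linarith)]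
      linarith
    · rw [abs_of_pos (by linarith)]
      linarith
    · linarith
  · linarith

end
end OD16
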