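import Pool.Agent.LibOD16.Sol3
import Pool.Agent.LibOD16.Sol4
import Pool.Agent.LibOD16.Alg1

set_option autoImplicit false
namespace OD16
open MvPolynomial MeasureTheory Metric
open scoped BoundedContinuousFunction
noncomputable section

/-- A summable family of linear maps defines a bounded operator into `WA`. -/
lemma SolW1_mk {E : Type*} [NormedAddCommGroup E] [NormedSpace ℝ E]
    (T : (l : ℕ) → E →ₗ[ℝ] (Tm →ᵇ V l)) (bd : E → ℕ → ℝ) (hs : ∀ x, Summable (bd x))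
    (hT : ∀ x l, ‖T l x‖ ≤ bd x l) (C : ℝ) (hC : ∀ x, ∑' l, bd x l ≤ C * ‖x‖) :
    ∃ D : E →L[ℝ] WA, (∀ x l, (D x).c l = T l x) ∧ ∀ x, ‖D x‖ ≤ ∑' l, bd x l := by
  have hsum : ∀ x, Summable fun l => ‖T l x‖ := fun x =>
    Summable.of_nonneg_of_le (fun l => norm_nonneg _) (hT x) (hs x)
  have hnorm : ∀ x, ‖WA.mk (fun l => T l x) (hsum x)‖ ≤ ∑' l, bd x l := by
    intro x
    rw [WA.norm_def]
    exact (hsum x).tsum_le_tsum (fun l => hT x l) (hs x)
  let D0 : E →ₗ[ℝ] WA :=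
    { toFun := fun x => WA.mk (fun l => T l x) (hsum x)
      map_add' := fun x y => by
        apply WA.ext
        intro l
        rw [WA.c_add, WA.c_mk, WA.c_mk, WA.c_mk, map_add]
      map_smul' := fun a x => by
        apply WA.ext
        intro l
        rw [RingHom.id_apply, WA.c_smul, WA.c_mk, WA.c_mk, map_smul] }
  refine ⟨D0.mkContinuous C (fun x => (hnorm x).trans (hC x)), fun x l => ?_, fun x => ?_⟩
  · rfl
  · exact hnorm x

/-- The component as a linear map. -/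
def SolW1_cL (l : ℕ) : WA →ₗ[ℝ] (Tm →ᵇ V l) where
  toFun F := F.c l
  map_add' F G := WA.c_add F G l
  map_smul' a F := WA.c_smul a F l

/-- TASK SolW1.  Operators on `WA`.  Multiplication of the component of degree `l` by `c l`. -/
theorem WA.exists_mult (c : ℕ → ℝ) (hc : ∀ l, |c l| ≤ 1) : ∃ T : WA →L[ℝ] WA,
    (∀ F l, (T F).c l = c l • F.c l) ∧ ∀ F, ‖T F‖ ≤ ‖F‖ := by
  obtain ⟨D, hD1, hD2⟩ := SolW1_mk (E := WA) (fun l => c l • SolW1_cL l)
    (fun F l => ‖F.c l‖) (fun F => F.summable_norm)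
    (fun F l => by
      show ‖c l • F.c l‖ ≤ ‖F.c l‖
      rw [norm_smul, Real.norm_eq_abs]
      exact mul_le_of_le_one_left (norm_nonneg _) (hc l))
    1 (fun F => by rw [one_mul, WA.norm_def])
  refine ⟨D, fun F l => hD1 F l, fun F => ?_⟩
  rw [WA.norm_def F]
  exact hD2 F

/-- Lowering. -/
theorem WA.exists_DnW (i : Fin 5) : ∃ T : WA →L[ℝ] WA,
    (∀ F l t, (T F).c l t = dn i l (F.c (l + 1) t)) ∧ ∀ F, ‖T F‖ ≤ ‖F‖ := by
  have hb : ∀ (l : ℕ) (P : V (l + 1)), ‖dn i l P‖ ≤ 1 * ‖P‖ := fun l P => by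
    rw [one_mul]
    exact norm_dn_le i P
  set g : (l : ℕ) → V (l + 1) →L[ℝ] V l := fun l => (dn i l).mkContinuous 1 (hb l) with hg
  have hsum : ∀ F : WA, Summable fun l => ‖F.c (l + 1)‖ := fun F =>
    (summable_nat_add_iff 1).2 F.summable_norm
  have hle : ∀ F : WA, ∑' l, ‖F.c (l + 1)‖ ≤ ‖F‖ := by
    intro F
    rw [WA.norm_def, F.summable_norm.tsum_eq_zero_add]
    exact le_add_of_nonneg_left (norm_nonneg _)
  obtain ⟨D, hD1, hD2⟩ := SolW1_mk (E := WA)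
    (fun l => ((g l).compLeftContinuousBounded Tm).toLinearMap.comp (SolW1_cL (l + 1)))
    (fun F l => ‖F.c (l + 1)‖) hsum
    (fun F l => by
      refine (BoundedContinuousFunction.norm_le (norm_nonneg _)).2 (fun t => ?_)
      show ‖dn i l (F.c (l + 1) t)‖ ≤ ‖F.c (l + 1)‖
      exact (norm_dn_le i _).trans ((F.c (l + 1)).norm_coe_le_norm t))
    1 (fun F => by rw [one_mul]; exact hle F)
  refine ⟨D, fun F l t => ?_, fun F => (hD2 F).trans (hle F)⟩
  rw [hD1]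
  rfl

/-- Raising, the family of maps. -/
def SolW1_up (i : Fin 5) : (l : ℕ) → WA →ₗ[ℝ] (Tm →ᵇ V l)
  | 0 => 0
  | (l + 1) => (((up i l).mkContinuous 16 (fun P => norm_up_le i P)).compLeftContinuousBounded
      Tm).toLinearMap.comp (SolW1_cL l)

/-- Raising, the bounds. -/
def SolW1_upb (F : WA) : ℕ → ℝ
  | 0 => 0
  | (l + 1) => 16 * ‖F.c l‖

/-- Raising. -/
theorem WA.exists_UpW (i : Fin 5) : ∃ T : WA →L[ℝ] WA,
    (∀ F, (T F).c 0 = 0) ∧ (∀ F l t, (T F).c (l + 1) t = up i l (F.c l t)) ∧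
      ∀ F, ‖T F‖ ≤ 16 * ‖F‖ := by
  have hsum : ∀ F : WA, Summable (SolW1_upb F) := fun F =>
    (summable_nat_add_iff 1).1 (by
      show Summable fun l => 16 * ‖F.c l‖
      exact F.summable_norm.mul_left 16)
  have hle : ∀ F : WA, ∑' l, SolW1_upb F l ≤ 16 * ‖F‖ := by
    intro F
    rw [(hsum F).tsum_eq_zero_add, WA.norm_def, ← tsum_mul_left]
    show 0 + ∑' l, 16 * ‖F.c l‖ ≤ _
    rw [zero_add]
  obtain ⟨D, hD1, hD2⟩ := SolW1_mk (E := WA) (SolW1_up i) SolW1_upb hsum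
    (fun F l => by
      cases l with
      | zero =>
        show ‖(0 : Tm →ᵇ V 0)‖ ≤ 0
        rw [norm_zero]
      | succ l =>
        show _ ≤ 16 * ‖F.c l‖
        refine (BoundedContinuousFunction.norm_le (by positivity)).2 (fun t => ?_)
        show ‖up i l (F.c l t)‖ ≤ 16 * ‖F.c l‖
        exact (norm_up_le i _).trans
          (mul_le_mul_of_nonneg_left ((F.c l).norm_coe_le_norm t) (by norm_num)))
    16 hle
  refine ⟨D, fun F => ?_, fun F l t => ?_, fun F => (hD2 F).trans (hle F)⟩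
  · rw [hD1]
    rfl
  · rw [hD1]
    rfl

/-- The three components of degree `l`. -/
def SolW1_c3 (l : ℕ) : (WA × WA × WA) →ₗ[ℝ] ((Tm →ᵇ V l) × (Tm →ᵇ V l) × V l) where
  toFun x := (x.1.c l, x.2.1.c l, x.2.2.c l t0)
  map_add' _ _ := rfl
  map_smul' _ _ := rfl

/-- A family of uniformly bounded operators acts degree by degree. -/
theorem WA.exists_diag (T : (l : ℕ) → ((Tm →ᵇ V l) × (Tm →ᵇ V l) × V l) →ₗ[ℝ] (Tm →ᵇ V l)) (M : ℝ)
    (hT : ∀ l e f g, ‖T l (e, f, g)‖ ≤ M * (‖e‖ + ‖f‖ + ‖g‖)) :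
    ∃ D : (WA × WA × WA) →L[ℝ] WA,
      (∀ e f g l, (D (e, f, g)).c l = T l (e.c l, f.c l, g.c l t0)) ∧
      ∀ e f g, ‖D (e, f, g)‖ ≤ M * (‖e‖ + ‖f‖ + ‖g‖) := by
  have hM : 0 ≤ M := by
    have hc0 : c0 ≠ 0 := by
      intro h
      have h1 := c0_ev (0 : E5)
      rw [h, V.ev_zero] at h1
      exact zero_ne_one h1
    have h1 := hT 0 (BoundedContinuousFunction.const Tm c0) 0 0
    have h2 : 0 < ‖BoundedContinuousFunction.const Tm c0‖ := by
      rw [norm_pos_iff]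
      intro h
      apply hc0
      have := congrArg (fun u : Tm →ᵇ V 0 => u t0) h
      exact this
    rw [norm_zero, norm_zero, add_zero, add_zero] at h1
    have h3 : 0 ≤ M * ‖BoundedContinuousFunction.const Tm c0‖ := (norm_nonneg _).trans h1
    exact nonneg_of_mul_nonneg_left h3 h2
  set bd : (WA × WA × WA) → ℕ → ℝ :=
    fun x l => M * (‖x.1.c l‖ + ‖x.2.1.c l‖ + ‖x.2.2.c l‖) with hbd
  have hsum : ∀ x, Summable (bd x) := fun x =>
    ((x.1.summable_norm.add x.2.1.summable_norm).add x.2.2.summable_norm).mul_left M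
  have htsum : ∀ x, ∑' l, bd x l = M * (‖x.1‖ + ‖x.2.1‖ + ‖x.2.2‖) := by
    intro x
    rw [hbd, WA.norm_def x.1, WA.norm_def x.2.1, WA.norm_def x.2.2,
      ← Summable.tsum_add x.1.summable_norm x.2.1.summable_norm,
      ← Summable.tsum_add (x.1.summable_norm.add x.2.1.summable_norm) x.2.2.summable_norm,
      ← tsum_mul_left]
  obtain ⟨D, hD1, hD2⟩ := SolW1_mk (E := WA × WA × WA) (fun l => (T l).comp (SolW1_c3 l))
    bd hsum
    (fun x l => by
      show ‖T l (x.1.c l, x.2.1.c l, x.2.2.c l t0)‖ ≤ _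
      refine (hT l _ _ _).trans (mul_le_mul_of_nonneg_left ?_ hM)
      exact add_le_add le_rfl ((x.2.2.c l).norm_coe_le_norm t0))
    (M * 3) (fun x => by
      rw [htsum, mul_assoc]
      refine mul_le_mul_of_nonneg_left ?_ hM
      have h1 : ‖x.1‖ ≤ ‖x‖ := norm_fst_le x
      have h2 : ‖x.2‖ ≤ ‖x‖ := norm_snd_le x
      have h3 : ‖x.2.1‖ ≤ ‖x.2‖ := norm_fst_le x.2
      have h4 : ‖x.2.2‖ ≤ ‖x.2‖ := norm_snd_le x.2
      linarith)
  refine ⟨D, fun e f g l => hD1 (e, f, g) l, fun e f g => ?_⟩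
  have := hD2 (e, f, g)
  rw [htsum] at this
  exact this

end
end OD16
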